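import Pool.Agent.P.MP_ee618e_ag.X.Ge0

/-! NV: the surface exists for all parameters. -/

namespace Pool.Agent.P.MP_ee618e_ag.X

open IsDedekindDomain Polynomial
open scoped Classical

namespace NV

/-- every element of the algebraic closure of the prime field is periodic under Frobenius -/
theorem per (c : AlgebraicClosure (ZMod 2)) : ∃ n, 0 < n ∧ c ^ 2 ^ n = c := by
  have hc : IsIntegral (ZMod 2) c := Algebra.IsIntegral.isIntegral c
  have h1 := IntermediateField.adjoin.finiteDimensional hc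
  have h2 : Finite (IntermediateField.adjoin (ZMod 2) {c}) := Module.finite_of_finite (ZMod 2)
  have h3 := Fintype.ofFinite (IntermediateField.adjoin (ZMod 2) {c})
  obtain ⟨n, -, hn⟩ := FiniteField.card (IntermediateField.adjoin (ZMod 2) {c}) 2
  refine ⟨n, n.pos, ?_⟩
  have h4 := FiniteField.pow_card (IntermediateField.AdjoinSimple.gen (ZMod 2) c)
  rw [hn] at h4
  exact congrArg Subtype.val h4

theorem mem_range {k Ω : Type} [Field k] [Field Ω] [Algebra k Ω] [IsAlgClosed k] {c : Ω}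
    (hc : c ∈ cst Ω) : ∃ a : k, algebraMap k Ω a = c := by
  obtain ⟨n, hn, h⟩ := hc
  have h1 : IsAlgebraic k c :=
    ⟨Polynomial.X ^ 2 ^ n - Polynomial.X,
      FiniteField.X_pow_card_pow_sub_X_ne_zero k hn.ne' one_lt_two, by simp [h]⟩
  exact minpoly.mem_range_of_degree_eq_one k c
    (IsAlgClosed.degree_eq_one_of_irreducible k (minpoly.irreducible h1.isIntegral))

theorem solve {Ω : Type} [Field Ω] [IsAlgClosed Ω] {n : ℕ} (hn : 1 < n) (c : Ω) :
    ∃ y : Ω, y ^ n + y = c := by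
  obtain ⟨y, hy⟩ := IsAlgClosed.exists_root
    (Polynomial.X ^ n + (Polynomial.X - Polynomial.C c) : Polynomial Ω) (by
      rw [degree_add_eq_left_of_degree_lt, degree_X_pow]
      · exact_mod_cast (by omega : n ≠ 0)
      · rw [degree_X_sub_C, degree_X_pow]
        exact_mod_cast hn)
  refine ⟨y, ?_⟩
  simp only [IsRoot.def, eval_add, eval_pow, eval_X, eval_sub, eval_C] at hy
  linear_combination hy

theorem pow_frob {Ω : Type} [Field Ω] {σ : Au Ω} (h : ∀ c ∈ cst Ω, σ c = c ^ 4) (r : ℕ) :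
    ∀ c ∈ cst Ω, (σ ^ r) c = c ^ 4 ^ r := by
  intro c hc
  induction r with
  | zero => simp
  | succ r ih => rw [pow_succ', au_mul, ih, map_pow, h c hc, ← pow_mul, pow_succ']

theorem id1 {Ω : Type} [Field Ω] (two : (2 : Ω) = 0) {x y E B : Ω} (n1 : x ≠ 0) (n2 : y ≠ 0) :
    x * y + E ^ 2 / (x * y) - B + B = (x * y + E) ^ 2 / (x * y) := by
  field_simp
  linear_combination (-(x * y * E)) * two

theorem id2 {Ω : Type} [Field Ω] {x y E : Ω} (n2 : y ≠ 0) :
    E / x = E / (x * y) * y := by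
  by_cases h : x = 0
  · simp [h]
  · field_simp

theorem id3 {Ω : Type} [Field Ω] {x y E : Ω} (n1 : x ≠ 0) (n2 : y ≠ 0) (n3 : x * y + E ≠ 0) :
    ((x * y + E) / ((x * y + E) ^ 2 / (x * y))) ^ 2 + (x * y + E) / ((x * y + E) ^ 2 / (x * y)) =
      E / ((x * y + E) ^ 2 / (x * y)) + 2 * (x * y / (x * y + E)) ^ 2 := by
  field_simp
  ring

end NV

open NV in
/-- `Ω` is an algebraic closure of `k(x₁, x₂)`. Solve successively for `y₁, y₂, t, w`, put
`u = x₁ + x₂ + t ^ 2`, `v = y₁ + y₂ + u t + w`, `m = w + (x₁ x₂ + d) / μ`. `move_basis` extends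
`c ↦ c ^ 4`, a power of the extension fixes `b`, `d` and the coordinates (`alpha_orbit`). -/
theorem exists_surf (b d : AlgebraicClosure (ZMod 2)) (hd : d ≠ 0) :
    ∃ (Ω : Type) (_ : Field Ω) (_ : IsAlgClosed Ω) (_ : CharP Ω 2)
      (i : AlgebraicClosure (ZMod 2) →+* Ω) (r : ℕ) (D : Surf Ω (4 ^ r)),
      0 < r ∧ D.b = i b ∧ D.d = i d := by
  let k := AlgebraicClosure (ZMod 2)
  let R := MvPolynomial (Fin 2) k
  let Ω := AlgebraicClosure (FractionRing R)
  have hch : CharP Ω 2 := charP_of_injective_algebraMap (algebraMap k Ω).injective 2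
  let f : R →+* Ω := algebraMap R Ω
  have hf : Function.Injective f := by
    have e : f = (algebraMap (FractionRing R) Ω).comp (algebraMap R (FractionRing R)) :=
      IsScalarTower.algebraMap_eq R (FractionRing R) Ω
    rw [e]
    exact (algebraMap (FractionRing R) Ω).injective.comp (IsFractionRing.injective R _)
  have hfC : ∀ a : k, f (MvPolynomial.C a) = algebraMap k Ω a := fun a =>
    (IsScalarTower.algebraMap_apply k R Ω a).symm
  have halg : ∀ (L : Subfield Ω), (∀ r, f r ∈ L) → ∀ z : Ω, IsAlgebraic L z := by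
    intro L hL z
    have h1 : Algebra.IsAlgebraic R (FractionRing R) :=
      IsLocalization.isAlgebraic (FractionRing R) (nonZeroDivisors R)
    have h2 : Algebra.IsAlgebraic R Ω := Algebra.IsAlgebraic.trans R (FractionRing R) Ω
    exact (h2.isAlgebraic z).ringHom_of_comp_eq (f.codRestrict L hL) (RingHom.id Ω)
      (fun x y h => hf (congrArg Subtype.val h)) rfl
  have hcst : ∀ a : k, algebraMap k Ω a ∈ cst Ω := fun a => by
    obtain ⟨n, hn, h⟩ := per a
    exact ⟨n, hn, by rw [← map_pow, h]⟩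
  obtain ⟨x₁, hx₁⟩ : ∃ x, x = f (MvPolynomial.X 0) := ⟨_, rfl⟩
  obtain ⟨x₂, hx₂⟩ : ∃ x, x = f (MvPolynomial.X 1) := ⟨_, rfl⟩
  have hal : ∀ z : Ω, IsAlgebraic (Subfield.closure (cst Ω ∪ {x₁, x₂})) z := by
    refine halg _ fun r => ?_
    induction r using MvPolynomial.induction_on with
    | C a => rw [hfC]; exact Subfield.subset_closure (Or.inl (hcst a))
    | add p q hp hq => rw [map_add]; exact add_mem hp hq
    | mul_X p n hp =>
      rw [map_mul]
      refine mul_mem hp (Subfield.subset_closure (Or.inr ?_))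
      fin_cases n
      · exact Or.inl hx₁.symm
      · exact Or.inr hx₂.symm
  have hgen0 : AlgebraicIndependent k ![x₁, x₂] := by
    rw [algebraicIndependent_iff_injective_aeval]
    have e : (MvPolynomial.aeval ![x₁, x₂] : R →ₐ[k] Ω) = IsScalarTower.toAlgHom k R Ω := by
      refine MvPolynomial.algHom_ext fun n => ?_
      fin_cases n
      · exact (MvPolynomial.aeval_X _ _).trans hx₁
      · exact (MvPolynomial.aeval_X _ _).trans hx₂
    rw [e]
    exact hf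
  have hgen : AlgebraicIndependent (Subfield.closure (cst Ω)) ![x₁, x₂] := by
    refine hgen0.ringHom_of_comp_eq ((algebraMap k Ω).codRestrict (Subfield.closure (cst Ω))
      fun a => Subfield.subset_closure (hcst a)) (RingHom.id Ω) (fun c => ?_) (fun _ _ h => h) rfl
    have hc : (c : Ω) ∈ cst Ω := (Set.ext_iff.1 (kk_eq (Ω := Ω)) c).1 c.2
    obtain ⟨a, ha⟩ := mem_range (k := k) hc
    exact ⟨a, Subtype.ext ha⟩
  have hfr : Function.Bijective (iterateFrobenius k 2 2) := (iterateFrobeniusEquiv k 2 2).bijective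
  obtain ⟨σ, hσ⟩ := ext_iso f (f.comp (MvPolynomial.map (iterateFrobenius k 2 2))) hf
    (hf.comp (MvPolynomial.map_injective _ hfr.1))
    (Set.eq_univ_of_forall (halg _ fun r => Subfield.subset_closure ⟨r, rfl⟩))
    (Set.eq_univ_of_forall (halg _ fun r => by
      obtain ⟨s, rfl⟩ := MvPolynomial.map_surjective _ hfr.2 r
      exact Subfield.subset_closure ⟨s, rfl⟩))
  have hσc : ∀ c ∈ cst Ω, σ c = c ^ 4 := by
    intro c hc
    obtain ⟨a, rfl⟩ := mem_range (k := k) hc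
    rw [← hfC, hσ, RingHom.comp_apply, MvPolynomial.map_C, hfC, hfC, iterateFrobenius_def, map_pow]
    norm_num
  have hσ1 : σ x₁ = x₁ := by rw [hx₁, hσ, RingHom.comp_apply, MvPolynomial.map_X]
  have hσ2 : σ x₂ = x₂ := by rw [hx₂, hσ, RingHom.comp_apply, MvPolynomial.map_X]
  have hper : ∀ z : Ω, ∃ m, 0 < m ∧ (σ ^ m) z = z := by
    intro z
    refine alpha_orbit (S := cst Ω ∪ {x₁, x₂}) σ ?_ (hal z)
    rintro c (hc | rfl | rfl)
    · obtain ⟨n, hn, h⟩ := id hc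
      refine ⟨n, hn, ?_⟩
      rw [pow_frob hσc n c hc, show (4 : ℕ) ^ n = 2 ^ n * 2 ^ n by rw [← mul_pow]; norm_num, pow_mul, h, h]
    · exact ⟨1, one_pos, by simpa using hσ1⟩
    · exact ⟨1, one_pos, by simpa using hσ2⟩
  obtain ⟨B, hB⟩ : ∃ x, x = algebraMap k Ω b := ⟨_, rfl⟩
  obtain ⟨E, hE⟩ : ∃ x, x = algebraMap k Ω d := ⟨_, rfl⟩
  have E0 : E ≠ 0 := by rw [hE]; exact (_root_.map_ne_zero _).2 hd
  have n1 : x₁ ≠ 0 := by rw [hx₁]; exact (map_ne_zero_iff f hf).2 (MvPolynomial.X_ne_zero 0)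
  have n2 : x₂ ≠ 0 := by rw [hx₂]; exact (map_ne_zero_iff f hf).2 (MvPolynomial.X_ne_zero 1)
  have n3 : x₁ * x₂ + E ≠ 0 := by
    rw [hx₁, hx₂, hE, ← hfC, ← map_mul, ← map_add, map_ne_zero_iff f hf]
    intro h
    have h1 := congrArg (MvPolynomial.eval fun _ => (0 : k)) h
    simp at h1
    exact hd h1
  have two : (2 : Ω) = 0 := CharTwo.two_eq_zero
  obtain ⟨y₁, hy₁⟩ := solve one_lt_two (x₁ ^ 3 + B * x₁ + E ^ 2 / x₁)
  obtain ⟨y₂, hy₂⟩ := solve one_lt_two (x₂ ^ 3 + B * x₂ + E ^ 2 / x₂)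
  obtain ⟨t, ht⟩ := solve (n := 4) (by norm_num) (x₁ * x₂ + E ^ 2 / (x₁ * x₂) - B)
  obtain ⟨w, hw⟩ := solve one_lt_two (t ^ 3)
  have hμ : t ^ 4 + t + B = (x₁ * x₂ + E) ^ 2 / (x₁ * x₂) := by
    rw [ht]
    exact id1 two n1 n2
  obtain ⟨p, hp⟩ : ∃ p : Ω, p = E ^ 2 / (x₁ * x₂) := ⟨_, rfl⟩
  have p1 : E ^ 2 / x₁ = p * x₂ := by rw [hp]; exact id2 n2
  have p2 : E ^ 2 / x₂ = p * x₁ := by rw [hp, mul_comm x₁]; exact id2 n1
  obtain ⟨r, hr, hag⟩ := alpha_finset σ {B, E, x₁, y₁, x₂, y₂, x₁ + x₂ + t ^ 2,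
    y₁ + y₂ + (x₁ + x₂ + t ^ 2) * t + w, t, w + (x₁ * x₂ + E) / (t ^ 4 + t + B)}
    fun z _ => hper z
  have hBc : B ∈ cst Ω := hB ▸ hcst b
  have hEc : E ∈ cst Ω := hE ▸ hcst d
  refine ⟨Ω, inferInstance, inferInstance, hch, algebraMap k Ω, r,
    { b := B, d := E, x₁ := x₁, y₁ := y₁, x₂ := x₂, y₂ := y₂, u := x₁ + x₂ + t ^ 2,
      v := y₁ + y₂ + (x₁ + x₂ + t ^ 2) * t + w, t := t,
      m := w + (x₁ * x₂ + E) / (t ^ 4 + t + B), α := σ ^ r, hb := ?_, hd := ?_, d0 := E0,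
      c₁ := hy₁, c₂ := hy₂, cE := ?_, c₃ := ?_, z₁ := ?_, z₂ := ?_, z₃ := ?_, gen := hgen,
      alg := hal, frob := pow_frob hσc r, fix := ?_ }, hr, hB, hE⟩
  · rw [← pow_frob hσc r B hBc]
    exact hag B (by simp)
  · rw [← pow_frob hσc r E hEc]
    exact hag E (by simp)
  · rw [p1] at hy₁
    rw [p2] at hy₂
    rw [← hp] at ht
    linear_combination hy₁ + hy₂ + hw + (x₁ + x₂) * ht + (-x₁ ^ 2 * x₂ - x₁ ^ 2 * t ^ 2 -
      x₁ * x₂ ^ 2 - 2 * x₁ * x₂ * t ^ 2 + x₁ * y₁ * t + x₁ * y₂ * t - x₁ * t ^ 4 + x₁ * t * w +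
      x₁ * p - x₂ ^ 2 * t ^ 2 + x₂ * y₁ * t + x₂ * y₂ * t - x₂ * t ^ 4 + x₂ * t * w + x₂ * p +
      y₁ * y₂ + y₁ * t ^ 3 + y₁ * w + y₂ * t ^ 3 + y₂ * w + t ^ 3 * w + t ^ 3) * two
  · have h1 : ((x₁ * x₂ + E) / (t ^ 4 + t + B)) ^ 2 + (x₁ * x₂ + E) / (t ^ 4 + t + B) =
        E / (t ^ 4 + t + B) + 2 * (x₁ * x₂ / (x₁ * x₂ + E)) ^ 2 := by
      rw [hμ]
      exact id3 n1 n2 n3
    linear_combination hw + h1 + (w * ((x₁ * x₂ + E) / (t ^ 4 + t + B)) +
      (x₁ * x₂ / (x₁ * x₂ + E)) ^ 2) * two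
  · linear_combination (-t ^ 2) * two
  · linear_combination -ht
  · linear_combination (-((x₁ + x₂ + t ^ 2) * t + w + (x₁ * x₂ + E) / (t ^ 4 + t + B))) * two
  · intro z hz
    refine hag z ?_
    simp only [Set.mem_insert_iff, Set.mem_singleton_iff] at hz
    simp only [Finset.mem_insert, Finset.mem_singleton]
    tauto

end Pool.Agent.P.MP_ee618e_ag.X
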