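import Pool.Agent.P.MP_ee618e_ag.X.B

/-! A1: `ℓ`-adic algebra: bases of `ℓ`-power torsion, limits. -/

namespace Pool.Agent.P.MP_ee618e_ag.X

open IsDedekindDomain Polynomial
open scoped Classical

variable (ℓ : ℕ) [Fact ℓ.Prime]

/-- compatible bases of the `ℓ ^ n`-torsion and coordinates -/
structure PB (Y : Type) [AddCommGroup Y] where
  ρ : ℕ
  t : ℕ → Fin ρ → Y
  co : (n : ℕ) → Y → Fin ρ → ZMod (ℓ ^ n)
  tor : ∀ n i, ℓ ^ n • t n i = 0
  succ : ∀ n i, ℓ • t (n + 1) i = t n i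
  eq : ∀ n x, ℓ ^ n • x = 0 → ∑ i, (co n x i).val • t n i = x
  co_sum : ∀ n (a : Fin ρ → ZMod (ℓ ^ n)), co n (∑ i, (a i).val • t n i) = a
  add : ∀ n x y, ℓ ^ n • x = 0 → ℓ ^ n • y = 0 → co n (x + y) = co n x + co n y
  red : ∀ n x, ℓ ^ (n + 1) • x = 0 → ∀ i, co n (ℓ • x) i = red ℓ n (co (n + 1) x i)

theorem a1_vec (V : Type) [AddCommGroup V] [Module (ZMod ℓ) V] [Finite V] :
    ∃ (ρ : ℕ) (b : Fin ρ → V), (∀ a : Fin ρ → ℤ, ∑ i, a i • b i = 0 → ∀ i, (ℓ : ℤ) ∣ a i) ∧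
      ∀ x, ∃ a : Fin ρ → ℤ, ∑ i, a i • b i = x := by
  have : Module.Finite (ZMod ℓ) V := Module.Finite.of_finite
  let b := Module.finBasis (ZMod ℓ) V
  refine ⟨_, b, fun a ha i => ?_, fun x => ?_⟩
  · simp only [← Int.cast_smul_eq_zsmul (ZMod ℓ)] at ha
    exact (ZMod.intCast_zmod_eq_zero_iff_dvd _ _).1
      (Fintype.linearIndependent_iff.1 b.linearIndependent _ ha i)
  · choose a ha using fun i => ZMod.intCast_surjective (b.repr x i)
    refine ⟨a, ?_⟩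
    simp only [← Int.cast_smul_eq_zsmul (ZMod ℓ), ha, b.sum_repr]

/-- a basis of the `ℓ`-torsion, with integer coefficients -/
theorem a1_basis (Y : Type) [AddCommGroup Y] (fin : {x : Y | ℓ • x = 0}.Finite) :
    ∃ (ρ : ℕ) (b : Fin ρ → Y), (∀ i, ℓ • b i = 0) ∧
      (∀ a : Fin ρ → ℤ, ∑ i, a i • b i = 0 → ∀ i, (ℓ : ℤ) ∣ a i) ∧
      ∀ x, ℓ • x = 0 → ∃ a : Fin ρ → ℤ, ∑ i, a i • b i = x := by
  let V : AddSubgroup Y := (nsmulAddMonoidHom ℓ : Y →+ Y).ker
  have hV : ∀ x : V, ℓ • x = 0 := fun x => Subtype.ext x.2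
  have : Finite V := fin.to_subtype
  obtain ⟨ρ, b, h1, h2⟩ := @a1_vec ℓ _ V _ (AddCommGroup.zmodModule hV) _
  have key : ∀ a : Fin ρ → ℤ, ∑ i, a i • (b i : Y) = ((∑ i, a i • b i : V) : Y) := fun a => by
    simp only [AddSubgroup.val_finsetSum, AddSubgroupClass.coe_zsmul]
  refine ⟨_, fun i => b i, fun i => (b i).2, fun a ha => h1 a ?_, fun x hx => ?_⟩
  · rwa [key, ZeroMemClass.coe_eq_zero] at ha
  · obtain ⟨a, ha⟩ := h2 ⟨x, hx⟩
    exact ⟨a, by rw [key, ha]⟩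

/-- `t 1` is a basis of the `ZMod ℓ`-vector space `Y[ℓ]`; divide successively by `ℓ` -/
theorem exists_pb (Y : Type) [AddCommGroup Y] (fin : {x : Y | ℓ • x = 0}.Finite)
    (dvs : ∀ x : Y, ∃ y, ℓ • y = x) : Nonempty (PB ℓ Y) := by
  obtain ⟨ρ, b, hb, inj1, sur1⟩ := a1_basis ℓ Y fin
  choose d hd using dvs
  let t : ℕ → Fin ρ → Y := fun n i => ℓ • d^[n] (b i)
  have succ : ∀ n i, ℓ • t (n + 1) i = t n i := fun n i => by
    simp only [t, Function.iterate_succ_apply', hd]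
  have tor : ∀ n i, ℓ ^ n • t n i = 0 := fun n i => by
    induction n with
    | zero => simpa [t] using hb i
    | succ n ih => rw [pow_succ, mul_smul, succ, ih]
  have top : ∀ n i, ℓ ^ n • t (n + 1) i = b i := fun n i => by
    induction n with
    | zero => simp [t, hd]
    | succ n ih => rw [pow_succ, mul_smul, succ, ih]
  have hl : ∀ n (a : Fin ρ → ℤ), ℓ • ∑ i, a i • t (n + 1) i = ∑ i, a i • t n i := fun n a => by
    rw [Finset.smul_sum]
    exact Finset.sum_congr rfl fun i _ => by rw [smul_comm, succ]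
  have hp : ∀ n (a : Fin ρ → ℤ), ∑ i, ((ℓ : ℤ) ^ n * a i) • t (n + 1) i = ∑ i, a i • b i :=
    fun n a => Finset.sum_congr rfl fun i _ => by
      rw [mul_comm, mul_smul, ← Nat.cast_pow, natCast_zsmul, top]
  have inj : ∀ n (a : Fin ρ → ℤ), ∑ i, a i • t n i = 0 → ∀ i, (ℓ : ℤ) ^ n ∣ a i := by
    intro n
    induction n with
    | zero => simp
    | succ n ih =>
      intro a ha i
      choose c hc using ih a (by rw [← hl, ha, smul_zero])
      rw [hc i, pow_succ]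
      refine mul_dvd_mul_left _ (inj1 c ?_ i)
      rw [← hp n, ← ha]
      simp only [← hc]
  have sur : ∀ n x, ℓ ^ n • x = 0 → ∃ a : Fin ρ → ℤ, ∑ i, a i • t n i = x := by
    intro n
    induction n with
    | zero => exact fun x hx => ⟨0, by simpa using hx.symm⟩
    | succ n ih =>
      intro x hx
      obtain ⟨a, ha⟩ := ih (ℓ • x) (by rw [← mul_smul, ← pow_succ, hx])
      obtain ⟨c, hc⟩ := sur1 (x - ∑ i, a i • t (n + 1) i) (by rw [smul_sub, hl, ha, sub_self])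
      refine ⟨fun i => a i + (ℓ : ℤ) ^ n * c i, ?_⟩
      simp only [add_smul, Finset.sum_add_distrib, hp, hc, add_sub_cancel]
  let Φ : (n : ℕ) → (Fin ρ → ZMod (ℓ ^ n)) → Y := fun n a => ∑ i, (a i).val • t n i
  have hΦ : ∀ n (a : Fin ρ → ℤ), Φ n (fun i => (a i : ZMod (ℓ ^ n))) = ∑ i, a i • t n i :=
    fun n a => Finset.sum_congr rfl fun i _ => by
      rw [← natCast_zsmul, ZMod.val_intCast]
      conv_rhs => rw [← Int.emod_add_ediv_mul (a i) ((ℓ ^ n : ℕ) : ℤ), add_smul, mul_smul,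
        natCast_zsmul, tor, smul_zero, add_zero]
  have lift : ∀ n (a : Fin ρ → ZMod (ℓ ^ n)), ∃ c : Fin ρ → ℤ, a = fun i => (c i : ZMod (ℓ ^ n)) :=
    fun n a => by
      choose c hc using fun i => ZMod.intCast_surjective (a i)
      exact ⟨c, funext fun i => (hc i).symm⟩
  have hi : ∀ n, Function.Injective (Φ n) := fun n a a' h => by
    obtain ⟨c, rfl⟩ := lift n a
    obtain ⟨c', rfl⟩ := lift n a'
    rw [hΦ, hΦ] at h
    funext i
    rw [ZMod.intCast_eq_intCast_iff_dvd_sub, Nat.cast_pow]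
    exact inj n (fun i => c' i - c i) (by simp only [sub_smul, Finset.sum_sub_distrib, h, sub_self]) i
  have he : ∀ n x, ℓ ^ n • x = 0 → Φ n (Function.invFun (Φ n) x) = x := fun n x hx => by
    obtain ⟨a, ha⟩ := sur n x hx
    exact Function.invFun_eq ⟨_, (hΦ n a).trans ha⟩
  refine ⟨⟨ρ, t, fun n => Function.invFun (Φ n), tor, succ, he,
    fun n => Function.leftInverse_invFun (hi n), fun n x y hx hy => hi n ?_, fun n x hx i => ?_⟩⟩
  · have h1 := he n x hx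
    have h2 := he n y hy
    obtain ⟨c, hc⟩ := lift n (Function.invFun (Φ n) x)
    obtain ⟨c', hc'⟩ := lift n (Function.invFun (Φ n) y)
    have h3 : Function.invFun (Φ n) x + Function.invFun (Φ n) y =
        fun i => ((c i + c' i : ℤ) : ZMod (ℓ ^ n)) := by
      funext i
      simp [hc, hc']
    rw [hc, hΦ] at h1
    rw [hc', hΦ] at h2
    rw [he n _ (by rw [smul_add, hx, hy, add_zero]), h3, hΦ, ← h1, ← h2]
    simp only [add_smul, Finset.sum_add_distrib]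
  · have h1 := he (n + 1) x hx
    obtain ⟨c, hc⟩ := lift (n + 1) (Function.invFun (Φ (n + 1)) x)
    rw [hc, hΦ] at h1
    have h2 : ℓ • x = Φ n fun i => (c i : ZMod (ℓ ^ n)) := by rw [hΦ, ← hl, h1]
    rw [h2, Function.leftInverse_invFun (hi n), hc, map_intCast]

theorem red_toZModPow (n : ℕ) (z : ℤ_[ℓ]) :
    red ℓ n (PadicInt.toZModPow (n + 1) z) = PadicInt.toZModPow n z := by
  exact congrFun (congrArg DFunLike.coe (PadicInt.zmod_cast_comp_toZModPow n (n + 1) n.le_succ)) z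

/-- `PadicInt.ofIntSeq`, `PadicInt.toZModPow_ofIntSeq_of_pow_dvd_sub` -/
theorem exists_lim (a : (n : ℕ) → ZMod (ℓ ^ n)) (h : ∀ n, red ℓ n (a (n + 1)) = a n) :
    ∃ z : ℤ_[ℓ], ∀ n, PadicInt.toZModPow n z = a n := by
  choose c hc using fun n => ZMod.intCast_surjective (a n)
  have hd : ∀ n, (ℓ : ℤ) ^ n ∣ c (n + 1) - c n := fun n => by
    rw [← Nat.cast_pow, ← ZMod.intCast_eq_intCast_iff_dvd_sub, hc, ← h, ← hc, map_intCast]
  exact ⟨_, fun n => (PadicInt.toZModPow_ofIntSeq_of_pow_dvd_sub c ℓ hd n).trans (hc n)⟩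

theorem padic_ext {z z' : ℤ_[ℓ]} (h : ∀ n, PadicInt.toZModPow n z = PadicInt.toZModPow n z') :
    z = z' := by
  exact PadicInt.ext_of_toZModPow.1 h

theorem toZModPow_eq_zero {n : ℕ} {z : ℤ_[ℓ]} :
    PadicInt.toZModPow n z = 0 ↔ (ℓ : ℤ_[ℓ]) ^ n ∣ z := by
  rw [← RingHom.mem_ker, PadicInt.ker_toZModPow, Ideal.mem_span_singleton]

/-- Kőnig's lemma (`exists_seq_forall_proj_of_forall_finite`) -/
theorem konig {Y : ℕ → Type} (U : (n : ℕ) → Set (Y n)) (p : (n : ℕ) → Y (n + 1) → Y n)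
    (fin : ∀ n, (U n).Finite) (ne : ∀ n, (U n).Nonempty) (hp : ∀ n, ∀ y ∈ U (n + 1), p n y ∈ U n) :
    ∃ y : (n : ℕ) → Y n, (∀ n, y n ∈ U n) ∧ ∀ n, p n (y (n + 1)) = y n := by
  let _ : ∀ n, TopologicalSpace (U n) := fun n => ⊥
  have : ∀ n, DiscreteTopology (U n) := fun n => ⟨rfl⟩
  have : ∀ n, Finite (U n) := fun n => (fin n).to_subtype
  have key : ∀ m (y : U m), ∃ f : (n : ℕ) → U n, f m = y ∧
      ∀ n < m, p n (f (n + 1)) = f n := by
    intro m
    induction m with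
    | zero =>
      exact fun y => ⟨Function.update (fun n => ⟨_, (ne n).some_mem⟩) 0 y, by simp, by simp⟩
    | succ m ih =>
      intro y
      obtain ⟨f, h1, h2⟩ := ih ⟨p m y, hp m y y.2⟩
      refine ⟨Function.update f (m + 1) y, by simp, fun n hn => ?_⟩
      rw [Function.update_of_ne hn.ne]
      rcases (Nat.lt_succ_iff.1 hn).eq_or_lt with rfl | h
      · rw [Function.update_self, h1]
      · rw [Function.update_of_ne (by omega), h2 n h]
  have hcl : ∀ m, IsClosed {f : (n : ℕ) → U n | ∀ n < m, p n (f (n + 1)) = f n} := fun m => by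
    simp only [Set.ofPred_forall]
    refine isClosed_iInter fun n => isClosed_iInter fun _ => ?_
    have hc : Continuous fun f : (n : ℕ) → U n => (f (n + 1), f n) :=
      (continuous_apply (n + 1)).prodMk (continuous_apply n)
    exact (isClosed_discrete {q : U (n + 1) × U n | p n q.1 = q.2}).preimage hc
  obtain ⟨f, hf⟩ := IsCompact.nonempty_iInter_of_sequence_nonempty_isCompact_isClosed
    (fun m => {f : (n : ℕ) → U n | ∀ n < m, p n (f (n + 1)) = f n})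
    (fun m f hf n hn => hf n (Nat.lt_succ_of_lt hn))
    (fun m => (key m ⟨_, (ne m).some_mem⟩).imp fun f h => h.2) (hcl 0).isCompact hcl
  exact ⟨fun n => f n, fun n => (f n).2, fun n => Set.mem_iInter.1 hf (n + 1) n n.lt_succ_self⟩

/-- Krull's intersection theorem (`Ideal.iInf_pow_smul_eq_bot_of_isLocalRing`) for `M / D` -/
theorem krull {V : Type} [AddCommGroup V] [Module ℤ_[ℓ] V] {M D : Submodule ℤ_[ℓ] V} (hM : M.FG)
    (hD : D ≤ M) {x : V} (h : ∀ n : ℕ, ∃ d ∈ D, ∃ y ∈ M, x = d + (ℓ : ℤ_[ℓ]) ^ n • y) :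
    x ∈ D := by
  have : Module.Finite ℤ_[ℓ] M := Module.Finite.iff_fg.2 hM
  have hx : x ∈ M := by
    obtain ⟨d, hd, y, hy, rfl⟩ := h 0
    exact M.add_mem (hD hd) (M.smul_mem _ hy)
  have hI : Ideal.span {(ℓ : ℤ_[ℓ])} ≠ ⊤ := by
    rw [← PadicInt.maximalIdeal_eq_span_p]
    exact (IsLocalRing.maximalIdeal.isMaximal _).ne_top
  have h1 := Ideal.iInf_pow_smul_eq_bot_of_isLocalRing (M := M ⧸ D.comap M.subtype) _ hI
  have h2 : (D.comap M.subtype).mkQ ⟨x, hx⟩ ∈ (⊥ : Submodule ℤ_[ℓ] _) := by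
    rw [← h1, Submodule.mem_iInf]
    intro n
    obtain ⟨d, hd, y, hy, rfl⟩ := h n
    have e : (⟨_, hx⟩ : M) = ⟨d, hD hd⟩ + (ℓ : ℤ_[ℓ]) ^ n • ⟨y, hy⟩ := rfl
    have e' : (D.comap M.subtype).mkQ ⟨d, hD hd⟩ = 0 := (Submodule.Quotient.mk_eq_zero _).2 hd
    rw [e, map_add, map_smul, e', zero_add]
    exact Submodule.smul_mem_smul (Ideal.pow_mem_pow (Ideal.mem_span_singleton_self _) n) trivial
  have h3 := (Submodule.mem_bot _).1 h2
  rw [Submodule.mkQ_apply, Submodule.Quotient.mk_eq_zero] at h3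
  exact h3

end Pool.Agent.P.MP_ee618e_ag.X
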