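import Pool.Agent.P.MP_ee618e_ag.X.G1

/-! G3: normalisation of cocycles, restriction and corestriction. -/

namespace Pool.Agent.P.MP_ee618e_ag.X

open IsDedekindDomain Polynomial
open scoped Classical

variable {Ω : Type} [Field Ω] {G : Subgroup (Au Ω)} {X : Type} [AddCommGroup X]
  {c : Au Ω → Au Ω → X}

theorem g3_mem {T : Finset Ω} {σ τ : Au Ω} (hσ : σ ∈ G) (hτ : τ ∈ G) (h : Ag T σ τ) :
    σ⁻¹ * τ ∈ G ⊓ Fix ↑T :=
  ⟨G.mul_mem (G.inv_mem hσ) hτ, fun t ht => σ.symm_apply_eq.2 (h t ht).symm⟩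

theorem g3_left {T T' : Finset Ω} {σ τ : Au Ω} (h : Ag (T ∪ T') σ τ) : Ag T σ τ :=
  fun t ht => h t (Finset.mem_union_left _ ht)

theorem g3_right {T T' : Finset Ω} {σ τ : Au Ω} (h : Ag (T ∪ T') σ τ) : Ag T' σ τ :=
  fun t ht => h t (Finset.mem_union_right _ ht)

theorem g3_mul {T : Finset Ω} {σ τ : Au Ω} (h : Ag T σ τ) (ρ : Au Ω) : Ag T (ρ * σ) (ρ * τ) :=
  fun t ht => congrArg ρ (h t ht)

theorem g3_sec (W : Subgroup (Au Ω)) : ∃ s : Au Ω → Au Ω, (∀ σ, (s σ)⁻¹ * σ ∈ W) ∧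
    (∀ σ, ∀ w ∈ W, s (σ * w) = s σ) ∧ ∀ w ∈ W, s w = 1 := by
  refine ⟨fun σ => if σ ∈ W then 1 else (QuotientGroup.mk σ : Au Ω ⧸ W).out, fun σ => ?_,
    fun σ w hw => ?_, fun w hw => if_pos hw⟩
  · by_cases h : σ ∈ W
    · simp [h]
    · simp only [h, if_false]
      exact QuotientGroup.eq.1 (Quotient.out_eq _)
  · simp only [W.mul_mem_cancel_right hw, QuotientGroup.mk_mul_of_mem σ hw]

theorem g3_sec' (T : Finset Ω) {W : Subgroup (Au Ω)} (hW : W ≤ G) (hT : G ⊓ Fix ↑T ≤ W) :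
    ∃ s : Au Ω → Au Ω, (∀ σ, (s σ)⁻¹ * σ ∈ W) ∧ (∀ σ, ∀ w ∈ W, s (σ * w) = s σ) ∧
      (∀ w ∈ W, s w = 1) ∧ (∀ σ ∈ G, s σ ∈ G) ∧ ∀ σ ∈ G, ∀ τ ∈ G, Ag T σ τ → s σ = s τ := by
  obtain ⟨s, h1, h2, h3⟩ := g3_sec W
  refine ⟨s, h1, h2, h3, fun σ hσ => ?_, fun σ hσ τ hτ h => ?_⟩
  · exact G.inv_mem_iff.1 ((G.mul_mem_cancel_right hσ).1 (hW (h1 σ)))
  · rw [← h2 σ _ (hT (g3_mem hσ hτ h)), mul_inv_cancel_left]

/-- Choose a section `s` of `G / W`, put `β (s w) = b w - c s w` (up to a constant). -/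
theorem normalise (hG : FO G) (T : Finset Ω) {W : Subgroup (Au Ω)} (hW : W ≤ G)
    (hT : G ⊓ Fix ↑T ≤ W) (hs : Sm2 G c) (hc : Coc G c) (hb : Cob W c) :
    ∃ β : Au Ω → X, Sm G Set.univ β ∧
      ∀ σ ∈ G, ∀ w ∈ W, c σ w = β σ + β w - β (σ * w) := by
  obtain ⟨s, h1, h2, h3, h4, h5⟩ := g3_sec' T hW hT
  obtain ⟨b, ⟨T1, -, hb1⟩, hb⟩ := hb
  obtain ⟨T2, hs⟩ := hs
  refine ⟨fun σ => b ((s σ)⁻¹ * σ) - c (s σ) ((s σ)⁻¹ * σ) + c 1 1,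
    ⟨T ∪ (T1 ∪ T2), Set.subset_univ _, fun σ hσ τ hτ h => ?_⟩, fun σ hσ w hw => ?_⟩
  · have e := h5 σ hσ τ hτ (g3_left h)
    have e1 := hb1 _ (h1 σ) _ (h1 τ) (by rw [e]; exact g3_mul (g3_left (g3_right h)) _)
    have e2 := hs _ (h4 σ hσ) _ (h4 τ hτ) _ (hW (h1 σ)) _ (hW (h1 τ))
      (by rw [e]; exact fun _ _ => rfl) (by rw [e]; exact g3_mul (g3_right (g3_right h)) _)
    simp only [e1, e2]
  · have e1 := hc _ (h4 σ hσ) _ (hW (h1 σ)) w (hW hw)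
    have e2 := hb _ (h1 σ) w hw
    have e3 := hc 1 G.one_mem 1 G.one_mem w (hW hw)
    rw [mul_inv_cancel_left] at e1
    simp only [one_mul] at e3
    simp only [h2 σ w hw, h3 w hw, inv_one, one_mul, ← mul_assoc]
    linear_combination (norm := abel) e2 - e1 + e3

/-- after `normalise`, `c σ τ` depends only on `τ W`; sum the cocycle identity over `G / W` -/
theorem res_index (hG : FO G) (T : Finset Ω) {W : Subgroup (Au Ω)} (hW : W ≤ G)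
    (hT : G ⊓ Fix ↑T ≤ W) (hs : Sm2 G c) (hc : Coc G c) (hb : Cob W c) :
    Cob G fun σ τ => W.relIndex G • c σ τ := by
  obtain ⟨β, hβ, hn⟩ := normalise hG T hW hT hs hc hb
  have hi : (W.subgroupOf G).index ≠ 0 := relIndex_ne_zero T (fun t _ => hG t) hT
  let _ := Subgroup.fintypeOfIndexNeZero hi
  set d : Au Ω → Au Ω → X := fun σ τ => c σ τ - (β σ + β τ - β (σ * τ)) with hd
  have hdc : Coc G d := hc.sub (coc_d β)
  have hds : Sm2 G d :=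
    hs.map₂ ((hβ.sm2 hβ (· + ·)).map₂ (hβ.sm2_mul hG) (· - ·)) (· - ·)
  have hd0 : ∀ σ ∈ G, ∀ w ∈ W, d σ w = 0 := fun σ hσ w hw => sub_eq_zero.2 (hn σ hσ w hw)
  have hd1 : ∀ σ ∈ G, ∀ τ ∈ G, ∀ w ∈ W, d σ (τ * w) = d σ τ := fun σ hσ τ hτ w hw => by
    have := hdc σ hσ τ hτ w (hW hw)
    rwa [hd0 τ hτ w hw, hd0 _ (G.mul_mem hσ hτ) w hw, zero_add, zero_add] at this
  set F : Au Ω → X := fun σ => ∑ x : G ⧸ W.subgroupOf G, d σ (x.out : G) with hF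
  have hFs : Sm G Set.univ F :=
    (Sm.pi fun x : G ⧸ W.subgroupOf G => hds.left (x.out : G).2).map fun f => ∑ x, f x
  have h1 : Cob G fun σ τ => W.relIndex G • d σ τ := by
    refine ⟨F, hFs, fun σ hσ τ hτ => ?_⟩
    have e1 : ∑ x : G ⧸ W.subgroupOf G, d σ (τ * (x.out : G)) = F σ := by
      refine Fintype.sum_equiv (MulAction.toPerm (⟨τ, hτ⟩ : G)) _ _ fun x => ?_
      obtain ⟨w, hw⟩ := QuotientGroup.mk_out_eq_mul (W.subgroupOf G) ((⟨τ, hτ⟩ : G) * x.out)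
      have e : MulAction.toPerm (⟨τ, hτ⟩ : G) x = QuotientGroup.mk ((⟨τ, hτ⟩ : G) * x.out) :=
        (MulAction.Quotient.mk_smul_out (W.subgroupOf G) (⟨τ, hτ⟩ : G) x).symm
      rw [e, hw]
      exact (hd1 σ hσ _ (G.mul_mem hτ (x.out : G).2) _ w.2).symm
    have e2 := Finset.sum_congr (s₁ := Finset.univ) rfl fun (x : G ⧸ W.subgroupOf G) _ =>
      hdc σ hσ τ hτ _ (x.out : G).2
    rw [Finset.sum_add_distrib, Finset.sum_add_distrib, e1, Finset.sum_const, Finset.card_univ,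
      ← Nat.card_eq_fintype_card] at e2
    have e3 : F τ + F σ = F (σ * τ) + W.relIndex G • d σ τ := e2
    linear_combination (norm := abel) -e3
  have h2 : Cob G fun σ τ => W.relIndex G • (β σ + β τ - β (σ * τ)) :=
    Cob.map (c := fun σ τ => β σ + β τ - β (σ * τ)) ⟨β, hβ, fun _ _ _ _ => rfl⟩
      (nsmulAddMonoidHom (W.relIndex G))
  refine (h1.add h2).congr fun σ _ τ _ => ?_
  rw [← smul_add, hd]
  simp

theorem res_fact {G' V : Subgroup (Au Ω)} (hG' : FO G') (hG : G ≤ G') (T : Finset Ω)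
    (hT : G' ⊓ Fix ↑T ≤ V) (hs : Sm2 G c) (hc : Coc G c) (hb : Cob (G ⊓ V) c) :
    Cob G fun σ τ => (V.relIndex G').factorial • c σ τ := by
  have h1 := res_index (hG'.mono hG) T inf_le_left
    (le_inf inf_le_left ((inf_le_inf_right _ hG).trans hT)) hs hc hb
  rw [Subgroup.inf_relIndex_left] at h1
  have h2 : V.relIndex G' ≠ 0 := relIndex_ne_zero T (fun t _ => hG' t) hT
  have h3 : V.relIndex G ≠ 0 :=
    relIndex_ne_zero T (fun t _ => hG'.mono hG t) ((inf_le_inf_right _ hG).trans hT)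
  obtain ⟨m, hm⟩ := Nat.dvd_factorial (Nat.pos_of_ne_zero h3)
    (Subgroup.relIndex_le_of_le_right hG h2)
  refine (h1.map (nsmulAddMonoidHom m)).congr fun σ _ τ _ => ?_
  rw [hm, mul_comm, mul_smul]
  rfl

/-- extend the cochain from `H` to the open subgroup `H (G ⊓ Fix T)`, then `normalise` -/
theorem hs_normal (hG : FO G) {H : Subgroup (Au Ω)} (hH : H ≤ G)
    (hn : ∀ τ ∈ G, ∀ h ∈ H, τ⁻¹ * h * τ ∈ H) (hs : Sm2 G c) (hc : Coc G c) (hb : Cob H c) :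
    ∃ β : Au Ω → X, Sm G Set.univ β ∧
      ∀ σ ∈ G, ∀ h ∈ H, c σ h = β σ + β h - β (σ * h) := by
  obtain ⟨b, ⟨T1, -, hb1⟩, hb⟩ := hb
  obtain ⟨T2, hs2⟩ := id hs
  obtain ⟨T, hT, -, hst⟩ := exists_stable (G := G) (T1 ∪ T2) fun t _ => hG t
  have hmul : ∀ σ τ h h', h' ∈ H → Ag T σ h → Ag T τ h' → Ag T (σ * τ) (h * h') :=
    fun σ τ h h' hh' a1 a2 t ht => by
      rw [au_mul, au_mul, a2 t ht, a1 _ (hst h' (hH hh') t ht)]
  let W : Subgroup (Au Ω) :=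
    { carrier := {σ | σ ∈ G ∧ ∃ h ∈ H, Ag T σ h}
      mul_mem' := fun {σ τ} ⟨h1, h, hh, a1⟩ ⟨h2, h', hh', a2⟩ =>
        ⟨G.mul_mem h1 h2, h * h', H.mul_mem hh hh', hmul _ _ _ _ hh' a1 a2⟩
      one_mem' := ⟨G.one_mem, 1, H.one_mem, fun _ _ => rfl⟩
      inv_mem' := fun {σ} ⟨h1, h, hh, a1⟩ => ⟨G.inv_mem h1, h⁻¹, H.inv_mem hh, fun t ht =>
        σ.symm_apply_eq.2 ((a1 _ (hst _ (G.inv_mem (hH hh)) t ht)).trans
          (h.apply_symm_apply t)).symm⟩ }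
  let b' : Au Ω → X := fun σ => if e : ∃ h ∈ H, Ag T σ h then b e.choose else 0
  have hb' : ∀ σ, ∀ h ∈ H, Ag T σ h → b' σ = b h := fun σ h hh a => by
    have e : ∃ h ∈ H, Ag T σ h := ⟨h, hh, a⟩
    simp only [b', dif_pos e]
    refine hb1 _ e.choose_spec.1 h hh fun t ht => ?_
    have h1 := hT (Finset.mem_union_left _ ht)
    exact (e.choose_spec.2 t h1).symm.trans (a t h1)
  have hW : Cob W c := by
    refine ⟨b', ⟨T, Set.subset_univ _, ?_⟩, ?_⟩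
    · rintro σ - τ ⟨-, h, hh, a⟩ e
      rw [hb' τ h hh a, hb' σ h hh fun t ht => (e t ht).trans (a t ht)]
    · rintro σ ⟨h1, h, hh, a1⟩ τ ⟨h2, h', hh', a2⟩
      rw [hb' σ h hh a1, hb' τ h' hh' a2, hb' _ _ (H.mul_mem hh hh') (hmul _ _ _ _ hh' a1 a2),
        ← hb h hh h' hh']
      exact hs2 σ h1 h (hH hh) τ h2 h' (hH hh')
        (fun t ht => a1 t (hT (Finset.mem_union_right _ ht)))
        fun t ht => a2 t (hT (Finset.mem_union_right _ ht))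
  obtain ⟨β, h1, h2⟩ := normalise hG T (W := W) (fun _ h => h.1)
    (fun σ h => ⟨h.1, 1, H.one_mem, fun t ht => h.2 t ht⟩) hs hc hW
  exact ⟨β, h1, fun σ hσ h hh => h2 σ hσ h ⟨hH hh, h, hh, fun _ _ => rfl⟩⟩

/-- inner automorphisms act trivially; `β σ = c z (z⁻¹ σ z) - c σ z` up to sign -/
theorem coc_conj (hG : FO G) (hs : Sm2 G c) (hc : Coc G c) {z : Au Ω} (hz : z ∈ G) :
    Cob G fun σ τ => c (z⁻¹ * σ * z) (z⁻¹ * τ * z) - c σ τ := by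
  have hm : ∀ σ ∈ G, z⁻¹ * σ * z ∈ G := fun σ hσ => G.mul_mem (G.mul_mem (G.inv_mem hz) hσ) hz
  refine ⟨fun σ => c z (z⁻¹ * σ * z) - c σ z, Sm.map₂ ?_ (hs.left hz) (· - ·),
    fun σ hσ τ hτ => ?_⟩
  · obtain ⟨T, hT⟩ := hs
    refine ⟨T.image z, Set.subset_univ _, fun σ hσ τ hτ h => ?_⟩
    exact hT z hz z hz _ (hm σ hσ) _ (hm τ hτ) (fun _ _ => rfl) fun t ht =>
      congrArg z.symm (h (z t) (Finset.mem_image_of_mem _ ht))
  · have e1 := hc z hz _ (hm σ hσ) _ (hm τ hτ)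
    have e2 := hc σ hσ z hz _ (hm τ hτ)
    have e3 := hc σ hσ τ hτ z hz
    rw [show z⁻¹ * σ * z * (z⁻¹ * τ * z) = z⁻¹ * (σ * τ) * z by group,
      show z * (z⁻¹ * σ * z) = σ * z by group] at e1
    rw [show z * (z⁻¹ * τ * z) = τ * z by group] at e2
    beta_reduce
    linear_combination (norm := abel1) e1 - e2 + e3

/-- a smooth function extending a character of an open subgroup -/
theorem exists_gamma (hG : FO G) (T : Finset Ω) {W : Subgroup (Au Ω)} (hW : W ≤ G)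
    (hT : G ⊓ Fix ↑T ≤ W) {χ : Au Ω → X} (h : Hom W χ) (hs : Sm W Set.univ χ) :
    ∃ γ : Au Ω → X, Sm G Set.univ γ ∧ γ 1 = 0 ∧ ∀ σ ∈ G, ∀ w ∈ W, γ (σ * w) = γ σ + χ w := by
  obtain ⟨s, h1, h2, h3, -, h5⟩ := g3_sec' T hW hT
  obtain ⟨T1, -, hs⟩ := hs
  refine ⟨fun σ => χ ((s σ)⁻¹ * σ), ⟨T ∪ T1, Set.subset_univ _, fun σ hσ τ hτ e => ?_⟩, ?_,
    fun σ _ w hw => ?_⟩
  · exact hs _ (h1 σ) _ (h1 τ) (by rw [h5 σ hσ τ hτ (g3_left e)]; exact g3_mul (g3_right e) _)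
  · simp only [h3 1 W.one_mem, inv_one, mul_one, h.one]
  · simp only [h2 σ w hw, ← mul_assoc]
    exact h _ (h1 σ) w hw

/-- corestriction of a cup product: `a σ x = σ⁻¹ x` on `G / V`,
`h σ x = (s x)⁻¹ σ s (σ⁻¹ x)` -/
theorem cores (hG : FO G) (T : Finset Ω) {V : Subgroup (Au Ω)} (hV : V ≤ G)
    (hT : G ⊓ Fix ↑T ≤ V) (hn : ∀ τ ∈ G, ∀ v ∈ V, τ⁻¹ * v * τ ∈ V) :
    ∃ (n : ℕ) (s : Fin n → Au Ω) (a : Au Ω → Fin n → Fin n) (h : Au Ω → Fin n → Au Ω),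
      (∀ x, s x ∈ G) ∧ (∃ x, s x ∈ V) ∧
      (∀ σ ∈ V, ∀ x, a σ x = x ∧ h σ x = (s x)⁻¹ * σ * s x) ∧
      ∀ (Y : Type) [CommRing Y] (χ ψ : Au Ω → Y), Hom V χ → Hom V ψ → Sm V Set.univ χ →
        Sm V Set.univ ψ → Coc G (fun σ τ => ∑ x, χ (h σ x) * ψ (h τ (a σ x))) ∧
          Sm2 G fun σ τ => ∑ x, χ (h σ x) * ψ (h τ (a σ x)) := by
  have hi : (V.subgroupOf G).index ≠ 0 := relIndex_ne_zero T (fun t _ => hG t) hT
  let _ := Subgroup.fintypeOfIndexNeZero hi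
  set e := Fintype.equivFin (G ⧸ V.subgroupOf G)
  set s : Fin _ → Au Ω := fun x => ((e.symm x).out : G) with hs
  have hsG : ∀ x, s x ∈ G := fun x => ((e.symm x).out : G).2
  set a : Au Ω → Fin _ → Fin _ := fun σ x =>
    if hσ : σ ∈ G then e ((⟨σ, hσ⟩ : G)⁻¹ • e.symm x) else x with ha
  have ha1 : ∀ σ (hσ : σ ∈ G) x, e.symm (a σ x) = (⟨σ, hσ⟩ : G)⁻¹ • e.symm x := fun σ hσ x => by
    simp only [ha, dif_pos hσ, Equiv.symm_apply_apply]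
  have hiff : ∀ σ ∈ G, ∀ x y, a σ x = y ↔ (s x)⁻¹ * σ * s y ∈ V := by
    intro σ hσ x y
    rw [← e.symm.injective.eq_iff, ha1 σ hσ, inv_smul_eq_iff,
      ← MulAction.Quotient.mk_smul_out, ← Quotient.out_eq (e.symm x)]
    refine QuotientGroup.eq.trans ?_
    rw [Subgroup.mem_subgroupOf, mul_assoc]
    rfl
  have hV' : ∀ σ ∈ G, ∀ x, (s x)⁻¹ * σ * s (a σ x) ∈ V := fun σ hσ x => (hiff σ hσ x _).1 rfl
  have hfix : ∀ σ ∈ V, ∀ x, a σ x = x := fun σ hσ x =>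
    (hiff σ (hV hσ) x x).2 (hn _ (hsG x) σ hσ)
  have hmul : ∀ σ ∈ G, ∀ τ ∈ G, ∀ x, a (σ * τ) x = a τ (a σ x) := fun σ hσ τ hτ x => by
    refine (hiff _ (G.mul_mem hσ hτ) x _).2 ?_
    have := V.mul_mem (hV' σ hσ x) (hV' τ hτ (a σ x))
    rwa [show (s x)⁻¹ * σ * s (a σ x) * ((s (a σ x))⁻¹ * τ * s (a τ (a σ x))) =
      (s x)⁻¹ * (σ * τ) * s (a τ (a σ x)) by group] at this
  have hag : ∀ σ ∈ G, ∀ τ ∈ G, Ag T σ τ → a σ = a τ := fun σ hσ τ hτ h => funext fun x => by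
    have h1 := hT (g3_mem hσ hτ h)
    rw [← hfix _ h1 (a σ x), ← hmul σ hσ _ (hV h1), mul_inv_cancel_left]
  have hsm : ∀ (Y : Type) (χ : Au Ω → Y), Sm V Set.univ χ → ∀ x,
      Sm G Set.univ fun σ => χ ((s x)⁻¹ * σ * s (a σ x)) := by
    rintro Y χ ⟨T1, -, hχ⟩ x
    refine ⟨T ∪ Finset.univ.biUnion fun y => T1.image (s y), Set.subset_univ _,
      fun σ hσ τ hτ h => hχ _ (hV' σ hσ x) _ (hV' τ hτ x) fun t ht => ?_⟩
    rw [hag σ hσ τ hτ (g3_left h)]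
    exact congrArg (s x).symm (g3_right h _ (Finset.mem_biUnion.2
      ⟨a τ x, Finset.mem_univ _, Finset.mem_image_of_mem _ ht⟩))
  refine ⟨_, s, a, fun σ x => (s x)⁻¹ * σ * s (a σ x), hsG, ⟨e (QuotientGroup.mk 1), ?_⟩,
    fun σ hσ x => ⟨hfix σ hσ x, by simp only [hfix σ hσ x]⟩, fun Y _ χ ψ hχ hψ sχ sψ => ⟨?_, ?_⟩⟩
  · obtain ⟨w, hw⟩ := QuotientGroup.mk_out_eq_mul (V.subgroupOf G) (1 : G)
    simp only [hs, Equiv.symm_apply_apply, hw, one_mul]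
    exact w.2
  · intro σ hσ τ hτ ρ hρ
    have hh : ∀ (φ : Au Ω → Y), Hom V φ → ∀ σ ∈ G, ∀ τ ∈ G, ∀ x,
        φ ((s x)⁻¹ * (σ * τ) * s (a (σ * τ) x)) = φ ((s x)⁻¹ * σ * s (a σ x)) +
          φ ((s (a σ x))⁻¹ * τ * s (a τ (a σ x))) := fun φ hφ σ hσ τ hτ x => by
      rw [← hφ _ (hV' σ hσ x) _ (hV' τ hτ _), hmul σ hσ τ hτ]
      congr 1
      group
    have hbij : Function.Bijective (a σ) := Finite.injective_iff_bijective.1 fun x y h => by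
      have h1 := congrArg (a σ⁻¹) h
      rwa [← hmul σ hσ _ (G.inv_mem hσ), ← hmul σ hσ _ (G.inv_mem hσ), mul_inv_cancel,
        hfix 1 V.one_mem, hfix 1 V.one_mem] at h1
    beta_reduce
    rw [← hbij.sum_comp fun y => χ ((s y)⁻¹ * τ * s (a τ y)) *
      ψ ((s (a τ y))⁻¹ * ρ * s (a ρ (a τ y))), ← Finset.sum_add_distrib, ← Finset.sum_add_distrib]
    refine Finset.sum_congr rfl fun x _ => ?_
    rw [hh ψ hψ τ hτ ρ hρ, hh χ hχ σ hσ τ hτ, hmul σ hσ τ hτ]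
    ring
  · have h1 : Sm G Set.univ a := ⟨T, Set.subset_univ _, hag⟩
    exact ((Sm.pi (hsm Y χ sχ)).map₂ h1 Prod.mk).sm2 (Sm.pi (hsm Y ψ sψ))
      fun p q => ∑ x, p.1 x * q (p.2 x)

end Pool.Agent.P.MP_ee618e_ag.X
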