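import Pool.Agent.P.MP_ee618e_ag.X.G2

/-! G4: the Galois correspondence for open subgroups. -/

namespace Pool.Agent.P.MP_ee618e_ag.X

open IsDedekindDomain Polynomial
open scoped Classical

variable {Ω : Type} [Field Ω] {G : Subgroup (Au Ω)}

/-- the elements fixed by a subgroup -/
def g4M (U : Subgroup (Au Ω)) : Submonoid Ω where
  carrier := {x | ∀ u ∈ U, u x = x}
  mul_mem' := fun {_ _} ha hb u hu => by rw [map_mul, ha u hu, hb u hu]
  one_mem' := fun u _ => map_one u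

/-- restriction to a submonoid -/
def g4r (M : Submonoid Ω) (σ : Au Ω) : M →* Ω where
  toFun x := σ x
  map_one' := map_one σ
  map_mul' _ _ := map_mul σ _ _

/-- composition with an automorphism -/
def g4c (M : Submonoid Ω) (σ : Au Ω) (χ : M →* Ω) : M →* Ω where
  toFun x := σ (χ x)
  map_one' := by rw [map_one, map_one]
  map_mul' a b := by rw [map_mul, map_mul]

theorem g4c_inj (M : Submonoid Ω) (σ : Au Ω) : Function.Injective (g4c M σ) := by
  intro a b h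
  ext x
  exact σ.injective (DFunLike.congr_fun h x)

theorem g4c_r (M : Submonoid Ω) (σ τ : Au Ω) : g4c M σ (g4r M τ) = g4r M (σ * τ) := rfl

theorem g4_dedekind (M : Submonoid Ω) (s s' : Finset (M →* Ω))
    (h : ∀ x : M, ∑ χ ∈ s, χ x = ∑ χ ∈ s', χ x) : s ⊆ s' := by
  intro χ hχ
  by_contra hn
  have li := linearIndependent_iff'.1 (linearIndependent_monoidHom M Ω) (s ∪ s')
    (fun ψ => (if ψ ∈ s then 1 else 0) - (if ψ ∈ s' then 1 else 0)) ?_ χ
    (Finset.mem_union_left _ hχ)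
  · simp [hχ, hn] at li
  · funext x
    simp only [Finset.sum_apply, Pi.smul_apply, smul_eq_mul, sub_mul, ite_mul, one_mul, zero_mul,
      Finset.sum_sub_distrib, Pi.zero_apply]
    rw [Finset.sum_ite_mem, Finset.sum_ite_mem, Finset.union_inter_cancel_left,
      Finset.union_inter_cancel_right, h x, sub_self]

/-- Artin: `FixedPoints.toAlgAut_surjective` for the (finite) image of `W` in the automorphism
group of the fixed field of `G ⊓ Fix T`, `T` stable -/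
theorem galc (hG : FO G) (T : Finset Ω) {W : Subgroup (Au Ω)} (hW : W ≤ G)
    (hT : G ⊓ Fix ↑T ≤ W) {σ : Au Ω} (hσ : σ ∈ G)
    (h : ∀ x, (∀ w ∈ W, w x = x) → σ x = x) : σ ∈ W := by
  obtain ⟨T', hTT, -, hst⟩ := exists_stable (G := G) T fun t _ => hG t
  obtain ⟨s, hsG, hs⟩ := exists_reps (G := G) T' fun t _ => hG t
  set M := g4M (G ⊓ Fix (↑T' : Set Ω)) with hM
  have hr : ∀ a ∈ G, ∀ b ∈ G, Ag T' a b → g4r M a = g4r M b := by
    intro a ha b hb hab
    ext x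
    have hu : b⁻¹ * a ∈ G ⊓ Fix (↑T' : Set Ω) :=
      ⟨G.mul_mem (G.inv_mem hb) ha, fun t ht => by
        rw [au_mul, au_inv, hab t ht, RingEquiv.symm_apply_apply]⟩
    have h2 : b.symm (a x) = x := x.2 _ hu
    show a x = b x
    exact (RingEquiv.symm_apply_eq b).1 h2
  have hfin : (g4r M '' (W : Set (Au Ω))).Finite := by
    refine (s.finite_toSet.image (g4r M)).subset ?_
    rintro _ ⟨w, hw, rfl⟩
    obtain ⟨τ, hτ, hag⟩ := hs w (hW hw)
    exact ⟨τ, hτ, (hr _ (hW hw) _ (hsG τ hτ) hag).symm⟩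
  set X := hfin.toFinset with hX
  have mem : ∀ χ, χ ∈ X ↔ ∃ w ∈ W, g4r M w = χ := fun χ => by
    rw [hX, Set.Finite.mem_toFinset]; rfl
  have sm : ∀ (a : Au Ω) (x : M), a (∑ χ ∈ X, χ x) = ∑ χ ∈ X.image (g4c M a), χ x := by
    intro a x
    rw [Finset.sum_image fun _ _ _ _ e => g4c_inj M a e, map_sum]
    rfl
  have fx : ∀ x : M, ∀ w ∈ W, w (∑ χ ∈ X, χ x) = ∑ χ ∈ X, χ x := by
    intro x w hw
    have e : X.image (g4c M w) = X := by
      apply Finset.eq_of_subset_of_card_le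
      · intro χ hχ
        obtain ⟨ψ, hψ, rfl⟩ := Finset.mem_image.1 hχ
        obtain ⟨v, hv, rfl⟩ := (mem ψ).1 hψ
        exact (mem _).2 ⟨w * v, W.mul_mem hw hv, rfl⟩
      · rw [Finset.card_image_of_injective _ (g4c_inj M w)]
    rw [sm, e]
  have sub := g4_dedekind M X (X.image (g4c M σ)) fun x => by
    rw [← sm, h _ (fx x)]
  obtain ⟨ψ, hψ, e⟩ := Finset.mem_image.1 (sub ((mem _).2 ⟨1, W.one_mem, rfl⟩))
  obtain ⟨v, hv, rfl⟩ := (mem ψ).1 hψ
  have hv' : σ * v ∈ W := by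
    refine hT ⟨G.mul_mem hσ (hW hv), fun t ht => ?_⟩
    have ht' : t ∈ M := fun u hu => hu.2 t (hTT ht)
    exact DFunLike.congr_fun e ⟨t, ht'⟩
  simpa using W.mul_mem hv' (W.inv_mem hv)

/-- `W = H U` with `H = Fix S ⊓ Fix A` (normal) and `U = Fix S ⊓ Fix T`; each of the finitely many
cosets `s W ≠ W` moves an element `x` fixed by `W` (`galc`); `fixed_pow` for `S ∪ A` and
`exists_fin_of_closure` -/
theorem smb [IsAlgClosed Ω] {S A : Set Ω} (hS : Acl S = Set.univ) (hA : Fix S ≤ St A)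
    (T : Finset Ω) : ∃ T0 : Finset Ω, ↑T0 ⊆ A ∧ ∀ σ ∈ Fix S, Ag T0 σ 1 →
      ∃ h ∈ Fix S ⊓ Fix A, Ag T σ h := by
  have hG : FO (Fix S) := fo_fix hS
  obtain ⟨T', hTT, -, hst⟩ := exists_stable (G := Fix S) T fun t _ => hG t
  obtain ⟨s, hsG, hs⟩ := exists_reps (G := Fix S) T' fun t _ => hG t
  let W : Subgroup (Au Ω) :=
    { carrier := {σ | σ ∈ Fix S ∧ ∃ h ∈ Fix S ⊓ Fix A, Ag T' σ h}
      mul_mem' := by
        rintro a b ⟨ha, h, hh, hah⟩ ⟨hb, h', hh', hbh⟩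
        refine ⟨mul_mem ha hb, h * h', mul_mem hh hh', fun t ht => ?_⟩
        rw [au_mul, au_mul, hbh t ht, hah _ (hst h' hh'.1 t ht)]
      one_mem' := ⟨one_mem _, 1, one_mem _, fun _ _ => rfl⟩
      inv_mem' := by
        rintro a ⟨ha, h, hh, hah⟩
        refine ⟨inv_mem ha, h⁻¹, inv_mem hh, fun t ht => ?_⟩
        have h1 := hah _ (hst h⁻¹ ((Fix S).inv_mem hh.1) t ht)
        rw [au_inv, RingEquiv.apply_symm_apply] at h1
        rw [au_inv, au_inv]
        exact (RingEquiv.symm_apply_eq a).2 h1.symm }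
  have hW : W ≤ Fix S := fun _ h => h.1
  have hU : Fix S ⊓ Fix (↑T' : Set Ω) ≤ W := fun a ha => ⟨ha.1, 1, one_mem _, fun t ht => ha.2 t ht⟩
  have key : ∀ τ ∈ s, ∃ T1 : Finset Ω, ↑T1 ⊆ A ∧ (τ ∉ W → ∀ σ ∈ Fix S, Ag T1 σ 1 →
      ¬ Ag T' σ τ) := by
    intro τ hτ
    by_cases hw : τ ∈ W
    · exact ⟨∅, by simp, fun h => absurd hw h⟩
    have hx : ∃ x, (∀ w ∈ W, w x = x) ∧ τ x ≠ x := by
      by_contra hc
      push Not at hc
      exact hw (galc hG T' hW hU (hsG τ hτ) hc)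
    obtain ⟨x, hxW, hxτ⟩ := hx
    have hxf : ∀ h ∈ Fix (S ∪ A), h x = x := by
      intro h hh
      rw [fix_union] at hh
      exact hxW h ⟨hh.1, h, hh, fun _ _ => rfl⟩
    obtain ⟨j, -, -, hinj, hj⟩ := fixed_pow hxf (N := 1) (by simp)
    obtain ⟨T1, hT1, hT1'⟩ := exists_fin_of_closure hj
    refine ⟨T1.filter (· ∈ A), fun t ht => (Finset.mem_filter.1 ht).2, fun _ σ hσ hag hστ => ?_⟩
    have h1 : σ (x ^ j) = (1 : Au Ω) (x ^ j) := hT1' σ 1 fun t ht => by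
      rcases hT1 ht with h | h
      · exact hσ t h
      · exact hag t (Finset.mem_filter.2 ⟨ht, h⟩)
    have h2 : σ x = x := hinj (by
      show σ x ^ j = x ^ j
      rw [← map_pow, h1]; rfl)
    have hu : τ⁻¹ * σ ∈ W := hU ⟨(Fix S).mul_mem ((Fix S).inv_mem (hsG τ hτ)) hσ, fun t ht => by
      rw [au_mul, au_inv, hστ t ht, RingEquiv.symm_apply_apply]⟩
    have h3 := hxW _ hu
    rw [au_mul, au_inv, h2] at h3
    exact hxτ ((RingEquiv.symm_apply_eq τ).1 h3).symm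
  choose! f hfA hf using key
  refine ⟨s.biUnion f, fun t ht => ?_, fun σ hσ hag => ?_⟩
  · obtain ⟨τ, hτ, ht⟩ := Finset.mem_biUnion.1 ht
    exact hfA τ hτ ht
  · obtain ⟨τ, hτ, hστ⟩ := hs σ hσ
    have hw : τ ∈ W := by
      by_contra hw
      exact hf τ hτ hw σ hσ (fun t ht => hag t (Finset.mem_biUnion.2 ⟨τ, hτ, ht⟩)) hστ
    obtain ⟨-, h, hh, hτh⟩ := hw
    exact ⟨h, hh, fun t ht => (hστ t (hTT ht)).trans (hτh t (hTT ht))⟩

end Pool.Agent.P.MP_ee618e_ag.X
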