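import Pool.Agent.P.MP_ee618e_ag.X.V2

/-! V2b: transcendence degree of residue fields, existence of valuation rings. -/

namespace Pool.Agent.P.MP_ee618e_ag.X

open IsDedekindDomain Polynomial
open scoped Classical

variable {Ω : Type} [Field Ω] {O : ValuationSubring Ω}

theorem v2b_res (x : O) : res O x = IsLocalRing.residue O x := by
  simp [res]

theorem v2b_res_zero_iff {x : Ω} (hx : x ∈ O) : res O x = 0 ↔ x ∈ O.nonunits := by
  have h := v2b_res (O := O) ⟨x, hx⟩
  have h' : res O x = IsLocalRing.residue O ⟨x, hx⟩ := h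
  rw [h', IsLocalRing.residue_eq_zero_iff]
  exact (O.coe_mem_nonunits_iff (a := ⟨x, hx⟩)).symm

theorem v2b_mul_nonunit {x y : Ω} (hx : x ∈ O.nonunits) (hy : y ∈ O) : x * y ∈ O.nonunits := by
  rw [ValuationSubring.mem_nonunits_iff] at hx ⊢
  rw [map_mul]
  exact mul_lt_one_of_lt_of_le hx ((O.valuation_le_one_iff y).2 hy)

theorem v2b_adjoin {k : Subfield Ω} (hk : (k : Set Ω) ⊆ O) {s : Set Ω} (hs : s ⊆ O) {z : Ω}
    (hz : z ∈ Algebra.adjoin k s) : z ∈ O := by
  induction hz using Algebra.adjoin_induction with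
  | mem x hx => exact hs hx
  | algebraMap r => exact hk r.2
  | add x y _ _ hx hy => exact add_mem hx hy
  | mul x y _ _ hx hy => exact mul_mem hx hy

theorem v2b_aeval_mem {R : Type} [CommRing R] [Algebra R Ω] (hR : ∀ r, algebraMap R Ω r ∈ O)
    {z : Ω} (hz : z ∈ O) (p : R[X]) : aeval z p ∈ O := by
  induction p using Polynomial.induction_on' with
  | add p q hp hq => rw [map_add]; exact add_mem hp hq
  | monomial n a => rw [aeval_monomial]; exact mul_mem (hR a) (pow_mem hz n)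

/-- Take a nonzero nonunit `π ∈ A` and a relation between `x` and `π` which is not divisible by
the last variable; put `π = 0`. -/
theorem res_dep {k A : Subfield Ω} (hk : (k : Set Ω) ⊆ O) (hA : ¬ (A : Set Ω) ⊆ O) {n : ℕ}
    (htd : TD k A (n + 1)) (x : Fin (n + 1) → Ω) (hx : ∀ i, x i ∈ A ∧ x i ∈ O) :
    ∃ Q : MvPolynomial (Fin (n + 1)) k, Q ≠ 0 ∧ MvPolynomial.aeval x Q ∈ O.nonunits := by
  by_cases hind : AlgebraicIndependent k x
  swap
  · rw [algebraicIndependent_iff] at hind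
    push Not at hind
    obtain ⟨Q, hQ, hQ0⟩ := hind
    exact ⟨Q, hQ0, hQ ▸ O.nonunits.zero_mem⟩
  obtain ⟨a, haA, haO⟩ := Set.not_subset.1 hA
  have ha0 : a ≠ 0 := fun h => haO (h ▸ O.zero_mem)
  have hπ : a⁻¹ ∈ O.nonunits := O.inv_mem_nonunits_iff.2 (Or.inr haO)
  have halg : IsAlgebraic (Algebra.adjoin k (Set.range x)) a⁻¹ := by
    by_contra hc
    have h1 := (hind.option_iff_transcendental a⁻¹).2 hc
    have h2 := (algebraicIndependent_equiv (finSuccEquiv (n + 1))).2 h1
    refine htd _ (fun i => ?_) h2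
    simp only [Function.comp_apply]
    cases finSuccEquiv (n + 1) i with
    | none => exact A.inv_mem haA
    | some j => exact (hx j).1
  obtain ⟨q, hq0, hq⟩ := halg.exists_nonzero_coeff_and_aeval_eq_zero
    (mem_nonZeroDivisors_of_ne_zero (inv_ne_zero ha0))
  have hO : ∀ r : Algebra.adjoin k (Set.range x),
      algebraMap (Algebra.adjoin k (Set.range x)) Ω r ∈ O := fun r =>
    v2b_adjoin hk (by rintro _ ⟨i, rfl⟩; exact (hx i).2) r.2
  have h1 := congrArg (aeval a⁻¹) (X_mul_divX_add q)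
  rw [map_add, hq, map_mul, aeval_X, aeval_C] at h1
  have h2 : ((q.coeff 0 : Algebra.adjoin k (Set.range x)) : Ω) ∈ O.nonunits := by
    have h3 := v2b_mul_nonunit hπ (v2b_aeval_mem hO (O.nonunits_le hπ) q.divX)
    rw [eq_neg_of_add_eq_zero_left h1] at h3
    exact neg_mem_iff.1 h3
  obtain ⟨Q, hQ⟩ := (Algebra.adjoin_range_eq_range_aeval k x).le (q.coeff 0).2
  have hQ' : MvPolynomial.aeval x Q = ((q.coeff 0 : Algebra.adjoin k (Set.range x)) : Ω) := hQ
  refine ⟨Q, fun h => hq0 (Subtype.ext ?_), hQ' ▸ h2⟩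
  rw [← hQ', h, map_zero]
  rfl

theorem res_const {k A : Subfield Ω} [IsAlgClosed k] (hk : (k : Set Ω) ⊆ O)
    (hA : ¬ (A : Set Ω) ⊆ O) (htd : TD k A 1) {a : Ω} (ha : a ∈ A) (ha' : a ∈ O) :
    ∃ c ∈ k, a - c ∈ O.nonunits := by
  obtain ⟨Q, hQ0, hQ⟩ : ∃ Q : MvPolynomial (Fin 1) k, Q ≠ 0 ∧
      MvPolynomial.aeval (fun _ => a) Q ∈ O.nonunits :=
    res_dep (n := 0) hk hA htd (fun _ => a) fun _ => ⟨ha, ha'⟩
  have hp0 : MvPolynomial.uniqueAlgEquiv k (Fin 1) Q ≠ 0 :=
    (EmbeddingLike.map_ne_zero_iff (f := MvPolynomial.uniqueAlgEquiv k (Fin 1))).2 hQ0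
  have hpe : ∀ Q : MvPolynomial (Fin 1) k,
      aeval a (MvPolynomial.uniqueAlgEquiv k (Fin 1) Q) =
        MvPolynomial.aeval (fun _ => a) Q := by
    intro Q
    induction Q using MvPolynomial.induction_on with
    | C c => simp
    | add p q hp hq => rw [map_add, map_add, map_add, hp, hq]
    | mul_X p i hp => rw [map_mul, map_mul, map_mul, hp]; simp
  rw [← hpe] at hQ
  generalize MvPolynomial.uniqueAlgEquiv k (Fin 1) Q = p at hp0 hQ
  by_contra hc
  push Not at hc
  have hu : ∀ y ∈ O, y ∉ O.nonunits → O.valuation y = 1 := fun y hy hy' =>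
    le_antisymm ((O.valuation_le_one_iff y).2 hy)
      (not_lt.1 fun h => hy' (O.mem_nonunits_iff.2 h))
  have h1 : ∀ s : Multiset k, O.valuation (aeval a (s.map fun r => X - C r).prod) = 1 := by
    intro s
    induction s using Multiset.induction_on with
    | empty => simp
    | cons r s ih =>
      rw [Multiset.map_cons, Multiset.prod_cons, map_mul, map_mul, ih, mul_one, map_sub, aeval_X,
        aeval_C]
      exact hu _ (sub_mem ha' (hk r.2)) (hc r r.2)
  rw [(IsAlgClosed.splits p).eq_prod_roots, map_mul, aeval_C, O.mem_nonunits_iff, map_mul, h1,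
    mul_one] at hQ
  have h2 : (p.leadingCoeff : Ω) ≠ 0 := by simpa using hp0
  exact not_nonunit hk p.leadingCoeff.2 h2 (O.mem_nonunits_iff.2 hQ)

theorem res_td {k : Subfield Ω} (hk : (k : Set Ω) ⊆ O) (hO : O ≠ ⊤) (htd : TD k Set.univ 2)
    {k' : Subfield (Rf O)} (hk' : ∀ x ∈ k, res O x ∈ k') : TD k' Set.univ 1 := by
  intro y _ hy
  choose x hxO hxy using fun i => res_surj (y i)
  have hA : ¬ ((⊤ : Subfield Ω) : Set Ω) ⊆ O := fun h =>
    hO (eq_top_iff.2 fun z _ => h (Subfield.mem_top z))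
  obtain ⟨Q, hQ0, hQ⟩ := res_dep (n := 1) (A := ⊤) hk hA htd x
    fun i => ⟨Subfield.mem_top _, hxO i⟩
  let ι : k →+* O := k.subtype.codRestrict O.toSubring fun c => hk c.2
  let φ : k →+* k' := ((IsLocalRing.residue O).comp ι).codRestrict k' fun c => by
    have h := hk' c c.2
    rwa [show (c : Ω) = (ι c : O) from rfl, v2b_res] at h
  have key : ∀ Q : MvPolynomial (Fin (1 + 1)) k, MvPolynomial.aeval x Q ∈ O ∧
      res O (MvPolynomial.aeval x Q) = MvPolynomial.aeval y (MvPolynomial.map φ Q) := by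
    intro Q
    induction Q using MvPolynomial.induction_on with
    | C c =>
      rw [MvPolynomial.map_C, MvPolynomial.aeval_C, MvPolynomial.aeval_C]
      exact ⟨hk c.2, v2b_res (ι c)⟩
    | add p q hp hq =>
      rw [map_add, map_add, map_add, res_add hp.1 hq.1, hp.2, hq.2]
      exact ⟨add_mem hp.1 hq.1, rfl⟩
    | mul_X p i hp =>
      rw [map_mul, map_mul, map_mul, MvPolynomial.map_X, MvPolynomial.aeval_X,
        MvPolynomial.aeval_X, res_mul hp.1 (hxO i), hp.2, hxy]
      exact ⟨mul_mem hp.1 (hxO i), rfl⟩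
  have h0 := (v2b_res_zero_iff (key Q).1).2 hQ
  rw [(key Q).2] at h0
  have h1 := algebraicIndependent_iff.1 hy _ h0
  exact hQ0 (MvPolynomial.map_injective φ φ.injective (by rw [h1, map_zero]))

/-- normalise the coefficients of an equation so that one of them is a unit -/
theorem res_alg {S : Set Ω} (hS : Acl S = Set.univ) (O : ValuationSubring Ω) :
    Acl (res O '' ((Subfield.closure S : Set Ω) ∩ O)) = Set.univ := by
  refine Set.eq_univ_of_forall fun z => ?_
  obtain ⟨x, hx, rfl⟩ := res_surj z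
  have hxa : x ∈ Acl S := hS ▸ Set.mem_univ x
  obtain ⟨p, hp0, hp⟩ := hxa
  obtain ⟨j, hj, hmax⟩ := p.support.exists_max_image
    (fun i => O.valuation (p.coeff i : Ω)) (support_nonempty.2 hp0)
  have hc : (p.coeff j : Ω) ≠ 0 := by simpa using mem_support_iff.1 hj
  let p1 : Polynomial Ω := C (p.coeff j : Ω)⁻¹ * p.map (Subfield.closure S).subtype
  have hco : ∀ i, p1.coeff i = (p.coeff j : Ω)⁻¹ * (p.coeff i : Ω) := fun i => by
    simp [p1]
  have hL : ∀ i, p1.coeff i ∈ Subfield.closure S := fun i => by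
    rw [hco]
    exact mul_mem (inv_mem (p.coeff j).2) (p.coeff i).2
  have hO : ∀ i, p1.coeff i ∈ O := fun i => by
    rw [hco]
    by_cases hi : i ∈ p.support
    · rw [← O.valuation_le_one_iff, map_mul, map_inv₀,
        inv_mul_le_one₀ (zero_lt_iff.2 ((_root_.map_ne_zero _).2 hc))]
      exact hmax i hi
    · rw [notMem_support_iff.1 hi]
      simp
  have hev : p1.eval x = 0 := by
    have h : (p.map (Subfield.closure S).subtype).eval x = 0 := by
      rw [eval_map]
      exact hp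
    simp only [p1, eval_mul, h, mul_zero]
  obtain ⟨q, hq⟩ : p1 ∈ lifts O.subtype :=
    (lifts_iff_coeff_lifts p1).2 fun i => ⟨⟨_, hO i⟩, rfl⟩
  have hq' : q.map O.subtype = p1 := hq
  have hqc : ∀ i, ((q.coeff i : O) : Ω) = p1.coeff i := fun i => by
    rw [← hq', coeff_map]
    rfl
  refine mem_acl_of_root (q.map (IsLocalRing.residue O)) (fun h => ?_) (fun i => ?_) ?_
  · have h1 : q.coeff j = 1 := Subtype.ext (by rw [hqc, hco, inv_mul_cancel₀ hc]; rfl)
    have h2 := congrArg (fun r => coeff r j) h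
    simp only [coeff_map, h1, map_one, coeff_zero] at h2
    exact one_ne_zero h2
  · refine subset_acl _ ⟨p1.coeff i, ⟨hL i, hO i⟩, ?_⟩
    rw [coeff_map, ← hqc, v2b_res]
  · have h1 : q.eval ⟨x, hx⟩ = 0 := by
      apply Subtype.ext
      have h2 := eval₂_at_apply (p := q) O.subtype ⟨x, hx⟩
      rw [← eval_map, hq'] at h2
      exact h2.symm.trans hev
    rw [show res O x = IsLocalRing.residue O ⟨x, hx⟩ from v2b_res ⟨x, hx⟩, eval_map,
      eval₂_at_apply, h1, map_zero]

/-- the residues of `L ∩ O` form a field -/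
theorem res_closure (L : Subfield Ω) (O : ValuationSubring Ω) :
    (Subfield.closure (res O '' ((L : Set Ω) ∩ O)) : Set (Rf O)) = res O '' ((L : Set Ω) ∩ O) := by
  have h1 : res O 1 = 1 := (v2b_res (1 : O)).trans (map_one _)
  have h0 : res O 0 = 0 := (v2b_res (0 : O)).trans (map_zero _)
  refine subset_antisymm (fun z hz => ?_) Subfield.subset_closure
  induction hz using Subfield.closure_induction with
  | mem x hx => exact hx
  | one => exact ⟨1, ⟨L.one_mem, O.one_mem⟩, h1⟩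
  | add x y _ _ hx hy =>
    obtain ⟨a, ha, rfl⟩ := hx
    obtain ⟨b, hb, rfl⟩ := hy
    exact ⟨a + b, ⟨L.add_mem ha.1 hb.1, add_mem ha.2 hb.2⟩, res_add ha.2 hb.2⟩
  | neg x _ hx =>
    obtain ⟨a, ha, rfl⟩ := hx
    refine ⟨-a, ⟨L.neg_mem ha.1, neg_mem ha.2⟩, eq_neg_of_add_eq_zero_left ?_⟩
    rw [← res_add (neg_mem ha.2) ha.2, neg_add_cancel, h0]
  | inv x _ hx =>
    obtain ⟨a, ha, rfl⟩ := hx
    by_cases hz : res O a = 0
    · exact ⟨a, ha, by rw [hz, inv_zero]⟩
    · have hn := mt (v2b_res_zero_iff ha.2).2 hz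
      rw [ValuationSubring.mem_nonunits_iff_or, not_or, not_not] at hn
      refine ⟨a⁻¹, ⟨L.inv_mem ha.1, hn.2⟩, eq_inv_of_mul_eq_one_left ?_⟩
      rw [← res_mul hn.2 ha.2, inv_mul_cancel₀ hn.1, h1]
  | mul x y _ _ hx hy =>
    obtain ⟨a, ha, rfl⟩ := hx
    obtain ⟨b, hb, rfl⟩ := hy
    exact ⟨a * b, ⟨L.mul_mem ha.1 hb.1, mul_mem ha.2 hb.2⟩, res_mul ha.2 hb.2⟩

/-- Chevalley (`Ideal.image_subset_nonunits_valuationSubring`, applied in the localisation) -/
theorem dominate {R : Type} [CommRing R] (i : R →+* Ω) (hi : Function.Injective i) (P : Ideal R)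
    [P.IsPrime] : ∃ O : ValuationSubring Ω, (∀ a, i a ∈ O) ∧ ∀ a, i a ∈ O.nonunits ↔ a ∈ P := by
  have hu : ∀ s : P.primeCompl, IsUnit (i s) := fun s =>
    IsUnit.mk0 _ fun h => s.2 (by
      have h0 : (s : R) = 0 := hi (h.trans (map_zero i).symm)
      rw [h0]
      exact P.zero_mem)
  let j : Localization.AtPrime P →+* Ω := IsLocalization.lift hu
  have hj : ∀ a, j (algebraMap R _ a) = i a := fun a => IsLocalization.lift_eq hu a
  obtain ⟨O, h, hloc⟩ := IsLocalRing.exists_factor_valuationRing j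
  refine ⟨O, fun a => hj a ▸ h _, fun a => ?_⟩
  rw [← hj, ← IsLocalization.AtPrime.to_map_mem_maximal_iff (Localization.AtPrime P) P a,
    IsLocalRing.mem_maximalIdeal, mem_nonunits_iff,
    ← isUnit_map_iff (j.codRestrict O.toSubring h)]
  exact O.coe_mem_nonunits_iff (a := ⟨_, h (algebraMap R _ a)⟩)

end Pool.Agent.P.MP_ee618e_ag.X
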