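import Pool.Agent.P.MP_ee618e_ag.X.A1
import Pool.Agent.P.MP_ee618e_ag.X.G3
import Pool.Agent.P.MP_ee618e_ag.X.G4
import Pool.Agent.P.MP_ee618e_ag.X.V2b

/-! A2: `ℓ`-adic characters and coboundaries. -/

namespace Pool.Agent.P.MP_ee618e_ag.X

open IsDedekindDomain Polynomial
open scoped Classical

variable {Ω : Type} [Field Ω] {ℓ : ℕ} [Fact ℓ.Prime] {k : Subfield Ω} {S : Set Ω}
  {G : Subgroup (Au Ω)} {χ ψ : Au Ω → ℤ_[ℓ]} {c c' : Au Ω → Au Ω → ℤ_[ℓ]}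

theorem Lat.add (h : Lat ℓ k S χ) (h' : Lat ℓ k S ψ) : Lat ℓ k S (χ + ψ) := by
  intro n
  simpa only [Pi.add_apply, map_add] using (h n).add (h' n)

theorem Lat.smul (h : Lat ℓ k S χ) (a : ℤ_[ℓ]) : Lat ℓ k S (a • χ) := by
  intro n
  simpa only [Pi.smul_apply, smul_eq_mul, map_mul, AddMonoidHom.coe_mulLeft] using
    (h n).map (AddMonoidHom.mulLeft (PadicInt.toZModPow n a))

theorem lat_zero : Lat ℓ k S 0 := by
  intro n
  simpa only [Pi.zero_apply, map_zero] using (ch_zero : Ch k S fun _ => (0 : ZMod (ℓ ^ n)))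

variable (ℓ k S) in
/-- the module of integral unramified characters -/
def LatM : Submodule ℤ_[ℓ] (Au Ω → ℤ_[ℓ]) where
  carrier := {χ | Lat ℓ k S χ}
  add_mem' := Lat.add
  zero_mem' := lat_zero
  smul_mem' := fun a _ h => Lat.smul h a

theorem Lat.hom (h : Lat ℓ k S χ) : Hom (Fix S) χ := by
  intro σ hσ τ hτ
  refine padic_ext ℓ fun n => ?_
  rw [map_add]
  exact (h n).hom σ hσ τ hτ

theorem Lat.of_closure {S' : Set Ω} (h : Lat ℓ k S χ)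
    (e : Subfield.closure S = Subfield.closure S') : Lat ℓ k S' χ := by
  intro n
  exact (h n).of_closure e

theorem Lat.cj {S' : Set Ω} (h : Lat ℓ k S χ) {s : Au Ω} (hk : s ∈ St (k : Set Ω))
    (hs : ∀ x, s x ∈ Subfield.closure S' ↔ x ∈ Subfield.closure S) : Lat ℓ k S' (cj s χ) := by
  intro n
  exact (h n).cj hk hs

/-- level `m` of `χ / ℓ ^ n` is determined by level `m + n` of `χ` -/
theorem Lat.div (h : Lat ℓ k S χ) {n : ℕ} (h0 : ∀ σ, PadicInt.toZModPow n (χ σ) = 0) :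
    ∃ χ', Lat ℓ k S χ' ∧ χ = (ℓ : ℤ_[ℓ]) ^ n • χ' := by
  choose χ' hχ' using fun σ => (toZModPow_eq_zero ℓ).1 (h0 σ)
  have hl : ((ℓ : ℤ_[ℓ]) ^ n) ≠ 0 :=
    pow_ne_zero _ (Nat.cast_ne_zero.2 (Fact.out : ℓ.Prime).ne_zero)
  have hz : ∀ σ, (∀ m, PadicInt.toZModPow m (χ σ) = 0) → χ' σ = 0 := fun σ hσ => by
    have : χ σ = 0 := padic_ext ℓ fun m => by rw [hσ m, map_zero]
    rw [hχ' σ] at this
    exact (mul_eq_zero.1 this).resolve_left hl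
  refine ⟨χ', fun m => ⟨?_, ?_, ?_, ?_⟩, funext fun σ => by
    rw [Pi.smul_apply, smul_eq_mul]; exact hχ' σ⟩
  · intro σ hσ τ hτ
    have h1 := h.hom σ hσ τ hτ
    rw [hχ' (σ * τ), hχ' σ, hχ' τ, ← mul_add] at h1
    show PadicInt.toZModPow m (χ' (σ * τ)) = _
    rw [mul_left_cancel₀ hl h1, map_add]
  · obtain ⟨T, hT, hs⟩ := (h (n + m)).sm
    refine ⟨T, hT, fun σ hσ τ hτ ha => ?_⟩
    have h1 : PadicInt.toZModPow (n + m) (χ σ) = PadicInt.toZModPow (n + m) (χ τ) :=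
      hs σ hσ τ hτ ha
    rw [← sub_eq_zero, ← map_sub, toZModPow_eq_zero, hχ' σ, hχ' τ, ← mul_sub, pow_add,
      mul_dvd_mul_iff_left hl] at h1
    show PadicInt.toZModPow m (χ' σ) = PadicInt.toZModPow m (χ' τ)
    rw [← sub_eq_zero, ← map_sub, toZModPow_eq_zero]
    exact h1
  · intro σ hσ
    show PadicInt.toZModPow m (χ' σ) = 0
    rw [hz σ fun j => (h j).out σ hσ, map_zero]
  · intro O hO σ hσ hI
    show PadicInt.toZModPow m (χ' σ) = 0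
    rw [hz σ fun j => (h j).unr O hO σ hσ hI, map_zero]

theorem lat_lim (χ : (n : ℕ) → Au Ω → ZMod (ℓ ^ n)) (h : ∀ n, Ch k S (χ n))
    (hr : ∀ n σ, red ℓ n (χ (n + 1) σ) = χ n σ) :
    ∃ χ', Lat ℓ k S χ' ∧ ∀ n σ, PadicInt.toZModPow n (χ' σ) = χ n σ := by
  choose χ' hχ' using fun σ => exists_lim ℓ (fun n => χ n σ) fun n => hr n σ
  refine ⟨χ', fun n => ?_, fun n σ => hχ' σ n⟩
  have : (fun σ => PadicInt.toZModPow n (χ' σ)) = χ n := funext fun σ => hχ' σ n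
  rw [this]
  exact h n

theorem CobL.mono {G' : Subgroup (Au Ω)} (h : CobL ℓ G c) (hG : G' ≤ G) : CobL ℓ G' c := by
  intro n
  exact (h n).mono hG

/-- `res_fact` at every level -/
theorem CobL.res (hG : FO G) (T : Finset Ω) {ι : Type} [Fintype ι] {S' : Set Ω}
    (hS : G ≤ Fix S) (hS' : G ≤ Fix S') {χ ψ : ι → Au Ω → ℤ_[ℓ]} (hχ : ∀ i, Lat ℓ k S (χ i))
    (hψ : ∀ i, Lat ℓ k S' (ψ i)) (h : CobL ℓ (G ⊓ Fix ↑T) fun σ τ => ∑ i, χ i σ * ψ i τ) :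
    ∃ M : ℕ, M ≠ 0 ∧ CobL ℓ G fun σ τ => ∑ i, χ i σ * (M * ψ i τ) := by
  refine ⟨((Fix (↑T : Set Ω)).relIndex G).factorial, Nat.factorial_ne_zero _, fun n => ?_⟩
  have hs : Sm2 G fun σ τ => PadicInt.toZModPow n (∑ i, χ i σ * ψ i τ) := by
    have h1 : Sm G Set.univ fun σ i => PadicInt.toZModPow n (χ i σ) :=
      Sm.pi fun i => (hχ i n).sm.mono hS (Set.subset_univ _)
    have h2 : Sm G Set.univ fun σ i => PadicInt.toZModPow n (ψ i σ) :=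
      Sm.pi fun i => (hψ i n).sm.mono hS' (Set.subset_univ _)
    simpa only [map_sum, map_mul] using h1.sm2 h2 fun a b => ∑ i, a i * b i
  have hc : Coc G fun σ τ => PadicInt.toZModPow n (∑ i, χ i σ * ψ i τ) := by
    intro σ hσ τ hτ ρ hρ
    show PadicInt.toZModPow n _ + PadicInt.toZModPow n _ =
      PadicInt.toZModPow n _ + PadicInt.toZModPow n _
    rw [← map_add, ← map_add, ← Finset.sum_add_distrib, ← Finset.sum_add_distrib]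
    congr 1
    refine Finset.sum_congr rfl fun i _ => ?_
    rw [(hχ i).hom σ (hS hσ) τ (hS hτ), (hψ i).hom τ (hS' hτ) ρ (hS' hρ)]
    ring
  refine (res_fact hG le_rfl T inf_le_right hs hc (h n)).congr fun σ _ τ _ => ?_
  rw [← map_nsmul, nsmul_eq_mul, Finset.mul_sum]
  congr 1
  exact Finset.sum_congr rfl fun i _ => by ring

/-- a smooth character modulo `ℓ ^ n` lifts: `kummer` gives `r`, take an `ℓ`-th root of `r`,
`exists_kum` -/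
theorem hom_lift [IsAlgClosed Ω] (hG : FO G) {ζ : ℕ → Ω} (hζ : Roots ℓ ζ)
    (hGζ : ∀ σ ∈ G, ∀ n, σ (ζ n) = ζ n) {n : ℕ} {β : Au Ω → ZMod (ℓ ^ n)} (h : Hom G β)
    (hs : Sm G Set.univ β) : ∃ β' : Au Ω → ZMod (ℓ ^ (n + 1)), Hom G β' ∧ Sm G Set.univ β' ∧
      ∀ σ ∈ G, red ℓ n (β' σ) = β σ := by
  have hl : ℓ ≠ 0 := (Fact.out : ℓ.Prime).ne_zero
  have hN : ℓ ^ n ≠ 0 := pow_ne_zero _ hl
  have hN' : ℓ ^ (n + 1) ≠ 0 := pow_ne_zero _ hl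
  obtain ⟨r, hr0, hr⟩ := kummer (hζ.prim n) hN (fun σ hσ => hGζ σ hσ n) (fun t _ => hG t) h hs
  obtain ⟨r', hr'⟩ := IsAlgClosed.exists_pow_nat_eq r (Nat.pos_of_ne_zero hl)
  have hr'0 : r' ≠ 0 := by
    rintro rfl
    exact hr0 (by rw [← hr', zero_pow hl])
  have hfix : ∀ σ ∈ G, σ (r' ^ ℓ ^ (n + 1)) = r' ^ ℓ ^ (n + 1) := fun σ hσ => by
    rw [pow_succ', pow_mul, hr', map_pow, hr σ hσ, mul_pow, ← pow_mul, mul_comm (β σ).val, pow_mul,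
      (hζ.prim n).pow_eq_one, one_pow, one_mul]
  obtain ⟨β', -, hβ'⟩ := exists_kum (hζ.prim (n + 1)) hN' hr'0 hfix
  refine ⟨β', hβ'.hom (hζ.prim (n + 1)) hN' fun σ hσ => hGζ σ hσ (n + 1),
    hβ'.sm (hζ.prim (n + 1)) hN' (Set.mem_univ _), fun σ hσ => ?_⟩
  have : NeZero (ℓ ^ (n + 1)) := ⟨hN'⟩
  have e1 : red ℓ n (β' σ) = ((β' σ).val : ZMod (ℓ ^ n)) := by
    rw [ZMod.castHom_apply, ZMod.natCast_val]
  rw [e1]
  refine pow_val_inj (hζ.prim n) hN ?_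
  rw [pow_val_cast (hζ.prim n) hN]
  have e2 : σ r = ζ n ^ (β' σ).val * r := by
    rw [← hr', map_pow, hβ'.2 σ hσ, mul_pow, ← pow_mul, mul_comm (β' σ).val, pow_mul, hζ.succ]
  exact mul_right_cancel₀ hr0 (e2.symm.trans (hr σ hσ))

/-- construct compatible cochains recursively with `hom_lift` -/
theorem CobL.lim [IsAlgClosed Ω] (hG : FO G) {ζ : ℕ → Ω} (hζ : Roots ℓ ζ)
    (hGζ : ∀ σ ∈ G, ∀ n, σ (ζ n) = ζ n) (h : CobL ℓ G c) : ∃ β : Au Ω → ℤ_[ℓ],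
      (∀ n, Sm G Set.univ fun σ => PadicInt.toZModPow n (β σ)) ∧
      ∀ σ ∈ G, ∀ τ ∈ G, c σ τ = β σ + β τ - β (σ * τ) := by
  let P : (n : ℕ) → (Au Ω → ZMod (ℓ ^ n)) → Prop := fun n β => Sm G Set.univ β ∧
    ∀ σ ∈ G, ∀ τ ∈ G, PadicInt.toZModPow n (c σ τ) = β σ + β τ - β (σ * τ)
  have step : ∀ n (β : {β // P n β}), ∃ β' : {β // P (n + 1) β},
      ∀ σ ∈ G, red ℓ n (β'.1 σ) = β.1 σ := by
    rintro n ⟨β, hβ, hβc⟩
    obtain ⟨γ, hγ, hγc⟩ := h (n + 1)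
    have hδ : Hom G fun σ => β σ - red ℓ n (γ σ) := by
      intro σ hσ τ hτ
      have h1 := congrArg (red ℓ n) (hγc σ hσ τ hτ)
      rw [red_toZModPow, hβc σ hσ τ hτ, map_sub, map_add] at h1
      show β (σ * τ) - red ℓ n (γ (σ * τ)) = β σ - red ℓ n (γ σ) + (β τ - red ℓ n (γ τ))
      linear_combination -h1
    obtain ⟨δ, hδh, hδs, hδr⟩ := hom_lift hG hζ hGζ hδ
      (hβ.map₂ hγ fun a b => a - red ℓ n b)
    refine ⟨⟨fun σ => γ σ + δ σ, hγ.map₂ hδs fun a b => a + b, fun σ hσ τ hτ => ?_⟩,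
      fun σ hσ => ?_⟩
    · have h1 := hγc σ hσ τ hτ
      have h2 := hδh σ hσ τ hτ
      show PadicInt.toZModPow (n + 1) (c σ τ) =
        γ σ + δ σ + (γ τ + δ τ) - (γ (σ * τ) + δ (σ * τ))
      linear_combination h1 + h2
    · show red ℓ n (γ σ + δ σ) = β σ
      rw [map_add, hδr σ hσ]
      ring
  choose f hf using step
  obtain ⟨β0, hβ0⟩ := h 0
  let B : (n : ℕ) → {β // P n β} := fun n => Nat.rec (motive := fun n => {β // P n β})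
    ⟨β0, hβ0⟩ (fun n β => f n β) n
  have hB : ∀ σ ∈ G, ∀ n, red ℓ n ((B (n + 1)).1 σ) = (B n).1 σ := fun σ hσ n => hf n (B n) σ hσ
  choose! β hβ using fun σ (hσ : σ ∈ G) => exists_lim ℓ (fun n => (B n).1 σ) (hB σ hσ)
  refine ⟨β, fun n => (B n).2.1.congr fun σ hσ => (hβ σ hσ n).symm, fun σ hσ τ hτ => ?_⟩
  refine padic_ext ℓ fun n => ?_
  rw [map_sub, map_add, hβ σ hσ, hβ τ hτ, hβ _ (G.mul_mem hσ hτ)]
  exact (B n).2.2 σ hσ τ hτ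

end Pool.Agent.P.MP_ee618e_ag.X
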