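import Pool.Agent.P.MP_ee618e_ag.X.K4

/-! K5: the kernel of the cup product. -/

namespace Pool.Agent.P.MP_ee618e_ag.X

open IsDedekindDomain Polynomial
open scoped Classical

variable {Ω : Type} [Field Ω] [IsAlgClosed Ω] {C : Fib Ω} {N : ℕ} {ζ : Ω} {S : Set Ω}
  {t : Au Ω → Cl C.R}

namespace Fib

omit [IsAlgClosed Ω] in
theorem k5_zeta (hζ : IsPrimitiveRoot ζ N) (hN : (N : Ω) ≠ 0) {τ : Au Ω} (hτ : τ ∈ C.GG S) :
    τ ζ = ζ := C.fix_R0_le hτ.1 ζ (C.zeta_mem hζ hN)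

omit [IsAlgClosed Ω] in
theorem k5_nm (hS : C.Base S) {τ : Au Ω} (hτ : τ ∈ C.GG S) : τ ∈ C.Nm := C.G0_le (hS.GG_le hτ)

omit [IsAlgClosed Ω] in
/-- the Kummer character of a conjugate -/
theorem k5_conj (hζ : IsPrimitiveRoot ζ N) (hN : (N : Ω) ≠ 0) (hS : C.Base S) {ρ : Ω}
    {γ : Au Ω → ZMod N} (hγ : Kum ζ (Fix (C.R : Set Ω)) ρ γ) {τ h : Au Ω} (hτ : τ ∈ C.GG S)
    (hh : h ∈ Fix (C.R : Set Ω)) : h (τ ρ) = ζ ^ (γ (τ⁻¹ * h * τ)).val * τ ρ := by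
  have e : h (τ ρ) = τ ((τ⁻¹ * h * τ) ρ) := by
    rw [← au_mul, ← au_mul, ← mul_assoc, ← mul_assoc, mul_inv_cancel, one_mul]
  rw [e, hγ.2 _ (C.Nm_conj (k5_nm hS hτ) hh), map_mul, map_pow, k5_zeta hζ hN hτ]

omit [IsAlgClosed Ω] in
theorem k5_split (hS : C.Base S) {Y : Type} [AddCommGroup Y] {β : Au Ω → Y}
    (hβ : ∀ σ ∈ C.GG S, ∀ h ∈ Fix (C.R : Set Ω), β (σ * h) = β σ + β h) {τ h : Au Ω}
    (hτ : τ ∈ C.GG S) (hh : h ∈ Fix (C.R : Set Ω)) :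
    β h + β τ - β (h * τ) = β h - β (τ⁻¹ * h * τ) := by
  have e : h * τ = τ * (τ⁻¹ * h * τ) := by group
  rw [e, hβ _ hτ _ (C.Nm_conj (k5_nm hS hτ) hh)]
  abel

theorem k5_tors {x : Cl C.R} (hx : ∀ τ ∈ C.GG S, C.ac τ (N • x) = N • x) :
    ∀ τ ∈ C.GG S, N • (x - C.ac τ x) = 0 := fun τ hτ => by
  rw [smul_sub, ← ac_nsmul, hx τ hτ, sub_self]

theorem k5_hom (hN : (N : Ω) ≠ 0) (hS : C.Base S) {x : Cl C.R}
    (hx : ∀ τ ∈ C.GG S, C.ac τ (N • x) = N • x) : Hom (C.GG S) fun τ => x - C.ac τ x := by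
  intro σ hσ τ hτ
  have := ac_tors hN (k5_tors hx τ hτ) (hS.GG_le hσ)
  rw [ac_sub] at this
  beta_reduce
  rw [ac_mul (k5_nm hS hσ) (k5_nm hS hτ), ← this]
  abel

theorem k5_sm (hS : C.Base S) (x : Cl C.R) : Sm (C.GG S) Set.univ fun τ => x - C.ac τ x := by
  obtain ⟨T, -, hT⟩ := sm_ac x
  exact ⟨T, Set.subset_univ _, fun σ hσ τ hτ h => by
    beta_reduce
    rw [hT σ (k5_nm hS hσ) τ (k5_nm hS hτ) h]⟩

/-- `kap (t τ) h = β h - β (τ⁻¹ h τ)`; `kum_R` gives `ρ ^ N = g`; `ρ / (τ ρ r τ) ∈ closure R`; write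
`dv g = N D₁ + D₂` with `0 ≤ D₂ < N`, then `D₂` is invariant and `x = cl D₁` -/
theorem ker (hζ : IsPrimitiveRoot ζ N) (hN : (N : Ω) ≠ 0) (hS : C.Base S)
    (hN0 : ∀ τ ∈ C.GG S, N • t τ = 0) (hH : ∀ h ∈ Fix (C.R : Set Ω), t h = 0)
    (hb : Cob (C.GG S) (C.cup N ζ t)) : ∃ x, ∀ τ ∈ C.GG S, t τ = x - C.ac τ x := by
  have hN' : N ≠ 0 := by rintro rfl; simp at hN
  have hζ0 : ζ ≠ 0 := hζ.ne_zero hN'
  obtain ⟨β, hs, hβ⟩ := hb
  have h1 : ∀ σ ∈ C.GG S, ∀ h ∈ Fix (C.R : Set Ω), β (σ * h) = β σ + β h := fun σ hσ h hh => by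
    have := hβ σ hσ h (hS.le_GG hh)
    rw [cup, hH h hh, kap_zero hζ hN, eq_comm, sub_eq_zero] at this
    exact this.symm
  obtain ⟨g, ρ, hg, hρ, hk⟩ := kum_R (C := C) hζ hN (χ := β)
    (fun σ hσ h hh => h1 σ (hS.le_GG hσ) h hh) (hs.mono hS.le_GG subset_rfl)
  refine ⟨cl ((dv g).mapRange (· / (N : ℤ)) (Int.zero_ediv _)), fun τ hτ => ?_⟩
  have hτN := k5_nm hS hτ
  obtain ⟨-, f, D, r, -, hD, hf, hr, hkr⟩ := kap_spec (C := C) hζ hN (hN0 τ hτ)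
  let g' : C.R := C.rs τ (C.Nm_le hτN) g
  have hg' : (g' : Ω) = τ g := rfl
  have hρ0 := hk.1
  have hr0 := hkr.1
  have hτρ : τ ρ ≠ 0 := (map_ne_zero τ).2 hρ0
  have hzN : (ρ / (τ ρ * r)) ^ N = g / (g' * f) := by
    rw [div_pow, mul_pow, ← map_pow, hρ, hr, hg']
  have hz : ρ / (τ ρ * r) ∈ Subfield.closure (C.R : Set Ω) := by
    refine mem_of_pow hN (fun h hh => ?_) ?_
    · have e := hβ h (hS.le_GG hh) τ hτ
      rw [cup, k5_split hS h1 hτ hh, eq_sub_iff_add_eq] at e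
      rw [map_div₀, map_mul, hk.2 h hh, k5_conj hζ hN hS hk hτ hh, hkr.2 h (hS.le_GG hh).1, ← e,
        pow_val_add hζ hN']
      field_simp
    · rw [hzN]
      exact div_mem (Subfield.subset_closure g.2)
        (mul_mem (Subfield.subset_closure g'.2) (Subfield.subset_closure f.2))
  obtain ⟨a, ha, b, hb, hb0, e⟩ := mem_closure_alg.1 hz
  have ha0 : a ≠ 0 := by
    rintro rfl
    exact div_ne_zero hρ0 (mul_ne_zero hτρ hr0) (e.trans (zero_div _))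
  have hf0 : (f : Ω) ≠ 0 := hr ▸ pow_ne_zero _ hr0
  have hg0 : (g' : Ω) ≠ 0 := (map_ne_zero τ).2 fun h => hg (Subtype.ext h)
  have ea : (⟨a, ha⟩ : C.R) ≠ 0 := fun h => ha0 (congrArg Subtype.val h)
  have eb : (⟨b, hb⟩ : C.R) ≠ 0 := fun h => hb0 (congrArg Subtype.val h)
  have ef : f ≠ 0 := fun h => hf0 (congrArg Subtype.val h)
  have eg : g' ≠ 0 := fun h => hg0 (congrArg Subtype.val h)
  have e2 : g * (⟨b, hb⟩ : C.R) ^ N = (⟨a, ha⟩ : C.R) ^ N * (g' * f) := by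
    apply Subtype.ext
    rw [e, div_pow, div_eq_div_iff (pow_ne_zero _ hb0) (mul_ne_zero hg0 hf0)] at hzN
    push_cast
    exact hzN.symm
  have e3 := congrArg dv e2
  rw [dv_mul hg (pow_ne_zero _ eb), dv_mul (pow_ne_zero _ ea) (mul_ne_zero eg ef), dv_mul eg ef,
    dv_pow eb, dv_pow ea, hf, ← ad_dv hτN hg'] at e3
  have e4 : (dv g).mapRange (· / (N : ℤ)) (Int.zero_ediv _) -
      C.ad τ ((dv g).mapRange (· / (N : ℤ)) (Int.zero_ediv _)) =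
      dv (⟨a, ha⟩ : C.R) - dv (⟨b, hb⟩ : C.R) + D := by
    ext Q
    have hQ : C.ap τ (C.ap τ⁻¹ Q) = Q := by
      rw [← ap_mul hτN (inv_mem hτN), mul_inv_cancel, ap_fix (one_mem _)]
    have e5 := congrArg (fun E : Dv C.R => E Q) e3
    simp only [Finsupp.add_apply, Finsupp.smul_apply, smul_eq_mul] at e5
    have e6 : ∀ E, C.ad τ E Q = E (C.ap τ⁻¹ Q) := fun E => by
      rw [← ad_apply hτN E (C.ap τ⁻¹ Q), hQ]
    rw [e6] at e5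
    simp only [Finsupp.sub_apply, Finsupp.add_apply, e6, Finsupp.mapRange_apply]
    have e7 : dv g Q = dv g (C.ap τ⁻¹ Q) +
        N * (dv (⟨a, ha⟩ : C.R) Q - dv (⟨b, hb⟩ : C.R) Q + D Q) := by linear_combination e5
    rw [e7, Int.add_mul_ediv_left _ _ (Int.natCast_ne_zero.2 hN')]
    ring
  rw [ac_cl, ← map_sub, e4, map_add, map_sub, cl_dv, cl_dv, hD, sub_self, zero_add]

/-- `D` minimal in the class `N x` is invariant; `N D₁ - D = dv a - dv b`, `ρ ^ N = a / b`;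
`kap_kum` for `ρ / τ ρ`, `gamma`, `inf_cob` -/
theorem ker' (hζ : IsPrimitiveRoot ζ N) (hN : (N : Ω) ≠ 0) (hS : C.Base S) {x : Cl C.R}
    (hx : ∀ τ ∈ C.GG S, C.ac τ (N • x) = N • x) :
    Cob (C.GG S) (C.cup N ζ fun τ => x - C.ac τ x) := by
  have hN' : N ≠ 0 := by rintro rfl; simp at hN
  have hζ0 : ζ ≠ 0 := hζ.ne_zero hN'
  obtain ⟨D, hD, hDx⟩ := exists_min (N • x)
  have hinv : ∀ τ ∈ C.GG S, C.ad τ D = D := fun τ hτ => by
    have hm := ad_min hD τ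
    have hc : cl (C.ad τ D) = cl D := by rw [← ac_cl, hDx, hx τ hτ]
    exact Min.unique C.op hD hm.1 hc (hm.2 D hD.1 hc.symm)
  obtain ⟨D₁, hD₁⟩ := cl_surj x
  obtain ⟨a, b, ha, hb, e⟩ := exists_frac (D := (N : ℤ) • D₁ - D)
    (by rw [map_sub, map_zsmul, hD₁, hDx, natCast_zsmul, sub_self])
  obtain ⟨ρ, hρ⟩ := IsAlgClosed.exists_pow_nat_eq ((a : Ω) / b) (Nat.pos_of_ne_zero hN')
  obtain ⟨γ, hs, hk, h1⟩ := gamma hζ hN hS ha hb hρ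
  have key : ∀ τ ∈ C.GG S, ∀ h ∈ Fix (C.R : Set Ω),
      C.kap N ζ (x - C.ac τ x) h = γ h - γ (τ⁻¹ * h * τ) := fun τ hτ h hh => by
    have hτN := k5_nm hS hτ
    let a' : C.R := C.rs τ (C.Nm_le hτN) a
    let b' : C.R := C.rs τ (C.Nm_le hτN) b
    have ha' : (a' : Ω) = τ a := rfl
    have hb' : (b' : Ω) = τ b := rfl
    have ea : a' ≠ 0 := (map_ne_zero_iff _ (RingEquiv.injective _)).2 ha
    have eb : b' ≠ 0 := (map_ne_zero_iff _ (RingEquiv.injective _)).2 hb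
    have e1 := congrArg (C.ad τ) e
    rw [ad_sub, ad_sub, ad_zsmul, hinv τ hτ, ad_dv hτN ha', ad_dv hτN hb'] at e1
    have e2 : dv (a * b') - dv (b * a') = (N : ℤ) • (D₁ - C.ad τ D₁) := by
      rw [dv_mul ha eb, dv_mul hb ea, smul_sub, sub_eq_iff_eq_add.1 e, sub_eq_iff_eq_add.1 e1]
      abel
    have e3 : (ρ / τ ρ) ^ N = ((a * b' : C.R) : Ω) / (b * a' : C.R) := by
      rw [div_pow, ← map_pow, hρ, map_div₀, ← ha', ← hb', div_div_div_eq]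
      push_cast
      rfl
    have hk' := (kap_kum hζ hN (mul_ne_zero ha eb) (mul_ne_zero hb ea) e2 e3).2
    rw [map_sub, ← ac_cl, hD₁] at hk'
    have e4 := hk'.2 h hh
    have hρ0 := hk.1
    have hτρ : τ ρ ≠ 0 := (map_ne_zero τ).2 hρ0
    rw [map_div₀, hk.2 h hh, k5_conj hζ hN hS hk hτ hh] at e4
    refine eq_sub_of_add_eq (pow_val_inj hζ hN' ?_)
    rw [pow_val_add hζ hN']
    field_simp at e4
    rw [e4, mul_comm]
  have hγ : Cob (C.GG S) fun σ τ => γ σ + γ τ - γ (σ * τ) := ⟨γ, hs, fun _ _ _ _ => rfl⟩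
  have hc := inf_cob hS hN (c := fun σ τ => C.cup N ζ (fun τ => x - C.ac τ x) σ τ -
      (γ σ + γ τ - γ (σ * τ)))
    ((cup_sm2 hζ hN inf_le_left (k5_sm hS x) (k5_tors hx)).map₂
      ((hs.sm2 hs (· + ·)).map₂ (hs.sm2_mul hS.fo) (· - ·)) (· - ·))
    ((cup_coc hζ hN inf_le_left (k5_hom hN hS hx) (k5_tors hx)).sub (coc_d γ))
    (fun σ hσ h hh => by
      simp only [cup]
      rw [ac_fix hh, sub_self, kap_zero hζ hN, h1 σ hσ h hh, sub_self, sub_self])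
    (fun σ hσ h hh => by
      simp only [cup]
      rw [key σ hσ h hh, k5_split hS h1 hσ hh, sub_self])
  exact (hc.add hγ).congr fun σ _ τ _ => sub_add_cancel _ _

theorem ker_ch (hζ : IsPrimitiveRoot ζ N) (hN : (N : Ω) ≠ 0) (hS : C.Base S) {x : Cl C.R}
    (hx : ∀ τ ∈ C.GG S, C.ac τ (N • x) = N • x) :
    ∃ t', Ch C.k S t' ∧ (∀ τ, N • t' τ = 0) ∧ ∀ τ ∈ C.GG S, t' τ = x - C.ac τ x :=
  extb hζ hN hS (k5_hom hN hS hx) (k5_sm hS x) (k5_tors hx)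
    (fun h hh => by rw [ac_fix hh, sub_self])
    fun _ _ _ => (ker' hζ hN hS hx).mono inf_le_left

omit [IsAlgClosed Ω] in
theorem ch_fix {Y : Type} [AddCommGroup Y] (hS : C.Base S) {ψ : Au Ω → Y} (h : Ch C.k S ψ) :
    ∀ σ ∈ Fix (C.A : Set Ω), ψ σ = 0 := by
  intro σ hσ
  obtain ⟨T, hT, hs⟩ := h.sm
  rw [hS.acl] at hT
  rw [hs σ (fix_anti hS.SA hσ) 1 (one_mem _) fun z hz => hσ z (hT hz), h.hom.one]

/-- a character of the base is determined by its values on `GG S` (`surj`, `ch_fix`) -/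
theorem ch_ext {Y : Type} [AddCommGroup Y] (hS : C.Base S) {ψ : Au Ω → Y} (h : Ch C.k S ψ)
    (h0 : ∀ τ ∈ C.GG S, ψ τ = 0) (σ : Au Ω) : ψ σ = 0 := by
  by_cases hσ : σ ∈ Fix S
  · obtain ⟨σ', h1, h2⟩ := C.surj (hS.fix_le hσ) (fix_anti hS.kS hσ)
    have h3 : σ' ∈ Fix S := fun z hz => (h2 z (hS.SA hz)).trans (hσ z hz)
    have h4 : σ'⁻¹ * σ ∈ Fix (C.A : Set Ω) := fun z hz => by
      rw [au_mul, ← h2 z hz, au_inv, RingEquiv.symm_apply_apply]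
    have := h.hom σ' h3 _ (fix_anti hS.SA h4)
    rwa [mul_inv_cancel_left, h0 σ' ⟨h1.1, h3⟩, ch_fix hS h _ h4, add_zero] at this
  · exact h.out σ hσ

end Fib

end Pool.Agent.P.MP_ee618e_ag.X
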