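import Pool.Agent.P.MP_ee618e_ag.X.A2
import Pool.Agent.P.MP_ee618e_ag.X.K5

/-! A3: a basis of the `ℓ`-adic characters of a curve; the kernel of the cup product. -/

namespace Pool.Agent.P.MP_ee618e_ag.X

open IsDedekindDomain Polynomial
open scoped Classical

variable {Ω : Type} [Field Ω] [IsAlgClosed Ω] {ℓ : ℕ} [Fact ℓ.Prime] {C : Fib Ω} {ζ : ℕ → Ω}
  {S : Set Ω}

variable (ℓ C ζ) in
/-- a basis of the Tate module and the corresponding characters -/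
structure Bas extends PB ℓ (Cl C.R) where
  κ : Fin ρ → Au Ω → ℤ_[ℓ]
  hκ : ∀ n i σ, PadicInt.toZModPow n (κ i σ) = C.kap (ℓ ^ n) (ζ n) (t n i) σ

omit [IsAlgClosed Ω] [Fact ℓ.Prime] in
theorem pow_cast_ne (hℓ : (ℓ : Ω) ≠ 0) (n : ℕ) : ((ℓ ^ n : ℕ) : Ω) ≠ 0 := by
  rw [Nat.cast_pow]
  exact pow_ne_zero n hℓ

theorem exists_bas (hℓ : (ℓ : Ω) ≠ 0) (hζ : Roots ℓ ζ) (hd : C.Dvs ℓ) : Nonempty (Bas ℓ C ζ) := by
  have hA : ((ℓ : ℕ) : C.A) ≠ 0 := fun h0 => hℓ (by simpa using congrArg Subtype.val h0)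
  obtain ⟨B⟩ := exists_pb ℓ (Cl C.R) (tors_finite C.op hA) hd
  have h : ∀ (i : Fin B.ρ) (σ : Au Ω), ∃ z : ℤ_[ℓ], ∀ n, PadicInt.toZModPow n z =
      C.kap (ℓ ^ n) (ζ n) (B.t n i) σ := fun i σ =>
    exists_lim ℓ _ fun n => by rw [Fib.kap_red hℓ hζ (B.tor (n + 1) i), B.succ]
  choose κ hκ using h
  exact ⟨⟨B, κ, fun n i σ => hκ i σ n⟩⟩

theorem Bas.lat (B : Bas ℓ C ζ) (hℓ : (ℓ : Ω) ≠ 0) (hζ : Roots ℓ ζ) (i : Fin B.ρ) :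
    Lat ℓ C.k (C.R0 : Set Ω) (B.κ i) := by
  intro n
  have e : (fun σ => PadicInt.toZModPow n (B.κ i σ)) = C.kap (ℓ ^ n) (ζ n) (B.t n i) :=
    funext fun σ => B.hκ n i σ
  rw [e]
  exact Fib.kap_ch (hζ.prim n) (pow_cast_ne hℓ n) (B.tor n i)

theorem Bas.kap_eq (B : Bas ℓ C ζ) (hℓ : (ℓ : Ω) ≠ 0) (hζ : Roots ℓ ζ) {n : ℕ} {s : Cl C.R}
    (hs : ℓ ^ n • s = 0) (σ : Au Ω) :
    C.kap (ℓ ^ n) (ζ n) s σ = ∑ i, PadicInt.toZModPow n (B.κ i σ) * B.co n s i := by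
  conv_lhs => rw [← B.eq n s hs]
  rw [Fib.kap_sum (hζ.prim n) (pow_cast_ne hℓ n) (B.tor n)]
  exact Finset.sum_congr rfl fun i _ => by rw [B.hκ, mul_comm]

omit [IsAlgClosed Ω] in
theorem Bas.ch_co (B : Bas ℓ C ζ) {k : Subfield Ω} {n : ℕ} {t : Au Ω → Cl C.R} (h : Ch k S t)
    (h0 : ∀ τ, ℓ ^ n • t τ = 0) (i : Fin B.ρ) : Ch k S fun τ => B.co n (t τ) i := by
  refine h.map' (fun s => B.co n s i) ?_ fun σ τ => ?_
  · have h1 := B.add n 0 0 (nsmul_zero _) (nsmul_zero _)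
    rw [add_zero] at h1
    have h2 := congrFun h1 i
    rw [Pi.add_apply] at h2
    exact left_eq_add.1 h2
  · exact congrFun (B.add n _ _ (h0 σ) (h0 τ)) i

/-- `kap_sur` at every level, `kap_red`, `kap_inj` -/
theorem Bas.span (B : Bas ℓ C ζ) (hℓ : (ℓ : Ω) ≠ 0) (hζ : Roots ℓ ζ) {χ : Au Ω → ℤ_[ℓ]}
    (h : Lat ℓ C.k (C.R0 : Set Ω) χ) : ∃ a : Fin B.ρ → ℤ_[ℓ], ∀ σ, χ σ = ∑ i, a i * B.κ i σ := by
  have h1 : ∀ n, ∃ s, ℓ ^ n • s = 0 ∧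
      C.kap (ℓ ^ n) (ζ n) s = fun σ => PadicInt.toZModPow n (χ σ) := fun n =>
    Fib.kap_sur (hζ.prim n) (pow_cast_ne hℓ n) (h n)
  choose s hs hk using h1
  have h2 : ∀ n, ℓ • s (n + 1) = s n := by
    intro n
    refine Fib.kap_inj (hζ.prim n) (pow_cast_ne hℓ n) ?_ (hs n) fun σ _ => ?_
    · rw [← mul_nsmul', ← pow_succ, hs]
    · rw [← Fib.kap_red hℓ hζ (hs (n + 1)), hk, hk]
      exact red_toZModPow ℓ n _
  have h3 : ∀ i, ∃ a : ℤ_[ℓ], ∀ n, PadicInt.toZModPow n a = B.co n (s n) i := fun i =>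
    exists_lim ℓ _ fun n => by rw [← B.red n _ (hs (n + 1)), h2]
  choose a ha using h3
  refine ⟨a, fun σ => padic_ext ℓ fun n => ?_⟩
  rw [← congrFun (hk n) σ, B.kap_eq hℓ hζ (hs n), map_sum]
  exact Finset.sum_congr rfl fun i _ => by rw [map_mul, ha, mul_comm]

theorem latM_fg (hℓ : (ℓ : Ω) ≠ 0) (hd : C.Dvs ℓ) : (LatM ℓ C.k (C.R0 : Set Ω)).FG := by
  obtain ⟨ζ, hζ⟩ := exists_roots (Ω := Ω) ℓ hℓ
  obtain ⟨B⟩ := exists_bas hℓ hζ hd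
  refine ⟨Finset.univ.image B.κ, le_antisymm (Submodule.span_le.2 ?_) fun χ hχ => ?_⟩
  · intro κ hκ
    obtain ⟨i, -, rfl⟩ := Finset.mem_image.1 hκ
    exact B.lat hℓ hζ i
  · obtain ⟨a, ha⟩ := B.span hℓ hζ hχ
    have e : χ = ∑ i, a i • B.κ i := by
      funext σ
      rw [ha, Finset.sum_apply]
      rfl
    rw [e]
    exact Submodule.sum_mem _ fun i _ => Submodule.smul_mem _ _
      (Submodule.subset_span (by simp))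

end Pool.Agent.P.MP_ee618e_ag.X
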