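import Pool.Agent.P.MP_ee618e_ag.X.A3

/-! A3b: the boundary of an invariant class. -/

namespace Pool.Agent.P.MP_ee618e_ag.X

open IsDedekindDomain Polynomial
open scoped Classical

variable {Ω : Type} [Field Ω] [IsAlgClosed Ω] {ℓ : ℕ} [Fact ℓ.Prime] {C : Fib Ω} {ζ : ℕ → Ω}
  {S : Set Ω}

omit [Fact ℓ.Prime] [IsAlgClosed Ω] in
theorem Fib.Dvs.sys (hd : C.Dvs ℓ) (y : Cl C.R) :
    ∃ x : ℕ → Cl C.R, (∀ n, ℓ • x (n + 1) = x n) ∧ ∀ n, ℓ ^ n • x n = y := by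
  choose f hf using hd
  refine ⟨fun n => f^[n] y, fun n => ?_, fun n => ?_⟩
  · simp only [Function.iterate_succ_apply', hf]
  · induction n with
    | zero => simp
    | succ n ih => simpa only [Function.iterate_succ_apply', pow_succ, mul_smul, hf] using ih

/-- the boundary of an invariant class: `ker_ch` at every level for a compatible system of
`x n` with `ℓ ^ n • x n = y`; `ac_tors`, `ch_ext`, `lat_lim` -/
theorem Bas.delta (B : Bas ℓ C ζ) (hℓ : (ℓ : Ω) ≠ 0) (hζ : Roots ℓ ζ) (hd : C.Dvs ℓ)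
    (hS : C.Base S) {y : Cl C.R} (hy : ∀ τ ∈ C.GG S, C.ac τ y = y) :
    ∃ d : Fin B.ρ → Au Ω → ℤ_[ℓ], (∀ i, Lat ℓ C.k S (d i)) ∧ ∀ n x, ℓ ^ n • x = y →
      ∀ τ ∈ C.GG S, ∀ i, PadicInt.toZModPow n (d i τ) = B.co n (x - C.ac τ x) i := by
  obtain ⟨x, hx1, hx⟩ := hd.sys y
  have hN : ∀ n : ℕ, ((ℓ ^ n : ℕ) : Ω) ≠ 0 := fun n => by
    rw [Nat.cast_pow]
    exact pow_ne_zero n hℓ
  have h1 : ∀ n, ∃ t', Ch C.k S t' ∧ (∀ τ, ℓ ^ n • t' τ = 0) ∧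
      ∀ τ ∈ C.GG S, t' τ = x n - C.ac τ (x n) := fun n =>
    Fib.ker_ch (hζ.prim n) (hN n) hS (by rw [hx n]; exact hy)
  choose t ht ht0 htx using h1
  have h2 : ∀ n σ, ℓ • t (n + 1) σ = t n σ := by
    intro n σ
    have h3 : Ch C.k S fun τ => ℓ • t (n + 1) τ - t n τ :=
      ((ht (n + 1)).map (nsmulAddMonoidHom ℓ)).sub (ht n)
    refine sub_eq_zero.1 (Fib.ch_ext hS h3 (fun τ hτ => ?_) σ)
    rw [htx _ τ hτ, htx _ τ hτ, smul_sub, ← Fib.ac_nsmul, hx1, sub_self]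
  have h3 : ∀ i, ∃ d, Lat ℓ C.k S d ∧ ∀ n σ, PadicInt.toZModPow n (d σ) = B.co n (t n σ) i :=
    fun i => lat_lim (fun n σ => B.co n (t n σ) i) (fun n => B.ch_co (ht n) (ht0 n) i)
      fun n σ => by rw [← B.red n _ (ht0 _ σ), h2]
  choose d hd1 hd2 using h3
  refine ⟨d, hd1, fun n x' hx' τ hτ i => ?_⟩
  rw [hd2, htx n τ hτ]
  have h4 : C.ac τ (x' - x n) = x' - x n :=
    Fib.ac_tors (hN n) (by rw [smul_sub, hx', hx n, sub_self]) (hS.GG_le hτ)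
  rw [Fib.ac_sub] at h4
  have h5 : x n - C.ac τ (x n) = x' - C.ac τ x' := by
    rw [sub_eq_sub_iff_sub_eq_sub, ← neg_sub x', ← h4, neg_sub]
  rw [h5]

/-- `x - α τ α⁻¹ x = α (x' - τ x')` with `x' = α⁻¹ x`; `kap_conj`; `ch_ext` in the variable `τ` -/
theorem Bas.delta_frob (B : Bas ℓ C ζ) (hℓ : (ℓ : Ω) ≠ 0) (hζ : Roots ℓ ζ) (hd : C.Dvs ℓ)
    (hS : C.Base S) {α : Au Ω} (hα : α ∈ C.Nm) (hk : α ∈ St (C.k : Set Ω))
    (hαS : α ∈ St (Subfield.closure S : Set Ω)) {q : ℕ} (hq : ∀ n, α (ζ n) = ζ n ^ q)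
    {y : Cl C.R} (hy0 : ∀ τ ∈ C.GG S, C.ac τ y = y) (hαy : C.ac α y = y)
    {d : Fin B.ρ → Au Ω → ℤ_[ℓ]} (hl : ∀ i, Lat ℓ C.k S (d i))
    (hy : ∀ n x, ℓ ^ n • x = y →
      ∀ τ ∈ C.GG S, ∀ i, PadicInt.toZModPow n (d i τ) = B.co n (x - C.ac τ x) i) (σ τ : Au Ω) :
    ∑ i, B.κ i (α * σ * α⁻¹) * d i (α * τ * α⁻¹) = q * ∑ i, B.κ i σ * d i τ := by
  have hα' : α⁻¹ ∈ C.Nm := C.Nm.inv_mem hα
  have hαS' : ∀ x, α⁻¹ x ∈ Subfield.closure S ↔ x ∈ Subfield.closure S :=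
    (St (Subfield.closure S : Set Ω)).inv_mem hαS
  have hL : (∑ i, B.κ i (α * σ * α⁻¹) • cj α⁻¹ (d i) - (q : ℤ_[ℓ]) • ∑ i, B.κ i σ • d i) ∈
      LatM ℓ C.k S := by
    refine sub_mem (Submodule.sum_mem _ fun i _ => Submodule.smul_mem _ _ ?_)
      (Submodule.smul_mem _ _ (Submodule.sum_mem _ fun i _ => Submodule.smul_mem _ _ (hl i)))
    exact (hl i).cj ((St (C.k : Set Ω)).inv_mem hk) hαS'
  have h1 : C.ac 1 = id := funext fun x => Fib.ac_fix (one_mem _) x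
  refine sub_eq_zero.1 (padic_ext ℓ fun n => ?_)
  have hN : ((ℓ ^ n : ℕ) : Ω) ≠ 0 := by
    rw [Nat.cast_pow]
    exact pow_ne_zero n hℓ
  have key := Fib.ch_ext hS (hL n) (fun τ hτ => ?_) τ
  · simpa [cj, Finset.sum_apply] using key
  have hτ' : α * τ * α⁻¹ ∈ C.GG S := by
    refine ⟨?_, ?_⟩
    · simpa using C.Nm_conj0 hα' hτ.1
    · simpa using (fix_conj hαS').2 hτ.2
  have hτN : τ ∈ C.Nm := C.G0_le (hS.GG_le hτ)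
  obtain ⟨x, -, hx⟩ := hd.sys y
  have hx' : ℓ ^ n • C.ac α⁻¹ (x n) = y := by
    rw [← Fib.ac_nsmul, hx n, ← hαy, ← Fib.ac_mul hα' hα, inv_mul_cancel, h1, id, hαy]
  have tor : ∀ z, ℓ ^ n • z = y → ∀ ρ ∈ C.GG S, ℓ ^ n • (z - C.ac ρ z) = 0 := by
    intro z hz ρ hρ
    rw [smul_sub, ← Fib.ac_nsmul, hz, hy0 ρ hρ, sub_self]
  have e : x n - C.ac (α * τ * α⁻¹) (x n) =
      C.ac α (C.ac α⁻¹ (x n) - C.ac τ (C.ac α⁻¹ (x n))) := by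
    rw [Fib.ac_sub, ← Fib.ac_mul hα hα', mul_inv_cancel, h1, id,
      Fib.ac_mul (mul_mem hα hτN) hα', Fib.ac_mul hα hτN]
  have k1 := B.kap_eq hℓ hζ (tor _ (hx n) _ hτ') (α * σ * α⁻¹)
  have k2 := B.kap_eq hℓ hζ (tor _ hx' _ hτ) σ
  have k3 := Fib.kap_conj (hζ.prim n) hN (tor _ hx' _ hτ) hα (hq n) σ
  rw [← e, k1, k2] at k3
  simp only [cj, Pi.sub_apply, Pi.smul_apply, Finset.sum_apply, smul_eq_mul, inv_inv, map_sub,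
    map_mul, map_sum, map_natCast, hy n _ (hx n) _ hτ', hy n _ hx' _ hτ]
  rw [k3, sub_self]

end Pool.Agent.P.MP_ee618e_ag.X
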