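import Pool.Agent.P.MP_ee618e_ag.X.A3b

/-! A4: a power of Frobenius acts on the kernel of the cup product by a power of `q`. -/

namespace Pool.Agent.P.MP_ee618e_ag.X

open IsDedekindDomain Polynomial
open scoped Classical

variable {Ω : Type} [Field Ω] [IsAlgClosed Ω] {ℓ : ℕ} [Fact ℓ.Prime] {C : Fib Ω} {ζ : ℕ → Ω}
  {S : Set Ω}

/-- `Fib.ker` for `t τ = ∑ (ψ i τ mod ℓ ^ n) • B.t n i` (`kap_sum`, `ch_fix`) -/
theorem Bas.level (B : Bas ℓ C ζ) (hℓ : (ℓ : Ω) ≠ 0) (hζ : Roots ℓ ζ) (hS : C.Base S)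
    {ψ : Fin B.ρ → Au Ω → ℤ_[ℓ]} (hψ : ∀ i, Lat ℓ C.k S (ψ i))
    (h : CobL ℓ (C.GG S) fun σ τ => ∑ i, B.κ i σ * ψ i τ) (n : ℕ) :
    ∃ x : Cl C.R, (∀ τ ∈ C.GG S, C.ac τ (ℓ ^ n • x) = ℓ ^ n • x) ∧
      ∀ τ ∈ C.GG S, ∀ i, PadicInt.toZModPow n (ψ i τ) = B.co n (x - C.ac τ x) i := by
  have hN : ((ℓ ^ n : ℕ) : Ω) ≠ 0 := by rw [Nat.cast_pow]; exact pow_ne_zero _ hℓ
  have h0 : ∀ τ, ℓ ^ n • (∑ i, (PadicInt.toZModPow n (ψ i τ)).val • B.t n i) = 0 := fun τ => by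
    rw [Finset.smul_sum]
    exact Finset.sum_eq_zero fun i _ => by rw [smul_comm, B.tor, smul_zero]
  obtain ⟨x, hx⟩ := Fib.ker (C := C) (S := S)
    (t := fun τ => ∑ i, (PadicInt.toZModPow n (ψ i τ)).val • B.t n i) (hζ.prim n) hN hS
    (fun τ _ => h0 τ)
    (fun g hg => Finset.sum_eq_zero fun i _ => by
      rw [C.fix_R] at hg
      rw [Fib.ch_fix hS (hψ i n) g hg.2, ZMod.val_zero, zero_smul])
    ((h n).congr fun σ _ τ _ => by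
      simp only [Fib.cup]
      rw [Fib.kap_sum (hζ.prim n) hN (B.tor n), map_sum]
      exact Finset.sum_congr rfl fun i _ => by rw [map_mul, B.hκ, mul_comm])
  refine ⟨x, fun τ hτ => ?_, fun τ hτ i => ?_⟩
  · have := h0 τ
    rw [hx τ hτ, smul_sub, sub_eq_zero] at this
    rw [Fib.ac_nsmul, ← this]
  · rw [← hx τ hτ, B.co_sum]

omit [IsAlgClosed Ω] in
theorem a4_iter {R : Type} [CommRing R] (F : Au Ω → Au Ω → R) {α : Au Ω} {c : R}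
    (h : ∀ σ τ, F (α * σ * α⁻¹) (α * τ * α⁻¹) = c * F σ τ) (k : ℕ) (σ τ : Au Ω) :
    F (α ^ k * σ * (α ^ k)⁻¹) (α ^ k * τ * (α ^ k)⁻¹) = c ^ k * F σ τ := by
  induction k with
  | zero => simp
  | succ k ih =>
    have e : ∀ ρ : Au Ω, α ^ (k + 1) * ρ * (α ^ (k + 1))⁻¹ =
        α * (α ^ k * ρ * (α ^ k)⁻¹) * α⁻¹ := fun ρ => by rw [pow_succ']; group
    rw [e, e, h, ih, pow_succ']
    ring

omit [IsAlgClosed Ω] in
theorem a4_pow {α : Au Ω} {z : Ω} {q : ℕ} (h : α z = z ^ q) (m : ℕ) :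
    (α ^ m) z = z ^ q ^ m := by
  induction m with
  | zero => simp
  | succ m ih => rw [pow_succ', au_mul, ih, map_pow, h, ← pow_mul, ← pow_succ']

/-- Reduce to `GG S` (`CobL.res`) and to `χ = B.κ` (`Bas.span`). `krull` with `M` the families
in `LatM` and `D` those satisfying the conclusion; `level`, `delta`, `delta_frob` for a power of
`α` which fixes `ℓ ^ n • x` (`sm_ac`, `alpha_orbit`, `alpha_finset`), `ch_ext`, `Lat.div`. -/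
theorem ker_inf (hℓ : (ℓ : Ω) ≠ 0) (hζ : Roots ℓ ζ) (hd : C.Dvs ℓ) (hS : C.Base S)
    (fg : (LatM ℓ C.k S).FG) {α : Au Ω} (hα : α ∈ C.Nm) (hk : α ∈ St (C.k : Set Ω))
    (hαS : α ∈ St (Subfield.closure S : Set Ω)) {q : ℕ} (hq : ∀ n, α (ζ n) = ζ n ^ q)
    (per : ∀ x ∈ (C.R0 : Set Ω) ∪ S, ∃ m, 0 < m ∧ (α ^ m) x = x) (T : Finset Ω)
    {ι : Type} [Fintype ι] {χ ψ : ι → Au Ω → ℤ_[ℓ]} (hχ : ∀ i, Lat ℓ C.k (C.R0 : Set Ω) (χ i))
    (hψ : ∀ i, Lat ℓ C.k S (ψ i)) (h : CobL ℓ (C.GG S ⊓ Fix ↑T) fun σ τ => ∑ i, χ i σ * ψ i τ) :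
    ∃ m, 0 < m ∧ ∀ σ τ, ∑ i, χ i (α ^ m * σ * (α ^ m)⁻¹) * ψ i (α ^ m * τ * (α ^ m)⁻¹) =
      (q : ℤ_[ℓ]) ^ m * ∑ i, χ i σ * ψ i τ := by
  obtain ⟨B⟩ := exists_bas hℓ hζ hd
  obtain ⟨M, hM, hc⟩ := CobL.res hS.fo T inf_le_left inf_le_right hχ hψ h
  choose a ha using fun i => B.span hℓ hζ (hχ i)
  let ψ' : Fin B.ρ → Au Ω → ℤ_[ℓ] := fun j => ∑ i, (a i j * M) • ψ i
  have hψ' : ∀ j, Lat ℓ C.k S (ψ' j) := fun j =>
    (LatM ℓ C.k S).sum_mem fun i _ => (LatM ℓ C.k S).smul_mem _ (hψ i)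
  have e : ∀ σ τ, ∑ j, B.κ j σ * ψ' j τ = M * ∑ i, χ i σ * ψ i τ := fun σ τ => by
    simp only [ψ', Finset.sum_apply, Pi.smul_apply, smul_eq_mul, Finset.mul_sum, ha,
      Finset.sum_mul]
    rw [Finset.sum_comm]
    exact Finset.sum_congr rfl fun i _ => Finset.sum_congr rfl fun j _ => by ring
  have hc' : CobL ℓ (C.GG S) fun σ τ => ∑ j, B.κ j σ * ψ' j τ := fun n =>
    (hc n).congr fun σ _ τ _ => by
      beta_reduce
      rw [e, Finset.mul_sum]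
      exact congrArg _ (Finset.sum_congr rfl fun i _ => by ring)
  let P : (Fin B.ρ → Au Ω → ℤ_[ℓ]) → Au Ω → Au Ω → ℤ_[ℓ] := fun d σ τ => ∑ j, B.κ j σ * d j τ
  let MM : Submodule ℤ_[ℓ] (Fin B.ρ → Au Ω → ℤ_[ℓ]) :=
    Submodule.pi Set.univ fun _ => LatM ℓ C.k S
  let D0 : Submodule ℤ_[ℓ] (Fin B.ρ → Au Ω → ℤ_[ℓ]) :=
    { carrier := {d | ∃ m, 0 < m ∧ ∀ σ τ, P d (α ^ m * σ * (α ^ m)⁻¹) (α ^ m * τ * (α ^ m)⁻¹) =
        (q : ℤ_[ℓ]) ^ m * P d σ τ}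
      add_mem' := by
        rintro d d' ⟨m, hm, h1⟩ ⟨m', hm', h2⟩
        refine ⟨m * m', Nat.mul_pos hm hm', fun σ τ => ?_⟩
        have e1 := a4_iter (P d) h1 m' σ τ
        have e2 := a4_iter (P d') h2 m σ τ
        rw [← pow_mul, ← pow_mul] at e1 e2
        rw [mul_comm m' m] at e2
        have : ∀ σ τ, P (d + d') σ τ = P d σ τ + P d' σ τ := fun σ τ => by
          simp only [P, Pi.add_apply, mul_add, Finset.sum_add_distrib]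
        rw [this, this, e1, e2, mul_add]
      zero_mem' := ⟨1, one_pos, fun σ τ => by simp [P]⟩
      smul_mem' := by
        rintro c d ⟨m, hm, h1⟩
        refine ⟨m, hm, fun σ τ => ?_⟩
        have : ∀ σ τ, P (c • d) σ τ = c * P d σ τ := fun σ τ => by
          simp only [P, Pi.smul_apply, smul_eq_mul, Finset.mul_sum]
          exact Finset.sum_congr rfl fun i _ => by ring
        rw [this, this, h1]
        ring }
  have key : ψ' ∈ MM ⊓ D0 := by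
    refine krull ℓ (M := MM) (Submodule.fg_pi fun _ => fg) inf_le_left fun n => ?_
    obtain ⟨x, hx, hx'⟩ := B.level hℓ hζ hS hψ' hc' n
    obtain ⟨d, hl, hy⟩ := B.delta hℓ hζ hd hS hx
    have hdiv : ∀ j, ∃ χ', Lat ℓ C.k S χ' ∧ ψ' j - d j = (ℓ : ℤ_[ℓ]) ^ n • χ' := fun j => by
      have hL : Lat ℓ C.k S (ψ' j - d j) := (LatM ℓ C.k S).sub_mem (hψ' j) (hl j)
      refine hL.div (Fib.ch_ext hS (hL n) fun τ hτ => ?_)
      rw [Pi.sub_apply, map_sub, hx' τ hτ, hy n x rfl τ hτ, sub_self]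
    choose y hy1 hy2 using hdiv
    refine ⟨d, ⟨fun j _ => hl j, ?_⟩, y, fun j _ => hy1 j, funext fun j => ?_⟩
    · obtain ⟨T', -, hT'⟩ := Fib.sm_ac (ℓ ^ n • x)
      obtain ⟨m, hm, hag⟩ := alpha_finset α T' fun z _ =>
        alpha_orbit α per (by rw [hS.acl_GG]; trivial)
      have hfix : C.ac (α ^ m) (ℓ ^ n • x) = ℓ ^ n • x := by
        rw [hT' _ (pow_mem hα m) _ (one_mem _) hag, Fib.ac_fix (one_mem _)]
      refine ⟨m, hm, fun σ τ => ?_⟩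
      have := B.delta_frob hℓ hζ hd hS (pow_mem hα m) (pow_mem hk m) (pow_mem hαS m)
        (q := q ^ m) (fun n => a4_pow (hq n) m) hx hfix hl hy σ τ
      rw [Nat.cast_pow] at this
      exact this
    · rw [Pi.add_apply, Pi.smul_apply, ← hy2, add_sub_cancel]
  obtain ⟨m, hm, h1⟩ := key.2
  refine ⟨m, hm, fun σ τ => mul_left_cancel₀ (Nat.cast_ne_zero.2 hM : (M : ℤ_[ℓ]) ≠ 0) ?_⟩
  have := h1 σ τ
  simp only [P, e] at this
  rw [this]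
  ring

end Pool.Agent.P.MP_ee618e_ag.X
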