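import Pool.Agent.P.MP_ee618e_ag.X.Defs

/-! Internal definitions: groups of automorphisms, smooth cochains, divisors, curves. -/

namespace Pool.Agent.P.MP_ee618e_ag.X

open IsDedekindDomain
open scoped Classical

/-- automorphisms of the field `Ω` -/
abbrev Au (Ω : Type) [Field Ω] : Type := Ω ≃+* Ω

section Groups

variable {Ω : Type} [Field Ω]

/-- pointwise stabiliser -/
def Fix (S : Set Ω) : Subgroup (Au Ω) where
  carrier := {σ | ∀ x ∈ S, σ x = x}
  mul_mem' := fun {σ τ} hσ hτ x hx => by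
    show σ (τ x) = x
    rw [hτ x hx, hσ x hx]
  one_mem' := fun _ _ => rfl
  inv_mem' := fun {σ} hσ x hx => σ.symm_apply_eq.2 (hσ x hx).symm

/-- setwise stabiliser -/
def St (S : Set Ω) : Subgroup (Au Ω) where
  carrier := {σ | ∀ x, σ x ∈ S ↔ x ∈ S}
  mul_mem' := fun {σ τ} hσ hτ x => (hσ (τ x)).trans (hτ x)
  one_mem' := fun _ => Iff.rfl
  inv_mem' := fun {σ} hσ x => by
    have h := hσ (σ.symm x)
    rw [σ.apply_symm_apply] at h
    exact h.symm

/-- `σ` is in the inertia group of `O` -/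
def Ine (O : ValuationSubring Ω) (σ : Au Ω) : Prop := ∀ x ∈ O, σ x - x ∈ O.nonunits

/-- the elements algebraic over the field generated by `S` -/
def Acl (S : Set Ω) : Set Ω := {z | IsAlgebraic (Subfield.closure S) z}

/-- any `n + 1` elements of `A` are algebraically dependent over `K` -/
def TD (K : Subfield Ω) (A : Set Ω) (n : ℕ) : Prop :=
  ∀ x : Fin (n + 1) → Ω, (∀ i, x i ∈ A) → ¬ AlgebraicIndependent K x

/-- finite orbits -/
def FO (G : Subgroup (Au Ω)) : Prop := ∀ x : Ω, {y | ∃ σ ∈ G, σ x = y}.Finite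

/-- `σ` and `τ` agree on `T` -/
def Ag (T : Finset Ω) (σ τ : Au Ω) : Prop := ∀ t ∈ T, σ t = τ t

/-- `φ` depends only on the values on a finite subset of `A` -/
def Sm {X : Type} (G : Subgroup (Au Ω)) (A : Set Ω) (φ : Au Ω → X) : Prop :=
  ∃ T : Finset Ω, ↑T ⊆ A ∧ ∀ σ ∈ G, ∀ τ ∈ G, Ag T σ τ → φ σ = φ τ

def Sm2 {X : Type} (G : Subgroup (Au Ω)) (c : Au Ω → Au Ω → X) : Prop :=
  ∃ T : Finset Ω, ∀ σ ∈ G, ∀ σ' ∈ G, ∀ τ ∈ G, ∀ τ' ∈ G, Ag T σ σ' → Ag T τ τ' → c σ τ = c σ' τ'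

variable {X : Type} [AddCommGroup X]

/-- additive on `G` -/
def Hom (G : Subgroup (Au Ω)) (χ : Au Ω → X) : Prop := ∀ σ ∈ G, ∀ τ ∈ G, χ (σ * τ) = χ σ + χ τ

/-- 2-cocycle on `G` (trivial action) -/
def Coc (G : Subgroup (Au Ω)) (c : Au Ω → Au Ω → X) : Prop :=
  ∀ σ ∈ G, ∀ τ ∈ G, ∀ ρ ∈ G, c τ ρ + c σ (τ * ρ) = c (σ * τ) ρ + c σ τ

/-- coboundary of a smooth cochain -/
def Cob (G : Subgroup (Au Ω)) (c : Au Ω → Au Ω → X) : Prop :=
  ∃ β : Au Ω → X, Sm G Set.univ β ∧ ∀ σ ∈ G, ∀ τ ∈ G, c σ τ = β σ + β τ - β (σ * τ)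

/-- coboundary on all decomposition groups -/
def Loc (k : Subfield Ω) (G : Subgroup (Au Ω)) (c : Au Ω → Au Ω → X) : Prop :=
  ∀ O : ValuationSubring Ω, (k : Set Ω) ⊆ O → O ≠ ⊤ → Cob (G ⊓ St O) c

/-- smooth unramified characters of `Fix S` (here `k ⊆ S`), extended by zero -/
structure Ch (k : Subfield Ω) (S : Set Ω) (χ : Au Ω → X) : Prop where
  hom : Hom (Fix S) χ
  sm : Sm (Fix S) (Acl S) χ
  out : ∀ σ ∉ Fix S, χ σ = 0
  unr : ∀ O : ValuationSubring Ω, (k : Set Ω) ⊆ O → ∀ σ ∈ Fix S, Ine O σ → χ σ = 0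

/-- conjugation `σ ↦ χ (s⁻¹ σ s)` -/
def cj {Y : Type} (s : Au Ω) (χ : Au Ω → Y) : Au Ω → Y := fun σ => χ (s⁻¹ * σ * s)

/-- `σ r = ζ ^ χ σ * r` on `G` -/
def Kum {N : ℕ} (ζ : Ω) (G : Subgroup (Au Ω)) (r : Ω) (χ : Au Ω → ZMod N) : Prop :=
  r ≠ 0 ∧ ∀ σ ∈ G, σ r = ζ ^ (χ σ).val * r

/-- reduction by one level -/
abbrev red (ℓ n : ℕ) : ZMod (ℓ ^ (n + 1)) →+* ZMod (ℓ ^ n) :=
  ZMod.castHom (pow_dvd_pow ℓ n.le_succ) (ZMod (ℓ ^ n))

variable (ℓ : ℕ) [Fact ℓ.Prime]

/-- integral `ℓ`-adic unramified characters -/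
def Lat (k : Subfield Ω) (S : Set Ω) (χ : Au Ω → ℤ_[ℓ]) : Prop :=
  ∀ n, Ch k S fun σ => PadicInt.toZModPow n (χ σ)

/-- coboundary at every finite level -/
def CobL (G : Subgroup (Au Ω)) (c : Au Ω → Au Ω → ℤ_[ℓ]) : Prop :=
  ∀ n, Cob G fun σ τ => PadicInt.toZModPow n (c σ τ)

/-- a compatible system of primitive `ℓ ^ n`-th roots of unity -/
structure Roots (ζ : ℕ → Ω) : Prop where
  prim : ∀ n, IsPrimitiveRoot (ζ n) (ℓ ^ n)
  succ : ∀ n, ζ (n + 1) ^ ℓ = ζ n

end Groups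

section Div

variable {R : Type} [CommRing R] [IsDedekindDomain R]

/-- order of vanishing (junk at `f = 0`) -/
noncomputable def ord (P : HeightOneSpectrum R) (f : R) : ℕ :=
  multiplicity P.asIdeal (Ideal.span {f})

variable (R) in
abbrev Dv : Type := HeightOneSpectrum R →₀ ℤ

/-- the divisor of `f` (zero at `f = 0`) -/
noncomputable def dv (f : R) : Dv R :=
  if h : f = 0 then 0 else Finsupp.ofSupportFinite (fun P => (ord P f : ℤ)) <| by
    refine (Ideal.finite_factors (I := Ideal.span {f}) (by simpa using h)).subset fun P hP => ?_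
    exact dvd_of_multiplicity_pos (Nat.pos_of_ne_zero (by simpa [ord] using hP))

variable (R) in
/-- the class group -/
def Cl : Type := Dv R ⧸ AddSubgroup.closure (Set.range (dv (R := R)))

noncomputable instance : AddCommGroup (Cl R) :=
  inferInstanceAs (AddCommGroup (Dv R ⧸ AddSubgroup.closure (Set.range (dv (R := R)))))

/-- the class of a divisor -/
noncomputable def cl : Dv R →+ Cl R := QuotientAddGroup.mk' _

/-- action of an automorphism on points -/
noncomputable def mp (e : R ≃+* R) : HeightOneSpectrum R ≃ HeightOneSpectrum R :=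
  HeightOneSpectrum.equivOfRingEquiv e

/-- action of an automorphism on divisors -/
noncomputable def md (e : R ≃+* R) : Dv R ≃+ Dv R := Finsupp.domCongr (mp e)

/-- action of an automorphism on classes -/
noncomputable def mc (e : R ≃+* R) (x : Cl R) : Cl R := cl (md e (Quotient.out x))

/-- effective divisors of minimal degree in their class -/
def Min (D : Dv R) : Prop := 0 ≤ D ∧ ∀ D', 0 ≤ D' → cl D' = cl D → D.degree ≤ D'.degree

/-- the coordinate ring of a smooth curve with one point at infinity; `dg` is the pole order -/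
structure OP (A : Type) [Field A] [Algebra A R] (dg : R → ℕ) : Prop where
  mul : ∀ f g, f ≠ 0 → g ≠ 0 → dg (f * g) = dg f + dg g
  add : ∀ f g, dg (f + g) ≤ max (dg f) (dg g)
  const : ∀ c : A, dg (algebraMap A R c) = 0
  lead : ∀ f g, g ≠ 0 → dg f = dg g → ∃ c : A, f = c • g ∨ dg (f - c • g) < dg g
  gaps : {n | ∀ f, f ≠ 0 → dg f ≠ n}.Finite
  ft : Algebra.FiniteType A R

end Div

open Polynomial in
/-- the coordinate ring of `y² + h y = f`, `deg f = 2 g + 1`, `deg h ≤ g`, smooth -/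
structure Hyp (A : Type) {R : Type} [Field A] [CommRing R] [Algebra A R] (g : ℕ) (h f : A[X])
    (x y : R) : Prop where
  rel : y ^ 2 + aeval x h * y = aeval x f
  span : ∀ r : R, ∃ p q : A[X], r = aeval x p + aeval x q * y
  indep : ∀ p q : A[X], aeval x p + aeval x q * y = 0 → p = 0 ∧ q = 0
  degf : f.natDegree = 2 * g + 1
  degh : h.natDegree ≤ g
  smooth : IsCoprime (2 * y + aeval x h) (aeval x (derivative h) * y - aeval x (derivative f))

open Polynomial in
/-- pole order at infinity on a hyperelliptic curve -/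
noncomputable def hdg (A : Type) {R : Type} [Field A] [CommRing R] [Algebra A R] (g : ℕ)
    (x y : R) (r : R) : ℕ :=
  sInf {n | ∃ p q : A[X], r = aeval x p + aeval x q * y ∧ 2 * p.natDegree ≤ n ∧
    (q ≠ 0 → 2 * q.natDegree + 2 * g + 1 ≤ n)}

/-- A curve over `k` with coordinate ring `R0 ⊂ Ω`, and its base change `R` to an algebraically
closed field `A` of transcendence degree one such that `Ω` is algebraic over `R`. -/
structure Fib (Ω : Type) [Field Ω] where
  k : Subfield Ω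
  A : Subfield Ω
  R0 : Subalgebra k Ω
  R : Subalgebra A Ω
  dg : Ω → ℕ
  kA : k ≤ A
  ack : IsAlgClosed k
  acA : IsAlgClosed A
  R_eq : R = Algebra.adjoin A (R0 : Set Ω)
  ded0 : IsDedekindDomain R0
  ded : IsDedekindDomain R
  op0 : OP k fun f : R0 => dg f
  op : OP A fun f : R => dg f
  dis : ∀ (n : ℕ) (w : Fin n → Ω), (∀ i, w i ∈ R0) → LinearIndependent k w →
    LinearIndependent A w
  alg : Acl (R : Set Ω) = Set.univ
  td : TD k A 1
  td2 : TD k Set.univ 2
  inf : ∀ O : ValuationSubring Ω, (k : Set Ω) ⊆ O → ¬ (R0 : Set Ω) ⊆ O →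
    ∀ f ∈ R0, ∀ g ∈ R0, g ≠ 0 → dg f ≤ dg g → f / g ∈ O

attribute [instance] Fib.ack Fib.acA Fib.ded0 Fib.ded

namespace Fib

variable {Ω : Type} [Field Ω] (C : Fib Ω)

/-- restriction of an automorphism to `R` -/
def rs (σ : Au Ω) (h : σ ∈ St (C.R : Set Ω)) : C.R ≃+* C.R where
  toFun f := ⟨σ f, (h f).2 f.2⟩
  invFun f := ⟨σ.symm f, ((St (C.R : Set Ω)).inv_mem h f).2 f.2⟩
  left_inv f := Subtype.ext (σ.symm_apply_apply f)
  right_inv f := Subtype.ext (σ.apply_symm_apply f)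
  map_mul' f g := Subtype.ext (map_mul σ _ _)
  map_add' f g := Subtype.ext (map_add σ _ _)

/-- action on points -/
noncomputable def ap (σ : Au Ω) (P : HeightOneSpectrum C.R) : HeightOneSpectrum C.R :=
  if h : σ ∈ St (C.R : Set Ω) then mp (C.rs σ h) P else P

/-- action on divisors -/
noncomputable def ad (σ : Au Ω) (D : Dv C.R) : Dv C.R :=
  if h : σ ∈ St (C.R : Set Ω) then md (C.rs σ h) D else D

/-- action on classes -/
noncomputable def ac (σ : Au Ω) (x : Cl C.R) : Cl C.R :=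
  if h : σ ∈ St (C.R : Set Ω) then mc (C.rs σ h) x else x

/-- automorphisms which fix the curve and preserve `A` -/
def G0 : Subgroup (Au Ω) := Fix (C.R0 : Set Ω) ⊓ St (C.A : Set Ω)

/-- automorphisms which preserve the curve and `A` -/
def Nm : Subgroup (Au Ω) := St (C.R0 : Set Ω) ⊓ St (C.A : Set Ω)

/-- `χ` is the Kummer character of the `N`-torsion class `s` -/
def IsKap {N : ℕ} (ζ : Ω) (s : Cl C.R) (χ : Au Ω → ZMod N) : Prop :=
  (∀ σ ∉ Fix (C.R0 : Set Ω), χ σ = 0) ∧ ∃ (f : C.R) (D : Dv C.R) (r : Ω), (f : Ω) ∈ C.R0 ∧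
    cl D = s ∧ dv f = (N : ℤ) • D ∧ r ^ N = f ∧ Kum ζ (Fix (C.R0 : Set Ω)) r χ

/-- the Kummer character of `s` -/
noncomputable def kap (N : ℕ) (ζ : Ω) (s : Cl C.R) : Au Ω → ZMod N :=
  Classical.epsilon (C.IsKap ζ s)

/-- the cup product of `kap` with a character with values in the class group -/
noncomputable def cup (N : ℕ) (ζ : Ω) (t : Au Ω → Cl C.R) (σ τ : Au Ω) : ZMod N :=
  C.kap N ζ (t τ) σ

/-- the class group is `N`-divisible -/
def Dvs (N : ℕ) : Prop := ∀ x : Cl C.R, ∃ y, N • y = x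

/-- `S` generates, over `k`, a field whose algebraic closure is `A` -/
structure Base (S : Set Ω) : Prop where
  kS : (C.k : Set Ω) ⊆ S
  SA : S ⊆ C.A
  alg : (C.A : Set Ω) ⊆ Acl S

/-- the Galois group of the function field of the product -/
def GG (S : Set Ω) : Subgroup (Au Ω) := Fix (C.R0 : Set Ω) ⊓ Fix S

end Fib

end Pool.Agent.P.MP_ee618e_ag.X
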