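import Pool.Agent.P.MP_ee618e_ag.X.FT2

/-! Ge0: the constants and the coordinates of the surface. -/

set_option linter.unusedSectionVars false

namespace Pool.Agent.P.MP_ee618e_ag.X

open IsDedekindDomain Polynomial
open scoped Classical

variable {Ω : Type} [Field Ω]

variable (Ω) in
/-- the field of constants -/
def kk : Subfield Ω := Subfield.closure (cst Ω)

namespace Surf

variable {q : ℕ} (D : Surf Ω q)

def μ : Ω := D.t ^ 4 + D.t + D.b

def w : Ω := D.m + (D.x₁ * D.x₂ + D.d) / D.μ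

def X : Fin 5 → Ω := ![D.x₁, D.x₂, D.u, D.t, D.t]

def Y : Fin 5 → Ω := ![D.y₁, D.y₂, D.v, D.m, D.w]

/-- generators of the function fields of the five curves `C₁, C₁, E, C₃, E` -/
def T (i : Fin 5) : Set Ω := (kk Ω : Set Ω) ∪ {D.X i, D.Y i}

/-- generators of the function field of the Kummer surface -/
def TY : Set Ω := (kk Ω : Set Ω) ∪ {D.x₁ + D.x₂, D.x₁ * D.x₂, D.y₁ + D.y₂}

def TV : Set Ω := (kk Ω : Set Ω) ∪ {D.x₁, D.y₁, D.x₂, D.y₂}

def TΓ : Set Ω := (kk Ω : Set Ω) ∪ {D.t, D.m, D.w}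

def TE : Set Ω := (kk Ω : Set Ω) ∪ {D.u, D.v, D.t, D.m, D.w}

/-- the coordinates of the surface -/
noncomputable def TZ : Finset Ω := {D.x₁, D.y₁, D.x₂, D.y₂, D.u, D.v, D.t, D.m}

/-- the Galois group of the function field of the surface -/
def GZ : Subgroup (Au Ω) := Fix (cst Ω ∪ ⋃ i, D.S i)

end Surf

/-- the other factor -/
def opp : Fin 5 → Fin 5 := ![1, 0, 3, 2, 2]

theorem gal_eq (S : Set Ω) : Gal S = Fix (cst Ω ∪ S) := rfl

theorem pow_iter {c : Ω} {n : ℕ} (h : c ^ 2 ^ n = c) (k : ℕ) : c ^ 2 ^ (n * k) = c := by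
  induction k with
  | zero => simp
  | succ k ih => rw [Nat.mul_succ, pow_add, pow_mul, ih, h]

theorem acl_quad {S : Set Ω} {K : Subfield Ω} (hK : (K : Set Ω) = Acl S) {x a b : Ω} (ha : a ∈ K)
    (hb : b ∈ K) (h : x ^ 2 + a * x + b = 0) : x ∈ K := by
  rw [← SetLike.mem_coe, hK]
  refine mem_acl_of_root (Polynomial.X ^ 2 + C a * Polynomial.X + C b) ?_ (fun i => ?_)
    (by simpa using h)
  · intro h0
    have := congrArg (fun p => Polynomial.coeff p 2) h0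
    simp at this
  · rw [← hK, SetLike.mem_coe, coeff_add, coeff_add, coeff_C_mul, coeff_X_pow, coeff_X, coeff_C]
    refine add_mem (add_mem ?_ (mul_mem ha ?_)) ?_ <;> split_ifs <;>
      first | exact one_mem _ | exact zero_mem _ | exact hb

theorem conj_fix {S : Set Ω} {s σ : Au Ω} (hs : s ∈ St S) : s * σ * s⁻¹ ∈ Fix S ↔ σ ∈ Fix S := by
  constructor
  · intro h x hx
    have h1 := h (s x) ((hs x).2 hx)
    rw [au_mul, au_mul, au_inv, s.symm_apply_apply] at h1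
    exact s.injective h1
  · intro h x hx
    rw [au_mul, au_mul, h _ (((St S).inv_mem hs x).2 hx), au_inv, s.apply_symm_apply]

theorem st_union {S S' : Set Ω} {s : Au Ω} (hs : s ∈ St S) (hs' : s ∈ St S') :
    s ∈ St (S ∪ S') := fun x => or_congr (hs x) (hs' x)

variable [CharP Ω 2]

theorem kk_eq : (kk Ω : Set Ω) = cst Ω := by
  let K : Subfield Ω :=
    { carrier := cst Ω
      mul_mem' := by
        rintro a b ⟨n, hn, ha⟩ ⟨m, hm, hb⟩
        refine ⟨n * m, Nat.mul_pos hn hm, ?_⟩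
        rw [mul_pow, pow_iter ha, mul_comm n m, pow_iter hb]
      one_mem' := ⟨1, one_pos, one_pow _⟩
      add_mem' := by
        rintro a b ⟨n, hn, ha⟩ ⟨m, hm, hb⟩
        refine ⟨n * m, Nat.mul_pos hn hm, ?_⟩
        rw [add_pow_char_pow, pow_iter ha, mul_comm n m, pow_iter hb]
      zero_mem' := ⟨1, one_pos, zero_pow (by norm_num)⟩
      neg_mem' := by
        intro a ha
        rwa [CharTwo.neg_eq]
      inv_mem' := by
        rintro a ⟨n, hn, ha⟩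
        exact ⟨n, hn, by rw [inv_pow, ha]⟩ }
  exact congrArg SetLike.coe (Subfield.closure_eq K)

/-- the coefficients of a polynomial over `kk` are fixed by a power of Frobenius, which therefore
permutes the roots -/
theorem kk_algClosed [IsAlgClosed Ω] : IsAlgClosed (kk Ω) := by
  have hp : ∀ (m : ℕ) (x : Ω), ((frobeniusEquiv Ω 2 : Au Ω) ^ m) x = x ^ 2 ^ m := by
    intro m x
    induction m with
    | zero => simp
    | succ m ih => rw [pow_succ', au_mul, ih, frobeniusEquiv_def, ← pow_mul, ← pow_succ]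
  refine isAlgClosed_of_acl fun z hz => ?_
  obtain ⟨m, hm, h⟩ := alpha_orbit (frobeniusEquiv Ω 2) (fun x hx => by
    rw [kk_eq] at hx
    obtain ⟨n, hn, h⟩ := hx
    exact ⟨n, hn, by rw [hp, h]⟩) hz
  rw [kk_eq]
  exact ⟨m, hm, by rwa [hp] at h⟩

theorem odd_ne_zero {N : ℕ} (hN : Odd N) : (N : Ω) ≠ 0 := by
  rw [Ne, CharP.cast_eq_zero_iff Ω 2]
  exact hN.not_two_dvd_nat

theorem as_cases {a b : Ω} (h : a ^ 2 + a = b ^ 2 + b) : a = b ∨ a = b + 1 := by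
  have h2 : (2 : Ω) = 0 := CharTwo.two_eq_zero
  have : (a - b) * (a - (b + 1)) = 0 := by
    linear_combination h + (b ^ 2 + b - a * b - a) * h2
  exact (mul_eq_zero.1 this).imp sub_eq_zero.1 sub_eq_zero.1

omit [CharP Ω 2] in
theorem mem_cst_of {r : ℕ} (hr : 0 < r) {c : Ω} (h : c ^ 4 ^ r = c) : c ∈ cst Ω :=
  ⟨2 * r, by omega, by rwa [pow_mul]⟩

namespace Surf

variable {r : ℕ} (D : Surf Ω (4 ^ r))

theorem b_mem (hr : 0 < r) : D.b ∈ kk Ω := by
  exact Subfield.subset_closure (mem_cst_of hr D.hb)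

theorem d_mem (hr : 0 < r) : D.d ∈ kk Ω := by
  exact Subfield.subset_closure (mem_cst_of hr D.hd)

theorem α_st : D.α ∈ St (kk Ω : Set Ω) := by
  intro x
  constructor
  · rw [kk_eq]
    rintro ⟨n, hn, h⟩
    exact ⟨n, hn, D.α.injective (by rwa [map_pow])⟩
  · intro hx
    rw [D.frob x (kk_eq (Ω := Ω) ▸ hx)]
    exact pow_mem hx _

theorem α_per {c : Ω} (hc : c ∈ kk Ω) : ∃ m, 0 < m ∧ (D.α ^ m) c = c := by
  have hc' : c ∈ cst Ω := kk_eq (Ω := Ω) ▸ hc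
  have hp : ∀ m : ℕ, (D.α ^ m) c = c ^ (4 ^ r) ^ m := by
    intro m
    induction m with
    | zero => simp
    | succ m ih => rw [pow_succ', au_mul, ih, map_pow, D.frob c hc', ← pow_mul, ← pow_succ']
  obtain ⟨n, hn, h⟩ := hc'
  refine ⟨n, hn, ?_⟩
  rw [hp, show (4 ^ r) ^ n = 2 ^ (n * (2 * r)) by rw [mul_comm n, pow_mul, pow_mul]; rfl,
    pow_iter h]

theorem x_ne : D.x₁ ≠ 0 ∧ D.x₂ ≠ 0 := by
  constructor
  · intro h
    refine D.gen.transcendental 0 ?_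
    simpa [h] using isAlgebraic_zero
  · intro h
    refine D.gen.transcendental 1 ?_
    simpa [h] using isAlgebraic_zero

theorem μ_mul : D.μ * (D.x₁ * D.x₂) = (D.x₁ * D.x₂) ^ 2 + D.d ^ 2 := by
  have h1 := D.x_ne.1
  have h2 := D.x_ne.2
  rw [μ, ← D.z₂]
  field_simp

theorem μ_ne (hr : 0 < r) : D.μ ≠ 0 := by
  intro h
  have h2 : (2 : Ω) = 0 := CharTwo.two_eq_zero
  have h1 := D.μ_mul
  have h3 : D.x₁ * D.x₂ + D.d = 0 := by
    refine pow_eq_zero_iff two_ne_zero |>.1 ?_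
    rw [h, zero_mul] at h1
    linear_combination (D.x₁ * D.x₂ * D.d) * h2 - h1
  have h4 := algebraicIndependent_iff.1 D.gen
    (MvPolynomial.X 0 * MvPolynomial.X 1 + MvPolynomial.C ⟨D.d, D.d_mem hr⟩) (by
      simp only [map_add, map_mul, MvPolynomial.aeval_X, MvPolynomial.aeval_C]
      exact h3)
  have h5 := congrArg MvPolynomial.constantCoeff h4
  simp only [map_add, map_mul, MvPolynomial.constantCoeff_X, MvPolynomial.constantCoeff_C,
    mul_zero, zero_add, map_zero] at h5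
  exact D.d0 (congrArg Subtype.val h5)

/-- `ν = (x₁ x₂ + d) / μ` satisfies `ν ^ 2 + ν = d / μ` -/
theorem w_eq (hr : 0 < r) : D.w ^ 2 + D.w = D.t ^ 3 := by
  have h2 : (2 : Ω) = 0 := CharTwo.two_eq_zero
  have h1 := D.μ_mul
  have h0 := D.μ_ne hr
  have h3 : D.m ^ 2 + D.m = D.t ^ 3 + D.d / D.μ := D.c₃
  have h4 : ((D.x₁ * D.x₂ + D.d) / D.μ) ^ 2 + (D.x₁ * D.x₂ + D.d) / D.μ = D.d / D.μ := by
    field_simp
    linear_combination h1 + ((D.x₁ * D.x₂) ^ 2 + D.x₁ * D.x₂ * D.d + D.d ^ 2) * h2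
  rw [w]
  linear_combination h3 + h4 + (D.m * ((D.x₁ * D.x₂ + D.d) / D.μ) + D.d / D.μ) * h2

theorem w_fix {σ : Au Ω} (hb : σ D.b = D.b) (hd : σ D.d = D.d) (h1 : σ D.x₁ = D.x₁)
    (h2 : σ D.x₂ = D.x₂) (ht : σ D.t = D.t) (hm : σ D.m = D.m) : σ D.w = D.w := by
  simp only [w, μ, map_add, map_mul, map_div₀, map_pow, hb, hd, h1, h2, ht, hm]

/-- the right hand sides of the equations of the curves -/
def rhs (i : Fin 5) (x : Ω) : Ω :=
  ![x ^ 3 + D.b * x + D.d ^ 2 / x, x ^ 3 + D.b * x + D.d ^ 2 / x, x ^ 3,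
    x ^ 3 + D.d / (x ^ 4 + x + D.b), x ^ 3] i

theorem Y_eq (hr : 0 < r) (i : Fin 5) : D.Y i ^ 2 + D.Y i = D.rhs i (D.X i) := by
  fin_cases i
  exacts [D.c₁, D.c₂, D.cE, D.c₃, D.w_eq hr]

theorem rhs_map {σ : Au Ω} (hb : σ D.b = D.b) (hd : σ D.d = D.d) (i : Fin 5) (x : Ω) :
    σ (D.rhs i x) = D.rhs i (σ x) := by
  fin_cases i <;> simp [rhs, hb, hd]

theorem rhs_mem {K : Subfield Ω} (hb : D.b ∈ K) (hd : D.d ∈ K) (i : Fin 5) {x : Ω} (hx : x ∈ K) :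
    D.rhs i x ∈ K := by
  have h3 := pow_mem hx 3
  have h1 := add_mem (add_mem h3 (mul_mem hb hx)) (div_mem (pow_mem hd 2) hx)
  have h2 := add_mem h3 (div_mem hd (add_mem (add_mem (pow_mem hx 4) hx) hb))
  fin_cases i
  exacts [h1, h1, h3, h2, h3]

theorem acl_univ {S : Set Ω} (hk : (kk Ω : Set Ω) ⊆ S) {K : Subfield Ω}
    (hK : (K : Set Ω) = Acl S) (h1 : D.x₁ + D.x₂ ∈ K) (h2 : D.x₁ * D.x₂ ∈ K) :
    Acl S = Set.univ := by
  have e1 : D.x₁ ∈ K := acl_quad hK (neg_mem h1) h2 (by ring)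
  have e2 : D.x₂ ∈ K := acl_quad hK (neg_mem h1) h2 (by ring)
  refine Set.eq_univ_of_forall fun z => acl_subset ?_ (D.alg z)
  rintro x (hx | rfl | rfl)
  · exact subset_acl _ (hk (Subfield.subset_closure hx))
  · exact hK ▸ e1
  · exact hK ▸ e2

theorem U_eq : ⋃ i, D.S i = ↑D.TZ := by
  ext x
  simp only [Set.mem_iUnion, Fin.exists_fin_succ, S, TZ]
  simp
  tauto

theorem α_X (i : Fin 5) : D.α (D.X i) = D.X i := by
  fin_cases i
  exacts [D.fix D.x₁ (by simp), D.fix D.x₂ (by simp), D.fix D.u (by simp), D.fix D.t (by simp),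
    D.fix D.t (by simp)]

theorem α_Y (hr : 0 < r) (i : Fin 5) : D.α (D.Y i) = D.Y i := by
  have h4 : D.α D.w = D.w := D.w_fix ((D.frob _ (mem_cst_of hr D.hb)).trans D.hb)
    ((D.frob _ (mem_cst_of hr D.hd)).trans D.hd) (D.fix _ (by simp)) (D.fix _ (by simp))
    (D.fix _ (by simp)) (D.fix _ (by simp))
  fin_cases i
  exacts [D.fix D.y₁ (by simp), D.fix D.y₂ (by simp), D.fix D.v (by simp), D.fix D.m (by simp), h4]

theorem α_T (hr : 0 < r) (i : Fin 5) : D.α ∈ St (D.T i) := by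
  refine st_union D.α_st (fix_le_st _ ?_)
  rintro x (rfl | rfl)
  exacts [D.α_X i, D.α_Y hr i]

theorem acl_X (hr : 0 < r) (i : Fin 5) :
    Acl ((kk Ω : Set Ω) ∪ {D.X i, D.X (opp i)}) = Set.univ := by
  obtain ⟨K, hK⟩ := exists_aclF ((kk Ω : Set Ω) ∪ {D.X i, D.X (opp i)})
  have hs : ∀ x ∈ (kk Ω : Set Ω) ∪ {D.X i, D.X (opp i)}, x ∈ K := fun x hx => by
    rw [← SetLike.mem_coe, hK]
    exact subset_acl _ hx
  have h1 : D.X i ∈ K := hs _ (by simp)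
  have h2 : D.X (opp i) ∈ K := hs _ (by simp)
  have hb : D.b ∈ K := hs _ (Or.inl (D.b_mem hr))
  have hd : D.d ∈ K := hs _ (Or.inl (D.d_mem hr))
  have a1 : D.x₁ ∈ K → D.x₂ ∈ K → D.x₁ + D.x₂ ∈ K ∧ D.x₁ * D.x₂ ∈ K := fun a b =>
    ⟨add_mem a b, mul_mem a b⟩
  have a2 : D.u ∈ K → D.t ∈ K → D.x₁ + D.x₂ ∈ K ∧ D.x₁ * D.x₂ ∈ K := fun a b =>
    ⟨D.z₁ ▸ add_mem a (pow_mem b 2),
      acl_quad hK (a := -D.μ) (neg_mem (add_mem (add_mem (pow_mem b 4) b) hb)) (pow_mem hd 2)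
        (by linear_combination -D.μ_mul)⟩
  have a3 : D.x₁ + D.x₂ ∈ K ∧ D.x₁ * D.x₂ ∈ K := by
    fin_cases i
    exacts [a1 h1 h2, a1 h2 h1, a2 h1 h2, a2 h2 h1, a2 h2 h1]
  exact D.acl_univ Set.subset_union_left hK a3.1 a3.2

theorem indep_X [IsAlgClosed Ω] (hr : 0 < r) (i : Fin 5) :
    AlgebraicIndependent (kk Ω) ![D.X i, D.X (opp i)] := by
  refine indep_of_acl (kk Ω) _ _ D.gen ?_
  rw [Matrix.range_cons_cons_empty (D.X i), D.acl_X hr i]
  exact Set.subset_univ _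

theorem acl_T (hr : 0 < r) (i : Fin 5) : Acl (D.T i) = Acl ((kk Ω : Set Ω) ∪ {D.X i}) := by
  refine Set.Subset.antisymm (acl_subset ?_) (acl_mono (Set.union_subset_union_right _ (by simp)))
  obtain ⟨K, hK⟩ := exists_aclF ((kk Ω : Set Ω) ∪ {D.X i})
  have hs : ∀ x ∈ (kk Ω : Set Ω) ∪ {D.X i}, x ∈ K := fun x hx => by
    rw [← SetLike.mem_coe, hK]
    exact subset_acl _ hx
  rw [← hK]
  rintro x (hx | rfl | rfl)
  · exact hs _ (Or.inl hx)
  · exact hs _ (by simp)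
  · exact acl_quad hK (one_mem _) (neg_mem (D.rhs_mem (hs _ (Or.inl (D.b_mem hr)))
      (hs _ (Or.inl (D.d_mem hr))) i (hs (D.X i) (by simp)))) (by linear_combination D.Y_eq hr i)

theorem acl_TΓ (hr : 0 < r) : Acl D.TΓ = Acl (D.T 3) := by
  refine Set.Subset.antisymm (acl_subset ?_) (acl_mono (Set.union_subset_union_right _ ?_))
  · rintro x (hx | rfl | rfl | rfl)
    · exact subset_acl _ (Or.inl hx)
    · exact subset_acl _ (Or.inr (Or.inl rfl))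
    · exact subset_acl _ (Or.inr (Or.inr rfl))
    · have h : Acl (D.T 4) = Acl (D.T 3) := (D.acl_T hr 4).trans (D.acl_T hr 3).symm
      rw [← h]
      exact subset_acl _ (Or.inr (Or.inr rfl))
  · rintro x (rfl | rfl)
    · exact Or.inl rfl
    · exact Or.inr (Or.inl rfl)

theorem acl_TY (hr : 0 < r) : Acl D.TY = Set.univ := by
  obtain ⟨K, hK⟩ := exists_aclF D.TY
  refine D.acl_univ Set.subset_union_left hK ?_ ?_ <;> rw [← SetLike.mem_coe, hK]
  · exact subset_acl _ (Or.inr (Or.inl rfl))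
  · exact subset_acl _ (Or.inr (Or.inr (Or.inl rfl)))

include D in
theorem td [IsAlgClosed Ω] : TD (kk Ω) Set.univ 2 := by
  refine td_of_acl (kk Ω) ![D.x₁, D.x₂] fun z _ => ?_
  rw [Matrix.range_cons_cons_empty, kk_eq]
  exact D.alg z

/-- `σ (Y i) + Y i` is a root of `Z ^ 2 + Z` -/
theorem Y_cases (hr : 0 < r) {σ : Au Ω} (hσ : σ ∈ Fix (kk Ω : Set Ω)) {i j : Fin 5}
    (hij : i = j ∨ (i = 0 ∧ j = 1) ∨ (i = 1 ∧ j = 0)) (h : σ (D.X i) = D.X j) :
    σ (D.Y i) = D.Y j ∨ σ (D.Y i) = D.Y j + 1 := by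
  refine as_cases ?_
  rw [← map_pow, ← map_add, D.Y_eq hr, D.Y_eq hr,
    D.rhs_map (hσ _ (D.b_mem hr)) (hσ _ (D.d_mem hr)), h]
  rcases hij with rfl | ⟨rfl, rfl⟩ | ⟨rfl, rfl⟩ <;> rfl

theorem TV_le : Fix D.TV ≤ Fix D.TY := by
  intro σ h
  have h1 := h D.x₁ (by simp [TV])
  have h2 := h D.x₂ (by simp [TV])
  have h3 := h D.y₁ (by simp [TV])
  have h4 := h D.y₂ (by simp [TV])
  rintro x (hx | rfl | rfl | rfl)
  · exact h x (Or.inl hx)
  · rw [map_add, h1, h2]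
  · rw [map_mul, h1, h2]
  · rw [map_add, h3, h4]

/-- `x₁ x₂ = (m + w) μ + d` -/
theorem TE_le (hr : 0 < r) : Fix D.TE ≤ Fix D.TY := by
  intro σ h
  have h1 := h D.u (by simp [TE])
  have h2 := h D.v (by simp [TE])
  have h3 := h D.t (by simp [TE])
  have h4 := h D.m (by simp [TE])
  have h5 := h D.w (by simp [TE])
  have hb := h D.b (Or.inl (D.b_mem hr))
  have hd := h D.d (Or.inl (D.d_mem hr))
  rintro x (hx | rfl | rfl | rfl)
  · exact h x (Or.inl hx)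
  · rw [D.z₁, map_add, map_pow, h1, h3]
  · have e : D.x₁ * D.x₂ = (D.w - D.m) * D.μ - D.d := by
      rw [w, add_sub_cancel_left, div_mul_cancel₀ _ (D.μ_ne hr), add_sub_cancel_right]
    rw [e]
    simp only [μ, map_sub, map_add, map_mul, map_pow, h3, h4, h5, hb, hd]
  · have e : D.y₁ + D.y₂ = D.v + D.u * D.t + D.w := by rw [D.z₃, w, μ, add_assoc _ D.m]
    rw [e]
    simp only [map_add, map_mul, h1, h2, h3, h5]

theorem GZ_eq : D.GZ = Fix (kk Ω : Set Ω) ⊓ Fix ↑D.TZ := by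
  rw [GZ, fix_union, kk_eq, U_eq]

theorem GZ_le_TV : D.GZ ≤ Fix D.TV := by
  rw [GZ_eq, ← fix_union]
  refine fix_anti (Set.union_subset_union_right _ ?_)
  rintro x (rfl | rfl | rfl | rfl) <;> simp [TZ]

theorem GZ_le_TE (hr : 0 < r) : D.GZ ≤ Fix D.TE := by
  rw [GZ_eq]
  rintro σ ⟨h1, h2⟩ x (hx | rfl | rfl | rfl | rfl | rfl)
  · exact h1 x hx
  · exact h2 _ (by simp [TZ])
  · exact h2 _ (by simp [TZ])
  · exact h2 _ (by simp [TZ])
  · exact h2 _ (by simp [TZ])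
  · exact D.w_fix (h1 _ (D.b_mem hr)) (h1 _ (D.d_mem hr)) (h2 _ (by simp [TZ]))
      (h2 _ (by simp [TZ])) (h2 _ (by simp [TZ])) (h2 _ (by simp [TZ]))

theorem GZ_le_T (hr : 0 < r) (i : Fin 5) : D.GZ ≤ Fix (D.T i) := by
  intro σ h
  have h1 := D.GZ_le_TV h
  have h2 := D.GZ_le_TE hr h
  rintro x (hx | rfl | rfl)
  · exact h1 x (Or.inl hx)
  · fin_cases i
    exacts [h1 D.x₁ (by simp [TV]), h1 D.x₂ (by simp [TV]), h2 D.u (by simp [TE]),
      h2 D.t (by simp [TE]), h2 D.t (by simp [TE])]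
  · fin_cases i
    exacts [h1 D.y₁ (by simp [TV]), h1 D.y₂ (by simp [TV]), h2 D.v (by simp [TE]),
      h2 D.m (by simp [TE]), h2 D.w (by simp [TE])]

theorem acl_Z : Acl (cst Ω ∪ ⋃ i, D.S i) = Set.univ := by
  refine Set.eq_univ_of_forall fun z => acl_mono (Set.union_subset_union_right _ ?_) (D.alg z)
  rw [U_eq]
  rintro x (rfl | rfl) <;> simp [TZ]

theorem T_eq (i : Fin 4) : D.T i.castSucc = cst Ω ∪ D.S i := by
  rw [T, kk_eq]
  fin_cases i <;> rfl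

theorem α_GZ {σ : Au Ω} : D.α * σ * D.α⁻¹ ∈ D.GZ ↔ σ ∈ D.GZ := by
  refine conj_fix (st_union (kk_eq (Ω := Ω) ▸ D.α_st) (fix_le_st _ fun x hx => D.fix x ?_))
  rw [U_eq] at hx
  simpa [TZ] using hx

end Surf

end Pool.Agent.P.MP_ee618e_ag.X
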