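import Pool.Agent.P.MP_ee618e_ag.X.A2
import Pool.Agent.P.MP_ee618e_ag.X.Ge0

/-! BR1: characters with values in a finite extension of `ℚ_ℓ`. -/

namespace Pool.Agent.P.MP_ee618e_ag.X

open IsDedekindDomain Polynomial
open scoped Classical

variable {Ω : Type} [Field Ω] {Λ : Type} [NormedField Λ] {S S' : Set Ω}

theorem Cont.add {β β' : Au Ω → Λ} (h : Cont S β) (h' : Cont S β') : Cont S (β + β') := by
  intro ε hε
  obtain ⟨T, hT, e⟩ := h (ε / 2) (half_pos hε)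
  obtain ⟨T', hT', e'⟩ := h' (ε / 2) (half_pos hε)
  refine ⟨T ∪ T', fun t ht => (Finset.mem_union.1 ht).elim (hT t) (hT' t),
    fun σ hσ τ hτ hag => ?_⟩
  have h1 := e σ hσ τ hτ fun t ht => hag t (Finset.mem_union_left _ ht)
  have h2 := e' σ hσ τ hτ fun t ht => hag t (Finset.mem_union_right _ ht)
  have h3 : (β + β') σ - (β + β') τ = (β σ - β τ) + (β' σ - β' τ) := by
    simp only [Pi.add_apply]
    ring
  rw [h3]
  linarith [norm_add_le (β σ - β τ) (β' σ - β' τ)]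

theorem Cont.smul {β : Au Ω → Λ} (h : Cont S β) (a : Λ) : Cont S (a • β) := by
  intro ε hε
  have ha : 0 < ‖a‖ + 1 := by positivity
  obtain ⟨T, hT, e⟩ := h (ε / (‖a‖ + 1)) (div_pos hε ha)
  refine ⟨T, hT, fun σ hσ τ hτ hag => ?_⟩
  have h1 := e σ hσ τ hτ hag
  rw [lt_div_iff₀ ha] at h1
  simp only [Pi.smul_apply, smul_eq_mul]
  rw [← mul_sub, norm_mul]
  nlinarith [norm_nonneg (β σ - β τ)]

theorem cont_zero : Cont S (0 : Au Ω → Λ) := by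
  intro ε hε
  exact ⟨∅, by simp, fun σ _ τ _ _ => by simpa using hε⟩

theorem H1.add' {χ ψ : Au Ω → Λ} (h : H1 S χ) (h' : H1 S ψ) : H1 S (χ + ψ) := by
  refine ⟨h.cont.add h'.cont, fun σ hσ => ?_, fun σ hσ τ hτ => ?_, fun O hO σ hσ hi => ?_⟩
  · simp [h.out σ hσ, h'.out σ hσ]
  · simp only [Pi.add_apply, h.add σ hσ τ hτ, h'.add σ hσ τ hτ]
    ring
  · simp [h.unr O hO σ hσ hi, h'.unr O hO σ hσ hi]

theorem H1.smul {χ : Au Ω → Λ} (h : H1 S χ) (a : Λ) : H1 S (a • χ) := by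
  refine ⟨h.cont.smul a, fun σ hσ => ?_, fun σ hσ τ hτ => ?_, fun O hO σ hσ hi => ?_⟩
  · simp [h.out σ hσ]
  · simp only [Pi.smul_apply, smul_eq_mul, h.add σ hσ τ hτ]
    ring
  · simp [h.unr O hO σ hσ hi]

theorem h1_zero : H1 S (0 : Au Ω → Λ) := by
  exact ⟨cont_zero, fun _ _ => rfl, fun _ _ _ _ => by simp, fun _ _ _ _ _ => rfl⟩

variable (Λ S) in
/-- `H¹` as a submodule -/
def H1M : Submodule Λ (Au Ω → Λ) where
  carrier := {χ | H1 S χ}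
  add_mem' := H1.add'
  zero_mem' := h1_zero
  smul_mem' := fun a _ h => H1.smul h a

theorem Cont.cj {β : Au Ω → Λ} (h : Cont S β) {s : Au Ω}
    (hs : ∀ x, s x ∈ Subfield.closure (cst Ω ∪ S') ↔ x ∈ Subfield.closure (cst Ω ∪ S)) :
    Cont S' (cj s β) := by
  intro ε hε
  obtain ⟨T, hT, e⟩ := h ε hε
  refine ⟨T.image s, fun t ht => ?_, fun σ hσ τ hτ hag => ?_⟩
  · obtain ⟨t0, h0, rfl⟩ := Finset.mem_image.1 ht
    exact (acl_conj hs t0).2 (hT t0 h0)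
  · refine e _ ((fix_conj hs).2 hσ) _ ((fix_conj hs).2 hτ) fun t ht => ?_
    simp only [au_mul]
    rw [hag _ (Finset.mem_image_of_mem _ ht)]

theorem H1.cj {χ : Au Ω → Λ} (h : H1 S χ) {s : Au Ω} (hk : s ∈ St (cst Ω))
    (hs : ∀ x, s x ∈ Subfield.closure (cst Ω ∪ S') ↔ x ∈ Subfield.closure (cst Ω ∪ S)) :
    H1 S' (cj s χ) := by
  refine ⟨h.cont.cj hs, fun σ hσ => h.out _ fun h1 => hσ ((fix_conj hs).1 h1),
    fun σ hσ τ hτ => ?_, fun O hO σ hσ hi => ?_⟩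
  · have e : s⁻¹ * (σ * τ) * s = s⁻¹ * σ * s * (s⁻¹ * τ * s) := by group
    simp only [X.cj]
    rw [e]
    exact h.add _ ((fix_conj hs).2 hσ) _ ((fix_conj hs).2 hτ)
  · obtain ⟨O', hO', hi'⟩ := Ine.cj (O := O) (σ := σ) hi s
    exact h.unr O' (fun x hx => (hO' x).2 (hO ((hk x).2 hx))) _ ((fix_conj hs).2 hσ) hi'

theorem H1.cj_self {χ : Au Ω → Λ} (h : H1 S χ) {s : Au Ω} (hs : s ∈ Gal S) : X.cj s χ = χ := by
  funext σ
  have hs' : s ∈ Fix (cst Ω ∪ S) := hs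
  by_cases hσ : σ ∈ Fix (cst Ω ∪ S)
  · have h1 : Hom (Fix (cst Ω ∪ S)) χ := h.add
    exact h1.conj hσ hs'
  · have h2 : s⁻¹ * σ * s ∉ Fix (cst Ω ∪ S) := by
      intro h3
      apply hσ
      have e : σ = s * (s⁻¹ * σ * s) * s⁻¹ := by group
      rw [e]
      exact mul_mem (mul_mem hs' h3) (inv_mem hs')
    exact (h.out _ h2).trans (h.out _ hσ).symm

variable (S) in
/-- coboundaries of continuous cochains -/
def CobM : Submodule Λ (Au Ω → Au Ω → Λ) where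
  carrier := {c | ∃ β : Au Ω → Λ, Cont S β ∧
    ∀ σ ∈ Gal S, ∀ τ ∈ Gal S, c σ τ = β σ + β τ - β (σ * τ)}
  add_mem' := by
    rintro a b ⟨β, h, e⟩ ⟨β', h', e'⟩
    refine ⟨β + β', h.add h', fun σ hσ τ hτ => ?_⟩
    simp only [Pi.add_apply, e σ hσ τ hτ, e' σ hσ τ hτ]
    ring
  zero_mem' := ⟨0, cont_zero, by simp⟩
  smul_mem' := by
    rintro a b ⟨β, h, e⟩
    refine ⟨a • β, h.smul a, fun σ hσ τ hτ => ?_⟩
    simp only [Pi.smul_apply, smul_eq_mul, e σ hσ τ hτ]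
    ring

/-- the span of the products -/
def P2 (U V : Set (Au Ω → Λ)) : Submodule Λ (Au Ω → Au Ω → Λ) :=
  Submodule.span Λ {c | ∃ χ ∈ U, ∃ ψ ∈ V, c = fun σ τ => χ σ * ψ τ}

variable (Λ) in
/-- conjugation in both variables -/
def F2 (α : Au Ω) : (Au Ω → Au Ω → Λ) →ₗ[Λ] (Au Ω → Au Ω → Λ) where
  toFun c := fun σ τ => c (α * σ * α⁻¹) (α * τ * α⁻¹)
  map_add' _ _ := rfl
  map_smul' _ _ := rfl

theorem F2_pow (α : Au Ω) (m : ℕ) : F2 Λ α ^ m = F2 Λ (α ^ m) := by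
  induction m with
  | zero =>
    ext c σ τ
    simp [F2]
  | succ m ih =>
    rw [pow_succ, ih]
    ext c σ τ
    simp only [F2, Module.End.mul_apply, LinearMap.coe_mk, AddHom.coe_mk, pow_succ', mul_inv_rev,
      mul_assoc]

theorem cobM_F2 {c : Au Ω → Au Ω → Λ} (h : c ∈ CobM S) {α : Au Ω} (hα : α ∈ St (cst Ω ∪ S)) :
    F2 Λ α c ∈ CobM S := by
  obtain ⟨β, hβ, e⟩ := h
  have hs : ∀ x, α⁻¹ x ∈ Subfield.closure (cst Ω ∪ S) ↔ x ∈ Subfield.closure (cst Ω ∪ S) :=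
    st_closure (inv_mem hα)
  refine ⟨cj α⁻¹ β, hβ.cj hs, fun σ hσ τ hτ => ?_⟩
  have e1 : α⁻¹⁻¹ * (σ * τ) * α⁻¹ = α⁻¹⁻¹ * σ * α⁻¹ * (α⁻¹⁻¹ * τ * α⁻¹) := by group
  have e2 := e _ ((fix_conj hs).2 hσ) _ ((fix_conj hs).2 hτ)
  simp only [cj]
  rw [e1, ← e2, inv_inv]
  rfl

end Pool.Agent.P.MP_ee618e_ag.X
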