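import Pool.Agent.P.MP_ee618e_ag.X.BR1

/-! BR1b: integral characters span. -/

namespace Pool.Agent.P.MP_ee618e_ag.X

open IsDedekindDomain Polynomial
open scoped Classical

variable {Ω : Type} [Field Ω] {Λ : Type} [NormedField Λ] {S : Set Ω}

variable {ℓ : ℕ} [Fact ℓ.Prime] [NormedAlgebra ℚ_[ℓ] Λ]

variable (Λ) in
/-- the map `ℤ_ℓ → Λ` -/
noncomputable def up : ℤ_[ℓ] →+* Λ := (algebraMap ℚ_[ℓ] Λ).comp PadicInt.Coe.ringHom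

theorem norm_up (z : ℤ_[ℓ]) : ‖up Λ z‖ = ‖z‖ := by
  exact norm_algebraMap' Λ (z : ℚ_[ℓ])

include ℓ in
theorem charZero_of : CharZero Λ := by
  exact charZero_of_injective_algebraMap (algebraMap ℚ_[ℓ] Λ).injective

theorem toZModPow_eq_iff_norm (n : ℕ) (x y : ℤ_[ℓ]) :
    PadicInt.toZModPow n x = PadicInt.toZModPow n y ↔ ‖x - y‖ ≤ (ℓ : ℝ) ^ (-n : ℤ) := by
  rw [PadicInt.norm_le_pow_iff_mem_span_pow, ← PadicInt.ker_toZModPow, RingHom.mem_ker, map_sub,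
    sub_eq_zero]

theorem up_coe (z : ℤ_[ℓ]) : up Λ z = algebraMap ℚ_[ℓ] Λ z := rfl

theorem cont_up {β : Au Ω → ℤ_[ℓ]} (h : ∀ n, Sm (Fix (cst Ω ∪ S)) (Acl (cst Ω ∪ S))
    fun σ => PadicInt.toZModPow n (β σ)) : Cont S fun σ => up Λ (β σ) := by
  intro ε hε
  obtain ⟨n, hn⟩ := PadicInt.exists_pow_neg_lt ℓ hε
  obtain ⟨T, hT, hs⟩ := h n
  refine ⟨T, fun t ht => hT ht, fun σ hσ τ hτ hag => ?_⟩
  rw [← map_sub, norm_up]
  exact ((toZModPow_eq_iff_norm n _ _).1 (hs σ hσ τ hτ hag)).trans_lt hn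

variable [FiniteDimensional ℚ_[ℓ] Λ]

/-- Coordinates of a continuous function: linear forms on `Λ` are continuous
(`LinearMap.continuous_of_finiteDimensional`), `β` is bounded on `Gal S` (`orbit_finite`,
`exists_reps`). -/
theorem Cont.coord {β : Au Ω → Λ} (h : Cont S β) (f : Λ →ₗ[ℚ_[ℓ]] ℚ_[ℓ]) :
    ∃ (a : ℕ) (β' : Au Ω → ℤ_[ℓ]), (∀ σ ∉ Gal S, β' σ = 0) ∧
      (∀ σ ∈ Gal S, (β' σ : ℚ_[ℓ]) = (ℓ : ℚ_[ℓ]) ^ a * f (β σ)) ∧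
      ∀ n, Sm (Fix (cst Ω ∪ S)) (Acl (cst Ω ∪ S)) fun σ => PadicInt.toZModPow n (β' σ) := by
  obtain ⟨C, hC, hf⟩ := (LinearMap.toContinuousLinearMap f).bound
  replace hf : ∀ x, ‖f x‖ ≤ C * ‖x‖ := hf
  have hℓ : (1 : ℝ) < ℓ := by exact_mod_cast (Fact.out : ℓ.Prime).one_lt
  obtain ⟨T, hT, h1⟩ := h 1 one_pos
  obtain ⟨s, hs, hrep⟩ := exists_reps (G := Fix (cst Ω ∪ S)) T fun t ht => orbit_finite (hT t ht)
  have hB : ∀ σ ∈ Gal S, ‖β σ‖ ≤ 1 + ∑ τ ∈ s, ‖β τ‖ := by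
    intro σ hσ
    obtain ⟨τ, hτ, hag⟩ := hrep σ hσ
    have h2 := h1 σ hσ τ (hs τ hτ) hag
    have h3 := Finset.single_le_sum (f := fun τ => ‖β τ‖) (fun _ _ => norm_nonneg _) hτ
    have h4 := norm_sub_norm_le (β σ) (β τ)
    linarith
  obtain ⟨a, ha⟩ := pow_unbounded_of_one_lt (C * (1 + ∑ τ ∈ s, ‖β τ‖)) hℓ
  have hn : ‖(ℓ : ℚ_[ℓ]) ^ a‖ = ((ℓ : ℝ) ^ a)⁻¹ := by rw [norm_pow, Padic.norm_p, inv_pow]
  have hpos : (0 : ℝ) < (ℓ : ℝ) ^ a := by positivity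
  have hint : ∀ σ ∈ Gal S, ‖(ℓ : ℚ_[ℓ]) ^ a * f (β σ)‖ ≤ 1 := by
    intro σ hσ
    rw [norm_mul, hn, inv_mul_le_iff₀ hpos, mul_one]
    exact ((hf _).trans (mul_le_mul_of_nonneg_left (hB σ hσ) hC.le)).trans ha.le
  refine ⟨a, fun σ => if hσ : σ ∈ Gal S then ⟨_, hint σ hσ⟩ else 0, fun σ hσ => dif_neg hσ,
    fun σ hσ => by simp only [dif_pos hσ], fun n => ?_⟩
  obtain ⟨T', hT', h2⟩ := h ((ℓ : ℝ) ^ (-n : ℤ) / C) (by positivity)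
  refine ⟨T', fun t ht => hT' t ht, fun σ hσ τ hτ hag => ?_⟩
  have hσ' : σ ∈ Gal S := hσ
  have hτ' : τ ∈ Gal S := hτ
  have h3 := h2 σ hσ τ hτ hag
  simp only [dif_pos hσ', dif_pos hτ']
  rw [toZModPow_eq_iff_norm, PadicInt.norm_def, PadicInt.coe_sub]
  simp only
  rw [← mul_sub, ← map_sub, norm_mul, hn]
  rw [lt_div_iff₀' hC] at h3
  refine le_trans ?_ (((hf _).trans h3.le))
  exact mul_le_of_le_one_left (norm_nonneg _) (inv_le_one_of_one_le₀ (one_le_pow₀ hℓ.le))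

variable [CharP Ω 2]

omit [FiniteDimensional ℚ_[ℓ] Λ] in
theorem Lat.h1 {χ : Au Ω → ℤ_[ℓ]} (h : Lat ℓ (kk Ω) (cst Ω ∪ S) χ) : H1 S fun σ => up Λ (χ σ) := by
  refine ⟨cont_up fun n => (h n).sm, fun σ hσ => ?_, fun σ hσ τ hτ => ?_, fun O hO σ hσ hi => ?_⟩
  · rw [PadicInt.ext_of_toZModPow.1 fun n => ((h n).out σ hσ).trans (map_zero _).symm, map_zero]
  · rw [h.hom σ hσ τ hτ, map_add]
  · rw [PadicInt.ext_of_toZModPow.1 fun n =>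
      ((h n).unr O (by rwa [kk_eq]) σ hσ hi).trans (map_zero _).symm, map_zero]

theorem H1.span {χ : Au Ω → Λ} (h : H1 S χ) : χ ∈ Submodule.span Λ
    {ψ | ∃ χ' : Au Ω → ℤ_[ℓ], Lat ℓ (kk Ω) (cst Ω ∪ S) χ' ∧ ψ = fun σ => up Λ (χ' σ)} := by
  let b := Module.finBasis ℚ_[ℓ] Λ
  choose a β h0 h1 h2 using fun i => h.cont.coord (b.coord i)
  have hℓ : (ℓ : ℚ_[ℓ]) ≠ 0 := by exact_mod_cast (Fact.out : ℓ.Prime).ne_zero
  have e : χ = ∑ i, (algebraMap ℚ_[ℓ] Λ ((ℓ : ℚ_[ℓ]) ^ a i)⁻¹ * b i) •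
      fun σ => up Λ (β i σ) := by
    funext σ
    simp only [Finset.sum_apply, Pi.smul_apply, smul_eq_mul]
    by_cases hσ : σ ∈ Gal S
    · rw [← b.sum_repr (χ σ)]
      refine Finset.sum_congr rfl fun i _ => ?_
      rw [up_coe, h1 i σ hσ, mul_right_comm, ← map_mul, inv_mul_cancel_left₀ (pow_ne_zero _ hℓ),
        Algebra.smul_def]
      rfl
    · simp [h.out σ hσ, h0 _ σ hσ]
  rw [e]
  refine Submodule.sum_mem _ fun i _ => Submodule.smul_mem _ _ (Submodule.subset_span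
    ⟨β i, fun n => ⟨fun σ hσ τ hτ => ?_, h2 i n, fun σ hσ => ?_, fun O hO σ hσ hi => ?_⟩, rfl⟩)
  · have : β i (σ * τ) = β i σ + β i τ := by
      refine Subtype.ext ?_
      rw [PadicInt.coe_add, h1 i σ hσ, h1 i τ hτ, h1 i _ ((Fix (cst Ω ∪ S)).mul_mem hσ hτ),
        h.add σ hσ τ hτ, map_add, mul_add]
    simp only [this, map_add]
  · simp only [h0 i σ hσ, map_zero]
  · have : β i σ = 0 := by
      refine Subtype.ext ?_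
      rw [h1 i σ hσ, h.unr O (by rwa [kk_eq] at hO) σ hσ hi, map_zero, mul_zero, PadicInt.coe_zero]
    simp only [this, map_zero]

end Pool.Agent.P.MP_ee618e_ag.X
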