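import Pool.Agent.P.MP_ee618e_ag.X.M2
import Pool.Agent.P.MP_ee618e_ag.X.A4

/-! M3: the integral `ℓ`-adic statements for the surface. -/

namespace Pool.Agent.P.MP_ee618e_ag.X

open IsDedekindDomain Polynomial
open scoped Classical

variable {Ω : Type} [Field Ω] [IsAlgClosed Ω] [CharP Ω 2] {r : ℕ} {D : Surf Ω (4 ^ r)} (G : Geo D)
  {ℓ : ℕ} [Fact ℓ.Prime]

omit [IsAlgClosed Ω] in
include G in
theorem Geo.m3_zeta {ζ : ℕ → Ω} (hℓ : ℓ ≠ 2) (hζ : Roots ℓ ζ) (n : ℕ) :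
    D.α (ζ n) = ζ n ^ 4 ^ r := by
  have ho : Odd ℓ := (Fact.out : ℓ.Prime).odd_of_ne_two hℓ
  have h := (G.C 0).zeta_mem (hζ.prim n) (odd_ne_zero ho.pow)
  rw [G.hk] at h
  exact D.frob _ (kk_eq (Ω := Ω) ▸ h)

include G in
theorem Geo.m3_fin (i : Fin 5) {N : ℕ} (hN : Odd N) :
    {χ : Au Ω → ZMod N | Ch (kk Ω) (D.T i) χ}.Finite := by
  refine ((G.C i).ch_finite (odd_ne_zero hN)).subset fun χ h => ?_
  have h' : Ch (kk Ω) (D.T i) χ := h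
  rw [← G.hk i] at h'
  exact h'.of_closure (G.cl0 i).symm

include G in
theorem Geo.m3_fg (hℓ : ℓ ≠ 2) (i : Fin 5) : (LatM ℓ (kk Ω) (D.T i)).FG := by
  have ho : Odd ℓ := (Fact.out : ℓ.Prime).odd_of_ne_two hℓ
  have h := latM_fg (C := G.C i) (odd_ne_zero ho) (G.dvs i ℓ ho)
  rw [← G.hk i]
  convert h using 1
  ext χ
  exact ⟨fun h => Lat.of_closure h (G.cl0 i).symm, fun h => Lat.of_closure h (G.cl0 i)⟩

omit [IsAlgClosed Ω] in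
theorem m3_per (hr : 0 < r) (i : Fin 5) : ∀ x ∈ D.T i, ∃ m, 0 < m ∧ (D.α ^ m) x = x := by
  rintro x (h | rfl | rfl)
  · exact D.α_per h
  · exact ⟨1, one_pos, by rw [pow_one, D.α_X]⟩
  · exact ⟨1, one_pos, by rw [pow_one, D.α_Y hr]⟩

/-- `konig` for the finite sets (`ch_finite`) of families of characters modulo `ℓ ^ n` which solve
the problem at level `n` (`cores_loc`, `average`, `Bas.kap_eq`, `Bas.ch_co`); `lat_lim` -/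
theorem Geo.main (hr : 0 < r) (hℓ : ℓ ≠ 2) : ∃ (n₁ n₂ ρ : ℕ) (κ : Fin ρ → Au Ω → ℤ_[ℓ]),
    0 < n₁ ∧ (∀ i, Lat ℓ (kk Ω) (D.T 2) (κ i)) ∧ ∀ χ χ' : Au Ω → ℤ_[ℓ],
      Lat ℓ (kk Ω) (D.T 0) χ → Lat ℓ (kk Ω) (D.T 1) χ' → ∃ ψ₃ ψ₄ : Fin ρ → Au Ω → ℤ_[ℓ],
        (∀ i, Lat ℓ (kk Ω) (D.T 3) (ψ₃ i)) ∧ (∀ i, Lat ℓ (kk Ω) (D.T 4) (ψ₄ i)) ∧
        CobL ℓ D.GZ fun σ τ => n₁ * (χ σ * χ' τ) - n₂ * (cj G.sw χ' σ * cj G.sw χ τ) -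
          ∑ i, κ i σ * ψ₃ i τ - ∑ i, κ i σ * ψ₄ i τ := by
  have ho : Odd ℓ := (Fact.out : ℓ.Prime).odd_of_ne_two hℓ
  have hℓ' : (ℓ : Ω) ≠ 0 := odd_ne_zero ho
  obtain ⟨ζ, hζ⟩ := exists_roots (Ω := Ω) ℓ hℓ'
  obtain ⟨B⟩ := exists_bas (C := G.C 2) hℓ' hζ (G.dvs 2 ℓ ho)
  obtain ⟨n₁, n₂, h1, hc⟩ := G.cores_loc hr
  refine ⟨4 * n₁, 4 * n₂, B.ρ, B.κ, by omega, fun i => ?_, fun χ χ' hχ hχ' => ?_⟩
  · rw [← G.hk 2]
    exact (B.lat hℓ' hζ i).of_closure (G.cl0 2)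
  let U : (n : ℕ) → Set ((Fin B.ρ → Au Ω → ZMod (ℓ ^ n)) × (Fin B.ρ → Au Ω → ZMod (ℓ ^ n))) :=
    fun n => {p | (∀ i, Ch (kk Ω) (D.T 3) (p.1 i)) ∧ (∀ i, Ch (kk Ω) (D.T 4) (p.2 i)) ∧
      Cob D.GZ fun σ τ => PadicInt.toZModPow n (((4 * n₁ : ℕ) : ℤ_[ℓ]) * (χ σ * χ' τ) -
        ((4 * n₂ : ℕ) : ℤ_[ℓ]) * (cj G.sw χ' σ * cj G.sw χ τ)) -
        ∑ i, PadicInt.toZModPow n (B.κ i σ) * p.1 i τ -
        ∑ i, PadicInt.toZModPow n (B.κ i σ) * p.2 i τ}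
  obtain ⟨y, hy, hp⟩ := konig U
    (fun n p => (fun i σ => red ℓ n (p.1 i σ), fun i σ => red ℓ n (p.2 i σ)))
    (fun n => ((Set.Finite.pi' fun _ => G.m3_fin 3 ho.pow).prod
      (Set.Finite.pi' fun _ => G.m3_fin 4 ho.pow)).subset fun p hp => ⟨hp.1, hp.2.1⟩)
    (fun n => by
      obtain ⟨c, hs, hco, hl, hb⟩ := hc (ℓ ^ n) ho.pow _ _ (hχ n) (hχ' n)
      obtain ⟨t₃, t₄, h3, h4, h0, hb'⟩ := G.average hr (hζ.prim n) ho.pow hs hco hl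
      refine ⟨(fun i τ => B.co n (t₃ τ) i, fun i τ => B.co n (t₄ τ) i),
        fun i => B.ch_co h3 (fun τ => (h0 τ).1) i, fun i => B.ch_co h4 (fun τ => (h0 τ).2) i, ?_⟩
      refine ((hb'.mono (D.GZ_le_TE hr)).sub
        ((hb.mono D.GZ_le_TV).map (AddMonoidHom.mulLeft 4))).congr fun σ _ τ _ => ?_
      simp only [Fib.cup, B.kap_eq hℓ' hζ (h0 τ).1, B.kap_eq hℓ' hζ (h0 τ).2,
        AddMonoidHom.coe_mulLeft, map_sub, map_mul, map_natCast, cj]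
      push_cast
      ring)
    (fun n p hp => by
      refine ⟨fun i => (hp.1 i).map (red ℓ n).toAddMonoidHom,
        fun i => (hp.2.1 i).map (red ℓ n).toAddMonoidHom, ?_⟩
      refine (hp.2.2.map (red ℓ n).toAddMonoidHom).congr fun σ _ τ _ => ?_
      simp only [RingHom.toAddMonoidHom_eq_coe, AddMonoidHom.coe_coe]
      rw [map_sub, map_sub, red_toZModPow, map_sum, map_sum]
      simp only [map_mul (red ℓ n), red_toZModPow])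
  choose ψ₃ l3 e3 using fun i => lat_lim (fun n => (y n).1 i) (fun n => (hy n).1 i)
    fun n σ => congrFun (congrFun (congrArg Prod.fst (hp n)) i) σ
  choose ψ₄ l4 e4 using fun i => lat_lim (fun n => (y n).2 i) (fun n => (hy n).2.1 i)
    fun n σ => congrFun (congrFun (congrArg Prod.snd (hp n)) i) σ
  refine ⟨ψ₃, ψ₄, l3, l4, fun n => (hy n).2.2.congr fun σ _ τ _ => ?_⟩
  simp only [map_sub, map_sum, map_mul, e3, e4]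

include G in
/-- `ch_eigen` -/
theorem Geo.lat_frob (hℓ : ℓ ≠ 2) {i : Fin 5} (hi : i = 2 ∨ i = 4) {χ : Au Ω → ℤ_[ℓ]}
    (h : Lat ℓ (kk Ω) (D.T i) χ) (σ : Au Ω) : χ (D.α * σ * D.α⁻¹) = (-2) ^ r * χ σ := by
  have ho : Odd ℓ := (Fact.out : ℓ.Prime).odd_of_ne_two hℓ
  obtain ⟨ζ, hζ⟩ := exists_roots (Ω := Ω) ℓ (odd_ne_zero ho)
  have key : (-2) ^ r * χ (D.α * σ * D.α⁻¹) = 4 ^ r * χ σ := by
    refine padic_ext ℓ fun n => ?_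
    have h' := (h n).of_closure (G.cl0 i).symm
    rw [← G.hk i] at h'
    have := Fib.ch_eigen (hζ.prim n) (odd_ne_zero ho.pow) (G.nm i) (G.m3_zeta hℓ hζ n)
      (G.frob i hi _ ho.pow) h' σ
    simp only [map_mul, map_pow, map_neg, map_ofNat]
    push_cast at this
    exact this
  refine mul_left_cancel₀ (pow_ne_zero r (show (-2 : ℤ_[ℓ]) ≠ 0 by norm_num)) ?_
  rw [key, ← mul_assoc, ← mul_pow]
  norm_num

include G in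
/-- `ker_inf`, `latM_fg` -/
theorem Geo.ker (hr : 0 < r) (hℓ : ℓ ≠ 2) {i : Fin 5} (hi : i = 0 ∨ i = 2) {ι : Type} [Fintype ι]
    {χ ψ : ι → Au Ω → ℤ_[ℓ]} (hχ : ∀ a, Lat ℓ (kk Ω) (D.T i) (χ a))
    (hψ : ∀ a, Lat ℓ (kk Ω) (D.T (opp i)) (ψ a))
    (h : CobL ℓ D.GZ fun σ τ => ∑ a, χ a σ * ψ a τ) : ∃ m, 0 < m ∧ ∀ σ τ,
      ∑ a, χ a (D.α ^ m * σ * (D.α ^ m)⁻¹) * ψ a (D.α ^ m * τ * (D.α ^ m)⁻¹) =
        ((4 : ℤ_[ℓ]) ^ r) ^ m * ∑ a, χ a σ * ψ a τ := by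
  have ho : Odd ℓ := (Fact.out : ℓ.Prime).odd_of_ne_two hℓ
  have hℓ' : (ℓ : Ω) ≠ 0 := odd_ne_zero ho
  obtain ⟨ζ, hζ⟩ := exists_roots (Ω := Ω) ℓ hℓ'
  have := ker_inf (C := G.C i) (χ := χ) (ψ := ψ) hℓ' hζ (G.dvs i ℓ ho) (G.base hr i)
    (by rw [G.hk]; exact G.m3_fg hℓ _) (G.nm i) (by rw [G.hk]; exact D.α_st)
    (st_closure (D.α_T hr _)) (G.m3_zeta hℓ hζ)
    (by
      rintro x (hx | hx)
      · refine alpha_orbit D.α (m3_per hr i) (closure_subset_acl _ ?_)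
        rw [← G.cl0]
        exact Subfield.subset_closure hx
      · exact m3_per hr _ x hx) D.TZ
    (fun a => Lat.of_closure (S := D.T i) (by rw [G.hk]; exact hχ a) (G.cl0 i).symm)
    (fun a => by rw [G.hk]; exact hψ a)
    (h.mono (by
      rw [D.GZ_eq]
      exact inf_le_inf_right _ (inf_le_right.trans (fix_anti Set.subset_union_left))))
  push_cast at this
  exact this

end Pool.Agent.P.MP_ee618e_ag.X
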