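import Pool.Agent.P.MP_ee618e_ag.X.BR1b
import Pool.Agent.P.MP_ee618e_ag.X.M3

/-! BR2: the statements of `M3` with coefficients in `Λ`. -/

namespace Pool.Agent.P.MP_ee618e_ag.X

open IsDedekindDomain Polynomial
open scoped Classical

/-- the vectors on which a power of `F` acts by the corresponding power of `q` -/
def TateM {Λ V : Type} [Field Λ] [AddCommGroup V] [Module Λ V] (F : V →ₗ[Λ] V) (q : Λ) :
    Submodule Λ V where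
  carrier := {x | ∃ m, 0 < m ∧ (F ^ m) x = q ^ m • x}
  add_mem' := by
    have key : ∀ (x : V) (m k : ℕ), (F ^ m) x = q ^ m • x → (F ^ (m * k)) x = q ^ (m * k) • x := by
      intro x m k h
      induction k with
      | zero => simp
      | succ k ih =>
        rw [Nat.mul_succ, pow_add, Module.End.mul_apply, h, map_smul, ih, smul_smul, pow_add,
          mul_comm (q ^ m)]
    rintro x y ⟨m, hm, h⟩ ⟨n, hn, h'⟩
    refine ⟨m * n, Nat.mul_pos hm hn, ?_⟩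
    rw [map_add, key x m n h, mul_comm m n, key y n m h', smul_add]
  zero_mem' := ⟨1, one_pos, by simp⟩
  smul_mem' := by
    rintro a x ⟨m, hm, h⟩
    exact ⟨m, hm, by rw [map_smul, h, smul_comm]⟩

variable {Ω : Type} [Field Ω] [IsAlgClosed Ω] [CharP Ω 2] {r : ℕ} {D : Surf Ω (4 ^ r)}
  {Λ : Type} [NormedField Λ] {ℓ : ℕ} [Fact ℓ.Prime] [NormedAlgebra ℚ_[ℓ] Λ]

/-- `CobL.lim`, `cont_up` -/
theorem CobL.up (hℓ : ℓ ≠ 2) {c : Au Ω → Au Ω → ℤ_[ℓ]} (h : CobL ℓ D.GZ c) :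
    (fun σ τ => up Λ (c σ τ)) ∈ CobM (⋃ i, D.S i) := by
  have hp : ℓ.Prime := Fact.out
  obtain ⟨ζ, hζ⟩ := exists_roots (Ω := Ω) ℓ (odd_ne_zero (hp.odd_of_ne_two hℓ))
  have := kk_algClosed (Ω := Ω)
  have hz : ∀ σ ∈ D.GZ, ∀ n, σ (ζ n) = ζ n := by
    intro σ hσ n
    refine hσ _ (Or.inl ?_)
    rw [← kk_eq]
    exact root_mem (kk Ω) (pow_pos hp.pos n) (one_mem _) (hζ.prim n).pow_eq_one
  obtain ⟨β, hs, hβ⟩ := h.lim (fo_fix D.acl_Z) hζ hz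
  refine ⟨fun σ => X.up Λ (β σ), cont_up fun n => ?_, fun σ hσ τ hτ => ?_⟩
  · rw [D.acl_Z]
    exact hs n
  · simp only [hβ σ hσ τ hτ, map_sub, map_add]

omit [IsAlgClosed Ω] in
theorem Surf.α_Z (D : Surf Ω (4 ^ r)) : D.α ∈ St (cst Ω ∪ ⋃ i, D.S i) := by
  have h1 : ∀ x ∈ ⋃ i, D.S i, D.α x = x := by
    intro x hx
    obtain ⟨i, hi⟩ := Set.mem_iUnion.1 hx
    refine D.fix x ?_
    fin_cases i <;> simp only [Surf.S] at hi <;> simp at hi ⊢ <;> tauto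
  have h2 := D.α_st
  rw [kk_eq] at h2
  intro x
  constructor
  · rintro (h | h)
    · exact Or.inl ((h2 x).1 h)
    · have := D.α.injective (h1 _ h)
      exact Or.inr (this ▸ h)
  · rintro (h | h)
    · exact Or.inl ((h2 x).2 h)
    · exact Or.inr ((h1 x h).symm ▸ h)

omit [IsAlgClosed Ω] in
theorem Lat.h1T {i : Fin 4} {χ : Au Ω → ℤ_[ℓ]} (h : Lat ℓ (kk Ω) (D.T i.castSucc) χ) :
    H1 (D.S i) fun σ => up Λ (χ σ) := by
  rw [D.T_eq] at h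
  exact h.h1

omit [IsAlgClosed Ω] in
theorem Lat.frobT (hr : 0 < r) {i : Fin 5} {χ : Au Ω → ℤ_[ℓ]} (h : Lat ℓ (kk Ω) (D.T i) χ) :
    Lat ℓ (kk Ω) (D.T i) fun σ => χ (D.α * σ * D.α⁻¹) := by
  have := h.cj (s := D.α⁻¹) (inv_mem D.α_st) (st_closure (inv_mem (D.α_T hr i)))
  unfold X.cj at this
  rwa [inv_inv] at this

variable [FiniteDimensional ℚ_[ℓ] Λ] (G : Geo D)

omit [IsAlgClosed Ω] in
theorem H1.spanT {i : Fin 4} {χ : Au Ω → Λ} (h : H1 (D.S i) χ) : χ ∈ Submodule.span Λ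
    {ψ | ∃ χ' : Au Ω → ℤ_[ℓ], Lat ℓ (kk Ω) (D.T i.castSucc) χ' ∧ ψ = fun σ => up Λ (χ' σ)} := by
  rw [D.T_eq]
  exact h.span

include G in
theorem Geo.h1_frob (hℓ : ℓ ≠ 2) {χ : Au Ω → Λ} (h : H1 (D.S 2) χ) :
    χ ∈ D.Eig 2 ((-2 : Λ) ^ r) := by
  refine ⟨h, ?_⟩
  have := h.spanT (ℓ := ℓ)
  clear h
  induction this using Submodule.span_induction with
  | mem x hx =>
    obtain ⟨χ', h', rfl⟩ := hx
    intro σ
    show up Λ _ = _ * up Λ _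
    rw [G.lat_frob hℓ (i := 2) (Or.inl rfl) h' σ, map_mul, map_pow, map_neg, map_ofNat]
  | zero => simp
  | add x y _ _ hx hy =>
    intro σ
    simp only [Pi.add_apply, hx σ, hy σ]
    ring
  | smul a x _ hx =>
    intro σ
    simp only [Pi.smul_apply, smul_eq_mul, hx σ]
    ring

omit [IsAlgClosed Ω] in
/-- a bilinear expression lies in a submodule as soon as it does so for integral characters -/
theorem bil_ind {i j : Fin 4} {V : Type} [AddCommGroup V] [Module Λ V] (K : Submodule Λ V)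
    (B : (Au Ω → Λ) →ₗ[Λ] (Au Ω → Λ) →ₗ[Λ] V)
    (h : ∀ χ ψ : Au Ω → ℤ_[ℓ], Lat ℓ (kk Ω) (D.T i.castSucc) χ → Lat ℓ (kk Ω) (D.T j.castSucc) ψ →
      B (fun σ => up Λ (χ σ)) (fun σ => up Λ (ψ σ)) ∈ K)
    {χ ψ : Au Ω → Λ} (hχ : H1 (D.S i) χ) (hψ : H1 (D.S j) ψ) : B χ ψ ∈ K := by
  have h1 := hχ.spanT (ℓ := ℓ)
  have h2 := hψ.spanT (ℓ := ℓ)
  clear hχ hψ
  induction h1 using Submodule.span_induction with
  | mem x hx =>
    obtain ⟨χ', h', rfl⟩ := hx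
    induction h2 using Submodule.span_induction with
    | mem y hy =>
      obtain ⟨ψ', h'', rfl⟩ := hy
      exact h χ' ψ' h' h''
    | zero => simp
    | add x y _ _ hx hy => rw [map_add]; exact K.add_mem hx hy
    | smul a x _ hx => rw [map_smul]; exact K.smul_mem a hx
  | zero => simp
  | add x y _ _ hx hy => rw [map_add, LinearMap.add_apply]; exact K.add_mem hx hy
  | smul a x _ hx => rw [map_smul, LinearMap.smul_apply]; exact K.smul_mem a hx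

variable (Ω Λ) in
/-- the product of two functions -/
def prodL : (Au Ω → Λ) →ₗ[Λ] (Au Ω → Λ) →ₗ[Λ] (Au Ω → Au Ω → Λ) :=
  LinearMap.mk₂ Λ (fun χ ψ σ τ => χ σ * ψ τ)
    (fun _ _ _ => by ext; simp [add_mul]) (fun _ _ _ => by ext; simp [mul_assoc])
    (fun _ _ _ => by ext; simp [mul_add]) (fun _ _ _ => by ext; simp [mul_left_comm])

include G in
/-- Write `c = ∑ p, λ p • up (χ p σ * ψ p τ)` (`H1.span`); for each vector of a basis of `Λ` over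
`ℚ_ℓ` take the coordinate (`Cont.coord`), clear denominators and apply `Geo.ker`. -/
theorem Geo.kerL (hr : 0 < r) (hℓ : ℓ ≠ 2) {i j : Fin 4} (hi : i = 0 ∧ j = 1 ∨ i = 2 ∧ j = 3)
    {c : Au Ω → Au Ω → Λ} (hc : c ∈ P2 {χ | H1 (D.S i) χ} {χ | H1 (D.S j) χ})
    (h : c ∈ CobM (⋃ i, D.S i)) : ∃ m, 0 < m ∧ (F2 Λ D.α ^ m) c = ((4 : Λ) ^ r) ^ m • c := by
  have hp : ℓ.Prime := Fact.out
  have hc' : c ∈ Submodule.span Λ {c : Au Ω → Au Ω → Λ | ∃ χ ψ : Au Ω → ℤ_[ℓ],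
      Lat ℓ (kk Ω) (D.T i.castSucc) χ ∧ Lat ℓ (kk Ω) (D.T j.castSucc) ψ ∧
        c = fun σ τ => up Λ (χ σ * ψ τ)} := by
    refine Submodule.span_le.2 ?_ hc
    rintro _ ⟨χ, hχ, ψ, hψ, rfl⟩
    refine bil_ind (ℓ := ℓ) _ (prodL Ω Λ) (fun χ ψ h1 h2 => ?_) hχ hψ
    refine Submodule.subset_span ⟨χ, ψ, h1, h2, ?_⟩
    ext σ τ
    simp [prodL]
  obtain ⟨n, lam, g, hg⟩ := Submodule.mem_span_set'.1 hc'
  choose χ ψ hχ hψ eg using fun p => (g p).2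
  obtain ⟨β, hβ, eβ⟩ := h
  let b := Module.finBasis ℚ_[ℓ] Λ
  have hcb : c = ∑ e, b e • fun σ τ => algebraMap ℚ_[ℓ] Λ (b.coord e (c σ τ)) := by
    ext σ τ
    conv_lhs => rw [← b.sum_repr (c σ τ)]
    simp [Algebra.smul_def, mul_comm]
  show c ∈ TateM (F2 Λ D.α) ((4 : Λ) ^ r)
  rw [hcb]
  refine Submodule.sum_mem _ fun e _ => Submodule.smul_mem _ _ ?_
  set f := b.coord e
  obtain ⟨a, β', -, e', hs⟩ := hβ.coord f
  obtain ⟨d, hd⟩ := IsLocalization.exist_integer_multiples_of_finite (nonZeroDivisors ℤ_[ℓ])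
    fun p => f (lam p)
  choose z hz using hd
  have hfc : ∀ σ τ, ((∑ p, ((ℓ : ℤ_[ℓ]) ^ a * z p * χ p σ) * ψ p τ : ℤ_[ℓ]) : ℚ_[ℓ]) =
      ((d : ℤ_[ℓ]) : ℚ_[ℓ]) * (ℓ : ℚ_[ℓ]) ^ a * f (c σ τ) := by
    intro σ τ
    rw [← hg]
    simp only [Finset.sum_apply, Pi.smul_apply, smul_eq_mul, eg, map_sum, Finset.mul_sum]
    refine (map_sum (PadicInt.Coe.ringHom (p := ℓ)) _ _).trans ?_
    refine Finset.sum_congr rfl fun p _ => ?_
    have h1 : lam p * up Λ (χ p σ * ψ p τ) = ((χ p σ * ψ p τ : ℤ_[ℓ]) : ℚ_[ℓ]) • lam p := by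
      rw [Algebra.smul_def, mul_comm]
      rfl
    have h2 : (z p : ℚ_[ℓ]) = ((d : ℤ_[ℓ]) : ℚ_[ℓ]) * f (lam p) := hz p
    show (((ℓ : ℤ_[ℓ]) ^ a * z p * χ p σ * ψ p τ : ℤ_[ℓ]) : ℚ_[ℓ]) = _
    push_cast
    rw [h1, map_smul, h2, smul_eq_mul]
    push_cast
    ring
  have hcob : CobL ℓ D.GZ fun σ τ => ∑ p, ((ℓ : ℤ_[ℓ]) ^ a * z p * χ p σ) * ψ p τ := by
    intro n
    refine ⟨fun σ => PadicInt.toZModPow n ((d : ℤ_[ℓ]) * β' σ), ?_, fun σ hσ τ hτ => ?_⟩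
    · simp only [map_mul]
      exact ((hs n).map fun x => PadicInt.toZModPow n (d : ℤ_[ℓ]) * x).mono le_rfl
        (Set.subset_univ _)
    · rw [← map_add, ← map_sub]
      refine congrArg (PadicInt.toZModPow n) (Subtype.ext ?_)
      beta_reduce
      rw [hfc, eβ σ hσ τ hτ]
      push_cast
      rw [e' σ hσ, e' τ hτ, e' (σ * τ) (D.GZ.mul_mem hσ hτ), map_sub, map_add]
      ring
  have hopp : opp i.castSucc = j.castSucc := by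
    rcases hi with ⟨rfl, rfl⟩ | ⟨rfl, rfl⟩ <;> rfl
  have hi' : i.castSucc = 0 ∨ i.castSucc = 2 := by
    rcases hi with ⟨rfl, -⟩ | ⟨rfl, -⟩
    · exact Or.inl rfl
    · exact Or.inr rfl
  obtain ⟨m, hm, em⟩ := G.ker hr hℓ hi' (χ := fun p σ => (ℓ : ℤ_[ℓ]) ^ a * z p * χ p σ) (ψ := ψ)
    (fun p => (hχ p).smul ((ℓ : ℤ_[ℓ]) ^ a * z p)) (fun p => hopp ▸ hψ p) hcob
  refine ⟨m, hm, ?_⟩
  rw [F2_pow]
  ext σ τ
  have hne : ((d : ℤ_[ℓ]) : ℚ_[ℓ]) * (ℓ : ℚ_[ℓ]) ^ a ≠ 0 := by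
    refine mul_ne_zero ?_ (pow_ne_zero _ (Nat.cast_ne_zero.2 hp.ne_zero))
    exact fun h0 => nonZeroDivisors.ne_zero d.2 (Subtype.ext h0)
  have := congrArg (fun x : ℤ_[ℓ] => (x : ℚ_[ℓ])) (em σ τ)
  simp only [PadicInt.coe_mul, hfc] at this
  have h3 : f (c (D.α ^ m * σ * (D.α ^ m)⁻¹) (D.α ^ m * τ * (D.α ^ m)⁻¹)) =
      ((4 : ℚ_[ℓ]) ^ r) ^ m * f (c σ τ) := by
    apply mul_left_cancel₀ hne
    rw [this]
    push_cast
    have : ((4 : ℤ_[ℓ]) : ℚ_[ℓ]) = 4 := rfl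
    rw [this]
    ring
  show algebraMap ℚ_[ℓ] Λ (f (c (D.α ^ m * σ * (D.α ^ m)⁻¹) (D.α ^ m * τ * (D.α ^ m)⁻¹))) =
    ((4 : Λ) ^ r) ^ m * algebraMap ℚ_[ℓ] Λ (f (c σ τ))
  rw [h3, map_mul, map_pow, map_pow, map_ofNat]

variable (Λ) in
/-- conjugation as a linear map -/
def cjL (s : Au Ω) : (Au Ω → Λ) →ₗ[Λ] (Au Ω → Λ) where
  toFun := cj s
  map_add' _ _ := rfl
  map_smul' _ _ := rfl

/-- The statement is bilinear in `χ`, `χ'` (`H1.span`). For integral characters use `Geo.main`,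
apply `F2 - q` (`cobM_F2`), which kills the part with `ψ₄` by `lat_frob`. -/
theorem Geo.mainL (hr : 0 < r) (hℓ : ℓ ≠ 2) : ∃ n₁ n₂ : ℕ, 0 < n₁ ∧ ∀ χ χ' : Au Ω → Λ,
    H1 (D.S 0) χ → H1 (D.S 1) χ' → ∀ a : Au Ω → Au Ω → Λ,
      a = (fun σ τ => n₁ * (χ σ * χ' τ) - n₂ * (cj G.sw χ' σ * cj G.sw χ τ)) →
      ∃ b ∈ P2 {χ | H1 (D.S 2) χ} {χ | H1 (D.S 3) χ},
        F2 Λ D.α a - (4 : Λ) ^ r • a - b ∈ CobM (⋃ i, D.S i) := by
  obtain ⟨n₁, n₂, ρ, κ, hn, hκ, H⟩ := G.main (ℓ := ℓ) hr hℓ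
  refine ⟨n₁, n₂, hn, fun χ χ' hχ hχ' a ha => ?_⟩
  let A : (Au Ω → Λ) →ₗ[Λ] (Au Ω → Λ) →ₗ[Λ] (Au Ω → Au Ω → Λ) :=
    (n₁ : Λ) • prodL Ω Λ - (n₂ : Λ) • ((prodL Ω Λ).flip.compl₁₂ (cjL Λ G.sw) (cjL Λ G.sw))
  have hA : ∀ χ χ', A χ χ' =
      fun σ τ => n₁ * (χ σ * χ' τ) - n₂ * (cj G.sw χ' σ * cj G.sw χ τ) := fun _ _ => rfl
  let L : (Au Ω → Au Ω → Λ) →ₗ[Λ] (Au Ω → Au Ω → Λ) := F2 Λ D.α - (4 : Λ) ^ r • LinearMap.id
  have hL : ∀ x, L x = F2 Λ D.α x - (4 : Λ) ^ r • x := fun _ => rfl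
  have key : A χ χ' ∈ (P2 {χ | H1 (D.S 2) χ} {χ | H1 (D.S 3) χ} ⊔ CobM (⋃ i, D.S i)).comap L := by
    refine bil_ind (ℓ := ℓ) _ A (fun χ χ' h1 h2 => ?_) hχ hχ'
    obtain ⟨ψ₃, ψ₄, h3, h4, hc⟩ := H χ χ' h1 h2
    have hc' := hc.up (Λ := Λ) hℓ
    set c := fun σ τ => up Λ ((n₁ : ℤ_[ℓ]) * (χ σ * χ' τ) -
      (n₂ : ℤ_[ℓ]) * (cj G.sw χ' σ * cj G.sw χ τ) -
      ∑ i, κ i σ * ψ₃ i τ - ∑ i, κ i σ * ψ₄ i τ) with hcdef
    have e : A (fun σ => up Λ (χ σ)) (fun σ => up Λ (χ' σ)) =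
        c + ∑ i, (fun σ τ => up Λ (κ i σ) * up Λ (ψ₃ i τ)) +
          ∑ i, (fun σ τ => up Λ (κ i σ) * up Λ (ψ₄ i τ)) := by
      rw [hA]
      ext σ τ
      simp only [hcdef, Pi.add_apply, Finset.sum_apply, map_sub, map_mul, map_sum, map_natCast,
        X.cj]
      ring
    rw [e]
    refine Submodule.add_mem _ (Submodule.add_mem _ ?_ (Submodule.sum_mem _ fun i _ => ?_))
      (Submodule.sum_mem _ fun i _ => ?_)
    · exact Submodule.mem_sup_right (Submodule.sub_mem _ (cobM_F2 hc' D.α_Z)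
        (Submodule.smul_mem _ _ hc'))
    · refine Submodule.mem_sup_left (Submodule.sub_mem _ (Submodule.subset_span ?_)
        (Submodule.smul_mem _ _ (Submodule.subset_span ?_)))
      · exact ⟨_, Lat.h1T (i := 2) ((hκ i).frobT hr), _, Lat.h1T (i := 3) ((h3 i).frobT hr), rfl⟩
      · exact ⟨_, Lat.h1T (i := 2) (hκ i), _, Lat.h1T (i := 3) (h3 i), rfl⟩
    · rw [Submodule.mem_comap, hL]
      convert Submodule.zero_mem _
      ext σ τ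
      show up Λ (κ i (D.α * σ * D.α⁻¹)) * up Λ (ψ₄ i (D.α * τ * D.α⁻¹)) -
        (4 : Λ) ^ r * (up Λ (κ i σ) * up Λ (ψ₄ i τ)) = 0
      rw [G.lat_frob hℓ (Or.inl rfl) (hκ i), G.lat_frob hℓ (Or.inr rfl) (h4 i)]
      simp only [map_mul, map_pow, map_neg, map_ofNat]
      have : (4 : Λ) ^ r = (-2) ^ r * (-2) ^ r := by
        rw [← mul_pow]
        norm_num
      rw [this]
      ring
  rw [Submodule.mem_comap, hL, hA, ← ha] at key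
  obtain ⟨b, hb, c, hc, e⟩ := Submodule.mem_sup.1 key
  refine ⟨b, hb, ?_⟩
  rw [← e, add_sub_cancel_left]
  exact hc

end Pool.Agent.P.MP_ee618e_ag.X
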