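import Mathlib

/-!
Definitions used in the statement: tensors and the family `Gen` generated by Tate classes of
codimension one and the correspondence given by one surface; cohomology in degrees one and two through characters and cocycles of Galois groups.
-/

namespace Pool.Agent.P.MP_ee618e_ag.X

section Tensors

variable {I Λ : Type} [Field Λ]

/-- elements of a tensor power (index set `J`) of the space of functions `I → Λ` -/
abbrev Ten (J I Λ : Type) : Type := (J → I) → Λ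

/-- the span of the pure tensors `⊗ u j` with `u j ∈ U j` -/
def tens {J : Type} [Fintype J] (U : J → Set (I → Λ)) : Submodule Λ (Ten J I Λ) :=
  Submodule.span Λ {t | ∃ u : J → I → Λ, (∀ j, u j ∈ U j) ∧ t = fun z => ∏ j, u j (z j)}

/-- the Frobenius `F` on tensors, induced by `φ` -/
def frob (φ : I → I) {J : Type} (t : Ten J I Λ) : Ten J I Λ := fun z => t (φ ∘ z)

/-- Tate classes of codimension `i` -/
def Tate (φ : I → I) (q : Λ) (i : ℕ) {J : Type} (t : Ten J I Λ) : Prop :=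
  ∃ m, 0 < m ∧ frob φ^[m] t = q ^ (i * m) • t

/-- tensor product -/
def tmul {J J' : Type} (t : Ten J I Λ) (t' : Ten J' I Λ) : Ten (J ⊕ J') I Λ :=
  fun z => t (z ∘ Sum.inl) * t' (z ∘ Sum.inr)

/-- The tensors obtained from the Tate classes of codimension one by sums, products,
permutations, contractions with Tate bilinear forms, and the action of the surface. -/
inductive Gen (φ : I → I) (q : Λ) (U : Fin 4 → Set (I → Λ))
    (Coh : Ten (Fin 2) I Λ → Ten (Fin 2) I Λ → Prop) : (J : Type) → Ten J I Λ → Prop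
  | zero (J : Type) : Gen φ q U Coh J 0
  | add {J : Type} {t t' : Ten J I Λ} :
      Gen φ q U Coh J t → Gen φ q U Coh J t' → Gen φ q U Coh J (t + t')
  | smul {J : Type} {t : Ten J I Λ} (c : Λ) : Gen φ q U Coh J t → Gen φ q U Coh J (c • t)
  | one : Gen φ q U Coh Empty 1
  | div {t : Ten (Fin 2) I Λ} :
      t ∈ tens (fun _ => ⋃ i, U i) → Tate φ q 1 t → Gen φ q U Coh (Fin 2) t
  | mul {J J' : Type} {t : Ten J I Λ} {t' : Ten J' I Λ} :
      Gen φ q U Coh J t → Gen φ q U Coh J' t' → Gen φ q U Coh (J ⊕ J') (tmul t t')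
  | perm {J J' : Type} {t : Ten J I Λ} (e : J ≃ J') :
      Gen φ q U Coh J t → Gen φ q U Coh J' fun z => t (z ∘ e)
  | contr {J : Type} {t : Ten (Fin 2 ⊕ J) I Λ} (L : Ten (Fin 2) I Λ →ₗ[Λ] Λ) (m : ℕ) : 0 < m →
      (∀ s ∈ tens (fun _ => ⋃ i, U i), L (frob φ^[m] s) = q ^ m * L s) →
      Gen φ q U Coh (Fin 2 ⊕ J) t → Gen φ q U Coh J fun z => L fun w => t (Sum.elim w z)
  | surf {a b c : Ten (Fin 2) I Λ} : a ∈ tens ![U 0, U 1] → b ∈ tens ![U 2, U 3] →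
      c ∈ tens (fun _ => ⋃ i, U i) → Coh a b → Tate φ q 2 (tmul b c) →
      Gen φ q U Coh _ (tmul a c) → Gen φ q U Coh _ (tmul b c)

end Tensors

section Galois

variable {Ω Λ : Type} [Field Ω] [NormedField Λ]

variable (Ω) in
/-- the algebraic closure of `𝔽₂` -/
def cst : Set Ω := {c | ∃ n, 0 < n ∧ c ^ 2 ^ n = c}

/-- automorphisms of `Ω` over the field generated by the constants and `S` -/
def Gal (S : Set Ω) : Set (Ω ≃+* Ω) := {σ | ∀ x ∈ cst Ω ∪ S, σ x = x}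

/-- uniform continuity on `Gal S` for the Krull topology -/
def Cont (S : Set Ω) (β : (Ω ≃+* Ω) → Λ) : Prop :=
  ∀ ε > 0, ∃ T : Finset Ω, (∀ t ∈ T, IsAlgebraic (Subfield.closure (cst Ω ∪ S)) t) ∧
    ∀ σ ∈ Gal S, ∀ τ ∈ Gal S, (∀ t ∈ T, σ t = τ t) → ‖β σ - β τ‖ < ε

/-- `H¹(C, Λ)` for the complete curve `C` with coordinates `S`: continuous characters of the
Galois group of the function field which are trivial on all inertia groups -/
structure H1 (S : Set Ω) (χ : (Ω ≃+* Ω) → Λ) : Prop where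
  cont : Cont S χ
  out : ∀ σ ∉ Gal S, χ σ = 0
  add : ∀ σ ∈ Gal S, ∀ τ ∈ Gal S, χ (σ * τ) = χ σ + χ τ
  unr : ∀ O : ValuationSubring Ω, cst Ω ⊆ O → ∀ σ ∈ Gal S,
    (∀ x ∈ O, σ x - x ∈ O.nonunits) → χ σ = 0

variable (Ω) in
/-- The generic point of the surface `Z ⊂ C₁ × C₁ × E × C₃` over `𝔽_q`, and a lift `α` of the
arithmetic Frobenius to the algebraic closure `Ω` of its function field. -/
structure Surf (q : ℕ) where
  (b d x₁ y₁ x₂ y₂ u v t m : Ω)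
  α : Ω ≃+* Ω
  hb : b ^ q = b
  hd : d ^ q = d
  d0 : d ≠ 0
  c₁ : y₁ ^ 2 + y₁ = x₁ ^ 3 + b * x₁ + d ^ 2 / x₁
  c₂ : y₂ ^ 2 + y₂ = x₂ ^ 3 + b * x₂ + d ^ 2 / x₂
  cE : v ^ 2 + v = u ^ 3
  c₃ : m ^ 2 + m = t ^ 3 + d / (t ^ 4 + t + b)
  z₁ : x₁ + x₂ = u + t ^ 2
  z₂ : x₁ * x₂ + d ^ 2 / (x₁ * x₂) = t ^ 4 + t + b
  z₃ : y₁ + y₂ = v + u * t + m + (x₁ * x₂ + d) / (t ^ 4 + t + b)
  gen : AlgebraicIndependent (Subfield.closure (cst Ω)) ![x₁, x₂]
  alg : ∀ z : Ω, IsAlgebraic (Subfield.closure (cst Ω ∪ {x₁, x₂})) z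
  frob : ∀ c ∈ cst Ω, α c = c ^ q
  fix : ∀ z ∈ ({x₁, y₁, x₂, y₂, u, v, t, m} : Set Ω), α z = z

namespace Surf

variable {q : ℕ} (D : Surf Ω q)

/-- coordinates of the four curves -/
def S : Fin 4 → Set Ω := ![{D.x₁, D.y₁}, {D.x₂, D.y₂}, {D.u, D.v}, {D.t, D.m}]

/-- eigenvectors of the geometric Frobenius in `H¹` of the curve number `i` -/
def Eig (i : Fin 4) (π : Λ) : Set ((Ω ≃+* Ω) → Λ) :=
  {χ | H1 (D.S i) χ ∧ ∀ σ, χ (D.α * σ * D.α⁻¹) = π * χ σ}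

/-- the geometric Frobenius on the index set -/
def φ (z : Fin 4 × (Ω ≃+* Ω)) : Fin 4 × (Ω ≃+* Ω) := (z.1, D.α * z.2 * D.α⁻¹)

/-- eigenvectors with eigenvalues in `ev i`, inside the direct sum of the four `H¹` -/
def U (ev : Fin 4 → Set Λ) (i : Fin 4) : Set (Fin 4 × (Ω ≃+* Ω) → Λ) :=
  {u | ∃ π ∈ ev i, ∃ χ ∈ D.Eig i π, u = fun z => if z.1 = i then χ z.2 else 0}

/-- `a ∈ H¹(C₁) ⊗ H¹(C₁)` and `b ∈ H¹(E) ⊗ H¹(C₃)` have the same cup product in `H²` of the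
function field of `Z` -/
def Coh (a b : Ten (Fin 2) (Fin 4 × (Ω ≃+* Ω)) Λ) : Prop :=
  ∃ β : (Ω ≃+* Ω) → Λ, Cont (⋃ i, D.S i) β ∧ ∀ σ ∈ Gal (⋃ i, D.S i), ∀ τ ∈ Gal (⋃ i, D.S i),
    a ![(0, σ), (1, τ)] - b ![(2, σ), (3, τ)] = β σ + β τ - β (σ * τ)

end Surf

/-- the eigenvalues on `S₁, S₁, E, S₂`; here `e ^ 2 = q` -/
def evs (π₁ π₂ e : Λ) : Fin 4 → Set Λ :=
  ![{π₁, e ^ 2 / π₁, π₂, e ^ 2 / π₂}, {π₁, e ^ 2 / π₁, π₂, e ^ 2 / π₂}, {e},
    {ρ | ∃ l ∈ ({π₁, e ^ 2 / π₁} : Set Λ), ∃ n ∈ ({π₂, e ^ 2 / π₂} : Set Λ), ρ = l * n / e}]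

end Galois

end Pool.Agent.P.MP_ee618e_ag.X
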