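import Pool.Agent.P.MP_ee618e_ag.X.O1

/-! O1b: classes, automorphisms, degrees. -/

namespace Pool.Agent.P.MP_ee618e_ag.X

open IsDedekindDomain Polynomial
open scoped Classical

variable {R : Type} [CommRing R] [IsDedekindDomain R] {P Q : HeightOneSpectrum R} {f g : R}
  {D D' : Dv R}

theorem cl_dv (f : R) : cl (dv f) = 0 := by
  exact (QuotientAddGroup.eq_zero_iff _).2 (AddSubgroup.subset_closure ⟨f, rfl⟩)

theorem cl_surj (x : Cl R) : ∃ D, cl D = x := by
  exact QuotientAddGroup.mk'_surjective _ x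

theorem o1b_dv_one : dv (1 : R) = 0 := (dv_eq_zero one_ne_zero).2 isUnit_one

theorem o1b_frac (h : cl D = 0) : ∃ a b : R, a ≠ 0 ∧ b ≠ 0 ∧ D = dv a - dv b := by
  have hD : D ∈ AddSubgroup.closure (Set.range (dv (R := R))) :=
    (QuotientAddGroup.eq_zero_iff _).1 h
  clear h
  induction hD using AddSubgroup.closure_induction with
  | mem x hx =>
    obtain ⟨a, rfl⟩ := hx
    by_cases ha : a = 0
    · exact ⟨1, 1, one_ne_zero, one_ne_zero, by rw [ha, dv_zero, sub_self]⟩
    · exact ⟨a, 1, ha, one_ne_zero, by rw [o1b_dv_one, sub_zero]⟩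
  | zero => exact ⟨1, 1, one_ne_zero, one_ne_zero, by rw [sub_self]⟩
  | add x y _ _ hx hy =>
    obtain ⟨a, b, ha, hb, rfl⟩ := hx
    obtain ⟨c, d, hc, hd, rfl⟩ := hy
    refine ⟨a * c, b * d, mul_ne_zero ha hc, mul_ne_zero hb hd, ?_⟩
    rw [dv_mul ha hc, dv_mul hb hd]
    abel
  | neg x _ hx =>
    obtain ⟨a, b, ha, hb, rfl⟩ := hx
    exact ⟨b, a, hb, ha, by abel⟩

theorem cl_eq_iff : cl D = cl D' ↔ ∃ a b : R, a ≠ 0 ∧ b ≠ 0 ∧ D + dv b = D' + dv a := by
  constructor
  · intro h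
    have h0 : cl (D - D') = 0 := by rw [map_sub, h, sub_self]
    obtain ⟨a, b, ha, hb, hab⟩ := o1b_frac h0
    refine ⟨a, b, ha, hb, ?_⟩
    rw [sub_eq_sub_iff_add_eq_add] at hab
    rw [hab, add_comm]
  · rintro ⟨a, b, -, -, hab⟩
    have := congrArg cl hab
    simpa [map_add, cl_dv] using this

theorem exists_dv (hD : 0 ≤ D) (h : cl D = 0) : ∃ a : R, a ≠ 0 ∧ dv a = D := by
  obtain ⟨a, b, ha, hb, rfl⟩ := o1b_frac h
  obtain ⟨c, rfl⟩ := (dv_le_iff hb ha).1 (sub_nonneg.1 hD)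
  have hc : c ≠ 0 := right_ne_zero_of_mul ha
  exact ⟨c, hc, by rw [dv_mul hb hc]; abel⟩

theorem exists_eff (x : Cl R) : ∃ D, 0 ≤ D ∧ cl D = x := by
  obtain ⟨D, rfl⟩ := cl_surj x
  by_cases hne : Nonempty (HeightOneSpectrum R)
  · obtain ⟨P⟩ := hne
    obtain ⟨a, -, ha, -⟩ := exists_mem_Id ((-D) ⊔ 0) le_sup_right P
    refine ⟨D + dv a, ?_, by rw [map_add, cl_dv, add_zero]⟩
    have h1 : -D ≤ dv a := le_sup_left.trans ha
    exact neg_le_iff_add_nonneg'.1 h1
  · refine ⟨D, ?_, rfl⟩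
    intro P
    exact absurd ⟨P⟩ hne

theorem exists_frac (h : cl D = 0) : ∃ a b : R, a ≠ 0 ∧ b ≠ 0 ∧ D = dv a - dv b := by
  exact o1b_frac h

theorem o1b_degree_nonneg (hD : 0 ≤ D) : 0 ≤ D.degree := by
  rw [Finsupp.degree_apply]
  exact Finset.sum_nonneg fun P _ => hD P

theorem o1b_degree_zero (hD : 0 ≤ D) (h : D.degree ≤ 0) : D = 0 := by
  have h0 : D.degree = 0 := le_antisymm h (o1b_degree_nonneg hD)
  rw [Finsupp.degree_apply, Finset.sum_eq_zero_iff_of_nonneg fun P _ => hD P] at h0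
  ext P
  by_contra hP
  exact hP (h0 P (Finsupp.mem_support_iff.2 hP))

theorem o1b_points (m : ℕ) : ∀ D : Dv R, 0 ≤ D → D.degree.toNat = m →
    ∃ (n : ℕ) (p : Fin n → HeightOneSpectrum R),
      (n : ℤ) = D.degree ∧ D = ∑ i, Finsupp.single (p i) 1 := by
  induction m with
  | zero =>
    intro D hD h
    have h0 : D = 0 := o1b_degree_zero hD (by omega)
    exact ⟨0, Fin.elim0, by simp [h0], by simp [h0]⟩
  | succ m ih =>
    intro D hD h
    have hne : D ≠ 0 := by
      rintro rfl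
      simp at h
    obtain ⟨P, hP⟩ : ∃ P, D P ≠ 0 := by
      by_contra hc
      push Not at hc
      exact hne (Finsupp.ext hc)
    have h1 : 0 ≤ D - Finsupp.single P 1 := by
      intro Q
      have hQ : (0 : ℤ) ≤ D Q := hD Q
      by_cases hPQ : P = Q
      · subst hPQ
        simp only [Finsupp.coe_sub, Pi.sub_apply, Finsupp.single_eq_same, Finsupp.coe_zero,
          Pi.zero_apply]
        omega
      · simpa [Finsupp.single_apply, hPQ] using hQ
    have h2 : (D - Finsupp.single P 1).degree = D.degree - 1 := by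
      rw [map_sub, Finsupp.degree_single]
    obtain ⟨n, q, hn, hq⟩ := ih _ h1 (by rw [h2]; omega)
    refine ⟨n + 1, Fin.cons P q, ?_, ?_⟩
    · rw [h2] at hn
      push_cast
      omega
    · rw [Fin.sum_univ_succ]
      simp only [Fin.cons_zero, Fin.cons_succ]
      rw [← hq]
      abel

theorem cl_ind {p : Cl R → Prop} (h0 : p 0) (h1 : ∀ P, p (cl (Finsupp.single P 1)))
    (hadd : ∀ x y, p x → p y → p (x + y)) (x : Cl R) : p x := by
  obtain ⟨D, hD, rfl⟩ := exists_eff x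
  obtain ⟨n, q, -, rfl⟩ := o1b_points _ D hD rfl
  rw [map_sum]
  exact Finset.sum_induction _ p hadd h0 fun i _ => h1 _

variable {e e' : R ≃+* R}

theorem mem_mp : e f ∈ (mp e P).asIdeal ↔ f ∈ P.asIdeal := by
  show e.symm (e f) ∈ P.asIdeal ↔ _
  rw [e.symm_apply_apply]

theorem mp_trans : mp (e.trans e') P = mp e' (mp e P) := by
  ext x
  exact Iff.rfl

theorem mp_refl : mp (RingEquiv.refl R) P = P := by
  ext x
  exact Iff.rfl

theorem ord_mp (f : R) : ord (mp e P) (e f) = ord P f := by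
  have h1 : (mp e P).asIdeal = P.asIdeal.map e := by
    ext x
    obtain ⟨y, rfl⟩ := e.surjective x
    rw [mem_mp, Ideal.apply_mem_of_equiv_iff]
  unfold ord
  refine multiplicity_eq_of_emultiplicity_eq (emultiplicity_eq_emultiplicity_iff.2 fun n => ?_)
  rw [Ideal.dvd_span_singleton, Ideal.dvd_span_singleton, h1, ← Ideal.map_pow,
    Ideal.apply_mem_of_equiv_iff]

theorem md_apply : md e D (mp e P) = D P := by
  simp [md]

theorem md_single (n : ℤ) : md e (Finsupp.single P n) = Finsupp.single (mp e P) n := by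
  simp [md]

theorem md_trans : md (e.trans e') D = md e' (md e D) := by
  ext P
  obtain ⟨Q, rfl⟩ := (mp (e.trans e')).surjective P
  rw [md_apply, mp_trans, md_apply, md_apply]

theorem md_refl : md (RingEquiv.refl R) D = D := by
  ext P
  conv_lhs => rw [← mp_refl (P := P)]
  rw [md_apply]

theorem md_dv (f : R) : md e (dv f) = dv (e f) := by
  by_cases hf : f = 0
  · rw [hf, map_zero e, dv_zero, map_zero]
  · ext P
    obtain ⟨Q, rfl⟩ := (mp e).surjective P
    rw [md_apply, dv_apply hf, dv_apply ((map_ne_zero_iff e e.injective).2 hf), ord_mp]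

theorem md_nonneg : 0 ≤ md e D ↔ 0 ≤ D := by
  constructor
  · intro h P
    have := h (mp e P)
    rwa [md_apply] at this
  · intro h P
    obtain ⟨Q, rfl⟩ := (mp e).surjective P
    rw [md_apply]
    exact h Q

theorem md_degree : (md e D).degree = D.degree := by
  simp only [md, Finsupp.domCongr_apply, Finsupp.equivMapDomain_eq_mapDomain]
  exact Finsupp.degree_mapDomain _ _

theorem o1b_cl_md_congr (h : cl D = cl D') : cl (md e D) = cl (md e D') := by
  obtain ⟨a, b, -, -, hab⟩ := cl_eq_iff.1 h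
  have := congrArg (fun E => cl (md e E)) hab
  simpa [map_add, md_dv, cl_dv] using this

theorem mc_cl : mc e (cl D) = cl (md e D) := by
  exact o1b_cl_md_congr (Quotient.out_eq' (cl D))

theorem mc_add (x y : Cl R) : mc e (x + y) = mc e x + mc e y := by
  obtain ⟨D, rfl⟩ := cl_surj x
  obtain ⟨D', rfl⟩ := cl_surj y
  rw [← map_add, mc_cl, mc_cl, mc_cl, map_add, map_add]

theorem Min.md (h : Min D) : Min (md e D) := by
  refine ⟨md_nonneg.2 h.1, fun E hE hc => ?_⟩
  obtain ⟨E', rfl⟩ := (X.md e).surjective E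
  rw [md_degree, md_degree]
  refine h.2 E' (md_nonneg.1 hE) ?_
  have := o1b_cl_md_congr (e := e.symm) hc
  rwa [← md_trans, ← md_trans, RingEquiv.self_trans_symm, md_refl, md_refl] at this

theorem exists_min (x : Cl R) : ∃ D, Min D ∧ cl D = x := by
  have hex : ∃ n : ℕ, ∃ D : Dv R, 0 ≤ D ∧ cl D = x ∧ D.degree = n := by
    obtain ⟨D, hD, hx⟩ := exists_eff x
    exact ⟨D.degree.toNat, D, hD, hx, (Int.toNat_of_nonneg (o1b_degree_nonneg hD)).symm⟩
  obtain ⟨D, hD, hx, hn⟩ := Nat.find_spec hex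
  refine ⟨D, ⟨hD, fun E hE hc => ?_⟩, hx⟩
  have h1 : Nat.find hex ≤ E.degree.toNat :=
    Nat.find_min' hex ⟨E, hE, hc.trans hx, (Int.toNat_of_nonneg (o1b_degree_nonneg hE)).symm⟩
  have h2 := o1b_degree_nonneg hE
  omega

theorem degree_eq_zero (hD : 0 ≤ D) (h : D.degree ≤ 0) : D = 0 := by
  exact o1b_degree_zero hD h

theorem eq_of_le_degree (h : D ≤ D') (h' : D'.degree ≤ D.degree) : D = D' := by
  have h1 : D' - D = 0 :=
    o1b_degree_zero (sub_nonneg.2 h) (by rw [map_sub]; omega)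
  exact (sub_eq_zero.1 h1).symm

/-- an effective divisor is a sum of points -/
theorem exists_points (hD : 0 ≤ D) : ∃ (n : ℕ) (p : Fin n → HeightOneSpectrum R),
    (n : ℤ) = D.degree ∧ D = ∑ i, Finsupp.single (p i) 1 := by
  exact o1b_points _ D hD rfl

end Pool.Agent.P.MP_ee618e_ag.X
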