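import Pool.Agent.P.MP_ee618e_ag.X.V3
import Pool.Agent.P.MP_ee618e_ag.X.O1b

/-! V4: valuation rings above a point of a Dedekind subring; ramification. -/

namespace Pool.Agent.P.MP_ee618e_ag.X

open IsDedekindDomain Polynomial
open scoped Classical

variable {Ω : Type} [Field Ω] {K : Subfield Ω} {R : Subalgebra K Ω} [IsDedekindDomain R]
  {P : HeightOneSpectrum R} {O : ValuationSubring Ω}

theorem mem_closure_alg {z : Ω} :
    z ∈ Subfield.closure (R : Set Ω) ↔ ∃ a ∈ R, ∃ b ∈ R, b ≠ 0 ∧ z = a / b := by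
  have hc : Subring.closure (R : Set Ω) = R.toSubring := Subring.closure_eq R.toSubring
  constructor
  · intro hz
    obtain ⟨a, ha, b, hb, rfl⟩ := Subfield.mem_closure_iff.1 hz
    rw [hc] at ha hb
    by_cases h : b = 0
    · exact ⟨0, R.zero_mem, 1, R.one_mem, one_ne_zero, by simp [h]⟩
    · exact ⟨a, ha, b, hb, h, rfl⟩
  · rintro ⟨a, ha, b, hb, -, rfl⟩
    exact div_mem (Subfield.subset_closure ha) (Subfield.subset_closure hb)

theorem v4_unit (hO : ∀ a : R, (a : Ω) ∈ O)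
    (hP : ∀ a : R, (a : Ω) ∈ O.nonunits ↔ a ∈ P.asIdeal) {s : R} (hs : s ∉ P.asIdeal) :
    O.valuation (s : Ω) = 1 := by
  refine le_antisymm ((O.valuation_le_one_iff _).2 (hO s)) (not_lt.1 fun h => hs ?_)
  exact (hP s).1 (O.mem_nonunits_iff.2 h)

theorem v4_lt (hP : ∀ a : R, (a : Ω) ∈ O.nonunits ↔ a ∈ P.asIdeal) {π : R} (h0 : π ≠ 0)
    (h1 : ord P π = 1) : 0 < O.valuation (π : Ω) ∧ O.valuation (π : Ω) < 1 := by
  refine ⟨(Valuation.pos_iff _).2 (by exact_mod_cast h0), O.mem_nonunits_iff.1 ((hP π).2 ?_)⟩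
  by_contra h
  rw [← ord_eq_zero h0, h1] at h
  exact one_ne_zero h

theorem v4_val (hO : ∀ a : R, (a : Ω) ∈ O)
    (hP : ∀ a : R, (a : Ω) ∈ O.nonunits ↔ a ∈ P.asIdeal) {π : R} (h0 : π ≠ 0)
    (h1 : ord P π = 1) {a : R} (ha : a ≠ 0) :
    O.valuation (a : Ω) = O.valuation (π : Ω) ^ ord P a := by
  obtain ⟨s, s', hs, hs', e⟩ := ord_eq_imp (P := P) ha (pow_ne_zero (ord P a) h0)
    (by rw [ord_pow h0, h1, mul_one])
  have := congrArg (fun x : R => O.valuation (x : Ω)) e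
  simpa [v4_unit hO hP hs, v4_unit hO hP hs'] using this

/-- `ord_le_iff` in both directions -/
theorem val_iff (hO : ∀ a : R, (a : Ω) ∈ O) (hP : ∀ a : R, (a : Ω) ∈ O.nonunits ↔ a ∈ P.asIdeal)
    {a b : R} (ha : a ≠ 0) (hb : b ≠ 0) :
    ((a : Ω) / b ∈ O ↔ ord P b ≤ ord P a) ∧ ((a : Ω) / b ∈ O.nonunits ↔ ord P b < ord P a) := by
  obtain ⟨π, h0, h1⟩ := exists_unif P
  obtain ⟨t0, t1⟩ := v4_lt hP h0 h1
  rw [← O.valuation_le_one_iff, O.mem_nonunits_iff, map_div₀, v4_val hO hP h0 h1 ha,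
    v4_val hO hP h0 h1 hb, div_le_one₀ (pow_pos t0 _), div_lt_one₀ (pow_pos t0 _)]
  exact ⟨pow_le_pow_iff_right_of_lt_one₀ t0 t1, pow_lt_pow_iff_right_of_lt_one₀ t0 t1⟩

/-- the centre of `O` -/
theorem exists_centre (hO : ∀ a : R, (a : Ω) ∈ O) :
    (∀ a : R, (a : Ω) ∈ O.nonunits → a = 0) ∨
      ∃ P : HeightOneSpectrum R, ∀ a : R, (a : Ω) ∈ O.nonunits ↔ a ∈ P.asIdeal := by
  let i : R →+* O := (R.val.toRingHom).codRestrict O.toSubring hO
  have hi : ∀ a : R, (a : Ω) ∈ O.nonunits ↔ a ∈ (IsLocalRing.maximalIdeal O).comap i := by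
    intro a
    rw [Ideal.mem_comap, ← O.coe_mem_nonunits_iff]
    rfl
  by_cases h : (IsLocalRing.maximalIdeal O).comap i = ⊥
  · left
    intro a ha
    rwa [hi, h, Ideal.mem_bot] at ha
  · exact Or.inr ⟨⟨_, Ideal.comap_isPrime _ _, h⟩, hi⟩

/-- terms with distinct values are bounded by the sum -/
theorem v4_sum {Γ : Type} [LinearOrderedCommGroupWithZero Γ] (v : Valuation Ω Γ) (s : Finset ℕ)
    (x : ℕ → Ω) (h : ∀ i ∈ s, ∀ j ∈ s, x i ≠ 0 → v (x i) = v (x j) → i = j) :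
    ∀ i ∈ s, v (x i) ≤ v (∑ i ∈ s, x i) := by
  intro i hi
  obtain ⟨j, hj, hm⟩ := s.exists_max_image (fun i => v (x i)) ⟨i, hi⟩
  by_cases h0 : x j = 0
  · have := hm i hi
    simp only [h0, map_zero] at this
    exact this.trans zero_le
  · rw [v.map_sum_eq_of_lt hj fun k hk => ?_]
    · exact hm i hi
    · rw [Finset.mem_sdiff, Finset.mem_singleton] at hk
      exact lt_of_le_of_ne (hm k hk.1) fun e => hk.2 (h j hj k hk.1 h0 e.symm).symm

/-- Let `ϖ ^ N = π` be a root of a uniformiser, `L = closure R`. The nonzero terms of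
`∑_{i < N} c i ϖ ^ i` (`c i ∈ L`) have distinct values (take `N`-th powers), so the minimal
polynomial of `ϖ` is `X ^ N - π`; `conj_root` gives `σ ϖ = ζ ϖ`; `σ` satisfies the hypothesis of
`pc_ine` for `S = R ∪ {ϖ}`. Finally `r / ϖ ^ ord P f` is a unit whose `N`-th power is in `L`;
`unit_root`. -/
theorem ram [IsAlgClosed Ω] (hR : Acl (R : Set Ω) = Set.univ) (hO : ∀ a : R, (a : Ω) ∈ O)
    (hP : ∀ a : R, (a : Ω) ∈ O.nonunits ↔ a ∈ P.asIdeal) {N : ℕ} {ζ : Ω}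
    (hζ : IsPrimitiveRoot ζ N) (hN : N ≠ 0) (hζK : ζ ∈ K) :
    ∃ h ∈ Fix (R : Set Ω), Ine O h ∧
      ∀ (f : R) (r : Ω), f ≠ 0 → r ^ N = f → h r = ζ ^ ord P f * r := by
  obtain ⟨π, h0, h1⟩ := exists_unif P
  obtain ⟨t0, t1⟩ := v4_lt hP h0 h1
  have hN0 : 0 < N := Nat.pos_of_ne_zero hN
  obtain ⟨ϖ, hϖ⟩ := IsAlgClosed.exists_pow_nat_eq (π : Ω) hN0
  set L := Subfield.closure (R : Set Ω) with hL
  set v := O.valuation with hv
  have hπ : v (π : Ω) = v ϖ ^ N := by rw [← map_pow, hϖ]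
  have s0 : 0 < v ϖ := by
    rw [pos_iff_ne_zero]
    intro h
    rw [hπ, h, zero_pow hN] at t0
    exact lt_irrefl _ t0
  have s1 : v ϖ < 1 := by
    by_contra h
    rw [hπ] at t1
    exact absurd (one_le_pow₀ (not_lt.1 h)) (not_le.2 t1)
  have hϖ0 : ϖ ≠ 0 := (Valuation.pos_iff _).1 s0
  have hval : ∀ c ∈ L, c ≠ 0 → ∀ i : ℕ, ∃ n : ℤ, v (c * ϖ ^ i) = v ϖ ^ (N * n + i) := by
    intro c hc hc0 i
    obtain ⟨a, ha, b, hb, hb0, rfl⟩ := mem_closure_alg.1 hc
    have ha0 : a ≠ 0 := fun h => hc0 (by simp [h])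
    have e1 := v4_val hO hP h0 h1 (a := ⟨a, ha⟩) (fun h => ha0 (congrArg Subtype.val h))
    have e2 := v4_val hO hP h0 h1 (a := ⟨b, hb⟩) (fun h => hb0 (congrArg Subtype.val h))
    refine ⟨(ord P ⟨a, ha⟩ : ℤ) - ord P ⟨b, hb⟩, ?_⟩
    rw [map_mul, map_div₀, map_pow, e1, e2, hπ, mul_sub, zpow_add₀ s0.ne', zpow_sub₀ s0.ne',
      ← pow_mul, ← pow_mul]
    norm_cast
  have hinj : Function.Injective fun n : ℤ => v ϖ ^ n := zpow_right_injective₀ s0 s1.ne
  have hsum : ∀ c : ℕ → Ω, (∀ i, c i ∈ L) → ∀ i ∈ Finset.range N,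
      v (c i * ϖ ^ i) ≤ v (∑ i ∈ Finset.range N, c i * ϖ ^ i) := by
    intro c hc
    refine v4_sum v _ (fun i => c i * ϖ ^ i) fun i hi j hj hi0 e => ?_
    have hj0 : c j * ϖ ^ j ≠ 0 := fun h => hi0 (by
      simp only [h, map_zero] at e
      exact (Valuation.zero_iff _).1 e)
    obtain ⟨n, hn⟩ := hval _ (hc i) (left_ne_zero_of_mul hi0) i
    obtain ⟨m, hm⟩ := hval _ (hc j) (left_ne_zero_of_mul hj0) j
    have e' : (N : ℤ) * n + i = N * m + j := hinj (by simp only [← hn, ← hm]; exact e)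
    rw [Finset.mem_range] at hi hj
    have e2 := congrArg (· % (N : ℤ)) e'
    simp only [Int.mul_add_emod_self_left] at e2
    rw [Int.emod_eq_of_lt (by omega) (by omega), Int.emod_eq_of_lt (by omega) (by omega)] at e2
    exact_mod_cast e2
  have hev : ∀ p : Polynomial L, p.natDegree < N →
      aeval ϖ p = ∑ i ∈ Finset.range N, (p.coeff i : Ω) * ϖ ^ i := fun p hp => by
    rw [aeval_eq_sum_range' hp]
    rfl
  set π' : L := ⟨π, Subfield.subset_closure π.2⟩ with hπ'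
  have hq : (Polynomial.X ^ N - C π' : Polynomial L).Monic := monic_X_pow_sub_C _ hN
  have hqv : ∀ y : Ω, y ^ N = π → aeval y (Polynomial.X ^ N - C π' : Polynomial L) = 0 :=
    fun y hy => by
      rw [map_sub, map_pow, aeval_X, aeval_C, hy]
      exact sub_self _
  have hmin : (Polynomial.X ^ N - C π' : Polynomial L) = minpoly L ϖ := by
    refine minpoly.unique L ϖ hq (hqv ϖ hϖ) fun q hqm hq0 => ?_
    rw [degree_X_pow_sub_C hN0, degree_eq_natDegree hqm.ne_zero]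
    by_contra h
    have h' : q.natDegree < N := by exact_mod_cast not_le.1 h
    have := hsum (fun i => (q.coeff i : Ω)) (fun i => (q.coeff i).2) _ (Finset.mem_range.2 h')
    rw [← hev q h', hq0, map_zero, hqm.coeff_natDegree] at this
    simp [hϖ0] at this
  have hζN : ζ ^ N = 1 := hζ.pow_eq_one
  have hζ0 : ζ ≠ 0 := hζ.ne_zero hN
  have hKR : ∀ x ∈ K, x ∈ R := fun x hx => R.algebraMap_mem ⟨x, hx⟩
  have hKO : (K : Set Ω) ⊆ O := fun x hx => hO ⟨x, hKR x hx⟩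
  obtain ⟨σ, hσ, hσϖ⟩ := conj_root (S := (R : Set Ω)) (x := ϖ) (y := ζ * ϖ)
    (by rw [hR]; trivial) (by rw [← hmin]; exact hqv _ (by rw [mul_pow, hζN, one_mul, hϖ]))
  have hσL : ∀ x ∈ L, σ x = x := by
    rw [← fix_closure] at hσ
    exact hσ
  set S : Set Ω := (R : Set Ω) ∪ {ϖ} with hS
  have hRS : ∀ x ∈ R, x ∈ Subfield.closure S := fun x hx => Subfield.subset_closure (Or.inl hx)
  have hϖS : ϖ ∈ Subfield.closure S := Subfield.subset_closure (Or.inr rfl)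
  have hst : ∀ ρ : Au Ω, (∀ x ∈ R, ρ x = x) → ρ ϖ ∈ Subfield.closure S →
      ∀ x ∈ Subfield.closure S, ρ x ∈ Subfield.closure S := by
    intro ρ a1 a2 x hx
    refine (Subfield.closure_le (t := (Subfield.closure S).comap (ρ : Ω →+* Ω))).2 ?_ hx
    rintro y (hy | rfl)
    · show ρ y ∈ Subfield.closure S
      rw [a1 y hy]
      exact hRS y hy
    · exact a2
  have hσS : σ ∈ St (Subfield.closure S : Set Ω) := by
    intro x
    refine ⟨fun hx => ?_, hst σ hσ (by rw [hσϖ]; exact mul_mem (hRS _ (hKR _ hζK)) hϖS) x⟩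
    have e : σ.symm ϖ = ζ⁻¹ * ϖ := by
      rw [σ.symm_apply_eq, map_mul, map_inv₀, hσ ζ (hKR _ hζK), hσϖ, inv_mul_cancel_left₀ hζ0]
    have := hst σ.symm ((Fix (R : Set Ω)).inv_mem hσ)
      (by rw [e]; exact mul_mem (inv_mem (hRS _ (hKR _ hζK))) hϖS) _ hx
    rwa [σ.symm_apply_apply] at this
  have hrep : ∀ x ∈ Subfield.closure S, ∃ c : ℕ → Ω, (∀ i, c i ∈ L) ∧
      x = ∑ i ∈ Finset.range N, c i * ϖ ^ i := by
    intro x hx
    have hint : IsIntegral L ϖ := ⟨_, hq, hqv ϖ hϖ⟩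
    have a1 : x ∈ IntermediateField.adjoin L {ϖ} := by
      refine (Subfield.closure_le (t := (IntermediateField.adjoin L {ϖ}).toSubfield)).2 ?_ hx
      rintro y (hy | rfl)
      · exact (IntermediateField.adjoin L {ϖ}).algebraMap_mem ⟨y, Subfield.subset_closure hy⟩
      · exact IntermediateField.mem_adjoin_simple_self L _
    have a2 : x ∈ Algebra.adjoin L {ϖ} := by
      rw [← IntermediateField.adjoin_simple_toSubalgebra_of_isAlgebraic hint.isAlgebraic]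
      exact a1
    rw [Algebra.adjoin_singleton_eq_range_aeval] at a2
    obtain ⟨p, rfl⟩ := a2
    have a3 : (p %ₘ (Polynomial.X ^ N - C π')).natDegree < N := by
      have := natDegree_modByMonic_lt p hq (by
        intro h
        have := congrArg natDegree h
        rw [natDegree_X_pow_sub_C, natDegree_one] at this
        exact hN this)
      rwa [natDegree_X_pow_sub_C] at this
    refine ⟨fun i => ((p %ₘ (Polynomial.X ^ N - C π')).coeff i : Ω), fun i => Subtype.prop _, ?_⟩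
    rw [← hev _ a3, aeval_modByMonic_eq_self_of_root (hqv ϖ hϖ)]
    rfl
  obtain ⟨τ, hτ, hi⟩ := pc_ine (S := S)
    (Set.eq_univ_of_univ_subset (hR ▸ acl_mono Set.subset_union_left)) O hσS (by
      intro x hx hxO
      obtain ⟨c, hc, rfl⟩ := hrep x hx
      rw [map_sum, ← Finset.sum_sub_distrib, O.mem_nonunits_iff]
      refine v.map_sum_lt one_ne_zero fun i hi => ?_
      have e : σ (c i * ϖ ^ i) - c i * ϖ ^ i = (ζ ^ i - 1) * (c i * ϖ ^ i) := by
        rw [map_mul, map_pow, hσL _ (hc i), hσϖ]; ring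
      rw [e]
      rcases Nat.eq_zero_or_pos i with rfl | hi0
      · simp
      have b1 : v (ζ ^ i - 1) ≤ 1 :=
        (O.valuation_le_one_iff _).2 (hKO (K.sub_mem (K.pow_mem hζK i) K.one_mem))
      have b2 : v (c i * ϖ ^ i) ≤ 1 := (hsum c hc i hi).trans ((O.valuation_le_one_iff _).2 hxO)
      have b3 : v (c i * ϖ ^ i) ≠ 1 := by
        intro h
        have hc0 : c i ≠ 0 := fun h0 => by simp [h0] at h
        obtain ⟨n, hn⟩ := hval _ (hc i) hc0 i
        have e' : (N : ℤ) * n + i = 0 := hinj (by simp only [← hn, h, zpow_zero])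
        rw [Finset.mem_range] at hi
        have e2 := congrArg (· % (N : ℤ)) e'
        simp only [Int.mul_add_emod_self_left, Int.zero_emod] at e2
        rw [Int.emod_eq_of_lt (by omega) (by omega)] at e2
        omega
      rw [map_mul]
      exact mul_lt_one_of_nonneg_of_lt_one_right b1 zero_le (lt_of_le_of_ne b2 b3))
  have hfix : σ * τ ∈ Fix (R : Set Ω) :=
    (Fix (R : Set Ω)).mul_mem hσ (fix_anti Set.subset_union_left hτ)
  have hhϖ : (σ * τ) ϖ = ζ * ϖ := by rw [au_mul, hτ ϖ (Or.inr rfl), hσϖ]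
  refine ⟨σ * τ, hfix, hi, fun f r hf hr => ?_⟩
  set u := r / ϖ ^ ord P f with hu
  have huN : u ^ N = (f : Ω) / ((π ^ ord P f : R) : Ω) := by
    rw [hu, div_pow, hr, ← pow_mul, mul_comm, pow_mul, hϖ]
    simp
  have hv' := val_iff hO hP hf (pow_ne_zero (ord P f) h0)
  rw [ord_pow h0, h1, mul_one, ← huN] at hv'
  obtain ⟨u1, u2⟩ := unit_of_pow hN (hv'.1.2 le_rfl) fun h => lt_irrefl _ (hv'.2.1 h)
  have hu0 : u ≠ 0 := fun h => u2 (h ▸ O.nonunits.zero_mem)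
  have hη : ((σ * τ) u / u) ^ N = 1 := by
    rw [div_pow, ← map_pow, huN, map_div₀, hfix _ f.2, hfix _ (π ^ ord P f).2, ← huN,
      div_self (pow_ne_zero _ hu0)]
  have : NeZero N := ⟨hN⟩
  obtain ⟨i, -, hi'⟩ := hζ.eq_pow_of_pow_eq_one hη
  have e1 := unit_root (σ := σ * τ) hKO (K.pow_mem hζK i) u1 u2 (hi u u1)
    (by rw [hi', div_mul_cancel₀ _ hu0])
  rw [hi', div_eq_one_iff_eq hu0, hu, map_div₀, map_pow, hhϖ, mul_pow,
    div_eq_div_iff (mul_ne_zero (pow_ne_zero _ hζ0) (pow_ne_zero _ hϖ0)) (pow_ne_zero _ hϖ0)] at e1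
  exact mul_right_cancel₀ (pow_ne_zero (ord P f) hϖ0) (by rw [e1]; ring)

end Pool.Agent.P.MP_ee618e_ag.X
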