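import Pool.Agent.P.MP_ee618e_ag.X.O6
import Pool.Agent.P.MP_ee618e_ag.X.V4
import Pool.Agent.P.MP_ee618e_ag.X.G4

/-! F1: groups attached to a fibred curve and their action on divisors. -/

namespace Pool.Agent.P.MP_ee618e_ag.X

open IsDedekindDomain Polynomial
open scoped Classical

variable {Ω : Type} [Field Ω] (C : Fib Ω) {S : Set Ω} {σ τ : Au Ω}

theorem f1_acl {B : Type} [CommRing B] [Algebra B Ω] (hi : Function.Injective (algebraMap B Ω))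
    (hB : ∀ b, algebraMap B Ω b ∈ Acl S) {y : Ω} (h : IsAlgebraic B y) : y ∈ Acl S := by
  obtain ⟨p, hp, hy⟩ := h
  refine mem_acl_of_root (p.map (algebraMap B Ω)) ((Polynomial.map_ne_zero_iff hi).2 hp)
    (fun i => ?_) ?_
  · rw [coeff_map]
    exact hB _
  · rwa [eval_map_algebraMap]

theorem f1_td (K : Subfield Ω) {n : ℕ} (x : Fin n → Ω) {A : Set Ω}
    (h : A ⊆ Acl (K ∪ Set.range x)) : TD K A n := by
  intro y hy hi
  have h1 := (ft2_rk K y x hi (by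
    rintro _ ⟨i, rfl⟩
    exact h (hy i))).trans (Matroid.eRk_le_encard _ _)
  have h2 : (Set.range x).encard ≤ n := by
    rw [← Set.image_univ]
    exact (Set.encard_image_le _ _).trans (by simp)
  have h3 := h1.trans h2
  rw [Fintype.card_fin] at h3
  exact absurd (by exact_mod_cast h3 : n + 1 ≤ n) (by omega)

namespace Fib

theorem R0_le {x : Ω} (hx : x ∈ C.R0) : x ∈ C.R := by
  rw [C.R_eq]
  exact Algebra.subset_adjoin hx

theorem k_le {x : Ω} (hx : x ∈ C.k) : x ∈ C.R0 := by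
  exact C.R0.algebraMap_mem ⟨x, hx⟩

theorem A_le {x : Ω} (hx : x ∈ C.A) : x ∈ C.R := by
  exact C.R.algebraMap_mem ⟨x, hx⟩

theorem f1_ind (K : Subring Ω) (h0 : ∀ x ∈ C.R0, x ∈ K) (hA : ∀ x ∈ C.A, x ∈ K) {x : Ω}
    (hx : x ∈ C.R) : x ∈ K := by
  rw [C.R_eq] at hx
  induction hx using Algebra.adjoin_induction with
  | mem y hy => exact h0 y hy
  | algebraMap a => exact hA _ a.2
  | add a b _ _ ha hb => exact K.add_mem ha hb
  | mul a b _ _ ha hb => exact K.mul_mem ha hb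

theorem closure_R :
    Subfield.closure (C.R : Set Ω) = Subfield.closure ((C.R0 : Set Ω) ∪ C.A) := by
  refine le_antisymm (Subfield.closure_le.2 fun x hx => ?_) (Subfield.closure_mono ?_)
  · exact C.f1_ind (Subfield.closure ((C.R0 : Set Ω) ∪ C.A)).toSubring
      (fun y hy => Subfield.subset_closure (Or.inl hy))
      (fun y hy => Subfield.subset_closure (Or.inr hy)) hx
  · rintro x (hx | hx)
    · exact C.R0_le hx
    · exact C.A_le hx

theorem fix_R : Fix (C.R : Set Ω) = Fix (C.R0 : Set Ω) ⊓ Fix (C.A : Set Ω) := by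
  rw [← fix_closure, closure_R, fix_closure, fix_union]

theorem fix_R_le : Fix (C.R : Set Ω) ≤ C.G0 := by
  rw [fix_R]
  exact inf_le_inf_left _ (fix_le_st _)

theorem G0_le : C.G0 ≤ C.Nm := by
  exact inf_le_inf_right _ (fix_le_st _)

theorem Nm_le : C.Nm ≤ St (C.R : Set Ω) := by
  have key : ∀ σ ∈ C.Nm, ∀ x ∈ C.R, σ x ∈ C.R := fun σ hσ x hx =>
    C.f1_ind (C.R.toSubring.comap (σ : Ω →+* Ω)) (fun y hy => C.R0_le ((hσ.1 y).2 hy))
      (fun y hy => C.A_le ((hσ.2 y).2 hy)) hx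
  intro σ hσ x
  refine ⟨fun hx => ?_, key σ hσ x⟩
  have := key σ⁻¹ (C.Nm.inv_mem hσ) _ hx
  rwa [au_inv, σ.symm_apply_apply] at this

theorem fix_R0_le : Fix (C.R0 : Set Ω) ≤ Fix (C.k : Set Ω) := by
  exact fix_anti fun x hx => C.k_le hx

theorem Nm_conj (hσ : σ ∈ C.Nm) (hτ : τ ∈ Fix (C.R : Set Ω)) :
    σ⁻¹ * τ * σ ∈ Fix (C.R : Set Ω) := by
  intro x hx
  rw [au_mul, au_mul, hτ _ ((C.Nm_le hσ x).2 hx), au_inv, σ.symm_apply_apply]

theorem Nm_conj0 (hσ : σ ∈ C.Nm) (hτ : τ ∈ Fix (C.R0 : Set Ω)) :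
    σ⁻¹ * τ * σ ∈ Fix (C.R0 : Set Ω) := by
  intro x hx
  rw [au_mul, au_mul, hτ _ ((hσ.1 x).2 hx), au_inv, σ.symm_apply_apply]

theorem fo_R : FO (Fix (C.R : Set Ω)) := by
  exact fo_fix C.alg

/-- `OP.dep` gives `R ⊆ Acl (A ∪ {x})` for one `x`; `td_of_acl` -/
theorem td1 : TD C.A Set.univ 1 := by
  have hA : ∀ (S : Set Ω) (a : C.A), algebraMap C.A Ω a ∈ Acl ((C.A : Set Ω) ∪ S) :=
    fun S a => subset_acl _ (Or.inl a.2)
  suffices h : ∃ x : Fin 1 → Ω, (C.R : Set Ω) ⊆ Acl ((C.A : Set Ω) ∪ Set.range x) by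
    obtain ⟨x, hx⟩ := h
    exact f1_td C.A x (C.alg ▸ acl_subset hx)
  by_cases h : ∀ x ∈ C.R, IsAlgebraic C.A x
  · exact ⟨0, fun y hy => f1_acl Subtype.val_injective (hA _) (h y hy)⟩
  push Not at h
  obtain ⟨x, hx, ht⟩ := h
  refine ⟨fun _ => x, fun y hy => ?_⟩
  have h1 : AlgebraicIndependent C.A fun _ : Fin 1 => x :=
    algebraicIndependent_unique_type_iff.2 ht
  obtain ⟨K, hK⟩ := exists_aclF ((C.A : Set Ω) ∪ Set.range fun _ : Fin 1 => x)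
  refine f1_acl (B := Algebra.adjoin C.A (Set.range fun _ : Fin 1 => x)) Subtype.val_injective
    (fun b => ?_) ?_
  · obtain ⟨b, hb⟩ := b
    show b ∈ Acl _
    rw [← hK]
    induction hb using Algebra.adjoin_induction with
    | mem z hz => exact hK ▸ subset_acl _ (Or.inr hz)
    | algebraMap a => exact hK ▸ hA _ a
    | add a b _ _ ha hb => exact K.add_mem ha hb
    | mul a b _ _ ha hb => exact K.mul_mem ha hb
  · by_contra hn
    have h2 := ((h1.option_iff_transcendental y).2 hn).comp _ (finSuccEquiv 1).injective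
    refine C.op.dep ![⟨y, hy⟩, ⟨x, hx⟩] (AlgebraicIndependent.of_comp C.R.val ?_)
    convert h2 using 1
    funext i
    fin_cases i <;> rfl

variable {C}

theorem Base.acl (h : C.Base S) : Acl S = C.A := by
  exact Set.Subset.antisymm ((acl_mono h.SA).trans (acl_eq C.A).subset) h.alg

theorem Base.fix_le (h : C.Base S) : Fix S ≤ St (C.A : Set Ω) := by
  intro σ hσ
  rw [← h.acl]
  exact st_acl (fix_le_st S hσ)

theorem GG_eq (C : Fib Ω) (S : Set Ω) : C.GG S = Fix ((C.R0 : Set Ω) ∪ S) := by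
  exact (fix_union _ _).symm

theorem Base.acl_GG (h : C.Base S) : Acl ((C.R0 : Set Ω) ∪ S) = Set.univ := by
  obtain ⟨K, hK⟩ := exists_aclF ((C.R0 : Set Ω) ∪ S)
  refine Set.eq_univ_of_univ_subset (C.alg ▸ acl_subset fun x hx => ?_)
  rw [← hK]
  refine C.f1_ind K.toSubring (fun y hy => ?_) (fun y hy => ?_) hx
  · exact (hK ▸ subset_acl _ (Or.inl hy) : y ∈ (K : Set Ω))
  · exact (hK ▸ acl_mono Set.subset_union_right (h.alg hy) : y ∈ (K : Set Ω))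

theorem Base.GG_le (h : C.Base S) : C.GG S ≤ C.G0 := by
  exact inf_le_inf_left _ h.fix_le

theorem Base.le_GG (h : C.Base S) : Fix (C.R : Set Ω) ≤ C.GG S := by
  rw [fix_R]
  exact inf_le_inf_left _ (fix_anti h.SA)

theorem Base.fo (h : C.Base S) : FO (C.GG S) := by
  rw [GG_eq]
  exact fo_fix h.acl_GG

theorem ad_apply (hσ : σ ∈ C.Nm) (D : Dv C.R) (P : HeightOneSpectrum C.R) :
    C.ad σ D (C.ap σ P) = D P := by
  rw [ad, ap, dif_pos (C.Nm_le hσ), dif_pos (C.Nm_le hσ)]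
  exact md_apply

theorem mem_ap (hσ : σ ∈ C.Nm) {f g : C.R} (h : (g : Ω) = σ f) (P : HeightOneSpectrum C.R) :
    g ∈ (C.ap σ P).asIdeal ↔ f ∈ P.asIdeal := by
  obtain rfl : g = C.rs σ (C.Nm_le hσ) f := Subtype.ext h
  rw [ap, dif_pos (C.Nm_le hσ)]
  exact mem_mp

theorem ap_mul (hσ : σ ∈ C.Nm) (hτ : τ ∈ C.Nm) (P : HeightOneSpectrum C.R) :
    C.ap (σ * τ) P = C.ap σ (C.ap τ P) := by
  simp only [ap, dif_pos (C.Nm_le hσ), dif_pos (C.Nm_le hτ),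
    dif_pos (C.Nm_le (C.Nm.mul_mem hσ hτ))]
  rw [← mp_trans]
  rfl

theorem f1_rs (hσ : σ ∈ Fix (C.R : Set Ω)) : C.rs σ (fix_le_st _ hσ) = RingEquiv.refl _ :=
  RingEquiv.ext fun f => Subtype.ext (hσ f f.2)

theorem ap_fix (hσ : σ ∈ Fix (C.R : Set Ω)) (P : HeightOneSpectrum C.R) : C.ap σ P = P := by
  rw [ap, dif_pos (fix_le_st _ hσ), f1_rs hσ]
  exact mp_refl

theorem ad_mul (hσ : σ ∈ C.Nm) (hτ : τ ∈ C.Nm) (D : Dv C.R) :
    C.ad (σ * τ) D = C.ad σ (C.ad τ D) := by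
  simp only [ad, dif_pos (C.Nm_le hσ), dif_pos (C.Nm_le hτ),
    dif_pos (C.Nm_le (C.Nm.mul_mem hσ hτ))]
  rw [← md_trans]
  rfl

theorem ad_fix (hσ : σ ∈ Fix (C.R : Set Ω)) (D : Dv C.R) : C.ad σ D = D := by
  rw [ad, dif_pos (fix_le_st _ hσ), f1_rs hσ]
  exact md_refl

theorem ad_add (σ : Au Ω) (D D' : Dv C.R) : C.ad σ (D + D') = C.ad σ D + C.ad σ D' := by
  simp only [ad]
  split_ifs
  · exact map_add _ _ _
  · rfl

theorem ad_sub (σ : Au Ω) (D D' : Dv C.R) : C.ad σ (D - D') = C.ad σ D - C.ad σ D' := by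
  simp only [ad]
  split_ifs
  · exact map_sub _ _ _
  · rfl

theorem ad_zsmul (σ : Au Ω) (n : ℤ) (D : Dv C.R) : C.ad σ (n • D) = n • C.ad σ D := by
  simp only [ad]
  split_ifs
  · exact map_zsmul _ _ _
  · rfl

theorem ad_single (σ : Au Ω) (P : HeightOneSpectrum C.R) (n : ℤ) :
    C.ad σ (Finsupp.single P n) = Finsupp.single (C.ap σ P) n := by
  simp only [ad, ap]
  split_ifs
  · exact md_single n
  · rfl

theorem ad_dv (hσ : σ ∈ C.Nm) {f g : C.R} (h : (g : Ω) = σ f) : C.ad σ (dv f) = dv g := by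
  obtain rfl : g = C.rs σ (C.Nm_le hσ) f := Subtype.ext h
  rw [ad, dif_pos (C.Nm_le hσ)]
  exact md_dv f

theorem ad_min {D : Dv C.R} (h : Min D) (σ : Au Ω) : Min (C.ad σ D) := by
  simp only [ad]
  split_ifs
  · exact h.md
  · exact h

theorem ac_cl (σ : Au Ω) (D : Dv C.R) : C.ac σ (cl D) = cl (C.ad σ D) := by
  simp only [ac, ad]
  split_ifs
  · exact mc_cl
  · rfl

theorem ac_add (σ : Au Ω) (x y : Cl C.R) : C.ac σ (x + y) = C.ac σ x + C.ac σ y := by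
  simp only [ac]
  split_ifs
  · exact mc_add x y
  · rfl

theorem ac_sub (σ : Au Ω) (x y : Cl C.R) : C.ac σ (x - y) = C.ac σ x - C.ac σ y := by
  obtain ⟨D, rfl⟩ := cl_surj x
  obtain ⟨D', rfl⟩ := cl_surj y
  rw [← map_sub, ac_cl, ac_cl, ac_cl, ad_sub, map_sub]

theorem ac_nsmul (σ : Au Ω) (n : ℕ) (x : Cl C.R) : C.ac σ (n • x) = n • C.ac σ x := by
  obtain ⟨D, rfl⟩ := cl_surj x
  rw [← natCast_zsmul, ← natCast_zsmul, ← map_zsmul, ac_cl, ac_cl, ad_zsmul, map_zsmul]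

theorem ac_mul (hσ : σ ∈ C.Nm) (hτ : τ ∈ C.Nm) (x : Cl C.R) :
    C.ac (σ * τ) x = C.ac σ (C.ac τ x) := by
  obtain ⟨D, rfl⟩ := cl_surj x
  rw [ac_cl, ac_cl, ac_cl, ad_mul hσ hτ]

theorem ac_fix (hσ : σ ∈ Fix (C.R : Set Ω)) (x : Cl C.R) : C.ac σ x = x := by
  obtain ⟨D, rfl⟩ := cl_surj x
  rw [ac_cl, ad_fix hσ]

theorem f1_sm_ap (P : HeightOneSpectrum C.R) : ∃ T : Finset Ω, ↑T ⊆ (C.R0 : Set Ω) ∪ C.A ∧
    ∀ σ ∈ C.Nm, ∀ τ ∈ C.Nm, Ag T σ τ → C.ap σ P = C.ap τ P := by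
  obtain ⟨s, hs⟩ := IsNoetherian.noetherian P.asIdeal
  choose T hT h using fun f : C.R => exists_fin_of_closure (S := (C.R0 : Set Ω) ∪ C.A)
    (x := (f : Ω)) (C.closure_R ▸ Subfield.subset_closure f.2)
  have key : ∀ σ ∈ C.Nm, ∀ τ ∈ C.Nm, Ag (s.biUnion T) σ τ →
      (C.ap σ P).asIdeal ≤ (C.ap τ P).asIdeal := by
    intro σ hσ τ hτ a g hg
    obtain ⟨f, rfl⟩ := (C.rs σ (C.Nm_le hσ)).surjective g
    have h1 : P.asIdeal ≤ (C.ap τ P).asIdeal.comap (C.rs σ (C.Nm_le hσ)) := by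
      rw [← hs]
      refine Submodule.span_le.2 fun x hx => ?_
      refine (mem_ap hτ (f := x) (h x σ τ fun t ht => a t ?_) P).2 ?_
      · exact Finset.mem_biUnion.2 ⟨x, hx, ht⟩
      · rw [← hs]
        exact Submodule.subset_span hx
    exact h1 ((mem_ap hσ rfl P).1 hg)
  refine ⟨s.biUnion T, fun t ht => ?_, fun σ hσ τ hτ a => HeightOneSpectrum.ext
    (le_antisymm (key σ hσ τ hτ a) (key τ hτ σ hσ fun t ht => (a t ht).symm))⟩
  obtain ⟨f, -, hf⟩ := Finset.mem_biUnion.1 ht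
  exact hT f hf

/-- elements of `R` are polynomials in finitely many elements of `R0 ∪ A`, points are finitely
generated -/
theorem sm_ad (D : Dv C.R) : ∃ T : Finset Ω, ↑T ⊆ (C.R0 : Set Ω) ∪ C.A ∧
    ∀ σ ∈ C.Nm, ∀ τ ∈ C.Nm, Ag T σ τ → C.ad σ D = C.ad τ D := by
  induction D using Finsupp.induction_linear with
  | zero =>
    refine ⟨∅, by simp, fun σ _ τ _ _ => ?_⟩
    have h : ∀ ρ, C.ad ρ 0 = 0 := fun ρ => by simpa using ad_sub (C := C) ρ 0 0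
    rw [h, h]
  | add D D' h h' =>
    obtain ⟨T, hT, h⟩ := h
    obtain ⟨T', hT', h'⟩ := h'
    refine ⟨T ∪ T', by rw [Finset.coe_union]; exact Set.union_subset hT hT',
      fun σ hσ τ hτ a => ?_⟩
    rw [ad_add, ad_add, h σ hσ τ hτ fun t ht => a t (Finset.mem_union_left _ ht),
      h' σ hσ τ hτ fun t ht => a t (Finset.mem_union_right _ ht)]
  | single P n =>
    obtain ⟨T, hT, h⟩ := f1_sm_ap P
    exact ⟨T, hT, fun σ hσ τ hτ a => by rw [ad_single, ad_single, h σ hσ τ hτ a]⟩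

theorem sm_ac (x : Cl C.R) : ∃ T : Finset Ω, ↑T ⊆ (C.R0 : Set Ω) ∪ C.A ∧
    ∀ σ ∈ C.Nm, ∀ τ ∈ C.Nm, Ag T σ τ → C.ac σ x = C.ac τ x := by
  obtain ⟨D, rfl⟩ := cl_surj x
  obtain ⟨T, hT, h⟩ := sm_ad D
  exact ⟨T, hT, fun σ hσ τ hτ a => by rw [ac_cl, ac_cl, h σ hσ τ hτ a]⟩

end Fib

end Pool.Agent.P.MP_ee618e_ag.X
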