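import Pool.Agent.P.MP_ee618e_ag.X.F1

/-! F2: linear disjointness of the curve and the field `A`. -/

namespace Pool.Agent.P.MP_ee618e_ag.X

open IsDedekindDomain Polynomial
open scoped Classical

variable {Ω : Type} [Field Ω] (C : Fib Ω) {S : Set Ω} {σ τ : Au Ω}

theorem f2_frac {R : Type} [CommRing R] [IsDomain R] [Algebra R Ω]
    (hi : Function.Injective (algebraMap R Ω)) :
    (∀ z : Ω, IsAlgebraic (Subfield.closure (Set.range (algebraMap R Ω))) z → IsAlgebraic R z) ∧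
    (IsIntegrallyClosed R → ∀ w ∈ Subfield.closure (Set.range (algebraMap R Ω)),
      IsIntegral R w → w ∈ Set.range (algebraMap R Ω)) := by
  set K := Subfield.closure (Set.range (algebraMap R Ω)) with hK
  let _ : Algebra R K := ((algebraMap R Ω).codRestrict K
    fun x => Subfield.subset_closure ⟨x, rfl⟩).toAlgebra
  have : IsScalarTower R K Ω := IsScalarTower.of_algebraMap_eq fun _ => rfl
  have : FaithfulSMul R K := (faithfulSMul_iff_algebraMap_injective R K).2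
    fun x y h => hi (congrArg Subtype.val h)
  have : IsFractionRing R K := IsFractionRing.of_field R K fun z => by
    obtain ⟨y, hy, w, hw, e⟩ := Subfield.mem_closure_iff.1 z.2
    have hc : Subring.closure (Set.range (algebraMap R Ω)) = (algebraMap R Ω).range :=
      Subring.closure_eq (algebraMap R Ω).range
    rw [hc] at hy hw
    obtain ⟨y, rfl⟩ := hy
    obtain ⟨w, rfl⟩ := hw
    exact ⟨y, w, Subtype.ext e.symm⟩
  refine ⟨fun z hz => (IsFractionRing.isAlgebraic_iff R K Ω).2 hz, fun _ w hw h => ?_⟩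
  have h1 : IsIntegral R (⟨w, hw⟩ : K) :=
    (isIntegral_algHom_iff (IsScalarTower.toAlgHom R K Ω) Subtype.val_injective).1 h
  obtain ⟨y, hy⟩ := IsIntegrallyClosed.isIntegral_iff.1 h1
  exact ⟨y, congrArg Subtype.val hy⟩

/-- restriction of an automorphism to a stable subfield -/
def f2_res (K : Subfield Ω) (σ : Au Ω) (h : σ ∈ St (K : Set Ω)) : K →+* K :=
  ((σ : Ω →+* Ω).comp K.subtype).codRestrict K fun x => (h x).2 x.2

namespace Fib

theorem f2_span {x : Ω} (hx : x ∈ C.R) : x ∈ Submodule.span C.A (C.R0 : Set Ω) := by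
  rw [C.R_eq] at hx
  have h1 : x ∈ Subalgebra.toSubmodule (Algebra.adjoin C.A (C.R0 : Set Ω)) := hx
  rw [Algebra.adjoin_eq_span] at h1
  have h2 : Submonoid.closure (C.R0 : Set Ω) = C.R0.toSubmonoid :=
    Submonoid.closure_eq C.R0.toSubmonoid
  rw [h2] at h1
  exact h1

theorem f2_ind {p : C.R → Prop} (h0 : ∀ x : C.R, (x : Ω) ∈ C.R0 → p x)
    (hadd : ∀ x y, p x → p y → p (x + y)) (hs : ∀ (a : C.A) x, p x → p (a • x)) (f : C.R) :
    p f := by
  have key : ∀ x ∈ Submodule.span C.A (C.R0 : Set Ω), ∃ h : x ∈ C.R, p ⟨x, h⟩ := by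
    intro x hx
    induction hx using Submodule.span_induction with
    | mem x hx => exact ⟨C.R0_le hx, h0 _ hx⟩
    | zero => exact ⟨C.R.zero_mem, h0 _ C.R0.zero_mem⟩
    | add x y _ _ hx hy =>
      obtain ⟨h1, h2⟩ := hx
      obtain ⟨h3, h4⟩ := hy
      exact ⟨C.R.add_mem h1 h3, hadd _ _ h2 h4⟩
    | smul a x _ hx =>
      obtain ⟨h1, h2⟩ := hx
      exact ⟨C.R.smul_mem h1 a, hs a _ h2⟩
  exact (key f (C.f2_span f.2)).2

theorem f2_ind0 {ι : Type} (b0 : Module.Basis ι C.k C.R0) (b : Module.Basis ι C.A C.R)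
    (hb : ∀ i, (b i : Ω) = b0 i) {p : C.R → Prop} (h0 : p 0) (h1 : ∀ i, p (b i))
    (hadd : ∀ x y, p x → p y → p (x + y))
    (hs : ∀ (a : C.A) x, (a : Ω) ∈ C.k → p x → p (a • x)) (f : C.R) (hf : (f : Ω) ∈ C.R0) :
    p f := by
  have key : ∀ x ∈ Submodule.span C.k (Set.range b0), p ⟨x, C.R0_le x.2⟩ := by
    intro x hx
    induction hx using Submodule.span_induction with
    | mem x hx =>
      obtain ⟨i, rfl⟩ := hx
      have : (⟨b0 i, C.R0_le (b0 i).2⟩ : C.R) = b i := Subtype.ext (hb i).symm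
      rw [this]
      exact h1 i
    | zero => exact h0
    | add x y _ _ hx hy => exact hadd _ _ hx hy
    | smul a x _ hx => exact hs ⟨a, C.kA a.2⟩ _ a.2 hx
  exact key ⟨f, hf⟩ (b0.mem_span _)

/-- a `k`-basis of `R0` is an `A`-basis of `R` -/
theorem exists_basis : ∃ (ι : Type) (b0 : Module.Basis ι C.k C.R0) (b : Module.Basis ι C.A C.R),
    ∀ i, (b i : Ω) = b0 i := by
  let b0 := Module.Basis.ofVectorSpace C.k C.R0
  have h1 : LinearIndependent C.k fun i => (b0 i : Ω) :=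
    b0.linearIndependent.map' C.R0.val.toLinearMap (LinearMap.ker_eq_bot.2 Subtype.val_injective)
  have h2 : LinearIndependent C.A fun i => (b0 i : Ω) := by
    refine linearIndependent_iff_finset_linearIndependent.2 fun s => ?_
    have h3 := C.dis s.card (fun j => (b0 (s.equivFin.symm j) : Ω)) (fun j => (b0 _).2)
      (h1.comp (fun j => (s.equivFin.symm j : _))
        (Subtype.val_injective.comp s.equivFin.symm.injective))
    have h4 := h3.comp s.equivFin s.equivFin.injective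
    convert h4 using 1
    funext j
    simp
  let v : _ → C.R := fun i => ⟨b0 i, C.R0_le (b0 i).2⟩
  have h5 : LinearIndependent C.A v := LinearIndependent.of_comp C.R.val.toLinearMap h2
  have h6 : ⊤ ≤ Submodule.span C.A (Set.range v) := by
    intro f _
    refine C.f2_ind (p := fun f => f ∈ Submodule.span C.A (Set.range v)) (fun x hx => ?_)
      (fun x y => Submodule.add_mem _) (fun a x => Submodule.smul_mem _ a) f
    have key : ∀ x ∈ Submodule.span C.k (Set.range b0),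
        (⟨x, C.R0_le x.2⟩ : C.R) ∈ Submodule.span C.A (Set.range v) := by
      intro x hx
      induction hx using Submodule.span_induction with
      | mem x hx =>
        obtain ⟨i, rfl⟩ := hx
        exact Submodule.subset_span ⟨i, rfl⟩
      | zero => exact Submodule.zero_mem _
      | add x y _ _ hx hy => exact Submodule.add_mem _ hx hy
      | smul a x _ hx => exact Submodule.smul_mem _ (⟨a, C.kA a.2⟩ : C.A) hx
    exact key ⟨x, hx⟩ (b0.mem_span _)
  exact ⟨_, b0, Module.Basis.mk h5 h6, fun i => by rw [Module.Basis.mk_apply]⟩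

theorem f2_hom (hσ : σ ∈ St (C.A : Set Ω)) (hk : σ ∈ Fix (C.k : Set Ω)) :
    ∃ φ : C.R →+* C.R, (∀ (a : C.A) f, φ (a • f) = f2_res C.A σ hσ a • φ f) ∧
      ∀ x : C.R, (x : Ω) ∈ C.R0 → φ x = x := by
  obtain ⟨ι, b0, b, hb⟩ := C.exists_basis
  set e := f2_res C.A σ hσ with he
  let φ : C.R → C.R := fun f => b.repr.symm ((b.repr f).mapRange e (map_zero e))
  have hadd : ∀ f g, φ (f + g) = φ f + φ g := fun f g => by
    simp only [φ, map_add, Finsupp.mapRange_add (map_add e)]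
  have hs : ∀ (a : C.A) f, φ (a • f) = e a • φ f := fun a f => by
    simp only [φ]
    rw [← map_smul]
    congr 1
    ext i
    simp
  have h0 : φ 0 = 0 := by simp [φ]
  have hfix : ∀ x : C.R, (x : Ω) ∈ C.R0 → φ x = x := by
    refine C.f2_ind0 b0 b hb (p := fun x => φ x = x) h0 (fun i => by simp [φ])
      (fun x y hx hy => by rw [hadd, hx, hy]) fun a x ha hx => ?_
    rw [hs, hx]
    congr 1
    exact Subtype.ext (hk a ha)
  have hmul : ∀ f g, φ (f * g) = φ f * φ g := by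
    intro f g
    refine C.f2_ind (p := fun f => φ (f * g) = φ f * φ g) (fun x hx => ?_)
      (fun x y hx hy => by rw [add_mul, hadd, hadd, hx, hy, add_mul])
      (fun a x hx => by rw [smul_mul_assoc, hs, hs, hx, smul_mul_assoc]) f
    refine C.f2_ind (p := fun g => φ (x * g) = φ x * φ g) (fun y hy => ?_)
      (fun y z hy hz => by rw [mul_add, hadd, hadd, hy, hz, mul_add])
      (fun a y hy => by rw [mul_smul_comm, hs, hs, hy, mul_smul_comm]) g
    rw [hfix x hx, hfix y hy, hfix _ (C.R0.mul_mem hx hy)]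
  exact ⟨⟨⟨⟨φ, hfix 1 C.R0.one_mem⟩, hmul⟩, h0, hadd⟩, hs, hfix⟩

theorem f2_repr {ι : Type} (b0 : Module.Basis ι C.k C.R0) (b : Module.Basis ι C.A C.R)
    (hb : ∀ i, (b i : Ω) = b0 i) (hσ : σ ∈ C.G0) (g g' : C.R) (h : (g' : Ω) = σ g) (i : ι) :
    (b.repr g' i : Ω) = σ (b.repr g i) := by
  set e := f2_res C.A σ hσ.2 with he
  have key : ∀ l : ι →₀ C.A, ((b.repr.symm (l.mapRange e (map_zero e)) : C.R) : Ω) =
      σ (b.repr.symm l : C.R) := by
    intro l
    induction l using Finsupp.induction_linear with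
    | zero => simp
    | add l l' hl hl' =>
      rw [Finsupp.mapRange_add (map_add e), map_add, map_add, Subalgebra.coe_add,
        Subalgebra.coe_add, map_add, hl, hl']
    | single j a =>
      rw [Finsupp.mapRange_single, b.repr_symm_single, b.repr_symm_single]
      have h1 : σ (b j) = b j := hσ.1 _ (by rw [hb]; exact (b0 j).2)
      show σ a * (b j : Ω) = σ (a * (b j : Ω))
      rw [map_mul, h1]
  have h2 : g' = b.repr.symm ((b.repr g).mapRange e (map_zero e)) := by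
    apply Subtype.ext
    rw [key, h, LinearEquiv.symm_apply_apply]
  rw [h2, LinearEquiv.apply_symm_apply, Finsupp.mapRange_apply]
  rfl

theorem f2_mem (hσ : σ ∈ C.G0) {x : Ω} (hx : x ∈ C.R) : σ x ∈ C.R :=
  (C.Nm_le (C.G0_le hσ) x).2 hx

/-- apply `σ` to the coordinates in the basis (`Algebra.TensorProduct` is not needed: the map is
multiplicative because the structure constants are in `k`); `ext_iso` -/
theorem surj [IsAlgClosed Ω] (hσ : σ ∈ St (C.A : Set Ω)) (hk : σ ∈ Fix (C.k : Set Ω)) :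
    ∃ σ' ∈ C.G0, ∀ a ∈ C.A, σ' a = σ a := by
  obtain ⟨φ, h1, h2⟩ := C.f2_hom hσ hk
  obtain ⟨ψ, h3, h4⟩ := C.f2_hom ((St _).inv_mem hσ) ((Fix _).inv_mem hk)
  have e1 : ∀ f, ψ (φ f) = f :=
    C.f2_ind (p := fun f => ψ (φ f) = f) (fun x hx => by rw [h2 x hx, h4 x hx])
      (fun x y hx hy => by rw [map_add, map_add, hx, hy]) fun a x hx => by
        rw [h1, h3, hx]
        congr 1
        exact Subtype.ext (σ.symm_apply_apply a)
  have e2 : ∀ f, φ (ψ f) = f :=
    C.f2_ind (p := fun f => φ (ψ f) = f) (fun x hx => by rw [h4 x hx, h2 x hx])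
      (fun x y hx hy => by rw [map_add, map_add, hx, hy]) fun a x hx => by
        rw [h3, h1, hx]
        congr 1
        exact Subtype.ext (σ.apply_symm_apply a)
  have r1 : Set.range (C.R.val : C.R →+* Ω) = C.R := Subtype.range_coe
  have r2 : Set.range ((C.R.val : C.R →+* Ω).comp φ) = C.R := by
    ext x
    constructor
    · rintro ⟨f, rfl⟩
      exact (φ f).2
    · intro hx
      exact ⟨ψ ⟨x, hx⟩, congrArg Subtype.val (e2 ⟨x, hx⟩)⟩
  obtain ⟨σ', h⟩ := ext_iso (C.R.val : C.R →+* Ω) ((C.R.val : C.R →+* Ω).comp φ)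
    Subtype.val_injective (Subtype.val_injective.comp (Function.LeftInverse.injective e1))
    (by rw [r1, C.alg]) (by rw [r2, C.alg])
  have hA : ∀ a ∈ C.A, σ' a = σ a := fun a ha => by
    have h5 := h ((⟨a, ha⟩ : C.A) • 1)
    rw [RingHom.comp_apply, h1, map_one] at h5
    have h6 : σ' (a * 1) = σ a * 1 := h5
    rwa [mul_one, mul_one] at h6
  refine ⟨σ', ⟨fun x hx => ?_, fun x => ⟨fun hx => ?_, fun hx => ?_⟩⟩, hA⟩
  · have h5 := h ⟨x, C.R0_le hx⟩
    rw [RingHom.comp_apply, h2 _ hx] at h5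
    exact h5
  · have h5 : σ.symm (σ' x) ∈ C.A := ((St _).inv_mem hσ (σ' x)).2 hx
    have h6 := hA _ h5
    rw [σ.apply_symm_apply] at h6
    rw [← σ'.injective h6]
    exact h5
  · rw [hA x hx]
    exact (hσ x).2 hx

/-- make one coordinate equal to `1` -/
theorem normf {f : Ω} (hf : f ∈ C.R) (h0 : f ≠ 0) : ∃ c ∈ C.A, c ≠ 0 ∧
    ∀ σ ∈ C.G0, ∀ τ ∈ C.G0, ∀ a ∈ C.A, σ (c * f) = a * τ (c * f) → σ (c * f) = τ (c * f) := by
  obtain ⟨ι, b0, b, hb⟩ := C.exists_basis
  have h1 : b.repr ⟨f, hf⟩ ≠ 0 := fun h => h0 (congrArg Subtype.val (b.repr.map_eq_zero_iff.1 h))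
  obtain ⟨i, hi⟩ := Finsupp.ne_iff.1 h1
  have hi' : b.repr ⟨f, hf⟩ i ≠ 0 := hi
  set c : C.A := (b.repr ⟨f, hf⟩ i)⁻¹ with hc
  refine ⟨c, c.2, fun h => inv_ne_zero hi' (Subtype.ext h), fun σ hσ τ hτ a ha h => ?_⟩
  set g : C.R := c • ⟨f, hf⟩ with hg
  have g1 : b.repr g i = 1 := by
    rw [hg, map_smul, Finsupp.smul_apply, smul_eq_mul, hc, inv_mul_cancel₀ hi']
  have h2 := C.f2_repr b0 b hb hσ g ⟨σ g, C.f2_mem hσ g.2⟩ rfl i
  have h3 := C.f2_repr b0 b hb hτ g ⟨τ g, C.f2_mem hτ g.2⟩ rfl i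
  have h4 : (⟨σ g, C.f2_mem hσ g.2⟩ : C.R) = (⟨a, ha⟩ : C.A) • ⟨τ g, C.f2_mem hτ g.2⟩ :=
    Subtype.ext h
  rw [h4, map_smul, Finsupp.smul_apply, smul_eq_mul, Subfield.coe_mul, h3, g1] at h2
  have h5 : a = 1 := by simpa using h2
  rw [h, h5, one_mul]

/-- the coordinates have finite orbits under the automorphisms of the field `A` over `k`
(`ext_aut`, `surj`); `mem_acl_of_finite` in the field `A` -/
theorem mem_R0 [IsAlgClosed Ω] {f : Ω} (hf : f ∈ C.R) (h : {y | ∃ σ ∈ C.G0, σ f = y}.Finite) :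
    f ∈ C.R0 := by
  obtain ⟨ι, b0, b, hb⟩ := C.exists_basis
  let k' : Subfield C.A := C.k.comap C.A.subtype
  let e : C.k ≃+* k' :=
    { toFun := fun x => ⟨⟨x, C.kA x.2⟩, x.2⟩
      invFun := fun x => ⟨x.1, x.2⟩
      left_inv := fun _ => rfl
      right_inv := fun _ => rfl
      map_mul' := fun _ _ => rfl
      map_add' := fun _ _ => rfl }
  have : IsAlgClosed k' := IsAlgClosed.of_ringEquiv C.k k' e
  have hc : ∀ i, (b.repr ⟨f, hf⟩ i : Ω) ∈ C.k := fun i => by
    have h1 : b.repr ⟨f, hf⟩ i ∈ Acl (k' : Set C.A) := by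
      refine mem_acl_of_finite ((h.image fun y => if hy : y ∈ C.R then b.repr ⟨y, hy⟩ i
        else 0).subset ?_)
      rintro y ⟨τ, hτ, rfl⟩
      obtain ⟨σ, hσ⟩ := ext_aut C.A τ
      have s1 : σ ∈ St (C.A : Set Ω) := fun x => ⟨fun hx => by
        have h5 := hσ (τ.symm ⟨σ x, hx⟩)
        rw [τ.apply_symm_apply] at h5
        rw [← σ.injective h5]
        exact (τ.symm _).2, fun hx => by
        rw [hσ ⟨x, hx⟩]
        exact (τ _).2⟩
      have s2 : σ ∈ Fix (C.k : Set Ω) := fun x hx => by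
        rw [hσ ⟨x, C.kA hx⟩, hτ ⟨x, C.kA hx⟩ hx]
      obtain ⟨σ', h1, h2⟩ := C.surj s1 s2
      refine ⟨σ' f, ⟨σ', h1, rfl⟩, ?_⟩
      simp only [dif_pos (C.f2_mem h1 hf)]
      apply Subtype.ext
      rw [C.f2_repr b0 b hb h1 ⟨f, hf⟩ ⟨σ' f, C.f2_mem h1 hf⟩ rfl i, h2 _ (b.repr _ i).2, hσ]
    rw [acl_eq] at h1
    exact h1
  have h2 := congrArg Subtype.val (b.linearCombination_repr ⟨f, hf⟩)
  rw [Finsupp.linearCombination_apply, Finsupp.sum] at h2
  have h3 : f = ∑ i ∈ (b.repr ⟨f, hf⟩).support, (b.repr ⟨f, hf⟩ i : Ω) * b0 i := by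
    refine h2.symm.trans ?_
    rw [AddSubmonoidClass.coe_finsetSum]
    exact Finset.sum_congr rfl fun i _ => by rw [← hb]; rfl
  rw [h3]
  exact C.R0.sum_mem fun i _ => C.R0.mul_mem (C.k_le (hc i)) (b0 i).2

/-- `b z` is integral over `R0` for some `b ∈ R0`, hence lies in `R` and has a finite orbit -/
theorem frac_R0 [IsAlgClosed Ω] {z : Ω} (hz : z ∈ Subfield.closure (C.R : Set Ω))
    (ha : z ∈ Acl (C.R0 : Set Ω)) : z ∈ Subfield.closure (C.R0 : Set Ω) := by
  have r0 : Set.range (algebraMap C.R0 Ω) = C.R0 := Subtype.range_coe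
  have r1 : Set.range (algebraMap C.R Ω) = C.R := Subtype.range_coe
  have h1 : IsAlgebraic C.R0 z :=
    (f2_frac (R := C.R0) Subtype.val_injective).1 z (by rw [r0]; exact ha)
  obtain ⟨y, hy, h2⟩ := h1.exists_integral_multiple
  have y0 : (y : Ω) ≠ 0 := fun h => hy (Subtype.ext h)
  have h3 : IsIntegral C.R (y • z) := by
    let i : C.R0 →+* C.R := (C.R0.val : C.R0 →+* Ω).codRestrict C.R fun x => C.R0_le x.2
    exact h2.map_of_comp_eq i (RingHom.id Ω) rfl
  have h4 : y • z ∈ C.R := by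
    have := (f2_frac (R := C.R) Subtype.val_injective).2 inferInstance (y • z) (by
      rw [r1]
      exact Subfield.mul_mem _ (Subfield.subset_closure (C.R0_le y.2)) hz) h3
    rwa [r1] at this
  obtain ⟨K, hK⟩ := exists_aclF (C.R0 : Set Ω)
  have h5 : y • z ∈ Acl (C.R0 : Set Ω) := by
    have h6 : (y : Ω) ∈ Acl (C.R0 : Set Ω) := subset_acl _ y.2
    rw [← hK] at h6 ha ⊢
    exact K.mul_mem h6 ha
  have h6 : y • z ∈ C.R0 := C.mem_R0 h4 ((orbit_finite h5).subset fun w ⟨σ, hσ, e⟩ => ⟨σ, hσ.1, e⟩)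
  have h7 : z = (y • z) / y := by
    show z = (y * z) / y
    field_simp
  rw [h7]
  exact Subfield.div_mem _ (Subfield.subset_closure h6) (Subfield.subset_closure y.2)

/-- `fixed_pow` -/
theorem mem_of_pow [IsAlgClosed Ω] {S : Set Ω} {N : ℕ} (hN : (N : Ω) ≠ 0) {z : Ω}
    (hz : ∀ σ ∈ Fix S, σ z = z) (h : z ^ N ∈ Subfield.closure S) : z ∈ Subfield.closure S := by
  obtain ⟨j, hj, h1, -, h2⟩ := fixed_pow hz hN
  by_cases z0 : z = 0
  · rw [z0]
    exact Subfield.zero_mem _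
  have h3 : 1 ≡ j [MOD N] := ((ZMod.natCast_eq_natCast_iff j 1 N).1 (by simpa using h1)).symm
  obtain ⟨q, hq⟩ := (Nat.modEq_iff_dvd' hj).1 h3
  have h4 : z = z ^ j / (z ^ N) ^ q := by
    have : j = N * q + 1 := by omega
    rw [this, pow_succ, pow_mul]
    field_simp
  rw [h4]
  exact Subfield.div_mem _ h2 (Subfield.pow_mem _ h q)

/-- the inclusion of `R0` in `R` -/
def inc : C.R0 →+* C.R where
  toFun f := ⟨f, C.R0_le f.2⟩
  map_one' := rfl
  map_mul' _ _ := rfl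
  map_zero' := rfl
  map_add' _ _ := rfl

theorem inc_inj : Function.Injective C.inc := by
  intro x y h
  exact Subtype.ext (congrArg (fun z : C.R => (z : Ω)) h)

/-- `exists_iota`; `OP.exists_ev`; the extension of `P` is the `A`-span of `P`, which does not
contain `1` by `dis` -/
theorem iota : ∃ ι : HeightOneSpectrum C.R0 → HeightOneSpectrum C.R,
    ∀ P, (ι P).asIdeal = P.asIdeal.map C.inc := by
  refine exists_iota (A := C.A) C.inc C.inc_inj (fun P r => ?_) fun P hP => ?_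
  · obtain ⟨ev, hev⟩ := C.op0.exists_ev P
    refine C.f2_ind (p := fun r => ∃ a : C.A, r - algebraMap C.A C.R a ∈ P.asIdeal.map C.inc)
      (fun x hx => ?_) ?_ ?_ r
    · refine ⟨⟨ev ⟨x, hx⟩, C.kA (ev _).2⟩, ?_⟩
      exact Ideal.mem_map_of_mem C.inc
        ((hev (⟨x, hx⟩ - algebraMap C.k C.R0 (ev ⟨x, hx⟩))).1 (by simp))
    · rintro x y ⟨a, ha⟩ ⟨a', ha'⟩
      refine ⟨a + a', ?_⟩
      convert Ideal.add_mem _ ha ha' using 1
      rw [map_add]; ring
    · rintro a x ⟨a', ha'⟩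
      refine ⟨a * a', ?_⟩
      convert Ideal.mul_mem_left _ (algebraMap C.A C.R a) ha' using 1
      rw [map_mul, Algebra.smul_def]; ring
  · obtain ⟨ev, hev⟩ := C.op0.exists_ev P
    obtain ⟨ι, b0, b, hb⟩ := C.exists_basis
    let E : C.R →ₗ[C.A] C.A := b.constr C.A fun i => ⟨ev (b0 i), C.kA (ev _).2⟩
    have h1 : ∀ x : C.R, ∀ hx : (x : Ω) ∈ C.R0, (E x : Ω) = ev ⟨x, hx⟩ := by
      have key : ∀ x : C.R, (x : Ω) ∈ C.R0 → ∃ hx : (x : Ω) ∈ C.R0, (E x : Ω) = ev ⟨x, hx⟩ := by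
        refine C.f2_ind0 b0 b hb (p := fun x => ∃ hx : (x : Ω) ∈ C.R0, (E x : Ω) = ev ⟨x, hx⟩)
          ⟨C.R0.zero_mem, ?_⟩ (fun i => ⟨by rw [hb]; exact (b0 i).2, ?_⟩) ?_ ?_
        · have : (⟨(0 : C.R), C.R0.zero_mem⟩ : C.R0) = 0 := rfl
          rw [this, map_zero, map_zero]; rfl
        · have : ∀ h, (⟨b i, h⟩ : C.R0) = b0 i := fun h => Subtype.ext (hb i)
          rw [this]
          simp [E]
        · rintro x y ⟨hx, ex⟩ ⟨hy, ey⟩
          refine ⟨C.R0.add_mem hx hy, ?_⟩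
          have : (⟨(x + y : C.R), C.R0.add_mem hx hy⟩ : C.R0) = ⟨x, hx⟩ + ⟨y, hy⟩ := rfl
          rw [this, map_add, map_add, Subfield.coe_add, Subfield.coe_add, ex, ey]
        · rintro a x ha ⟨hx, ex⟩
          refine ⟨C.R0.smul_mem hx ⟨a, ha⟩, ?_⟩
          have : (⟨(a • x : C.R), C.R0.smul_mem hx ⟨a, ha⟩⟩ : C.R0) =
            (⟨a, ha⟩ : C.k) • ⟨x, hx⟩ := rfl
          rw [this, map_smul, map_smul, smul_eq_mul, smul_eq_mul, Subfield.coe_mul,
            Subfield.coe_mul, ex]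
      exact fun x hx => (key x hx).2
    have h2 : ∀ y ∈ P.asIdeal.map C.inc, ∀ r, E (r * y) = 0 := by
      intro y hy
      induction hy using Submodule.span_induction with
      | mem y hy =>
        obtain ⟨p, hp, rfl⟩ := hy
        refine C.f2_ind (p := fun r => E (r * C.inc p) = 0) (fun x hx => ?_)
          (fun x y hx hy => by rw [add_mul, map_add, hx, hy, add_zero])
          fun a x hx => by rw [smul_mul_assoc, map_smul, hx, smul_zero]
        apply Subtype.ext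
        rw [h1 _ (C.R0.mul_mem hx p.2)]
        exact congrArg Subtype.val ((hev _).2 (P.asIdeal.mul_mem_left ⟨x, hx⟩ hp))
      | zero => simp
      | add x y _ _ hx hy => intro r; rw [mul_add, map_add, hx, hy, add_zero]
      | smul a x _ hx => intro r; rw [smul_eq_mul, ← mul_assoc, hx]
    have h3 := congrArg Subtype.val (h2 1 (by rw [hP]; trivial) 1)
    rw [mul_one, h1 1 C.R0.one_mem] at h3
    have h4 : (⟨(1 : C.R), C.R0.one_mem⟩ : C.R0) = 1 := rfl
    rw [h4, map_one] at h3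
    exact one_ne_zero (α := Ω) h3

/-- a divisor with finitely many conjugates which is principal is the divisor of an element of
`R0`: `normf`, `OP.of_dv_eq`, `mem_R0` -/
theorem exists_R0 [IsAlgClosed Ω] {f : C.R} (h0 : f ≠ 0)
    (h : {D | ∃ σ ∈ C.G0, C.ad σ (dv f) = D}.Finite) :
    ∃ g : C.R, (g : Ω) ∈ C.R0 ∧ g ≠ 0 ∧ dv g = dv f := by
  have f0 : (f : Ω) ≠ 0 := fun e => h0 (Subtype.ext e)
  obtain ⟨c, hc, c0, hn⟩ := C.normf f.2 f0
  have c0' : (⟨c, hc⟩ : C.A) ≠ 0 := fun e => c0 (congrArg Subtype.val e)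
  set g : C.R := (⟨c, hc⟩ : C.A) • f with hg
  have gv : (g : Ω) = c * f := rfl
  have g0 : (g : Ω) ≠ 0 := mul_ne_zero c0 f0
  have gd : dv g = dv f := dv_smul c0' f
  refine ⟨g, C.mem_R0 g.2 (Set.Finite.of_finite_image
    (f := fun y => if hy : y ∈ C.R then dv (⟨y, hy⟩ : C.R) else 0) (h.subset ?_) ?_),
    fun e => g0 (congrArg Subtype.val e), gd⟩
  · rintro _ ⟨_, ⟨σ, hσ, rfl⟩, rfl⟩
    refine ⟨σ, hσ, ?_⟩
    simp only [dif_pos (C.f2_mem hσ g.2)]
    rw [← gd]
    exact ad_dv (C.G0_le hσ) rfl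
  · rintro _ ⟨σ, hσ, rfl⟩ _ ⟨τ, hτ, rfl⟩ e
    simp only [dif_pos (C.f2_mem hσ g.2), dif_pos (C.f2_mem hτ g.2)] at e
    obtain ⟨a, -, ha⟩ := C.op.of_dv_eq
      (fun e => (map_ne_zero σ).2 g0 (congrArg Subtype.val e))
      (fun e => (map_ne_zero τ).2 g0 (congrArg Subtype.val e)) e
    exact hn σ hσ τ hτ a a.2 (congrArg Subtype.val ha)

end Fib

end Pool.Agent.P.MP_ee618e_ag.X
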