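import Pool.Agent.P.MP_ee618e_ag.X.F2

/-! F3: the Gauss extension of a valuation. -/

namespace Pool.Agent.P.MP_ee618e_ag.X

open IsDedekindDomain Polynomial
open scoped Classical

variable {Ω : Type} [Field Ω] (C : Fib Ω)

/-- the value group of an algebraic extension is torsion over the value group of the base -/
theorem f3_torsion (O : ValuationSubring Ω) (L : Subfield Ω) {z : Ω} (hz : z ≠ 0)
    (ha : IsAlgebraic L z) :
    ∃ n : ℕ, 0 < n ∧ ∃ f ∈ L, f ≠ 0 ∧ O.valuation z ^ n = O.valuation f := by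
  obtain ⟨p, hp, hpz⟩ := ha
  have hvz : O.valuation z ≠ 0 := by simpa using hz
  have key : ∀ i ∈ p.support, ∀ j ∈ p.support, i < j →
      O.valuation ((p.coeff i : Ω) * z ^ i) = O.valuation ((p.coeff j : Ω) * z ^ j) →
      ∃ n : ℕ, 0 < n ∧ ∃ f ∈ L, f ≠ 0 ∧ O.valuation z ^ n = O.valuation f := by
    intro i hi j hj hij e
    have hi0 : (p.coeff i : Ω) ≠ 0 := by simpa using hi
    have hj0 : (p.coeff j : Ω) ≠ 0 := by simpa using hj
    obtain ⟨n, rfl⟩ := Nat.exists_eq_add_of_lt hij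
    refine ⟨n + 1, n.succ_pos, (p.coeff i : Ω) / (p.coeff (i + n + 1) : Ω),
      L.div_mem (p.coeff i).2 (p.coeff _).2, div_ne_zero hi0 hj0, ?_⟩
    have hvj : O.valuation (p.coeff (i + n + 1) : Ω) ≠ 0 := by simpa using hj0
    rw [map_div₀, eq_div_iff hvj]
    simp only [map_mul, map_pow] at e
    apply mul_right_cancel₀ (pow_ne_zero i hvz)
    have e2 : O.valuation z ^ (i + n + 1) = O.valuation z ^ (n + 1) * O.valuation z ^ i := by
      rw [← pow_add]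
      congr 1
      omega
    rw [e, e2]
    ac_rfl
  by_contra hcon
  have hne : p.support.Nonempty := Polynomial.nonempty_support_iff.2 hp
  obtain ⟨j, hj, hmax⟩ := p.support.exists_max_image
    (fun i => O.valuation ((p.coeff i : Ω) * z ^ i)) hne
  have hs : ∑ i ∈ p.support, (p.coeff i : Ω) * z ^ i = 0 := by
    rw [← hpz, aeval_def, eval₂_eq_sum, Polynomial.sum_def]
    rfl
  have h1 := O.valuation.map_sum_eq_of_lt (f := fun i => (p.coeff i : Ω) * z ^ i) hj (by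
    intro i hi
    rw [Finset.mem_sdiff, Finset.mem_singleton] at hi
    refine lt_of_le_of_ne (hmax i hi.1) fun e => hcon ?_
    rcases lt_or_gt_of_ne hi.2 with h | h
    · exact key i hi.1 j hj h e
    · exact key j hj i hi.1 h e.symm)
  rw [hs, map_zero] at h1
  have hj0 : (p.coeff j : Ω) ≠ 0 := by simpa using hj
  exact (mul_ne_zero hj0 (pow_ne_zero j hz)) (by simpa using h1.symm)

namespace Fib

/-- the span of the products of nonunits of `A ∩ O'` with elements of `R0` -/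
def gM (O' : ValuationSubring Ω) : AddSubgroup Ω :=
  AddSubgroup.closure {x | ∃ a ∈ C.A, a ∈ O'.nonunits ∧ ∃ g ∈ C.R0, x = a * g}

variable {C} {O' : ValuationSubring Ω}

theorem gM_gen {a g : Ω} (ha : a ∈ C.A) (ha' : a ∈ O'.nonunits) (hg : g ∈ C.R0) :
    a * g ∈ C.gM O' := AddSubgroup.subset_closure ⟨a, ha, ha', g, hg, rfl⟩

theorem gM_one {a : Ω} (ha : a ∈ C.A) (ha' : a ∈ O'.nonunits) : a ∈ C.gM O' := by
  simpa using gM_gen ha ha' C.R0.one_mem

theorem gM_mul_R0 {x g : Ω} (hx : x ∈ C.gM O') (hg : g ∈ C.R0) : x * g ∈ C.gM O' := by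
  induction hx using AddSubgroup.closure_induction with
  | mem x hx =>
    obtain ⟨a, ha, ha', g', hg', rfl⟩ := hx
    rw [mul_assoc]
    exact gM_gen ha ha' (C.R0.mul_mem hg' hg)
  | zero => rw [zero_mul]; exact zero_mem _
  | add x y _ _ hx hy => rw [add_mul]; exact add_mem hx hy
  | neg x _ hx => rw [neg_mul]; exact neg_mem hx

theorem gM_mul {x y : Ω} (hx : x ∈ C.gM O') (hy : y ∈ C.gM O') : x * y ∈ C.gM O' := by
  induction hx using AddSubgroup.closure_induction with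
  | mem x hx =>
    obtain ⟨a, ha, ha', g, hg, rfl⟩ := hx
    induction hy using AddSubgroup.closure_induction with
    | mem y hy =>
      obtain ⟨b, hb, hb', g', hg', rfl⟩ := hy
      rw [mul_mul_mul_comm]
      exact gM_gen (C.A.mul_mem ha hb) (mul_mem ha' hb') (C.R0.mul_mem hg hg')
    | zero => rw [mul_zero]; exact zero_mem _
    | add x y _ _ hx hy => rw [mul_add]; exact add_mem hx hy
    | neg x _ hx => rw [mul_neg]; exact neg_mem hx
  | zero => rw [zero_mul]; exact zero_mem _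
  | add x y _ _ hx hy => rw [add_mul]; exact add_mem hx hy
  | neg x _ hx => rw [neg_mul]; exact neg_mem hx

theorem gM_map {σ : Au Ω} (hσ : σ ∈ C.G0) (h : ∀ a ∈ C.A, a ∈ O' → σ a - a ∈ O'.nonunits)
    {x : Ω} (hx : x ∈ C.gM O') : σ x ∈ C.gM O' := by
  induction hx using AddSubgroup.closure_induction with
  | mem x hx =>
    obtain ⟨a, ha, ha', g, hg, rfl⟩ := hx
    have h1 : σ g = g := hσ.1 g hg
    have h2 : σ a ∈ C.A := (hσ.2 a).2 ha
    rw [map_mul, h1]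
    refine gM_gen h2 ?_ hg
    simpa using add_mem (h a ha (O'.nonunits_subset ha')) ha'
  | zero => rw [map_zero]; exact zero_mem _
  | add x y _ _ hx hy => rw [map_add]; exact add_mem hx hy
  | neg x _ hx => rw [map_neg]; exact neg_mem hx

variable (C O') in
/-- `R0 + gM` -/
def gB : Subring Ω where
  carrier := {x | ∃ g ∈ C.R0, x - g ∈ C.gM O'}
  mul_mem' := by
    rintro x y ⟨g, hg, hx⟩ ⟨g', hg', hy⟩
    refine ⟨g * g', C.R0.mul_mem hg hg', ?_⟩
    have e : x * y - g * g' = (x - g) * (y - g') + (x - g) * g' + (y - g') * g := by ring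
    rw [e]
    exact add_mem (add_mem (gM_mul hx hy) (gM_mul_R0 hx hg')) (gM_mul_R0 hy hg)
  one_mem' := ⟨1, C.R0.one_mem, by rw [sub_self]; exact zero_mem _⟩
  add_mem' := by
    rintro x y ⟨g, hg, hx⟩ ⟨g', hg', hy⟩
    refine ⟨g + g', C.R0.add_mem hg hg', ?_⟩
    rw [add_sub_add_comm]
    exact add_mem hx hy
  zero_mem' := ⟨0, C.R0.zero_mem, by rw [sub_self]; exact zero_mem _⟩
  neg_mem' := by
    rintro x ⟨g, hg, hx⟩
    refine ⟨-g, C.R0.neg_mem hg, ?_⟩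
    rw [← neg_sub']
    exact neg_mem hx

theorem gB_R0 {g : Ω} (hg : g ∈ C.R0) : g ∈ C.gB O' :=
  ⟨g, hg, by rw [sub_self]; exact zero_mem _⟩

theorem gB_M {x : Ω} (hx : x ∈ C.gM O') : x ∈ C.gB O' :=
  ⟨0, C.R0.zero_mem, by rwa [sub_zero]⟩

theorem gB_V (hk : (C.k : Set Ω) ⊆ O') (hA : ¬ (C.A : Set Ω) ⊆ O') {a : Ω} (ha : a ∈ C.A)
    (ha' : a ∈ O') : a ∈ C.gB O' := by
  obtain ⟨c, hc, h⟩ := res_const hk hA C.td ha ha'
  exact ⟨c, C.k_le hc, gM_one (C.A.sub_mem ha (C.kA hc)) h⟩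

theorem gM_mul_B {x y : Ω} (hx : x ∈ C.gM O') (hy : y ∈ C.gB O') : x * y ∈ C.gM O' := by
  obtain ⟨g, hg, hy⟩ := hy
  have e : x * y = x * (y - g) + x * g := by ring
  rw [e]
  exact add_mem (gM_mul hx hy) (gM_mul_R0 hx hg)

section Coord

variable {ι : Type} {b0 : Module.Basis ι C.k C.R0} {b : Module.Basis ι C.A C.R}

theorem g_repr (hb : ∀ i, (b i : Ω) = b0 i) (g : C.R0) (i : ι) :
    ((b.repr (C.inc g) i : C.A) : Ω) = (b0.repr g i : C.k) := by
  have e : C.inc g = ∑ j ∈ (b0.repr g).support,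
      (⟨(b0.repr g j : C.k), C.kA (b0.repr g j).2⟩ : C.A) • b j := by
    apply Subtype.ext
    conv_lhs => rw [← b0.linearCombination_repr g, Finsupp.linearCombination_apply, Finsupp.sum]
    show ((∑ j ∈ (b0.repr g).support, b0.repr g j • b0 j : C.R0) : Ω) = _
    rw [AddSubmonoidClass.coe_finsetSum, AddSubmonoidClass.coe_finsetSum]
    refine Finset.sum_congr rfl fun j _ => ?_
    show (b0.repr g j : Ω) * (b0 j : Ω) = (b0.repr g j : Ω) * (b j : Ω)
    rw [hb]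
  rw [e, map_sum, Finsupp.finsetSum_apply]
  simp only [map_smul, Module.Basis.repr_self, Finsupp.smul_apply, Finsupp.single_apply,
    smul_eq_mul, mul_ite, mul_one, mul_zero, Finset.sum_ite_eq', Finsupp.mem_support_iff]
  split_ifs with h
  · rfl
  · rw [not_not] at h
    rw [h]
    rfl

theorem gM_coord (hk : (C.k : Set Ω) ⊆ O') (hb : ∀ i, (b i : Ω) = b0 i) {x : Ω}
    (hx : x ∈ C.gM O') : ∃ f : C.R, (f : Ω) = x ∧ ∀ i, (b.repr f i : Ω) ∈ O'.nonunits := by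
  induction hx using AddSubgroup.closure_induction with
  | mem x hx =>
    obtain ⟨a, ha, ha', g, hg, rfl⟩ := hx
    refine ⟨(⟨a, ha⟩ : C.A) • C.inc ⟨g, hg⟩, rfl, fun i => ?_⟩
    rw [map_smul, Finsupp.smul_apply, smul_eq_mul, MulMemClass.coe_mul, g_repr hb]
    rw [O'.mem_nonunits_iff] at ha' ⊢
    rw [map_mul]
    have h1 := (O'.valuation_le_one_iff _).2 (hk (b0.repr ⟨g, hg⟩ i).2)
    exact (mul_le_of_le_one_right' h1).trans_lt ha'
  | zero => exact ⟨0, rfl, fun i => by simp⟩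
  | add x y _ _ hx hy =>
    obtain ⟨f, rfl, hf⟩ := hx
    obtain ⟨g, rfl, hg⟩ := hy
    refine ⟨f + g, rfl, fun i => ?_⟩
    rw [map_add, Finsupp.add_apply, AddMemClass.coe_add]
    exact add_mem (hf i) (hg i)
  | neg x _ hx =>
    obtain ⟨f, rfl, hf⟩ := hx
    refine ⟨-f, rfl, fun i => ?_⟩
    rw [map_neg, Finsupp.neg_apply, NegMemClass.coe_neg]
    exact neg_mem (hf i)

end Coord

theorem gM_R0 (hk : (C.k : Set Ω) ⊆ O') {g : Ω} (hg : g ∈ C.R0) (h : g ∈ C.gM O') : g = 0 := by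
  obtain ⟨ι, b0, b, hb⟩ := C.exists_basis
  obtain ⟨f, hf, h⟩ := gM_coord hk hb h
  have e : f = C.inc ⟨g, hg⟩ := Subtype.ext hf
  have : (⟨g, hg⟩ : C.R0) = 0 := by
    refine b0.ext_elem fun i => ?_
    have h1 := h i
    rw [e, g_repr hb] at h1
    rw [map_zero, Finsupp.zero_apply]
    by_contra h0
    exact not_nonunit hk (b0.repr ⟨g, hg⟩ i).2 (by simpa using h0) h1
  exact congrArg Subtype.val this

/-- divide by the coordinate of largest size -/
theorem g_norm (hk : (C.k : Set Ω) ⊆ O') (hA : ¬ (C.A : Set Ω) ⊆ O') {f : Ω} (hf : f ∈ C.R)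
    (h0 : f ≠ 0) : ∃ a ∈ C.A, a ≠ 0 ∧ f / a ∈ C.gB O' ∧ f / a ∉ C.gM O' := by
  obtain ⟨ι, b0, b, hb⟩ := C.exists_basis
  have hne : (b.repr ⟨f, hf⟩).support.Nonempty := by
    rw [Finsupp.support_nonempty_iff, ne_eq, LinearEquiv.map_eq_zero_iff]
    exact fun h => h0 (congrArg Subtype.val h)
  obtain ⟨j, hj, hmax⟩ := (b.repr ⟨f, hf⟩).support.exists_max_image
    (fun i => O'.valuation (b.repr ⟨f, hf⟩ i : Ω)) hne
  have hj1 : b.repr ⟨f, hf⟩ j ≠ 0 := Finsupp.mem_support_iff.1 hj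
  have hj0 : (b.repr ⟨f, hf⟩ j : Ω) ≠ 0 := by simpa using hj1
  refine ⟨_, (b.repr ⟨f, hf⟩ j).2, hj0, ?_, fun h => ?_⟩
  · have e : f = ∑ i ∈ (b.repr ⟨f, hf⟩).support, (b.repr ⟨f, hf⟩ i : Ω) * b0 i := by
      have h1 := congrArg Subtype.val (b.linearCombination_repr ⟨f, hf⟩)
      rw [Finsupp.linearCombination_apply, Finsupp.sum, AddSubmonoidClass.coe_finsetSum] at h1
      refine h1.symm.trans (Finset.sum_congr rfl fun i _ => ?_)
      rw [← hb]
      rfl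
    have e2 : f / (b.repr ⟨f, hf⟩ j : Ω) = ∑ i ∈ (b.repr ⟨f, hf⟩).support,
        (b.repr ⟨f, hf⟩ i : Ω) / (b.repr ⟨f, hf⟩ j : Ω) * b0 i := by
      conv_lhs => arg 1; rw [e]
      rw [Finset.sum_div]
      exact Finset.sum_congr rfl fun i _ => by ring
    rw [e2]
    refine sum_mem fun i hi => mul_mem (gB_V hk hA (C.A.div_mem (Subtype.prop _)
      (Subtype.prop _)) ?_) (gB_R0 (b0 i).2)
    rw [← O'.valuation_le_one_iff, map_div₀]
    exact div_le_one_of_le₀ (hmax i hi) zero_le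
  · obtain ⟨g, hg, h⟩ := gM_coord hk hb h
    have e : g = (b.repr ⟨f, hf⟩ j)⁻¹ • (⟨f, hf⟩ : C.R) := by
      apply Subtype.ext
      rw [hg, div_eq_inv_mul]
      rfl
    have h1 := h j
    rw [e, map_smul, Finsupp.smul_apply, smul_eq_mul, inv_mul_cancel₀ hj1] at h1
    simp [O'.mem_nonunits_iff] at h1

theorem g_dom (hk : (C.k : Set Ω) ⊆ O') : ∃ O : ValuationSubring Ω,
    ∀ x ∈ C.gB O', x ∈ O ∧ (x ∈ O.nonunits ↔ x ∈ C.gM O') := by
  let P : Ideal (C.gB O') :=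
    { carrier := {x | (x : Ω) ∈ C.gM O'}
      add_mem' := fun hx hy => (C.gM O').add_mem hx hy
      zero_mem' := zero_mem (C.gM O')
      smul_mem' := fun c x hx => by
        show (c : Ω) * x ∈ C.gM O'
        rw [mul_comm]
        exact gM_mul_B hx c.2 }
  have : P.IsPrime := by
    refine ⟨(Ideal.ne_top_iff_one P).2 fun h => one_ne_zero (gM_R0 hk C.R0.one_mem h), ?_⟩
    rintro ⟨x, hx⟩ ⟨y, hy⟩ h
    obtain ⟨g, hg, hx'⟩ := id hx
    obtain ⟨g', hg', hy'⟩ := id hy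
    have h1 : x * y ∈ C.gM O' := h
    have e : g * g' = x * y - ((x - g) * y + (y - g') * g) := by ring
    have h2 : g * g' = 0 := gM_R0 hk (C.R0.mul_mem hg hg') (by
      rw [e]; exact sub_mem h1 (add_mem (gM_mul_B hx' hy) (gM_mul_R0 hy' hg)))
    rcases mul_eq_zero.1 h2 with rfl | rfl
    · left
      show x ∈ C.gM O'
      simpa using hx'
    · right
      show y ∈ C.gM O'
      simpa using hy'
  obtain ⟨O, h1, h2⟩ := dominate (C.gB O').subtype Subtype.val_injective P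
  exact ⟨O, fun x hx => ⟨h1 ⟨x, hx⟩, h2 ⟨x, hx⟩⟩⟩

theorem g_frac {K : Subfield Ω} (T : Subalgebra K Ω) {x : Ω}
    (hx : x ∈ Subfield.closure (T : Set Ω)) : ∃ f ∈ T, ∃ g ∈ T, g ≠ 0 ∧ x = f / g := by
  obtain ⟨f, hf, g, hg, rfl⟩ := Subfield.mem_closure_iff.1 hx
  have e : Subring.closure (T : Set Ω) = T.toSubring := Subring.closure_eq T.toSubring
  rw [e] at hf hg
  by_cases h0 : g = 0
  · exact ⟨0, T.zero_mem, 1, T.one_mem, one_ne_zero, by simp [h0]⟩
  · exact ⟨f, hf, g, hg, h0, rfl⟩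

variable (C)

/-- The Gauss extension. Let `B` be the ring generated by `A ∩ O'` and `F = closure R0`, `I` the
ideal generated by the nonunits `m` of `A ∩ O'`. `1 ∉ I` (clear denominators, compare
coordinates); Chevalley. For `0 ≠ f ∈ R` divide by the coordinate of largest size and use
`res_const`: `f = a u` with `u ≡ g ∈ R0 \ 0`. -/
theorem gauss (O' : ValuationSubring Ω) (hk : (C.k : Set Ω) ⊆ O') (hA : ¬ (C.A : Set Ω) ⊆ O') :
    ∃ O : ValuationSubring Ω, (Subfield.closure (C.R0 : Set Ω) : Set Ω) ⊆ O ∧ O ≠ ⊤ ∧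
      (∀ σ ∈ C.G0, (∀ a ∈ C.A, a ∈ O' → σ a - a ∈ O'.nonunits) →
        ∀ x ∈ Subfield.closure (C.R : Set Ω), x ∈ O → σ x - x ∈ O.nonunits) ∧
      (∀ x ∈ Subfield.closure (C.R : Set Ω), x ∈ O →
        ∃ g ∈ Subfield.closure (C.R0 : Set Ω), x - g ∈ O.nonunits) ∧
      ∀ z : Ω, z ≠ 0 → ∃ a ∈ C.A, a ≠ 0 ∧ z / a ∈ O ∧ z / a ∉ O.nonunits := by
  obtain ⟨O, hO⟩ := g_dom (C := C) hk
  have hM : ∀ x ∈ C.gM O', O.valuation x < 1 := fun x hx =>
    O.mem_nonunits_iff.1 ((hO x (gB_M hx)).2.2 hx)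
  have hB : ∀ x ∈ C.gB O', O.valuation x ≤ 1 := fun x hx =>
    (O.valuation_le_one_iff x).2 (hO x hx).1
  have hU : ∀ x ∈ C.gB O', x ∉ C.gM O' → O.valuation x = 1 := fun x hx hx' =>
    le_antisymm (hB x hx) (not_lt.1 fun h => hx' ((hO x hx).2.1 (O.mem_nonunits_iff.2 h)))
  have hU0 : ∀ g ∈ C.R0, g ≠ 0 → O.valuation g = 1 := fun g hg h0 =>
    hU g (gB_R0 hg) fun h => h0 (gM_R0 hk hg h)
  have hAO : ∀ a ∈ C.A, a ∈ O → a ∈ O' := by
    intro a ha h
    by_contra h'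
    have h1 : a⁻¹ ∈ O'.nonunits := O'.inv_mem_nonunits_iff.2 (Or.inr h')
    have h2 := O.mem_nonunits_iff.2 (hM _ (gM_one (C.A.inv_mem ha) h1))
    rcases O.inv_mem_nonunits_iff.1 h2 with rfl | h3
    · exact h' O'.zero_mem
    · exact h3 h
  have hq : ∀ x ∈ Subfield.closure (C.R : Set Ω), x ≠ 0 → ∃ e ∈ C.A, e ≠ 0 ∧
      ∃ u ∈ C.gB O', ∃ u' ∈ C.gB O', u ∉ C.gM O' ∧ u' ∉ C.gM O' ∧ x = e * u / u' := by
    intro x hx h0
    obtain ⟨f, hf, g, hg, hg0, rfl⟩ := g_frac C.R hx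
    have hf0 : f ≠ 0 := fun h => h0 (by simp [h])
    obtain ⟨a, ha, ha0, h1, h2⟩ := g_norm hk hA hf hf0
    obtain ⟨a', ha', ha0', h1', h2'⟩ := g_norm hk hA hg hg0
    refine ⟨a / a', C.A.div_mem ha ha', div_ne_zero ha0 ha0', _, h1, _, h1', h2, h2', ?_⟩
    field_simp
  have hred : ∀ w u g g' : Ω, g ∈ C.R0 → g' ∈ C.R0 → g' ≠ 0 → w - g ∈ C.gM O' →
      u - g' ∈ C.gM O' → w / u - g / g' ∈ O.nonunits := by
    intro w u g g' hg hg' h0 hw hu
    have hu1 : O.valuation u = 1 := hU u ⟨g', hg', hu⟩ fun h =>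
      h0 (gM_R0 hk hg' (by simpa using sub_mem h hu))
    have hu0 : u ≠ 0 := fun h => by simp [h] at hu1
    have e : w / u - g / g' = ((w - g) * g' - (u - g') * g) / (u * g') := by
      field_simp
      ring
    rw [O.mem_nonunits_iff, e, map_div₀, map_mul, hu1, hU0 g' hg' h0, mul_one, div_one]
    exact hM _ (sub_mem (gM_mul_R0 hw hg') (gM_mul_R0 hu hg))
  have hw : ∀ x ∈ Subfield.closure (C.R : Set Ω), x ∈ O → ∃ w u g g' : Ω, g ∈ C.R0 ∧
      g' ∈ C.R0 ∧ g' ≠ 0 ∧ w - g ∈ C.gM O' ∧ u - g' ∈ C.gM O' ∧ x = w / u := by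
    intro x hx hxO
    by_cases h0 : x = 0
    · exact ⟨0, 1, 0, 1, C.R0.zero_mem, C.R0.one_mem, one_ne_zero, by simp, by simp, by simp [h0]⟩
    obtain ⟨e, he, he0, u, hu, u', hu', h1, h2, rfl⟩ := hq x hx h0
    have heO : e ∈ O := by
      rw [← O.valuation_le_one_iff] at hxO ⊢
      rwa [map_div₀, map_mul, hU u hu h1, hU u' hu' h2, mul_one, div_one] at hxO
    obtain ⟨g, hg, h3⟩ := mul_mem (gB_V hk hA he (hAO e he heO)) hu
    obtain ⟨g', hg', h4⟩ := hu'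
    refine ⟨e * u, u', g, g', hg, hg', ?_, h3, h4, rfl⟩
    rintro rfl
    exact h2 (by simpa using h4)
  refine ⟨O, fun x hx => ?_, ?_, fun σ hσ h x hx hxO => ?_, fun x hx hxO => ?_, fun z hz => ?_⟩
  · obtain ⟨f, hf, g, hg, hg0, rfl⟩ := g_frac C.R0 hx
    rw [SetLike.mem_coe, ← O.valuation_le_one_iff, map_div₀, hU0 g hg hg0, div_one]
    exact hB f (gB_R0 hf)
  · rintro rfl
    exact hA fun a ha => hAO a ha trivial
  · obtain ⟨w, u, g, g', hg, hg', h0, h1, h2, rfl⟩ := hw x hx hxO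
    have e1 : σ g = g := hσ.1 g hg
    have e2 : σ g' = g' := hσ.1 g' hg'
    have h3 := gM_map hσ h h1
    have h4 := gM_map hσ h h2
    rw [map_sub, e1] at h3
    rw [map_sub, e2] at h4
    rw [map_div₀]
    simpa using sub_mem (hred _ _ _ _ hg hg' h0 h3 h4) (hred _ _ _ _ hg hg' h0 h1 h2)
  · obtain ⟨w, u, g, g', hg, hg', h0, h1, h2, rfl⟩ := hw x hx hxO
    exact ⟨g / g', Subfield.div_mem _ (Subfield.subset_closure hg) (Subfield.subset_closure hg'),
      hred _ _ _ _ hg hg' h0 h1 h2⟩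
  · have ha : z ∈ Acl (C.R : Set Ω) := by rw [C.alg]; trivial
    obtain ⟨n, hn, f, hf, hf0, e⟩ := f3_torsion O _ hz ha
    obtain ⟨c, hc, hc0, u, hu, u', hu', h1, h2, rfl⟩ := hq f hf hf0
    rw [map_div₀, map_mul, hU u hu h1, hU u' hu' h2, mul_one, div_one] at e
    obtain ⟨a, ha⟩ := IsAlgClosed.exists_pow_nat_eq (⟨c, hc⟩ : C.A) hn
    have ha' : (a : Ω) ^ n = c := congrArg Subtype.val ha
    have ha0 : (a : Ω) ≠ 0 := fun h => hc0 (by rw [← ha', h, zero_pow hn.ne'])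
    have hv : O.valuation (z / a) = 1 := by
      rw [← ha', map_pow] at e
      rw [map_div₀, (pow_left_inj₀ zero_le zero_le hn.ne').1 e, div_self (by simpa using ha0)]
    refine ⟨a, a.2, ha0, (O.valuation_le_one_iff _).1 hv.le, ?_⟩
    rw [O.mem_nonunits_iff, hv]
    exact lt_irrefl _

end Fib

end Pool.Agent.P.MP_ee618e_ag.X
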