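import Pool.Agent.P.MP_ee618e_ag.X.BR2

/-! FIN1: the surface identifies eigenvectors. -/

namespace Pool.Agent.P.MP_ee618e_ag.X

open IsDedekindDomain Polynomial
open scoped Classical

/-- `b = (γ ^ m - q ^ m)⁻¹ (F ^ m - q ^ m) b₁` with `b₁ = (γ - q)⁻¹ b₀` -/
theorem proj_eigen {Λ V : Type} [Field Λ] [AddCommGroup V] [Module Λ V] (F : V →ₗ[Λ] V)
    {K P : Submodule Λ V} (hK : ∀ x ∈ K, F x ∈ K) (hP : ∀ x ∈ P, F x ∈ P) {q γ : Λ}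
    (hγ : ∀ m, 0 < m → γ ^ m ≠ q ^ m)
    (ker : ∀ x ∈ P, x ∈ K → ∃ m, 0 < m ∧ (F ^ m) x = q ^ m • x) {a b₀ : V} (ha : F a = γ • a)
    (hb : b₀ ∈ P) (h : F a - q • a - b₀ ∈ K) : ∃ b ∈ P, F b = γ • b ∧ a - b ∈ K := by
  have h1 : γ - q ≠ 0 := sub_ne_zero.2 (by simpa using hγ 1 one_pos)
  have pw : ∀ (W : Submodule Λ V), (∀ x ∈ W, F x ∈ W) → ∀ m, ∀ x ∈ W, (F ^ m) x ∈ W := by
    intro W hW m
    induction m with
    | zero => intro x hx; simpa using hx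
    | succ m ih => intro x hx; rw [pow_succ, Module.End.mul_apply]; exact ih _ (hW x hx)
  have ea : ∀ m, (F ^ m) a = γ ^ m • a := by
    intro m
    induction m with
    | zero => simp
    | succ m ih => rw [pow_succ, Module.End.mul_apply, ha, map_smul, ih, smul_smul, pow_succ']
  obtain ⟨b₁, hb₁, hab⟩ : ∃ b₁ ∈ P, a - b₁ ∈ K := by
    refine ⟨(γ - q)⁻¹ • b₀, P.smul_mem _ hb, ?_⟩
    have h2 := K.smul_mem (γ - q)⁻¹ h
    rwa [ha, ← sub_smul, smul_sub, smul_smul, inv_mul_cancel₀ h1, one_smul] at h2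
  have hx : F b₁ - γ • b₁ ∈ K := by
    have h2 := K.sub_mem (K.smul_mem γ hab) (hK _ hab)
    rw [map_sub, ha, smul_sub] at h2
    convert h2 using 1
    abel
  obtain ⟨m, hm, e⟩ := ker _ (P.sub_mem (hP _ hb₁) (P.smul_mem γ hb₁)) hx
  have h3 : γ ^ m - q ^ m ≠ 0 := sub_ne_zero.2 (hγ m hm)
  refine ⟨(γ ^ m - q ^ m)⁻¹ • ((F ^ m) b₁ - q ^ m • b₁),
    P.smul_mem _ (P.sub_mem (pw P hP m _ hb₁) (P.smul_mem _ hb₁)), ?_, ?_⟩
  · have h4 : F ((F ^ m) b₁) = (F ^ m) (F b₁) := by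
      rw [← Module.End.mul_apply, ← Module.End.mul_apply, ← pow_succ, ← pow_succ']
    rw [map_sub, map_smul, smul_sub, sub_eq_sub_iff_sub_eq_sub] at e
    rw [map_smul, map_sub, map_smul, h4, e, smul_comm γ, smul_sub γ, smul_comm γ (q ^ m)]
  · have h4 := K.smul_mem (γ ^ m - q ^ m)⁻¹ (K.sub_mem (pw K hK m _ hab) (K.smul_mem (q ^ m) hab))
    have h5 : (F ^ m) (a - b₁) - q ^ m • (a - b₁) =
        (γ ^ m - q ^ m) • a - ((F ^ m) b₁ - q ^ m • b₁) := by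
      rw [map_sub, ea, smul_sub, sub_smul]
      abel
    rwa [h5, smul_sub, smul_smul, inv_mul_cancel₀ h3, one_smul] at h4

variable {Ω : Type} [Field Ω] {Λ : Type} [NormedField Λ]

/-- write `b = ∑ κ i ψ i` with linearly independent `κ i` -/
theorem p2_eigen {U V : Submodule Λ (Au Ω → Λ)} {α : Au Ω} {e γ : Λ} (he : e ≠ 0)
    (hU : ∀ κ ∈ U, ∀ σ, κ (α * σ * α⁻¹) = e * κ σ) {b : Au Ω → Au Ω → Λ} (hb : b ∈ P2 U V)
    (h : F2 Λ α b = γ • b) :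
    b ∈ P2 (U : Set (Au Ω → Λ)) {ψ | ψ ∈ V ∧ ∀ σ, ψ (α * σ * α⁻¹) = γ / e * ψ σ} := by
  let W : Submodule Λ (Au Ω → Λ) :=
    { carrier := {ψ | ψ ∈ V ∧ ∀ σ, ψ (α * σ * α⁻¹) = γ / e * ψ σ}
      add_mem' := fun h1 h2 => ⟨V.add_mem h1.1 h2.1, fun σ => by
        simp only [Pi.add_apply, h1.2 σ, h2.2 σ, mul_add]⟩
      zero_mem' := ⟨V.zero_mem, fun σ => by simp⟩
      smul_mem' := fun c _ h1 => ⟨V.smul_mem c h1.1, fun σ => by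
        simp only [Pi.smul_apply, smul_eq_mul, h1.2 σ, mul_left_comm]⟩ }
  obtain ⟨p, hp⟩ := LinearMap.exists_leftInverse_of_injective W.subtype W.ker_subtype
  have key : ∀ c ∈ P2 (U : Set (Au Ω → Λ)) V, (∀ σ, c σ ∈ V) ∧
      (∀ σ, c (α * σ * α⁻¹) = e • c σ) ∧
      (fun σ => (p (c σ) : Au Ω → Λ)) ∈ P2 (U : Set (Au Ω → Λ)) W := by
    intro c hc
    induction hc using Submodule.span_induction with
    | mem c hc =>
      obtain ⟨χ, hχ, ψ, hψ, rfl⟩ := hc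
      refine ⟨fun σ => V.smul_mem (χ σ) hψ, fun σ => ?_,
        Submodule.subset_span ⟨χ, hχ, p ψ, (p ψ).2, ?_⟩⟩
      · funext τ
        change χ (α * σ * α⁻¹) * ψ τ = e * (χ σ * ψ τ)
        rw [hU χ hχ σ, mul_assoc]
      · funext σ
        exact congrArg Subtype.val (map_smul p (χ σ) ψ)
    | zero =>
      refine ⟨fun _ => V.zero_mem, fun _ => by simp, ?_⟩
      simp only [Pi.zero_apply, map_zero]
      exact (P2 (U : Set (Au Ω → Λ)) W).zero_mem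
    | add c c' _ _ ih ih' =>
      refine ⟨fun σ => V.add_mem (ih.1 σ) (ih'.1 σ), fun σ => ?_, ?_⟩
      · simp only [Pi.add_apply, ih.2.1 σ, ih'.2.1 σ, smul_add]
      · simp only [Pi.add_apply, map_add]
        exact (P2 (U : Set (Au Ω → Λ)) W).add_mem ih.2.2 ih'.2.2
    | smul a c _ ih =>
      refine ⟨fun σ => V.smul_mem a (ih.1 σ), fun σ => ?_, ?_⟩
      · simp only [Pi.smul_apply, ih.2.1 σ, smul_comm a e]
      · simp only [Pi.smul_apply, map_smul]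
        exact (P2 (U : Set (Au Ω → Λ)) W).smul_mem a ih.2.2
  obtain ⟨k1, k2, k3⟩ := key b hb
  have h2 : ∀ σ, b σ ∈ W := fun σ => ⟨k1 σ, fun τ => by
    have h3 : b (α * σ * α⁻¹) (α * τ * α⁻¹) = γ * b σ τ := congrFun (congrFun h σ) τ
    rw [k2, Pi.smul_apply, smul_eq_mul] at h3
    rw [div_mul_eq_mul_div, ← h3, mul_div_cancel_left₀ _ he]⟩
  have h4 : (fun σ => (p (b σ) : Au Ω → Λ)) = b := by
    funext σ
    exact congrArg Subtype.val (LinearMap.congr_fun hp ⟨b σ, h2 σ⟩)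
  rw [h4] at k3
  exact k3

variable [IsAlgClosed Ω] [CharP Ω 2] {r : ℕ} {D : Surf Ω (4 ^ r)} (G : Geo D)

omit [IsAlgClosed Ω] in
/-- `H1.cj`; `sw⁻¹ α sw α⁻¹` fixes the coordinates and the constants, `H1.cj_self` -/
theorem Geo.sw_eig {π : Λ} {χ : Au Ω → Λ} : (χ ∈ D.Eig 0 π → cj G.sw χ ∈ D.Eig 1 π) ∧
    (χ ∈ D.Eig 1 π → cj G.sw χ ∈ D.Eig 0 π) ∧ (cj G.sw χ = 0 → χ = 0) := by
  have hk : G.sw ∈ St (cst Ω) := by
    rw [← kk_eq]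
    exact fix_le_st _ G.sw_k
  have key : ∀ i j : Fin 4, (∀ x ∈ D.S i, D.α x = x ∧ D.α (G.sw x) = G.sw x) →
      (∀ x, G.sw x ∈ Subfield.closure (D.T j.castSucc) ↔ x ∈ Subfield.closure (D.T i.castSucc)) →
      χ ∈ D.Eig i π → X.cj G.sw χ ∈ D.Eig j π := by
    intro i j hS hc h
    rw [D.T_eq, D.T_eq] at hc
    refine ⟨h.1.cj hk hc, fun σ => ?_⟩
    have hg : D.α * G.sw⁻¹ * D.α⁻¹ * G.sw ∈ Gal (D.S i) := by
      rintro x (hx | hx)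
      · rw [← kk_eq] at hx
        have h1 : D.α⁻¹ x ∈ (kk Ω : Set Ω) := ((St _).inv_mem D.α_st x).2 hx
        simp only [au_mul]
        rw [G.sw_k x hx, (Fix _).inv_mem G.sw_k _ h1, au_inv, RingEquiv.apply_symm_apply]
      · have h1 : D.α⁻¹ (G.sw x) = G.sw x := D.α.symm_apply_eq.2 (hS x hx).2.symm
        simp only [au_mul]
        rw [h1, au_inv, RingEquiv.symm_apply_apply, (hS x hx).1]
    have h2 := congrFun (h.1.cj_self hg) (D.α * (G.sw⁻¹ * σ * G.sw) * D.α⁻¹)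
    rw [h.2] at h2
    simp only [X.cj] at h2 ⊢
    rw [← h2]
    congr 1
    group
  have fx : ∀ z, z = D.x₁ ∨ z = D.y₁ ∨ z = D.x₂ ∨ z = D.y₂ → D.α z = z := by
    rintro z (rfl | rfl | rfl | rfl) <;> exact D.fix _ (by simp)
  refine ⟨key 0 1 ?_ G.sw_cl.1, key 1 0 ?_ G.sw_cl.2, fun h => ?_⟩
  · rintro x (rfl | rfl)
    · rw [G.sw_x.1]
      exact ⟨fx _ (by simp), fx _ (by simp)⟩
    · rw [G.sw_y.1]
      exact ⟨fx _ (by simp), fx _ (by simp)⟩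
  · rintro x (rfl | rfl)
    · rw [G.sw_x.2]
      exact ⟨fx _ (by simp), fx _ (by simp)⟩
    · rw [G.sw_y.2]
      exact ⟨fx _ (by simp), fx _ (by simp)⟩
  · funext σ
    have h1 := congrFun h (G.sw * σ * G.sw⁻¹)
    simp only [X.cj] at h1
    rw [show G.sw⁻¹ * (G.sw * σ * G.sw⁻¹) * G.sw = σ by group] at h1
    exact h1

include G in
/-- `mainL`, `proj_eigen`, `p2_eigen`, `kerL`; if `b = 0` then `a = 0`, which contradicts the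
independence of eigenvectors -/
theorem Geo.pair {ℓ : ℕ} [Fact ℓ.Prime] [NormedAlgebra ℚ_[ℓ] Λ] [FiniteDimensional ℚ_[ℓ] Λ]
    (hr : 0 < r) (hℓ : ℓ ≠ 2) {l n : Λ} (hln : l ≠ n)
    (hγ : ∀ m, 0 < m → (l * n) ^ m ≠ ((4 : Λ) ^ r) ^ m) (hl : ∃ χ ∈ D.Eig 0 l, χ ≠ 0)
    (hn : ∃ χ ∈ D.Eig 0 n, χ ≠ 0) :
    ∃ a ∈ P2 (D.Eig 0 l) (D.Eig 1 n) ⊔ P2 (D.Eig 0 n) (D.Eig 1 l),
      ∃ b ∈ P2 (D.Eig 2 ((-2 : Λ) ^ r)) (D.Eig 3 (l * n / (-2) ^ r)),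
        b ≠ 0 ∧ a - b ∈ CobM (⋃ i, D.S i) := by
  have : CharZero Λ := charZero_of (ℓ := ℓ)
  obtain ⟨χ, hχ, hχ0⟩ := hl
  obtain ⟨ψ, hψ, hψ0⟩ := hn
  obtain ⟨n₁, n₂, hn₁, hm⟩ := G.mainL (Λ := Λ) hr hℓ
  have hχ' : X.cj G.sw ψ ∈ D.Eig 1 n := G.sw_eig.1 hψ
  have hχ'0 : X.cj G.sw ψ ≠ 0 := fun h => hψ0 ((G.sw_eig (π := n)).2.2 h)
  generalize X.cj G.sw ψ = χ' at hχ' hχ'0
  have h1 : X.cj G.sw χ' ∈ D.Eig 0 n := G.sw_eig.2.1 hχ'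
  have h2 : X.cj G.sw χ ∈ D.Eig 1 l := G.sw_eig.1 hχ
  obtain ⟨b₀, hb₀, hK⟩ := hm χ χ' hχ.1 hχ'.1 _ rfl
  generalize X.cj G.sw χ' = φ at h1 hK
  generalize X.cj G.sw χ = φ' at h2 hK
  have ea : (fun σ τ => n₁ * (χ σ * χ' τ) - n₂ * (φ σ * φ' τ) : Au Ω → Au Ω → Λ) =
      (n₁ : Λ) • (fun σ τ => χ σ * χ' τ) - (n₂ : Λ) • fun σ τ => φ σ * φ' τ := rfl
  have hF : F2 Λ D.α (fun σ τ => n₁ * (χ σ * χ' τ) - n₂ * (φ σ * φ' τ)) =
      (l * n) • fun σ τ => n₁ * (χ σ * χ' τ) - n₂ * (φ σ * φ' τ) := by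
    funext σ τ
    simp only [F2, LinearMap.coe_mk, AddHom.coe_mk, hχ.2 σ, hχ'.2 τ, h1.2 σ, h2.2 τ,
      Pi.smul_apply, smul_eq_mul]
    ring
  have hne : (fun σ τ => n₁ * (χ σ * χ' τ) - n₂ * (φ σ * φ' τ) : Au Ω → Au Ω → Λ) ≠ 0 := by
    intro h0
    obtain ⟨σ, hσ⟩ := Function.ne_iff.1 hχ0
    obtain ⟨τ, hτ⟩ := Function.ne_iff.1 hχ'0
    have e1 : n₁ * (χ σ * χ' τ) - n₂ * (φ σ * φ' τ) = 0 := congrFun (congrFun h0 σ) τ
    have e2 : n₁ * (χ (D.α * σ * D.α⁻¹) * χ' τ) - n₂ * (φ (D.α * σ * D.α⁻¹) * φ' τ) = 0 :=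
      congrFun (congrFun h0 _) τ
    rw [hχ.2, h1.2] at e2
    have e3 : (l - n) * (n₁ * (χ σ * χ' τ)) = 0 := by linear_combination e2 - n * e1
    exact mul_ne_zero (sub_ne_zero.2 hln)
      (mul_ne_zero (Nat.cast_ne_zero.2 hn₁.ne') (mul_ne_zero hσ hτ)) e3
  have hα : ∀ S : Set Ω, D.α ∈ Fix S → D.α ∈ St (cst Ω ∪ S) := by
    intro S hS x
    have h3 := D.α_st x
    rw [kk_eq] at h3
    exact or_congr h3 (fix_le_st _ hS x)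
  have hfix : D.α ∈ Fix (⋃ i, D.S i) := by
    intro x hx
    obtain ⟨i, hi⟩ := Set.mem_iUnion.1 hx
    refine D.fix x ?_
    fin_cases i <;> rcases hi with rfl | rfl <;> simp
  have hH : ∀ (i : Fin 4) (κ : Au Ω → Λ), H1 (D.S i) κ →
      H1 (D.S i) fun σ => κ (D.α * σ * D.α⁻¹) := by
    intro i κ hκ
    have h3 : D.α⁻¹ ∈ St (cst Ω) := by
      rw [← kk_eq]
      exact (St _).inv_mem D.α_st
    exact hκ.cj h3 (st_closure ((St _).inv_mem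
      (hα _ (fix_anti (Set.subset_iUnion D.S i) hfix))))
  obtain ⟨b, hb, hFb, hab⟩ := proj_eigen (F2 Λ D.α) (K := CobM (⋃ i, D.S i))
    (P := P2 {χ | H1 (D.S 2) χ} {χ | H1 (D.S 3) χ}) (fun x hx => cobM_F2 hx (hα _ hfix))
    (fun x hx => by
      refine Submodule.mem_comap.1 (Submodule.span_le.2 ?_ hx)
      rintro _ ⟨κ, hκ, κ', hκ', rfl⟩
      exact Submodule.subset_span ⟨_, hH 2 κ hκ, _, hH 3 κ' hκ', rfl⟩)
    hγ (fun x hx hx' => G.kerL hr hℓ (Or.inr ⟨rfl, rfl⟩) hx hx') hF hb₀ hK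
  have hb' := p2_eigen (U := H1M Λ (D.S 2)) (V := H1M Λ (D.S 3)) (e := (-2 : Λ) ^ r)
    (pow_ne_zero _ (by norm_num)) (fun κ hκ => (G.h1_frob hℓ hκ).2) hb hFb
  refine ⟨_, ?_, b, Submodule.span_mono ?_ hb', fun h0 => hne ?_, hab⟩
  · rw [ea]
    exact sub_mem (Submodule.mem_sup_left (Submodule.smul_mem _ _
        (Submodule.subset_span ⟨χ, hχ, χ', hχ', rfl⟩)))
      (Submodule.mem_sup_right (Submodule.smul_mem _ _
        (Submodule.subset_span ⟨φ, h1, φ', h2, rfl⟩)))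
  · rintro _ ⟨κ, hκ, κ', hκ', rfl⟩
    exact ⟨κ, G.h1_frob hℓ hκ, κ', hκ', rfl⟩
  · rw [h0, sub_zero] at hab
    obtain ⟨m, hm0, e⟩ := G.kerL hr hℓ (Or.inl ⟨rfl, rfl⟩) (by
      rw [ea]
      exact sub_mem (Submodule.smul_mem _ _ (Submodule.subset_span ⟨χ, hχ.1, χ', hχ'.1, rfl⟩))
        (Submodule.smul_mem _ _ (Submodule.subset_span ⟨φ, h1.1, φ', h2.1, rfl⟩))) hab
    generalize (fun σ τ => n₁ * (χ σ * χ' τ) - n₂ * (φ σ * φ' τ) : Au Ω → Au Ω → Λ) = a at hF e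
    have ep : ∀ k, (F2 Λ D.α ^ k) a = (l * n) ^ k • a := by
      intro k
      induction k with
      | zero => simp
      | succ k ih => rw [pow_succ, Module.End.mul_apply, hF, map_smul, ih, smul_smul, pow_succ']
    rw [ep, ← sub_eq_zero, ← sub_smul] at e
    exact (smul_eq_zero.1 e).resolve_left (sub_ne_zero.2 (hγ m hm0))

end Pool.Agent.P.MP_ee618e_ag.X
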