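import Pool.Agent.P.MP_ee618e_ag.X.LA1

/-! LA2: all Tate tensors are in `Gen`. -/

namespace Pool.Agent.P.MP_ee618e_ag.X

open IsDedekindDomain Polynomial
open scoped Classical

variable {I Λ : Type} [Field Λ] {φ : I → I} {U : Fin 4 → Set (I → Λ)}
  {Coh : Ten (Fin 2) I Λ → Ten (Fin 2) I Λ → Prop} {e A B : Λ}

/-- the eigenvalue with label `x` -/
def lab (e A B : Λ) (x : SignType × SignType) : Λ := e * A ^ (x.1 : ℤ) * B ^ (x.2 : ℤ)

theorem la2_prod (hA : A ≠ 0) (hB : B ≠ 0) {J : Type} (x : J → SignType × SignType)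
    (s : Finset J) : ∏ j ∈ s, lab e A B (x j) =
      e ^ s.card * A ^ (∑ j ∈ s, ((x j).1 : ℤ)) * B ^ (∑ j ∈ s, ((x j).2 : ℤ)) := by
  induction s using Finset.induction_on with
  | empty => simp
  | insert a s ha ih =>
    rw [Finset.prod_insert ha, Finset.sum_insert ha, Finset.sum_insert ha,
      Finset.card_insert_of_notMem ha, ih, zpow_add₀ hA, zpow_add₀ hB, lab]
    ring

theorem la2_neg (hA : A ≠ 0) (hB : B ≠ 0) (x : SignType × SignType) :
    lab e A B x * lab e A B (-x) = e ^ 2 := by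
  simp only [lab, Prod.fst_neg, Prod.snd_neg, SignType.coe_neg, zpow_neg]
  have h1 := zpow_ne_zero (x.1 : ℤ) hA
  have h2 := zpow_ne_zero (x.2 : ℤ) hB
  field_simp

theorem la2_iter {u : I → Λ} {π : Λ} (h : ∀ z, u (φ z) = π * u z) (m : ℕ) (z : I) :
    u (φ^[m] z) = π ^ m * u z := by
  induction m with
  | zero => simp
  | succ m ih =>
    rw [Function.iterate_succ_apply', h, ih]
    ring

theorem la2_pure {J : Type} [Fintype J] {V : J → Set (I → Λ)} {u : J → I → Λ}
    (h : ∀ j, u j ∈ V j) : pure u ∈ tens V := Submodule.subset_span ⟨u, h, rfl⟩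

/-- `frob` as a linear map -/
def la2F (Λ : Type) [Field Λ] (ψ : I → I) (J : Type) : Module.End Λ (Ten J I Λ) where
  toFun := frob ψ
  map_add' _ _ := rfl
  map_smul' _ _ := rfl

theorem la2_frob {J : Type} [Fintype J] {π : J → Λ} {t : Ten J I Λ}
    (ht : t ∈ tens fun j => Ev φ U (π j)) (m : ℕ) : frob φ^[m] t = (∏ j, π j) ^ m • t := by
  have h : (tens fun j => Ev φ U (π j)) ≤ (la2F Λ φ^[m] J).eigenspace ((∏ j, π j) ^ m) := by
    refine Submodule.span_le.2 ?_
    rintro _ ⟨u, hu, rfl⟩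
    refine Module.End.mem_eigenspace_iff.2 (funext fun z => ?_)
    change ∏ j, u j (φ^[m] (z j)) = (∏ j, π j) ^ m * ∏ j, u j (z j)
    rw [← Finset.prod_pow, ← Finset.prod_mul_distrib]
    exact Finset.prod_congr rfl fun j _ => la2_iter (hu j).2 m _
  exact Module.End.mem_eigenspace_iff.1 (h ht)

theorem la2_alg {q : Λ} {J : Type} [Fintype J] {π : J → Λ} (h : Good φ q U Coh π) {t : Ten J I Λ}
    (ht : t ∈ tens fun j => Ev φ U (π j)) : Gen φ q U Coh J t := by
  refine alg_span ?_ ht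
  rintro _ ⟨u, hu, rfl⟩
  exact h u hu

theorem la2_tmul {J J' : Type} [Fintype J] [Fintype J'] {X : Type} (V : X → Set (I → Λ))
    {x : J → X} {x' : J' → X} {t : Ten J I Λ} {t' : Ten J' I Λ} (ht : t ∈ tens fun j => V (x j))
    (ht' : t' ∈ tens fun j => V (x' j)) : tmul t t' ∈ tens fun j => V (Sum.elim x x' j) := by
  induction ht using Submodule.span_induction with
  | zero =>
    rw [show tmul 0 t' = (0 : Ten (J ⊕ J') I Λ) from funext fun z => zero_mul _]
    exact Submodule.zero_mem _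
  | add a b _ _ ha hb =>
    rw [show tmul (a + b) t' = tmul a t' + tmul b t' from funext fun z => add_mul _ _ _]
    exact Submodule.add_mem _ ha hb
  | smul c a _ ha =>
    rw [show tmul (c • a) t' = c • tmul a t' from funext fun z => mul_assoc _ _ _]
    exact Submodule.smul_mem _ _ ha
  | mem a ha =>
    induction ht' using Submodule.span_induction with
    | zero =>
      rw [show tmul a 0 = (0 : Ten (J ⊕ J') I Λ) from funext fun z => mul_zero _]
      exact Submodule.zero_mem _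
    | add b b' _ _ hb hb' =>
      rw [show tmul a (b + b') = tmul a b + tmul a b' from funext fun z => mul_add _ _ _]
      exact Submodule.add_mem _ hb hb'
    | smul c b _ hb =>
      rw [show tmul a (c • b) = c • tmul a b from funext fun z => mul_left_comm _ _ _]
      exact Submodule.smul_mem _ _ hb
    | mem b hb =>
      obtain ⟨u, hu, rfl⟩ := ha
      obtain ⟨v, hv, rfl⟩ := hb
      refine Submodule.subset_span ⟨Sum.elim u v, ?_, funext fun z => ?_⟩
      · rintro (j | j)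
        exacts [hu j, hv j]
      · rw [Fintype.prod_sum_type]
        rfl

theorem la2_perm {J J' : Type} [Fintype J] [Fintype J'] (g : J ≃ J') {V : J → Set (I → Λ)}
    {t : Ten J I Λ} (ht : t ∈ tens V) : (fun z => t (z ∘ g)) ∈ tens fun j => V (g.symm j) := by
  induction ht using Submodule.span_induction with
  | zero => exact Submodule.zero_mem _
  | add a b _ _ ha hb => exact Submodule.add_mem _ ha hb
  | smul c a _ ha => exact Submodule.smul_mem _ c ha
  | mem a ha =>
    obtain ⟨u, hu, rfl⟩ := ha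
    refine Submodule.subset_span ⟨fun j => u (g.symm j), fun j => hu _, funext fun z => ?_⟩
    exact Fintype.prod_equiv g _ _ fun j => by simp

/-- the Kronecker symbol -/
noncomputable def la2d {X : Type} (x y : X) : ℕ := if x = y then 1 else 0

/-- the number of indices with a given label -/
noncomputable def la2c {J X : Type} [Fintype J] (x : J → X) (y : X) : ℕ := ∑ j, la2d (x j) y

theorem la2c_elim {J J' X : Type} [Fintype J] [Fintype J'] (x : J → X) (x' : J' → X) :
    la2c (Sum.elim x x') = la2c x + la2c x' :=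
  funext fun _ => Fintype.sum_sum_type _

theorem la2c_equiv {J J' X : Type} [Fintype J] [Fintype J'] {x : J → X} {x' : J' → X}
    (h : la2c x' = la2c x) : ∃ g : J' ≃ J, ∀ j, x (g j) = x' j := by
  have h1 : ∀ y, Fintype.card {j // x' j = y} = Fintype.card {j // x j = y} := fun y => by
    rw [Fintype.card_subtype, Fintype.card_subtype, Finset.card_filter, Finset.card_filter]
    exact congrFun h y
  exact ⟨Equiv.ofFiberEquiv fun y => Fintype.equivOfCardEq (h1 y),
    fun j => Equiv.ofFiberEquiv_map _ j⟩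

theorem la2c_sum {J X : Type} [Fintype J] [Fintype X] (x : J → X) (f : X → ℤ) :
    ∑ j, f (x j) = ∑ y, (la2c x y : ℤ) * f y := by
  simp only [la2c, la2d, Nat.cast_sum, Finset.sum_mul]
  rw [Finset.sum_comm]
  simp

variable (φ U Coh e A B) in
/-- `Good` for all families of labels with given multiplicities -/
def la2G (n : SignType × SignType → ℕ) : Prop :=
  ∀ (J : Type) [Fintype J] (x : J → SignType × SignType), la2c x = n →
    Good φ (e ^ 2) U Coh fun j => lab e A B (x j)

theorem la2G_of {J : Type} [Fintype J] {x : J → SignType × SignType}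
    (h : Good φ (e ^ 2) U Coh fun j => lab e A B (x j)) : la2G φ U Coh e A B (la2c x) := by
  intro J' _ x' h'
  obtain ⟨g, hg⟩ := la2c_equiv h'
  have h1 := h.perm g
  simpa only [Function.comp_def, hg] using h1

theorem la2c_ex (n : SignType × SignType → ℕ) :
    la2c (Sigma.fst : (Σ y, Fin (n y)) → _) = n := by
  funext y
  rw [la2c, Fintype.sum_sigma, Finset.sum_eq_single y] <;> simp +contextual [la2d]

theorem la2_elim {J J' : Type} (x : J → SignType × SignType) (x' : J' → SignType × SignType) :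
    (Sum.elim (fun j => lab e A B (x j)) fun j => lab e A B (x' j)) =
      fun j => lab e A B (Sum.elim x x' j) := by
  funext j
  cases j <;> rfl

theorem la2G_add {n m : SignType × SignType → ℕ} (h : la2G φ U Coh e A B n)
    (h' : la2G φ U Coh e A B m) : la2G φ U Coh e A B (n + m) := by
  have h1 := (h _ _ (la2c_ex n)).mul (h' _ _ (la2c_ex m))
  rw [la2_elim] at h1
  have h2 := la2G_of h1
  rwa [la2c_elim, la2c_ex, la2c_ex] at h2

theorem la2G_smul {n : SignType × SignType → ℕ} (h : la2G φ U Coh e A B n) (k : ℕ) :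
    la2G φ U Coh e A B (k • n) := by
  induction k with
  | zero =>
    have h1 := la2G_of (φ := φ) (U := U) (Coh := Coh) (e := e) (A := A) (B := B)
      (x := (Empty.elim : Empty → _)) (good_empty _)
    convert h1 using 1
    funext y
    simp [la2c]
  | succ k ih =>
    rw [succ_nsmul]
    exact la2G_add ih h

theorem la2_two {X Y : Type} (f : X → Y) (a b : X) : ![f a, f b] = fun j => f (![a, b] j) := by
  funext j
  fin_cases j <;> rfl

theorem la2_four {X Y : Type} (f : X → Y) (a b c d : X) :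
    ![f a, f b, f c, f d] = fun j => f (![a, b, c, d] j) := by
  funext j
  fin_cases j <;> rfl

theorem la2G_pair (hA : A ≠ 0) (hB : B ≠ 0) (x : SignType × SignType) :
    la2G φ U Coh e A B (la2c ![x, -x]) :=
  la2G_of (la2_two (lab e A B) x (-x) ▸ good_pair (la2_neg hA hB x))

theorem la2G_cancel (hA : A ≠ 0) (hB : B ≠ 0)
    (hU : ∀ u ∈ ⋃ i, U i, ∃ x, ∀ z, u (φ z) = lab e A B x * u z)
    (hex : ∀ x, ∃ u ∈ Ev φ U (lab e A B x), u ≠ 0) (y : SignType × SignType) (k : ℕ)
    {n : SignType × SignType → ℕ} (h : la2G φ U Coh e A B (k • la2c ![y, -y] + n)) :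
    la2G φ U Coh e A B n := by
  induction k with
  | zero => simpa using h
  | succ k ih =>
    refine ih fun J _ x hx => ?_
    refine Good.cancel (fun u hu => (hU u hu).elim fun x hx => ⟨_, hx⟩) (la2_neg hA hB y) (hex _)
      (hex _) ?_
    rw [la2_two (lab e A B), la2_elim]
    refine h _ _ ?_
    rw [la2c_elim, hx, succ_nsmul', add_assoc]

theorem la2_ne (hA : A ≠ 0) (hB : B ≠ 0)
    (hU : ∀ u ∈ ⋃ i, U i, ∃ x, ∀ z, u (φ z) = lab e A B x * u z)
    (hex : ∀ x, ∃ u ∈ Ev φ U (lab e A B x), u ≠ 0) {J : Type} [Fintype J]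
    {x : J → SignType × SignType} {t : Ten J I Λ} (ht : t ∈ tens fun j => Ev φ U (lab e A B (x j)))
    (h0 : t ≠ 0) (h : Gen φ (e ^ 2) U Coh J t) :
    Good φ (e ^ 2) U Coh fun j => lab e A B (x j) := by
  obtain ⟨n, ⟨g⟩⟩ := Finite.exists_equiv_fin J
  obtain ⟨z, hz⟩ := Function.ne_iff.1 h0
  have h1 : (fun w => t (w ∘ g)) ≠ (0 : Ten (Fin n) I Λ) := fun h => hz (by
    have h1 := congrFun h (z ∘ g.symm)
    rwa [Function.comp_assoc, Equiv.symm_comp_self, Function.comp_id] at h1)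
  have h4 := la2_perm g ht
  have h5 := h.perm g
  have h2 : Good φ (e ^ 2) U Coh fun k => lab e A B (x (g.symm k)) :=
    good_of_ne (fun u hu => (hU u hu).elim fun x hx => ⟨_, hx⟩)
      (π' := fun k => lab e A B (-x (g.symm k))) (fun k => la2_neg hA hB _) (fun k => hex _)
      h4 h1 h5
  have h3 := h2.perm g
  simpa only [Function.comp_def, Equiv.symm_apply_apply] using h3

/-- `Gen.surf` with `c = u ⊗ u'` of labels `(-i, 0)`, `(0, -j)`; `good_of_ne` -/
theorem good_base (hA : A ≠ 0) (hB : B ≠ 0)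
    (hU : ∀ u ∈ ⋃ i, U i, ∃ x, ∀ z, u (φ z) = lab e A B x * u z)
    (hex : ∀ x, ∃ u ∈ Ev φ U (lab e A B x), u ≠ 0) {i j : SignType} {a b : Ten (Fin 2) I Λ}
    (ha : a ∈ tens ![U 0, U 1]) (hb : b ∈ tens ![U 2, U 3]) (hab : Coh a b) (h0 : b ≠ 0)
    (ha' : a ∈ tens ![Ev φ U (lab e A B (i, 0)), Ev φ U (lab e A B (0, j))] ⊔
      tens ![Ev φ U (lab e A B (0, j)), Ev φ U (lab e A B (i, 0))])
    (hb' : b ∈ tens ![Ev φ U (lab e A B (0, 0)), Ev φ U (lab e A B (i, j))]) :
    Good φ (e ^ 2) U Coh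
      ![lab e A B (0, 0), lab e A B (i, j), lab e A B (-i, 0), lab e A B (0, -j)] := by
  obtain ⟨u, hu, hu0⟩ := hex (-i, 0)
  obtain ⟨v, hv, hv0⟩ := hex (0, -j)
  rw [la2_two fun x => Ev φ U (lab e A B x)] at hb'
  rw [la2_two fun x => Ev φ U (lab e A B x), la2_two fun x => Ev φ U (lab e A B x)] at ha'
  have hc : pure ![u, v] ∈ tens fun k => Ev φ U (lab e A B (![(-i, 0), (0, -j)] k)) :=
    la2_pure fun k => by
      fin_cases k
      exacts [hu, hv]
  have hc' : pure ![u, v] ∈ tens fun _ => ⋃ i, U i :=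
    la2_pure fun k => by
      fin_cases k
      exacts [hu.1, hv.1]
  have hbc := la2_tmul (fun x => Ev φ U (lab e A B x)) hb' hc
  have hp : la2G φ U Coh e A B _ := la2G_add (la2G_pair hA hB (i, 0)) (la2G_pair hA hB (0, j))
  have h1 : Gen φ (e ^ 2) U Coh _ (tmul b (pure ![u, v])) := by
    refine Gen.surf ha hb hc' hab ⟨1, one_pos, ?_⟩ ?_
    · rw [la2_frob hbc, la2_prod hA hB]
      simp [← pow_mul]
    · obtain ⟨a1, h1, a2, h2, rfl⟩ := Submodule.mem_sup.1 ha'
      rw [show tmul (a1 + a2) (pure ![u, v]) = tmul a1 (pure ![u, v]) + tmul a2 (pure ![u, v]) from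
        funext fun z => add_mul _ _ _]
      refine Gen.add (la2_alg (hp _ _ ?_) (la2_tmul (fun x => Ev φ U (lab e A B x)) h1 hc))
        (la2_alg (hp _ _ ?_) (la2_tmul (fun x => Ev φ U (lab e A B x)) h2 hc))
      all_goals
        rw [la2c_elim]
        funext y
        simp only [la2c, Pi.add_apply, Fin.sum_univ_two, Matrix.cons_val_zero,
          Matrix.cons_val_one, Prod.neg_mk, neg_zero]
        ring
  obtain ⟨z, hz⟩ := Function.ne_iff.1 h0
  obtain ⟨p, hp⟩ := Function.ne_iff.1 hu0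
  obtain ⟨r, hr⟩ := Function.ne_iff.1 hv0
  have h2 := la2_ne hA hB hU hex hbc (fun h => by
      have h3 := congrFun h (Sum.elim z ![p, r])
      simp only [tmul, Sum.elim_comp_inl, Sum.elim_comp_inr, pure, Fin.prod_univ_two,
        Matrix.cons_val_zero, Matrix.cons_val_one, Pi.zero_apply] at h3
      exact mul_ne_zero hz (mul_ne_zero hp hr) h3) h1
  rw [la2_four (lab e A B)]
  refine la2G_of h2 _ _ ?_
  rw [la2c_elim]
  funext y
  simp only [la2c, Pi.add_apply, Fin.sum_univ_two, Fin.sum_univ_four, Matrix.cons_val_zero,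
    Matrix.cons_val_one, Matrix.cons_val]
  ring

/-- Induction on the number of labels `(i, j)` with `i, j ≠ 0` (replace such a label by `(i, 0)`,
`(0, j)`, `(0, 0)`, multiply by the base case, cancel three pairs), then on the length (remove a
pair `x`, `-x`). It may be convenient to work with multisets of labels. -/
theorem good_all (hA : A ≠ 0) (hB : B ≠ 0)
    (hU : ∀ u ∈ ⋃ i, U i, ∃ x, ∀ z, u (φ z) = lab e A B x * u z)
    (hex : ∀ x, ∃ u ∈ Ev φ U (lab e A B x), u ≠ 0)
    (base : ∀ i j : SignType, i ≠ 0 → j ≠ 0 → Good φ (e ^ 2) U Coh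
      ![lab e A B (0, 0), lab e A B (i, j), lab e A B (-i, 0), lab e A B (0, -j)])
    {J : Type} [Fintype J] (x : J → SignType × SignType) (hJ : Even (Fintype.card J))
    (h1 : ∑ j, ((x j).1 : ℤ) = 0) (h2 : ∑ j, ((x j).2 : ℤ) = 0) :
    Good φ (e ^ 2) U Coh fun j => lab e A B (x j) := by
  have hb : ∀ i j : SignType, i ≠ 0 → j ≠ 0 →
      la2G φ U Coh e A B (la2c ![(0, 0), (i, j), (-i, 0), (0, -j)]) := fun i j hi hj =>
    la2G_of (la2_four (lab e A B) _ _ _ _ ▸ base i j hi hj)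
  have h0 := la2c_sum x fun _ => 1
  rw [la2c_sum x fun y => (y.1 : ℤ)] at h1
  rw [la2c_sum x fun y => (y.2 : ℤ)] at h2
  refine (?_ : la2G φ U Coh e A B (la2c x)) _ _ rfl
  generalize la2c x = n at h0 h1 h2
  obtain ⟨c, hc⟩ := hJ
  simp [Fintype.sum_prod_type, SignType.univ_eq, hc] at h0 h1 h2
  obtain ⟨T, hT⟩ : ∃ T, T = n (1, 1) + n (1, -1) + n (-1, 1) + n (-1, -1) := ⟨_, rfl⟩
  refine la2G_cancel hA hB hU hex (0, 0) T (la2G_cancel hA hB hU hex (0, 1) T
    (la2G_cancel hA hB hU hex (1, 0) T ?_))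
  have h3 := la2G_add (la2G_add (la2G_add (la2G_add (la2G_add (la2G_add
    (la2G_smul (hb 1 1 (by decide) (by decide)) (n (1, 1)))
    (la2G_smul (hb 1 (-1) (by decide) (by decide)) (n (1, -1))))
    (la2G_smul (hb (-1) 1 (by decide) (by decide)) (n (-1, 1))))
    (la2G_smul (hb (-1) (-1) (by decide) (by decide)) (n (-1, -1))))
    (la2G_smul (la2G_pair hA hB (1, 0)) (n (1, 0) + n (1, 1) + n (1, -1))))
    (la2G_smul (la2G_pair hA hB (0, 1)) (n (0, 1) + n (1, 1) + n (-1, 1))))
    (la2G_smul (la2G_pair hA hB (0, 0)) ((n (0, 0) + T) / 2))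
  convert h3 using 1
  funext ⟨a, b⟩
  rcases SignType.trichotomy a with rfl | rfl | rfl <;>
  rcases SignType.trichotomy b with rfl | rfl | rfl <;>
  simp [la2c, la2d, Fin.sum_univ_four, Fin.sum_univ_two] <;> omega

/-- Write `t = t₀ + t₁` where `t₀` is in the span of the pure tensors whose labels have sum zero
and `t₁` in the span of the others, which are eigenvectors of `frob φ^[m]` with eigenvalues
`≠ (e ^ 2) ^ (n m)`; so `t₁ = 0`. -/
theorem tate_alg (he : e ≠ 0) (hA : A ≠ 0) (hB : B ≠ 0)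
    (ind : ∀ i j : ℤ, A ^ i * B ^ j = 1 → i = 0 ∧ j = 0)
    (hU : ∀ u ∈ ⋃ i, U i, ∃ x, ∀ z, u (φ z) = lab e A B x * u z)
    (hex : ∀ x, ∃ u ∈ Ev φ U (lab e A B x), u ≠ 0)
    (base : ∀ i j : SignType, i ≠ 0 → j ≠ 0 → Good φ (e ^ 2) U Coh
      ![lab e A B (0, 0), lab e A B (i, j), lab e A B (-i, 0), lab e A B (0, -j)])
    (n : ℕ) (t : Ten (Fin (2 * n)) I Λ) (ht : t ∈ tens fun _ => ⋃ i, U i)
    (h : Tate φ (e ^ 2) n t) : Gen φ (e ^ 2) U Coh _ t := by
  obtain ⟨m, hm, h⟩ := h
  let F := la2F Λ φ^[m] (Fin (2 * n)) (I := I)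
  let S : Set (Ten (Fin (2 * n)) I Λ) :=
    {s | s ∈ F.eigenspace ((e ^ 2) ^ (n * m)) ∧ Gen φ (e ^ 2) U Coh _ s}
  have h1 : (tens fun _ => ⋃ i, U i) ≤
      Submodule.span Λ S ⊔ ⨆ μ ≠ (e ^ 2) ^ (n * m), F.eigenspace μ := by
    refine Submodule.span_le.2 ?_
    rintro _ ⟨u, hu, rfl⟩
    choose x hx using fun j => hU _ (hu j)
    have h2 : ∀ j, u j ∈ Ev φ U (lab e A B (x j)) := fun j => ⟨hu j, hx j⟩
    have h3 : pure u ∈ F.eigenspace _ :=
      Module.End.mem_eigenspace_iff.2 (la2_frob (la2_pure h2) m)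
    by_cases h4 : (∏ j, lab e A B (x j)) ^ m = (e ^ 2) ^ (n * m)
    · refine Submodule.mem_sup_left (Submodule.subset_span ⟨h4 ▸ h3, ?_⟩)
      rw [la2_prod hA hB, Finset.card_univ, Fintype.card_fin, mul_assoc, mul_pow, ← pow_mul,
        ← pow_mul, mul_assoc, mul_eq_left₀ (pow_ne_zero _ he), mul_pow, ← zpow_natCast,
        ← zpow_natCast, ← zpow_mul, ← zpow_mul] at h4
      have h5 : (m : ℤ) ≠ 0 := by omega
      obtain ⟨h6, h7⟩ := ind _ _ h4
      exact good_all hA hB hU hex base x (by simp) ((mul_eq_zero_iff_right h5).1 h6)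
        ((mul_eq_zero_iff_right h5).1 h7) u h2
    · exact Submodule.mem_sup_right (Submodule.mem_iSup_of_mem _ (Submodule.mem_iSup_of_mem h4 h3))
  obtain ⟨t0, h0, t1, h2, rfl⟩ := Submodule.mem_sup.1 (h1 ht)
  have h3 : t0 ∈ F.eigenspace ((e ^ 2) ^ (n * m)) :=
    Submodule.span_le.2 (fun s hs => hs.1) h0
  have h4 : t0 + t1 ∈ F.eigenspace ((e ^ 2) ^ (n * m)) := Module.End.mem_eigenspace_iff.2 h
  rw [Submodule.disjoint_def.1 (F.eigenspaces_iSupIndep _) t1
    ((Submodule.add_mem_iff_right _ h3).1 h4) h2, add_zero]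
  exact alg_span (fun s hs => hs.2) h0

end Pool.Agent.P.MP_ee618e_ag.X
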