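import Pool.Agent.P.MP_ee618e_ag.X.FIN1
import Pool.Agent.P.MP_ee618e_ag.X.LA2

/-! FIN2: the main theorem. -/

namespace Pool.Agent.P.MP_ee618e_ag.X

open IsDedekindDomain Polynomial
open scoped Classical

section

variable {Ω : Type} [Field Ω] {Λ : Type} [NormedField Λ]

/-- the embedding of the summand number `i` -/
def emb (i : Fin 4) (χ : Au Ω → Λ) : Fin 4 × Au Ω → Λ := fun z => if z.1 = i then χ z.2 else 0

/-- functions of two variables as tensors -/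
def emb2 (i j : Fin 4) : (Au Ω → Au Ω → Λ) →ₗ[Λ] Ten (Fin 2) (Fin 4 × Au Ω) Λ where
  toFun c := fun z => if (z 0).1 = i ∧ (z 1).1 = j then c (z 0).2 (z 1).2 else 0
  map_add' a b := by
    funext z
    by_cases h : (z 0).1 = i ∧ (z 1).1 = j <;> simp [h]
  map_smul' a b := by
    funext z
    by_cases h : (z 0).1 = i ∧ (z 1).1 = j <;> simp [h]

theorem emb2_mem {i j : Fin 4} {U V : Set (Au Ω → Λ)} {U' V' : Set (Fin 4 × Au Ω → Λ)}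
    (hU : ∀ χ ∈ U, emb i χ ∈ U') (hV : ∀ χ ∈ V, emb j χ ∈ V') {c : Au Ω → Au Ω → Λ}
    (hc : c ∈ P2 U V) : emb2 i j c ∈ tens ![U', V'] := by
  have : P2 U V ≤ (tens ![U', V']).comap (emb2 i j) := by
    refine Submodule.span_le.2 ?_
    rintro _ ⟨χ, hχ, ψ, hψ, rfl⟩
    refine Submodule.subset_span ⟨![emb i χ, emb j ψ], ?_, ?_⟩
    · intro k
      fin_cases k
      · exact hU χ hχ
      · exact hV ψ hψ
    · funext z
      by_cases h0 : (z 0).1 = i <;> by_cases h1 : (z 1).1 = j <;> simp [emb2, emb, h0, h1]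
  exact this hc

theorem emb2_apply (i j : Fin 4) (c : Au Ω → Au Ω → Λ) (σ τ : Au Ω) :
    emb2 i j c ![(i, σ), (j, τ)] = c σ τ := by
  simp [emb2]

theorem emb2_ne {i j : Fin 4} {c : Au Ω → Au Ω → Λ} (h : c ≠ 0) : emb2 i j c ≠ 0 := by
  intro h0
  apply h
  funext σ τ
  rw [← emb2_apply i j c σ τ, h0]
  rfl

theorem emb_ne {i : Fin 4} {χ : Au Ω → Λ} (h : χ ≠ 0) : emb i χ ≠ 0 := by
  intro h0
  apply h
  funext σ
  simpa [emb] using congrFun h0 (i, σ)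

theorem p2_ne {U V : Set (Au Ω → Λ)} {c : Au Ω → Au Ω → Λ} (hc : c ∈ P2 U V) (h0 : c ≠ 0) :
    (∃ χ ∈ U, χ ≠ 0) ∧ ∃ χ ∈ V, χ ≠ 0 := by
  by_contra h
  apply h0
  have : P2 U V ≤ ⊥ := by
    refine Submodule.span_le.2 ?_
    rintro _ ⟨χ, hχ, ψ, hψ, rfl⟩
    have : χ = 0 ∨ ψ = 0 := by
      by_contra h'
      push Not at h'
      exact h ⟨⟨χ, hχ, h'.1⟩, ψ, hψ, h'.2⟩
    rcases this with rfl | rfl
    · show _ = (0 : Au Ω → Au Ω → Λ)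
      funext σ τ
      simp
    · show _ = (0 : Au Ω → Au Ω → Λ)
      funext σ τ
      simp
  exact this hc

variable {q : ℕ} (D : Surf Ω q)

theorem emb_U {ev : Fin 4 → Set Λ} {i : Fin 4} {π : Λ} (hπ : π ∈ ev i) {χ : Au Ω → Λ}
    (h : χ ∈ D.Eig i π) : emb i χ ∈ D.U ev i := ⟨π, hπ, χ, h, rfl⟩

theorem emb_eig {i : Fin 4} {π : Λ} {χ : Au Ω → Λ} (h : χ ∈ D.Eig i π) (z : Fin 4 × Au Ω) :
    emb i χ (D.φ z) = π * emb i χ z := by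
  by_cases hz : z.1 = i
  · simp [emb, Surf.φ, hz, h.2]
  · simp [emb, Surf.φ, hz]

theorem emb_Ev {ev : Fin 4 → Set Λ} {i : Fin 4} {π : Λ} (hπ : π ∈ ev i) {χ : Au Ω → Λ}
    (h : χ ∈ D.Eig i π) : emb i χ ∈ Ev D.φ (D.U ev) π :=
  ⟨Set.mem_iUnion.2 ⟨i, emb_U D hπ h⟩, emb_eig D h⟩

theorem coh_emb {a b : Au Ω → Au Ω → Λ} (h : a - b ∈ CobM (⋃ i, D.S i)) :
    D.Coh (emb2 0 1 a) (emb2 2 3 b) := by
  obtain ⟨β, hβ, e⟩ := h
  refine ⟨β, hβ, fun σ hσ τ hτ => ?_⟩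
  rw [emb2_apply, emb2_apply]
  exact e σ hσ τ hτ

theorem of_coh {b : Au Ω → Au Ω → Λ} (h : D.Coh 0 (emb2 2 3 b)) : b ∈ CobM (⋃ i, D.S i) := by
  obtain ⟨β, hβ, e⟩ := h
  have : -b ∈ CobM (⋃ i, D.S i) := by
    refine ⟨β, hβ, fun σ hσ τ hτ => ?_⟩
    have := e σ hσ τ hτ
    rw [emb2_apply] at this
    simpa using this
  exact (Submodule.neg_mem_iff _).1 this

theorem p2_eig {i j : Fin 4} {π π' : Λ} {b : Au Ω → Au Ω → Λ}
    (hb : b ∈ P2 (D.Eig i π) (D.Eig j π')) :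
    b ∈ P2 {χ | H1 (D.S i) χ} {χ | H1 (D.S j) χ} ∧ F2 Λ D.α b = (π * π') • b := by
  induction hb using Submodule.span_induction with
  | mem x hx =>
    obtain ⟨χ, hχ, ψ, hψ, rfl⟩ := hx
    refine ⟨Submodule.subset_span ⟨χ, hχ.1, ψ, hψ.1, rfl⟩, ?_⟩
    funext σ τ
    simp only [F2, LinearMap.coe_mk, AddHom.coe_mk, Pi.smul_apply, smul_eq_mul, hχ.2, hψ.2]
    ring
  | zero => simp
  | add x y _ _ hx hy => exact ⟨Submodule.add_mem _ hx.1 hy.1, by rw [map_add, hx.2, hy.2, smul_add]⟩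
  | smul a x _ hx => exact ⟨Submodule.smul_mem _ a hx.1, by rw [map_smul, hx.2, smul_comm]⟩

end

section

variable {Λ : Type} [Field Λ] {π₁ π₂ e : Λ}

theorem lab_p0 (he : e ≠ 0) : lab e (π₁ / e) (π₂ / e) (1, 0) = π₁ := by
  simp [lab]; field_simp

theorem lab_m0 (he : e ≠ 0) : lab e (π₁ / e) (π₂ / e) (-1, 0) = e ^ 2 / π₁ := by
  simp [lab]; field_simp

theorem lab_0p (he : e ≠ 0) : lab e (π₁ / e) (π₂ / e) (0, 1) = π₂ := by
  simp [lab]; field_simp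

theorem lab_0m (he : e ≠ 0) : lab e (π₁ / e) (π₂ / e) (0, -1) = e ^ 2 / π₂ := by
  simp [lab]; field_simp

theorem lab_00 {A B : Λ} : lab e A B (0, 0) = e := by
  simp [lab]

theorem lab_mul (he : e ≠ 0) {A B : Λ} (i j : SignType) :
    lab e A B (i, j) = lab e A B (i, 0) * lab e A B (0, j) / e := by
  simp [lab]; field_simp

end

variable {Ω : Type} [Field Ω] [IsAlgClosed Ω] [CharP Ω 2] {r : ℕ} {Λ : Type} [NormedField Λ]
  {ℓ : ℕ} [Fact ℓ.Prime] [NormedAlgebra ℚ_[ℓ] Λ] [FiniteDimensional ℚ_[ℓ] Λ]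

theorem main (hℓ : ℓ ≠ 2) (hr : 0 < r) (D : Surf Ω (4 ^ r)) (π₁ π₂ e : Λ) (he : e = (-2) ^ r)
    (ind : ∀ i j k : ℤ, π₁ ^ i * π₂ ^ j * 2 ^ k = 1 → i = 0 ∧ j = 0 ∧ k = 0)
    (hex : ∀ π ∈ evs π₁ π₂ e 0, ∃ χ ∈ D.Eig 0 π, χ ≠ 0) :
    (∀ i, ∀ π ∈ evs π₁ π₂ e i, ∃ χ ∈ D.Eig i π, χ ≠ 0) ∧
    (∀ ρ ∈ evs π₁ π₂ e 3, ∃ a ∈ tens ![D.U (evs π₁ π₂ e) 0, D.U (evs π₁ π₂ e) 1],
      ∃ b ∈ tens ![D.U (fun _ => {e}) 2, D.U (fun _ => {ρ}) 3], D.Coh a b ∧ ¬ D.Coh 0 b) ∧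
    ∀ (n : ℕ) (t : Ten (Fin (2 * n)) (Fin 4 × (Ω ≃+* Ω)) Λ),
      t ∈ tens (fun _ => ⋃ i, D.U (evs π₁ π₂ e) i) → Tate D.φ (e ^ 2) n t →
        Gen D.φ (e ^ 2) (D.U (evs π₁ π₂ e)) D.Coh _ t := by
  obtain ⟨G⟩ := exists_geo D hr
  have : CharZero Λ := charZero_of (ℓ := ℓ)
  have e0 : e ≠ 0 := by rw [he]; exact pow_ne_zero _ (by norm_num)
  have e2 : e ^ 2 = (4 : Λ) ^ r := by rw [he, ← pow_mul, mul_comm, pow_mul]; norm_num
  have ne0 : ∀ π ∈ evs π₁ π₂ e 0, π ≠ 0 := by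
    intro π hπ h0
    obtain ⟨χ, hχ, hne⟩ := hex π hπ
    apply hne
    funext σ
    have := hχ.2 (D.α⁻¹ * σ * D.α)
    simpa [h0, mul_assoc] using this
  have p1 : π₁ ≠ 0 := ne0 _ (by simp [evs])
  have p2 : π₂ ≠ 0 := ne0 _ (by simp [evs])
  set A := π₁ / e with hA
  set B := π₂ / e with hB
  have A0 : A ≠ 0 := div_ne_zero p1 e0
  have B0 : B ≠ 0 := div_ne_zero p2 e0
  have ind' : ∀ i j : ℤ, A ^ i * B ^ j = 1 → i = 0 ∧ j = 0 := by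
    intro i j h
    have h2 : (2 : Λ) ≠ 0 := two_ne_zero
    have h4 : e ^ (2 : ℤ) = 2 ^ (2 * r : ℤ) := by
      rw [zpow_mul, zpow_natCast, zpow_ofNat, zpow_ofNat, e2]; norm_num
    have h1 : π₁ ^ (2 * i) * π₂ ^ (2 * j) * 2 ^ (-(2 * r * (i + j)) : ℤ) = 1 := by
      have h3 : (A ^ i * B ^ j) ^ (2 : ℤ) = 1 := by rw [h, one_zpow]
      rw [zpow_neg, zpow_mul (2 : Λ), ← h4, ← h3, hA, hB, ← zpow_mul, mul_zpow, ← zpow_mul,
        ← zpow_mul, div_zpow, div_zpow, mul_add, zpow_add₀ e0, mul_comm i 2, mul_comm j 2]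
      field_simp
    obtain ⟨a, b, -⟩ := ind _ _ _ h1
    omega
  have mem0 : ∀ i : SignType, i ≠ 0 → lab e A B (i, 0) ∈ ({π₁, e ^ 2 / π₁} : Set Λ) := by
    intro i hi
    rcases i with _ | _ | _
    · exact absurd rfl hi
    · exact Or.inr (lab_m0 e0)
    · exact Or.inl (lab_p0 e0)
  have mem1 : ∀ i : SignType, i ≠ 0 → lab e A B (0, i) ∈ ({π₂, e ^ 2 / π₂} : Set Λ) := by
    intro i hi
    rcases i with _ | _ | _
    · exact absurd rfl hi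
    · exact Or.inr (lab_0m e0)
    · exact Or.inl (lab_0p e0)
  have s0 : ∀ l ∈ ({π₁, e ^ 2 / π₁} : Set Λ), ∃ i : SignType, i ≠ 0 ∧ l = lab e A B (i, 0) := by
    rintro l (rfl | rfl)
    · exact ⟨1, by decide, (lab_p0 e0).symm⟩
    · exact ⟨-1, by decide, (lab_m0 e0).symm⟩
  have s1 : ∀ l ∈ ({π₂, e ^ 2 / π₂} : Set Λ), ∃ i : SignType, i ≠ 0 ∧ l = lab e A B (0, i) := by
    rintro l (rfl | rfl)
    · exact ⟨1, by decide, (lab_0p e0).symm⟩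
    · exact ⟨-1, by decide, (lab_0m e0).symm⟩
  have v0 : ∀ π, π ∈ evs π₁ π₂ e 0 ↔
      π ∈ ({π₁, e ^ 2 / π₁} : Set Λ) ∨ π ∈ ({π₂, e ^ 2 / π₂} : Set Λ) := by
    intro π; simp [evs, or_assoc]
  have v1 : evs π₁ π₂ e 1 = evs π₁ π₂ e 0 := rfl
  have v2 : evs π₁ π₂ e 2 = {e} := rfl
  have v3 : ∀ ρ, ρ ∈ evs π₁ π₂ e 3 ↔
      ∃ i j : SignType, i ≠ 0 ∧ j ≠ 0 ∧ ρ = lab e A B (i, j) := by
    intro ρ
    constructor
    · rintro ⟨l, hl, n, hn, rfl⟩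
      obtain ⟨i, hi, rfl⟩ := s0 l hl
      obtain ⟨j, hj, rfl⟩ := s1 n hn
      exact ⟨i, j, hi, hj, (lab_mul e0 i j).symm⟩
    · rintro ⟨i, j, hi, hj, rfl⟩
      exact ⟨_, mem0 i hi, _, mem1 j hj, lab_mul e0 i j⟩
  have hγ : ∀ i j : SignType, i ≠ 0 → ∀ m, 0 < m →
      (lab e A B (i, 0) * lab e A B (0, j)) ^ m ≠ ((4 : Λ) ^ r) ^ m := by
    intro i j hi m hm h
    have hi' : (i : ℤ) ≠ 0 := by
      rcases i with _ | _ | _
      · exact absurd rfl hi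
      · decide
      · decide
    have h1 : A ^ ((i : ℤ) * m) * B ^ ((j : ℤ) * m) = 1 := by
      simp only [lab, SignType.coe_zero, zpow_zero, mul_one] at h
      rw [← e2] at h
      have h2 : (e ^ 2) ^ m * (A ^ ((i : ℤ) * m) * B ^ ((j : ℤ) * m)) = (e ^ 2) ^ m * 1 := by
        rw [zpow_mul, zpow_mul, zpow_natCast, zpow_natCast, mul_one]
        conv_rhs => rw [← h]
        ring
      exact mul_left_cancel₀ (pow_ne_zero _ (pow_ne_zero _ e0)) h2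
    have := (ind' _ _ h1).1
    rcases mul_eq_zero.1 this with h | h
    · exact hi' h
    · omega
  have pair : ∀ i j : SignType, i ≠ 0 → j ≠ 0 →
      ∃ a ∈ P2 (D.Eig 0 (lab e A B (i, 0))) (D.Eig 1 (lab e A B (0, j))) ⊔
        P2 (D.Eig 0 (lab e A B (0, j))) (D.Eig 1 (lab e A B (i, 0))),
      ∃ b ∈ P2 (D.Eig 2 e) (D.Eig 3 (lab e A B (i, j))), b ≠ 0 ∧ a - b ∈ CobM (⋃ i, D.S i) := by
    intro i j hi hj
    have hi' : (i : ℤ) ≠ 0 := by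
      rcases i with _ | _ | _
      · exact absurd rfl hi
      · decide
      · decide
    have := G.pair (ℓ := ℓ) hr hℓ (l := lab e A B (i, 0)) (n := lab e A B (0, j)) ?_ (hγ i j hi)
      (hex _ ((v0 _).2 (Or.inl (mem0 i hi)))) (hex _ ((v0 _).2 (Or.inr (mem1 j hj))))
    · rwa [← he, ← lab_mul e0] at this
    · intro h
      refine hi' (ind' i (-j) ?_).1
      simp only [lab, SignType.coe_zero, zpow_zero, mul_one] at h
      rw [mul_left_cancel₀ e0 h, zpow_neg, mul_inv_cancel₀ (zpow_ne_zero _ B0)]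
  have ex : ∀ i, ∀ π ∈ evs π₁ π₂ e i, ∃ χ ∈ D.Eig i π, χ ≠ 0 := by
    intro i π hπ
    fin_cases i
    · exact hex π hπ
    · obtain ⟨χ, hχ, h0⟩ := hex π hπ
      exact ⟨_, G.sw_eig.1 hχ, fun h => h0 (G.sw_eig (π := π).2.2 h)⟩
    · obtain rfl : π = e := hπ
      obtain ⟨a, -, b, hb, h0, -⟩ := pair 1 1 (by decide) (by decide)
      exact (p2_ne hb h0).1
    · obtain ⟨i, j, hi, hj, rfl⟩ := (v3 π).1 hπ
      obtain ⟨a, -, b, hb, h0, -⟩ := pair i j hi hj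
      exact (p2_ne hb h0).2
  have memA : ∀ i j : SignType, i ≠ 0 → j ≠ 0 →
      ∀ a ∈ P2 (D.Eig 0 (lab e A B (i, 0))) (D.Eig 1 (lab e A B (0, j))) ⊔
        P2 (D.Eig 0 (lab e A B (0, j))) (D.Eig 1 (lab e A B (i, 0))),
      emb2 0 1 a ∈ tens ![D.U (evs π₁ π₂ e) 0, D.U (evs π₁ π₂ e) 1] := by
    intro i j hi hj a ha
    have m0 := (v0 _).2 (Or.inl (mem0 i hi))
    have m1 := (v0 _).2 (Or.inr (mem1 j hj))
    obtain ⟨a₁, h₁, a₂, h₂, rfl⟩ := Submodule.mem_sup.1 ha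
    rw [map_add]
    exact Submodule.add_mem _
      (emb2_mem (fun χ h => emb_U D m0 h) (fun χ h => emb_U D (i := 1) m1 h) h₁)
      (emb2_mem (fun χ h => emb_U D m1 h) (fun χ h => emb_U D (i := 1) m0 h) h₂)
  refine ⟨ex, ?_, ?_⟩
  · intro ρ hρ
    obtain ⟨i, j, hi, hj, rfl⟩ := (v3 ρ).1 hρ
    obtain ⟨a, ha, b, hb, h0, h⟩ := pair i j hi hj
    refine ⟨_, memA i j hi hj a ha, _,
      emb2_mem (fun χ h => emb_U D (ev := fun _ => {e}) rfl h)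
        (fun χ h => emb_U D (ev := fun _ => {lab e A B (i, j)}) rfl h) hb, coh_emb D h, fun hc => ?_⟩
    obtain ⟨hb1, hb2⟩ := p2_eig D hb
    obtain ⟨m, hm, hF⟩ := G.kerL (ℓ := ℓ) hr hℓ (Or.inr ⟨rfl, rfl⟩) hb1 (of_coh D hc)
    have hE : ∀ m : ℕ, (F2 Λ D.α ^ m) b = (lab e A B (i, 0) * lab e A B (0, j)) ^ m • b := by
      intro m
      induction m with
      | zero => simp
      | succ m ih =>
        rw [pow_succ, Module.End.mul_apply, hb2, map_smul, ih, smul_smul, lab_mul e0 i j,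
          mul_div_cancel₀ _ e0, pow_succ']
    rw [hE] at hF
    exact hγ i j hi m hm (smul_left_injective Λ h0 hF)
  have hU : ∀ u ∈ ⋃ i, D.U (evs π₁ π₂ e) i, ∃ x, ∀ z, u (D.φ z) = lab e A B x * u z := by
    intro u hu
    obtain ⟨i, π, hπ, χ, hχ, rfl⟩ := Set.mem_iUnion.1 hu
    suffices ∃ x, π = lab e A B x by
      obtain ⟨x, rfl⟩ := this
      exact ⟨x, emb_eig D hχ⟩
    have h01 : π ∈ evs π₁ π₂ e 0 → ∃ x, π = lab e A B x := by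
      intro h
      rcases (v0 π).1 h with h | h
      · obtain ⟨i, -, h⟩ := s0 π h
        exact ⟨_, h⟩
      · obtain ⟨i, -, h⟩ := s1 π h
        exact ⟨_, h⟩
    fin_cases i
    · exact h01 hπ
    · exact h01 hπ
    · exact ⟨(0, 0), hπ.trans lab_00.symm⟩
    · obtain ⟨i, j, -, -, h⟩ := (v3 π).1 hπ
      exact ⟨_, h⟩
  have hx : ∀ x, ∃ u ∈ Ev D.φ (D.U (evs π₁ π₂ e)) (lab e A B x), u ≠ 0 := by
    rintro ⟨i, j⟩
    suffices ∃ k, lab e A B (i, j) ∈ evs π₁ π₂ e k by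
      obtain ⟨k, hk⟩ := this
      obtain ⟨χ, hχ, h0⟩ := ex k _ hk
      exact ⟨_, emb_Ev D hk hχ, emb_ne h0⟩
    by_cases hi : i = 0 <;> by_cases hj : j = 0
    · subst hi hj
      exact ⟨2, lab_00⟩
    · subst hi
      exact ⟨0, (v0 _).2 (Or.inr (mem1 j hj))⟩
    · subst hj
      exact ⟨0, (v0 _).2 (Or.inl (mem0 i hi))⟩
    · exact ⟨3, (v3 _).2 ⟨i, j, hi, hj, rfl⟩⟩
  refine tate_alg e0 A0 B0 ind' hU hx fun i j hi hj => ?_
  obtain ⟨a, ha, b, hb, h0, h⟩ := pair i j hi hj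
  have m0 := (v0 _).2 (Or.inl (mem0 i hi))
  have m1 := (v0 _).2 (Or.inr (mem1 j hj))
  have m2 : e ∈ evs π₁ π₂ e 2 := rfl
  have m3 := (v3 _).2 ⟨i, j, hi, hj, rfl⟩
  refine good_base A0 B0 hU hx (memA i j hi hj a ha)
    (emb2_mem (fun χ h => emb_U D m2 h) (fun χ h => emb_U D m3 h) hb) (coh_emb D h)
    (emb2_ne h0) ?_ ?_
  · obtain ⟨a₁, h₁, a₂, h₂, rfl⟩ := Submodule.mem_sup.1 ha
    rw [map_add]
    exact Submodule.add_mem_sup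
      (emb2_mem (fun χ h => emb_Ev D m0 h) (fun χ h => emb_Ev D (i := 1) m1 h) h₁)
      (emb2_mem (fun χ h => emb_Ev D m1 h) (fun χ h => emb_Ev D (i := 1) m0 h) h₂)
  · rw [lab_00]
    exact emb2_mem (fun χ h => emb_Ev D m2 h) (fun χ h => emb_Ev D m3 h) hb

end Pool.Agent.P.MP_ee618e_ag.X
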