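import Pool.Agent.P.MP_ee618e_ag.X.B

/-! FT1: fixing groups, algebraic closures, extension of isomorphisms. -/

namespace Pool.Agent.P.MP_ee618e_ag.X

open IsDedekindDomain Polynomial
open scoped Classical

variable {Ω : Type} [Field Ω] {S S' : Set Ω}

theorem mem_fix {σ : Au Ω} : σ ∈ Fix S ↔ ∀ x ∈ S, σ x = x := Iff.rfl

theorem mem_st {σ : Au Ω} : σ ∈ St S ↔ ∀ x, σ x ∈ S ↔ x ∈ S := Iff.rfl

theorem au_mul (σ τ : Au Ω) (x : Ω) : (σ * τ) x = σ (τ x) := rfl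

theorem au_inv (σ : Au Ω) (x : Ω) : σ⁻¹ x = σ.symm x := rfl

theorem fix_closure (S : Set Ω) : Fix (Subfield.closure S : Set Ω) = Fix S := by
  ext σ
  exact ⟨fun h x hx => h x (Subfield.subset_closure hx), fun h x hx =>
    RingHom.eqOn_field_closure (f := σ.toRingHom) (g := RingHom.id Ω) (fun y hy => h y hy) hx⟩

theorem fix_anti (h : S ⊆ S') : Fix S' ≤ Fix S := by
  exact fun σ hσ x hx => hσ x (h hx)

theorem fix_union (S S' : Set Ω) : Fix (S ∪ S') = Fix S ⊓ Fix S' := by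
  ext σ
  exact ⟨fun h => ⟨fun x hx => h x (Or.inl hx), fun x hx => h x (Or.inr hx)⟩,
    fun h x hx => hx.elim (h.1 x) (h.2 x)⟩

theorem fix_le_st (S : Set Ω) : Fix S ≤ St S := by
  intro σ h x
  refine ⟨fun hx => ?_, fun hx => by rwa [h x hx]⟩
  rwa [σ.injective (h _ hx)] at hx

theorem ft1_map {σ : Au Ω} (h : ∀ x ∈ S, σ x ∈ Subfield.closure S') {x : Ω}
    (hx : x ∈ Subfield.closure S) : σ x ∈ Subfield.closure S' :=
  (Subfield.closure_le (t := (Subfield.closure S').comap σ.toRingHom)).2 h hx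

theorem st_closure {σ : Au Ω} (h : σ ∈ St S) : σ ∈ St (Subfield.closure S : Set Ω) := by
  intro x
  refine ⟨fun hx => ?_, ft1_map fun y hy => Subfield.subset_closure ((h y).2 hy)⟩
  have := ft1_map (σ := σ⁻¹) (S' := S)
    (fun y hy => Subfield.subset_closure (((St S).inv_mem h y).2 hy)) hx
  rwa [au_inv, σ.symm_apply_apply] at this

/-- conjugation of fixing groups -/
theorem fix_conj {s σ : Au Ω}
    (h : ∀ x, s x ∈ Subfield.closure S' ↔ x ∈ Subfield.closure S) :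
    s⁻¹ * σ * s ∈ Fix S ↔ σ ∈ Fix S' := by
  rw [← fix_closure S, ← fix_closure S']
  constructor
  · intro h1 x hx
    obtain ⟨y, rfl⟩ := s.surjective x
    exact s.symm_apply_eq.1 (h1 y ((h y).1 hx))
  · intro h1 x hx
    exact s.symm_apply_eq.2 (h1 _ ((h x).2 hx))

theorem exists_fin_of_closure {x : Ω} (hx : x ∈ Subfield.closure S) :
    ∃ T : Finset Ω, ↑T ⊆ S ∧ ∀ σ τ : Au Ω, Ag T σ τ → σ x = τ x := by
  induction hx using Subfield.closure_induction with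
  | mem x hx => exact ⟨{x}, by simpa using hx, fun σ τ h => h x (by simp)⟩
  | one => exact ⟨∅, by simp, fun σ τ _ => by simp⟩
  | add x y _ _ hx hy =>
    obtain ⟨T, h1, h2⟩ := hx
    obtain ⟨T', h1', h2'⟩ := hy
    refine ⟨T ∪ T', by simp [h1, h1'], fun σ τ h => ?_⟩
    rw [map_add, map_add, h2 σ τ fun t ht => h t (by simp [ht]),
      h2' σ τ fun t ht => h t (by simp [ht])]
  | neg x _ hx =>
    obtain ⟨T, h1, h2⟩ := hx
    exact ⟨T, h1, fun σ τ h => by rw [map_neg, map_neg, h2 σ τ h]⟩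
  | inv x _ hx =>
    obtain ⟨T, h1, h2⟩ := hx
    exact ⟨T, h1, fun σ τ h => by rw [map_inv₀, map_inv₀, h2 σ τ h]⟩
  | mul x y _ _ hx hy =>
    obtain ⟨T, h1, h2⟩ := hx
    obtain ⟨T', h1', h2'⟩ := hy
    refine ⟨T ∪ T', by simp [h1, h1'], fun σ τ h => ?_⟩
    rw [map_mul, map_mul, h2 σ τ fun t ht => h t (by simp [ht]),
      h2' σ τ fun t ht => h t (by simp [ht])]

theorem ft1_alg_iff (K : Subfield Ω) {z : Ω} : IsAlgebraic K z ↔
    ∃ p : Polynomial Ω, p ≠ 0 ∧ (∀ i, p.coeff i ∈ K) ∧ p.eval z = 0 := by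
  constructor
  · rintro ⟨p, h0, h1⟩
    refine ⟨p.map (algebraMap K Ω), (Polynomial.map_ne_zero_iff (algebraMap K Ω).injective).2 h0,
      fun i => ?_, by rwa [eval_map_algebraMap]⟩
    rw [coeff_map]
    exact (p.coeff i).2
  · rintro ⟨p, h0, h1, h2⟩
    obtain ⟨q, rfl⟩ := (Polynomial.mem_lifts (f := algebraMap K Ω) p).1
      ((Polynomial.lifts_iff_coeff_lifts p).2 fun i => ⟨⟨_, h1 i⟩, rfl⟩)
    exact ⟨q, fun h => h0 (by rw [h, Polynomial.map_zero]), by rwa [eval_map_algebraMap] at h2⟩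

theorem ft1_acl_iff {z : Ω} : z ∈ Acl S ↔
    ∃ p : Polynomial Ω, p ≠ 0 ∧ (∀ i, p.coeff i ∈ Subfield.closure S) ∧ p.eval z = 0 :=
  ft1_alg_iff _

theorem subset_acl (S : Set Ω) : S ⊆ Acl S := by
  exact fun x hx => isAlgebraic_algebraMap (⟨x, Subfield.subset_closure hx⟩ : Subfield.closure S)

theorem closure_subset_acl (S : Set Ω) : (Subfield.closure S : Set Ω) ⊆ Acl S := by
  exact fun x hx => isAlgebraic_algebraMap (⟨x, hx⟩ : Subfield.closure S)

theorem acl_mono (h : S ⊆ S') : Acl S ⊆ Acl S' := by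
  intro z hz
  obtain ⟨p, h0, h1, h2⟩ := ft1_acl_iff.1 hz
  exact ft1_acl_iff.2 ⟨p, h0, fun i => Subfield.closure_mono h (h1 i), h2⟩

theorem exists_aclF (S : Set Ω) : ∃ K : Subfield Ω, (K : Set Ω) = Acl S := by
  exact ⟨(algebraicClosure (Subfield.closure S) Ω).toSubfield,
    Set.ext fun _ => mem_algebraicClosure_iff⟩

/-- a root of a nonzero polynomial with coefficients in `Acl S` -/
theorem mem_acl_of_root {x : Ω} (p : Polynomial Ω) (hp : p ≠ 0) (hc : ∀ i, p.coeff i ∈ Acl S)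
    (hx : p.eval x = 0) : x ∈ Acl S := by
  have h : IsAlgebraic (algebraicClosure (Subfield.closure S) Ω) x :=
    (ft1_alg_iff (algebraicClosure (Subfield.closure S) Ω).toSubfield).2
      ⟨p, hp, fun i => mem_algebraicClosure_iff.2 (hc i), hx⟩
  exact h.restrictScalars (Subfield.closure S)

theorem acl_subset (h : S ⊆ Acl S') : Acl S ⊆ Acl S' := by
  intro z hz
  obtain ⟨p, h0, h1, h2⟩ := ft1_acl_iff.1 hz
  obtain ⟨K, hK⟩ := exists_aclF S'
  refine mem_acl_of_root p h0 (fun i => ?_) h2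
  rw [← hK] at h ⊢
  exact Subfield.closure_le.2 h (h1 i)

theorem acl_eq (K : Subfield Ω) [IsAlgClosed K] : Acl (K : Set Ω) = K := by
  refine Set.Subset.antisymm (fun z hz => ?_) (subset_acl _)
  rw [Acl, Subfield.closure_eq] at hz
  have hz' : IsAlgebraic K z := hz
  obtain ⟨y, rfl⟩ := minpoly.mem_range_of_degree_eq_one K z
    (IsAlgClosed.degree_eq_one_of_irreducible K (minpoly.irreducible hz'.isIntegral))
  exact y.2

theorem isAlgClosed_of_acl [IsAlgClosed Ω] {K : Subfield Ω} (h : Acl (K : Set Ω) ⊆ K) :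
    IsAlgClosed K := by
  refine IsAlgClosed.of_exists_root K fun p _ hp => ?_
  obtain ⟨z, hz⟩ := IsAlgClosed.exists_aeval_eq_zero Ω p (degree_pos_of_irreducible hp).ne'
  have h1 : z ∈ Acl (K : Set Ω) := by
    rw [Acl, Subfield.closure_eq]
    exact ⟨p, hp.ne_zero, hz⟩
  refine ⟨⟨z, h h1⟩, (algebraMap K Ω).injective ?_⟩
  rw [← aeval_algebraMap_apply_eq_algebraMap_eval, map_zero]
  exact hz

theorem ft1_acl_map {σ : Au Ω} (h : ∀ x ∈ Subfield.closure S, σ x ∈ Subfield.closure S') {z : Ω}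
    (hz : z ∈ Acl S) : σ z ∈ Acl S' := by
  obtain ⟨p, h0, h1, h2⟩ := ft1_acl_iff.1 hz
  refine ft1_acl_iff.2 ⟨p.map σ.toRingHom, (Polynomial.map_ne_zero_iff σ.injective).2 h0,
    fun i => ?_, ?_⟩
  · rw [coeff_map]
    exact h _ (h1 i)
  · have := eval₂_hom (p := p) σ.toRingHom z
    rw [eval_map]
    exact this.trans (by rw [h2, map_zero])

theorem ft1_acl_conj {s : Au Ω} (h : ∀ x, s x ∈ Subfield.closure S' ↔ x ∈ Subfield.closure S)
    (x : Ω) : s x ∈ Acl S' ↔ x ∈ Acl S := by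
  refine ⟨fun hx => ?_, ft1_acl_map fun y hy => (h y).2 hy⟩
  have := ft1_acl_map (σ := s.symm) (S' := S)
    (fun y hy => (h _).1 (by rwa [s.apply_symm_apply])) hx
  rwa [s.symm_apply_apply] at this

theorem st_acl {σ : Au Ω} (h : σ ∈ St S) : σ ∈ St (Acl S) := by
  exact ft1_acl_conj (st_closure h)

theorem acl_conj {s : Au Ω} (h : ∀ x, s x ∈ Subfield.closure S' ↔ x ∈ Subfield.closure S)
    (x : Ω) : s x ∈ Acl S' ↔ x ∈ Acl S := by
  exact ft1_acl_conj h x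

theorem orbit_finite {x : Ω} (hx : x ∈ Acl S) : {y | ∃ σ ∈ Fix S, σ x = y}.Finite := by
  obtain ⟨p, h0, h1, h2⟩ := ft1_acl_iff.1 hx
  refine p.roots.toFinset.finite_toSet.subset ?_
  rintro _ ⟨σ, hσ, rfl⟩
  rw [← fix_closure] at hσ
  have e : p.map σ.toRingHom = p := by
    ext i
    rw [coeff_map]
    exact hσ _ (h1 i)
  have := eval₂_hom (p := p) σ.toRingHom x
  rw [← eval_map, e, h2, map_zero] at this
  rw [Finset.mem_coe, Multiset.mem_toFinset, mem_roots h0]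
  exact this

theorem fo_fix (h : Acl S = Set.univ) : FO (Fix S) := by
  exact fun x => orbit_finite (h ▸ Set.mem_univ x)

theorem FO.mono {G G' : Subgroup (Au Ω)} (h : FO G') (hG : G ≤ G') : FO G := by
  exact fun x => (h x).subset fun _ ⟨σ, h1, h2⟩ => ⟨σ, hG h1, h2⟩

theorem root_mem (k : Subfield Ω) [IsAlgClosed k] {ζ c : Ω} {N : ℕ} (hN : 0 < N) (hc : c ∈ k)
    (h : ζ ^ N = c) : ζ ∈ k := by
  have h1 : ζ ∈ Acl (k : Set Ω) := by
    rw [Acl, Subfield.closure_eq]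
    refine IsAlgebraic.of_pow hN ?_
    rw [h]
    exact isAlgebraic_algebraMap (⟨c, hc⟩ : k)
  rwa [acl_eq] at h1

theorem alpha_finset (α : Au Ω) (T : Finset Ω) (hT : ∀ x ∈ T, ∃ m, 0 < m ∧ (α ^ m) x = x) :
    ∃ m, 0 < m ∧ Ag T (α ^ m) 1 := by
  induction T using Finset.induction_on with
  | empty => exact ⟨1, one_pos, fun t ht => by simp at ht⟩
  | insert a T _ ih =>
    obtain ⟨m, h1, h2⟩ := ih fun x hx => hT x (Finset.mem_insert_of_mem hx)
    obtain ⟨n, h3, h4⟩ := hT a (Finset.mem_insert_self _ _)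
    refine ⟨m * n, Nat.mul_pos h1 h3, fun t ht => ?_⟩
    rcases Finset.mem_insert.1 ht with rfl | ht
    · have : α ^ n ∈ Fix {t} := by
        rintro _ rfl
        exact h4
      rw [mul_comm, pow_mul]
      exact pow_mem this m t rfl
    · have : α ^ m ∈ Fix (T : Set Ω) := fun x hx => h2 x hx
      rw [pow_mul]
      exact pow_mem this n t ht

/-- a power of `α` fixes the coefficients of the minimal polynomial and permutes its roots -/
theorem alpha_orbit (α : Au Ω) (hS : ∀ x ∈ S, ∃ m, 0 < m ∧ (α ^ m) x = x) {z : Ω}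
    (hz : z ∈ Acl S) : ∃ m, 0 < m ∧ (α ^ m) z = z := by
  obtain ⟨p, h0, h1, h2⟩ := ft1_acl_iff.1 hz
  obtain ⟨m, hm, h3⟩ := alpha_finset α p.coeffs fun x hx => by
    obtain ⟨i, -, rfl⟩ := mem_coeffs_iff.1 hx
    obtain ⟨T, h4, h5⟩ := exists_fin_of_closure (h1 i)
    obtain ⟨m, hm, h6⟩ := alpha_finset α T fun x hx => hS x (h4 hx)
    exact ⟨m, hm, h5 _ _ h6⟩
  have h4 : z ∈ Acl (p.coeffs : Set Ω) := ft1_acl_iff.2 ⟨p, h0, fun i => by
    by_cases hi : p.coeff i = 0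
    · rw [hi]
      exact zero_mem _
    · exact Subfield.subset_closure (coeff_mem_coeffs hi), h2⟩
  have h5 : α ^ m ∈ Fix (p.coeffs : Set Ω) := fun x hx => h3 x hx
  obtain ⟨i, j, hij, e⟩ := Set.Finite.exists_lt_map_eq_of_forall_mem
    (f := fun n : ℕ => ((α ^ m) ^ n) z) (t := {y | ∃ σ ∈ Fix (p.coeffs : Set Ω), σ z = y})
    (fun n => ⟨_, pow_mem h5 n, rfl⟩) (orbit_finite h4)
  obtain ⟨d, rfl⟩ := Nat.exists_eq_add_of_lt hij
  refine ⟨m * (d + 1), Nat.mul_pos hm d.succ_pos, ((α ^ m) ^ i).injective ?_⟩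
  rw [pow_mul, ← au_mul, ← pow_add, ← add_assoc]
  exact e.symm

theorem exists_roots [IsAlgClosed Ω] (ℓ : ℕ) [Fact ℓ.Prime] (h : (ℓ : Ω) ≠ 0) :
    ∃ ζ : ℕ → Ω, Roots ℓ ζ := by
  have hp : ℓ.Prime := Fact.out
  have step : ∀ (n : ℕ) (z : {z : Ω // IsPrimitiveRoot z (ℓ ^ n)}),
      ∃ w : {z : Ω // IsPrimitiveRoot z (ℓ ^ (n + 1))}, w.1 ^ ℓ = z.1 := by
    rintro n ⟨z, hz⟩
    have : NeZero ((ℓ ^ (n + 1) : ℕ) : Ω) := ⟨by exact_mod_cast pow_ne_zero _ h⟩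
    have : NeZero (ℓ ^ n) := ⟨pow_ne_zero _ hp.ne_zero⟩
    obtain ⟨w, hw⟩ := HasEnoughRootsOfUnity.exists_primitiveRoot Ω (ℓ ^ (n + 1))
    have h1 : IsPrimitiveRoot (w ^ ℓ) (ℓ ^ n) := hw.pow (pow_pos hp.pos _) (pow_succ' _ _)
    obtain ⟨i, -, hi, rfl⟩ := h1.isPrimitiveRoot_iff.1 hz
    rcases n.eq_zero_or_pos with rfl | hn
    · have h2 : w ^ ℓ = 1 := by simpa using h1
      exact ⟨⟨w, hw⟩, by simp [h2]⟩
    · refine ⟨⟨w ^ i, hw.pow_of_coprime i ?_⟩, pow_right_comm w i ℓ⟩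
      exact ((Nat.coprime_pow_right_iff hn _ _).1 hi).pow_right _
  choose F hF using step
  let ζ : ∀ n : ℕ, {z : Ω // IsPrimitiveRoot z (ℓ ^ n)} :=
    fun n => Nat.rec ⟨1, by simp⟩ F n
  exact ⟨fun n => (ζ n).1, fun n => (ζ n).2, fun n => hF n (ζ n)⟩

end Pool.Agent.P.MP_ee618e_ag.X
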