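import Pool.Agent.P.MP_ee618e_ag.X.FT1

/-! FT2: existence of automorphisms of an algebraically closed field. -/

namespace Pool.Agent.P.MP_ee618e_ag.X

open IsDedekindDomain Polynomial
open scoped Classical

variable {Ω : Type} [Field Ω] [IsAlgClosed Ω] {S : Set Ω}

omit [IsAlgClosed Ω] in
theorem ft2_acl (A : Subring Ω) {z : Ω} : z ∈ Acl (A : Set Ω) ↔ IsAlgebraic A z := by
  let _ : Algebra A (Subfield.closure (A : Set Ω)) :=
    (A.subtype.codRestrict (Subfield.closure (A : Set Ω)).toSubring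
      fun a => Subfield.subset_closure a.2).toAlgebra
  have : IsScalarTower A (Subfield.closure (A : Set Ω)) Ω := .of_algebraMap_eq fun _ => rfl
  have : FaithfulSMul A (Subfield.closure (A : Set Ω)) :=
    (faithfulSMul_iff_algebraMap_injective _ _).2 fun a b h =>
      Subtype.ext (congrArg (fun z : Subfield.closure (A : Set Ω) => (z : Ω)) h)
  have : IsFractionRing A (Subfield.closure (A : Set Ω)) := IsFractionRing.of_field _ _ fun z => by
    obtain ⟨a, ha, b, hb, e⟩ := Subfield.mem_closure_iff.1 z.2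
    rw [Subring.closure_eq] at ha hb
    exact ⟨⟨a, ha⟩, ⟨b, hb⟩, Subtype.ext e.symm⟩
  exact (IsFractionRing.isAlgebraic_iff A (Subfield.closure (A : Set Ω)) Ω).symm

omit [IsAlgClosed Ω] in
theorem ft2_adj (K : Subfield Ω) (s : Set Ω) {z : Ω} :
    z ∈ Acl (K ∪ s) ↔ IsAlgebraic (Algebra.adjoin K s) z := by
  have h : Subfield.closure ((K : Set Ω) ∪ s) =
      Subfield.closure ((Algebra.adjoin K s).toSubring : Set Ω) := by
    refine le_antisymm (Subfield.closure_mono ?_) (Subfield.closure_le.2 ?_)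
    · rintro x (hx | hx)
      · exact (Algebra.adjoin K s).algebraMap_mem ⟨x, hx⟩
      · exact Algebra.subset_adjoin hx
    · intro x hx
      rw [Algebra.adjoin_eq_ring_closure] at hx
      refine Subfield.subring_closure_le _ (Subring.closure_mono ?_ hx)
      rintro y (⟨k, rfl⟩ | hy)
      · exact Or.inl k.2
      · exact Or.inr hy
  have h2 : Acl ((K : Set Ω) ∪ s) = Acl ((Algebra.adjoin K s).toSubring : Set Ω) := by
    unfold Acl
    rw [h]
  rw [h2]
  exact ft2_acl _

omit [IsAlgClosed Ω] in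
theorem ft2_cl (K : Subfield Ω) (s : Set Ω) :
    Acl (K ∪ s) = (AlgebraicIndependent.matroid K Ω).closure s := by
  ext z
  rw [ft2_adj, AlgebraicIndependent.matroid_closure_eq]
  rfl

omit [IsAlgClosed Ω] in
theorem ft2_rk (K : Subfield Ω) {ι κ : Type} [Fintype ι] (x : ι → Ω) (y : κ → Ω)
    (hx : AlgebraicIndependent K x) (h : Set.range x ⊆ Acl (K ∪ Set.range y)) :
    (Fintype.card ι : ℕ∞) ≤ (AlgebraicIndependent.matroid K Ω).eRk (Set.range y) := by
  rw [ft2_cl] at h
  have h1 : (AlgebraicIndependent.matroid K Ω).Indep (Set.range x) :=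
    AlgebraicIndependent.matroid_indep_iff.2 hx.to_subtype_range
  have h2 := h1.encard_le_eRk_of_subset h
  rw [Matroid.eRk_closure_eq] at h2
  rw [← ENat.card_eq_coe_fintype_card]
  exact hx.injective.encard_range.trans h2

/-- two algebra structures on `Ω`; `IsAlgClosure.equivOfEquiv` or `IsAlgClosed.lift` -/
theorem ext_iso {R : Type} [CommRing R] (f g : R →+* Ω) (hf : Function.Injective f)
    (hg : Function.Injective g) (af : Acl (Set.range f) = Set.univ)
    (ag : Acl (Set.range g) = Set.univ) : ∃ σ : Au Ω, ∀ r, σ (f r) = g r := by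
  let e : f.range ≃+* g.range :=
    (RingEquiv.ofBijective f.rangeRestrict
      ⟨fun a b h => hf (congrArg Subtype.val h), f.rangeRestrict_surjective⟩).symm.trans
    (RingEquiv.ofBijective g.rangeRestrict
      ⟨fun a b h => hg (congrArg Subtype.val h), g.rangeRestrict_surjective⟩)
  have : IsAlgClosure f.range Ω := ⟨inferInstance, ⟨fun z => (ft2_acl f.range).1 (by
    rw [RingHom.coe_range, af]; trivial)⟩⟩
  have : IsAlgClosure g.range Ω := ⟨inferInstance, ⟨fun z => (ft2_acl g.range).1 (by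
    rw [RingHom.coe_range, ag]; trivial)⟩⟩
  refine ⟨IsAlgClosure.equivOfEquiv Ω Ω e, fun r => ?_⟩
  have h1 := IsAlgClosure.equivOfEquiv_algebraMap Ω Ω e (f.rangeRestrict r)
  have h2 : e (f.rangeRestrict r) = g.rangeRestrict r := by
    simp only [e, RingEquiv.trans_apply]
    rw [show f.rangeRestrict r = RingEquiv.ofBijective f.rangeRestrict
      ⟨fun a b h => hf (congrArg Subtype.val h), f.rangeRestrict_surjective⟩ r from rfl,
      RingEquiv.symm_apply_apply]
    rfl
  rw [h2] at h1
  exact h1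

/-- `ext_iso` for `MvPolynomial ι K` -/
theorem move_basis (K : Subfield Ω) (e : K ≃+* K) {ι : Type} (s t : ι → Ω)
    (hs : IsTranscendenceBasis K s) (ht : IsTranscendenceBasis K t) :
    ∃ σ : Au Ω, (∀ x : K, σ x = e x) ∧ ∀ i, σ (s i) = t i := by
  have key : ∀ u : ι → Ω, IsTranscendenceBasis K u →
      Acl (Set.range (MvPolynomial.aeval u : MvPolynomial ι K →ₐ[K] Ω)) = Set.univ := by
    intro u hu
    refine Set.eq_univ_of_forall fun z => ?_
    have h1 := (ft2_acl (Algebra.adjoin K (Set.range u)).toSubring (z := z)).2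
      (hu.isAlgebraic.isAlgebraic z)
    rw [Algebra.adjoin_range_eq_range_aeval] at h1
    exact h1
  have hm : Function.Bijective (MvPolynomial.map (σ := ι) (e : K →+* K)) :=
    ⟨MvPolynomial.map_injective _ e.injective, MvPolynomial.map_surjective _ e.surjective⟩
  obtain ⟨σ, hσ⟩ := ext_iso (MvPolynomial.aeval s : MvPolynomial ι K →ₐ[K] Ω).toRingHom
    ((MvPolynomial.aeval t : MvPolynomial ι K →ₐ[K] Ω).toRingHom.comp
      (MvPolynomial.map (e : K →+* K))) hs.1 ((algebraicIndependent_iff_injective_aeval.1 ht.1).comp hm.1) (key s hs) (by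
      rw [RingHom.coe_comp, hm.2.range_comp]
      exact key t ht)
  exact ⟨σ, fun x => by
      have := hσ (MvPolynomial.C x)
      simp only [AlgHom.toRingHom_eq_coe, RingHom.coe_comp, RingHom.coe_coe, Function.comp_apply,
        MvPolynomial.map_C, MvPolynomial.algHom_C] at this
      exact this,
    fun i => by simpa using hσ (MvPolynomial.X i)⟩

theorem ext_aut (K : Subfield Ω) (e : K ≃+* K) : ∃ σ : Au Ω, ∀ x : K, σ x = e x := by
  obtain ⟨s, hs⟩ := exists_isTranscendenceBasis K Ω
  obtain ⟨σ, h, -⟩ := move_basis K e _ _ hs hs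
  exact ⟨σ, h⟩

/-- extend `x` and `y` to transcendence bases, which have the same cardinality -/
theorem move_one {x y : Ω} (hx : x ∉ Acl S) (hy : y ∉ Acl S) : ∃ σ ∈ Fix S, σ x = y := by
  have key : ∀ z : Ω, z ∉ Acl S → ∃ t : Set Ω, z ∈ t ∧
      IsTranscendenceBasis (Subfield.closure S) ((↑) : t → Ω) := by
    intro z hz
    obtain ⟨t, h1, h2⟩ := exists_isTranscendenceBasis_superset (R := Subfield.closure S)
      (s := {z}) (algebraicIndependent_unique_type_iff.2 hz)
    exact ⟨t, h1 rfl, h2⟩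
  obtain ⟨t1, h1, b1⟩ := key x hx
  obtain ⟨t2, h2, b2⟩ := key y hy
  obtain ⟨e⟩ := Cardinal.eq.1 (b1.cardinalMk_eq b2)
  obtain ⟨σ, a1, a2⟩ := move_basis (Subfield.closure S) (RingEquiv.refl _) _ _ b1
    (b2.comp_equiv (e.trans (Equiv.swap (e ⟨x, h1⟩) ⟨y, h2⟩)))
  exact ⟨σ, fun z hz => a1 ⟨z, Subfield.subset_closure hz⟩, by simpa using a2 ⟨x, h1⟩⟩

/-- otherwise `x` can be moved to all `x ^ n` -/
theorem mem_acl_of_finite {x : Ω} (h : {y | ∃ σ ∈ Fix S, σ x = y}.Finite) : x ∈ Acl S := by
  by_contra hx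
  have hi : Function.Injective fun n : ℕ => x ^ (n + 1) := by
    intro n m e
    have h1 := transcendental_iff_injective.1 (show Transcendental (Subfield.closure S) x from hx)
      (a₁ := Polynomial.X ^ (n + 1)) (a₂ := Polynomial.X ^ (m + 1)) (by simpa using e)
    simpa using congrArg natDegree h1
  refine Set.infinite_of_injective_forall_mem hi (fun n => ?_) h
  exact move_one hx fun h' => hx (IsAlgebraic.of_pow (Nat.succ_pos n) h')

/-- work in the algebraically closed field `Acl S`, then `ext_aut` -/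
theorem conj_root {x y : Ω} (hx : x ∈ Acl S)
    (h : aeval y (minpoly (Subfield.closure S) x) = 0) : ∃ σ ∈ Fix S, σ x = y := by
  have hy : IsAlgebraic (Subfield.closure S) y := ⟨_, minpoly.ne_zero hx.isIntegral, h⟩
  let F := algebraicClosure (Subfield.closure S) Ω
  let x' : F := ⟨x, mem_algebraicClosure_iff.2 hx⟩
  let y' : F := ⟨y, mem_algebraicClosure_iff.2 hy⟩
  obtain ⟨σ0, h0⟩ := minpoly.exists_algEquiv_of_root' (K := Subfield.closure S) (x := y') (y := x')
    (IntermediateField.isAlgebraic_iff.2 hx) (by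
      rw [IntermediateField.minpoly_eq]
      apply Subtype.val_injective
      rw [← IntermediateField.aeval_coe]
      exact h)
  obtain ⟨σ, hσ⟩ := ext_aut F.toSubfield σ0.toRingEquiv
  refine ⟨σ, fun z hz => ?_, (hσ x').trans (congrArg Subtype.val h0)⟩
  exact (hσ (algebraMap (Subfield.closure S) F ⟨z, Subfield.subset_closure hz⟩)).trans
    (congrArg Subtype.val (σ0.commutes ⟨z, Subfield.subset_closure hz⟩))

theorem ft2_fixed {x : Ω} (hx : ∀ σ ∈ Fix S, σ x = x) :
    ∃ n : ℕ, x ^ ringExpChar Ω ^ n ∈ Subfield.closure S := by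
  have ha : x ∈ Acl S := mem_acl_of_finite ((Set.finite_singleton x).subset (by
    rintro _ ⟨σ, hσ, rfl⟩
    exact hx σ hσ))
  have h1 : (minpoly (Subfield.closure S) x).natSepDegree = 1 := by
    rw [natSepDegree_eq_of_isAlgClosed Ω, Finset.card_eq_one]
    refine ⟨x, Finset.eq_singleton_iff_unique_mem.2 ⟨?_, fun y hy => ?_⟩⟩
    · rw [Multiset.mem_toFinset, mem_aroots]
      exact ⟨minpoly.ne_zero (IsAlgebraic.isIntegral ha), minpoly.aeval _ _⟩
    · rw [Multiset.mem_toFinset, mem_aroots] at hy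
      obtain ⟨σ, hσ, rfl⟩ := conj_root ha hy.2
      exact hx σ hσ
  obtain ⟨n, y, hy⟩ := (minpoly.natSepDegree_eq_one_iff_pow_mem (ringExpChar Ω)).1 h1
  exact ⟨n, hy ▸ y.2⟩

/-- fixed elements are purely inseparable; `j` is a power of the exponential characteristic -/
theorem fixed_pow {x : Ω} (hx : ∀ σ ∈ Fix S, σ x = x) {N : ℕ} (hN : (N : Ω) ≠ 0) :
    ∃ j : ℕ, 0 < j ∧ (j : ZMod N) = 1 ∧ (Function.Injective fun z : Ω => z ^ j) ∧
      x ^ j ∈ Subfield.closure S := by
  obtain ⟨n, hn⟩ := ft2_fixed hx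
  have hq : ExpChar Ω (ringExpChar Ω) := inferInstance
  generalize ringExpChar Ω = q at hn hq
  have hN0 : N ≠ 0 := by
    rintro rfl
    exact hN Nat.cast_zero
  have hc : Nat.Coprime q N := by
    cases hq with
    | zero => exact Nat.coprime_one_left N
    | prime hp =>
      exact (Nat.Prime.coprime_iff_not_dvd hp).2 fun h => hN ((CharP.cast_eq_zero_iff Ω q N).2 h)
  obtain ⟨m, hm⟩ : ∃ m, N.totient = m + 1 :=
    ⟨_, (Nat.succ_pred_eq_of_pos (Nat.totient_pos.2 (Nat.pos_of_ne_zero hN0))).symm⟩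
  refine ⟨q ^ (n * N.totient), pow_pos (expChar_pos Ω q) _, ?_,
    (iterateFrobenius Ω q (n * N.totient)).injective, ?_⟩
  · have := (ZMod.natCast_eq_natCast_iff _ _ _).2 (Nat.ModEq.pow_totient hc)
    rw [mul_comm, pow_mul, Nat.cast_pow, this, Nat.cast_one, one_pow]
  · rw [hm, mul_add, mul_one, add_comm, pow_add, pow_mul]
    exact pow_mem hn _

/-- the same for all elements at once: the fixed field is the perfect closure -/
theorem fixed_pow' {x : Ω} (hx : ∀ σ ∈ Fix S, σ x = x) :
    ∃ n : ℕ, x ^ ringExpChar Ω ^ n ∈ Subfield.closure S := by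
  exact ft2_fixed hx

theorem td_of_acl (K : Subfield Ω) {n : ℕ} (x : Fin n → Ω) {A : Set Ω}
    (h : A ⊆ Acl (K ∪ Set.range x)) : TD K A n := by
  intro y hy hi
  have h1 := (ft2_rk K y x hi (by
    rintro _ ⟨i, rfl⟩
    exact h (hy i))).trans (Matroid.eRk_le_encard _ _)
  have h2 : (Set.range x).encard ≤ n := by
    rw [← Set.image_univ]
    exact (Set.encard_image_le _ _).trans (by simp)
  have h3 := h1.trans h2
  rw [Fintype.card_fin] at h3
  exact absurd (by exact_mod_cast h3 : n + 1 ≤ n) (by omega)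

/-- `n` elements which generate a field of transcendence degree `n` are independent -/
theorem indep_of_acl (K : Subfield Ω) {n : ℕ} (x y : Fin n → Ω) (hx : AlgebraicIndependent K x)
    (h : Set.range x ⊆ Acl (K ∪ Set.range y)) : AlgebraicIndependent K y := by
  have h1 := ft2_rk K x y hx h
  have h2 := (AlgebraicIndependent.matroid K Ω).eRk_le_encard (Set.range y)
  have h3 : (Set.range y).encard ≤ (Set.univ : Set (Fin n)).encard := by
    rw [← Set.image_univ]
    exact Set.encard_image_le _ _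
  have h4 : (Set.univ : Set (Fin n)).encard = (Fintype.card (Fin n) : ℕ∞) := by simp
  have h5 : Function.Injective y := by
    rw [← Set.injOn_univ]
    refine Set.Finite.injOn_of_encard_image_eq Set.finite_univ ?_
    rw [Set.image_univ]
    exact le_antisymm h3 (h4 ▸ h1.trans h2)
  rw [← algebraicIndependent_subtype_range h5]
  exact AlgebraicIndependent.matroid_indep_iff.1
    ((Matroid.indep_iff_eRk_eq_encard_of_finite (Set.finite_range y)).2
      (le_antisymm h2 ((h3.trans_eq h4).trans h1)))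

end Pool.Agent.P.MP_ee618e_ag.X
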