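import Pool.Agent.P.MP_ee618e_ag.X.FT2

/-! G1: smooth cochains. -/

namespace Pool.Agent.P.MP_ee618e_ag.X

open IsDedekindDomain Polynomial
open scoped Classical

variable {Ω : Type} [Field Ω] {G G' : Subgroup (Au Ω)} {A A' : Set Ω} {X Y Z : Type}

theorem exists_stable (T : Finset Ω) (h : ∀ t ∈ T, {y | ∃ σ ∈ G, σ t = y}.Finite) :
    ∃ T' : Finset Ω, T ⊆ T' ∧ (∀ t ∈ T', ∃ σ ∈ G, ∃ t0 ∈ T, σ t0 = t) ∧
      ∀ σ ∈ G, ∀ t ∈ T', σ t ∈ T' := by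
  have hfin : (⋃ t ∈ (T : Set Ω), {y | ∃ σ ∈ G, σ t = y}).Finite :=
    T.finite_toSet.biUnion fun t ht => h t ht
  refine ⟨hfin.toFinset, fun t ht => ?_, fun t ht => ?_, fun σ hσ t ht => ?_⟩
  · rw [Set.Finite.mem_toFinset]
    exact Set.mem_biUnion (Finset.mem_coe.2 ht) ⟨1, G.one_mem, rfl⟩
  · rw [Set.Finite.mem_toFinset] at ht
    obtain ⟨t0, ht0, σ, hσ, e⟩ := Set.mem_iUnion₂.1 ht
    exact ⟨σ, hσ, t0, ht0, e⟩
  · rw [Set.Finite.mem_toFinset] at ht ⊢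
    obtain ⟨t0, ht0, τ, hτ, e⟩ := Set.mem_iUnion₂.1 ht
    exact Set.mem_biUnion ht0 ⟨σ * τ, G.mul_mem hσ hτ, by rw [au_mul, e]⟩

theorem exists_reps_aux (T : Finset Ω) (h : ∀ t ∈ T, {y | ∃ σ ∈ G, σ t = y}.Finite) :
    ∃ s : Finset (Au Ω), (∀ σ ∈ s, σ ∈ G) ∧ ∀ σ ∈ G, ∃ τ ∈ s, Ag T σ τ := by
  let F : Au Ω → T → Ω := fun σ t => σ t
  have hfin : (F '' (G : Set (Au Ω))).Finite := by
    refine (Set.Finite.pi' (t := fun t : T => {y | ∃ σ ∈ G, σ t = y}) fun t => h t t.2).subset ?_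
    rintro _ ⟨σ, hσ, rfl⟩ t
    exact ⟨σ, hσ, rfl⟩
  obtain ⟨s, hs, hsf, he⟩ := Set.Finite.exists_subset_finite_image_eq hfin (subset_refl _)
  refine ⟨hsf.toFinset, fun σ hσ => hs (hsf.mem_toFinset.1 hσ), fun σ hσ => ?_⟩
  have hm : F σ ∈ F '' s := by rw [he]; exact ⟨σ, hσ, rfl⟩
  obtain ⟨τ, hτ, e⟩ := hm
  exact ⟨τ, hsf.mem_toFinset.2 hτ, fun t ht => (congrFun e ⟨t, ht⟩).symm⟩

theorem relIndex_ne_zero (T : Finset Ω) (h : ∀ t ∈ T, {y | ∃ σ ∈ G, σ t = y}.Finite)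
    {W : Subgroup (Au Ω)} (hW : G ⊓ Fix ↑T ≤ W) : W.relIndex G ≠ 0 := by
  obtain ⟨s, hs, hr⟩ := exists_reps_aux T h
  have hfin : Finite (G ⧸ W.subgroupOf G) := by
    refine Finite.of_surjective
      (fun τ : s => (QuotientGroup.mk (⟨τ.1, hs τ.1 τ.2⟩ : G) : G ⧸ W.subgroupOf G)) ?_
    intro q
    obtain ⟨σ, rfl⟩ := QuotientGroup.mk_surjective q
    obtain ⟨τ, hτ, hag⟩ := hr σ.1 σ.2
    refine ⟨⟨τ, hτ⟩, ?_⟩
    rw [QuotientGroup.eq, Subgroup.mem_subgroupOf]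
    refine hW ⟨G.mul_mem (G.inv_mem (hs τ hτ)) σ.2, fun x hx => ?_⟩
    show τ.symm (σ.1 x) = x
    rw [hag x hx, τ.symm_apply_apply]
  exact Subgroup.index_ne_zero_of_finite

/-- finitely many classes -/
theorem exists_reps (T : Finset Ω) (h : ∀ t ∈ T, {y | ∃ σ ∈ G, σ t = y}.Finite) :
    ∃ s : Finset (Au Ω), (∀ σ ∈ s, σ ∈ G) ∧ ∀ σ ∈ G, ∃ τ ∈ s, Ag T σ τ := by
  exact exists_reps_aux T h

theorem Sm.finite_range {φ : Au Ω → X} (hG : FO G) (h : Sm G A φ) :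
    (φ '' (G : Set (Au Ω))).Finite := by
  obtain ⟨T, -, hT⟩ := h
  obtain ⟨s, hs, hr⟩ := exists_reps (G := G) T fun t _ => hG t
  refine (s.finite_toSet.image φ).subset ?_
  rintro _ ⟨σ, hσ, rfl⟩
  obtain ⟨τ, hτ, hag⟩ := hr σ hσ
  exact ⟨τ, hτ, (hT σ hσ τ (hs τ hτ) hag).symm⟩

theorem Sm.mono {φ : Au Ω → X} (h : Sm G A φ) (hG : G' ≤ G) (hA : A ⊆ A') : Sm G' A' φ := by
  obtain ⟨T, hT, h⟩ := h
  exact ⟨T, hT.trans hA, fun σ hσ τ hτ hag => h σ (hG hσ) τ (hG hτ) hag⟩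

theorem Sm.congr {φ ψ : Au Ω → X} (h : Sm G A φ) (e : ∀ σ ∈ G, φ σ = ψ σ) : Sm G A ψ := by
  obtain ⟨T, hT, h⟩ := h
  exact ⟨T, hT, fun σ hσ τ hτ hag => by rw [← e σ hσ, ← e τ hτ, h σ hσ τ hτ hag]⟩

theorem Sm.const (x : X) : Sm G A fun _ => x := by
  exact ⟨∅, by simp, fun _ _ _ _ _ => rfl⟩

theorem Sm.map {φ : Au Ω → X} (h : Sm G A φ) (f : X → Y) : Sm G A fun σ => f (φ σ) := by
  obtain ⟨T, hT, h⟩ := h
  exact ⟨T, hT, fun σ hσ τ hτ hag => congrArg f (h σ hσ τ hτ hag)⟩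

theorem Sm.map₂ {φ : Au Ω → X} {ψ : Au Ω → Y} (h : Sm G A φ) (h' : Sm G A ψ) (f : X → Y → Z) :
    Sm G A fun σ => f (φ σ) (ψ σ) := by
  obtain ⟨T, hT, h⟩ := h
  obtain ⟨T', hT', h'⟩ := h'
  refine ⟨T ∪ T', by rw [Finset.coe_union]; exact Set.union_subset hT hT',
    fun σ hσ τ hτ hag => ?_⟩
  show f (φ σ) (ψ σ) = f (φ τ) (ψ τ)
  rw [h σ hσ τ hτ fun t ht => hag t (Finset.mem_union_left _ ht),
    h' σ hσ τ hτ fun t ht => hag t (Finset.mem_union_right _ ht)]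

theorem Sm.pi {ι : Type} [Finite ι] {φ : ι → Au Ω → X} (h : ∀ i, Sm G A (φ i)) :
    Sm G A fun σ i => φ i σ := by
  choose T hT h using h
  have := Fintype.ofFinite ι
  refine ⟨Finset.univ.biUnion T, fun x hx => ?_, fun σ hσ τ hτ hag => funext fun i => ?_⟩
  · obtain ⟨i, -, hi⟩ := Finset.mem_biUnion.1 (Finset.mem_coe.1 hx)
    exact hT i hi
  · exact h i σ hσ τ hτ fun t ht => hag t (Finset.mem_biUnion.2 ⟨i, Finset.mem_univ i, ht⟩)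

theorem Sm.cj {φ : Au Ω → X} (h : Sm G A φ) {s : Au Ω} (hs : ∀ σ ∈ G', s⁻¹ * σ * s ∈ G)
    (hA : ∀ x ∈ A, s x ∈ A') : Sm G' A' (cj s φ) := by
  obtain ⟨T, hT, h⟩ := h
  refine ⟨T.image s, fun x hx => ?_, fun σ hσ τ hτ hag => ?_⟩
  · obtain ⟨t, ht, rfl⟩ := Finset.mem_image.1 (Finset.mem_coe.1 hx)
    exact hA t (hT ht)
  · refine h _ (hs σ hσ) _ (hs τ hτ) fun t ht => ?_
    show s⁻¹ (σ (s t)) = s⁻¹ (τ (s t))
    rw [hag (s t) (Finset.mem_image_of_mem _ ht)]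

theorem Sm2.mono {c : Au Ω → Au Ω → X} (h : Sm2 G c) (hG : G' ≤ G) : Sm2 G' c := by
  obtain ⟨T, h⟩ := h
  exact ⟨T, fun σ hσ σ' hσ' τ hτ τ' hτ' => h σ (hG hσ) σ' (hG hσ') τ (hG hτ) τ' (hG hτ')⟩

theorem Sm2.map {c : Au Ω → Au Ω → X} (h : Sm2 G c) (f : X → Y) :
    Sm2 G fun σ τ => f (c σ τ) := by
  obtain ⟨T, h⟩ := h
  exact ⟨T, fun σ hσ σ' hσ' τ hτ τ' hτ' a b => congrArg f (h σ hσ σ' hσ' τ hτ τ' hτ' a b)⟩

theorem Sm2.map₂ {c : Au Ω → Au Ω → X} {c' : Au Ω → Au Ω → Y} (h : Sm2 G c) (h' : Sm2 G c')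
    (f : X → Y → Z) : Sm2 G fun σ τ => f (c σ τ) (c' σ τ) := by
  obtain ⟨T, h⟩ := h
  obtain ⟨T', h'⟩ := h'
  refine ⟨T ∪ T', fun σ hσ σ' hσ' τ hτ τ' hτ' a b => ?_⟩
  show f (c σ τ) (c' σ τ) = f (c σ' τ') (c' σ' τ')
  rw [h σ hσ σ' hσ' τ hτ τ' hτ' (fun t ht => a t (Finset.mem_union_left _ ht))
      (fun t ht => b t (Finset.mem_union_left _ ht)),
    h' σ hσ σ' hσ' τ hτ τ' hτ' (fun t ht => a t (Finset.mem_union_right _ ht))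
      (fun t ht => b t (Finset.mem_union_right _ ht))]

theorem Sm.sm2 {φ : Au Ω → X} {ψ : Au Ω → Y} (h : Sm G A φ) (h' : Sm G A' ψ) (f : X → Y → Z) :
    Sm2 G fun σ τ => f (φ σ) (ψ τ) := by
  obtain ⟨T, -, h⟩ := h
  obtain ⟨T', -, h'⟩ := h'
  refine ⟨T ∪ T', fun σ hσ σ' hσ' τ hτ τ' hτ' a b => ?_⟩
  show f (φ σ) (ψ τ) = f (φ σ') (ψ τ')
  rw [h σ hσ σ' hσ' fun t ht => a t (Finset.mem_union_left _ ht),
    h' τ hτ τ' hτ' fun t ht => b t (Finset.mem_union_right _ ht)]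

theorem Sm.sm2_mul {φ : Au Ω → X} (hG : FO G) (h : Sm G A φ) : Sm2 G fun σ τ => φ (σ * τ) := by
  obtain ⟨T, -, h⟩ := h
  obtain ⟨T', hT, -, hst⟩ := exists_stable (G := G) T fun t _ => hG t
  refine ⟨T', fun σ hσ σ' hσ' τ hτ τ' hτ' a b => ?_⟩
  refine h _ (G.mul_mem hσ hτ) _ (G.mul_mem hσ' hτ') fun t ht => ?_
  rw [au_mul, au_mul, b t (hT ht), a _ (hst τ' hτ' t (hT ht))]

theorem Sm2.left {c : Au Ω → Au Ω → X} (h : Sm2 G c) {τ : Au Ω} (hτ : τ ∈ G) :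
    Sm G Set.univ fun σ => c σ τ := by
  obtain ⟨T, h⟩ := h
  exact ⟨T, Set.subset_univ _, fun σ hσ σ' hσ' a => h σ hσ σ' hσ' τ hτ τ hτ a fun _ _ => rfl⟩

variable [AddCommGroup X] [AddCommGroup Y] {χ : Au Ω → X} {c c' : Au Ω → Au Ω → X}

theorem Hom.one (h : Hom G χ) : χ 1 = 0 := by
  have e := h 1 G.one_mem 1 G.one_mem
  rw [mul_one] at e
  exact left_eq_add.1 e

theorem Hom.inv (h : Hom G χ) {σ : Au Ω} (hσ : σ ∈ G) : χ σ⁻¹ = -χ σ := by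
  have e := h σ⁻¹ (G.inv_mem hσ) σ hσ
  rw [inv_mul_cancel, h.one] at e
  exact eq_neg_of_add_eq_zero_left e.symm

theorem Hom.conj (h : Hom G χ) {σ τ : Au Ω} (hσ : σ ∈ G) (hτ : τ ∈ G) :
    χ (τ⁻¹ * σ * τ) = χ σ := by
  rw [h _ (G.mul_mem (G.inv_mem hτ) hσ) _ hτ, h _ (G.inv_mem hτ) _ hσ, h.inv hτ]
  abel

theorem Hom.mono (h : Hom G χ) (hG : G' ≤ G) : Hom G' χ := by
  exact fun σ hσ τ hτ => h σ (hG hσ) τ (hG hτ)

theorem Coc.mono (h : Coc G c) (hG : G' ≤ G) : Coc G' c := by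
  exact fun σ hσ τ hτ ρ hρ => h σ (hG hσ) τ (hG hτ) ρ (hG hρ)

theorem Coc.map (h : Coc G c) (f : X →+ Y) : Coc G fun σ τ => f (c σ τ) := by
  intro σ hσ τ hτ ρ hρ
  show f (c τ ρ) + f (c σ (τ * ρ)) = f (c (σ * τ) ρ) + f (c σ τ)
  rw [← map_add, ← map_add, h σ hσ τ hτ ρ hρ]

theorem Coc.sub (h : Coc G c) (h' : Coc G c') : Coc G fun σ τ => c σ τ - c' σ τ := by
  intro σ hσ τ hτ ρ hρ
  show c τ ρ - c' τ ρ + (c σ (τ * ρ) - c' σ (τ * ρ)) =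
    c (σ * τ) ρ - c' (σ * τ) ρ + (c σ τ - c' σ τ)
  rw [sub_add_sub_comm, sub_add_sub_comm, h σ hσ τ hτ ρ hρ, h' σ hσ τ hτ ρ hρ]

theorem coc_d (β : Au Ω → X) : Coc G fun σ τ => β σ + β τ - β (σ * τ) := by
  intro σ _ τ _ ρ _
  show β τ + β ρ - β (τ * ρ) + (β σ + β (τ * ρ) - β (σ * (τ * ρ))) =
    β (σ * τ) + β ρ - β (σ * τ * ρ) + (β σ + β τ - β (σ * τ))
  rw [mul_assoc]
  abel

theorem Cob.mono (h : Cob G c) (hG : G' ≤ G) : Cob G' c := by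
  obtain ⟨β, hβ, h⟩ := h
  exact ⟨β, hβ.mono hG subset_rfl, fun σ hσ τ hτ => h σ (hG hσ) τ (hG hτ)⟩

theorem Cob.congr (h : Cob G c) (e : ∀ σ ∈ G, ∀ τ ∈ G, c σ τ = c' σ τ) : Cob G c' := by
  obtain ⟨β, hβ, h⟩ := h
  exact ⟨β, hβ, fun σ hσ τ hτ => (e σ hσ τ hτ).symm.trans (h σ hσ τ hτ)⟩

theorem cob_zero : Cob G fun _ _ => (0 : X) := by
  exact ⟨fun _ => 0, Sm.const 0, fun _ _ _ _ => by simp⟩

theorem Cob.map (h : Cob G c) (f : X →+ Y) : Cob G fun σ τ => f (c σ τ) := by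
  obtain ⟨β, hβ, h⟩ := h
  refine ⟨fun σ => f (β σ), hβ.map f, fun σ hσ τ hτ => ?_⟩
  show f (c σ τ) = f (β σ) + f (β τ) - f (β (σ * τ))
  rw [h σ hσ τ hτ, map_sub, map_add]

theorem Cob.add (h : Cob G c) (h' : Cob G c') : Cob G fun σ τ => c σ τ + c' σ τ := by
  obtain ⟨β, hβ, h⟩ := h
  obtain ⟨β', hβ', h'⟩ := h'
  refine ⟨fun σ => β σ + β' σ, hβ.map₂ hβ' (· + ·), fun σ hσ τ hτ => ?_⟩
  show c σ τ + c' σ τ = β σ + β' σ + (β τ + β' τ) - (β (σ * τ) + β' (σ * τ))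
  rw [h σ hσ τ hτ, h' σ hσ τ hτ]
  abel

theorem Cob.sub (h : Cob G c) (h' : Cob G c') : Cob G fun σ τ => c σ τ - c' σ τ := by
  obtain ⟨β, hβ, h⟩ := h
  obtain ⟨β', hβ', h'⟩ := h'
  refine ⟨fun σ => β σ - β' σ, hβ.map₂ hβ' (· - ·), fun σ hσ τ hτ => ?_⟩
  show c σ τ - c' σ τ = β σ - β' σ + (β τ - β' τ) - (β (σ * τ) - β' (σ * τ))
  rw [h σ hσ τ hτ, h' σ hσ τ hτ]
  abel

theorem Cob.sum {ι : Type} (s : Finset ι) {c : ι → Au Ω → Au Ω → X} (h : ∀ i ∈ s, Cob G (c i)) :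
    Cob G fun σ τ => ∑ i ∈ s, c i σ τ := by
  induction s using Finset.induction_on with
  | empty => exact cob_zero.congr fun _ _ _ _ => by simp
  | insert i s hi ih =>
    refine ((h i (Finset.mem_insert_self i s)).add
      (ih fun j hj => h j (Finset.mem_insert_of_mem hj))).congr fun σ _ τ _ => ?_
    rw [Finset.sum_insert hi]

theorem Cob.cj (h : Cob G c) {s : Au Ω} (hs : ∀ σ ∈ G', s⁻¹ * σ * s ∈ G) :
    Cob G' fun σ τ => c (s⁻¹ * σ * s) (s⁻¹ * τ * s) := by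
  obtain ⟨β, hβ, h⟩ := h
  refine ⟨fun σ => β (s⁻¹ * σ * s), hβ.cj hs fun _ _ => Set.mem_univ _, fun σ hσ τ hτ => ?_⟩
  show c (s⁻¹ * σ * s) (s⁻¹ * τ * s) =
    β (s⁻¹ * σ * s) + β (s⁻¹ * τ * s) - β (s⁻¹ * (σ * τ) * s)
  rw [h _ (hs σ hσ) _ (hs τ hτ)]
  congr 2
  group

theorem cob_anti {X : Type} [CommRing X] {χ ψ : Au Ω → X} (h : Hom G χ) (h' : Hom G ψ)
    (s : Sm G A χ) (s' : Sm G A' ψ) : Cob G fun σ τ => χ σ * ψ τ + ψ σ * χ τ := by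
  refine ⟨fun σ => -(χ σ * ψ σ), (s.mono le_rfl (Set.subset_univ _)).map₂
    (s'.mono le_rfl (Set.subset_univ _)) fun a b => -(a * b), fun σ hσ τ hτ => ?_⟩
  show χ σ * ψ τ + ψ σ * χ τ = -(χ σ * ψ σ) + -(χ τ * ψ τ) - -(χ (σ * τ) * ψ (σ * τ))
  rw [h σ hσ τ hτ, h' σ hσ τ hτ]
  ring

theorem coc_cup {X : Type} [CommRing X] {χ ψ : Au Ω → X} (h : Hom G χ) (h' : Hom G ψ) :
    Coc G fun σ τ => χ σ * ψ τ := by
  intro σ hσ τ hτ ρ hρ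
  show χ τ * ψ ρ + χ σ * ψ (τ * ρ) = χ (σ * τ) * ψ ρ + χ σ * ψ τ
  rw [h σ hσ τ hτ, h' τ hτ ρ hρ]
  ring

variable {k : Subfield Ω} {S : Set Ω} {ψ : Au Ω → X}

theorem ch_zero : Ch k S fun _ => (0 : X) := by
  exact ⟨fun _ _ _ _ => by simp, Sm.const 0, fun _ _ => rfl, fun _ _ _ _ _ => rfl⟩

theorem Ch.map (h : Ch k S χ) (f : X →+ Y) : Ch k S fun σ => f (χ σ) := by
  refine ⟨fun σ hσ τ hτ => ?_, h.sm.map f, fun σ hσ => ?_, fun O hO σ hσ hi => ?_⟩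
  · show f (χ (σ * τ)) = f (χ σ) + f (χ τ)
    rw [h.hom σ hσ τ hτ, map_add]
  · show f (χ σ) = 0
    rw [h.out σ hσ, map_zero]
  · show f (χ σ) = 0
    rw [h.unr O hO σ hσ hi, map_zero]

/-- `f` only has to be additive on the values of `χ` -/
theorem Ch.map' (h : Ch k S χ) (f : X → Y) (h0 : f 0 = 0)
    (hf : ∀ σ τ, f (χ σ + χ τ) = f (χ σ) + f (χ τ)) : Ch k S fun σ => f (χ σ) := by
  refine ⟨fun σ hσ τ hτ => ?_, h.sm.map f, fun σ hσ => ?_, fun O hO σ hσ hi => ?_⟩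
  · show f (χ (σ * τ)) = f (χ σ) + f (χ τ)
    rw [h.hom σ hσ τ hτ, hf]
  · show f (χ σ) = 0
    rw [h.out σ hσ, h0]
  · show f (χ σ) = 0
    rw [h.unr O hO σ hσ hi, h0]

theorem Ch.add (h : Ch k S χ) (h' : Ch k S ψ) : Ch k S fun σ => χ σ + ψ σ := by
  refine ⟨fun σ hσ τ hτ => ?_, h.sm.map₂ h'.sm (· + ·), fun σ hσ => ?_, fun O hO σ hσ hi => ?_⟩
  · show χ (σ * τ) + ψ (σ * τ) = χ σ + ψ σ + (χ τ + ψ τ)
    rw [h.hom σ hσ τ hτ, h'.hom σ hσ τ hτ]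
    abel
  · show χ σ + ψ σ = 0
    rw [h.out σ hσ, h'.out σ hσ, add_zero]
  · show χ σ + ψ σ = 0
    rw [h.unr O hO σ hσ hi, h'.unr O hO σ hσ hi, add_zero]

theorem Ch.sub (h : Ch k S χ) (h' : Ch k S ψ) : Ch k S fun σ => χ σ - ψ σ := by
  refine ⟨fun σ hσ τ hτ => ?_, h.sm.map₂ h'.sm (· - ·), fun σ hσ => ?_, fun O hO σ hσ hi => ?_⟩
  · show χ (σ * τ) - ψ (σ * τ) = χ σ - ψ σ + (χ τ - ψ τ)
    rw [h.hom σ hσ τ hτ, h'.hom σ hσ τ hτ]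
    abel
  · show χ σ - ψ σ = 0
    rw [h.out σ hσ, h'.out σ hσ, sub_zero]
  · show χ σ - ψ σ = 0
    rw [h.unr O hO σ hσ hi, h'.unr O hO σ hσ hi, sub_zero]

theorem Ch.sum {ι : Type} (s : Finset ι) {χ : ι → Au Ω → X} (h : ∀ i ∈ s, Ch k S (χ i)) :
    Ch k S fun σ => ∑ i ∈ s, χ i σ := by
  induction s using Finset.induction_on with
  | empty => simpa using ch_zero
  | insert i s hi ih =>
    have e := (h i (Finset.mem_insert_self i s)).add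
      (ih fun j hj => h j (Finset.mem_insert_of_mem hj))
    simpa only [Finset.sum_insert hi] using e

theorem Ch.of_closure {S' : Set Ω} (h : Ch k S χ)
    (e : Subfield.closure S = Subfield.closure S') : Ch k S' χ := by
  have e1 : Fix S' = Fix S := by rw [← fix_closure S', ← e, fix_closure]
  have e2 : Acl S' = Acl S := by unfold Acl; rw [e]
  refine ⟨?_, ?_, ?_, ?_⟩
  · rw [e1]; exact h.hom
  · rw [e1, e2]; exact h.sm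
  · rw [e1]; exact h.out
  · rw [e1]; exact h.unr

theorem Ch.cj_self (h : Ch k S χ) {s : Au Ω} (hs : s ∈ Fix S) : cj s χ = χ := by
  funext σ
  show χ (s⁻¹ * σ * s) = χ σ
  by_cases hσ : σ ∈ Fix S
  · exact h.hom.conj hσ hs
  · rw [h.out σ hσ]
    refine h.out _ fun hh => hσ ?_
    have e : σ = s * (s⁻¹ * σ * s) * s⁻¹ := by group
    rw [e]
    exact (Fix S).mul_mem ((Fix S).mul_mem hs hh) ((Fix S).inv_mem hs)

end Pool.Agent.P.MP_ee618e_ag.X
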