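import Pool.Agent.P.MP_ee618e_ag.X.G1

/-! G2: Hilbert 90, Kummer theory, the Galois correspondence for open subgroups. -/

namespace Pool.Agent.P.MP_ee618e_ag.X

open IsDedekindDomain Polynomial
open scoped Classical

variable {Ω : Type} [Field Ω] {G : Subgroup (Au Ω)}

/-- Enlarge `T` to a stable set, let `M` be the fixed field of `G ⊓ Fix T`; the values of `b`
are in `M`; `x⁻¹ = ∑ b(s) s(y)` over representatives `s`, nonzero for some `y ∈ M` by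
`linearIndependent_monoidHom` (two elements of `G` agree on `M` iff they agree on `T`). -/
theorem h90 (T : Finset Ω) (hT : ∀ t ∈ T, {y | ∃ σ ∈ G, σ t = y}.Finite) (b : Au Ω → Ω)
    (h0 : ∀ σ ∈ G, b σ ≠ 0) (hb : ∀ σ ∈ G, ∀ τ ∈ G, b (σ * τ) = b σ * σ (b τ))
    (hs : ∀ σ ∈ G, ∀ τ ∈ G, Ag T σ τ → b σ = b τ) : ∃ x, x ≠ 0 ∧ ∀ σ ∈ G, σ x = b σ * x := by
  let M : Submonoid Ω :=
    { carrier := {y | ∀ σ ∈ G, Ag T σ 1 → σ y = y}
      mul_mem' := fun {y z} hy hz σ hσ h => by rw [map_mul, hy σ hσ h, hz σ hσ h]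
      one_mem' := fun σ _ _ => map_one σ }
  let res : Au Ω → (M →* Ω) := fun σ => (σ : Ω →* Ω).comp M.subtype
  have hres : ∀ σ (y : M), res σ y = σ y := fun _ _ => rfl
  have h1 : ∀ σ τ, res σ = res τ → Ag T σ τ := fun σ τ h t ht => by
    have := DFunLike.congr_fun h (⟨t, fun ρ _ hρ => hρ t ht⟩ : M)
    exact this
  have h2 : ∀ σ ∈ G, ∀ τ ∈ G, Ag T σ τ → res σ = res τ := fun σ hσ τ hτ h => by
    ext y
    have := y.2 (τ⁻¹ * σ) (G.mul_mem (G.inv_mem hτ) hσ) fun t ht => by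
      rw [au_mul, au_inv, h t ht, τ.symm_apply_apply]
      rfl
    rw [au_mul, au_inv, τ.symm_apply_eq] at this
    exact this
  obtain ⟨s, hsG, hs2⟩ := exists_reps T hT
  let C : Finset (M →* Ω) := s.image res
  have hC : ∀ f, f ∈ C ↔ ∃ σ ∈ G, res σ = f := fun f => by
    constructor
    · intro hf
      obtain ⟨σ, hσ, rfl⟩ := Finset.mem_image.1 hf
      exact ⟨σ, hsG σ hσ, rfl⟩
    · rintro ⟨σ, hσ, rfl⟩
      obtain ⟨τ, hτ, h⟩ := hs2 σ hσ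
      exact Finset.mem_image.2 ⟨τ, hτ, (h2 σ hσ τ (hsG τ hτ) h).symm⟩
  let B : (M →* Ω) → Ω := fun f => if h : ∃ σ ∈ G, res σ = f then b h.choose else 0
  have hB : ∀ σ ∈ G, B (res σ) = b σ := fun σ hσ => by
    have h : ∃ τ ∈ G, res τ = res σ := ⟨σ, hσ, rfl⟩
    simp only [B, dif_pos h]
    exact hs _ h.choose_spec.1 σ hσ (h1 _ _ h.choose_spec.2)
  obtain ⟨y, hy⟩ : ∃ y : M, ∑ f ∈ C, B f * f y ≠ 0 := by
    by_contra hcon
    push Not at hcon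
    have := linearIndependent_iff'.1 (linearIndependent_monoidHom M Ω) C B
      (by funext y; simpa [Finset.sum_apply] using hcon y) (res 1) ((hC _).2 ⟨1, G.one_mem, rfl⟩)
    rw [hB 1 G.one_mem] at this
    exact h0 1 G.one_mem this
  refine ⟨(∑ f ∈ C, B f * f y)⁻¹, inv_ne_zero hy, fun σ hσ => ?_⟩
  have key : b σ * σ (∑ f ∈ C, B f * f y) = ∑ f ∈ C, B f * f y := by
    rw [map_sum, Finset.mul_sum]
    refine Finset.sum_nbij' (fun f => (σ : Ω →* Ω).comp f) (fun f => (σ⁻¹ : Au Ω).toMonoidHom.comp f)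
      ?_ ?_ ?_ ?_ ?_
    · intro f hf
      obtain ⟨τ, hτ, rfl⟩ := (hC f).1 hf
      exact (hC _).2 ⟨σ * τ, G.mul_mem hσ hτ, rfl⟩
    · intro f hf
      obtain ⟨τ, hτ, rfl⟩ := (hC f).1 hf
      exact (hC _).2 ⟨σ⁻¹ * τ, G.mul_mem (G.inv_mem hσ) hτ, rfl⟩
    · intro f _
      ext z
      exact σ.symm_apply_apply _
    · intro f _
      ext z
      exact σ.apply_symm_apply _
    · intro f hf
      obtain ⟨τ, hτ, rfl⟩ := (hC f).1 hf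
      have : (σ : Ω →* Ω).comp (res τ) = res (σ * τ) := rfl
      rw [this, hB _ (G.mul_mem hσ hτ), hB τ hτ, hb σ hσ τ hτ, map_mul, mul_assoc]
      rfl
  have hb0 := h0 σ hσ
  rw [map_inv₀, ← key, mul_inv, ← mul_assoc, mul_inv_cancel₀ hb0, one_mul, key]

theorem pow_val_add {N : ℕ} {ζ : Ω} (hζ : IsPrimitiveRoot ζ N) (hN : N ≠ 0) (a b : ZMod N) :
    ζ ^ (a + b).val = ζ ^ a.val * ζ ^ b.val := by
  have : NeZero N := ⟨hN⟩
  rw [ZMod.val_add, ← pow_add]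
  conv_rhs => rw [← Nat.mod_add_div (a.val + b.val) N, pow_add, pow_mul, hζ.pow_eq_one, one_pow,
    mul_one]

theorem pow_val_inj {N : ℕ} {ζ : Ω} (hζ : IsPrimitiveRoot ζ N) (hN : N ≠ 0) {a b : ZMod N}
    (h : ζ ^ a.val = ζ ^ b.val) : a = b := by
  have : NeZero N := ⟨hN⟩
  exact ZMod.val_injective N (hζ.pow_inj (ZMod.val_lt a) (ZMod.val_lt b) h)

theorem pow_val_cast {N : ℕ} {ζ : Ω} (hζ : IsPrimitiveRoot ζ N) (hN : N ≠ 0) (n : ℕ) :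
    ζ ^ (n : ZMod N).val = ζ ^ n := by
  have : NeZero N := ⟨hN⟩
  rw [ZMod.val_natCast]
  conv_rhs => rw [← Nat.mod_add_div n N, pow_add, pow_mul, hζ.pow_eq_one, one_pow, mul_one]

theorem exists_pow_val {N : ℕ} {ζ η : Ω} (hζ : IsPrimitiveRoot ζ N) (hN : N ≠ 0)
    (h : η ^ N = 1) : ∃ a : ZMod N, η = ζ ^ a.val := by
  have : NeZero N := ⟨hN⟩
  obtain ⟨i, -, hi⟩ := hζ.eq_pow_of_pow_eq_one h
  exact ⟨i, by rw [pow_val_cast hζ hN, hi]⟩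

theorem kummer {N : ℕ} {ζ : Ω} (hζ : IsPrimitiveRoot ζ N) (hN : N ≠ 0) (hG : ∀ σ ∈ G, σ ζ = ζ)
    {A : Set Ω} (hA : ∀ t ∈ A, {y | ∃ σ ∈ G, σ t = y}.Finite) {χ : Au Ω → ZMod N}
    (h : Hom G χ) (hs : Sm G A χ) : ∃ r, Kum ζ G r χ := by
  obtain ⟨T, hT, hs⟩ := hs
  exact h90 T (fun t ht => hA t (hT ht)) (fun σ => ζ ^ (χ σ).val)
    (fun _ _ => pow_ne_zero _ (hζ.ne_zero hN))
    (fun σ hσ τ hτ => by rw [h σ hσ τ hτ, pow_val_add hζ hN, map_pow, hG σ hσ])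
    (fun σ hσ τ hτ e => by rw [hs σ hσ τ hτ e])

/-- the character of an element whose `N`-th power is fixed -/
theorem exists_kum {N : ℕ} {ζ : Ω} (hζ : IsPrimitiveRoot ζ N) (hN : N ≠ 0) {r : Ω} (hr : r ≠ 0)
    (h : ∀ σ ∈ G, σ (r ^ N) = r ^ N) :
    ∃ χ : Au Ω → ZMod N, (∀ σ ∉ G, χ σ = 0) ∧ Kum ζ G r χ := by
  have key : ∀ σ : Au Ω, ∃ a : ZMod N, (σ ∉ G → a = 0) ∧ (σ ∈ G → σ r = ζ ^ a.val * r) := by
    intro σ
    by_cases hσ : σ ∈ G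
    · obtain ⟨a, ha⟩ := exists_pow_val (η := σ r / r) hζ hN (by
        rw [div_pow, ← map_pow, h σ hσ, div_self (pow_ne_zero _ hr)])
      exact ⟨a, fun h' => absurd hσ h', fun _ => by rw [← ha, div_mul_cancel₀ _ hr]⟩
    · exact ⟨0, fun _ => rfl, fun h' => absurd h' hσ⟩
  choose χ h1 h2 using key
  exact ⟨χ, h1, hr, h2⟩

theorem Kum.hom {N : ℕ} {ζ r : Ω} (hζ : IsPrimitiveRoot ζ N) (hN : N ≠ 0)
    (hG : ∀ σ ∈ G, σ ζ = ζ) {χ : Au Ω → ZMod N} (h : Kum ζ G r χ) : Hom G χ := by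
  intro σ hσ τ hτ
  refine pow_val_inj hζ hN (mul_right_cancel₀ h.1 ?_)
  rw [← h.2 _ (G.mul_mem hσ hτ), au_mul, h.2 τ hτ, map_mul, map_pow, hG σ hσ, h.2 σ hσ,
    pow_val_add hζ hN]
  ring

theorem Kum.sm {N : ℕ} {ζ r : Ω} (hζ : IsPrimitiveRoot ζ N) (hN : N ≠ 0) {χ : Au Ω → ZMod N}
    (h : Kum ζ G r χ) {A : Set Ω} (hr : r ∈ A) : Sm G A χ := by
  refine ⟨{r}, by simpa using hr, fun σ hσ τ hτ e => ?_⟩
  refine pow_val_inj hζ hN (mul_right_cancel₀ h.1 ?_)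
  rw [← h.2 σ hσ, ← h.2 τ hτ]
  exact e r (Finset.mem_singleton_self r)

/-- the same with `r ^ N` in the field itself (`fixed_pow`: replace `r` by `r ^ j`) -/
theorem kummer_fix [IsAlgClosed Ω] {N : ℕ} {ζ : Ω} (hζ : IsPrimitiveRoot ζ N) (hN : (N : Ω) ≠ 0)
    {S : Set Ω} (hS : ζ ∈ Subfield.closure S) {χ : Au Ω → ZMod N} (h : Hom (Fix S) χ)
    (hs : Sm (Fix S) (Acl S) χ) : ∃ r, Kum ζ (Fix S) r χ ∧ r ^ N ∈ Subfield.closure S := by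
  have hN0 : N ≠ 0 := by
    rintro rfl
    exact hN Nat.cast_zero
  have : NeZero N := ⟨hN0⟩
  have hG : ∀ σ ∈ Fix S, σ ζ = ζ := fun σ hσ => by
    rw [← fix_closure] at hσ
    exact hσ ζ hS
  obtain ⟨r, hr0, hr⟩ := kummer hζ hN0 hG (fun t ht => orbit_finite ht) h hs
  obtain ⟨j, -, hj, -, hj2⟩ := fixed_pow (S := S) (x := r ^ N) (fun σ hσ => by
    rw [map_pow, hr σ hσ, mul_pow, ← pow_mul, mul_comm _ N, pow_mul, hζ.pow_eq_one, one_pow,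
      one_mul]) hN
  refine ⟨r ^ j, ⟨pow_ne_zero _ hr0, fun σ hσ => ?_⟩, by rwa [← pow_mul, mul_comm, pow_mul]⟩
  rw [map_pow, hr σ hσ, mul_pow, ← pow_mul, ← pow_val_cast hζ hN0 ((χ σ).val * j), Nat.cast_mul, hj,
    mul_one, ZMod.natCast_zmod_val]

end Pool.Agent.P.MP_ee618e_ag.X
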