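import Pool.Agent.P.MP_ee618e_ag.X.H4
import Pool.Agent.P.MP_ee618e_ag.X.F3

/-! Ge1: hyperelliptic curves inside `Ω`. -/

namespace Pool.Agent.P.MP_ee618e_ag.X

open IsDedekindDomain Polynomial
open scoped Classical

variable {Ω : Type} [Field Ω]

/-- `C` is the curve `y ^ 2 + H(x) y = F(x)` -/
structure HF (C : Fib Ω) (g : ℕ) (H F : Polynomial Ω) (x y : Ω) : Prop where
  R0_eq : C.R0 = Algebra.adjoin C.k {x, y}
  cH : ∀ i, H.coeff i ∈ C.k
  cF : ∀ i, F.coeff i ∈ C.k
  tr : x ∉ C.A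
  hyp : ∃ (h f : C.A[X]) (x' y' : C.R), (x' : Ω) = x ∧ (y' : Ω) = y ∧ h.map C.A.subtype = H ∧
    f.map C.A.subtype = F ∧ Hyp C.A g h f x' y'

theorem hyp_span {K : Subfield Ω} {h f : K[X]} {x y : Ω}
    (rel : y ^ 2 + aeval x h * y = aeval x f) {r : Ω} (hr : r ∈ Algebra.adjoin K {x, y}) :
    ∃ p q : K[X], r = aeval x p + aeval x q * y := by
  induction hr using Algebra.adjoin_induction with
  | mem z hz =>
    rcases hz with rfl | rfl
    · exact ⟨Polynomial.X, 0, by simp⟩
    · exact ⟨0, 1, by simp⟩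
  | algebraMap c => exact ⟨Polynomial.C c, 0, by simp⟩
  | add a b _ _ ha hb =>
    obtain ⟨p, q, rfl⟩ := ha
    obtain ⟨p', q', rfl⟩ := hb
    exact ⟨p + p', q + q', by simp only [map_add]; ring⟩
  | mul a b _ _ ha hb =>
    obtain ⟨p, q, rfl⟩ := ha
    obtain ⟨p', q', rfl⟩ := hb
    refine ⟨p * p' + q * q' * f, p * q' + p' * q - q * q' * h, ?_⟩
    simp only [map_add, map_sub, map_mul]
    linear_combination aeval x q * aeval x q' * rel

/-- `norm_ne_zero`; the span of the `x ^ i`, `x ^ i y` is a subalgebra -/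
theorem hyp_adjoin (K : Subfield Ω) {g : ℕ} {h f : K[X]} {x y : Ω} (hx : Transcendental K x)
    (hf : f.natDegree = 2 * g + 1) (hh : h.natDegree ≤ g) (rel : y ^ 2 + aeval x h * y = aeval x f)
    (sm : ∃ a ∈ Algebra.adjoin K {x, y}, ∃ b ∈ Algebra.adjoin K {x, y},
      a * (2 * y + aeval x h) + b * (aeval x (derivative h) * y - aeval x (derivative f)) = 1) :
    Hyp K g h f (⟨x, Algebra.subset_adjoin (by simp)⟩ : Algebra.adjoin K {x, y})
      ⟨y, Algebra.subset_adjoin (by simp)⟩ := by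
  refine ⟨Subtype.ext ?_, fun r => ?_, fun p q h0 => ?_, hf, hh, ?_⟩
  · simpa [aeval_subalgebra_coe] using rel
  · obtain ⟨p, q, e⟩ := hyp_span rel r.2
    exact ⟨p, q, Subtype.ext (by simpa [aeval_subalgebra_coe] using e)⟩
  · have h1 : aeval x p + aeval x q * y = 0 := by
      simpa [aeval_subalgebra_coe] using congrArg Subtype.val h0
    have h2 : aeval x (p ^ 2 + h * p * (-q) - f * (-q) ^ 2) = 0 := by
      simp only [map_sub, map_add, map_mul, map_pow, map_neg]
      linear_combination (aeval x p - aeval x q * aeval x h - aeval x q * y) * h1 +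
        aeval x q ^ 2 * rel
    have h3 := norm_ne_zero hf hh (transcendental_iff.1 hx _ h2)
    exact ⟨h3.1, neg_eq_zero.1 h3.2⟩
  · obtain ⟨a, ha, b, hb, e⟩ := sm
    refine ⟨⟨a, ha⟩, ⟨b, hb⟩, Subtype.ext ?_⟩
    have h2 : ((2 : Algebra.adjoin K {x, y}) : Ω) = 2 := rfl
    simpa [aeval_subalgebra_coe, h2] using e

section Val

variable {Γ : Type} [LinearOrderedCommGroupWithZero Γ] {K : Subfield Ω} (v : Valuation Ω Γ)
  [v.IsTrivialOn K] {x y : Ω}

theorem val_aeval_le (hx : 1 < v x) (p : K[X]) {n : ℕ} (hn : p.natDegree ≤ n) :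
    v (aeval x p) ≤ v x ^ n := by
  by_cases hp : p = 0
  · rw [hp, map_zero, map_zero]
    exact zero_le
  · rw [valuation_aeval_eq_valuation_X_pow_natDegree_of_one_lt_valuation_X x hx hp]
    exact pow_le_pow_right₀ hx.le hn

theorem val_y {g : ℕ} {h f : K[X]} (hx : 1 < v x) (hf : f.natDegree = 2 * g + 1)
    (hh : h.natDegree ≤ g) (rel : y ^ 2 + aeval x h * y = aeval x f) :
    v y ^ 2 = v x ^ (2 * g + 1) := by
  have f0 : f ≠ 0 := by
    rintro rfl
    simp at hf
  have e : v (y + aeval x h) * v y = v x ^ (2 * g + 1) := by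
    rw [← map_mul, add_mul, ← sq, rel,
      valuation_aeval_eq_valuation_X_pow_natDegree_of_one_lt_valuation_X x hx f0, hf]
  have h1 := val_aeval_le v hx h hh
  have h2 : v x ^ g < v y := by
    by_contra hn
    rw [not_lt] at hn
    have h3 := mul_le_mul' (v.map_add_le hn h1) hn
    rw [e, ← pow_add] at h3
    have := (pow_le_pow_iff_right₀ hx).1 h3
    omega
  rw [v.map_add_eq_of_lt_left (h1.trans_lt h2)] at e
  rw [sq, e]

theorem val_sq {g : ℕ} (hx : 1 < v x) (hy : v y ^ 2 = v x ^ (2 * g + 1)) {p q : K[X]}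
    (h0 : p ≠ 0 ∨ q ≠ 0) : v (aeval x p + aeval x q * y) ^ 2 =
      v x ^ max (2 * p.natDegree) (if q = 0 then 0 else 2 * q.natDegree + 2 * g + 1) := by
  have ev := fun (p : K[X]) (hp : p ≠ 0) =>
    valuation_aeval_eq_valuation_X_pow_natDegree_of_one_lt_valuation_X (v := v) x hx hp
  by_cases hq : q = 0
  · rw [if_pos hq, hq, map_zero, zero_mul, add_zero, ev p (h0.resolve_right (not_not.2 hq)),
      ← pow_mul, mul_comm, Nat.max_zero]
  rw [if_neg hq]
  have e2 : v (aeval x q * y) ^ 2 = v x ^ (2 * q.natDegree + 2 * g + 1) := by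
    rw [map_mul, mul_pow, hy, ev q hq, ← pow_mul, ← pow_add, mul_comm, add_assoc]
  by_cases hp : p = 0
  · rw [hp, map_zero, zero_add, e2, natDegree_zero, mul_zero, Nat.zero_max]
  have e1 : v (aeval x p) ^ 2 = v x ^ (2 * p.natDegree) := by
    rw [ev p hp, ← pow_mul, mul_comm]
  rcases lt_trichotomy (2 * p.natDegree) (2 * q.natDegree + 2 * g + 1) with h | h | h
  · rw [max_eq_right h.le, ← e2, v.map_add_eq_of_lt_right]
    refine lt_of_pow_lt_pow_left' 2 ?_
    rw [e1, e2]
    exact pow_lt_pow_right₀ hx h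
  · omega
  · rw [max_eq_left h.le, ← e1, v.map_add_eq_of_lt_left]
    refine lt_of_pow_lt_pow_left' 2 ?_
    rw [e1, e2]
    exact pow_lt_pow_right₀ hx h

end Val

theorem aeval_mem_val {K : Subfield Ω} (O : ValuationSubring Ω) (hK : (K : Set Ω) ⊆ O) {x : Ω}
    (hx : x ∈ O) (p : K[X]) : aeval x p ∈ O := by
  rw [aeval_eq_sum_range]
  exact sum_mem fun i _ => mul_mem (hK (p.coeff i).2) (pow_mem hx i)

/-- if `x ∈ O` then `y ∈ O`; otherwise the square of the valuation of `r` is the `hdg r`-th power of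
the valuation of `x` -/
theorem hyp_inf {K : Subfield Ω} {R : Subalgebra K Ω} {g : ℕ} {h f : K[X]} {x y : R}
    (H : Hyp K g h f x y) (O : ValuationSubring Ω) (hK : (K : Set Ω) ⊆ O)
    (hR : ¬ (R : Set Ω) ⊆ O) {a b : R} (hb : b ≠ 0) (hab : hdg K g x y a ≤ hdg K g x y b) :
    (a : Ω) / b ∈ O := by
  have : O.valuation.IsTrivialOn K := ⟨fun c hc => by
    have h1 : O.valuation (c : Ω) ≤ 1 := (O.valuation_le_one_iff _).2 (hK c.2)
    have h2 : O.valuation (c : Ω)⁻¹ ≤ 1 := (O.valuation_le_one_iff _).2 (hK (inv_mem c.2))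
    have h0 : O.valuation (c : Ω) ≠ 0 := by simpa using hc
    rw [map_inv₀, inv_le_one₀ (zero_lt_iff.2 h0)] at h2
    exact le_antisymm h1 h2⟩
  have rel : (y : Ω) ^ 2 + aeval (x : Ω) h * y = aeval (x : Ω) f := by
    rw [← aeval_subalgebra_coe, ← aeval_subalgebra_coe]
    exact congrArg Subtype.val H.rel
  have co : ∀ p q : K[X], ((aeval x p + aeval x q * y : R) : Ω) =
      aeval (x : Ω) p + aeval (x : Ω) q * y := fun p q => by
    rw [← aeval_subalgebra_coe, ← aeval_subalgebra_coe]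
    rfl
  have hx : 1 < O.valuation (x : Ω) := by
    by_contra hn
    rw [not_lt, O.valuation_le_one_iff] at hn
    have hy : (y : Ω) ∈ O := by
      by_contra hy
      rw [← O.valuation_le_one_iff, not_le] at hy
      have h1 := (O.valuation_le_one_iff _).2 (aeval_mem_val O hK hn h)
      have h2 := (O.valuation_le_one_iff _).2 (aeval_mem_val O hK hn f)
      rw [← rel, sq, ← add_mul, map_mul, O.valuation.map_add_eq_of_lt_left (h1.trans_lt hy)] at h2
      exact absurd h2 (not_le.2 (one_lt_mul'' hy hy))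
    refine hR fun r hr => ?_
    obtain ⟨p, q, e⟩ := H.span ⟨r, hr⟩
    have : r = _ := (congrArg Subtype.val e).trans (co p q)
    rw [this]
    exact add_mem (aeval_mem_val O hK hn p) (mul_mem (aeval_mem_val O hK hn q) hy)
  have hy := val_y O.valuation hx H.degf H.degh rel
  have key : ∀ r : R, r ≠ 0 → O.valuation (r : Ω) ^ 2 = O.valuation (x : Ω) ^ hdg K g x y r := by
    intro r hr
    obtain ⟨p, q, rfl⟩ := H.span r
    rw [H.hdg_eq, co]
    have h0 : p ≠ 0 ∨ q ≠ 0 := by
      by_contra hn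
      push Not at hn
      exact hr (by simp [hn.1, hn.2])
    have := val_sq O.valuation hx hy h0
    convert this
  by_cases ha : a = 0
  · rw [ha, ZeroMemClass.coe_zero, zero_div]
    exact zero_mem _
  have h0 : O.valuation (b : Ω) ≠ 0 := by simpa using hb
  rw [← O.valuation_le_one_iff, map_div₀, div_le_one₀ (zero_lt_iff.2 h0)]
  refine (pow_le_pow_iff_left₀ zero_le zero_le two_ne_zero).1 ?_
  rw [key a ha, key b hb]
  exact pow_le_pow_right₀ hx.le hab

/-- write `w i` in the basis `x ^ j`, `x ^ j y` and apply `k`-linear forms on `A` -/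
theorem hyp_dis {k A : Subfield Ω} (hkA : k ≤ A) {x y : Ω}
    (span : ∀ r ∈ Algebra.adjoin k {x, y}, ∃ p q : k[X], r = aeval x p + aeval x q * y)
    (indep : ∀ p q : A[X], aeval x p + aeval x q * y = 0 → p = 0 ∧ q = 0) {n : ℕ} (w : Fin n → Ω)
    (hw : ∀ i, w i ∈ Algebra.adjoin k {x, y}) (hl : LinearIndependent k w) :
    LinearIndependent A w := by
  choose p q e using fun i => span (w i) (hw i)
  rw [Fintype.linearIndependent_iff] at hl ⊢
  intro a ha
  let ι : k →+* A := Subfield.inclusion hkA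
  have ev : ∀ s : k[X], aeval x (s.map ι) = aeval x s := fun s => by
    rw [aeval_def, eval₂_map, aeval_def]
    rfl
  obtain ⟨h1, h2⟩ := indep (∑ i, Polynomial.C (a i) * (p i).map ι)
    (∑ i, Polynomial.C (a i) * (q i).map ι) (by
      rw [← ha, map_sum, map_sum, Finset.sum_mul, ← Finset.sum_add_distrib]
      refine Finset.sum_congr rfl fun i _ => ?_
      rw [map_mul, map_mul, ev, ev, aeval_C, e i, Algebra.smul_def]
      ring)
  have key : ∀ (φ : Module.Dual k Ω) (s : Fin n → k[X]),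
      ∑ i, Polynomial.C (a i) * (s i).map ι = 0 → ∑ i, φ (a i) • s i = 0 := by
    intro φ s hs
    ext j
    have h3 := congrArg (fun t : A[X] => φ (t.coeff j : Ω)) hs
    simp only [finsetSum_coeff, coeff_C_mul, coeff_map, coeff_zero,
      AddSubmonoidClass.coe_finsetSum, map_sum, ZeroMemClass.coe_zero, map_zero] at h3
    rw [finsetSum_coeff, coeff_zero, ← h3]
    congr 1
    refine Finset.sum_congr rfl fun i _ => ?_
    rw [coeff_smul, smul_eq_mul, mul_comm, ← smul_eq_mul, ← map_smul, mul_comm]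
    rfl
  intro i
  refine Subtype.ext ((Module.forall_dual_apply_eq_zero_iff k _).1 fun φ =>
    hl (fun i => φ (a i)) ?_ i)
  have h3 := congrArg (aeval x) (key φ p h1)
  have h4 := congrArg (aeval x) (key φ q h2)
  simp only [map_sum, map_smul, map_zero] at h3 h4
  calc ∑ i, φ (a i) • w i
      = ∑ i, φ (a i) • aeval x (p i) + (∑ i, φ (a i) • aeval x (q i)) * y := by
        rw [Finset.sum_mul, ← Finset.sum_add_distrib]
        refine Finset.sum_congr rfl fun i _ => ?_
        rw [e i, smul_add, smul_mul_assoc]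
    _ = 0 := by rw [h3, h4, zero_mul, add_zero]

end Pool.Agent.P.MP_ee618e_ag.X
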