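import Pool.Agent.P.MP_ee618e_ag.X.Ge1

/-! Ge1b: construction of the fibred curve. -/

namespace Pool.Agent.P.MP_ee618e_ag.X

open IsDedekindDomain Polynomial
open scoped Classical

variable {Ω : Type} [Field Ω]

namespace Ge1bP

theorem lift_poly (K : Subfield Ω) {H : Polynomial Ω} (c : ∀ i, H.coeff i ∈ K) :
    ∃ h : K[X], h.map K.subtype = H := by
  have : H ∈ lifts K.subtype :=
    (lifts_iff_coeff_lifts H).2 fun i => ⟨⟨H.coeff i, c i⟩, rfl⟩
  exact (mem_lifts H).1 this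

theorem aeval_eq (K : Subfield Ω) (h : K[X]) (x : Ω) : aeval x h = (h.map K.subtype).eval x := by
  rw [aeval_def, eval₂_eq_eval_map]
  rfl

theorem map_adjoin {k : Subfield Ω} {x y : Ω} {B : Subring Ω} (φ : Ω →+* Ω)
    (hk : ∀ c ∈ k, φ c ∈ B) (hx : φ x ∈ B) (hy : φ y ∈ B) {z : Ω}
    (hz : z ∈ Algebra.adjoin k ({x, y} : Set Ω)) : φ z ∈ B := by
  induction hz using Algebra.adjoin_induction with
  | mem z hz =>
    rcases hz with rfl | rfl
    · exact hx
    · exact hy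
  | algebraMap c => exact hk c c.2
  | add a b _ _ ha hb => rw [map_add]; exact B.add_mem ha hb
  | mul a b _ _ ha hb => rw [map_mul]; exact B.mul_mem ha hb

theorem adjoin_sub {k A : Subfield Ω} (h : k ≤ A) {x y z : Ω}
    (hz : z ∈ Algebra.adjoin k ({x, y} : Set Ω)) : z ∈ Algebra.adjoin A ({x, y} : Set Ω) :=
  map_adjoin (B := (Algebra.adjoin A ({x, y} : Set Ω)).toSubring) (RingHom.id Ω)
    (fun c hc => (Algebra.adjoin A ({x, y} : Set Ω)).algebraMap_mem ⟨c, h hc⟩)
    (Algebra.subset_adjoin (s := ({x, y} : Set Ω)) (by simp))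
    (Algebra.subset_adjoin (s := ({x, y} : Set Ω)) (by simp)) hz

theorem hyp_of (K : Subfield Ω) {x y : Ω} (hx : Transcendental K x) {g : ℕ}
    {H F : Polynomial Ω} (cH : ∀ i, H.coeff i ∈ K) (cF : ∀ i, F.coeff i ∈ K)
    (hF : F.natDegree = 2 * g + 1) (hH : H.natDegree ≤ g) (rel : y ^ 2 + H.eval x * y = F.eval x)
    (sm : ∃ a ∈ Algebra.adjoin K {x, y}, ∃ b ∈ Algebra.adjoin K {x, y},
      a * (2 * y + H.eval x) + b * ((derivative H).eval x * y - (derivative F).eval x) = 1) :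
    ∃ h f : K[X], h.map K.subtype = H ∧ f.map K.subtype = F ∧
      Hyp K g h f (⟨x, Algebra.subset_adjoin (by simp)⟩ : Algebra.adjoin K {x, y})
        ⟨y, Algebra.subset_adjoin (by simp)⟩ := by
  obtain ⟨h, rfl⟩ := lift_poly K cH
  obtain ⟨f, rfl⟩ := lift_poly K cF
  rw [natDegree_map_eq_of_injective K.subtype.injective] at hF hH
  refine ⟨h, f, rfl, rfl, hyp_adjoin K hx hF hH ?_ ?_⟩
  · rw [aeval_eq, aeval_eq]
    exact rel
  · simp only [aeval_eq, ← derivative_map]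
    exact sm

theorem aeval_inc {k A : Subfield Ω} (h : k ≤ A) (p : k[X]) (x : Ω) :
    aeval x (p.map (Subfield.inclusion h)) = aeval x p := by
  rw [aeval_eq, aeval_eq, Polynomial.map_map]
  rfl

theorem st_of {S : Set Ω} {α : Au Ω} (h : ∀ z ∈ S, α z ∈ S) (h' : ∀ z ∈ S, α.symm z ∈ S) :
    α ∈ St S := fun z => ⟨fun hz => by simpa using h' _ hz, h z⟩

theorem eval_mem {B : Subring Ω} {H : Polynomial Ω} (c : ∀ i, H.coeff i ∈ B) {x : Ω}
    (hx : x ∈ B) : H.eval x ∈ B := by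
  rw [eval_eq_sum_range]
  exact B.sum_mem fun i _ => B.mul_mem (c i) (B.pow_mem hx i)

theorem map_eval (s : Au Ω) {H : Polynomial Ω} (c : ∀ i, s (H.coeff i) = H.coeff i) {x : Ω}
    (hx : s x = x) : s (H.eval x) = H.eval x := by
  rw [eval_eq_sum_range, map_sum]
  exact Finset.sum_congr rfl fun i _ => by rw [map_mul, map_pow, c, hx]

end Ge1bP

open Ge1bP

variable [IsAlgClosed Ω]

/-- `R0 = k[x, y]`, `R = A[x, y]`, `dg` is `hdg A` on `R` and `0` elsewhere (`hdg_eq`, `OP.congr`) -/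
theorem exists_fib (k : Subfield Ω) [IsAlgClosed k] {x x' y : Ω}
    (hx : AlgebraicIndependent k ![x, x']) (ha : Acl ((k : Set Ω) ∪ {x, x'}) = Set.univ) {g : ℕ}
    {H F : Polynomial Ω} (cH : ∀ i, H.coeff i ∈ k) (cF : ∀ i, F.coeff i ∈ k)
    (hF : F.natDegree = 2 * g + 1) (hH : H.natDegree ≤ g) (rel : y ^ 2 + H.eval x * y = F.eval x)
    (sm : ∃ a ∈ Algebra.adjoin k {x, y}, ∃ b ∈ Algebra.adjoin k {x, y},
      a * (2 * y + H.eval x) + b * ((derivative H).eval x * y - (derivative F).eval x) = 1) :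
    ∃ C : Fib Ω, C.k = k ∧ (C.A : Set Ω) = Acl ((k : Set Ω) ∪ {x'}) ∧ HF C g H F x y := by
  obtain ⟨A, hA⟩ := exists_aclF ((k : Set Ω) ∪ {x'})
  have kA : k ≤ A := fun c hc => by
    show c ∈ (A : Set Ω)
    rw [hA]
    exact subset_acl _ (Or.inl hc)
  have hx'A : x' ∈ (A : Set Ω) := by
    rw [hA]
    exact subset_acl _ (Or.inr rfl)
  have hAA : Acl (A : Set Ω) ⊆ A := by
    conv_rhs => rw [hA]
    exact acl_subset hA.subset
  have acA : IsAlgClosed A := isAlgClosed_of_acl hAA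
  have td : TD k A 1 := td_of_acl k ![x'] (by simpa using hA.subset)
  have td2 : TD k Set.univ 2 := td_of_acl k ![x, x'] (by
    have e : Set.range ![x, x'] = {x, x'} := by simp [Set.pair_comm]
    rw [e, ha])
  have hxA : x ∉ A := fun h => td ![x, x'] (fun i => by
    fin_cases i
    · exact h
    · exact hx'A) hx
  have tA : Transcendental A x := fun h => hxA (hAA (by
    show IsAlgebraic (Subfield.closure (A : Set Ω)) x
    rw [Subfield.closure_eq]
    exact h))
  have tk : Transcendental k x := hx.transcendental 0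
  obtain ⟨h0, f0, -, -, H0⟩ := hyp_of k tk cH cF hF hH rel sm
  obtain ⟨h1, f1, eh, ef, H1⟩ := hyp_of A tA (fun i => kA (cH i)) (fun i => kA (cF i)) hF hH rel
    (by
      obtain ⟨a, ha, b, hb, e⟩ := sm
      exact ⟨a, adjoin_sub kA ha, b, adjoin_sub kA hb, e⟩)
  have d0 := H0.isDedekind
  have d1 := H1.isDedekind
  let dg : Ω → ℕ := fun z => if hz : z ∈ Algebra.adjoin A ({x, y} : Set Ω) then
    hdg A g (⟨x, Algebra.subset_adjoin (by simp)⟩ : Algebra.adjoin A {x, y})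
      ⟨y, Algebra.subset_adjoin (by simp)⟩ ⟨z, hz⟩ else 0
  have e0 : ∀ z : Algebra.adjoin k ({x, y} : Set Ω),
      hdg k g (⟨x, Algebra.subset_adjoin (by simp)⟩ : Algebra.adjoin k {x, y})
        ⟨y, Algebra.subset_adjoin (by simp)⟩ z = dg z := by
    intro z
    obtain ⟨p, q, hz⟩ := H0.span z
    have hz' := congrArg Subtype.val hz
    simp only [Subalgebra.coe_add, Subalgebra.coe_mul, aeval_subalgebra_coe] at hz'
    have e1 : (⟨z, adjoin_sub kA z.2⟩ : Algebra.adjoin A ({x, y} : Set Ω)) =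
        aeval (⟨x, Algebra.subset_adjoin (by simp)⟩ : Algebra.adjoin A {x, y})
          (p.map (Subfield.inclusion kA)) +
        aeval (⟨x, Algebra.subset_adjoin (by simp)⟩ : Algebra.adjoin A {x, y})
          (q.map (Subfield.inclusion kA)) * ⟨y, Algebra.subset_adjoin (by simp)⟩ := by
      apply Subtype.ext
      simp only [Subalgebra.coe_add, Subalgebra.coe_mul, aeval_subalgebra_coe, aeval_inc]
      exact hz'
    have e2 : dg z = _ := dif_pos (adjoin_sub kA z.2)
    rw [e2, e1, H1.hdg_eq, natDegree_map_eq_of_injective (Subfield.inclusion kA).injective,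
      natDegree_map_eq_of_injective (Subfield.inclusion kA).injective]
    conv_lhs => rw [hz]
    rw [H0.hdg_eq]
    by_cases hq : q = 0 <;> simp [hq]
  refine ⟨{
    k := k
    A := A
    R0 := Algebra.adjoin k {x, y}
    R := Algebra.adjoin A {x, y}
    dg := dg
    kA := kA
    ack := inferInstance
    acA := acA
    R_eq := le_antisymm (Algebra.adjoin_mono Algebra.subset_adjoin)
      (Algebra.adjoin_le fun z hz => adjoin_sub kA hz)
    ded0 := d0
    ded := d1
    op0 := H0.op.congr e0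
    op := H1.op.congr fun z => by simp only [dg, dif_pos z.2]
    dis := fun n w hw hl => hyp_dis kA ?_ ?_ w hw hl
    alg := ?_
    td := td
    td2 := td2
    inf := ?_ }, rfl, hA, rfl, cH, cF, hxA, h1, f1, _, _, rfl, rfl, eh, ef, H1⟩
  · intro r hr
    obtain ⟨p, q, hz⟩ := H0.span ⟨r, hr⟩
    have hz' := congrArg Subtype.val hz
    simp only [Subalgebra.coe_add, Subalgebra.coe_mul, aeval_subalgebra_coe] at hz'
    exact ⟨p, q, hz'⟩
  · intro p q hpq
    refine H1.indep p q (Subtype.ext ?_)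
    simp only [Subalgebra.coe_add, Subalgebra.coe_mul, aeval_subalgebra_coe]
    exact hpq
  · refine Set.eq_univ_of_univ_subset (ha ▸ acl_mono ?_)
    rintro z (hz | rfl | rfl)
    · exact (Algebra.adjoin A ({x, y} : Set Ω)).algebraMap_mem ⟨z, kA hz⟩
    · exact Algebra.subset_adjoin (s := ({z, y} : Set Ω)) (by simp)
    · exact (Algebra.adjoin A ({x, y} : Set Ω)).algebraMap_mem ⟨z, hx'A⟩
  · intro O hO hR a ha b hb hb0 hab
    exact hyp_inf H0 O hO hR (a := ⟨a, ha⟩) (b := ⟨b, hb⟩)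
      (fun h => hb0 (congrArg Subtype.val h)) (by rw [e0, e0]; exact hab)

variable {C : Fib Ω} {g : ℕ} {H F : Polynomial Ω} {x y : Ω}

omit [IsAlgClosed Ω] in
theorem HF.closure (h : HF C g H F x y) :
    Subfield.closure (C.R0 : Set Ω) = Subfield.closure ((C.k : Set Ω) ∪ {x, y}) := by
  rw [h.R0_eq]
  refine le_antisymm (Subfield.closure_le.2 fun z hz => ?_) (Subfield.closure_mono ?_)
  · exact map_adjoin (B := (Subfield.closure ((C.k : Set Ω) ∪ {x, y})).toSubring) (RingHom.id Ω)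
      (fun c hc => Subfield.subset_closure (Or.inl hc))
      (Subfield.subset_closure (Or.inr (by simp))) (Subfield.subset_closure (Or.inr (by simp))) hz
  · rintro z (hz | hz)
    · exact (Algebra.adjoin C.k ({x, y} : Set Ω)).algebraMap_mem ⟨z, hz⟩
    · exact Algebra.subset_adjoin hz

omit [IsAlgClosed Ω] in
theorem HF.dvs (h : HF C g H F x y) {N : ℕ} (hN : Odd N) (hN' : (N : Ω) ≠ 0) : C.Dvs N := by
  obtain ⟨h1, f1, x1, y1, -, -, -, -, H1⟩ := h.hyp
  refine fun c => H1.dvs hN (fun e => hN' ?_) c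
  simpa using congrArg Subtype.val e

omit [IsAlgClosed Ω] in
theorem HF.st (h : HF C g H F x y) {α : Au Ω} (hk : α ∈ St (C.k : Set Ω)) (hx : α x = x)
    (hy : α y = y) : α ∈ St (C.R0 : Set Ω) := by
  rw [h.R0_eq]
  have mx : x ∈ Algebra.adjoin C.k ({x, y} : Set Ω) := Algebra.subset_adjoin (by simp)
  have my : y ∈ Algebra.adjoin C.k ({x, y} : Set Ω) := Algebra.subset_adjoin (by simp)
  have key : ∀ β : Au Ω, β ∈ St (C.k : Set Ω) → β x = x → β y = y →
      ∀ z ∈ (Algebra.adjoin C.k ({x, y} : Set Ω) : Set Ω),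
        β z ∈ (Algebra.adjoin C.k ({x, y} : Set Ω) : Set Ω) := fun β b1 b2 b3 z hz =>
    map_adjoin (B := (Algebra.adjoin C.k ({x, y} : Set Ω)).toSubring) (β : Ω →+* Ω)
      (fun c hc => (Algebra.adjoin C.k ({x, y} : Set Ω)).algebraMap_mem ⟨β c, (b1 c).2 hc⟩)
      (by simpa [b2] using mx) (by simpa [b3] using my) hz
  exact st_of (key α hk hx hy) (key α⁻¹ ((St _).inv_mem hk) (α.symm_apply_eq.2 hx.symm)
    (α.symm_apply_eq.2 hy.symm))

/-- `flip`, `Hyp.mc_inv` -/
theorem HF.inv (h : HF C g H F x y) : ∃ s ∈ Fix (C.A : Set Ω), s x = x ∧ s y = -H.eval x - y ∧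
    s ∈ St (C.R0 : Set Ω) ∧ ∀ c, C.ac s c = -c := by
  obtain ⟨h1, f1, x1, y1, ex, ey, eh, ef, H1⟩ := h.hyp
  have rel := congrArg Subtype.val H1.rel
  simp only [Subalgebra.coe_add, Subalgebra.coe_mul, Subalgebra.coe_pow, aeval_subalgebra_coe,
    ex, ey] at rel
  obtain ⟨s, hs, sx, sy⟩ := flip C.A H1.degf H1.degh (a := x) (b := y)
    (by rw [acl_eq]; exact h.tr) rel
  have eH : aeval x h1 = H.eval x := by rw [aeval_eq, eh]
  have sH : s (H.eval x) = H.eval x := map_eval s (fun i => hs _ (C.kA (h.cH i))) sx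
  have mx : x ∈ Algebra.adjoin C.k ({x, y} : Set Ω) := Algebra.subset_adjoin (by simp)
  have my : y ∈ Algebra.adjoin C.k ({x, y} : Set Ω) := Algebra.subset_adjoin (by simp)
  have mH : H.eval x ∈ Algebra.adjoin C.k ({x, y} : Set Ω) :=
    eval_mem (B := (Algebra.adjoin C.k ({x, y} : Set Ω)).toSubring)
      (fun i => (Algebra.adjoin C.k ({x, y} : Set Ω)).algebraMap_mem ⟨_, h.cH i⟩) mx
  have key : ∀ β : Au Ω, β ∈ Fix (C.A : Set Ω) → β x = x → β y = -H.eval x - y →
      ∀ z ∈ (Algebra.adjoin C.k ({x, y} : Set Ω) : Set Ω),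
        β z ∈ (Algebra.adjoin C.k ({x, y} : Set Ω) : Set Ω) := fun β b1 b2 b3 z hz =>
    map_adjoin (B := (Algebra.adjoin C.k ({x, y} : Set Ω)).toSubring) (β : Ω →+* Ω)
      (fun c hc => by
        have e : (β : Ω →+* Ω) c = c := b1 c (C.kA hc)
        rw [e]
        exact (Algebra.adjoin C.k ({x, y} : Set Ω)).algebraMap_mem ⟨c, hc⟩)
      (by simpa [b2] using mx)
      (by
        have e : (β : Ω →+* Ω) y = -H.eval x - y := b3
        rw [e]
        exact sub_mem (neg_mem mH) my) hz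
  rw [eH] at sy
  have s0 : s ∈ St (C.R0 : Set Ω) := by
    rw [h.R0_eq]
    refine st_of (key s hs sx sy) (key s⁻¹ ((Fix _).inv_mem hs) (s.symm_apply_eq.2 sx.symm)
      (s.symm_apply_eq.2 ?_))
    rw [map_sub, map_neg, sH, sy]
    ring
  have sR : s ∈ St (C.R : Set Ω) := C.Nm_le ⟨s0, fix_le_st _ hs⟩
  refine ⟨s, hs, sx, sy, s0, fun c => ?_⟩
  rw [Fib.ac, dif_pos sR]
  refine H1.mc_inv ⟨fun a => Subtype.ext (hs _ a.2), Subtype.ext ?_, Subtype.ext ?_⟩ c
  · show s x1 = x1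
    rw [ex, sx]
  · show s y1 = _
    simp only [Subalgebra.coe_sub, Subalgebra.coe_neg, aeval_subalgebra_coe, ex, ey, eH, sy]

end Pool.Agent.P.MP_ee618e_ag.X
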