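import Pool.Agent.P.MP_ee618e_ag.X.B

/-! TF: finitely many rigid solutions of a system of polynomial equations. -/

namespace Pool.Agent.P.MP_ee618e_ag.X

open IsDedekindDomain Polynomial
open scoped Classical

private lemma tf_dual {A ι : Type} [Field A] (x : ι → A) (l : MvPolynomial ι A →ₗ[A] A)
    (hl : ∀ f g : MvPolynomial ι A, MvPolynomial.aeval x f = 0 → MvPolynomial.aeval x g = 0 →
      l (f * g) = 0) (g : MvPolynomial ι A) :
    MvPolynomial.aeval (fun i => (TrivSqZeroExt.inl (x i) +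
      TrivSqZeroExt.inr (l (MvPolynomial.X i - MvPolynomial.C (x i))) : DualNumber A)) g =
      TrivSqZeroExt.inl (MvPolynomial.aeval x g) +
        TrivSqZeroExt.inr (l (g - MvPolynomial.C (MvPolynomial.aeval x g))) := by
  induction g using MvPolynomial.induction_on with
  | C a => ext <;> simp [TrivSqZeroExt.algebraMap_eq_inl]
  | add p q hp hq =>
    rw [map_add, hp, hq, map_add, map_add, add_sub_add_comm, map_add]
    ext <;> simp
  | mul_X p i hp =>
    have e : p * MvPolynomial.X i - MvPolynomial.C (MvPolynomial.aeval x (p * MvPolynomial.X i)) =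
        (p - MvPolynomial.C (MvPolynomial.aeval x p)) * (MvPolynomial.X i - MvPolynomial.C (x i))
          + MvPolynomial.aeval x p • (MvPolynomial.X i - MvPolynomial.C (x i))
          + x i • (p - MvPolynomial.C (MvPolynomial.aeval x p)) := by
      simp only [map_mul, MvPolynomial.aeval_X, MvPolynomial.smul_eq_C_mul]
      ring
    rw [e, map_add, map_add, hl _ _ (by simp) (by simp), map_smul, map_smul, map_mul, hp,
      MvPolynomial.aeval_X, map_mul, MvPolynomial.aeval_X]
    generalize l (MvPolynomial.X i - MvPolynomial.C (x i)) = u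
    generalize l (p - MvPolynomial.C (MvPolynomial.aeval x p)) = w
    generalize MvPolynomial.aeval x p = c
    ext <;> simp [mul_comm]

private lemma tf_lin {A R ι : Type} {τ : ι → Type} [Field A] [CommRing R] [Algebra A R]
    [∀ i, Fintype (τ i)] (b : ∀ i, τ i → R) (p : MvPolynomial ι R) : ∀ φ : R →ₗ[A] A,
    ∃ q : MvPolynomial (Σ i, τ i) A, ∀ z v : (Σ i, τ i) → A,
      MvPolynomial.aeval z q = φ (MvPolynomial.aeval (fun i => ∑ k, z ⟨i, k⟩ • b i k) p) ∧
      (MvPolynomial.aeval (fun s => (TrivSqZeroExt.inl (z s) + TrivSqZeroExt.inr (v s) :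
        DualNumber A)) q).fst = φ (MvPolynomial.aeval (fun i =>
          (TrivSqZeroExt.inl (∑ k, z ⟨i, k⟩ • b i k) + TrivSqZeroExt.inr (∑ k, v ⟨i, k⟩ • b i k) :
            DualNumber R)) p).fst ∧
      (MvPolynomial.aeval (fun s => (TrivSqZeroExt.inl (z s) + TrivSqZeroExt.inr (v s) :
        DualNumber A)) q).snd = φ (MvPolynomial.aeval (fun i =>
          (TrivSqZeroExt.inl (∑ k, z ⟨i, k⟩ • b i k) + TrivSqZeroExt.inr (∑ k, v ⟨i, k⟩ • b i k) :
            DualNumber R)) p).snd := by
  induction p using MvPolynomial.induction_on with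
  | C a =>
    intro φ
    exact ⟨MvPolynomial.C (φ a), fun z v => by simp [TrivSqZeroExt.algebraMap_eq_inl]⟩
  | add p q hp hq =>
    intro φ
    obtain ⟨p', hp'⟩ := hp φ
    obtain ⟨q', hq'⟩ := hq φ
    refine ⟨p' + q', fun z v => ?_⟩
    simp only [map_add, TrivSqZeroExt.fst_add, TrivSqZeroExt.snd_add, (hp' z v).1, (hp' z v).2.1,
      (hp' z v).2.2, (hq' z v).1, (hq' z v).2.1, (hq' z v).2.2, and_self]
  | mul_X p i hp =>
    intro φ
    choose q hq using fun k : τ i => hp (φ ∘ₗ LinearMap.mulRight A (b i k))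
    refine ⟨∑ k, q k * MvPolynomial.X ⟨i, k⟩, fun z v => ?_⟩
    simp only [map_sum, map_mul, MvPolynomial.aeval_X, TrivSqZeroExt.fst_sum,
      TrivSqZeroExt.snd_sum, TrivSqZeroExt.fst_mul, DualNumber.snd_mul, fun k => (hq k z v).1,
      fun k => (hq k z v).2.1, fun k => (hq k z v).2.2]
    generalize MvPolynomial.aeval (fun i => ∑ k, z ⟨i, k⟩ • b i k) p = E
    generalize MvPolynomial.aeval (fun i =>
      (TrivSqZeroExt.inl (∑ k, z ⟨i, k⟩ • b i k) + TrivSqZeroExt.inr (∑ k, v ⟨i, k⟩ • b i k) :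
        DualNumber R)) p = F
    simp [Finset.mul_sum, Finset.sum_add_distrib, mul_comm]

/-- `I` the ideal of the `P j`, `m` the maximal ideal of a rigid point. A linear form on `m`
which kills `I + m ^ 2` gives a point over the dual numbers, so `m = I + m ^ 2`; hence the image
of `m` in `A[X] / I` is idempotent, generated by an idempotent
(`Ideal.isIdempotentElem_iff_of_fg`), and is a minimal prime; `Ideal.finite_minimalPrimes_of_isNoetherianRing`. -/
theorem rigid_finite0 {A ι κ : Type} [Field A] [Finite ι] (P : κ → MvPolynomial ι A) :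
    {x : ι → A | (∀ j, MvPolynomial.aeval x (P j) = 0) ∧ ∀ v : ι → A,
      (∀ j, MvPolynomial.aeval
        (fun i => (TrivSqZeroExt.inl (x i) + TrivSqZeroExt.inr (v i) : DualNumber A)) (P j) = 0) →
      v = 0}.Finite := by
  set I : Ideal (MvPolynomial ι A) := Ideal.span (Set.range P) with hI
  let m : (ι → A) → Ideal (MvPolynomial ι A) := fun x =>
    RingHom.ker (MvPolynomial.aeval x : MvPolynomial ι A →ₐ[A] A)
  have hm : ∀ x f, f ∈ m x ↔ MvPolynomial.aeval x f = 0 := fun x f => RingHom.mem_ker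
  have hinj : Function.Injective m := fun x y h => funext fun i => by
    have h1 : MvPolynomial.X i - MvPolynomial.C (x i) ∈ m x := (hm _ _).2 (by simp)
    rw [h, hm] at h1
    simp only [map_sub, MvPolynomial.aeval_X, MvPolynomial.aeval_C, Algebra.algebraMap_self,
      RingHom.id_apply] at h1
    exact (sub_eq_zero.1 h1).symm
  refine ((Ideal.finite_minimalPrimes_of_isNoetherianRing _ I).preimage hinj.injOn).subset ?_
  rintro x ⟨h0, hr⟩
  have hIm : I ≤ m x := Ideal.span_le.2 (by rintro _ ⟨j, rfl⟩; exact (hm _ _).2 (h0 j))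
  have hle : m x ≤ I ⊔ m x • m x := by
    intro f hf
    by_contra hn
    obtain ⟨l, hl0, hl⟩ := Submodule.exists_dual_map_eq_bot_of_notMem
      (p := (I ⊔ m x • m x).restrictScalars A) hn inferInstance
    have hl' : ∀ g ∈ I ⊔ m x • m x, l g = 0 := fun g hg => by
      have : l g ∈ ((I ⊔ m x • m x).restrictScalars A).map l := Submodule.mem_map_of_mem hg
      rwa [hl, Submodule.mem_bot] at this
    have key := tf_dual x l fun f g hf hg => hl' _ (Submodule.mem_sup_right
      (Submodule.smul_mem_smul ((hm _ _).2 hf) ((hm _ _).2 hg)))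
    have hv := hr (fun i => l (MvPolynomial.X i - MvPolynomial.C (x i))) fun j => by
      rw [key, h0 j, map_zero, sub_zero,
        hl' _ (Submodule.mem_sup_left (Ideal.subset_span ⟨j, rfl⟩))]
      simp
    have k1 := key f
    have k2 := tf_dual x 0 (fun _ _ _ _ => rfl) f
    have e : (fun i => (TrivSqZeroExt.inl (x i) +
        TrivSqZeroExt.inr (l (MvPolynomial.X i - MvPolynomial.C (x i))) : DualNumber A)) =
        fun i => TrivSqZeroExt.inl (x i) + TrivSqZeroExt.inr ((0 : MvPolynomial ι A →ₗ[A] A)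
          (MvPolynomial.X i - MvPolynomial.C (x i))) := funext fun i => by
      rw [show l (MvPolynomial.X i - MvPolynomial.C (x i)) = 0 from congrFun hv i]
      rfl
    rw [e, k2, (hm _ _).1 hf, map_zero, sub_zero] at k1
    exact hl0 (by simpa using (congrArg TrivSqZeroExt.snd k1).symm)
  obtain ⟨r, hr1, hr2⟩ := Submodule.exists_sub_one_mem_and_smul_le_of_fg_of_le_sup
    (IsNoetherian.noetherian (m x)) le_rfl hle
  have hp : (m x).IsPrime := RingHom.ker_isPrime _
  refine ⟨⟨hp, hIm⟩, fun q hq hqm f hf => ?_⟩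
  refine (hq.1.mem_or_mem (hq.2 (hr2 (Submodule.smul_mem_pointwise_smul f r _ hf)))).resolve_left
    fun hrq => hp.ne_top ((Ideal.eq_top_iff_one _).2 ?_)
  simpa using (m x).sub_mem (hqm hrq) hr1

/-- substitute `x i = ∑ z (i, k) w i k` for bases `w i` of `W i` and apply all `A`-linear forms
on `R` to the coefficients -/
theorem rigid_finite {A R ι κ : Type} [Field A] [CommRing R] [Algebra A R] [Finite ι]
    (W : ι → Submodule A R) [∀ i, FiniteDimensional A (W i)] (P : κ → MvPolynomial ι R) :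
    {x : ι → R | (∀ i, x i ∈ W i) ∧ (∀ j, MvPolynomial.aeval x (P j) = 0) ∧ ∀ v : ι → R,
      (∀ i, v i ∈ W i) → (∀ j, MvPolynomial.aeval
        (fun i => (TrivSqZeroExt.inl (x i) + TrivSqZeroExt.inr (v i) : DualNumber R)) (P j) = 0) →
      v = 0}.Finite := by
  let b := fun i => Module.finBasis A (W i)
  choose q hq using fun (j : κ) (φ : R →ₗ[A] A) => tf_lin (fun i k => (b i k : R)) (P j) φ
  have hc : ∀ (z : (Σ i, Fin (Module.finrank A (W i))) → A) (i : ι),
      ∑ k, z ⟨i, k⟩ • (b i k : R) = ((∑ k, z ⟨i, k⟩ • b i k : W i) : R) := fun z i => by simp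
  refine ((rigid_finite0 fun s : κ × (R →ₗ[A] A) => q s.1 s.2).image
    fun z i => ∑ k, z ⟨i, k⟩ • (b i k : R)).subset ?_
  rintro x ⟨hW, h0, hr⟩
  have hx : (fun i => ∑ k, (b i).repr ⟨x i, hW i⟩ k • (b i k : R)) = x := funext fun i => by
    exact (hc (fun s => (b s.1).repr ⟨x s.1, hW s.1⟩ s.2) i).trans
      (congrArg Subtype.val ((b i).sum_repr ⟨x i, hW i⟩))
  refine ⟨fun s => (b s.1).repr ⟨x s.1, hW s.1⟩ s.2, ⟨fun s => ?_, fun v hv => ?_⟩, hx⟩
  · rw [(hq s.1 s.2 _ 0).1, hx, h0, map_zero]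
  · have h1 := hr (fun i => ∑ k, v ⟨i, k⟩ • (b i k : R)) (fun i => by
      rw [hc]; exact Subtype.property _) fun j => by
        have hx' : ∀ i, x i = ∑ k, (b i).repr ⟨x i, hW i⟩ k • (b i k : R) := fun i =>
          (congrFun hx i).symm
        have h2 := fun φ => hq j φ (fun s => (b s.1).repr ⟨x s.1, hW s.1⟩ s.2) v
        simp only [← hx'] at h2
        refine TrivSqZeroExt.ext ((Module.forall_dual_apply_eq_zero_iff A _).1 fun φ => ?_)
          ((Module.forall_dual_apply_eq_zero_iff A _).1 fun φ => ?_)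
        · rw [← (h2 φ).2.1, hv (j, φ)]; rfl
        · rw [← (h2 φ).2.2, hv (j, φ)]; rfl
    funext ⟨i, k⟩
    have h3 : ∑ k, v ⟨i, k⟩ • b i k = 0 := Subtype.ext ((hc v i).symm.trans (congrFun h1 i))
    exact Fintype.linearIndependent_iff.1 (b i).linearIndependent _ h3 k

end Pool.Agent.P.MP_ee618e_ag.X
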