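import Pool.Agent.P.MP_ee618e_ag.X.O6
import Pool.Agent.P.MP_ee618e_ag.X.TF

/-! O5: finiteness of torsion. -/

namespace Pool.Agent.P.MP_ee618e_ag.X

open IsDedekindDomain Polynomial
open scoped Classical

variable {A R : Type} [Field A] [IsAlgClosed A] [CommRing R] [IsDedekindDomain R] [Algebra A R]
  {dg : R → ℕ}

theorem o5_cancel {P : HeightOneSpectrum R} {x y : R} {m n : ℕ} (hx : x ≠ 0) (hm : ord P x = m)
    (h : x * y ∈ P.asIdeal ^ (m + n)) : y ∈ P.asIdeal ^ n := by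
  by_cases hy : y = 0
  · rw [hy]
    exact zero_mem _
  · rw [← le_ord_iff (mul_ne_zero hx hy), ord_mul hx hy, hm] at h
    exact (le_ord_iff hy).1 (by omega)

omit [IsDedekindDomain R] in
theorem o5_mem_Id {D : Dv R} {x : R} : x ∈ Id D ↔ ∀ P, x ∈ P.asIdeal ^ (D P).toNat :=
  Submodule.mem_iInf _

omit [IsDedekindDomain R] in
theorem o5_smul (N : ℕ) (x y : R) : N • (x ^ (N - 1) * y) * x = N • (x ^ N * y) := by
  cases N with
  | zero => simp
  | succ n =>
    rw [Nat.add_sub_cancel, pow_succ, nsmul_eq_mul, nsmul_eq_mul]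
    ring

/-- The tangent computation. Take `P` and `j` with `ord P (a j) = D P`; the equation `(j, j)`
gives `ord P f' ≥ (N - 1) D P`, so `f' = 0` by `Min.const`; then `ord P (a' j) ≥ D P` and
`ord P (a' i) ≥ D P`. -/
theorem tangent (h : OP A dg) {N : ℕ} (hN : ((N + 1 : ℕ) : A) ≠ 0) {D : Dv R} (hD : Min D)
    {ι : Type} {f f' : R} {a a' : ι → R} {c c' : ι → ι → R} (hf : f ≠ 0)
    (hfD : dv f = ((N + 1 : ℕ) : ℤ) • D) (hf' : f' = 0 ∨ dg f' < dg f) (ha : ∀ i, a i ∈ Id D)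
    (hg : ∀ P, ∃ j, a j ≠ 0 ∧ dv (a j) P = D P) (hc : ∀ i j, a j ^ N * a i = f * c i j)
    (ht : ∀ i j, a j ^ N * a' i + N • (a j ^ (N - 1) * a' j) * a i = f * c' i j + f' * c i j) :
    f' = 0 ∧ ∀ i, a' i ∈ Id D := by
  have hu : IsUnit ((N + 1 : ℕ) : R) := by
    rw [← map_natCast (algebraMap A R)]
    exact (Ne.isUnit hN).map _
  have hD0 : ∀ P, ((D P).toNat : ℤ) = D P := fun P => Int.toNat_of_nonneg (hD.1 P)
  have of : ∀ P, ord P f = N * (D P).toNat + (D P).toNat := fun P => by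
    have := DFunLike.congr_fun hfD P
    rw [dv_apply hf, Finsupp.smul_apply, smul_eq_mul, ← hD0] at this
    zify
    push_cast at this
    linarith
  have mf : ∀ P, f ∈ P.asIdeal ^ (N * (D P).toNat + (D P).toNat) := fun P =>
    (le_ord_iff hf).1 (of P).ge
  choose j j0 hj using hg
  have oj : ∀ P, ord P (a (j P) ^ N) = N * (D P).toNat := fun P => by
    have := hj P
    rw [dv_apply (j0 P), ← hD0] at this
    rw [ord_pow (j0 P), Nat.cast_injective this]
  have e : ∀ i, a i ^ N * (((N + 1 : ℕ) : R) * a' i) = f * c' i i + f' * c i i := fun i => by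
    rw [← ht, o5_smul, nsmul_eq_mul]
    push_cast
    ring
  have f0 : f' = 0 := by
    by_contra h0
    have hlt := hf'.resolve_left h0
    refine (hD.const h h0 hf (fun P => ?_) hlt.le).elim fun u hu => ?_
    swap
    · have : u ≠ 0 := fun h1 => h0 (by rw [hu, h1, zero_smul])
      rw [hu, h.smul this] at hlt
      exact hlt.false
    · have c0 : c (j P) (j P) ≠ 0 := fun h1 => mul_ne_zero (pow_ne_zero N (j0 P)) (j0 P)
        (by rw [hc, h1, mul_zero])
      have oc : ord P (c (j P) (j P)) = 0 := by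
        have h1 := congrArg (ord P) (hc (j P) (j P))
        have h2 := hj P
        rw [dv_apply (j0 P), ← hD0] at h2
        rw [ord_mul (pow_ne_zero N (j0 P)) (j0 P), ord_mul hf c0, oj, of,
          Nat.cast_injective h2] at h1
        omega
      have m1 : c (j P) (j P) * f' ∈ P.asIdeal ^ (0 + N * (D P).toNat) := by
        rw [zero_add, mul_comm _ f', ← sub_eq_iff_eq_add'.2 (e (j P))]
        exact sub_mem (Ideal.mul_mem_right _ _ ((le_ord_iff (pow_ne_zero N (j0 P))).1 (oj P).ge))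
          (Ideal.mul_mem_right _ _ (Ideal.pow_le_pow_right (Nat.le_add_right _ _) (mf P)))
      have m2 := (le_ord_iff h0).2 (o5_cancel c0 oc m1)
      rw [Finsupp.add_apply, dv_apply hf, dv_apply h0, of, ← hD0]
      simp only [Int.toNat_natCast]
      exact_mod_cast (by omega : N * (D P).toNat + (D P).toNat ≤ (D P).toNat + ord P f')
  refine ⟨f0, fun i => o5_mem_Id.2 fun P => ?_⟩
  have m1 : a' (j P) ∈ P.asIdeal ^ (D P).toNat := by
    refine (Ideal.unit_mul_mem_iff_mem _ hu).1 (o5_cancel (pow_ne_zero N (j0 P)) (oj P) ?_)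
    rw [e, f0, zero_mul, add_zero]
    exact Ideal.mul_mem_right _ _ (mf P)
  refine o5_cancel (pow_ne_zero N (j0 P)) (oj P) ?_
  rw [eq_sub_of_add_eq (ht i (j P)), f0, zero_mul, add_zero]
  refine sub_mem (Ideal.mul_mem_right _ _ (mf P)) ?_
  cases N with
  | zero => simp
  | succ n =>
    rw [Nat.add_sub_cancel, add_mul, one_mul, pow_add, pow_add, mul_comm n, pow_mul]
    exact Ideal.mul_mem_mul (nsmul_mem (Ideal.mul_mem_mul
      (Ideal.pow_mem_pow (o5_mem_Id.1 (ha _) P) n) m1) _) (o5_mem_Id.1 (ha _) P)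

omit [IsAlgClosed A] [IsDedekindDomain R] in
/-- rigid solutions of the torsion equations -/
theorem o5_rigid {ι : Type} [Finite ι] (W₀ W₁ W₂ : Submodule A R) [FiniteDimensional A W₀]
    [FiniteDimensional A W₁] [FiniteDimensional A W₂] (N : ℕ) (b₀ : R) (b : ι → R) :
    {f : R | ∃ (a : ι → R) (c : ι → ι → R), f - b₀ ∈ W₀ ∧ (∀ i, a i - b i ∈ W₁) ∧
      (∀ i j, c i j ∈ W₂) ∧ (∀ i j, a j ^ N * a i = f * c i j) ∧
      ∀ (f' : R) (a' : ι → R) (c' : ι → ι → R), f' ∈ W₀ → (∀ i, a' i ∈ W₁) →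
        (∀ i j, a j ^ N * a' i + N • (a j ^ (N - 1) * a' j) * a i = f * c' i j + f' * c i j) →
        f' = 0 ∧ (∀ i, a' i = 0) ∧ ∀ i j, c' i j = 0}.Finite := by
  let W : Option (ι ⊕ ι × ι) → Submodule A R := fun o => o.elim W₀ (Sum.elim (fun _ => W₁) fun _ => W₂)
  have : ∀ o, FiniteDimensional A (W o) := by
    rintro (_ | _ | _) <;> assumption
  let Q : ι × ι → MvPolynomial (Option (ι ⊕ ι × ι)) R := fun p =>
    (MvPolynomial.C (b p.2) + MvPolynomial.X (some (.inl p.2))) ^ N *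
      (MvPolynomial.C (b p.1) + MvPolynomial.X (some (.inl p.1))) -
      (MvPolynomial.C b₀ + MvPolynomial.X none) * MvPolynomial.X (some (.inr p))
  refine ((rigid_finite W Q).image fun x => b₀ + x none).subset ?_
  rintro f ⟨a, c, h0, h1, h2, h3, h4⟩
  refine ⟨fun o => o.elim (f - b₀) (Sum.elim (fun i => a i - b i) fun p => c p.1 p.2),
    ⟨?_, fun p => ?_, fun v hv hQ => ?_⟩, by simp⟩
  · rintro (_ | i | p)
    exacts [h0, h1 i, h2 _ _]
  · simp [Q, h3]
  · obtain ⟨r0, r1, r2⟩ := h4 (v none) (fun i => v (some (.inl i)))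
      (fun i j => v (some (.inr (i, j)))) (hv none) (fun i => hv (some (.inl i))) fun i j => by
        have := congrArg TrivSqZeroExt.snd (hQ (i, j))
        simp only [Q, map_sub, map_mul, map_pow, map_add, MvPolynomial.aeval_C,
          MvPolynomial.aeval_X, TrivSqZeroExt.snd_sub, DualNumber.snd_mul, TrivSqZeroExt.snd_pow,
          TrivSqZeroExt.fst_pow, TrivSqZeroExt.fst_add, TrivSqZeroExt.snd_add,
          TrivSqZeroExt.algebraMap_eq_inl, TrivSqZeroExt.fst_inl, TrivSqZeroExt.snd_inl,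
          TrivSqZeroExt.fst_inr, TrivSqZeroExt.snd_inr, TrivSqZeroExt.snd_zero, Option.elim,
          Sum.elim_inl, Sum.elim_inr, add_zero, zero_add, add_sub_cancel, smul_eq_mul,
          Nat.pred_eq_sub_one] at this
        exact sub_eq_zero.1 this
    funext o
    rcases o with _ | i | p
    exacts [r0, r1 i, r2 _ _]

/-- Fix `b n` with `dg (b n) = n`, `g₀` the number of gaps, `n₁ = n₀ g₀` (`exists_gen`). A
torsion class has a minimal representative `D`, `d = deg D ≤ g₀`, `M = vals dg (Id D) ∩ [0, n₁]`.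
For fixed `d` and `M` use the unknowns `f₀ ∈ lt (N d)`, `σ i` (`i ∈ M`) in the span of the `b n`,
`n ≤ n₁`, `n ∉ M`, and `c i j ∈ lt (N n₁ + 1)`, with `f = b (N d) + f₀`, `a i = b i + σ i`
(`OP.reduce`, `OP.dg_span`), equations `a j ^ (N - 1) a i = f c i j`; `rigid_finite`, `tangent`.
The class is determined by `f`. -/
theorem tors_finite (h : OP A dg) {N : ℕ} (hN : (N : A) ≠ 0) : {x : Cl R | N • x = 0}.Finite := by
  obtain ⟨N, rfl⟩ : ∃ n, N = n + 1 := Nat.exists_eq_succ_of_ne_zero fun h0 => hN (by simp [h0])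
  obtain ⟨b, hb⟩ : ∃ b : ℕ → R, ∀ n ∈ vals dg Set.univ, b n ≠ 0 ∧ dg (b n) = n := by
    choose! b _ hb using fun n (hn : n ∈ vals dg Set.univ) => hn
    exact ⟨b, hb⟩
  obtain ⟨n₀, hn₀⟩ := h.exists_gen
  set g₀ := (Set.univ \ vals dg Set.univ).ncard
  set n₁ := n₀ * g₀ with hn₁
  let S : Set ℕ → Set ℕ := fun M => {n | n ≤ n₁ ∧ n ∈ vals dg Set.univ ∧ n ∉ M}
  have hS : ∀ M, FiniteDimensional A (Submodule.span A (b '' S M)) := fun M =>
    FiniteDimensional.span_of_finite A (((Set.finite_Iic n₁).subset fun n hn => hn.1).image b)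
  have hl := h.fd_lt
  have F := (Set.finite_Iic g₀).biUnion fun d _ => (Set.finite_Iic n₁).finite_subsets.biUnion'
    fun M hM => haveI := ((Set.finite_Iic n₁).subset hM).to_subtype
      o5_rigid (h.lt ((N + 1) * d)) (Submodule.span A (b '' S M)) (h.lt ((N + 1) * n₁ + 1)) N
        (b ((N + 1) * d)) fun i : M => b i
  refine (F.biUnion (t := fun f => {x | ∃ D, cl D = x ∧ dv f = ((N + 1 : ℕ) : ℤ) • D})
    fun f _ => Set.Subsingleton.finite ?_).subset fun x hx => ?_
  · rintro _ ⟨D, rfl, h1⟩ _ ⟨D', rfl, h2⟩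
    rw [smul_right_injective _ (by positivity) (h1.symm.trans h2)]
  obtain ⟨D, hD, rfl⟩ := exists_min x
  have hd0 : 0 ≤ D.degree := Finset.sum_nonneg fun P _ => hD.1 P
  obtain ⟨d, hd⟩ := Int.eq_ofNat_of_zero_le hd0
  have hdg : d ≤ g₀ := by
    have := hD.le_gaps h
    rw [hd] at this
    exact_mod_cast this
  obtain ⟨f, hf, hfD, hfd, hfb⟩ : ∃ f : R, f ≠ 0 ∧ dv f = ((N + 1 : ℕ) : ℤ) • D ∧
      dg f = (N + 1) * d ∧ f - b ((N + 1) * d) ∈ h.lt ((N + 1) * d) := by
    obtain ⟨f, hf, hfD⟩ := exists_dv (D := ((N + 1 : ℕ) : ℤ) • D)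
      (smul_nonneg (by positivity) hD.1) (by rw [map_zsmul, natCast_zsmul]; exact hx)
    have h1 : dg f = (N + 1) * d := by
      have := h.degree_dv hf
      rw [hfD, map_zsmul, hd, smul_eq_mul] at this
      exact_mod_cast this.symm
    obtain ⟨b0, b1⟩ := hb _ ⟨f, trivial, hf, h1⟩
    obtain ⟨u, hu⟩ := h.lead _ f hf (b1.trans h1.symm)
    have u0 : u ≠ 0 := by
      rintro rfl
      rw [zero_smul, sub_zero, b1, h1] at hu
      exact hu.elim b0 (lt_irrefl _)
    refine ⟨u • f, fun h2 => hf ?_, (dv_smul u0 f).trans hfD, (h.smul u0 f).trans h1, ?_⟩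
    · rw [← inv_smul_smul₀ u0 f, h2, smul_zero]
    · rw [← neg_sub]
      exact neg_mem (hu.imp sub_eq_zero.2 fun h2 => h2.trans_eq h1)
  let I : Submodule A R := (Id D).restrictScalars A
  let M : Set ℕ := {n | n ≤ n₁ ∧ n ∈ vals dg I}
  have hSb : ∀ n ∈ S M, b n ≠ 0 ∧ dg (b n) = n := fun n hn => hb n hn.2.1
  have ha : ∀ i : M, ∃ a : R, a ≠ 0 ∧ dg a = i ∧ a ∈ Id D ∧
      a - b i ∈ Submodule.span A (b '' S M) := by
    rintro ⟨i, hi, hi'⟩
    obtain ⟨b0, b1⟩ := hb i (hi'.imp fun _ h1 => ⟨trivial, h1.2⟩)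
    obtain ⟨s, hs, hs'⟩ := h.reduce I b hb (b i)
    have h1 : s = 0 ∨ dg s < dg (b i) := or_iff_not_imp_left.2 fun s0 => by
      have := h.dg_span b _ (fun n hn => hb n hn.2.1) hs s0
      exact lt_of_le_of_ne this.1 fun e => this.2.2 (by rw [e, b1]; exact hi')
    refine ⟨b i - s, fun e => ?_, ?_, hs', ?_⟩
    · rw [← sub_eq_zero.1 e] at h1
      exact h1.elim b0 (lt_irrefl _)
    · rcases h1 with h1 | h1
      · rw [h1, sub_zero, b1]
      · rw [sub_eq_add_neg, h.add_eq (by rwa [h.neg]), b1]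
    · rw [sub_sub_cancel_left]
      refine neg_mem (Submodule.span_mono (Set.image_mono fun n hn => ?_) hs)
      exact ⟨(hn.1.trans b1.le).trans hi, hn.2.1, fun h2 => hn.2.2 h2.2⟩
  choose a a0 ad aI ab using ha
  have hc : ∀ i j : M, ∃ c : R, a j ^ N * a i = f * c := fun i j => by
    refine (dv_le_iff hf (mul_ne_zero (pow_ne_zero N (a0 j)) (a0 i))).1 ?_
    rw [dv_mul (pow_ne_zero N (a0 j)) (a0 i), dv_pow (a0 j), hfD, Nat.cast_succ, add_smul,
      one_smul]
    exact add_le_add (smul_le_smul_of_nonneg_left ((mem_Id' (a0 j)).1 (aI j)) (by positivity))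
      ((mem_Id' (a0 i)).1 (aI i))
  choose c hc using hc
  have hg : ∀ P, ∃ j, a j ≠ 0 ∧ dv (a j) P = D P := fun P => by
    by_contra hne
    push Not at hne
    have hD0 : ((D P).toNat : ℤ) = D P := Int.toNat_of_nonneg (hD.1 P)
    have h1 : ∀ j, a j ∈ P.asIdeal ^ ((D P).toNat + 1) := fun j => by
      have h2 := (mem_Id (a0 j)).1 (aI j) P
      have h3 := hne j (a0 j)
      rw [dv_apply (a0 j)] at h3
      exact (le_ord_iff (a0 j)).1 (by omega)
    have h2 : ∀ n ≤ n₁, ∀ u ∈ Id D, dg u = n → u ∈ P.asIdeal ^ ((D P).toNat + 1) := by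
      intro n
      induction n using Nat.strong_induction_on with
      | _ n ih =>
        intro hn u hu hun
        by_cases u0 : u = 0
        · rw [u0]
          exact zero_mem _
        let j : M := ⟨n, hn, u, hu, u0, hun⟩
        obtain ⟨t, ht⟩ := h.lead u (a j) (a0 j) (hun.trans (ad j).symm)
        have h3 : t • a j ∈ P.asIdeal ^ ((D P).toNat + 1) := Submodule.smul_of_tower_mem _ t (h1 j)
        rcases ht with ht | ht
        · rwa [ht]
        · rw [ad] at ht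
          exact (Submodule.sub_mem_iff_left _ h3).1 (ih _ ht (ht.le.trans hn) _
            (sub_mem hu (Submodule.smul_of_tower_mem _ t (aI j))) rfl)
    obtain ⟨u, u0, u1, u2, u3⟩ := hn₀ D hD.1 P
    have h3 : dg u ≤ n₁ := by
      rw [hd] at u3
      exact (by exact_mod_cast u3 : dg u ≤ n₀ * d).trans (Nat.mul_le_mul_left _ hdg)
    have h4 := (le_ord_iff u0).2 (h2 _ h3 u ((mem_Id' u0).2 u1) rfl)
    rw [dv_apply u0] at u2
    omega
  refine Set.mem_biUnion (x := f) (Set.mem_biUnion (x := d) hdg (Set.mem_iUnion₂.2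
    ⟨M, fun n hn => hn.1, a, c, hfb, ab, fun i j => ?_, hc, fun f' a' c' m0 m1 ht => ?_⟩))
    ⟨D, rfl, hfD⟩
  · refine or_iff_not_imp_left.2 fun c0 => ?_
    have h1 := congrArg dg (hc i j)
    rw [h.mul _ _ (pow_ne_zero N (a0 j)) (a0 i), h.mul _ _ hf c0, h.pow (a0 j), ad, ad] at h1
    have h2 := Nat.mul_le_mul_left N j.2.1
    have h3 := i.2.1
    rw [add_mul]
    omega
  · obtain ⟨r0, r1⟩ := tangent h hN hD hf hfD (hfd ▸ m0) aI hg hc ht
    have r2 : ∀ i, a' i = 0 := fun i => by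
      by_contra h0
      have := h.dg_span b _ hSb (m1 i) h0
      exact this.2.2 ⟨this.1, a' i, r1 i, h0, rfl⟩
    refine ⟨r0, r2, fun i j => ?_⟩
    have := ht i j
    simpa [r0, r2, hf] using this

end Pool.Agent.P.MP_ee618e_ag.X
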