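import Pool.Agent.P.MP_ee618e_ag.X.F3
import Pool.Agent.P.MP_ee618e_ag.X.O5

/-! K1: the Kummer character of a torsion class. -/

namespace Pool.Agent.P.MP_ee618e_ag.X

open IsDedekindDomain Polynomial
open scoped Classical

variable {Ω : Type} [Field Ω] [IsAlgClosed Ω] {C : Fib Ω} {N : ℕ} {ζ : Ω} {s s' : Cl C.R}
  {χ χ' : Au Ω → ZMod N}

namespace Fib

omit [IsAlgClosed Ω] in
theorem k1_ne (hN : (N : Ω) ≠ 0) : N ≠ 0 := by
  rintro rfl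
  exact hN Nat.cast_zero

omit [IsAlgClosed Ω] in
theorem zeta_mem (C : Fib Ω) (hζ : IsPrimitiveRoot ζ N) (hN : (N : Ω) ≠ 0) : ζ ∈ C.k := by
  exact root_mem C.k (Nat.pos_of_ne_zero (k1_ne hN)) C.k.one_mem hζ.pow_eq_one

omit [IsAlgClosed Ω] in
theorem tors_fin (C : Fib Ω) (hN : (N : Ω) ≠ 0) : {x : Cl C.R | N • x = 0}.Finite := by
  refine tors_finite C.op (N := N) fun h => hN ?_
  have := congrArg (fun x : C.A => (x : Ω)) h
  simpa using this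

omit [IsAlgClosed Ω] in
theorem k1_ac_zero (σ : Au Ω) : C.ac σ 0 = 0 := by
  simpa using ac_nsmul (C := C) σ 0 0

omit [IsAlgClosed Ω] in
theorem k1_acl {S : Set Ω} (hN : N ≠ 0) {r : Ω} (h : r ^ N ∈ Acl S) : r ∈ Acl S := by
  obtain ⟨K, hK⟩ := exists_aclF S
  refine mem_acl_of_root (Polynomial.X ^ N - Polynomial.C (r ^ N))
    (Polynomial.X_pow_sub_C_ne_zero (Nat.pos_of_ne_zero hN) _) (fun i => ?_) (by simp)
  rw [← hK] at h ⊢
  rw [Polynomial.coeff_sub, Polynomial.coeff_X_pow, Polynomial.coeff_C]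
  refine K.sub_mem ?_ ?_ <;> split_ifs
  · exact K.one_mem
  · exact K.zero_mem
  · exact h
  · exact K.zero_mem

omit [IsAlgClosed Ω] in
theorem k1_fix_le (C : Fib Ω) : Fix (C.R : Set Ω) ≤ Fix (C.R0 : Set Ω) :=
  fix_anti fun _ hx => C.R0_le hx

omit [IsAlgClosed Ω] in
theorem k1_zeta (hζ : IsPrimitiveRoot ζ N) (hN : (N : Ω) ≠ 0) {σ : Au Ω}
    (hσ : σ ∈ Fix (C.R0 : Set Ω)) : σ ζ = ζ :=
  hσ _ (C.k_le (C.zeta_mem hζ hN))

omit [IsAlgClosed Ω] in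
theorem k1_kum_eq (hζ : IsPrimitiveRoot ζ N) (hN : N ≠ 0) {G G' : Subgroup (Au Ω)} {r : Ω}
    (h : Kum ζ G r χ) (h' : Kum ζ G' r χ') {σ : Au Ω} (hσ : σ ∈ G) (hσ' : σ ∈ G') :
    χ σ = χ' σ :=
  pow_val_inj hζ hN (mul_right_cancel₀ h.1 ((h.2 σ hσ).symm.trans (h'.2 σ hσ')))

omit [IsAlgClosed Ω] in
theorem k1_cancel (hN : N ≠ 0) {D D' : Dv C.R} (h : (N : ℤ) • D = (N : ℤ) • D') : D = D' := by
  ext P
  have := congrArg (fun E : Dv C.R => E P) h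
  simp only [Finsupp.smul_apply, smul_eq_mul] at this
  exact mul_left_cancel₀ (Int.natCast_ne_zero.2 hN) this

/-- `D` minimal in the class `s`: its conjugates are the minimal divisors of torsion classes;
`exists_dv`, `exists_R0`, `exists_kum` -/
theorem isKap_ex (hζ : IsPrimitiveRoot ζ N) (hN : (N : Ω) ≠ 0) (hs : N • s = 0) :
    ∃ χ : Au Ω → ZMod N, C.IsKap ζ s χ := by
  have hN0 := k1_ne hN
  obtain ⟨D, hD, rfl⟩ := exists_min s
  have h1 : cl ((N : ℤ) • D) = 0 := by rw [map_zsmul, natCast_zsmul, hs]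
  obtain ⟨a, ha, haD⟩ := exists_dv (D := (N : ℤ) • D)
    (smul_nonneg (Int.natCast_nonneg N) hD.1) h1
  have hfin : {E : Dv C.R | Min E ∧ N • cl E = 0}.Finite := by
    refine Set.Finite.of_finite_image (f := cl) ((C.tors_fin hN).subset ?_) ?_
    · rintro _ ⟨E, hE, rfl⟩
      exact hE.2
    · intro E hE E' hE' e
      exact Min.unique C.op hE'.1 hE.1.1 e (hE.1.2 E' hE'.1.1 e.symm)
  have hfin' : {E | ∃ σ ∈ C.G0, C.ad σ (dv a) = E}.Finite := by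
    refine (hfin.image fun E => (N : ℤ) • E).subset ?_
    rintro _ ⟨σ, _, rfl⟩
    refine ⟨C.ad σ D, ⟨ad_min hD σ, ?_⟩, by rw [haD, ad_zsmul]⟩
    rw [← ac_cl, ← ac_nsmul, hs, k1_ac_zero]
  obtain ⟨g, hg, hg0, hgD⟩ := C.exists_R0 ha hfin'
  obtain ⟨r, hr⟩ := IsAlgClosed.exists_pow_nat_eq (g : Ω) (Nat.pos_of_ne_zero hN0)
  have hr0 : r ≠ 0 := by
    rintro rfl
    rw [zero_pow hN0] at hr
    exact hg0 (Subtype.ext hr.symm)
  obtain ⟨χ, h0, hχ⟩ := exists_kum (G := Fix (C.R0 : Set Ω)) hζ hN0 hr0 fun σ hσ => by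
    rw [hr]
    exact hσ _ hg
  exact ⟨χ, h0, g, D, r, hg, rfl, hgD.trans haD, hr, hχ⟩

/-- `kummer_fix`, `mem_of_pow`, `frac_R0` -/
theorem ext0 (hζ : IsPrimitiveRoot ζ N) (hN : (N : Ω) ≠ 0) (h : Hom (Fix (C.R0 : Set Ω)) χ)
    (hs : Sm (Fix (C.R0 : Set Ω)) (Acl (C.R0 : Set Ω)) χ) (h0 : ∀ σ ∈ Fix (C.R : Set Ω), χ σ = 0) :
    ∀ σ ∈ Fix (C.R0 : Set Ω), χ σ = 0 := by
  have hN0 := k1_ne hN
  obtain ⟨r, hr, hrN⟩ := kummer_fix hζ hN
    (Subfield.subset_closure (C.k_le (C.zeta_mem hζ hN))) h hs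
  have h1 : r ∈ Subfield.closure (C.R : Set Ω) := by
    refine mem_of_pow hN (fun σ hσ => ?_) (Subfield.closure_mono (fun _ hx => C.R0_le hx) hrN)
    rw [hr.2 σ (C.k1_fix_le hσ), h0 σ hσ, ZMod.val_zero, pow_zero, one_mul]
  have h2 := C.frac_R0 h1 (k1_acl hN0 (closure_subset_acl _ hrN))
  intro σ hσ
  have h3 : σ r = r := (fix_closure (C.R0 : Set Ω)).ge hσ r h2
  refine pow_val_inj hζ hN0 (mul_right_cancel₀ hr.1 ?_)
  rw [← hr.2 σ hσ, h3, ZMod.val_zero, pow_zero, one_mul]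

omit [IsAlgClosed Ω] in
/-- the quotient of the two roots is in `closure R` (`cl_eq_iff`, `OP.of_dv_eq`, `A` is
algebraically closed) -/
theorem IsKap.kum (hζ : IsPrimitiveRoot ζ N) (hN : (N : Ω) ≠ 0) (h : C.IsKap ζ s χ) {D : Dv C.R}
    {a b : C.R} {r : Ω} (hD : cl D = s) (ha : a ≠ 0) (hb : b ≠ 0)
    (e : dv a - dv b = (N : ℤ) • D) (hr : r ^ N = a / b) : Kum ζ (Fix (C.R : Set Ω)) r χ := by
  have hN0 := k1_ne hN
  obtain ⟨-, f, D0, r0, -, hD0, hf, hr0, hk⟩ := h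
  have ha' : (a : Ω) ≠ 0 := fun h => ha (Subtype.ext h)
  have hb' : (b : Ω) ≠ 0 := fun h => hb (Subtype.ext h)
  have hf' : (f : Ω) ≠ 0 := hr0 ▸ pow_ne_zero N hk.1
  have hf0 : f ≠ 0 := fun h => hf' (by rw [h]; rfl)
  obtain ⟨u, v, hu, hv, huv⟩ := cl_eq_iff.1 (hD.trans hD0.symm)
  have hu' : (u : Ω) ≠ 0 := fun h => hu (Subtype.ext h)
  have hv' : (v : Ω) ≠ 0 := fun h => hv (Subtype.ext h)
  have e1 : dv (a * v ^ N) = dv (b * f * u ^ N) := by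
    rw [dv_mul ha (pow_ne_zero N hv), dv_mul (mul_ne_zero hb hf0) (pow_ne_zero N hu),
      dv_mul hb hf0, dv_pow hv, dv_pow hu, hf, add_assoc, ← smul_add, ← huv, smul_add, ← e]
    abel
  obtain ⟨c, hc, hcc⟩ := C.op.of_dv_eq (mul_ne_zero ha (pow_ne_zero N hv))
    (mul_ne_zero (mul_ne_zero hb hf0) (pow_ne_zero N hu)) e1
  obtain ⟨d, rfl⟩ := IsAlgClosed.exists_pow_nat_eq c (Nat.pos_of_ne_zero hN0)
  have hd : (d : Ω) ≠ 0 := fun h => hc (by rw [show d = 0 from Subtype.ext h, zero_pow hN0])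
  have e2 : (a : Ω) * (v : Ω) ^ N = (d : Ω) ^ N * (b * f * (u : Ω) ^ N) := by
    have := congrArg (fun x : C.R => (x : Ω)) hcc
    simpa [Subfield.smul_def] using this
  have hr' : r ≠ 0 := by
    rintro rfl
    rw [zero_pow hN0] at hr
    exact div_ne_zero ha' hb' hr.symm
  have e3 : (r * v / (d * r0 * u)) ^ N = 1 := by
    rw [div_pow, mul_pow, mul_pow, mul_pow, hr, hr0,
      div_eq_one_iff_eq (mul_ne_zero (mul_ne_zero (pow_ne_zero N hd) hf') (pow_ne_zero N hu')),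
      div_mul_eq_mul_div, div_eq_iff hb', e2]
    ring
  have e4 := root_mem C.k (Nat.pos_of_ne_zero hN0) C.k.one_mem e3
  refine ⟨hr', fun σ hσ => ?_⟩
  have e5 := hσ _ (C.R0_le (C.k_le e4))
  have h0 := hk.1
  have hz : ζ ^ (χ σ).val ≠ 0 := pow_ne_zero _ (hζ.ne_zero hN0)
  rw [map_div₀, map_mul, map_mul, map_mul, hσ _ v.2, hσ _ u.2, hσ _ (C.A_le d.2),
    hk.2 σ (C.k1_fix_le hσ)] at e5
  field_simp at e5
  linear_combination e5

omit [IsAlgClosed Ω] in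
theorem IsKap.hom (hζ : IsPrimitiveRoot ζ N) (hN : (N : Ω) ≠ 0) (h : C.IsKap ζ s χ) :
    Hom (Fix (C.R0 : Set Ω)) χ := by
  obtain ⟨-, f, D, r, -, -, -, -, hk⟩ := h
  exact hk.hom hζ (k1_ne hN) fun σ hσ => k1_zeta hζ hN hσ

omit [IsAlgClosed Ω] in
theorem IsKap.sm (hζ : IsPrimitiveRoot ζ N) (hN : (N : Ω) ≠ 0) (h : C.IsKap ζ s χ) :
    Sm (Fix (C.R0 : Set Ω)) (Acl (C.R0 : Set Ω)) χ := by
  obtain ⟨-, f, D, r, hf, -, -, hr, hk⟩ := h
  exact hk.sm hζ (k1_ne hN) (k1_acl (k1_ne hN) (subset_acl _ (by rw [hr]; exact hf)))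

theorem IsKap.unique (hζ : IsPrimitiveRoot ζ N) (hN : (N : Ω) ≠ 0) (h : C.IsKap ζ s χ)
    (h' : C.IsKap ζ s χ') : χ = χ' := by
  have hN0 := k1_ne hN
  have e : ∀ σ ∈ Fix (C.R0 : Set Ω), χ σ - χ' σ = 0 := by
    refine ext0 (χ := fun σ => χ σ - χ' σ) hζ hN (fun σ hσ τ hτ => ?_)
      ((h.sm hζ hN).map₂ (h'.sm hζ hN) fun x y => x - y) fun σ hσ => ?_
    · show χ (σ * τ) - χ' (σ * τ) = χ σ - χ' σ + (χ τ - χ' τ)
      rw [h.hom hζ hN σ hσ τ hτ, h'.hom hζ hN σ hσ τ hτ]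
      abel
    · obtain ⟨-, f, D, r, -, hD, hf, hr, hk⟩ := h
      have hf0 : f ≠ 0 := fun h => pow_ne_zero N hk.1 (by rw [hr, h]; rfl)
      have h1 : dv (1 : C.R) = 0 := (dv_eq_zero one_ne_zero).2 isUnit_one
      have := h'.kum hζ hN hD hf0 one_ne_zero (by rw [h1, sub_zero, hf]) (r := r) (by simp [hr])
      exact sub_eq_zero.2 (k1_kum_eq hζ hN0 hk this (C.k1_fix_le hσ) hσ)
  funext σ
  by_cases hσ : σ ∈ Fix (C.R0 : Set Ω)
  · exact sub_eq_zero.1 (e σ hσ)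
  · rw [h.1 σ hσ, h'.1 σ hσ]

theorem kap_spec (hζ : IsPrimitiveRoot ζ N) (hN : (N : Ω) ≠ 0) (hs : N • s = 0) :
    C.IsKap ζ s (C.kap N ζ s) := by
  exact Classical.epsilon_spec (isKap_ex hζ hN hs)

theorem kap_kum (hζ : IsPrimitiveRoot ζ N) (hN : (N : Ω) ≠ 0) {D : Dv C.R} {a b : C.R} {r : Ω}
    (ha : a ≠ 0) (hb : b ≠ 0) (e : dv a - dv b = (N : ℤ) • D) (hr : r ^ N = a / b) :
    N • cl D = 0 ∧ Kum ζ (Fix (C.R : Set Ω)) r (C.kap N ζ (cl D)) := by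
  have h : N • cl D = 0 := by
    rw [← natCast_zsmul, ← map_zsmul, ← e, map_sub, cl_dv, cl_dv, sub_zero]
  exact ⟨h, (kap_spec hζ hN h).kum hζ hN rfl ha hb e hr⟩

theorem kap_hom (hζ : IsPrimitiveRoot ζ N) (hN : (N : Ω) ≠ 0) (hs : N • s = 0) :
    Hom (Fix (C.R0 : Set Ω)) (C.kap N ζ s) := by
  exact (kap_spec hζ hN hs).hom hζ hN

theorem kap_sm (hζ : IsPrimitiveRoot ζ N) (hN : (N : Ω) ≠ 0) (hs : N • s = 0) :
    Sm (Fix (C.R0 : Set Ω)) (Acl (C.R0 : Set Ω)) (C.kap N ζ s) := by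
  exact (kap_spec hζ hN hs).sm hζ hN

theorem kap_add (hζ : IsPrimitiveRoot ζ N) (hN : (N : Ω) ≠ 0) (hs : N • s = 0)
    (hs' : N • s' = 0) (σ : Au Ω) : C.kap N ζ (s + s') σ = C.kap N ζ s σ + C.kap N ζ s' σ := by
  have hN0 := k1_ne hN
  obtain ⟨h0, f, D, r, hf, hD, hfD, hr, hk⟩ := kap_spec hζ hN hs
  obtain ⟨h0', f', D', r', hf', hD', hfD', hr', hk'⟩ := kap_spec hζ hN hs'
  have hf0 : f ≠ 0 := fun h => pow_ne_zero N hk.1 (by rw [hr, h]; rfl)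
  have hf0' : f' ≠ 0 := fun h => pow_ne_zero N hk'.1 (by rw [hr', h]; rfl)
  have h : C.IsKap ζ (s + s') fun σ => C.kap N ζ s σ + C.kap N ζ s' σ := by
    refine ⟨fun σ hσ => by simp only [h0 σ hσ, h0' σ hσ, add_zero], f * f', D + D', r * r',
      C.R0.mul_mem hf hf', by rw [map_add, hD, hD'], by rw [dv_mul hf0 hf0', hfD, hfD', smul_add],
      by rw [mul_pow, hr, hr']; rfl, mul_ne_zero hk.1 hk'.1, fun σ hσ => ?_⟩
    beta_reduce
    rw [map_mul, hk.2 σ hσ, hk'.2 σ hσ, pow_val_add hζ hN0]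
    ring
  exact congrFun ((kap_spec hζ hN (by rw [smul_add, hs, hs', add_zero])).unique hζ hN h) σ

theorem kap_zero (hζ : IsPrimitiveRoot ζ N) (hN : (N : Ω) ≠ 0) (σ : Au Ω) :
    C.kap N ζ 0 σ = 0 := by
  have h := kap_add (C := C) (s := 0) (s' := 0) hζ hN (smul_zero _) (smul_zero _) σ
  rw [add_zero] at h
  exact left_eq_add.1 h

theorem kap_neg (hζ : IsPrimitiveRoot ζ N) (hN : (N : Ω) ≠ 0) (hs : N • s = 0) (σ : Au Ω) :
    C.kap N ζ (-s) σ = -C.kap N ζ s σ := by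
  have h := kap_add (s' := -s) hζ hN hs (by rw [smul_neg, hs, neg_zero]) σ
  rw [add_neg_cancel, kap_zero hζ hN] at h
  exact eq_neg_of_add_eq_zero_right h.symm

theorem kap_zsmul (hζ : IsPrimitiveRoot ζ N) (hN : (N : Ω) ≠ 0) (hs : N • s = 0) (n : ℤ)
    (σ : Au Ω) : C.kap N ζ (n • s) σ = n * C.kap N ζ s σ := by
  have ht : ∀ m : ℤ, N • m • s = 0 := fun m => by rw [smul_comm, hs, smul_zero]
  induction n using Int.induction_on with
  | zero => rw [zero_smul, kap_zero hζ hN, Int.cast_zero, zero_mul]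
  | succ i ih =>
    rw [add_smul, one_smul, kap_add hζ hN (ht _) hs, ih]
    push_cast
    ring
  | pred i ih =>
    rw [sub_smul, one_smul, sub_eq_add_neg, kap_add hζ hN (ht _) (by rw [smul_neg, hs, neg_zero]),
      kap_neg hζ hN hs, ih]
    push_cast
    ring

theorem kap_sum (hζ : IsPrimitiveRoot ζ N) (hN : (N : Ω) ≠ 0) {ι : Type} [Fintype ι]
    {t : ι → Cl C.R} (ht : ∀ i, N • t i = 0) (a : ι → ZMod N) (σ : Au Ω) :
    C.kap N ζ (∑ i, (a i).val • t i) σ = ∑ i, a i * C.kap N ζ (t i) σ := by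
  have : NeZero N := ⟨k1_ne hN⟩
  have ht' : ∀ i, N • (a i).val • t i = 0 := fun i => by rw [smul_comm, ht, smul_zero]
  have h : ∀ S : Finset ι, C.kap N ζ (∑ i ∈ S, (a i).val • t i) σ
      = ∑ i ∈ S, a i * C.kap N ζ (t i) σ := by
    intro S
    induction S using Finset.induction_on with
    | empty => rw [Finset.sum_empty, Finset.sum_empty, kap_zero hζ hN]
    | insert i S hi ih =>
      rw [Finset.sum_insert hi, Finset.sum_insert hi, kap_add hζ hN (ht' i)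
        (by rw [Finset.smul_sum, Finset.sum_eq_zero fun j _ => ht' j]), ih, ← natCast_zsmul,
        kap_zsmul hζ hN (ht i), Int.cast_natCast, ZMod.natCast_zmod_val]
  exact h _

theorem kap_inj (hζ : IsPrimitiveRoot ζ N) (hN : (N : Ω) ≠ 0) (hs : N • s = 0) (hs' : N • s' = 0)
    (h : ∀ σ ∈ Fix (C.R : Set Ω), C.kap N ζ s σ = C.kap N ζ s' σ) : s = s' := by
  have hN0 := k1_ne hN
  have hn : N • (-s') = 0 := by rw [smul_neg, hs', neg_zero]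
  obtain ⟨-, f, D, r, -, hD, hfD, hr, hk⟩ := kap_spec (s := s + -s') hζ hN
    (by rw [smul_add, hs, hn, add_zero])
  have hf0 : f ≠ 0 := fun h => pow_ne_zero N hk.1 (by rw [hr, h]; rfl)
  have h1 : r ∈ Subfield.closure (C.R : Set Ω) := by
    refine mem_of_pow hN (fun σ hσ => ?_) (Subfield.subset_closure (by rw [hr]; exact f.2))
    rw [hk.2 σ (C.k1_fix_le hσ), kap_add hζ hN hs hn, kap_neg hζ hN hs', h σ hσ, add_neg_cancel,
      ZMod.val_zero, pow_zero, one_mul]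
  obtain ⟨a, ha, b, hb, hab⟩ := Subfield.mem_closure_iff.1 h1
  have hcl : Subring.closure (C.R : Set Ω) = C.R.toSubring := Subring.closure_eq C.R.toSubring
  rw [hcl] at ha hb
  have ha0 : a ≠ 0 := fun h => hk.1 (by rw [← hab, h, zero_div])
  have hb0 : b ≠ 0 := fun h => hk.1 (by rw [← hab, h, div_zero])
  have ha1 : (⟨a, ha⟩ : C.R) ≠ 0 := fun h => ha0 (congrArg Subtype.val h)
  have hb1 : (⟨b, hb⟩ : C.R) ≠ 0 := fun h => hb0 (congrArg Subtype.val h)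
  have e1 : (⟨a, ha⟩ : C.R) ^ N = f * (⟨b, hb⟩ : C.R) ^ N := by
    apply Subtype.ext
    show a ^ N = f * b ^ N
    rw [← hr, ← hab, div_pow, div_mul_cancel₀ _ (pow_ne_zero N hb0)]
  have e2 := congrArg dv e1
  rw [dv_mul hf0 (pow_ne_zero N hb1), dv_pow ha1, dv_pow hb1, hfD, ← smul_add] at e2
  have e3 := congrArg cl (k1_cancel hN0 e2)
  rw [map_add, cl_dv, cl_dv, add_zero, hD] at e3
  exact add_neg_eq_zero.1 e3.symm

/-- `N • σ D = dv (σ f) = dv f` -/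
theorem ac_tors (hN : (N : Ω) ≠ 0) (hs : N • s = 0) {σ : Au Ω} (hσ : σ ∈ C.G0) :
    C.ac σ s = s := by
  have : NeZero (N : Ω) := ⟨hN⟩
  have : NeZero N := ⟨k1_ne hN⟩
  obtain ⟨ζ, hζ⟩ := HasEnoughRootsOfUnity.exists_primitiveRoot Ω N
  obtain ⟨-, f, D, r, hf, rfl, hfD, -, -⟩ := kap_spec hζ hN hs
  have h1 : C.ad σ (dv f) = dv f := ad_dv (C.G0_le hσ) (hσ.1 _ hf).symm
  rw [hfD, ad_zsmul] at h1
  rw [ac_cl, k1_cancel (k1_ne hN) h1]

theorem kap_conj (hζ : IsPrimitiveRoot ζ N) (hN : (N : Ω) ≠ 0) (hs : N • s = 0) {α : Au Ω}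
    (hα : α ∈ C.Nm) {q : ℕ} (hq : α ζ = ζ ^ q) (σ : Au Ω) :
    C.kap N ζ (C.ac α s) (α * σ * α⁻¹) = q * C.kap N ζ s σ := by
  have hN0 := k1_ne hN
  have : NeZero N := ⟨hN0⟩
  obtain ⟨h0, f, D, r, hf, hD, hfD, hr, hk⟩ := kap_spec hζ hN hs
  have h : C.IsKap ζ (C.ac α s) fun τ => (q : ZMod N) * C.kap N ζ s (α⁻¹ * τ * α) := by
    refine ⟨fun τ hτ => ?_, ⟨α f, (C.Nm_le hα f).2 f.2⟩, C.ad α D, α r, (hα.1 f).2 hf,
      by rw [← ac_cl, hD], by rw [← ad_dv (f := f) hα rfl, hfD, ad_zsmul],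
      by rw [← map_pow, hr], (map_ne_zero α).2 hk.1, fun τ hτ => ?_⟩
    · beta_reduce
      rw [h0, mul_zero]
      intro h
      apply hτ
      have := C.Nm_conj0 (C.Nm.inv_mem hα) h
      simpa [mul_assoc] using this
    · have e := congrArg α (hk.2 _ (C.Nm_conj0 hα hτ))
      rw [au_mul, au_mul, au_inv, RingEquiv.apply_symm_apply, map_mul, map_pow, hq,
        ← pow_mul] at e
      beta_reduce
      rw [e, ← pow_val_cast hζ hN0 (q * _), Nat.cast_mul, ZMod.natCast_zmod_val]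
  have e := congrFun ((kap_spec hζ hN (by rw [← ac_nsmul, hs, k1_ac_zero])).unique hζ hN h)
    (α * σ * α⁻¹)
  rw [e]
  simp [mul_assoc]

theorem kap_red {ℓ : ℕ} [Fact ℓ.Prime] (hℓ : (ℓ : Ω) ≠ 0) {ζ : ℕ → Ω} (hζ : Roots ℓ ζ) {n : ℕ}
    (hs : ℓ ^ (n + 1) • s = 0) (σ : Au Ω) :
    red ℓ n (C.kap (ℓ ^ (n + 1)) (ζ (n + 1)) s σ) = C.kap (ℓ ^ n) (ζ n) (ℓ • s) σ := by
  have hN : ∀ m, ((ℓ ^ m : ℕ) : Ω) ≠ 0 := fun m => by
    rw [Nat.cast_pow]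
    exact pow_ne_zero m hℓ
  have : NeZero (ℓ ^ (n + 1)) := ⟨k1_ne (hN _)⟩
  obtain ⟨h0, f, D, r, hf, hD, hfD, hr, hk⟩ := kap_spec (hζ.prim (n + 1)) (hN _) hs
  have h : C.IsKap (ζ n) (ℓ • s)
      fun σ => red ℓ n (C.kap (ℓ ^ (n + 1)) (ζ (n + 1)) s σ) := by
    refine ⟨fun σ hσ => by simp only [h0 σ hσ, map_zero], f, ℓ • D, r ^ ℓ, hf, by rw [map_nsmul, hD],
      ?_, by rw [← pow_mul, ← pow_succ', hr], pow_ne_zero _ hk.1, fun σ hσ => ?_⟩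
    · rw [hfD, ← natCast_zsmul, smul_smul]
      push_cast
      rw [pow_succ]
    · beta_reduce
      rw [map_pow, hk.2 σ hσ, mul_pow, ← pow_mul, mul_comm _ ℓ, pow_mul, hζ.succ,
        ZMod.castHom_apply, ZMod.cast_eq_val, pow_val_cast (hζ.prim n) (k1_ne (hN n))]
  exact congrFun (h.unique (hζ.prim n) (hN n) (kap_spec (hζ.prim n) (hN n)
    (by rw [smul_smul, ← pow_succ, hs]))) σ

end Fib

end Pool.Agent.P.MP_ee618e_ag.X
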