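import Pool.Agent.P.MP_ee618e_ag.X.Ge1b
import Pool.Agent.P.MP_ee618e_ag.X.K1

/-! Ge2: Frobenius on the curve `y ^ 2 + y = x ^ 3`. -/

namespace Pool.Agent.P.MP_ee618e_ag.X

open IsDedekindDomain Polynomial
open scoped Classical

/-- The tangent line `L = y + b + a ^ 2 (x + a)` satisfies `L (L + 1) = (x + a) ^ 2 (x + a ^ 4)`,
vanishes at `P` and `Q`, and `hdg L = 3`; so `dv L = 2 P + Q` (`OP.degree_dv`,
`eq_of_le_degree`; `P = Q` is possible). -/
theorem tangent_line {A R : Type} [Field A] [IsAlgClosed A] [CharP A 2] [CommRing R]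
    [IsDedekindDomain R] [Algebra A R] {x y : R} (H : Hyp A 1 (1 : A[X]) (Polynomial.X ^ 3) x y)
    {P Q : HeightOneSpectrum R} {a b : A} (hP : Pt x y P a b) (hQ : Pt x y Q (a ^ 4) (b ^ 4)) :
    cl (Finsupp.single Q 1) = (-2 : ℤ) • cl (Finsupp.single P 1) := by
  have h2A : (2 : A) = 0 := CharP.cast_eq_zero A 2
  have h2 : (2 : R) = 0 := by rw [← map_ofNat (algebraMap A R) 2, h2A, map_zero]
  have hab : b ^ 2 + b = a ^ 3 := by simpa using H.pt_rel hP
  have hrel : y ^ 2 + y = x ^ 3 := by simpa using H.rel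
  set a' := algebraMap A R a with ha'
  set b' := algebraMap A R b with hb'
  have hab' : b' ^ 2 + b' = a' ^ 3 := by simpa using congrArg (algebraMap A R) hab
  have hx : ∀ c : A, x - algebraMap A R c ≠ 0 := fun c h0 =>
    Polynomial.X_sub_C_ne_zero c (H.indep (Polynomial.X - C c) 0 (by simpa using h0)).1
  set L := y - b' + a' ^ 2 * (x - a') with hL
  have hLe : L = aeval x (C (a ^ 2) * Polynomial.X + C (-b - a ^ 3)) + aeval x (1 : A[X]) * y := by
    simp only [map_add, map_mul, aeval_C, aeval_X, map_one, map_pow, map_sub, map_neg, hL]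
    ring
  have hL0 : L ≠ 0 := fun h0 => one_ne_zero (H.indep _ _ (hLe ▸ h0)).2
  have hdeg : (dv L).degree = 3 := by
    rw [H.op.degree_dv hL0, hLe, H.hdg_eq, if_neg one_ne_zero, natDegree_one,
      max_eq_right (by linarith [natDegree_linear_le (a := a ^ 2) (b := -b - a ^ 3)])]
    norm_num
  have hP1 : x - a' ∈ P.asIdeal := hP.1
  have hQ1 : x - a' ^ 4 ∈ Q.asIdeal := by simpa using hQ.1
  have hQ2 : y - b' ^ 4 ∈ Q.asIdeal := by simpa using hQ.2
  have hLP : L ∈ P.asIdeal := add_mem hP.2 (Ideal.mul_mem_left _ _ hP1)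
  have hLQ : L ∈ Q.asIdeal := by
    have e : L = (y - b' ^ 4) + a' ^ 2 * (x - a' ^ 4) := by
      rw [hL]
      linear_combination (b' ^ 2 + b' + a' ^ 3 + 1) * hab' +
        (a' ^ 6 - b' ^ 3 - b' ^ 2 - b') * h2
    rw [e]
    exact add_mem hQ2 (Ideal.mul_mem_left _ _ hQ1)
  have hL1 : L + 1 ∉ P.asIdeal := fun h =>
    P.isPrime.ne_top ((Ideal.eq_top_iff_one _).2 (by simpa using sub_mem h hLP))
  have hL10 : L + 1 ≠ 0 := fun h => hL1 (h ▸ zero_mem _)
  have hxa : x - a' ≠ 0 := hx a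
  have hxa4 : x - a' ^ 4 ≠ 0 := by rw [ha', ← map_pow]; exact hx _
  have hprod : L * (L + 1) = (x - a') ^ 2 * (x - a' ^ 4) := by
    rw [hL]
    linear_combination hrel + hab' + (-b' - y * b' + (y - b') * a' ^ 2 * (x - a') + a' ^ 4 * x ^ 2
      - 2 * a' ^ 5 * x + a' ^ 6 + a' * x ^ 2) * h2
  have hord : ord P L = 2 * ord P (x - a') + ord P (x - a' ^ 4) := by
    have := congrArg (ord P) hprod
    rwa [ord_mul hL0 hL10, (ord_eq_zero hL10).2 hL1, add_zero, ord_mul (pow_ne_zero 2 hxa) hxa4,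
      ord_pow hxa] at this
  have pos : ∀ {T : HeightOneSpectrum R} {u : R}, u ≠ 0 → u ∈ T.asIdeal → 1 ≤ ord T u :=
    fun hu h => (le_ord_iff hu).2 (by simpa using h)
  have hle : Finsupp.single P (2 : ℤ) + Finsupp.single Q 1 ≤ dv L := by
    intro T
    rw [dv_apply hL0, Finsupp.add_apply, Finsupp.single_apply, Finsupp.single_apply]
    have h1 := pos hxa hP1
    have h3 := pos hL0 hLQ
    have h4 := pos hxa4 hQ1
    split_ifs with e1 e2 e2
    · subst e1; subst e2; omega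
    · subst e1; omega
    · subst e2; omega
    · omega
  have heq := eq_of_le_degree hle (by rw [hdeg]; simp)
  have h0 := cl_dv L
  rw [← heq, map_add, show Finsupp.single P (2 : ℤ) = (2 : ℤ) • Finsupp.single P 1 by simp,
    map_zsmul] at h0
  rw [neg_smul]
  exact eq_neg_of_add_eq_zero_right h0

theorem tangent_iter {A R : Type} [Field A] [IsAlgClosed A] [CharP A 2] [CommRing R]
    [IsDedekindDomain R] [Algebra A R] {x y : R} (H : Hyp A 1 (1 : A[X]) (Polynomial.X ^ 3) x y)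
    {P : HeightOneSpectrum R} {a b : A} (hP : Pt x y P a b) (r : ℕ) {Q : HeightOneSpectrum R}
    (hQ : Pt x y Q (a ^ 4 ^ r) (b ^ 4 ^ r)) :
    cl (Finsupp.single Q 1) = (-2 : ℤ) ^ r • cl (Finsupp.single P 1) := by
  induction r generalizing Q with
  | zero => rw [H.pt_inj hP (by simpa using hQ), pow_zero, one_smul]
  | succ r ih =>
    have hab : b ^ 2 + b = a ^ 3 := by simpa using H.pt_rel hP
    obtain ⟨T, hT⟩ := H.pt_ex (a := a ^ 4 ^ r) (b := b ^ 4 ^ r) (by
      have := congrArg (· ^ 2 ^ (2 * r)) hab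
      simp only [add_pow_char_pow] at this
      rw [pow_mul] at this
      simp only [eval_one, one_mul, eval_pow, eval_X]
      rw [pow_right_comm b, pow_right_comm a]
      exact this)
    rw [tangent_line H hT (by simpa only [← pow_mul, ← pow_succ] using hQ), ih hT, smul_smul,
      pow_succ']

/-- A torsion class has a representative `D` with `N D = dv f`, `f ∈ R0` (`isKap_ex`); the points of
`D` are of the form `ι P` (`iota_dv`), so their coordinates are in `k` (`OP.exists_ev`,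
`iota_mem`); `α` raises them to the power `4 ^ r`. -/
theorem HF.frob {Ω : Type} [Field Ω] [IsAlgClosed Ω] [CharP Ω 2] {C : Fib Ω} {x y : Ω}
    (h : HF C 1 1 (Polynomial.X ^ 3) x y) {α : Au Ω} (hα : α ∈ C.Nm) (hx : α x = x) (hy : α y = y)
    {r : ℕ} (hk : ∀ c ∈ C.k, α c = c ^ 4 ^ r) {N : ℕ} (hN : (N : Ω) ≠ 0) {s : Cl C.R}
    (hs : N • s = 0) : C.ac α s = (-2 : ℤ) ^ r • s := by
  obtain ⟨h1, f1, x', y', rfl, rfl, e1, e2, H⟩ := h.hyp
  have hinj := Polynomial.map_injective C.A.subtype C.A.subtype.injective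
  obtain rfl : h1 = 1 := hinj (by simpa using e1)
  obtain rfl : f1 = Polynomial.X ^ 3 := hinj (by simpa using e2)
  have : NeZero (N : Ω) := ⟨hN⟩
  obtain ⟨ζ, hζ⟩ := HasEnoughRootsOfUnity.exists_primitiveRoot Ω N
  obtain ⟨χ, -, f, D, -, hf, rfl, hD, -⟩ := Fib.isKap_ex hζ hN hs
  obtain ⟨ι, hι⟩ := C.iota
  have hx0 : (x' : Ω) ∈ C.R0 := h.R0_eq ▸ Algebra.subset_adjoin (by simp)
  have hy0 : (y' : Ω) ∈ C.R0 := h.R0_eq ▸ Algebra.subset_adjoin (by simp)
  have hpt : ∀ P ∈ D.support, C.ac α (cl (Finsupp.single P 1)) =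
      (-2 : ℤ) ^ r • cl (Finsupp.single P 1) := by
    intro P hP
    obtain ⟨P0, rfl⟩ : P ∈ Set.range ι := by
      by_contra hn
      have e := iota_dv C.inc_inj hι ⟨f, hf⟩
      have e' : dv f P = 0 := by
        rw [show f = C.inc ⟨f, hf⟩ from rfl, e]; exact Finsupp.mapDomain_of_notMem_range _ _ hn
      rw [hD, Finsupp.smul_apply, smul_eq_mul, mul_eq_zero] at e'
      rcases e' with e' | e'
      · exact hN (by rw [show N = 0 by exact_mod_cast e', Nat.cast_zero])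
      · exact Finsupp.mem_support_iff.1 hP e'
    obtain ⟨ev, hev⟩ := C.op0.exists_ev P0
    have key : ∀ (z : C.R) (hz : (z : Ω) ∈ C.R0), α z = z → ∃ c : C.A,
        z - algebraMap C.A C.R c ∈ (ι P0).asIdeal ∧
        z - algebraMap C.A C.R (c ^ 4 ^ r) ∈ (C.ap α (ι P0)).asIdeal := by
      intro z hz hαz
      have h1 : z - algebraMap C.A C.R ⟨ev ⟨z, hz⟩, C.kA (ev ⟨z, hz⟩).2⟩ ∈ (ι P0).asIdeal :=
        (iota_mem hι P0 (⟨z, hz⟩ - algebraMap C.k C.R0 (ev ⟨z, hz⟩))).2 ((hev _).1 (by simp))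
      refine ⟨_, h1, (Fib.mem_ap hα ?_ _).2 h1⟩
      have := hk _ (ev ⟨z, hz⟩).2
      push_cast
      rw [map_sub, hαz]
      exact congrArg _ this.symm
    obtain ⟨a, ha, ha'⟩ := key x' hx0 hx
    obtain ⟨b, hb, hb'⟩ := key y' hy0 hy
    rw [Fib.ac_cl, Fib.ad_single]
    exact tangent_iter H ⟨ha, hb⟩ r ⟨ha', hb'⟩
  have eD : cl D = ∑ P ∈ D.support, D P • cl (Finsupp.single P 1) := by
    conv_lhs => rw [← Finsupp.sum_single D, Finsupp.sum, map_sum]
    exact Finset.sum_congr rfl fun P _ => by rw [← map_zsmul]; simp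
  let φ : Cl C.R →+ Cl C.R := AddMonoidHom.mk' (C.ac α) (Fib.ac_add α)
  change φ (cl D) = _
  rw [eD, map_sum, Finset.smul_sum]
  refine Finset.sum_congr rfl fun P hP => ?_
  rw [map_zsmul, smul_comm]
  exact congrArg _ (hpt P hP)

end Pool.Agent.P.MP_ee618e_ag.X
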