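import Pool.Agent.P.MP_ee618e_ag.X.Ge0
import Pool.Agent.P.MP_ee618e_ag.X.Ge2

/-! Ge3: the five curves. -/

namespace Pool.Agent.P.MP_ee618e_ag.X

open IsDedekindDomain Polynomial
open scoped Classical

variable {Ω : Type} [Field Ω] {r : ℕ}

/-- the five curves and the automorphism exchanging the first two -/
structure Geo (D : Surf Ω (4 ^ r)) where
  C : Fin 5 → Fib Ω
  sw : Au Ω
  hk : ∀ i, (C i).k = kk Ω
  cl0 : ∀ i, Subfield.closure ((C i).R0 : Set Ω) = Subfield.closure (D.T i)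
  hA : ∀ i, ((C i).A : Set Ω) = Acl (D.T (opp i))
  dvs : ∀ i N, Odd N → (C i).Dvs N
  nm : ∀ i, D.α ∈ (C i).Nm
  inv : ∀ i, ∃ s ∈ Fix ((C i).A : Set Ω), s (D.X i) = D.X i ∧ s (D.Y i) = D.Y i + 1 ∧
    s ∈ St ((C i).R0 : Set Ω) ∧ ∀ c, (C i).ac s c = -c
  frob : ∀ i, i = 2 ∨ i = 4 → ∀ N : ℕ, Odd N → ∀ s : Cl (C i).R, N • s = 0 →
    (C i).ac D.α s = (-2 : ℤ) ^ r • s
  sw_k : sw ∈ Fix (kk Ω : Set Ω)
  sw_x : sw D.x₁ = D.x₂ ∧ sw D.x₂ = D.x₁
  sw_y : sw D.y₁ = D.y₂ ∧ sw D.y₂ = D.y₁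

/-- polynomials with coefficients in `k` -/
noncomputable def Cf (k : Subfield Ω) : Subring (Polynomial Ω) := (Polynomial.mapRingHom k.subtype).range

theorem cf_X (k : Subfield Ω) : Polynomial.X ∈ Cf k := ⟨Polynomial.X, by simp⟩

theorem cf_C {k : Subfield Ω} {c : Ω} (hc : c ∈ k) : Polynomial.C c ∈ Cf k :=
  ⟨Polynomial.C ⟨c, hc⟩, by simp⟩

theorem cf_coeff {k : Subfield Ω} {p : Polynomial Ω} (hp : p ∈ Cf k) (i : ℕ) : p.coeff i ∈ k := by
  obtain ⟨q, rfl⟩ := hp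
  rw [coe_mapRingHom, coeff_map]
  exact (q.coeff i).2

theorem adj_k {k : Subfield Ω} {x y c : Ω} (hc : c ∈ k) : c ∈ Algebra.adjoin k {x, y} :=
  Subalgebra.algebraMap_mem _ (⟨c, hc⟩ : k)

theorem adj_x (k : Subfield Ω) (x y : Ω) : x ∈ Algebra.adjoin k {x, y} :=
  Algebra.subset_adjoin (by simp)

theorem adj_y (k : Subfield Ω) (x y : Ω) : y ∈ Algebra.adjoin k {x, y} :=
  Algebra.subset_adjoin (by simp)

theorem sm_aux [CharP Ω 2] {k : Subfield Ω} {x y u E E' G c : Ω} (hc : c ∈ k) (c0 : c ≠ 0)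
    (hE : E' ∈ Algebra.adjoin k {x, y}) (hG : G ∈ Algebra.adjoin k {x, y}) (e : E = E')
    (h : E' ^ 2 = c + u * G) : ∃ a ∈ Algebra.adjoin k {x, y}, ∃ b ∈ Algebra.adjoin k {x, y},
      a * (2 * y + u) + b * E = 1 := by
  refine ⟨-(c⁻¹ * G), neg_mem (mul_mem (adj_k (inv_mem hc)) hG), c⁻¹ * E',
    mul_mem (adj_k (inv_mem hc)) hE, ?_⟩
  rw [e, CharTwo.two_eq_zero]
  linear_combination c⁻¹ * h + mul_inv_cancel₀ c0

theorem eval_mem_closure {k : Subfield Ω} {H : Polynomial Ω} (cH : ∀ i, H.coeff i ∈ k) {x : Ω}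
    {K : Subfield Ω} (hk : (k : Set Ω) ⊆ K) (hx : x ∈ K) : H.eval x ∈ K := by
  rw [eval_eq_sum_range]
  exact sum_mem fun i _ => mul_mem (hk (cH i)) (pow_mem hx i)

variable [IsAlgClosed Ω] [CharP Ω 2] (D : Surf Ω (4 ^ r))

/-- `exists_fib` with `y' = x y`, `H = X`, `F = X ^ 5 + b X ^ 3 + d ^ 2 X`; smoothness: the square of
`H'(x) y' - F'(x)` is `d ^ 4` modulo `x` -/
theorem Surf.fib01 (hr : 0 < r) (i : Fin 5) (hi : i = 0 ∨ i = 1) : ∃ C : Fib Ω, C.k = kk Ω ∧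
    (C.A : Set Ω) = Acl ((kk Ω : Set Ω) ∪ {D.X (opp i)}) ∧ HF C 2 Polynomial.X
      (Polynomial.X ^ 5 + Polynomial.C D.b * Polynomial.X ^ 3 + Polynomial.C (D.d ^ 2) *
        Polynomial.X) (D.X i) (D.X i * D.Y i) := by
  have := kk_algClosed (Ω := Ω)
  have h2 : (2 : Ω) = 0 := CharTwo.two_eq_zero
  have hb := D.b_mem hr
  have hd := D.d_mem hr
  have hc : D.X i ≠ 0 ∧ D.Y i ^ 2 + D.Y i = D.X i ^ 3 + D.b * D.X i + D.d ^ 2 / D.X i := by
    rcases hi with rfl | rfl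
    · exact ⟨D.x_ne.1, D.c₁⟩
    · exact ⟨D.x_ne.2, D.c₂⟩
  have hi := D.indep_X hr i
  have ha := D.acl_X hr i
  generalize D.X i = x, D.Y i = y at hc hi ha ⊢
  have rel : (x * y) ^ 2 + x * (x * y) = x ^ 5 + D.b * x ^ 3 + D.d ^ 2 * x := by
    have := div_mul_cancel₀ (D.d ^ 2) hc.1
    linear_combination x ^ 2 * hc.2 + x * this
  have ax := adj_x (kk Ω) x (x * y)
  have ay := adj_y (kk Ω) x (x * y)
  refine exists_fib (kk Ω) hi ha (cf_coeff (cf_X _))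
    (cf_coeff (add_mem (add_mem (pow_mem (cf_X _) _) (mul_mem (cf_C hb) (pow_mem (cf_X _) _)))
      (mul_mem (cf_C (pow_mem hd 2)) (cf_X _)))) (by compute_degree!) (by simp)
    (by simpa using rel) ?_
  refine sm_aux (pow_mem hd 4) (pow_ne_zero 4 D.d0) (E' := x * y + x ^ 4 + D.b * x ^ 2 + D.d ^ 2)
    (G := x * y + x ^ 4 + D.b * x ^ 2 + D.d ^ 2 + x ^ 7 + D.b ^ 2 * x ^ 3)
    (add_mem (add_mem (add_mem ay (pow_mem ax _)) (mul_mem (adj_k hb) (pow_mem ax _)))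
      (adj_k (pow_mem hd 2)))
    (add_mem (add_mem (add_mem (add_mem (add_mem ay (pow_mem ax _))
      (mul_mem (adj_k hb) (pow_mem ax _))) (adj_k (pow_mem hd 2))) (pow_mem ax _))
      (mul_mem (adj_k (pow_mem hb 2)) (pow_mem ax _))) ?_ ?_
  · simp only [derivative_X, derivative_add, derivative_mul, derivative_C, derivative_X_pow,
      eval_add, eval_mul, eval_pow, eval_C, eval_X, eval_one, zero_mul, zero_add, Nat.cast_ofNat]
    linear_combination (-(3 * x ^ 4 + 2 * D.b * x ^ 2 + D.d ^ 2)) * h2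
  · rw [eval_X]
    linear_combination rel + (x * y * (x ^ 4 + D.b * x ^ 2 + D.d ^ 2) + D.b * x ^ 6 +
      D.d ^ 2 * x ^ 4 + D.b * D.d ^ 2 * x ^ 2 - x * (x * y)) * h2

theorem Surf.fib24 (hr : 0 < r) (i : Fin 5) (hi : i = 2 ∨ i = 4) : ∃ C : Fib Ω, C.k = kk Ω ∧
    (C.A : Set Ω) = Acl ((kk Ω : Set Ω) ∪ {D.X (opp i)}) ∧
      HF C 1 1 (Polynomial.X ^ 3) (D.X i) (D.Y i) := by
  have := kk_algClosed (Ω := Ω)
  have hc : D.Y i ^ 2 + D.Y i = D.X i ^ 3 := by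
    rcases hi with rfl | rfl
    · exact D.cE
    · exact D.w_eq hr
  refine exists_fib (kk Ω) (D.indep_X hr i) (D.acl_X hr i) (cf_coeff (one_mem _))
    (cf_coeff (pow_mem (cf_X _) _)) (by simp) (by simp) (by simpa using hc)
    ⟨1, one_mem _, 0, zero_mem _, ?_⟩
  rw [CharTwo.two_eq_zero]
  simp

/-- `y' = μ m`, `H = X ^ 4 + X + b`, `F = X ^ 3 H ^ 2 + d H`; the square of `H'(t) y' - F'(t)` is
`d ^ 2` modulo `μ` -/
theorem Surf.fib3 (hr : 0 < r) : ∃ C : Fib Ω, C.k = kk Ω ∧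
    (C.A : Set Ω) = Acl ((kk Ω : Set Ω) ∪ {D.u}) ∧
      HF C 5 (Polynomial.X ^ 4 + Polynomial.X + Polynomial.C D.b)
        (Polynomial.X ^ 3 * (Polynomial.X ^ 4 + Polynomial.X + Polynomial.C D.b) ^ 2 +
          Polynomial.C D.d * (Polynomial.X ^ 4 + Polynomial.X + Polynomial.C D.b))
        D.t (D.μ * D.m) := by
  have := kk_algClosed (Ω := Ω)
  have h2 : (2 : Ω) = 0 := CharTwo.two_eq_zero
  have hb := D.b_mem hr
  have hd := D.d_mem hr
  have hμ : D.μ = D.t ^ 4 + D.t + D.b := rfl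
  have rel : (D.μ * D.m) ^ 2 + D.μ * (D.μ * D.m) = D.t ^ 3 * D.μ ^ 2 + D.d * D.μ := by
    have h1 := div_mul_cancel₀ D.d (D.μ_ne hr)
    have h3 : D.m ^ 2 + D.m = D.t ^ 3 + D.d / D.μ := D.c₃
    linear_combination D.μ ^ 2 * h3 + D.μ * h1
  have ax := adj_x (kk Ω) D.t (D.μ * D.m)
  have ay := adj_y (kk Ω) D.t (D.μ * D.m)
  have am : D.μ ∈ Algebra.adjoin (kk Ω) {D.t, D.μ * D.m} :=
    add_mem (add_mem (pow_mem ax 4) ax) (adj_k hb)
  have cH : Polynomial.X ^ 4 + Polynomial.X + Polynomial.C D.b ∈ Cf (kk Ω) :=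
    add_mem (add_mem (pow_mem (cf_X _) _) (cf_X _)) (cf_C hb)
  have ev : (Polynomial.X ^ 4 + Polynomial.X + Polynomial.C D.b).eval D.t = D.μ := by simp [hμ]
  refine exists_fib (kk Ω) (D.indep_X hr 3) (D.acl_X hr 3) (cf_coeff cH)
    (cf_coeff (add_mem (mul_mem (pow_mem (cf_X _) _) (pow_mem cH _)) (mul_mem (cf_C hd) cH)))
    (by compute_degree!) (by compute_degree!) ?_ ?_
  · change _ + eval D.t _ * _ = eval D.t _
    rw [ev, eval_add, eval_mul, eval_mul, eval_pow, eval_pow, eval_X, eval_C, ev]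
    exact rel
  refine sm_aux (pow_mem hd 2) (pow_ne_zero 2 D.d0) (E' := D.μ * D.m + D.t ^ 2 * D.μ ^ 2 + D.d)
    (G := D.μ * D.m + D.t ^ 3 * D.μ + D.d + D.t ^ 4 * D.μ ^ 3)
    (add_mem (add_mem ay (mul_mem (pow_mem ax _) (pow_mem am _))) (adj_k hd))
    (add_mem (add_mem (add_mem ay (mul_mem (pow_mem ax _) am)) (adj_k hd))
      (mul_mem (pow_mem ax _) (pow_mem am _))) ?_ ?_
  · change eval D.t _ * _ - eval D.t _ = _
    simp only [derivative_X, derivative_add, derivative_mul, derivative_C,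
      derivative_pow, eval_add, eval_mul, eval_pow, eval_C, eval_X, eval_one, zero_mul, zero_add,
      add_zero, mul_one, Nat.cast_ofNat, ← hμ]
    linear_combination (2 * D.t ^ 3 * (D.μ * D.m) - 2 * D.t ^ 2 * D.μ ^ 2 -
      D.t ^ 3 * D.μ * (4 * D.t ^ 3 + 1) - 2 * D.d * D.t ^ 3 - D.d) * h2
  · change _ = _ + eval D.t _ * _
    rw [ev]
    linear_combination rel + (D.μ * D.m * (D.t ^ 2 * D.μ ^ 2 + D.d) + D.t ^ 2 * D.μ ^ 2 * D.d -
      D.μ * (D.μ * D.m)) * h2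

theorem Surf.fib_all (hr : 0 < r) (i : Fin 5) : ∃ (C : Fib Ω) (g : ℕ) (H F : Polynomial Ω),
    C.k = kk Ω ∧ (C.A : Set Ω) = Acl ((kk Ω : Set Ω) ∪ {D.X (opp i)}) ∧
    HF C g H F (D.X i) (H.eval (D.X i) * D.Y i) ∧ H.eval (D.X i) ≠ 0 ∧
    D.α (H.eval (D.X i)) = H.eval (D.X i) ∧
    (i = 2 ∨ i = 4 → HF C 1 1 (Polynomial.X ^ 3) (D.X i) (D.Y i)) := by
  by_cases h1 : i = 0 ∨ i = 1
  · obtain ⟨C, a, b, c⟩ := D.fib01 hr i h1
    refine ⟨C, _, _, _, a, b, by rw [eval_X]; exact c, ?_, by rw [eval_X]; exact D.α_X i, ?_⟩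
    · rw [eval_X]
      rcases h1 with rfl | rfl
      exacts [D.x_ne.1, D.x_ne.2]
    · omega
  by_cases h2 : i = 2 ∨ i = 4
  · obtain ⟨C, a, b, c⟩ := D.fib24 hr i h2
    exact ⟨C, _, _, _, a, b, by rw [eval_one, one_mul]; exact c, by simp, by simp, fun _ => c⟩
  obtain rfl : i = 3 := by omega
  obtain ⟨C, a, b, c⟩ := D.fib3 hr
  have ev : (Polynomial.X ^ 4 + Polynomial.X + Polynomial.C D.b).eval (D.X 3) = D.μ := by
    change eval D.t _ = D.t ^ 4 + D.t + D.b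
    simp
  refine ⟨C, _, _, _, a, b, by rw [ev]; exact c, by rw [ev]; exact D.μ_ne hr, ?_, by omega⟩
  have h3 : D.α D.t = D.t := D.α_X 3
  have h4 : D.α D.b = D.b := by
    rw [D.frob _ (kk_eq (Ω := Ω) ▸ D.b_mem hr : D.b ∈ cst Ω), D.hb]
  rw [ev, Surf.μ, map_add, map_add, map_pow, h3, h4]

theorem Surf.exists_swap (hr : 0 < r) :
    ∃ σ ∈ Fix (kk Ω : Set Ω), σ D.x₁ = D.x₂ ∧ σ D.x₂ = D.x₁ := by
  have key : ∀ i : Fin 5, Acl (Set.range (MvPolynomial.aeval (R := kk Ω)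
      ![D.X i, D.X (opp i)]).toRingHom) = Set.univ := by
    intro i
    refine Set.eq_univ_of_univ_subset (D.acl_X hr i ▸ acl_mono ?_)
    rintro z (hz | rfl | rfl)
    · exact ⟨MvPolynomial.C ⟨z, hz⟩, MvPolynomial.aeval_C _ _⟩
    · exact ⟨MvPolynomial.X 0, by simp⟩
    · exact ⟨MvPolynomial.X 1, by simp⟩
  obtain ⟨σ, hσ⟩ := ext_iso _ _ (D.indep_X hr 0) (D.indep_X hr 1) (key 0) (key 1)
  refine ⟨σ, fun z hz => ?_, ?_, ?_⟩
  · have := hσ (MvPolynomial.C ⟨z, hz⟩)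
    simp only [AlgHom.toRingHom_eq_coe, RingHom.coe_coe, MvPolynomial.aeval_C] at this
    exact this
  · have := hσ (MvPolynomial.X 0)
    simp only [AlgHom.toRingHom_eq_coe, RingHom.coe_coe, MvPolynomial.aeval_X] at this
    exact this
  · have := hσ (MvPolynomial.X 1)
    simp only [AlgHom.toRingHom_eq_coe, RingHom.coe_coe, MvPolynomial.aeval_X] at this
    exact this

/-- `sw`: `move_basis`, `Y_cases`, corrected by the involutions of the curves `0` and `1` -/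
theorem exists_geo (hr : 0 < r) : Nonempty (Geo D) := by
  choose C g H F hk hA hF h0 hα h24 using D.fib_all hr
  have h2 : (1 : Ω) + 1 = 0 := CharTwo.add_self_eq_zero 1
  have hA' : ∀ i, ((C i).A : Set Ω) = Acl (D.T (opp i)) := fun i => by rw [hA, D.acl_T hr]
  have nm : ∀ i, D.α ∈ (C i).Nm := fun i =>
    ⟨(hF i).st (by rw [hk]; exact D.α_st) (D.α_X i) (by rw [map_mul, hα, D.α_Y hr]),
      by rw [hA']; exact st_acl (D.α_T hr _)⟩
  have inv : ∀ i, ∃ s ∈ Fix ((C i).A : Set Ω), s (D.X i) = D.X i ∧ s (D.Y i) = D.Y i + 1 ∧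
      s ∈ St ((C i).R0 : Set Ω) ∧ ∀ c, (C i).ac s c = -c := fun i => by
    obtain ⟨s, a, b, c, d, e⟩ := (hF i).inv
    refine ⟨s, a, b, mul_left_cancel₀ (h0 i) ?_, d, e⟩
    have h3 : s ((H i).eval (D.X i)) = (H i).eval (D.X i) := by
      rw [eval_eq_sum_range, map_sum]
      exact Finset.sum_congr rfl fun j _ => by
        rw [map_mul, map_pow, b, a _ ((C i).kA ((hF i).cH j))]
    rw [map_mul, h3] at c
    rw [c]
    linear_combination (-(H i).eval (D.X i) * (D.Y i + 1)) * h2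
  have sw : ∃ σ ∈ Fix (kk Ω : Set Ω), (σ D.x₁ = D.x₂ ∧ σ D.x₂ = D.x₁) ∧
      σ D.y₁ = D.y₂ ∧ σ D.y₂ = D.y₁ := by
    obtain ⟨σ, hσ, e1, e2⟩ := D.exists_swap hr
    obtain ⟨s, sA, sx, sy, -⟩ := inv 0
    obtain ⟨t, tA, tx, ty, -⟩ := inv 1
    rw [hA'] at sA tA
    have sT : s ∈ Fix (D.T 1) := fix_anti (subset_acl _) sA
    have tT : t ∈ Fix (D.T 0) := fix_anti (subset_acl _) tA
    have sk : s ∈ Fix (kk Ω : Set Ω) := fix_anti Set.subset_union_left sT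
    have tk : t ∈ Fix (kk Ω : Set Ω) := fix_anti Set.subset_union_left tT
    have s1 : s D.x₁ = D.x₁ := sx
    have s2 : s D.y₁ = D.y₁ + 1 := sy
    have s3 : s D.x₂ = D.x₂ := sT _ (Or.inr (Or.inl rfl))
    have s4 : s D.y₂ = D.y₂ := sT _ (Or.inr (Or.inr rfl))
    have t1 : t D.x₂ = D.x₂ := tx
    have t2 : t D.y₂ = D.y₂ + 1 := ty
    have t3 : t D.x₁ = D.x₁ := tT _ (Or.inr (Or.inl rfl))
    have t4 : t D.y₁ = D.y₁ := tT _ (Or.inr (Or.inr rfl))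
    have c1 : σ D.y₁ = D.y₂ ∨ σ D.y₁ = D.y₂ + 1 :=
      D.Y_cases hr hσ (i := 0) (j := 1) (by simp) e1
    have c2 : σ D.y₂ = D.y₁ ∨ σ D.y₂ = D.y₁ + 1 :=
      D.Y_cases hr hσ (i := 1) (j := 0) (by simp) e2
    rcases c1 with c1 | c1 <;> rcases c2 with c2 | c2
    · exact ⟨σ, hσ, ⟨e1, e2⟩, c1, c2⟩
    · exact ⟨s * σ, mul_mem sk hσ, by simp [e1, e2, s1, s3],
        by simp [c1, c2, s2, s4, add_assoc, h2]⟩
    · exact ⟨t * σ, mul_mem tk hσ, by simp [e1, e2, t1, t3],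
        by simp [c1, c2, t2, t4, add_assoc, h2]⟩
    · exact ⟨s * (t * σ), mul_mem sk (mul_mem tk hσ), by simp [e1, e2, s1, s3, t1, t3],
        by simp [c1, c2, s2, s4, t2, t4, add_assoc, h2]⟩
  obtain ⟨σ, σk, σx, σy⟩ := sw
  refine ⟨⟨C, σ, hk, fun i => ?_, hA', fun i N hN => (hF i).dvs hN (odd_ne_zero hN), nm, inv,
    fun i hi N hN s hs => (h24 i hi).frob (nm i) (D.α_X i) (D.α_Y hr i)
      (fun c hc => D.frob c ?_) (odd_ne_zero hN) hs, σk, σx, σy⟩⟩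
  · rw [(hF i).closure, hk, Surf.T]
    have cH : ∀ j, (H i).coeff j ∈ kk Ω := hk i ▸ (hF i).cH
    have he : ∀ y, (H i).eval (D.X i) ∈ Subfield.closure ((kk Ω : Set Ω) ∪ {D.X i, y}) := fun y =>
      eval_mem_closure cH (Set.subset_union_left.trans Subfield.subset_closure)
        (Subfield.subset_closure (Or.inr (Or.inl rfl)))
    refine le_antisymm (Subfield.closure_le.2 ?_) (Subfield.closure_le.2 ?_)
    · rintro z (hz | rfl | rfl)
      · exact Subfield.subset_closure (Or.inl hz)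
      · exact Subfield.subset_closure (Or.inr (Or.inl rfl))
      · exact mul_mem (he _) (Subfield.subset_closure (Or.inr (Or.inr rfl)))
    · rintro z (hz | rfl | rfl)
      · exact Subfield.subset_closure (Or.inl hz)
      · exact Subfield.subset_closure (Or.inr (Or.inl rfl))
      · have := mul_mem (inv_mem (he ((H i).eval (D.X i) * D.Y i)))
          (Subfield.subset_closure (Or.inr (Or.inr rfl)))
        rwa [inv_mul_cancel_left₀ (h0 i)] at this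
  · rw [← kk_eq, ← hk i]
    exact hc

end Pool.Agent.P.MP_ee618e_ag.X
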