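import Pool.Agent.P.MP_ee618e_ag.X.O2b

/-! H1: the coordinate ring of a hyperelliptic curve. -/

namespace Pool.Agent.P.MP_ee618e_ag.X

open IsDedekindDomain Polynomial
open scoped Classical

variable {A R : Type} [Field A] [CommRing R] [Algebra A R] {g : ℕ} {h f : A[X]} {x y : R}

theorem norm_aux (hf : f.natDegree = 2 * g + 1) (hh : h.natDegree ≤ g) (p : A[X]) {q : A[X]}
    (hq : q ≠ 0) :
    (p ^ 2 - h * p * q - f * q ^ 2).natDegree =
      max (2 * p.natDegree) (2 * q.natDegree + 2 * g + 1) := by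
  have f0 : f ≠ 0 := by
    rintro rfl
    simp at hf
  have d1 : (p ^ 2).natDegree = 2 * p.natDegree := natDegree_pow _ _
  have d3 : (f * q ^ 2).natDegree = 2 * q.natDegree + 2 * g + 1 := by
    rw [natDegree_mul f0 (pow_ne_zero _ hq), natDegree_pow, hf]; ring
  have d2 : (h * p * q).natDegree ≤ g + p.natDegree + q.natDegree :=
    natDegree_mul_le.trans (Nat.add_le_add_right (natDegree_mul_le.trans (by omega)) _)
  rcases lt_or_gt_of_ne (show 2 * p.natDegree ≠ 2 * q.natDegree + 2 * g + 1 by omega) with hl | hl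
  · rw [max_eq_right hl.le, ← d3]
    refine natDegree_sub_eq_right_of_natDegree_lt ?_
    refine lt_of_le_of_lt (natDegree_sub_le _ _) (max_lt ?_ ?_) <;> omega
  · rw [max_eq_left hl.le, ← d1, sub_sub]
    refine natDegree_sub_eq_left_of_natDegree_lt ?_
    refine lt_of_le_of_lt (natDegree_add_le _ _) (max_lt ?_ ?_) <;> omega

/-- compare degrees: `deg (f q ^ 2)` is odd -/
theorem norm_ne_zero (hf : f.natDegree = 2 * g + 1) (hh : h.natDegree ≤ g) {p q : A[X]}
    (h0 : p ^ 2 + h * p * q - f * q ^ 2 = 0) : p = 0 ∧ q = 0 := by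
  by_cases hq : q = 0
  · subst hq
    simpa using h0
  · have := norm_aux hf hh p (neg_ne_zero.2 hq)
    rw [show p ^ 2 - h * p * (-q) - f * (-q) ^ 2 = 0 by rw [← h0]; ring, natDegree_zero] at this
    omega

theorem norm_degree (hf : f.natDegree = 2 * g + 1) (hh : h.natDegree ≤ g) (p q : A[X]) :
    (p ^ 2 - h * p * q - f * q ^ 2).natDegree =
      max (2 * p.natDegree) (if q = 0 then 0 else 2 * q.natDegree + 2 * g + 1) := by
  split_ifs with hq
  · subst hq
    simp [natDegree_pow]
  · exact norm_aux hf hh p hq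

theorem hyp_uniq (indep : ∀ p q : A[X], aeval x p + aeval x q * y = 0 → p = 0 ∧ q = 0)
    {p q p' q' : A[X]} (e : aeval x p + aeval x q * y = aeval x p' + aeval x q' * y) :
    p = p' ∧ q = q' := by
  have := indep (p - p') (q - q') (by rw [map_sub, map_sub]; linear_combination e)
  exact ⟨sub_eq_zero.1 this.1, sub_eq_zero.1 this.2⟩

/-- the universal property -/
theorem hyp_lift (rel : y ^ 2 + aeval x h * y = aeval x f)
    (span : ∀ r : R, ∃ p q : A[X], r = aeval x p + aeval x q * y)
    (indep : ∀ p q : A[X], aeval x p + aeval x q * y = 0 → p = 0 ∧ q = 0)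
    {R' : Type} [CommRing R'] (φ : A →+* R') (x' y' : R')
    (rel' : y' ^ 2 + h.eval₂ φ x' * y' = f.eval₂ φ x') :
    ∃ ψ : R →+* R', (∀ a, ψ (algebraMap A R a) = φ a) ∧ ψ x = x' ∧ ψ y = y' := by
  choose P Q hPQ using span
  let E : A[X] →+* R' := eval₂RingHom φ x'
  let F : R → R' := fun r => E (P r) + E (Q r) * y'
  have key : ∀ p q : A[X], F (aeval x p + aeval x q * y) = E p + E q * y' := by
    intro p q
    obtain ⟨h1, h2⟩ := hyp_uniq indep (hPQ (aeval x p + aeval x q * y))
    simp only [F, ← h1, ← h2]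
  have rel'' : y' ^ 2 + E h * y' = E f := rel'
  refine ⟨{ toFun := F, map_one' := ?_, map_mul' := ?_, map_zero' := ?_, map_add' := ?_ },
    fun a => ?_, ?_, ?_⟩
  · simpa using key 1 0
  · intro r s
    have e : r * s = aeval x (P r * P s + Q r * Q s * f) +
        aeval x (P r * Q s + Q r * P s - Q r * Q s * h) * y := by
      conv_lhs => rw [hPQ r, hPQ s]
      simp only [map_add, map_mul, map_sub]
      linear_combination (aeval x (Q r) * aeval x (Q s)) * rel
    rw [e, key]
    simp only [F, map_add, map_mul, map_sub]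
    linear_combination (-(E (Q r) * E (Q s))) * rel''
  · simpa using key 0 0
  · intro r s
    have e : r + s = aeval x (P r + P s) + aeval x (Q r + Q s) * y := by
      conv_lhs => rw [hPQ r, hPQ s]
      simp only [map_add]
      ring
    rw [e, key]
    simp only [F, map_add]
    ring
  · simpa [E] using key (C a) 0
  · simpa [E] using key X 0
  · simpa [E] using key 0 1

theorem Hyp.ext (H : Hyp A g h f x y) {R' : Type} [CommRing R'] {ψ ψ' : R →+* R'}
    (h1 : ∀ a, ψ (algebraMap A R a) = ψ' (algebraMap A R a)) (h2 : ψ x = ψ' x)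
    (h3 : ψ y = ψ' y) : ψ = ψ' := by
  have key : ∀ p : A[X], ψ (aeval x p) = ψ' (aeval x p) := by
    intro p
    induction p using Polynomial.induction_on' with
    | add p q hp hq => simp only [map_add, hp, hq]
    | monomial n a => simp only [aeval_monomial, map_mul, map_pow, h1, h2]
  ext r
  obtain ⟨p, q, rfl⟩ := H.span r
  simp only [map_add, map_mul, key, h3]

theorem Hyp.hdg_eq (H : Hyp A g h f x y) (p q : A[X]) :
    hdg A g x y (aeval x p + aeval x q * y) =
      max (2 * p.natDegree) (if q = 0 then 0 else 2 * q.natDegree + 2 * g + 1) := by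
  refine IsLeast.csInf_eq ⟨⟨p, q, rfl, le_max_left _ _, fun hq => ?_⟩, ?_⟩
  · rw [if_neg hq]
    exact le_max_right _ _
  · rintro n ⟨p', q', e, h1, h2⟩
    obtain ⟨rfl, rfl⟩ := hyp_uniq H.indep e
    refine max_le h1 ?_
    split_ifs with hq
    · exact Nat.zero_le _
    · exact h2 hq

/-- `(p + q y) (p - q h - q y) = p ^ 2 - h p q - f q ^ 2` -/
theorem Hyp.isDomain (H : Hyp A g h f x y) : IsDomain R := by
  have inj : ∀ p : A[X], aeval x p = 0 → p = 0 := fun p hp =>
    (H.indep p 0 (by simpa using hp)).1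
  have nt : Nontrivial R := ⟨⟨1, 0, fun e => one_ne_zero (inj 1 (by simpa using e))⟩⟩
  have nrm : ∀ p q : A[X], (aeval x p + aeval x q * y) * (aeval x (p - q * h) - aeval x q * y) =
      aeval x (p ^ 2 - h * p * q - f * q ^ 2) := by
    intro p q
    simp only [map_sub, map_mul, map_pow]
    linear_combination (-(aeval x q) ^ 2) * H.rel
  have nz : ∀ p q : A[X], p ^ 2 - h * p * q - f * q ^ 2 = 0 → aeval x p + aeval x q * y = 0 := by
    intro p q e
    obtain ⟨rfl, hq⟩ := norm_ne_zero H.degf H.degh (p := p) (q := -q) (by rw [← e]; ring)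
    rw [neg_eq_zero.1 hq]
    simp
  have : NoZeroDivisors R := ⟨fun {a b} hab => by
    obtain ⟨p, q, rfl⟩ := H.span a
    obtain ⟨p', q', rfl⟩ := H.span b
    have : aeval x ((p ^ 2 - h * p * q - f * q ^ 2) * (p' ^ 2 - h * p' * q' - f * q' ^ 2)) = 0 := by
      rw [map_mul, ← nrm, ← nrm, mul_mul_mul_comm, hab, zero_mul]
    rcases mul_eq_zero.1 (inj _ this) with e | e
    · exact Or.inl (nz _ _ e)
    · exact Or.inr (nz _ _ e)⟩
  exact NoZeroDivisors.to_isDomain R

end Pool.Agent.P.MP_ee618e_ag.X
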