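import Pool.Agent.P.MP_ee618e_ag.X.H1

/-! H1b: hyperelliptic rings are Dedekind, pole orders, base change. -/

namespace Pool.Agent.P.MP_ee618e_ag.X

open IsDedekindDomain Polynomial
open scoped Classical

variable {A R : Type} [Field A] [CommRing R] [Algebra A R] {g : ℕ} {h f : A[X]} {x y : R}

namespace H1b

theorem rep_ne (p q : A[X]) (h0 : aeval x p + aeval x q * y ≠ 0) : ¬ (p = 0 ∧ q = 0) := by
  rintro ⟨rfl, rfl⟩
  exact h0 (by simp)

theorem norm_ne (H : Hyp A g h f x y) {p q : A[X]} (h0 : ¬ (p = 0 ∧ q = 0)) :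
    p ^ 2 - h * p * q - f * q ^ 2 ≠ 0 := by
  intro h1
  have h2 := norm_ne_zero H.degf H.degh (p := p) (q := -q) (by linear_combination h1)
  exact h0 ⟨h2.1, neg_eq_zero.1 h2.2⟩

theorem hdg_norm (H : Hyp A g h f x y) (p q : A[X]) :
    hdg A g x y (aeval x p + aeval x q * y) = (p ^ 2 - h * p * q - f * q ^ 2).natDegree := by
  rw [H.hdg_eq, norm_degree H.degf H.degh]

theorem ft (H : Hyp A g h f x y) : Algebra.FiniteType A R := by
  refine ⟨⟨{x, y}, eq_top_iff.2 fun r _ => ?_⟩⟩
  obtain ⟨p, q, rfl⟩ := H.span r
  have hx : ∀ p : A[X], aeval x p ∈ Algebra.adjoin A (({x, y} : Finset R) : Set R) := fun p =>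
    Algebra.adjoin_mono (by simp) (Polynomial.aeval_mem_adjoin_singleton A x (p := p))
  exact add_mem (hx p) (mul_mem (hx q) (Algebra.subset_adjoin (by simp)))

theorem mem_vals (H : Hyp A g h f x y) {n : ℕ} (hn : n % 2 = 0 ∨ 2 * g + 1 ≤ n) :
    ∃ r : R, r ≠ 0 ∧ hdg A g x y r = n := by
  by_cases h2 : n % 2 = 0
  · refine ⟨aeval x (Polynomial.X ^ (n / 2) : A[X]) + aeval x (0 : A[X]) * y, fun h0 => ?_, ?_⟩
    · exact pow_ne_zero _ X_ne_zero (H.indep _ _ h0).1
    · rw [H.hdg_eq, natDegree_X_pow, if_pos rfl]
      omega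
  · refine ⟨aeval x (0 : A[X]) + aeval x (Polynomial.X ^ ((n - 2 * g - 1) / 2) : A[X]) * y,
      fun h0 => ?_, ?_⟩
    · exact pow_ne_zero _ X_ne_zero (H.indep _ _ h0).2
    · rw [H.hdg_eq, natDegree_X_pow, if_neg (pow_ne_zero _ X_ne_zero), natDegree_zero]
      omega

/-- cancelling the leading coefficient -/
theorem exists_cancel {p p' : A[X]} (hp' : p' ≠ 0) (hd : p.natDegree = p'.natDegree) :
    ∃ c : A, p - c • p' = 0 ∨ (p - c • p').natDegree < p'.natDegree := by
  refine ⟨p.leadingCoeff / p'.leadingCoeff, ?_⟩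
  by_cases h0 : p - (p.leadingCoeff / p'.leadingCoeff) • p' = 0
  · exact Or.inl h0
  · refine Or.inr (lt_of_le_of_ne ((natDegree_sub_le _ _).trans
      (max_le hd.le (natDegree_smul_le _ _))) fun he => h0 ?_)
    rw [← leadingCoeff_eq_zero, leadingCoeff, he, coeff_sub, coeff_smul, smul_eq_mul,
      coeff_natDegree, div_mul_cancel₀ _ (leadingCoeff_ne_zero.2 hp'), ← hd, coeff_natDegree,
      sub_self]

theorem deg_sub_le (p p' : A[X]) (c : A) :
    (p - c • p').natDegree ≤ max p.natDegree p'.natDegree :=
  (natDegree_sub_le _ _).trans (max_le_max le_rfl (natDegree_smul_le _ _))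

/-- a prime ideal containing the value of a nonzero polynomial contains a linear factor -/
theorem exists_root [IsAlgClosed A] (P : Ideal R) [P.IsPrime] {z : R} {N : A[X]} (hN : N ≠ 0)
    (hz : aeval z N ∈ P) : ∃ a : A, z - algebraMap A R a ∈ P := by
  have h1 : IsAlgebraic A (Ideal.Quotient.mkₐ A P z) :=
    ⟨N, hN, by rw [aeval_algHom_apply]; exact Ideal.Quotient.eq_zero_iff_mem.2 hz⟩
  obtain ⟨a, ha⟩ := minpoly.mem_range_of_degree_eq_one A _
    (IsAlgClosed.degree_eq_one_of_irreducible A (minpoly.irreducible h1.isIntegral))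
  exact ⟨a, Ideal.Quotient.eq.1 ha.symm⟩

theorem const_eq_zero (P : Ideal R) [hP : P.IsPrime] {c : A} (hc : algebraMap A R c ∈ P) :
    c = 0 := by
  by_contra h0
  exact hP.ne_top (Ideal.eq_top_of_isUnit_mem P hc ((IsUnit.mk0 c h0).map _))

theorem taylor2 (p : A[X]) (z : R) (a : A) : ∃ k : R, aeval z p = algebraMap A R (p.eval a) +
    algebraMap A R ((derivative p).eval a) * (z - algebraMap A R a) +
      k * (z - algebraMap A R a) ^ 2 := by
  obtain ⟨k, hk⟩ := (p.map (algebraMap A R)).binomExpansion (algebraMap A R a)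
    (z - algebraMap A R a)
  refine ⟨k, ?_⟩
  rw [add_sub_cancel, eval_map_algebraMap, derivative_map, eval_map, eval_map, eval₂_at_apply,
    eval₂_at_apply] at hk
  exact hk

theorem taylor1 (p : A[X]) (z : R) (a : A) :
    ∃ k : R, aeval z p = algebraMap A R (p.eval a) + k * (z - algebraMap A R a) := by
  obtain ⟨k, hk⟩ := taylor2 p z a
  exact ⟨algebraMap A R ((derivative p).eval a) + k * (z - algebraMap A R a), by
    rw [hk]; ring⟩

theorem dvr_of [IsDomain R] [IsNoetherianRing R] (P : Ideal R) [P.IsPrime] (hP : P ≠ ⊥)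
    {u v α β : R} (hu : P = Ideal.span {u, v}) (hα : α ∉ P) (h0 : v * α + u * β = 0) :
    IsDiscreteValuationRing (Localization.AtPrime P) := by
  refine ((IsDiscreteValuationRing.TFAE (Localization.AtPrime P)
    (IsLocalization.AtPrime.not_isField R hP _)).out 4 0).1 ?_
  obtain ⟨w, hw⟩ := (IsLocalization.map_units (Localization.AtPrime P)
    (⟨α, hα⟩ : P.primeCompl)).exists_right_inv
  have h1 := congrArg (algebraMap R (Localization.AtPrime P)) h0
  rw [map_add, map_mul, map_mul, map_zero] at h1
  have h2 : P.map (algebraMap R (Localization.AtPrime P)) =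
      Ideal.span {algebraMap R (Localization.AtPrime P) u} := by
    refine le_antisymm ?_ ((Ideal.span_singleton_le_iff_mem _).2
      (Ideal.mem_map_of_mem _ (hu ▸ Ideal.subset_span (by simp))))
    rw [Ideal.map_le_iff_le_comap]
    refine hu.le.trans (Ideal.span_le.2 ?_)
    rintro z (rfl | rfl)
    · exact Ideal.mem_span_singleton_self _
    · refine Ideal.mem_span_singleton'.2 ⟨-(algebraMap R _ β * w), ?_⟩
      have hw' : algebraMap R (Localization.AtPrime P) α * w = 1 := hw
      linear_combination (-w) * h1 + algebraMap R (Localization.AtPrime P) z * hw'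
  rw [← Localization.AtPrime.map_eq_maximalIdeal, h2]
  exact ⟨_, rfl⟩

end H1b

open H1b

/-- A maximal ideal is `(x - a, y - b)`; Taylor expansion
`(y - b) (y + b + h x) + (x - a) (b h₁ x - f₁ x) = 0` where one of the cofactors is not in the
ideal by smoothness; so the localisations are discrete valuation rings
(`IsDedekindDomainDvr`); `R` is integral over `A[x]`. -/
theorem Hyp.isDedekind [IsAlgClosed A] (H : Hyp A g h f x y) : IsDedekindDomain R := by
  have := H.isDomain
  have := ft H
  have : IsNoetherianRing R := Algebra.FiniteType.isNoetherianRing A R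
  have : IsDedekindDomainDvr R := ⟨fun P hP hP' => by
    obtain ⟨r, hr, hr0⟩ := Submodule.exists_mem_ne_zero_of_ne_bot hP
    obtain ⟨p, q, rfl⟩ := H.span r
    obtain ⟨a, ha⟩ := exists_root P (z := x) (norm_ne H (rep_ne p q hr0)) (by
      have e : aeval x (p ^ 2 - h * p * q - f * q ^ 2) = (aeval x p + aeval x q * y) *
          (aeval x p - aeval x q * aeval x h - aeval x q * y) := by
        simp only [map_sub, map_mul, map_pow]
        linear_combination (aeval x q) ^ 2 * H.rel
      rw [e]
      exact P.mul_mem_right _ hr)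
    obtain ⟨k1, hk1⟩ := taylor2 h x a
    obtain ⟨k2, hk2⟩ := taylor2 f x a
    obtain ⟨k3, hk3⟩ := taylor1 (derivative h) x a
    obtain ⟨k4, hk4⟩ := taylor1 (derivative f) x a
    set u := x - algebraMap A R a with hu
    have hrel := H.rel
    obtain ⟨b, hb⟩ := exists_root P (z := y)
      (N := Polynomial.X ^ 2 + (C (h.eval a) * Polynomial.X - C (f.eval a)))
      (Monic.ne_zero (monic_X_pow_add (by
        rw [sub_eq_add_neg, ← C_neg]
        exact degree_linear_lt))) (by
        have e : aeval y (Polynomial.X ^ 2 + (C (h.eval a) * Polynomial.X - C (f.eval a))) =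
            u * (algebraMap A R ((derivative f).eval a) + k2 * u -
              (algebraMap A R ((derivative h).eval a) + k1 * u) * y) := by
          simp only [map_add, map_sub, map_mul, map_pow, aeval_X, aeval_C]
          linear_combination hrel - y * hk1 + hk2
        rw [e]
        exact P.mul_mem_right _ ha)
    set v := y - algebraMap A R b with hv
    have hy : y = algebraMap A R b + v := by rw [hv]; ring
    have hM : Ideal.span {u, v} ≤ P := Ideal.span_le.2 (by
      rintro z (rfl | rfl)
      exacts [ha, hb])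
    have hred : ∀ p q : A[X], aeval x p + aeval x q * y -
        algebraMap A R (p.eval a + q.eval a * b) ∈ Ideal.span {u, v} := by
      intro p q
      obtain ⟨l1, hl1⟩ := taylor1 p x a
      obtain ⟨l2, hl2⟩ := taylor1 q x a
      refine Ideal.mem_span_pair.2 ⟨l1 + l2 * y, algebraMap A R (q.eval a), ?_⟩
      rw [map_add, map_mul, hl1, hl2, ← hu, hv]
      ring
    have hPM : P = Ideal.span {u, v} := by
      refine le_antisymm (fun r hr => ?_) hM
      obtain ⟨p, q, rfl⟩ := H.span r
      have h1 := hred p q
      have h2 := P.sub_mem hr (hM h1)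
      rw [sub_sub_cancel] at h2
      rwa [const_eq_zero P h2, map_zero, sub_zero] at h1
    have h0 : b ^ 2 + h.eval a * b - f.eval a = 0 := by
      refine const_eq_zero P ?_
      have e : algebraMap A R (b ^ 2 + h.eval a * b - f.eval a) =
          u * (algebraMap A R ((derivative f).eval a) + k2 * u -
            (algebraMap A R ((derivative h).eval a) + k1 * u) * y) -
          v * (y + algebraMap A R b + algebraMap A R (h.eval a)) := by
        simp only [map_add, map_sub, map_mul, map_pow]
        rw [hv]
        linear_combination hrel - y * hk1 + hk2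
      rw [e]
      exact P.sub_mem (P.mul_mem_right _ ha) (P.mul_mem_right _ hb)
    have h0' := congrArg (algebraMap A R) h0
    simp only [map_add, map_sub, map_mul, map_pow, map_zero] at h0'
    have key : v * (y + algebraMap A R b + aeval x h) +
        u * (algebraMap A R b * (algebraMap A R ((derivative h).eval a) + k1 * u) -
          (algebraMap A R ((derivative f).eval a) + k2 * u)) = 0 := by
      rw [hv]
      linear_combination hrel - h0' - algebraMap A R b * hk1 + hk2
    by_cases hα : y + algebraMap A R b + aeval x h ∈ P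
    · refine dvr_of P hP (hPM.trans (by rw [Set.pair_comm])) (fun hβ => ?_)
        ((add_comm _ _).trans key)
      obtain ⟨s, t, hst⟩ := H.smooth
      refine hP'.ne_top ((Ideal.eq_top_iff_one P).2 ?_)
      rw [← hst]
      refine P.add_mem (P.mul_mem_left _ ?_) (P.mul_mem_left _ ?_)
      · have e : 2 * y + aeval x h = (y + algebraMap A R b + aeval x h) + v := by rw [hv]; ring
        rw [e]
        exact P.add_mem hα hb
      · have e : aeval x (derivative h) * y - aeval x (derivative f) =
            (algebraMap A R b * (algebraMap A R ((derivative h).eval a) + k1 * u) -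
              (algebraMap A R ((derivative f).eval a) + k2 * u)) +
            u * (k3 * y - k4 - algebraMap A R b * k1 + k2) +
            v * algebraMap A R ((derivative h).eval a) := by
          rw [hk3, hk4, hv]
          ring
        rw [e]
        exact P.add_mem (P.add_mem hβ (P.mul_mem_right _ ha)) (P.mul_mem_right _ hb)
    · exact dvr_of P hP hPM hα key⟩
  infer_instance

/-- `hdg r` is the degree of the norm of `r` -/
theorem Hyp.op [IsDedekindDomain R] (H : Hyp A g h f x y) : OP A (hdg A g x y) := by
  refine ⟨fun r s hr hs => ?_, fun r s => ?_, fun c => ?_, fun r s hs hd => ?_, ?_, ft H⟩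
  · obtain ⟨p, q, rfl⟩ := H.span r
    obtain ⟨p', q', rfl⟩ := H.span s
    have e : (aeval x p + aeval x q * y) * (aeval x p' + aeval x q' * y) =
        aeval x (p * p' + f * q * q') + aeval x (p * q' + q * p' - h * q * q') * y := by
      simp only [map_add, map_sub, map_mul]
      linear_combination aeval x q * aeval x q' * H.rel
    rw [e, hdg_norm H, hdg_norm H, hdg_norm H,
      ← natDegree_mul (norm_ne H (rep_ne p q hr)) (norm_ne H (rep_ne p' q' hs))]
    congr 1
    ring
  · obtain ⟨p, q, rfl⟩ := H.span r
    obtain ⟨p', q', rfl⟩ := H.span s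
    have e : (aeval x p + aeval x q * y) + (aeval x p' + aeval x q' * y) =
        aeval x (p + p') + aeval x (q + q') * y := by
      simp only [map_add]
      ring
    rw [e, H.hdg_eq, H.hdg_eq, H.hdg_eq]
    have h1 := natDegree_add_le p p'
    have h2 := natDegree_add_le q q'
    by_cases hq : q = 0
    · subst hq
      rw [zero_add, if_pos rfl]
      omega
    · by_cases hq' : q' = 0
      · subst hq'
        rw [add_zero, if_pos rfl]
        omega
      · rw [if_neg hq, if_neg hq']
        split_ifs <;> omega
  · have e : algebraMap A R c = aeval x (C c) + aeval x (0 : A[X]) * y := by simp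
    rw [e, H.hdg_eq]
    simp
  · obtain ⟨p, q, rfl⟩ := H.span r
    obtain ⟨p', q', rfl⟩ := H.span s
    have e : ∀ c : A, (aeval x p + aeval x q * y) - c • (aeval x p' + aeval x q' * y) =
        aeval x (p - c • p') + aeval x (q - c • q') * y := by
      intro c
      simp only [map_sub, map_smul, smul_add, sub_mul, smul_mul_assoc]
      ring
    have hne := rep_ne p' q' hs
    suffices hc : ∃ c : A, (p - c • p' = 0 ∧ q - c • q' = 0) ∨
        max (2 * (p - c • p').natDegree)
          (if q - c • q' = 0 then 0 else 2 * (q - c • q').natDegree + 2 * g + 1) <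
        max (2 * p'.natDegree) (if q' = 0 then 0 else 2 * q'.natDegree + 2 * g + 1) by
      obtain ⟨c, hc | hc⟩ := hc
      · refine ⟨c, Or.inl (sub_eq_zero.1 ?_)⟩
        rw [e, hc.1, hc.2]
        simp
      · exact ⟨c, Or.inr (by rw [e, H.hdg_eq, H.hdg_eq]; exact hc)⟩
    rw [H.hdg_eq, H.hdg_eq] at hd
    by_cases hodd : q' ≠ 0 ∧ 2 * p'.natDegree < 2 * q'.natDegree + 2 * g + 1
    · have hq : q ≠ 0 := by
        rintro rfl
        rw [if_pos rfl, if_neg hodd.1] at hd
        omega
      rw [if_neg hq, if_neg hodd.1] at hd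
      obtain ⟨c, hc⟩ := exists_cancel (p := q) hodd.1 (by omega)
      refine ⟨c, Or.inr ?_⟩
      have h1 := deg_sub_le p p' c
      rw [if_neg hodd.1]
      rcases hc with hc | hc
      · rw [if_pos hc]
        omega
      · split_ifs <;> omega
    · have hp' : p' ≠ 0 := by
        rintro rfl
        exact hodd ⟨fun h0 => hne ⟨rfl, h0⟩, by rw [natDegree_zero]; omega⟩
      have h3 : q' ≠ 0 → 2 * q'.natDegree + 2 * g + 1 < 2 * p'.natDegree := fun h0 => by
        have := not_and.1 hodd h0
        omega
      have h4 : p.natDegree = p'.natDegree ∧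
          (q ≠ 0 → 2 * q.natDegree + 2 * g + 1 < 2 * p'.natDegree) := by
        by_cases hq : q = 0 <;> by_cases hq' : q' = 0 <;> simp only [hq, hq', if_true, if_false,
          ne_eq, not_true, not_false_eq_true, forall_true_left, IsEmpty.forall_iff,
          and_true] at hd h3 ⊢ <;> omega
      obtain ⟨c, hc⟩ := exists_cancel hp' h4.1
      refine ⟨c, ?_⟩
      by_cases h5 : q - c • q' = 0
      · rcases hc with hc | hc
        · exact Or.inl ⟨hc, h5⟩
        · refine Or.inr ?_
          rw [if_pos h5]
          omega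
      · have h6 : 2 * (q - c • q').natDegree + 2 * g + 1 < 2 * p'.natDegree := by
          by_cases hq : q = 0
          · have hq' : q' ≠ 0 := fun h0 => h5 (by rw [hq, h0]; simp)
            have h7 := deg_sub_le q q' c
            have h8 := h3 hq'
            rw [hq, natDegree_zero] at h7
            rw [hq]
            omega
          · by_cases hq' : q' = 0
            · have h8 := h4.2 hq
              rw [hq', smul_zero, sub_zero]
              exact h8
            · have h7 := deg_sub_le q q' c
              have h8 := h3 hq'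
              have h9 := h4.2 hq
              omega
        refine Or.inr ?_
        rw [if_neg h5]
        rcases hc with hc | hc
        · rw [hc, natDegree_zero]
          omega
        · omega
  · refine (Set.finite_le_nat (2 * g)).subset fun n hn => ?_
    by_contra h1
    obtain ⟨r, hr, h2⟩ := mem_vals H (n := n) (Or.inr (by simpa using h1))
    exact hn r hr h2

theorem Hyp.gaps (H : Hyp A g h f x y) :
    (Set.univ \ vals (hdg A g x y) Set.univ).ncard ≤ g := by
  have h1 : Set.univ \ vals (hdg A g x y) Set.univ ⊆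
      (((Finset.range g).image fun i => 2 * i + 1 : Finset ℕ) : Set ℕ) := by
    rintro n ⟨-, hn⟩
    have h2 : ¬ (n % 2 = 0 ∨ 2 * g + 1 ≤ n) := fun h3 => by
      obtain ⟨r, hr, h4⟩ := mem_vals H h3
      exact hn ⟨r, trivial, hr, h4⟩
    exact Finset.mem_coe.2 (Finset.mem_image.2 ⟨n / 2, Finset.mem_range.2 (by omega), by omega⟩)
  refine (Set.ncard_le_ncard h1 (Finset.finite_toSet _)).trans ?_
  rw [Set.ncard_coe_finset]
  exact Finset.card_image_le.trans (Finset.card_range g).le

/-- base change, e.g. `AdjoinRoot (Y ^ 2 + h Y - f)` over `B[X]` -/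
theorem Hyp.base (H : Hyp A g h f x y) (B : Type) [Field B] [Algebra A B] :
    ∃ (R' : Type) (_ : CommRing R') (_ : Algebra B R') (x' y' : R') (ψ : R →+* R'),
      Hyp B g (h.map (algebraMap A B)) (f.map (algebraMap A B)) x' y' ∧ Function.Injective ψ ∧
      (∀ a, ψ (algebraMap A R a) = algebraMap B R' (algebraMap A B a)) ∧ ψ x = x' ∧ ψ y = y' := by
  let R' := QuadraticAlgebra B[X] (f.map (algebraMap A B)) (-h.map (algebraMap A B))
  let x' : R' := algebraMap B[X] R' Polynomial.X
  let y' : R' := QuadraticAlgebra.omega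
  have hx : ∀ p : B[X], aeval x' p = algebraMap B[X] R' p := fun p => by
    rw [aeval_algebraMap_apply, aeval_X_left_apply]
  have hxy : ∀ p q : B[X], aeval x' p + aeval x' q * y' = ⟨p, q⟩ := fun p q => by
    rw [hx, hx]
    ext <;> simp [y', R']
  have rel' : y' ^ 2 + aeval x' (h.map (algebraMap A B)) * y' =
      aeval x' (f.map (algebraMap A B)) := by
    rw [hx, hx, sq]
    ext <;> simp [y', R']
  have he : ∀ p : A[X], p.eval₂ ((algebraMap B R').comp (algebraMap A B)) x' =
      aeval x' (p.map (algebraMap A B)) := fun p => by rw [aeval_def, eval₂_map]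
  obtain ⟨ψ, h1, h2, h3⟩ := hyp_lift H.rel H.span H.indep
    ((algebraMap B R').comp (algebraMap A B)) x' y' (by rw [he, he]; exact rel')
  have hψ : ∀ p : A[X], ψ (aeval x p) = aeval x' (p.map (algebraMap A B)) := fun p => by
    rw [← he, aeval_def, hom_eval₂, h2]
    congr 1
    exact RingHom.ext h1
  have hinj := (algebraMap A B).injective
  have ind' : ∀ p q : B[X], aeval x' p + aeval x' q * y' = 0 → p = 0 ∧ q = 0 := fun p q h0 => by
    rw [hxy] at h0
    exact ⟨congrArg QuadraticAlgebra.re h0, congrArg QuadraticAlgebra.im h0⟩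
  refine ⟨R', inferInstance, inferInstance, x', y', ψ, ⟨rel', fun r => ⟨r.re, r.im, ?_⟩, ind',
    ?_, ?_, ?_⟩, (injective_iff_map_eq_zero ψ).2 fun r hr => ?_, h1, h2, h3⟩
  · rw [hxy]
  · rw [natDegree_map_eq_of_injective hinj, H.degf]
  · rw [natDegree_map_eq_of_injective hinj]
    exact H.degh
  · have h4 := H.smooth.map ψ
    rw [map_add, map_mul, map_sub, map_mul, hψ, hψ, hψ, h3, map_ofNat] at h4
    rw [derivative_map, derivative_map]
    exact h4
  · obtain ⟨p, q, rfl⟩ := H.span r
    rw [map_add, map_mul, hψ, hψ, h3] at hr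
    obtain ⟨h4, h5⟩ := ind' _ _ hr
    rw [(Polynomial.map_eq_zero_iff hinj).1 h4, (Polynomial.map_eq_zero_iff hinj).1 h5]
    simp

end Pool.Agent.P.MP_ee618e_ag.X
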