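import Pool.Agent.P.MP_ee618e_ag.X.O3

/-! O6: change of the base field. -/

namespace Pool.Agent.P.MP_ee618e_ag.X

open IsDedekindDomain Polynomial
open scoped Classical

variable {R0 R : Type} [CommRing R0] [IsDedekindDomain R0] [CommRing R] [IsDedekindDomain R]

/-- `R / φ(P) R` is a nonzero quotient of the field `A` -/
theorem exists_iota {A : Type} [Field A] [Algebra A R] (φ : R0 →+* R) (hφ : Function.Injective φ)
    (gen : ∀ (P : HeightOneSpectrum R0) (r : R), ∃ a : A, r - algebraMap A R a ∈ P.asIdeal.map φ)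
    (prop : ∀ P : HeightOneSpectrum R0, P.asIdeal.map φ ≠ ⊤) :
    ∃ ι : HeightOneSpectrum R0 → HeightOneSpectrum R, ∀ P, (ι P).asIdeal = P.asIdeal.map φ := by
  have key : ∀ P : HeightOneSpectrum R0, (P.asIdeal.map φ).IsMaximal := by
    intro P
    have hs : Function.Surjective
        ((Ideal.Quotient.mk (P.asIdeal.map φ)).comp (algebraMap A R)) := by
      intro x
      obtain ⟨r, rfl⟩ := Ideal.Quotient.mk_surjective x
      obtain ⟨a, ha⟩ := gen P r
      exact ⟨a, (Ideal.Quotient.eq.2 ha).symm⟩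
    have : Nontrivial (R ⧸ P.asIdeal.map φ) := Ideal.Quotient.nontrivial_iff.2 (prop P)
    have hf : IsField (R ⧸ P.asIdeal.map φ) := by
      have hb : Function.Bijective
          ((Ideal.Quotient.mk (P.asIdeal.map φ)).comp (algebraMap A R)) :=
        ⟨RingHom.injective _, hs⟩
      exact MulEquiv.isField (Field.toIsField A) (RingEquiv.ofBijective _ hb).symm.toMulEquiv
    exact Ideal.Quotient.maximal_of_isField _ hf
  refine ⟨fun P => ⟨P.asIdeal.map φ, (key P).isPrime, ?_⟩, fun P => rfl⟩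
  intro h
  exact P.ne_bot ((Ideal.map_eq_bot_iff_of_injective hφ).1 h)

variable {φ : R0 →+* R} {ι : HeightOneSpectrum R0 → HeightOneSpectrum R}

theorem iota_inj (hι : ∀ P, (ι P).asIdeal = P.asIdeal.map φ) : Function.Injective ι := by
  intro P Q h
  by_contra hne
  have h1 : P.asIdeal ⊔ Q.asIdeal = ⊤ :=
    P.isMaximal.coprime_of_ne Q.isMaximal fun e => hne (HeightOneSpectrum.ext e)
  have h2 := congrArg (Ideal.map φ) h1
  rw [Ideal.map_sup, ← hι, ← hι, h, sup_idem, Ideal.map_top] at h2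
  exact (ι Q).isPrime.ne_top h2

theorem iota_mem (hι : ∀ P, (ι P).asIdeal = P.asIdeal.map φ) (P : HeightOneSpectrum R0)
    (f : R0) : φ f ∈ (ι P).asIdeal ↔ f ∈ P.asIdeal := by
  have h1 : P.asIdeal = (ι P).asIdeal.comap φ := by
    refine P.isMaximal.eq_of_le (Ideal.comap_ne_top _ (ι P).isPrime.ne_top) ?_
    rw [hι]
    exact Ideal.le_comap_map
  rw [h1, Ideal.mem_comap]

theorem emult_pt (P Q : HeightOneSpectrum R) :
    emultiplicity P.asIdeal Q.asIdeal = if P = Q then 1 else 0 := by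
  split_ifs with h
  · subst h
    exact (FiniteMultiplicity.of_prime_left P.prime P.ne_bot).emultiplicity_self
  · rw [emultiplicity_eq_zero, Ideal.dvd_iff_le]
    intro hle
    exact h (HeightOneSpectrum.ext (Q.isMaximal.eq_of_le P.isPrime.ne_top hle).symm)

theorem iota_mult (hι : ∀ P, (ι P).asIdeal = P.asIdeal.map φ) (I : Ideal R0) (hI : I ≠ 0) :
    (∀ P, emultiplicity (ι P).asIdeal (I.map φ) = emultiplicity P.asIdeal I) ∧
      ∀ Q, Q ∉ Set.range ι → emultiplicity Q.asIdeal (I.map φ) = 0 := by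
  induction I using UniqueFactorizationMonoid.induction_on_prime with
  | h₁ => exact absurd rfl hI
  | h₂ I hu =>
    have e : I = ⊤ := Ideal.isUnit_iff.1 hu
    subst e
    rw [Ideal.map_top, ← Ideal.one_eq_top, ← Ideal.one_eq_top]
    exact ⟨fun P => by
      rw [emultiplicity_of_one_right (ι P).prime.not_isUnit,
        emultiplicity_of_one_right P.prime.not_isUnit],
      fun Q _ => emultiplicity_of_one_right Q.prime.not_isUnit⟩
  | h₃ I p hI0 hp ih =>
    obtain ⟨h1, h2⟩ := ih hI0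
    let P0 : HeightOneSpectrum R0 := ⟨p, Ideal.isPrime_of_prime hp, hp.ne_zero⟩
    have e : p = P0.asIdeal := rfl
    rw [Ideal.map_mul, e, ← hι]
    refine ⟨fun P => ?_, fun Q hQ => ?_⟩
    · rw [emultiplicity_mul (ι P).prime, emultiplicity_mul P.prime, h1, emult_pt, emult_pt]
      simp only [(iota_inj hι).eq_iff]
    · rw [emultiplicity_mul Q.prime, h2 Q hQ, emult_pt, if_neg fun h => hQ ⟨P0, h.symm⟩, add_zero]

/-- apply `Ideal.map φ` to the factorisation of `(f)` -/
theorem iota_dv (hφ : Function.Injective φ) (hι : ∀ P, (ι P).asIdeal = P.asIdeal.map φ)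
    (f : R0) : dv (φ f) = Finsupp.mapDomain ι (dv f) := by
  by_cases hf : f = 0
  · rw [hf, map_zero, dv_zero, dv_zero, Finsupp.mapDomain_zero]
  have hf' : φ f ≠ 0 := fun h => hf (hφ (by rw [h, map_zero]))
  obtain ⟨h1, h2⟩ := iota_mult hι (Ideal.span {f}) (by simpa using hf)
  rw [Ideal.map_span, Set.image_singleton] at h1 h2
  ext Q
  by_cases hQ : Q ∈ Set.range ι
  · obtain ⟨P, rfl⟩ := hQ
    rw [Finsupp.mapDomain_apply (iota_inj hι), dv_apply hf', dv_apply hf]
    simp only [ord, multiplicity, h1 P]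
  · rw [Finsupp.mapDomain_of_notMem_range _ _ hQ, dv_apply hf']
    simp only [ord, multiplicity, h2 Q hQ]
    rfl

theorem iota_cl (hφ : Function.Injective φ) (hι : ∀ P, (ι P).asIdeal = P.asIdeal.map φ)
    {D D' : Dv R0} (h : cl D = cl D') :
    cl (Finsupp.mapDomain ι D) = cl (Finsupp.mapDomain ι D') := by
  obtain ⟨a, b, ha, hb, e⟩ := cl_eq_iff.1 h
  refine cl_eq_iff.2 ⟨φ a, φ b, fun h => ha (hφ (by rw [h, map_zero])),
    fun h => hb (hφ (by rw [h, map_zero])), ?_⟩
  rw [iota_dv hφ hι, iota_dv hφ hι, ← Finsupp.mapDomain_add, ← Finsupp.mapDomain_add, e]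

end Pool.Agent.P.MP_ee618e_ag.X
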