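import Pool.Agent.P.MP_ee618e_ag.X.H1b
import Pool.Agent.P.MP_ee618e_ag.X.O6

/-! H2: points, the involution and reduced divisors. -/

namespace Pool.Agent.P.MP_ee618e_ag.X

open IsDedekindDomain Polynomial
open scoped Classical

variable {A R : Type} [Field A] [IsAlgClosed A] [CommRing R] [IsDedekindDomain R] [Algebra A R]
  {g : ℕ} {h f : A[X]} {x y : R} {P Q : HeightOneSpectrum R}

/-- `P` is the point `(a, b)` -/
def Pt (x y : R) (P : HeightOneSpectrum R) (a b : A) : Prop :=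
  x - algebraMap A R a ∈ P.asIdeal ∧ y - algebraMap A R b ∈ P.asIdeal

section aux

omit [IsAlgClosed A] [IsDedekindDomain R]

theorem h2_aeval {I : Ideal R} {a : A} (ha : x - algebraMap A R a ∈ I) (p : A[X]) :
    aeval x p - algebraMap A R (p.eval a) ∈ I := by
  rw [← aeval_algebraMap_apply_eq_algebraMap_eval, ← eval_map_algebraMap, ← eval_map_algebraMap]
  exact Ideal.mem_of_dvd I (sub_dvd_eval_sub _ _ _) ha

theorem h2_sub {I : Ideal R} {a b : A} (ha : x - algebraMap A R a ∈ I)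
    (hb : y - algebraMap A R b ∈ I) (p q : A[X]) :
    aeval x p + aeval x q * y - algebraMap A R (p.eval a + q.eval a * b) ∈ I := by
  have := I.add_mem (I.add_mem (h2_aeval ha p) (I.mul_mem_left (aeval x q) hb))
    (I.mul_mem_right (algebraMap A R b) (h2_aeval ha q))
  convert this using 1
  rw [map_add, map_mul]
  ring

theorem h2_const {c : A} (hc : algebraMap A R c ∈ P.asIdeal) : c = 0 := by
  by_contra h0
  exact P.isPrime.ne_top (Ideal.eq_top_of_isUnit_mem _ hc ((Ne.isUnit h0).map _))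

theorem h2_fix {ψ : R →+* R} (h1 : ∀ a, ψ (algebraMap A R a) = algebraMap A R a) (h2 : ψ x = x)
    (p : A[X]) : ψ (aeval x p) = aeval x p := by
  rw [aeval_def, hom_eval₂, h2, RingHom.ext (f := ψ.comp (algebraMap A R)) h1]

theorem h2_aut (H : Hyp A g h f x y) (σ : A →+* A) (hh : h.map σ = h) (hf : f.map σ = f) :
    ∃ ψ : R →+* R, (∀ a, ψ (algebraMap A R a) = algebraMap A R (σ a)) ∧ ψ x = x ∧ ψ y = y :=
  hyp_lift H.rel H.span H.indep ((algebraMap A R).comp σ) x y <| by
    rw [← eval₂_map, ← eval₂_map, hh, hf]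
    exact H.rel

end aux

theorem Hyp.exists_pt (H : Hyp A g h f x y) (P : HeightOneSpectrum R) :
    ∃ a b : A, Pt x y P a b := by
  obtain ⟨ev, hev⟩ := H.op.exists_ev P
  exact ⟨ev x, ev y, (hev _).1 (by simp), (hev _).1 (by simp)⟩

theorem Hyp.pt_rel (H : Hyp A g h f x y) {a b : A} (hP : Pt x y P a b) :
    b ^ 2 + h.eval a * b = f.eval a := by
  have h1 := P.asIdeal.sub_mem (h2_sub hP.1 hP.2 f (-h))
    (P.asIdeal.mul_mem_right (y + algebraMap A R b) hP.2)
  refine sub_eq_zero.1 (h2_const (R := R) (P := P) ?_)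
  convert h1 using 1
  simp only [map_sub, map_add, map_mul, map_pow, map_neg, eval_neg]
  linear_combination H.rel

theorem Pt.unique {a b a' b' : A} (hP : Pt x y P a b) (hP' : Pt x y P a' b') :
    a = a' ∧ b = b' := by
  refine ⟨(sub_eq_zero.1 (h2_const (R := R) (P := P) ?_)).symm,
    (sub_eq_zero.1 (h2_const (R := R) (P := P) ?_)).symm⟩
  · simpa using P.asIdeal.sub_mem hP.1 hP'.1
  · simpa using P.asIdeal.sub_mem hP.2 hP'.2

theorem Hyp.pt_span (H : Hyp A g h f x y) {a b : A} (hP : Pt x y P a b) :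
    P.asIdeal = Ideal.span {x - algebraMap A R a, y - algebraMap A R b} := by
  have hle : Ideal.span {x - algebraMap A R a, y - algebraMap A R b} ≤ P.asIdeal :=
    Ideal.span_le.2 (Set.insert_subset hP.1 (Set.singleton_subset_iff.2 hP.2))
  refine le_antisymm (fun r hr => ?_) hle
  obtain ⟨p, q, rfl⟩ := H.span r
  have h1 := h2_sub (I := Ideal.span {x - algebraMap A R a, y - algebraMap A R b})
    (Ideal.subset_span (Or.inl rfl)) (Ideal.subset_span (Or.inr rfl)) p q
  have h2 := h2_const ((Submodule.sub_mem_iff_right _ hr).1 (hle h1))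
  rwa [h2, map_zero, sub_zero] at h1

theorem Hyp.pt_inj (H : Hyp A g h f x y) {a b : A} (hP : Pt x y P a b) (hQ : Pt x y Q a b) :
    P = Q := by
  exact HeightOneSpectrum.ext ((H.pt_span hP).trans (H.pt_span hQ).symm)

theorem Hyp.pt_ex (H : Hyp A g h f x y) {a b : A} (hab : b ^ 2 + h.eval a * b = f.eval a) :
    ∃ P, Pt x y P a b := by
  obtain ⟨ψ, h1, h2, h3⟩ := hyp_lift H.rel H.span H.indep (RingHom.id A) a b hab
  have hx : x - algebraMap A R a ∈ RingHom.ker ψ := by simp [RingHom.mem_ker, h1, h2]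
  refine ⟨⟨RingHom.ker ψ, RingHom.ker_isPrime ψ, fun h0 => X_sub_C_ne_zero a
    (H.indep _ 0 ?_).1⟩, hx, by simp [RingHom.mem_ker, h1, h3]⟩
  rw [h0, Ideal.mem_bot] at hx
  simpa using hx

/-- semilinear automorphisms -/
theorem Hyp.exists_aut (H : Hyp A g h f x y) (σ : A ≃+* A) (hh : h.map σ.toRingHom = h)
    (hf : f.map σ.toRingHom = f) : ∃ e : R ≃+* R, (∀ a, e (algebraMap A R a) =
      algebraMap A R (σ a)) ∧ e x = x ∧ e y = y := by
  have key : ∀ p : A[X], p.map σ.toRingHom = p → p.map σ.symm.toRingHom = p := fun p hp => by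
    conv_lhs => rw [← hp]
    rw [Polynomial.map_map, RingEquiv.symm_toRingHom_comp_toRingHom, Polynomial.map_id]
  obtain ⟨ψ, a1, a2, a3⟩ := h2_aut H _ hh hf
  obtain ⟨ψ', b1, b2, b3⟩ := h2_aut H _ (key h hh) (key f hf)
  exact ⟨RingEquiv.ofRingHom ψ ψ' (H.ext (fun a => by simp [a1, b1]) (by simp [a2, b2])
    (by simp [a3, b3])) (H.ext (fun a => by simp [a1, b1]) (by simp [a2, b2])
    (by simp [a3, b3])), a1, a2, a3⟩

/-- `e` is the hyperelliptic involution -/
structure Inv (h : A[X]) (x y : R) (e : R ≃+* R) : Prop where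
  const : ∀ a, e (algebraMap A R a) = algebraMap A R a
  ex : e x = x
  ey : e y = -aeval x h - y

theorem Hyp.exists_inv (H : Hyp A g h f x y) : ∃ e, Inv h x y e := by
  obtain ⟨ψ, a1, a2, a3⟩ := hyp_lift H.rel H.span H.indep (algebraMap A R) x (-aeval x h - y)
    (by rw [← aeval_def, ← aeval_def]; linear_combination H.rel)
  have hψ : ψ.comp ψ = RingHom.id R := H.ext (fun a => by simp [a1]) (by simp [a2])
    (by simp [a3, h2_fix a1 a2])
  exact ⟨RingEquiv.ofRingHom ψ ψ hψ hψ, a1, a2, a3⟩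

variable {e : R ≃+* R}

theorem Inv.pt (I : Inv h x y e) {a b : A} (hP : Pt x y P a b) :
    Pt x y (mp e P) a (-h.eval a - b) := by
  have h1 := (mem_mp (e := e)).2 hP.1
  have h2 := (mem_mp (e := e)).2 (P.asIdeal.neg_mem (P.asIdeal.add_mem hP.2 (h2_aeval hP.1 h)))
  have h3 : e (aeval x h) = aeval x h := h2_fix (ψ := e.toRingHom) I.const I.ex h
  rw [map_sub, I.ex, I.const] at h1
  refine ⟨h1, ?_⟩
  convert h2 using 1
  simp only [map_neg, map_add, map_sub, I.ey, I.const, h3]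
  ring

theorem Hyp.inv_inv (H : Hyp A g h f x y) (I : Inv h x y e) (P : HeightOneSpectrum R) :
    mp e (mp e P) = P := by
  obtain ⟨a, b, hP⟩ := H.exists_pt P
  refine H.pt_inj (I.pt (I.pt hP)) ?_
  rwa [sub_sub_cancel]

end Pool.Agent.P.MP_ee618e_ag.X
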