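import Pool.Agent.P.MP_ee618e_ag.X.H2

/-! H2b: reduced divisors. -/

namespace Pool.Agent.P.MP_ee618e_ag.X

open IsDedekindDomain Polynomial
open scoped Classical

variable {A R : Type} [Field A] [IsAlgClosed A] [CommRing R] [IsDedekindDomain R] [Algebra A R]
  {g : ℕ} {h f : A[X]} {x y : R} {P : HeightOneSpectrum R} {e : R ≃+* R}

theorem h2b_pair_ne {D : Dv R} (hD : 0 ≤ D) {P Q : HeightOneSpectrum R} (hne : P ≠ Q)
    (h1 : 1 ≤ D P) (h2 : 1 ≤ D Q) : Finsupp.single P 1 + Finsupp.single Q 1 ≤ D := by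
  intro T
  have h0 : 0 ≤ D T := hD T
  rw [Finsupp.add_apply, Finsupp.single_apply, Finsupp.single_apply]
  split_ifs with a b b
  · exact (hne (a.trans b.symm)).elim
  · subst a; simpa using h1
  · subst b; simpa using h2
  · simpa using h0

theorem h2b_pair_eq {D : Dv R} (hD : 0 ≤ D) {P : HeightOneSpectrum R} (h1 : 2 ≤ D P) :
    Finsupp.single P 1 + Finsupp.single P 1 ≤ D := by
  intro T
  have h0 : 0 ≤ D T := hD T
  rw [Finsupp.add_apply, Finsupp.single_apply]
  split_ifs with a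
  · subst a; simpa using h1
  · simpa using h0

omit [IsAlgClosed A] [IsDedekindDomain R] in
theorem h2b_ne (H : Hyp A g h f x y) {p : A[X]} (hp : p ≠ 0) : aeval x p ≠ 0 := fun h0 =>
  hp (H.indep p 0 (by simpa using h0)).1

omit [IsAlgClosed A] [IsDedekindDomain R] in
theorem h2b_lin (x : R) (a : A) : aeval x (X - C a) = x - algebraMap A R a := by simp

omit [IsAlgClosed A] [IsDedekindDomain R] in
theorem h2b_fix (I : Inv h x y e) (p : A[X]) : e (aeval x p) = aeval x p := by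
  induction p using Polynomial.induction_on' with
  | add p q hp hq => rw [map_add, map_add, hp, hq]
  | monomial n a => rw [aeval_monomial, map_mul, map_pow, I.const, I.ex]

theorem h2b_mem {u : R} (hu : u ≠ 0) {Q : HeightOneSpectrum R} : 1 ≤ dv u Q ↔ u ∈ Q.asIdeal := by
  rw [dv_apply hu, ← not_iff_not, ← ord_eq_zero hu]
  omega

/-- the degree is `2`, the support is contained in `{P, ι P}` and is `ι`-invariant -/
theorem Hyp.dv_x (H : Hyp A g h f x y) (I : Inv h x y e) {a b : A} (hP : Pt x y P a b) :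
    dv (x - algebraMap A R a) = Finsupp.single P 1 + Finsupp.single (mp e P) 1 := by
  have hu : x - algebraMap A R a ≠ 0 := h2b_lin x a ▸ h2b_ne H (X_sub_C_ne_zero a)
  have hdeg : (dv (x - algebraMap A R a)).degree = 2 := by
    have := H.hdg_eq (X - C a) 0
    rw [h2b_lin, map_zero, zero_mul, add_zero, natDegree_X_sub_C] at this
    rw [H.op.degree_dv hu, this]
    simp
  have h1 : 1 ≤ dv (x - algebraMap A R a) P := (h2b_mem hu).2 hP.1
  have h2 : 1 ≤ dv (x - algebraMap A R a) (mp e P) := (h2b_mem hu).2 (I.pt hP).1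
  refine (eq_of_le_degree ?_ (by simp [hdeg])).symm
  by_cases hne : P = mp e P
  · rw [← hne]
    refine h2b_pair_eq (dv_nonneg _) ?_
    have hs : dv (x - algebraMap A R a) = Finsupp.single P (dv (x - algebraMap A R a) P) := by
      ext Q
      by_cases hQ : Q = P
      · rw [hQ, Finsupp.single_eq_same]
      · rw [Finsupp.single_eq_of_ne hQ]
        have h0 : 0 ≤ dv (x - algebraMap A R a) Q := dv_nonneg _ Q
        by_contra h3
        obtain ⟨a', b', hQ'⟩ := H.exists_pt Q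
        have hQ2 : Pt x y Q a b' := ⟨(h2b_mem hu).1 (by omega), hQ'.2⟩
        have e1 : (b' - b) * (b' - (-h.eval a - b)) = 0 := by
          linear_combination H.pt_rel hQ2 - H.pt_rel hP
        rcases mul_eq_zero.1 e1 with e2 | e2
        · exact hQ (H.pt_inj (sub_eq_zero.1 e2 ▸ hQ2) hP)
        · exact hQ ((H.pt_inj (sub_eq_zero.1 e2 ▸ hQ2) (I.pt hP)).trans hne.symm)
    rw [hs, Finsupp.degree_single] at hdeg
    exact hdeg.ge
  · exact h2b_pair_ne (dv_nonneg _) hne h1 h2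

theorem Hyp.mc_inv (H : Hyp A g h f x y) (I : Inv h x y e) (c : Cl R) : mc e c = -c := by
  refine cl_ind (p := fun c => mc e c = -c) ?_ (fun P => ?_) (fun c d hc hd => ?_) c
  · have := mc_cl (e := e) (D := (0 : Dv R))
    simpa using this
  · obtain ⟨a, b, hP⟩ := H.exists_pt P
    have := cl_dv (x - algebraMap A R a)
    rw [H.dv_x I hP, map_add] at this
    rw [mc_cl, md_single]
    exact eq_neg_of_add_eq_zero_right this
  · rw [mc_add, hc, hd, neg_add]

theorem h2b_even (H : Hyp A g h f x y) (I : Inv h x y e) {Q : HeightOneSpectrum R}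
    (hQ : mp e Q = Q) (n : ℕ) : ∀ p : A[X], p ≠ 0 → p.natDegree = n → Even (dv (aeval x p) Q) := by
  induction n with
  | zero =>
    intro p hp hn
    rw [eq_C_of_natDegree_eq_zero hn] at hp ⊢
    have hu : IsUnit (aeval x (C (p.coeff 0))) := (isUnit_C.2 (Ne.isUnit (by simpa using hp))).map _
    rw [(dv_eq_zero hu.ne_zero).2 hu]
    simp
  | succ n ih =>
    intro p hp hn
    obtain ⟨r, hr⟩ := IsAlgClosed.exists_root p (degree_ne_of_natDegree_ne (by simp [hn]))
    obtain ⟨p', rfl⟩ := dvd_iff_isRoot.2 hr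
    have hp' : p' ≠ 0 := right_ne_zero_of_mul hp
    rw [natDegree_mul (X_sub_C_ne_zero r) hp', natDegree_X_sub_C] at hn
    have hu := h2b_ne H (X_sub_C_ne_zero r)
    rw [map_mul, dv_mul hu (h2b_ne H hp'), Finsupp.add_apply]
    refine Even.add ?_ (ih p' hp' (by omega))
    rw [h2b_lin] at hu ⊢
    by_cases hm : x - algebraMap A R r ∈ Q.asIdeal
    · obtain ⟨a', b', hQ'⟩ := H.exists_pt Q
      rw [H.dv_x I (show Pt x y Q r b' from ⟨hm, hQ'.2⟩), hQ]
      simp
    · rw [dv_apply hu, (ord_eq_zero hu).2 hm]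
      simp

theorem h2b_of_min (H : Hyp A g h f x y) (I : Inv h x y e) {D : Dv R} (hD : Min D) :
    0 ≤ D ∧ D.degree ≤ g ∧ ∀ P, ¬ Finsupp.single P 1 + Finsupp.single (mp e P) 1 ≤ D := by
  refine ⟨hD.1, (hD.le_gaps H.op).trans (by exact_mod_cast H.gaps), fun P hP => ?_⟩
  obtain ⟨a, b, hP'⟩ := H.exists_pt P
  have := hD.2 _ (sub_nonneg.2 hP) (by rw [map_sub, ← H.dv_x I hP', cl_dv, sub_zero])
  rw [map_sub, map_add, Finsupp.degree_single, Finsupp.degree_single] at this
  omega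

/-- (→) subtract `dv (x - a)`; `Min.le_gaps`. (←) Let `D'` be minimal in the class; then
`D + ι D' = dv a` with `hdg a ≤ 2 g`, so `a ∈ A[x]` and `dv a` is a sum of divisors `P + ι P`;
compare coefficients at `P` and `ι P` (parity if `P = ι P`). -/
theorem Hyp.min_iff (H : Hyp A g h f x y) (I : Inv h x y e) {D : Dv R} :
    Min D ↔ 0 ≤ D ∧ D.degree ≤ g ∧
      ∀ P, ¬ Finsupp.single P 1 + Finsupp.single (mp e P) 1 ≤ D := by
  refine ⟨h2b_of_min H I, fun ⟨h0, h1, h2⟩ => ?_⟩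
  obtain ⟨D', hD', hc⟩ := exists_min (cl D)
  obtain ⟨h0', h1', h2'⟩ := h2b_of_min H I hD'
  obtain ⟨a, ha, hda⟩ := exists_dv (D := D + md e D') (add_nonneg h0 (md_nonneg.2 h0'))
    (by rw [map_add, ← mc_cl, H.mc_inv I, hc, add_neg_cancel])
  obtain ⟨p, q, rfl⟩ := H.span a
  have hq : q = 0 := by
    by_contra hq
    have e1 := H.op.degree_dv ha
    rw [hda, map_add, md_degree, H.hdg_eq, if_neg hq] at e1
    have e2 := le_max_right (2 * p.natDegree) (2 * q.natDegree + 2 * g + 1)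
    omega
  subst hq
  rw [map_zero, zero_mul, add_zero] at ha hda
  have hp : p ≠ 0 := fun hp => ha (by rw [hp, map_zero])
  have hval : ∀ Q, dv (aeval x p) (mp e Q) = D (mp e Q) + D' Q := fun Q => by
    rw [hda, Finsupp.add_apply, md_apply]
  have hinv : ∀ Q, dv (aeval x p) (mp e Q) = dv (aeval x p) Q := fun Q => by
    conv_lhs => rw [← h2b_fix I p, ← md_dv, md_apply]
  suffices D = D' by rwa [this]
  ext Q
  have a1 : 0 ≤ D Q := h0 Q
  have a2 : 0 ≤ D' Q := h0' Q
  by_cases hQ : Q = mp e Q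
  · have b1 : ¬ 2 ≤ D Q := fun b => h2 Q (hQ ▸ h2b_pair_eq h0 b)
    have b2 : ¬ 2 ≤ D' Q := fun b => h2' Q (hQ ▸ h2b_pair_eq h0' b)
    obtain ⟨m, hm⟩ := h2b_even H I hQ.symm _ p hp rfl
    have := hval Q
    rw [← hQ, hm] at this
    omega
  · have a3 : 0 ≤ D (mp e Q) := h0 _
    have a4 : 0 ≤ D' (mp e Q) := h0' _
    have b1 : ¬ (1 ≤ D Q ∧ 1 ≤ D (mp e Q)) := fun b => h2 Q (h2b_pair_ne h0 hQ b.1 b.2)
    have b2 : ¬ (1 ≤ D' Q ∧ 1 ≤ D' (mp e Q)) := fun b => h2' Q (h2b_pair_ne h0' hQ b.1 b.2)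
    have c1 := hval Q
    have c2 := hval (mp e Q)
    rw [H.inv_inv I, ← hinv Q, c1] at c2
    omega

end Pool.Agent.P.MP_ee618e_ag.X
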