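import Pool.Agent.P.MP_ee618e_ag.X.H2b
import Pool.Agent.P.MP_ee618e_ag.X.O5
import Pool.Agent.P.MP_ee618e_ag.X.FT2

/-! H3: the class group is divisible; generic points. -/

namespace Pool.Agent.P.MP_ee618e_ag.X

open IsDedekindDomain Polynomial
open scoped Classical

/-- `b ∉ closure S (a)` by `norm_ne_zero` (`a` is transcendental), so the minimal polynomial of
`b` is `Y ^ 2 + h(a) Y - f(a)`; `conj_root` -/
theorem flip {B : Type} [Field B] [IsAlgClosed B] (K : Subfield B) {g : ℕ} {h f : K[X]}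
    (hf : f.natDegree = 2 * g + 1) (hh : h.natDegree ≤ g) {a b : B} (ha : a ∉ Acl (K : Set B))
    (hab : b ^ 2 + aeval a h * b = aeval a f) :
    ∃ σ ∈ Fix (K : Set B), σ a = a ∧ σ b = -aeval a h - b := by
  have tr : Transcendental K a := by
    intro hc
    apply ha
    show IsAlgebraic (Subfield.closure (K : Set B)) a
    rw [Subfield.closure_eq]
    exact hc
  have hL : Subfield.closure ((K : Set B) ∪ {a}) =
      (IntermediateField.adjoin K ({a} : Set B)).toSubfield := by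
    rw [IntermediateField.adjoin_toSubfield]
    congr 2
    ext w
    exact ⟨fun hw => ⟨⟨w, hw⟩, rfl⟩, fun ⟨v, hv⟩ => hv ▸ v.2⟩
  have hmem : ∀ p : K[X], aeval a p ∈ Subfield.closure ((K : Set B) ∪ {a}) := by
    intro p
    rw [hL]
    exact (IntermediateField.mem_adjoin_simple_iff K _).2 ⟨p, 1, by simp⟩
  have hb : b ∉ Subfield.closure ((K : Set B) ∪ {a}) := by
    rw [hL]
    intro hb
    obtain ⟨r, s, hrs⟩ := (IntermediateField.mem_adjoin_simple_iff K b).1 hb
    obtain ⟨p, q, hq, hpq⟩ : ∃ p q : K[X], q ≠ 0 ∧ aeval a p = b * aeval a q := by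
      by_cases hs : aeval a s = 0
      · exact ⟨0, 1, one_ne_zero, by simp [hrs, hs]⟩
      · exact ⟨r, s, fun h0 => hs (by simp [h0]), by rw [hrs, div_mul_cancel₀ _ hs]⟩
    have h0 : aeval a (p ^ 2 + h * p * q - f * q ^ 2) = 0 := by
      simp only [map_sub, map_add, map_mul, map_pow, hpq, ← hab]
      ring
    exact hq (norm_ne_zero hf hh ((transcendental_iff.1 tr) _ h0)).2
  set L := Subfield.closure ((K : Set B) ∪ {a}) with hLdef
  let Q : L[X] := C 1 * X ^ 2 + C (⟨aeval a h, hmem h⟩ : L) * X + C (-⟨aeval a f, hmem f⟩ : L)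
  have hQm : Q.Monic := leadingCoeff_quadratic one_ne_zero
  have hQ : ∀ w : B, aeval w Q = w ^ 2 + aeval a h * w - aeval a f := by
    intro w
    simp only [Q, map_add, map_mul, map_pow, aeval_C, aeval_X, map_one, map_neg, one_mul]
    rw [sub_eq_add_neg]
    rfl
  have hQb : aeval b Q = 0 := by rw [hQ, hab, sub_self]
  have hint : IsIntegral L b := ⟨Q, hQm, by rw [← aeval_def]; exact hQb⟩
  have h2 : 2 ≤ (minpoly L b).natDegree :=
    (minpoly.two_le_natDegree_iff hint).2 fun ⟨v, hv⟩ => hb (hv ▸ v.2)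
  have hQe : Q = minpoly L b :=
    eq_of_monic_of_dvd_of_natDegree_le (minpoly.monic hint) hQm (minpoly.dvd L b hQb)
      (natDegree_quadratic_le.trans h2)
  obtain ⟨σ, hσ, hσb⟩ := conj_root (S := (K : Set B) ∪ {a}) (x := b) (y := -aeval a h - b)
    hint.isAlgebraic (by
      show aeval _ (minpoly L b) = 0
      rw [← hQe, hQ, ← hab]
      ring)
  exact ⟨σ, fun w hw => hσ w (Or.inl hw), hσ a (Or.inr rfl), hσb⟩

variable {B R : Type} [Field B] [IsAlgClosed B] [CommRing R] [IsDedekindDomain R] [Algebra B R]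
  {g : ℕ} {h f : B[X]} {x y : R}

/-- `e` is the semilinear automorphism which belongs to `σ` -/
def H3c (x y : R) (σ : Au B) (e : R ≃+* R) : Prop :=
  (∀ a, e (algebraMap B R a) = algebraMap B R (σ a)) ∧ e x = x ∧ e y = y

theorem h3_aut (H : Hyp B g h f x y) {S : Set B} (hh : ∀ i, h.coeff i ∈ S)
    (hf : ∀ i, f.coeff i ∈ S) {σ : Au B} (hσ : σ ∈ Fix S) : ∃ e : R ≃+* R, H3c x y σ e :=
  H.exists_aut σ (Polynomial.ext fun i => by rw [coeff_map]; exact hσ _ (hh i))
    (Polynomial.ext fun i => by rw [coeff_map]; exact hσ _ (hf i))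

omit [IsAlgClosed B] in
theorem h3_pt {σ : Au B} {e : R ≃+* R} (he : H3c x y σ e) {P : HeightOneSpectrum R} {a b : B}
    (hP : Pt x y P a b) : Pt x y (mp e P) (σ a) (σ b) := by
  constructor
  · have := (mem_mp (e := e)).2 hP.1
    rwa [map_sub, he.1, he.2.1] at this
  · have := (mem_mp (e := e)).2 hP.2
    rwa [map_sub, he.1, he.2.2] at this

theorem h3_nsmul (e : R ≃+* R) (n : ℕ) (c : Cl R) : mc e (n • c) = n • mc e c := by
  induction n with
  | zero =>
    have := mc_add (e := e) (0 : Cl R) 0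
    rw [add_zero] at this
    simpa using this
  | succ n ih => rw [succ_nsmul, succ_nsmul, mc_add, ih]

omit [IsAlgClosed B] in
theorem h3_ord {S : Set B} (hh : ∀ i, h.coeff i ∈ Acl S) (hf : ∀ i, f.coeff i ∈ Acl S) {a b : B}
    (ha : a ∈ Acl S) (hab : b ^ 2 + h.eval a * b = f.eval a) : b ∈ Acl S := by
  obtain ⟨F, hF⟩ := exists_aclF S
  have ev : ∀ p : B[X], (∀ i, p.coeff i ∈ Acl S) → p.eval a ∈ F := by
    intro p hp
    rw [eval_eq_sum_range]
    rw [← hF] at hp ha
    exact F.sum_mem fun i _ => F.mul_mem (hp i) (F.pow_mem ha i)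
  refine mem_acl_of_root (C 1 * X ^ 2 + C (h.eval a) * X + C (-f.eval a)) ?_ ?_ ?_
  · exact Monic.ne_zero (leadingCoeff_quadratic one_ne_zero)
  · intro i
    rw [← hF]
    simp only [coeff_add, coeff_C_mul, coeff_X_pow, coeff_X, coeff_C, SetLike.mem_coe]
    refine F.add_mem (F.add_mem (F.mul_mem F.one_mem ?_) (F.mul_mem (ev h hh) ?_)) ?_
    · split_ifs
      exacts [F.one_mem, F.zero_mem]
    · split_ifs
      exacts [F.one_mem, F.zero_mem]
    · split_ifs
      exacts [F.neg_mem (ev f hf), F.zero_mem]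
  · simp only [eval_add, eval_mul, eval_C, eval_pow, eval_X, ← hab]
    ring

omit [IsAlgClosed B] in
theorem h3_lift (K : Subfield B) {p : B[X]} (hp : ∀ i, p.coeff i ∈ K) :
    ∃ q : K[X], q.natDegree = p.natDegree ∧ ∀ a : B, aeval a q = p.eval a := by
  obtain ⟨q, hq, hd⟩ := exists_natDegree_eq_of_mem_lifts
    ((lifts_iff_coeff_lifts (f := algebraMap K B) p).2 fun i => ⟨⟨_, hp i⟩, rfl⟩)
  exact ⟨q, hd, fun a => by rw [← hq, eval_map_algebraMap]⟩

/-- points with distinct abscissae give a minimal divisor -/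
theorem h3_min (H : Hyp B g h f x y) {z w : Fin g → B} (hz : Function.Injective z)
    {P : Fin g → HeightOneSpectrum R} (hP : ∀ i, Pt x y (P i) (z i) (w i)) :
    Min (∑ i, Finsupp.single (P i) (1 : ℤ)) ∧
      ∀ i, (∑ i, Finsupp.single (P i) (1 : ℤ)) (P i) = 1 := by
  obtain ⟨ι, I⟩ := H.exists_inv
  have h1 : ∀ i, (∑ i, Finsupp.single (P i) (1 : ℤ)) (P i) = 1 := by
    intro i
    rw [Finsupp.finsetSum_apply, Finset.sum_eq_single i]
    · simp
    · intro j _ hj
      refine Finsupp.single_eq_of_ne fun hij => hj (hz ?_)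
      exact ((hP j).unique (hij ▸ hP i)).1
    · simp
  have h0 : ∀ Q, (∑ i, Finsupp.single (P i) (1 : ℤ)) Q ≠ 0 → ∃ i, Q = P i := by
    intro Q hQ
    by_contra hc
    push Not at hc
    apply hQ
    rw [Finsupp.finsetSum_apply]
    exact Finset.sum_eq_zero fun i _ => Finsupp.single_eq_of_ne (hc i)
  refine ⟨(H.min_iff I).2 ⟨Finset.sum_nonneg fun i _ => Finsupp.single_nonneg.2 zero_le_one,
    by simp [map_sum], fun Q hQ => ?_⟩, h1⟩
  have nn : ∀ A A' : HeightOneSpectrum R, (0 : ℤ) ≤ Finsupp.single A (1 : ℤ) A' :=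
    fun A A' => Finsupp.single_nonneg.2 zero_le_one A'
  have a1 := hQ Q
  have a2 := hQ (mp ι Q)
  rw [Finsupp.add_apply, Finsupp.single_eq_same] at a1 a2
  obtain ⟨i, rfl⟩ := h0 Q (by have := nn (mp ι Q) Q; omega)
  obtain ⟨j, hj⟩ := h0 (mp ι (P i)) (by have := nn (P i) (mp ι (P i)); omega)
  have hij : i = j := hz ((I.pt (hP i)).unique (hj ▸ hP j)).1
  subst hij
  rw [hj, Finsupp.single_eq_same, h1] at a1
  omega

/-- A class whose orbit under `Fix S` is finite has a minimal representative whose points have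
coordinates in `Acl S` (`Min.md`, `Min.unique`, `mem_acl_of_finite`). -/
theorem Hyp.coord_acl (H : Hyp B g h f x y) {S : Set B} (hh : ∀ i, h.coeff i ∈ S)
    (hf : ∀ i, f.coeff i ∈ S) {D : Dv R} (hD : Min D)
    (fin : {c | ∃ σ ∈ Fix S, ∃ e : R ≃+* R, (∀ a, e (algebraMap B R a) = algebraMap B R (σ a)) ∧
      e x = x ∧ e y = y ∧ mc e (cl D) = c}.Finite)
    {P : HeightOneSpectrum R} (hP : D P ≠ 0) {a b : B} (hab : Pt x y P a b) :
    a ∈ Acl S ∧ b ∈ Acl S := by
  choose rep hrep hrep' using exists_min (R := R)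
  choose xa xb hx using H.exists_pt
  have key : ∀ σ ∈ Fix S, ∃ c ∈ {c | ∃ σ ∈ Fix S, ∃ e : R ≃+* R,
      (∀ a, e (algebraMap B R a) = algebraMap B R (σ a)) ∧
      e x = x ∧ e y = y ∧ mc e (cl D) = c}, ∃ Q ∈ ((rep c).support : Set (HeightOneSpectrum R)),
      xa Q = σ a ∧ xb Q = σ b := by
    intro σ hσ
    obtain ⟨e, he⟩ := h3_aut H hh hf hσ
    refine ⟨mc e (cl D), ⟨σ, hσ, e, he.1, he.2.1, he.2.2, rfl⟩, mp e P, ?_,
      (hx _).unique (h3_pt he hab)⟩
    have hm : Min (md e D) := hD.md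
    have : md e D = rep (mc e (cl D)) :=
      Min.unique H.op (hrep _) hm.1 (by rw [hrep', mc_cl])
        (hm.2 _ (hrep _).1 (by rw [hrep', mc_cl]))
    rw [← this, Finset.mem_coe, Finsupp.mem_support_iff, md_apply]
    exact hP
  constructor
  · refine mem_acl_of_finite ((fin.biUnion fun c _ =>
      ((rep c).support.finite_toSet.image xa)).subset ?_)
    rintro _ ⟨σ, hσ, rfl⟩
    obtain ⟨c, hc, Q, hQ, h1, -⟩ := key σ hσ
    exact Set.mem_biUnion hc ⟨Q, hQ, h1⟩
  · refine mem_acl_of_finite ((fin.biUnion fun c _ =>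
      ((rep c).support.finite_toSet.image xb)).subset ?_)
    rintro _ ⟨σ, hσ, rfl⟩
    obtain ⟨c, hc, Q, hQ, -, h1⟩ := key σ hσ
    exact Set.mem_biUnion hc ⟨Q, hQ, h1⟩

/-- `N` times a generic class is generic -/
theorem h3_gen (H : Hyp B g h f x y) (K : Subfield B) (hh : ∀ i, h.coeff i ∈ K)
    (hf : ∀ i, f.coeff i ∈ K) (z : Fin g → B) (hz : AlgebraicIndependent K z) {N : ℕ}
    (hN' : (N : B) ≠ 0) :
    ∃ (c : Cl R) (p : Fin g → HeightOneSpectrum R) (a b : Fin g → B),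
      (∀ i, Pt x y (p i) (a i) (b i)) ∧ AlgebraicIndependent K a ∧
      cl (∑ i, Finsupp.single (p i) 1) = N • c := by
  have hw : ∀ i, ∃ w : B, w ^ 2 + h.eval (z i) * w = f.eval (z i) := by
    intro i
    obtain ⟨w, hw⟩ := IsAlgClosed.exists_root (C 1 * X ^ 2 + C (h.eval (z i)) * X +
      C (-f.eval (z i))) (by rw [degree_quadratic one_ne_zero]; decide)
    refine ⟨w, ?_⟩
    simp only [IsRoot.def, eval_add, eval_mul, eval_C, eval_pow, eval_X] at hw
    linear_combination hw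
  choose w hw using hw
  choose P hP using fun i => H.pt_ex (hw i)
  obtain ⟨hD, hD1⟩ := h3_min H hz.injective hP
  set D : Dv R := ∑ i, Finsupp.single (P i) (1 : ℤ) with hDdef
  obtain ⟨D', hD', hc⟩ := exists_min (N • cl D)
  obtain ⟨n, p, hn, rfl⟩ := exists_points hD'.1
  choose a b hab using fun i => H.exists_pt (p i)
  obtain ⟨ι, I⟩ := H.exists_inv
  have hng : n ≤ g := by
    have := ((H.min_iff I).1 hD').2.1
    omega
  have hb : ∀ i, b i ∈ Acl ((K : Set B) ∪ Set.range a) := fun i =>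
    h3_ord (S := (K : Set B) ∪ Set.range a) (fun j => subset_acl _ (Or.inl (hh j)))
      (fun j => subset_acl _ (Or.inl (hf j))) (subset_acl _ (Or.inr ⟨i, rfl⟩)) (H.pt_rel (hab i))
  have hza : Set.range z ⊆ Acl ((K : Set B) ∪ Set.range a) := by
    rintro _ ⟨i, rfl⟩
    refine acl_subset (S := ((K : Set B) ∪ Set.range a) ∪ Set.range b) ?_ ?_
    · rintro v (hv | ⟨j, rfl⟩)
      exacts [subset_acl _ hv, hb j]
    refine (H.coord_acl (fun j => Or.inl (Or.inl (hh j))) (fun j => Or.inl (Or.inl (hf j))) hD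
      ?_ (P := P i) (by rw [hD1]; exact one_ne_zero) (hP i)).1
    refine ((tors_finite H.op hN').image fun t => t + cl D).subset ?_
    rintro _ ⟨σ, hσ, e, he1, he2, he3, rfl⟩
    have he : H3c x y σ e := ⟨he1, he2, he3⟩
    have hp : ∀ j, mp e (p j) = p j := fun j => by
      have := h3_pt he (hab j)
      rw [hσ _ (Or.inl (Or.inr ⟨j, rfl⟩)), hσ _ (Or.inr ⟨j, rfl⟩)] at this
      exact H.pt_inj this (hab j)
    refine ⟨mc e (cl D) - cl D, ?_, sub_add_cancel _ _⟩
    show N • (mc e (cl D) - cl D) = 0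
    rw [nsmul_sub, ← h3_nsmul, ← hc, mc_cl, map_sum (md e)]
    simp only [md_single, hp, sub_self]
  obtain rfl : n = g := by
    by_contra hne
    have hlt : n + 1 ≤ g := by omega
    exact td_of_acl K a hza (z ∘ Fin.castLE hlt) (fun i => ⟨_, rfl⟩)
      (hz.comp _ (Fin.castLE_injective hlt))
  exact ⟨cl D, p, a, b, hab, indep_of_acl K z a hz hza, hc⟩

/-- Let `P i` be points with abscissae `z i`, `c = cl (∑ P i)` (minimal by `min_iff`), `D'` minimal
in the class `N c`, `S` the set `K` with the coordinates of the points of `D'`. `Fix S` fixes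
`N c`, so the orbit of `c` is finite (`tors_finite`) and `z i ∈ Acl S` (`coord_acl`). Hence `D'` has
`g` points with independent abscissae `a i` (`td_of_acl`, `indep_of_acl`). Put
`K' = Acl (K ∪ {a i | i ≠ 0})`. Automorphisms in `Fix K'` preserve `N • Cl` and fix the other
points, so they fix the class of `P' 0` modulo `N • Cl`; by `flip` this class `p` satisfies
`p = -p`, so `p = 0` as `N` is odd; by `move_one` and `flip` every point with abscissa outside `K'`
is conjugate to `P' 0`. -/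
theorem Hyp.generic (H : Hyp B g h f x y) (K : Subfield B) (hh : ∀ i, h.coeff i ∈ K)
    (hf : ∀ i, f.coeff i ∈ K) (hg : 0 < g) (z : Fin g → B) (hz : AlgebraicIndependent K z) {N : ℕ}
    (hN : Odd N) (hN' : (N : B) ≠ 0) :
    ∃ K' : Subfield B, K ≤ K' ∧ Acl (K' : Set B) = K' ∧ K' ≠ ⊤ ∧
      ∀ P a b, Pt x y P a b → a ∉ K' → ∃ c : Cl R, N • c = cl (Finsupp.single P 1) := by
  obtain ⟨c, p, a, b, hab, ha, hc⟩ := h3_gen H K hh hf z hz hN'
  obtain ⟨n, rfl⟩ : ∃ n, g = n + 1 := ⟨g - 1, by omega⟩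
  obtain ⟨K', hK'⟩ := exists_aclF ((K : Set B) ∪ Set.range (a ∘ Fin.succ))
  obtain ⟨ι, I⟩ := H.exists_inv
  have hKK : K ≤ K' := fun v hv => by
    rw [← SetLike.mem_coe, hK']
    exact subset_acl _ (Or.inl hv)
  have hacl : Acl (K' : Set B) = K' := by
    refine Set.Subset.antisymm ?_ (subset_acl _)
    rw [hK']
    exact acl_subset subset_rfl
  have ha0 : a 0 ∉ Acl (K' : Set B) := by
    rw [hacl, hK']
    intro h0
    refine td_of_acl K (a ∘ Fin.succ) (A := Set.range a) ?_ a (fun i => ⟨i, rfl⟩) ha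
    rintro _ ⟨i, rfl⟩
    refine Fin.cases h0 (fun j => ?_) i
    exact subset_acl _ (Or.inr ⟨j, rfl⟩)
  have hh' : ∀ i, h.coeff i ∈ (K' : Set B) := fun i => hKK (hh i)
  have hf' : ∀ i, f.coeff i ∈ (K' : Set B) := fun i => hKK (hf i)
  have has : ∀ j : Fin n, a j.succ ∈ (K' : Set B) := fun j => by
    rw [hK']
    exact subset_acl _ (Or.inr ⟨j, rfl⟩)
  have hbs : ∀ j : Fin n, b j.succ ∈ (K' : Set B) := fun j => by
    rw [← hacl]
    exact h3_ord (fun j => subset_acl _ (hh' j)) (fun j => subset_acl _ (hf' j))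
      (subset_acl _ (has j)) (H.pt_rel (hab _))
  have star : ∀ σ ∈ Fix (K' : Set B), ∀ e : R ≃+* R, H3c x y σ e →
      cl (Finsupp.single (mp e (p 0)) 1) = cl (Finsupp.single (p 0) 1) + N • (mc e c - c) := by
    intro σ hσ e he
    have hp : ∀ j : Fin n, mp e (p j.succ) = p j.succ := fun j => by
      have := h3_pt he (hab j.succ)
      rw [hσ _ (has j), hσ _ (hbs j)] at this
      exact H.pt_inj this (hab _)
    rw [nsmul_sub, ← h3_nsmul, ← hc, mc_cl, map_sum (md e), Fin.sum_univ_succ, Fin.sum_univ_succ]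
    simp only [md_single, hp, map_add]
    abel
  have hneg : ∀ Q, cl (Finsupp.single (mp ι Q) 1) = -cl (Finsupp.single Q (1 : ℤ)) := fun Q => by
    rw [← md_single, ← mc_cl, H.mc_inv I]
  obtain ⟨u, hu⟩ : ∃ u : Cl R, N • u = cl (Finsupp.single (p 0) 1) := by
    obtain ⟨h', dh, eh⟩ := h3_lift K' hh'
    obtain ⟨f', df, ef⟩ := h3_lift K' hf'
    obtain ⟨σ, hσ, h1, h2⟩ := flip K' (df.trans H.degf) (dh.trans_le H.degh) ha0
      (b := b 0) (by rw [eh, ef]; exact H.pt_rel (hab 0))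
    obtain ⟨e, he⟩ := h3_aut H hh' hf' hσ
    have h3 := h3_pt he (hab 0)
    rw [h1, h2, eh] at h3
    have h4 := star σ hσ e he
    rw [H.pt_inj h3 (I.pt (hab 0)), hneg] at h4
    obtain ⟨k, hk⟩ := hN
    refine ⟨cl (Finsupp.single (p 0) 1) + k • (mc e c - c), ?_⟩
    rw [nsmul_add, smul_comm N k, eq_sub_of_add_eq' h4.symm, hk]
    module
  refine ⟨K', hKK, hacl, fun h0 => ha0 (subset_acl _ (by rw [h0]; trivial)), ?_⟩
  intro P a' b' hP ha'
  obtain ⟨σ, hσ, h1⟩ := move_one ha0 (y := a') (by rw [hacl]; exact ha')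
  obtain ⟨e, he⟩ := h3_aut H hh' hf' hσ
  have h3 := h3_pt he (hab 0)
  rw [h1] at h3
  have h4 := star σ hσ e he
  rw [← hu, ← nsmul_add] at h4
  have h5 : (b' - σ (b 0)) * (b' - (-h.eval a' - σ (b 0))) = 0 := by
    linear_combination H.pt_rel hP - H.pt_rel h3
  rcases mul_eq_zero.1 h5 with h6 | h6
  · rw [← sub_eq_zero.1 h6] at h3
    exact ⟨_, by rw [H.pt_inj hP h3, h4]⟩
  · have h7 := I.pt h3
    rw [← sub_eq_zero.1 h6] at h7
    exact ⟨-_, by rw [H.pt_inj hP h7, hneg, h4, neg_nsmul]⟩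

end Pool.Agent.P.MP_ee618e_ag.X
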