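import Pool.Agent.P.MP_ee618e_ag.X.H3

/-! H4: the class group is divisible; descent. -/

namespace Pool.Agent.P.MP_ee618e_ag.X

open IsDedekindDomain Polynomial
open scoped Classical

section

variable {B R : Type} [Field B] [IsAlgClosed B] [CommRing R] [IsDedekindDomain R] [Algebra B R]
  {g : ℕ} {h f : B[X]} {x y : R}

theorem cl_mem_of_pts (G : AddSubgroup (Cl R)) (D : Dv R)
    (hD : ∀ Q, D Q ≠ 0 → cl (Finsupp.single Q 1) ∈ G) : cl D ∈ G := by
  rw [← Finsupp.sum_single D, Finsupp.sum, map_sum]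
  refine G.sum_mem fun Q hQ => ?_
  have e : Finsupp.single Q (D Q) = D Q • (Finsupp.single Q 1 : Dv R) := by simp
  rw [e, map_zsmul]
  exact G.zsmul_mem (hD Q (Finsupp.mem_support_iff.1 hQ)) _

theorem Hyp.snd_mem (H : Hyp B g h f x y) (K' : Subfield B) (hh : ∀ i, h.coeff i ∈ K')
    (hf : ∀ i, f.coeff i ∈ K') (hK : Acl (K' : Set B) = K') {P : HeightOneSpectrum R} {a b : B}
    (hP : Pt x y P a b) (ha : a ∈ K') : b ∈ K' := by
  have ev : ∀ p : B[X], (∀ i, p.coeff i ∈ K') → p.eval a ∈ K' := by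
    intro p hp
    rw [eval_eq_sum_range]
    exact K'.sum_mem fun i _ => K'.mul_mem (hp i) (K'.pow_mem ha i)
  have hrel := H.pt_rel hP
  have : b ∈ Acl (K' : Set B) := by
    refine mem_acl_of_root (C 1 * Polynomial.X ^ 2 + C (h.eval a) * Polynomial.X +
      C (-f.eval a)) ?_ ?_ ?_
    · intro h0
      have := congrArg (fun p => p.coeff 2) h0
      simp [coeff_X, coeff_C] at this
    · intro i
      rw [hK]
      simp only [coeff_add, coeff_C_mul, coeff_X_pow, coeff_X, coeff_C]
      refine K'.add_mem (K'.add_mem (K'.mul_mem K'.one_mem ?_) (K'.mul_mem (ev h hh) ?_)) ?_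
      · split_ifs
        exacts [K'.one_mem, K'.zero_mem]
      · split_ifs
        exacts [K'.one_mem, K'.zero_mem]
      · split_ifs
        exacts [K'.neg_mem (ev f hf), K'.zero_mem]
    · simp only [eval_add, eval_mul, eval_C, eval_pow, eval_X]
      linear_combination hrel
  rwa [hK] at this

/-- If `ι P = P` then `2 cl P = 0`. Otherwise `ord P (x - a) = 1`; take `z ∉ K'` such that
`φ = y - b + z (x - a)` has `ord P φ = 1` (one of `z`, `z + 1`); the other zeros of `φ` have
abscissae outside `K'`. -/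
theorem Hyp.all_pts (H : Hyp B g h f x y) (K' : Subfield B) (hh : ∀ i, h.coeff i ∈ K')
    (hf : ∀ i, f.coeff i ∈ K') (hK : Acl (K' : Set B) = K') (hK' : K' ≠ ⊤) {N : ℕ} (hN : Odd N)
    (gen : ∀ P a b, Pt x y P a b → a ∉ K' → ∃ c : Cl R, N • c = cl (Finsupp.single P 1))
    (c : Cl R) : ∃ c' : Cl R, N • c' = c := by
  obtain ⟨e, I⟩ := H.exists_inv
  let G : AddSubgroup (Cl R) := (nsmulAddMonoidHom N : Cl R →+ Cl R).range
  have key : ∀ P : HeightOneSpectrum R, cl (Finsupp.single P 1) ∈ G := by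
    intro P
    obtain ⟨a, b, hP⟩ := H.exists_pt P
    by_cases ha : a ∈ K'
    swap
    · exact gen P a b hP ha
    have hb := H.snd_mem K' hh hf hK hP ha
    have hx := H.dv_x I hP
    by_cases hi : mp e P = P
    · rw [hi] at hx
      have h2 := cl_dv (x - algebraMap B R a)
      rw [hx, map_add] at h2
      obtain ⟨m, rfl⟩ := hN
      refine ⟨cl (Finsupp.single P 1), ?_⟩
      show (2 * m + 1) • cl (Finsupp.single P (1 : ℤ)) = _
      rw [add_nsmul, mul_nsmul, two_nsmul, h2, nsmul_zero, zero_add, one_nsmul]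
    have h1 : dv (x - algebraMap B R a) P = 1 := by
      rw [hx]
      simp [Finsupp.single_apply, hi]
    have hx0 : x - algebraMap B R a ≠ 0 := by
      intro h0
      rw [h0, dv_zero] at h1
      simp at h1
    have hx2 : x - algebraMap B R a ∉ P.asIdeal ^ 2 := by
      rw [← le_ord_iff hx0]
      rw [dv_apply hx0] at h1
      omega
    obtain ⟨z₀, hz₀⟩ : ∃ z, z ∉ K' := by
      by_contra hc
      exact hK' (eq_top_iff.2 fun z _ => by_contra fun hz => hc ⟨z, hz⟩)
    obtain ⟨z, hz, hφ⟩ : ∃ z, z ∉ K' ∧ y - algebraMap B R b +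
        algebraMap B R z * (x - algebraMap B R a) ∉ P.asIdeal ^ 2 := by
      by_contra hc
      have hc' : ∀ z, z ∉ K' → y - algebraMap B R b +
          algebraMap B R z * (x - algebraMap B R a) ∈ P.asIdeal ^ 2 :=
        fun z hz => by_contra fun h' => hc ⟨z, hz, h'⟩
      have h3 := (P.asIdeal ^ 2).sub_mem
        (hc' (z₀ + 1) fun h' => hz₀ (by simpa using K'.sub_mem h' K'.one_mem)) (hc' z₀ hz₀)
      apply hx2
      convert h3 using 1
      rw [map_add, map_one]
      ring
    set φ := y - algebraMap B R b + algebraMap B R z * (x - algebraMap B R a) with hφd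
    have hφ0 : φ ≠ 0 := fun h0 => hφ (h0 ▸ zero_mem _)
    have hφ1 : φ ∈ P.asIdeal := P.asIdeal.add_mem hP.2 (P.asIdeal.mul_mem_left _ hP.1)
    have ho : dv φ P = 1 := by
      rw [dv_apply hφ0]
      have a1 : 1 ≤ ord P φ := (le_ord_iff hφ0).2 (by simpa using hφ1)
      have a2 : ¬ 2 ≤ ord P φ := fun h' => hφ ((le_ord_iff hφ0).1 h')
      omega
    have hD : cl (dv φ - Finsupp.single P 1) ∈ G := by
      refine cl_mem_of_pts G _ fun Q hQ => ?_
      have hQP : Q ≠ P := by
        rintro rfl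
        simp [ho] at hQ
      have hQ' : φ ∈ Q.asIdeal := by
        by_contra hn
        apply hQ
        simp [dv_apply hφ0, (ord_eq_zero hφ0).2 hn, Finsupp.single_apply, hQP.symm]
      obtain ⟨a', b', hQ2⟩ := H.exists_pt Q
      refine gen Q a' b' hQ2 fun ha' => ?_
      have hb' := H.snd_mem K' hh hf hK hQ2 ha'
      have h0 : b' - b + z * (a' - a) = 0 := by
        by_contra hne
        have hm : algebraMap B R (b' - b + z * (a' - a)) ∈ Q.asIdeal := by
          have := Q.asIdeal.sub_mem (Q.asIdeal.sub_mem hQ' hQ2.2)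
            (Q.asIdeal.mul_mem_left (algebraMap B R z) hQ2.1)
          convert this using 1
          simp only [hφd, map_add, map_sub, map_mul]
          ring
        exact Q.isPrime.ne_top
          (Ideal.eq_top_of_isUnit_mem _ hm ((IsUnit.mk0 _ hne).map (algebraMap B R)))
      by_cases haa : a' = a
      · have hbb : b' = b := by
          rw [haa] at h0
          linear_combination h0
        rw [haa, hbb] at hQ2
        exact hQP (H.pt_inj hQ2 hP)
      · apply hz
        have : z = (b - b') / (a' - a) := by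
          rw [eq_div_iff (sub_ne_zero.2 haa)]
          linear_combination h0
        rw [this]
        exact K'.div_mem (K'.sub_mem hb hb') (K'.sub_mem ha' ha)
    rw [map_sub, cl_dv, zero_sub] at hD
    exact neg_mem_iff.1 hD
  obtain ⟨D, rfl⟩ := cl_surj c
  exact cl_mem_of_pts G D fun Q _ => key Q

end

theorem exists_indep_ext (A : Type) [Field A] (g : ℕ) :
    ∃ (B : Type) (_ : Field B) (_ : IsAlgClosed B) (_ : Algebra A B) (z : Fin g → B),
      AlgebraicIndependent (algebraMap A B).fieldRange z := by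
  let M := MvPolynomial (Fin g) A
  let B := AlgebraicClosure (FractionRing M)
  have hinj : Function.Injective (IsScalarTower.toAlgHom A M B) := by
    show Function.Injective (algebraMap M B)
    rw [IsScalarTower.algebraMap_eq M (FractionRing M) B]
    exact (algebraMap (FractionRing M) B).injective.comp (IsFractionRing.injective M _)
  have h1 := (MvPolynomial.algebraicIndependent_X (Fin g) A).map' hinj
  refine ⟨B, inferInstance, inferInstance, inferInstance, _,
    h1.ringHom_of_comp_eq (algebraMap A B).rangeRestrictField (RingHom.id B) ?_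
      Function.injective_id ?_⟩
  · rintro ⟨_, a, rfl⟩
    exact ⟨a, rfl⟩
  · ext a
    rfl

variable {A R : Type} [Field A] [IsAlgClosed A] [CommRing R] [IsDedekindDomain R] [Algebra A R]
  {g : ℕ} {h f : A[X]} {x y : R}

/-- For `g = 0` all classes vanish (`min_iff`). Otherwise let `B` be an algebraic closure of
`A(z₁, …, z_g)`, `R'` from `Hyp.base`, `ι` from `exists_iota` (`pt_span`, `pt_ex`). If `N c' = cl (ι D)`,
the orbit of `c'` under `Fix A` is finite, so by `coord_acl` its minimal representative is `ι D₀`.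
`ι` preserves minimal divisors (`min_iff`), so it is injective on classes. -/
theorem Hyp.dvs (H : Hyp A g h f x y) {N : ℕ} (hN : Odd N) (hN' : (N : A) ≠ 0) (c : Cl R) :
    ∃ c' : Cl R, N • c' = c := by
  obtain ⟨e, I⟩ := H.exists_inv
  obtain ⟨D, hD, rfl⟩ := exists_min c
  rcases Nat.eq_zero_or_pos g with hg | hg
  · have h1 := (H.min_iff I).1 hD
    have : D = 0 := degree_eq_zero h1.1 (by simpa [hg] using h1.2.1)
    exact ⟨0, by simp [this]⟩
  obtain ⟨B, _, _, _, z, hz⟩ := exists_indep_ext A g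
  obtain ⟨R', _, _, x', y', ψ, H', hψ, ψa, ψx, ψy⟩ := H.base B
  haveI := H'.isDedekind
  set φ := algebraMap A B with hφ
  set K := φ.fieldRange with hKd
  have hh : ∀ i, (h.map φ).coeff i ∈ K := fun i => ⟨h.coeff i, (coeff_map _ _).symm⟩
  have hf : ∀ i, (f.map φ).coeff i ∈ K := fun i => ⟨f.coeff i, (coeff_map _ _).symm⟩
  have hNB : (N : B) ≠ 0 := by
    rw [← map_natCast φ]
    exact (map_ne_zero φ).2 hN'
  haveI : IsAlgClosed K := IsAlgClosed.of_ringEquiv A K φ.rangeRestrictFieldEquiv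
  obtain ⟨K', hKK, hK1, hK2, gen⟩ := H'.generic K hh hf hg z hz hN hNB
  have div := H'.all_pts K' (fun i => hKK (hh i)) (fun i => hKK (hf i)) hK1 hK2 hN gen
  obtain ⟨e', I'⟩ := H'.exists_inv
  have rel : ∀ a b : A, b ^ 2 + h.eval a * b = f.eval a ↔
      φ b ^ 2 + (h.map φ).eval (φ a) * φ b = (f.map φ).eval (φ a) := by
    intro a b
    rw [eval_map_apply, eval_map_apply, ← map_pow, ← map_mul, ← map_add]
    exact φ.injective.eq_iff.symm
  have ex : ∀ P : HeightOneSpectrum R, ∃ Q : HeightOneSpectrum R',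
      Q.asIdeal = P.asIdeal.map ψ := by
    intro P
    obtain ⟨a, b, hP⟩ := H.exists_pt P
    obtain ⟨Q, hQ⟩ := H'.pt_ex ((rel a b).1 (H.pt_rel hP))
    refine ⟨Q, ?_⟩
    rw [H'.pt_span hQ, H.pt_span hP, Ideal.map_span, Set.image_pair, map_sub, map_sub, ψa, ψa,
      ψx, ψy]
  choose ι hι using ex
  have ιinj := iota_inj hι
  have ιpt : ∀ P a b, Pt x y P a b → Pt x' y' (ι P) (φ a) (φ b) := by
    intro P a b hP
    have h1 := (iota_mem hι P _).2 hP.1
    have h2 := (iota_mem hι P _).2 hP.2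
    rw [map_sub, ψa] at h1 h2
    rw [ψx] at h1
    rw [ψy] at h2
    exact ⟨h1, h2⟩
  have ιinv : ∀ P, mp e' (ι P) = ι (mp e P) := by
    intro P
    obtain ⟨a, b, hP⟩ := H.exists_pt P
    have h1 := I'.pt (ιpt P a b hP)
    have h2 := ιpt _ _ _ (I.pt hP)
    rw [map_sub, map_neg, ← eval_map_apply] at h2
    exact H'.pt_inj h1 h2
  have ιnn : ∀ E : Dv R, 0 ≤ E → 0 ≤ Finsupp.mapDomain ι E := by
    intro E hE Q
    by_cases hQ : Q ∈ Set.range ι
    · obtain ⟨P, rfl⟩ := hQ
      rw [Finsupp.mapDomain_apply ιinj]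
      exact hE P
    · rw [Finsupp.mapDomain_notin_range _ _ hQ]
      exact le_rfl
  have ιmin : ∀ E : Dv R, Min E → Min (Finsupp.mapDomain ι E) := by
    intro E hE
    obtain ⟨h1, h2, h3⟩ := (H.min_iff I).1 hE
    refine (H'.min_iff I').2 ⟨ιnn E h1, by rwa [Finsupp.degree_mapDomain], fun Q hQ => ?_⟩
    have hQr : Q ∈ Set.range ι := by
      by_contra hn
      have h4 := hQ Q
      rw [Finsupp.mapDomain_notin_range _ _ hn, Finsupp.add_apply, Finsupp.single_eq_same,
        Finsupp.single_apply] at h4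
      split_ifs at h4 <;> omega
    obtain ⟨P, rfl⟩ := hQr
    refine h3 P fun P' => ?_
    have h4 := hQ (ι P')
    rw [ιinv, ← Finsupp.mapDomain_single (f := ι), ← Finsupp.mapDomain_single (f := ι),
      ← Finsupp.mapDomain_add, Finsupp.mapDomain_apply ιinj, Finsupp.mapDomain_apply ιinj] at h4
    exact h4
  obtain ⟨c', hc'⟩ := div (cl (Finsupp.mapDomain ι D))
  obtain ⟨D', hD', rfl⟩ := exists_min c'
  have mcn : ∀ (s : R' ≃+* R') (n : ℕ) (E : Dv R'), n • mc s (cl E) = mc s (n • cl E) := by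
    intro s n E
    rw [← map_nsmul, mc_cl, mc_cl, map_nsmul, map_nsmul]
  have fin : {c | ∃ σ ∈ Fix (K : Set B), ∃ s : R' ≃+* R',
      (∀ a, s (algebraMap B R' a) = algebraMap B R' (σ a)) ∧ s x' = x' ∧ s y' = y' ∧
        mc s (cl D') = c}.Finite := by
    refine ((tors_finite H'.op hNB).image fun t => t + cl D').subset ?_
    rintro _ ⟨σ, hσ, s, s1, s2, s3, rfl⟩
    refine ⟨mc s (cl D') - cl D', ?_, by simp⟩
    have hfix : ∀ P, mp s (ι P) = ι P := by
      intro P
      obtain ⟨a, b, hP⟩ := H.exists_pt P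
      have h1 := ιpt P a b hP
      refine H'.pt_inj ⟨?_, ?_⟩ h1
      · have := (mem_mp (e := s)).2 h1.1
        rwa [map_sub, s1, s2, hσ _ ⟨a, rfl⟩] at this
      · have := (mem_mp (e := s)).2 h1.2
        rwa [map_sub, s1, s3, hσ _ ⟨b, rfl⟩] at this
    have hmd : ∀ E : Dv R, md s (Finsupp.mapDomain ι E) = Finsupp.mapDomain ι E := by
      intro E
      induction E using Finsupp.induction_linear with
      | zero => simp
      | add u v hu hv => rw [Finsupp.mapDomain_add, map_add, hu, hv]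
      | single P n => rw [Finsupp.mapDomain_single, md_single, hfix]
    show N • (mc s (cl D') - cl D') = 0
    rw [nsmul_sub, mcn, hc', mc_cl, hmd, sub_self]
  have supp : (D'.support : Set (HeightOneSpectrum R')) ⊆ Set.range ι := by
    intro Q hQ
    obtain ⟨a', b', hQ2⟩ := H'.exists_pt Q
    obtain ⟨h1, h2⟩ := H'.coord_acl (S := (K : Set B)) hh hf hD' fin
      (Finsupp.mem_support_iff.1 hQ) hQ2
    rw [acl_eq K] at h1 h2
    obtain ⟨a, rfl⟩ := h1
    obtain ⟨b, rfl⟩ := h2
    obtain ⟨P, hP⟩ := H.pt_ex ((rel a b).2 (H'.pt_rel hQ2))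
    exact ⟨P, H'.pt_inj (ιpt P a b hP) hQ2⟩
  obtain ⟨D₀, rfl⟩ : ∃ D₀ : Dv R, Finsupp.mapDomain ι D₀ = D' :=
    ⟨_, Finsupp.mapDomain_comapDomain ι ιinj D' supp⟩
  refine ⟨cl D₀, ?_⟩
  obtain ⟨E, hE, hEc⟩ := exists_min (cl (N • D₀ - D))
  have h1 := iota_cl hψ hι hEc
  have h2 : Finsupp.mapDomain ι (N • D₀ - D) =
      N • Finsupp.mapDomain ι D₀ - Finsupp.mapDomain ι D := by
    rw [← Finsupp.mapDomain.addMonoidHom_apply, map_sub, map_nsmul]
    rfl
  rw [h2, map_sub, map_nsmul, hc', sub_self] at h1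
  have h3 := (ιmin E hE).2 0 le_rfl (by rw [map_zero, h1])
  rw [Finsupp.degree_mapDomain, map_zero] at h3
  rw [degree_eq_zero hE.1 h3, map_zero, map_sub, map_nsmul] at hEc
  exact (sub_eq_zero.1 hEc.symm)

end Pool.Agent.P.MP_ee618e_ag.X
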