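import Pool.Agent.P.MP_ee618e_ag.X.K1

/-! K2: Kummer characters of torsion classes are the unramified characters. -/

namespace Pool.Agent.P.MP_ee618e_ag.X

open IsDedekindDomain Polynomial
open scoped Classical

variable {Ω : Type} [Field Ω] [IsAlgClosed Ω] {C : Fib Ω} {N : ℕ} {ζ : Ω} {s : Cl C.R}
  {χ : Au Ω → ZMod N}

omit [IsAlgClosed Ω] in
theorem kum_clear {K : Subfield Ω} {R : Subalgebra K Ω} [IsDedekindDomain R] (hN : N ≠ 0) {r : Ω}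
    (h : Kum ζ (Fix (R : Set Ω)) r χ) (hr : r ^ N ∈ Subfield.closure (R : Set Ω)) :
    ∃ (f : R) (r : Ω), f ≠ 0 ∧ r ^ N = f ∧ Kum ζ (Fix (R : Set Ω)) r χ := by
  obtain ⟨a, ha, b, hb, hb0, e⟩ := mem_closure_alg.1 hr
  obtain ⟨M, rfl⟩ := Nat.exists_eq_succ_of_ne_zero hN
  have e' : (r * b) ^ (M + 1) = a * b ^ M := by
    rw [mul_pow, e, pow_succ]
    field_simp
  have h0 : r * b ≠ 0 := mul_ne_zero h.1 hb0
  refine ⟨⟨a * b ^ M, R.mul_mem ha (R.pow_mem hb M)⟩, r * b, ?_, e', h0, fun σ hσ => ?_⟩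
  · intro h1
    have h2 : a * b ^ M = 0 := congrArg Subtype.val h1
    exact pow_ne_zero _ h0 (e'.trans h2)
  · rw [map_mul, h.2 σ hσ, hσ b hb, mul_assoc]

omit [IsAlgClosed Ω] in
theorem kum_unit {k : Subfield Ω} {S : Set Ω} (hζ : IsPrimitiveRoot ζ N) (hN : N ≠ 0)
    (hk : ζ ∈ k) {r g : Ω} (h : Kum ζ (Fix S) r χ) {O : ValuationSubring Ω}
    (hO : (k : Set Ω) ⊆ O) {σ : Au Ω} (hσ : σ ∈ Fix S) (hI : Ine O σ) (hg : σ g = g)
    (h1 : (r / g) ^ N ∈ O) (h2 : (r / g) ^ N ∉ O.nonunits) : χ σ = 0 := by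
  obtain ⟨hu, hu'⟩ := unit_of_pow hN h1 h2
  have e : σ (r / g) = ζ ^ (χ σ).val * (r / g) := by
    rw [map_div₀, h.2 σ hσ, hg, mul_div_assoc]
  have h3 := unit_root hO (k.pow_mem hk _) hu hu' (hI _ hu) e
  refine pow_val_inj hζ hN ?_
  rw [h3, ZMod.val_zero, pow_zero]

namespace Fib

/-- It suffices to find `g ∈ closure R0` such that `r / g` is a unit of `O` (`unit_root`,
`unit_of_pow`). If `R0 ⊆ O` use `exists_centre`, `iota`, `iota_dv`, `val_iff` for `R0` and a power of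
a uniformiser. Otherwise `dg f = N deg D` (`OP.degree_dv`), use `OP.large` and `inf`. -/
theorem kap_ch (hζ : IsPrimitiveRoot ζ N) (hN : (N : Ω) ≠ 0) (hs : N • s = 0) :
    Ch C.k (C.R0 : Set Ω) (C.kap N ζ s) := by
  have hN0 : N ≠ 0 := fun h => hN (by simp [h])
  obtain ⟨hout, f, D, r, hf, -, hD, hr, hk⟩ := kap_spec hζ hN hs
  refine ⟨kap_hom hζ hN hs, kap_sm hζ hN hs, hout, fun O hO σ hσ hI => ?_⟩
  have hζk := C.zeta_mem hζ hN
  have hfΩ : (f : Ω) ≠ 0 := hr ▸ pow_ne_zero _ hk.1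
  have hf0 : f ≠ 0 := fun h => hfΩ (by simp [h])
  let f0 : C.R0 := ⟨f, hf⟩
  have hf00 : f0 ≠ 0 := fun h => hfΩ (congrArg Subtype.val h)
  by_cases hR : (C.R0 : Set Ω) ⊆ O
  · have hR' : ∀ a : C.R0, (a : Ω) ∈ O := fun a => hR a.2
    rcases exists_centre hR' with h0 | ⟨P, hP⟩
    · refine kum_unit hζ hN0 hζk hk hO hσ hI (map_one σ) ?_ ?_
      · rw [div_one, hr]
        exact hR hf
      · rw [div_one, hr]
        exact fun h => hf00 (h0 f0 h)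
    · obtain ⟨ι, hι⟩ := C.iota
      have e1 : dv f = Finsupp.mapDomain ι (dv f0) := iota_dv C.inc_inj hι f0
      have e2 : (ord P f0 : ℤ) = N * D (ι P) := by
        rw [← dv_apply hf00, ← Finsupp.mapDomain_apply (iota_inj hι), ← e1, hD]
        simp
      obtain ⟨m, hm⟩ : N ∣ ord P f0 := Int.natCast_dvd_natCast.1 ⟨_, e2⟩
      obtain ⟨π, hπ0, hπ⟩ := exists_unif P
      have e3 : ord P ((π ^ m) ^ N) = ord P f0 := by
        rw [← pow_mul, ord_pow hπ0, hπ, hm, mul_one, mul_comm]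
      have h4 := val_iff hR' hP hf00 (pow_ne_zero N (pow_ne_zero m hπ0))
      have e4 : (r / (π : Ω) ^ m) ^ N = (f0 : Ω) / ((π ^ m) ^ N : C.R0) := by
        rw [div_pow, hr]
        simp [f0]
      refine kum_unit (g := (π : Ω) ^ m) hζ hN0 hζk hk hO hσ hI ?_ ?_ ?_
      · rw [map_pow, hσ π π.2]
      · rw [e4]
        exact h4.1.2 e3.le
      · rw [e4, h4.2, e3]
        exact lt_irrefl _
  · have e1 : ((C.dg f : ℕ) : ℤ) = N * D.degree := by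
      rw [← C.op.degree_dv hf0, hD, map_zsmul, smul_eq_mul]
    obtain ⟨n, hn⟩ : N ∣ C.dg f := Int.natCast_dvd_natCast.1 ⟨_, e1⟩
    obtain ⟨a, b, ha, hb, hab⟩ := C.op0.large n
    have haΩ : (a : Ω) ≠ 0 := fun h => ha (Subtype.ext h)
    have hbΩ : (b : Ω) ≠ 0 := fun h => hb (Subtype.ext h)
    have d1 : C.dg ((f0 * b ^ N : C.R0) : Ω) = C.dg ((a ^ N : C.R0) : Ω) := by
      have m1 := C.op0.mul f0 (b ^ N) hf00 (pow_ne_zero N hb)
      have m2 := C.op0.pow hb N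
      have m3 := C.op0.pow ha N
      beta_reduce at m1 m2 m3 hab
      rw [m1, m2, m3, hab, mul_add, add_comm]
      exact congrArg _ hn
    have z1 : ((f0 * b ^ N : C.R0) : Ω) ≠ 0 := by
      simpa [f0] using ⟨hf0, fun h => absurd h hb⟩
    have z2 : ((a ^ N : C.R0) : Ω) ≠ 0 := by
      simpa using fun h => absurd h ha
    have i1 := C.inf O hO hR _ (f0 * b ^ N).2 _ (a ^ N).2 z2 d1.le
    have i2 := C.inf O hO hR _ (a ^ N).2 _ (f0 * b ^ N).2 z1 d1.ge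
    have e4 : (r / ((a : Ω) / b)) ^ N =
        ((f0 * b ^ N : C.R0) : Ω) / ((a ^ N : C.R0) : Ω) := by
      rw [div_pow, hr, div_pow, div_div_eq_mul_div]
      simp [f0]
    refine kum_unit (g := (a : Ω) / b) hζ hN0 hζk hk hO hσ hI ?_ ?_ ?_
    · rw [map_div₀, hσ a a.2, hσ b b.2]
    · rw [e4]
      exact i1
    · rw [e4, ValuationSubring.mem_nonunits_iff_or, inv_div]
      exact fun h => h.elim (div_ne_zero z1 z2) fun h => h i2

/-- `kummer_fix`, clear the denominator; `dominate` and `ram` show `N ∣ ord P f` -/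
theorem kap_sur (hζ : IsPrimitiveRoot ζ N) (hN : (N : Ω) ≠ 0) (h : Ch C.k (C.R0 : Set Ω) χ) :
    ∃ s, N • s = 0 ∧ C.kap N ζ s = χ := by
  have hN0 : N ≠ 0 := fun h => hN (by simp [h])
  have hζk := C.zeta_mem hζ hN
  obtain ⟨r₁, hk₁, hr₁⟩ := kummer_fix hζ hN (Subfield.subset_closure (C.k_le hζk)) h.hom h.sm
  obtain ⟨f0, r, hf0, hr, hk⟩ := kum_clear hN0 hk₁ hr₁
  have hf : C.inc f0 ≠ 0 := fun e => hf0 (C.inc_inj (e.trans (map_zero _).symm))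
  have hdvd : ∀ P, (N : ℤ) ∣ dv (C.inc f0) P := by
    intro P
    obtain ⟨O, hO, hP⟩ := dominate (C.R.val : C.R →+* Ω) Subtype.val_injective P.asIdeal
    obtain ⟨τ, hτ, hI, hram⟩ := ram C.alg hO hP hζ hN0 (C.kA hζk)
    have hτ0 : τ ∈ Fix (C.R0 : Set Ω) := fun x hx => hτ x (C.R0_le hx)
    have h0 : χ τ = 0 := h.unr O (fun x hx => hO ⟨x, C.R0_le (C.k_le hx)⟩) τ hτ0 hI
    have h1 := hk.2 τ hτ0
    rw [hram (C.inc f0) r hf hr, h0, ZMod.val_zero, pow_zero] at h1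
    rw [dv_apply hf]
    exact Int.natCast_dvd_natCast.2 (hζ.dvd_of_pow_eq_one _ (mul_right_cancel₀ hk.1 h1))
  let D : Dv C.R := Finsupp.mapRange (fun n => n / (N : ℤ)) (by simp) (dv (C.inc f0))
  have hD : dv (C.inc f0) = (N : ℤ) • D := by
    ext P
    simp only [D, Finsupp.smul_apply, Finsupp.mapRange_apply, smul_eq_mul]
    exact (Int.mul_ediv_cancel' (hdvd P)).symm
  have hs : N • cl D = 0 := by
    rw [← map_nsmul, ← natCast_zsmul, ← hD, cl_dv]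
  exact ⟨cl D, hs, (kap_spec hζ hN hs).unique hζ hN ⟨h.out, C.inc f0, D, r, f0.2, rfl, hD, hr, hk⟩⟩

theorem ch_finite (C : Fib Ω) (hN : (N : Ω) ≠ 0) :
    {χ : Au Ω → ZMod N | Ch C.k (C.R0 : Set Ω) χ}.Finite := by
  have : NeZero (N : Ω) := ⟨hN⟩
  have : NeZero N := NeZero.of_neZero_natCast Ω
  obtain ⟨ζ, hζ⟩ := HasEnoughRootsOfUnity.exists_primitiveRoot Ω N
  refine ((C.tors_fin hN).image (C.kap N ζ)).subset fun χ h => ?_
  exact kap_sur hζ hN h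

theorem kum_R (hζ : IsPrimitiveRoot ζ N) (hN : (N : Ω) ≠ 0) (h : Hom (Fix (C.R : Set Ω)) χ)
    (hs : Sm (Fix (C.R : Set Ω)) Set.univ χ) :
    ∃ (f : C.R) (r : Ω), f ≠ 0 ∧ r ^ N = f ∧ Kum ζ (Fix (C.R : Set Ω)) r χ := by
  have hN0 : N ≠ 0 := fun h => hN (by simp [h])
  obtain ⟨r₁, hk₁, hr₁⟩ := kummer_fix hζ hN
    (Subfield.subset_closure (C.R0_le (C.k_le (C.zeta_mem hζ hN)))) h (C.alg ▸ hs)
  exact kum_clear hN0 hk₁ hr₁

/-- an automorphism acting on torsion classes by `n` -/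
theorem ch_eigen (hζ : IsPrimitiveRoot ζ N) (hN : (N : Ω) ≠ 0) {α : Au Ω} (hα : α ∈ C.Nm)
    {q : ℕ} (hq : α ζ = ζ ^ q) {n : ℤ} (hn : ∀ s : Cl C.R, N • s = 0 → C.ac α s = n • s)
    (h : Ch C.k (C.R0 : Set Ω) χ) (σ : Au Ω) : n * χ (α * σ * α⁻¹) = q * χ σ := by
  obtain ⟨s, hs, rfl⟩ := kap_sur hζ hN h
  rw [← kap_conj hζ hN hs hα hq σ, hn s hs, kap_zsmul hζ hN hs]

end Fib

end Pool.Agent.P.MP_ee618e_ag.X
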