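import Pool.Agent.P.MP_ee618e_ag.X.K2

/-! K2b: cup products, inflation, permutation modules. -/

namespace Pool.Agent.P.MP_ee618e_ag.X

open IsDedekindDomain Polynomial
open scoped Classical

variable {Ω : Type} [Field Ω] [IsAlgClosed Ω] {C : Fib Ω} {N : ℕ} {ζ : Ω}

namespace Fib

variable {S : Set Ω} {t : Au Ω → Cl C.R}

theorem cup_coc (hζ : IsPrimitiveRoot ζ N) (hN : (N : Ω) ≠ 0) {G : Subgroup (Au Ω)}
    (hG : G ≤ Fix (C.R0 : Set Ω)) (ht : Hom G t) (h0 : ∀ τ ∈ G, N • t τ = 0) :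
    Coc G (C.cup N ζ t) := by
  intro σ hσ τ hτ ρ hρ
  simp only [cup]
  rw [ht τ hτ ρ hρ, kap_add hζ hN (h0 τ hτ) (h0 ρ hρ), kap_hom hζ hN (h0 ρ hρ) σ (hG hσ) τ (hG hτ)]
  ring

theorem cup_sm2 (hζ : IsPrimitiveRoot ζ N) (hN : (N : Ω) ≠ 0) {G : Subgroup (Au Ω)}
    (hG : G ≤ Fix (C.R0 : Set Ω)) {A : Set Ω} (ht : Sm G A t) (h0 : ∀ τ ∈ G, N • t τ = 0) :
    Sm2 G (C.cup N ζ t) := by
  have := (C.tors_fin hN).to_subtype
  obtain ⟨T, -, hT⟩ := Sm.pi (ι := {x : Cl C.R | N • x = 0}) fun i => kap_sm hζ hN i.2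
  obtain ⟨T', -, hT'⟩ := ht
  refine ⟨T ∪ T', fun σ hσ σ' hσ' τ hτ τ' hτ' e e' => ?_⟩
  simp only [cup]
  rw [← hT' τ hτ τ' hτ' fun x hx => e' x (Finset.mem_union_right _ hx)]
  exact congrFun (hT σ (hG hσ) σ' (hG hσ') fun x hx => e x (Finset.mem_union_left _ hx))
    ⟨t τ, h0 τ hτ⟩

/-- `c σ τ` depends only on the restrictions to `A`; `smb` and `tsen_trans` -/
theorem inf_cob (hS : C.Base S) (hN : (N : Ω) ≠ 0) {c : Au Ω → Au Ω → ZMod N}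
    (hs : Sm2 (C.GG S) c) (hc : Coc (C.GG S) c)
    (h1 : ∀ σ ∈ C.GG S, ∀ h ∈ Fix (C.R : Set Ω), c σ h = 0)
    (h2 : ∀ σ ∈ C.GG S, ∀ h ∈ Fix (C.R : Set Ω), c h σ = 0) : Cob (C.GG S) c := by
  have hH := hS.le_GG
  have hn : ∀ τ ∈ C.GG S, ∀ h ∈ Fix (C.R : Set Ω), τ⁻¹ * h * τ ∈ Fix (C.R : Set Ω) :=
    fun τ hτ h hh => C.Nm_conj (C.G0_le (hS.GG_le hτ)) hh
  have a1 : ∀ σ ∈ C.GG S, ∀ τ ∈ C.GG S, ∀ h ∈ Fix (C.R : Set Ω), c σ (τ * h) = c σ τ := by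
    intro σ hσ τ hτ h hh
    have e := hc σ hσ τ hτ h (hH hh)
    rwa [h1 τ hτ h hh, h1 _ (mul_mem hσ hτ) h hh, zero_add, zero_add] at e
  have a2 : ∀ σ ∈ C.GG S, ∀ τ ∈ C.GG S, ∀ h ∈ Fix (C.R : Set Ω), c (σ * h) τ = c σ τ := by
    intro σ hσ τ hτ h hh
    have e := hc σ hσ h (hH hh) τ hτ
    rw [h2 τ hτ h hh, h1 σ hσ h hh, zero_add, add_zero,
      show h * τ = τ * (τ⁻¹ * h * τ) by group, a1 σ hσ τ hτ _ (hn τ hτ h hh)] at e
    exact e.symm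
  have st : ∀ σ : C.GG S, (σ : Au Ω) ∈ St (C.A : Set Ω) := fun σ => hS.fix_le σ.2.2
  let ρ : C.GG S →* Au C.A :=
    { toFun := fun σ =>
        { toFun := fun x => ⟨σ.1 x, (st σ x).2 x.2⟩
          invFun := fun x => ⟨σ.1.symm x, (st σ⁻¹ x).2 x.2⟩
          left_inv := fun x => Subtype.ext (σ.1.symm_apply_apply x)
          right_inv := fun x => Subtype.ext (σ.1.apply_symm_apply x)
          map_mul' := fun x y => Subtype.ext (map_mul σ.1 _ _)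
          map_add' := fun x y => Subtype.ext (map_add σ.1 _ _) }
      map_one' := rfl
      map_mul' := fun _ _ => rfl }
  have eρ : ∀ (σ : C.GG S) (x : C.A), (ρ σ x : Ω) = σ.1 x := fun _ _ => rfl
  let K : Subfield C.A := C.k.comap C.A.subtype
  let e : C.k ≃+* K :=
    { toFun := fun x => ⟨⟨x, C.kA x.2⟩, x.2⟩
      invFun := fun x => ⟨x.1, x.2⟩
      left_inv := fun _ => rfl
      right_inv := fun _ => rfl
      map_mul' := fun _ _ => rfl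
      map_add' := fun _ _ => rfl }
  have : IsAlgClosed K := IsAlgClosed.of_ringEquiv _ _ e
  refine tsen_trans K (fun x _ hx => ?_) ρ (fun x => ?_) (fun σ x hx => ?_) (fun h => hN ?_)
    (fun T' => ?_) hc ?_
  · exact C.td (fun i => (x i : Ω)) (fun i => (x i).2)
      (hx.ringHom_of_comp_eq (e.symm : K →+* C.k) C.A.subtype e.symm.surjective
        Subtype.val_injective rfl)
  · refine Set.Finite.of_finite_image ((orbit_finite (hS.alg x.2)).subset ?_)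
      Subtype.val_injective.injOn
    rintro _ ⟨y, ⟨_, ⟨σ, rfl⟩, rfl⟩, rfl⟩
    exact ⟨σ, σ.2.2, rfl⟩
  · exact Subtype.ext (C.fix_R0_le σ.2.1 x hx)
  · simpa using congrArg C.A.subtype h
  · refine ⟨T'.image Subtype.val, fun σ τ h x hx => Subtype.ext ?_⟩
    exact h x (Finset.mem_image_of_mem _ hx)
  · obtain ⟨T, hT⟩ := hs
    obtain ⟨T0, h0, hT0⟩ := smb hS.acl_GG (A := (C.A : Set Ω))
      (fun σ hσ => hS.fix_le (fix_anti Set.subset_union_right hσ)) T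
    have key : ∀ σ σ' : C.GG S, Ag (T0.subtype (· ∈ C.A)) (ρ σ) (ρ σ') →
        ∃ h ∈ Fix (C.R : Set Ω), Ag T σ (σ' * h) := by
      intro σ σ' hσ
      obtain ⟨h, hh, eh⟩ := hT0 (σ'⁻¹ * σ : C.GG S) (C.GG_eq S ▸ (σ'⁻¹ * σ).2) fun x hx => by
        have := congrArg Subtype.val (hσ ⟨x, h0 hx⟩ (Finset.mem_subtype.2 hx))
        exact σ'.1.symm_apply_eq.2 this
      refine ⟨h, C.fix_R ▸ ⟨fix_anti Set.subset_union_left hh.1, hh.2⟩, fun x hx => ?_⟩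
      exact σ'.1.symm_apply_eq.1 (eh x hx)
    refine ⟨T0.subtype (· ∈ C.A), fun σ σ' τ τ' e1 e2 => ?_⟩
    obtain ⟨h, hh, eh⟩ := key σ σ' e1
    obtain ⟨h', hh', eh'⟩ := key τ τ' e2
    rw [hT σ σ.2 _ (mul_mem σ'.2 (hH hh)) τ τ.2 _ (mul_mem τ'.2 (hH hh')) eh eh',
      a1 _ (mul_mem σ'.2 (hH hh)) _ τ'.2 h' hh', a2 _ σ'.2 _ τ'.2 h hh]

omit [IsAlgClosed Ω] in
/-- choose a base point `P` in each orbit and put `D₀ (τ P) = a τ (τ P)` -/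
theorem glue {G : Subgroup (Au Ω)} (hG : G ≤ C.Nm) (N : ℕ) (a : Au Ω → Dv C.R)
    (fin : (a '' (G : Set (Au Ω))).Finite)
    (coc : ∀ σ ∈ G, ∀ τ ∈ G, ∃ E, a (σ * τ) = a σ + C.ad σ (a τ) + (N : ℤ) • E)
    (loc : ∀ τ ∈ G, ∀ P, C.ap τ P = P → (N : ℤ) ∣ a τ P) :
    ∃ D₀, ∀ τ ∈ G, ∃ E, a τ = D₀ - C.ad τ D₀ + (N : ℤ) • E := by
  have one : ∀ P, C.ap 1 P = P := ap_fix (one_mem _)
  have inv : ∀ τ ∈ G, ∀ P, C.ap τ⁻¹ (C.ap τ P) = P := fun τ hτ P => by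
    rw [← ap_mul (hG (inv_mem hτ)) (hG hτ), inv_mul_cancel, one]
  let s : Setoid (HeightOneSpectrum C.R) :=
    ⟨fun P Q => ∃ τ ∈ G, C.ap τ P = Q, fun P => ⟨1, one_mem _, one P⟩,
      fun ⟨τ, hτ, e⟩ => ⟨τ⁻¹, inv_mem hτ, e ▸ inv τ hτ _⟩,
      fun ⟨τ, hτ, e⟩ ⟨σ, hσ, e'⟩ => ⟨σ * τ, mul_mem hσ hτ, by rw [ap_mul (hG hσ) (hG hτ), e, e']⟩⟩
  have ex : ∀ P, ∃ τ ∈ G, C.ap τ (Quotient.out (Quotient.mk s P)) = P := fun P =>
    Quotient.mk_out (s := s) P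
  choose g hg eg using ex
  have fs : (Function.support fun P => a (g P) P).Finite := by
    refine (fin.biUnion fun D _ => D.support.finite_toSet).subset fun P hP => ?_
    exact Set.mem_biUnion (Set.mem_image_of_mem a (hg P)) (Finsupp.mem_support_iff.2 hP)
  refine ⟨Finsupp.ofSupportFinite _ fs, fun τ hτ => ?_⟩
  set D₀ := Finsupp.ofSupportFinite _ fs with hD₀
  have eD : ∀ P, D₀ P = a (g P) P := fun P => congrFun Finsupp.ofSupportFinite_coe P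
  have dvd : ∀ Q, (N : ℤ) ∣ (a τ - (D₀ - C.ad τ D₀)) Q := by
    intro Q
    obtain ⟨P, rfl⟩ : ∃ P, C.ap τ P = Q := ⟨C.ap τ⁻¹ Q, by simpa using inv τ⁻¹ (inv_mem hτ) Q⟩
    have e1 : Quotient.mk s (C.ap τ P) = Quotient.mk s P :=
      (Quotient.sound (s := s) ⟨τ, hτ, rfl⟩).symm
    have e2 := eg (C.ap τ P)
    have e3 := eg P
    rw [e1] at e2
    set B := Quotient.out (Quotient.mk s P)
    have hu : (g (C.ap τ P))⁻¹ * (τ * g P) ∈ G := mul_mem (inv_mem (hg _)) (mul_mem hτ (hg _))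
    have e4 : C.ap ((g (C.ap τ P))⁻¹ * (τ * g P)) B = B := by
      rw [ap_mul (hG (inv_mem (hg _))) (hG (mul_mem hτ (hg _))), ap_mul (hG hτ) (hG (hg _)), e3]
      nth_rewrite 2 [← e2]
      exact inv _ (hg _) B
    obtain ⟨E, hE⟩ := coc τ hτ _ (hg P)
    obtain ⟨E', hE'⟩ := coc _ (hg (C.ap τ P)) _ hu
    rw [mul_inv_cancel_left, hE] at hE'
    have e5 := DFunLike.congr_fun hE' (C.ap τ P)
    have e6 := ad_apply (hG (hg (C.ap τ P))) (a ((g (C.ap τ P))⁻¹ * (τ * g P))) B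
    rw [e2] at e6
    obtain ⟨n, hn⟩ := loc _ hu B e4
    simp only [Finsupp.add_apply, Finsupp.smul_apply, smul_eq_mul, ad_apply (hG hτ), e6, hn] at e5
    simp only [Finsupp.sub_apply, ad_apply (hG hτ), eD]
    exact ⟨n + E' (C.ap τ P) - E (C.ap τ P), by linear_combination e5⟩
  refine ⟨(a τ - (D₀ - C.ad τ D₀)).mapRange (· / (N : ℤ)) (Int.zero_ediv _), ?_⟩
  rw [← sub_eq_iff_eq_add']
  ext Q
  rw [Finsupp.smul_apply, Finsupp.mapRange_apply, smul_eq_mul, Int.mul_ediv_cancel' (dvd Q)]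

end Fib

end Pool.Agent.P.MP_ee618e_ag.X
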