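import Pool.Agent.P.MP_ee618e_ag.X.K2b
import Pool.Agent.P.MP_ee618e_ag.X.G3

/-! K3: unramified cocycles on a product are cup products. -/

namespace Pool.Agent.P.MP_ee618e_ag.X

open IsDedekindDomain Polynomial
open scoped Classical

variable {Ω : Type} [Field Ω] [IsAlgClosed Ω] {C : Fib Ω} {N : ℕ} {ζ : Ω} {S : Set Ω}
  {c : Au Ω → Au Ω → ZMod N}

namespace Fib

omit [IsAlgClosed Ω] in
/-- consequences of the normalisation -/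
theorem norm_facts (hS : C.Base S) (hc : Coc (C.GG S) c)
    (h1 : ∀ σ ∈ C.GG S, ∀ h ∈ Fix (C.R : Set Ω), c σ h = 0) :
    (∀ σ ∈ C.GG S, ∀ τ ∈ C.GG S, ∀ h ∈ Fix (C.R : Set Ω), c σ (τ * h) = c σ τ) ∧
    (∀ τ ∈ C.GG S, Hom (Fix (C.R : Set Ω)) fun h => c h τ) ∧
    ∀ σ ∈ C.GG S, ∀ τ ∈ C.GG S, ∀ h ∈ Fix (C.R : Set Ω),
      c h (σ * τ) = c h σ + c (σ⁻¹ * h * σ) τ := by
  have hH := hS.le_GG
  have hn : ∀ τ ∈ C.GG S, ∀ h ∈ Fix (C.R : Set Ω), τ⁻¹ * h * τ ∈ Fix (C.R : Set Ω) :=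
    fun τ hτ h hh => C.Nm_conj (C.G0_le (hS.GG_le hτ)) hh
  have a1 : ∀ σ ∈ C.GG S, ∀ τ ∈ C.GG S, ∀ h ∈ Fix (C.R : Set Ω), c σ (τ * h) = c σ τ := by
    intro σ hσ τ hτ h hh
    have e := hc σ hσ τ hτ h (hH hh)
    rwa [h1 τ hτ h hh, h1 _ (mul_mem hσ hτ) h hh, zero_add, zero_add] at e
  have a2 : ∀ σ ∈ C.GG S, ∀ τ ∈ C.GG S, ∀ h ∈ Fix (C.R : Set Ω), c σ (h * τ) = c σ τ := by
    intro σ hσ τ hτ h hh
    rw [← a1 σ hσ τ hτ _ (hn τ hτ h hh)]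
    congr 1
    group
  refine ⟨a1, fun τ hτ h hh h' hh' => ?_, fun σ hσ τ hτ h hh => ?_⟩
  · have e := hc h (hH hh) h' (hH hh') τ hτ
    rw [a2 h (hH hh) τ hτ h' hh', h1 h (hH hh) h' hh', add_zero] at e
    exact e.symm.trans (add_comm _ _)
  · have e := hc h (hH hh) σ hσ τ hτ
    have e' := hc σ hσ _ (hH (hn σ hσ h hh)) τ hτ
    rw [a2 σ hσ τ hτ _ (hn σ hσ h hh), h1 σ hσ _ (hn σ hσ h hh), add_zero,
      show σ * (σ⁻¹ * h * σ) = h * σ by group] at e'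
    linear_combination e - e'

/-- `O` from `dominate`; by `val_iff` and `pc_conj` replace `τ` by `τ h₁ ∈ St O`. If `c = d β` on
`GG S ⊓ St O` then `c h τ = β h - β (τ⁻¹ h τ)`, which vanishes for `h` in inertia (`tame`);
take `h` from `ram`. -/
theorem k1_loc (hζ : IsPrimitiveRoot ζ N) (hN : (N : Ω) ≠ 0) (hS : C.Base S)
    (hc : Coc (C.GG S) c) (hl : Loc C.k (C.GG S) c)
    (h1 : ∀ σ ∈ C.GG S, ∀ h ∈ Fix (C.R : Set Ω), c σ h = 0) {τ : Au Ω} (hτ : τ ∈ C.GG S)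
    {P : HeightOneSpectrum C.R} (hP : C.ap τ P = P) {f : C.R} {r : Ω} (hf : f ≠ 0)
    (hr : r ^ N = f) (hk : Kum ζ (Fix (C.R : Set Ω)) r fun h => c h τ) : N ∣ ord P f := by
  have N0 : N ≠ 0 := by
    rintro rfl
    exact hN Nat.cast_zero
  have hζk := C.zeta_mem hζ hN
  have hH := hS.le_GG
  have hNm := C.G0_le (hS.GG_le hτ)
  obtain ⟨O, hO, hOP⟩ := dominate (C.R.val : C.R →+* Ω) Subtype.val_injective P.asIdeal
  have hO : ∀ a : C.R, (a : Ω) ∈ O := hO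
  have hOP : ∀ a : C.R, (a : Ω) ∈ O.nonunits ↔ a ∈ P.asIdeal := hOP
  have hk' : (C.k : Set Ω) ⊆ O := fun x hx => hO ⟨x, C.R0_le (C.k_le hx)⟩
  have hO' : O ≠ ⊤ := by
    rintro rfl
    obtain ⟨π, h0, h1⟩ := exists_unif P
    have h2 : π ∈ P.asIdeal := by
      by_contra h3
      rw [(ord_eq_zero h0).2 h3] at h1
      exact zero_ne_one h1
    rcases (ValuationSubring.mem_nonunits_iff_or _).1 ((hOP π).2 h2) with h3 | h3
    · exact h0 (Subtype.ext h3)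
    · exact h3 trivial
  have ho : ∀ a a' : C.R, a ≠ 0 → (a' : Ω) = τ a → a' ≠ 0 ∧ ord P a' = ord P a := by
    intro a a' ha e
    have h0 : a' ≠ 0 := fun h => ha (Subtype.ext (τ.injective (by
      rw [← e, h]
      simp)))
    have e1 := ad_apply hNm (dv a) P
    rw [ad_dv hNm e, hP, dv_apply h0, dv_apply ha] at e1
    exact ⟨h0, by exact_mod_cast e1⟩
  obtain ⟨h₁, hh₁, e₁⟩ := pc_conj C.alg O (O.comap (τ : Ω →+* Ω)) (by
    intro x hx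
    obtain ⟨a, ha, b, hb, b0, rfl⟩ := mem_closure_alg.1 hx
    rw [ValuationSubring.mem_comap]
    rcases eq_or_ne a 0 with rfl | a0
    · simp
    have a0' : (⟨a, ha⟩ : C.R) ≠ 0 := fun h => a0 (congrArg Subtype.val h)
    have b0' : (⟨b, hb⟩ : C.R) ≠ 0 := fun h => b0 (congrArg Subtype.val h)
    obtain ⟨a1, a2⟩ := ho ⟨a, ha⟩ ⟨τ a, (C.Nm_le hNm a).2 ha⟩ a0' rfl
    obtain ⟨b1, b2⟩ := ho ⟨b, hb⟩ ⟨τ b, (C.Nm_le hNm b).2 hb⟩ b0' rfl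
    have k1 := (val_iff hO hOP a0' b0').1
    have k2 := (val_iff hO hOP a1 b1).1
    rw [a2, b2] at k2
    rw [map_div₀]
    exact k1.trans k2.symm)
  have hτ' : τ * h₁ ∈ C.GG S := mul_mem hτ (hH hh₁)
  have hst : τ * h₁ ∈ St (O : Set Ω) := fun x => e₁ x
  obtain ⟨β, hβ, eβ⟩ := hl O hk' hO'
  obtain ⟨h, hh, hi, eh⟩ := ram C.alg hO hOP hζ N0 (C.kA hζk)
  have hh' := C.Nm_conj (C.G0_le (hS.GG_le hτ')) hh
  have hi' := hi.conj hst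
  have hW : Fix (C.R : Set Ω) ⊓ St (O : Set Ω) ≤ C.GG S ⊓ St (O : Set Ω) := inf_le_inf_right _ hH
  have t1 := tame hk' hζ N0 hζk (W := Fix (C.R : Set Ω) ⊓ St (O : Set Ω)) (β := β) hS.fo
    (fun σ hσ => C.fix_R0_le hσ.1) (inf_le_left.trans hH) (fun σ hσ ρ hρ => by
      have e := eβ σ (hW hσ) ρ (hW hρ)
      rw [h1 σ (hH hσ.1) ρ hρ.1] at e
      linear_combination e) (hβ.mono hW subset_rfl) hτ' hst ⟨hh, hi.st⟩ ⟨hh', hi'.st⟩ hi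
  have t2 := eβ h ⟨hH hh, hi.st⟩ _ ⟨hτ', hst⟩
  have t3 := eβ _ ⟨hτ', hst⟩ _ ⟨hH hh', hi'.st⟩
  rw [h1 _ hτ' _ hh', t1, show τ * h₁ * ((τ * h₁)⁻¹ * h * (τ * h₁)) = h * (τ * h₁) by group] at t3
  rw [(norm_facts hS hc h1).1 h (hH hh) τ hτ h₁ hh₁] at t2
  have t4 : c h τ = 0 := by linear_combination t2 - t3
  have t5 := hk.2 h hh
  simp only [t4, ZMod.val_zero, pow_zero] at t5
  rw [eh f r hf hr] at t5
  exact hζ.dvd_of_pow_eq_one _ (mul_right_cancel₀ hk.1 t5)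

/-- Choose `f τ`, `r τ` by `kum_R`, depending only on the character `h ↦ c h τ` on `Fix R` (finitely
many). `r σ σ(r τ) / r (σ τ) ∈ closure R` (`mem_of_pow`), so `glue` applies to `dv (f τ)`. Write
`D₀ = N D₁ + dv a - dv b` (`Dvs`), `ρ ^ N = a / b`; `kap_kum` for `r τ τ(ρ) / ρ`. -/
theorem k1_data (hζ : IsPrimitiveRoot ζ N) (hN : (N : Ω) ≠ 0) (hS : C.Base S) (hd : C.Dvs N)
    (hs : Sm2 (C.GG S) c) (hc : Coc (C.GG S) c) (hl : Loc C.k (C.GG S) c)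
    (h1 : ∀ σ ∈ C.GG S, ∀ h ∈ Fix (C.R : Set Ω), c σ h = 0) :
    ∃ (a b : C.R) (ρ : Ω), a ≠ 0 ∧ b ≠ 0 ∧ ρ ^ N = a / b ∧ ∀ γ : Au Ω → ZMod N,
      Kum ζ (Fix (C.R : Set Ω)) ρ γ → ∀ τ ∈ C.GG S, ∃ s, N • s = 0 ∧
        ∀ h ∈ Fix (C.R : Set Ω), c h τ - (γ h - γ (τ⁻¹ * h * τ)) = C.kap N ζ s h := by
  have N0 : N ≠ 0 := by
    rintro rfl
    exact hN Nat.cast_zero
  have hζk := C.zeta_mem hζ hN
  have hH := hS.le_GG
  have hNm : C.GG S ≤ C.Nm := hS.GG_le.trans C.G0_le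
  obtain ⟨-, n2, n3⟩ := norm_facts hS hc h1
  have tw : ∀ σ ∈ C.GG S, ∀ h ∈ Fix (C.R : Set Ω), ∀ (r : Ω) (χ : Au Ω → ZMod N),
      Kum ζ (Fix (C.R : Set Ω)) r χ → h (σ r) = ζ ^ (χ (σ⁻¹ * h * σ)).val * σ r := by
    intro σ hσ h hh r χ hk
    have e := congrArg σ (hk.2 _ (C.Nm_conj (hNm hσ) hh))
    rw [map_mul, map_pow, C.fix_R0_le hσ.1 ζ hζk, ← au_mul, ← mul_assoc, ← mul_assoc,
      mul_inv_cancel, one_mul] at e
    exact e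
  have tr : ∀ σ ∈ C.GG S, ∀ a : C.R, a ≠ 0 → ∃ a' : C.R, a' ≠ 0 ∧ (a' : Ω) = σ a ∧
      C.ad σ (dv a) = dv a' := fun σ hσ a ha =>
    ⟨⟨σ a, (C.Nm_le (hNm hσ) a).2 a.2⟩, fun h => ha (Subtype.ext (σ.injective (by
      rw [show σ a = 0 from congrArg Subtype.val h]
      simp))), rfl, ad_dv (hNm hσ) rfl⟩
  have ne : ∀ a : C.R, a ≠ 0 → (a : Ω) ≠ 0 := fun a ha h => ha (Subtype.ext h)
  have ex : ∀ χ : Au Ω → ZMod N, ∃ (f : C.R) (r : Ω), Hom (Fix (C.R : Set Ω)) χ →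
      Sm (Fix (C.R : Set Ω)) Set.univ χ → f ≠ 0 ∧ r ^ N = f ∧ Kum ζ (Fix (C.R : Set Ω)) r χ := by
    intro χ
    by_cases h : Hom (Fix (C.R : Set Ω)) χ ∧ Sm (Fix (C.R : Set Ω)) Set.univ χ
    · obtain ⟨f, r, h'⟩ := kum_R hζ hN h.1 h.2
      exact ⟨f, r, fun _ _ => h'⟩
    · exact ⟨0, 0, fun a b => absurd ⟨a, b⟩ h⟩
  choose f r hfr using ex
  let χ : Au Ω → Au Ω → ZMod N := fun τ h => if h ∈ Fix (C.R : Set Ω) then c h τ else 0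
  have eχ : ∀ τ, ∀ h ∈ Fix (C.R : Set Ω), χ τ h = c h τ := fun τ h hh => if_pos hh
  have sp : ∀ τ ∈ C.GG S, f (χ τ) ≠ 0 ∧ r (χ τ) ^ N = f (χ τ) ∧
      Kum ζ (Fix (C.R : Set Ω)) (r (χ τ)) fun h => c h τ := by
    intro τ hτ
    obtain ⟨a1, a2, a3⟩ := hfr (χ τ) (fun h hh h' hh' => by
      rw [eχ τ h hh, eχ τ h' hh', eχ τ _ (mul_mem hh hh')]
      exact n2 τ hτ h hh h' hh')
      (((hs.left hτ).mono hH subset_rfl).congr fun h hh => (eχ τ h hh).symm)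
    exact ⟨a1, a2, a3.1, fun h hh => by rw [a3.2 h hh, eχ τ h hh]⟩
  have sχ : Sm (C.GG S) Set.univ χ := by
    obtain ⟨T, hT⟩ := hs
    refine ⟨T, Set.subset_univ _, fun σ hσ τ hτ e => funext fun h => ?_⟩
    by_cases hh : h ∈ Fix (C.R : Set Ω)
    · rw [eχ σ h hh, eχ τ h hh]
      exact hT h (hH hh) h (hH hh) σ hσ τ hτ (fun _ _ => rfl) e
    · simp only [χ, if_neg hh]
  obtain ⟨D₀, hD⟩ := glue hNm N (fun τ => dv (f (χ τ)))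
    ((sχ.map fun x => dv (f x)).finite_range hS.fo) (fun σ hσ τ hτ => by
      obtain ⟨a1, a2, a3⟩ := sp σ hσ
      obtain ⟨b1, b2, b3⟩ := sp τ hτ
      obtain ⟨c1, c2, c3⟩ := sp _ (mul_mem hσ hτ)
      obtain ⟨g, g1, g2, g3⟩ := tr σ hσ _ b1
      have e0 : (r (χ σ) * σ (r (χ τ)) / r (χ (σ * τ))) ^ N = f (χ σ) * g / f (χ (σ * τ)) := by
        rw [div_pow, mul_pow, ← map_pow, a2, b2, c2, g2]
      have m := mem_of_pow (S := (C.R : Set Ω)) hN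
        (z := r (χ σ) * σ (r (χ τ)) / r (χ (σ * τ))) (fun h hh => by
          rw [map_div₀, map_mul, a3.2 h hh, tw σ hσ h hh _ _ b3, c3.2 h hh]
          simp only [n3 σ hσ τ hτ h hh, pow_val_add hζ N0]
          have z0 := hζ.ne_zero N0
          have := c3.1
          field_simp) (by
          rw [e0]
          exact mem_closure_alg.2 ⟨_, (f (χ σ) * g).2, _, (f (χ (σ * τ))).2, ne _ c1, rfl⟩)
      obtain ⟨u, hu, v, hv, v0, e⟩ := mem_closure_alg.1 m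
      have u0 : u ≠ 0 := by
        rintro rfl
        rw [zero_div] at e
        exact div_ne_zero (mul_ne_zero a3.1 ((map_ne_zero σ).2 b3.1)) c3.1 e
      have u1 : (⟨u, hu⟩ : C.R) ≠ 0 := fun h => u0 (congrArg Subtype.val h)
      have v1 : (⟨v, hv⟩ : C.R) ≠ 0 := fun h => v0 (congrArg Subtype.val h)
      have e1 : (⟨u, hu⟩ : C.R) ^ N * f (χ (σ * τ)) = f (χ σ) * g * ⟨v, hv⟩ ^ N := by
        refine Subtype.ext ?_
        rw [e, div_pow, div_eq_div_iff (pow_ne_zero _ v0) (ne _ c1)] at e0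
        exact e0
      have e2 := congrArg dv e1
      rw [dv_mul (pow_ne_zero _ u1) c1, dv_mul (mul_ne_zero a1 g1) (pow_ne_zero _ v1),
        dv_mul a1 g1, dv_pow u1, dv_pow v1] at e2
      refine ⟨dv ⟨v, hv⟩ - dv ⟨u, hu⟩, ?_⟩
      rw [g3, smul_sub]
      linear_combination (norm := abel1) e2) (fun τ hτ P hP => by
      obtain ⟨a1, a2, a3⟩ := sp τ hτ
      rw [dv_apply a1]
      exact_mod_cast k1_loc hζ hN hS hc hl h1 hτ hP a1 a2 a3)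
  obtain ⟨y, hy⟩ := hd (cl D₀)
  obtain ⟨D₁, rfl⟩ := cl_surj y
  obtain ⟨a, b, a0, b0, eab⟩ := exists_frac (D := D₀ - (N : ℤ) • D₁) (by
    rw [map_sub, map_zsmul, natCast_zsmul, hy, sub_self])
  obtain ⟨ρ, hρ⟩ := IsAlgClosed.exists_pow_nat_eq ((a : Ω) / b) (Nat.pos_of_ne_zero N0)
  refine ⟨a, b, ρ, a0, b0, hρ, fun γ hγ τ hτ => ?_⟩
  obtain ⟨E, hE⟩ := hD τ hτ
  obtain ⟨a1, a2, a3⟩ := sp τ hτ
  obtain ⟨a', a4, a5, a6⟩ := tr τ hτ a a0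
  obtain ⟨b', b4, b5, b6⟩ := tr τ hτ b b0
  obtain ⟨k1, k2⟩ := kap_kum hζ hN (D := E - C.ad τ D₁ + D₁) (a := f (χ τ) * a' * b) (b := b' * a)
    (r := r (χ τ) * τ ρ / ρ) (mul_ne_zero (mul_ne_zero a1 a4) b0) (mul_ne_zero b4 a0) (by
      have e := congrArg (C.ad τ) eab
      rw [ad_sub, ad_sub, ad_zsmul, a6, b6] at e
      rw [dv_mul (mul_ne_zero a1 a4) b0, dv_mul a1 a4, dv_mul b4 a0, hE, smul_add, smul_sub]
      linear_combination (norm := abel1) eab - e) (by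
      have := ne a a0
      have := ne b b0
      have := ne b' b4
      rw [div_pow, mul_pow, ← map_pow, a2, hρ, map_div₀, ← a5, ← b5]
      push_cast
      field_simp)
  refine ⟨_, k1, fun h hh => ?_⟩
  have e := k2.2 h hh
  rw [map_div₀, map_mul, a3.2 h hh, tw τ hτ h hh _ _ hγ, hγ.2 h hh] at e
  have z0 := hζ.ne_zero N0
  have := hγ.1
  have := a3.1
  have := (map_ne_zero τ).2 hγ.1
  have e' : ζ ^ (c h τ + γ (τ⁻¹ * h * τ)).val =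
      ζ ^ (C.kap N ζ (cl (E - C.ad τ D₁ + D₁)) h + γ h).val := by
    rw [pow_val_add hζ N0, pow_val_add hζ N0]
    field_simp at e
    linear_combination e
  linear_combination pow_val_inj hζ N0 e'

end Fib

end Pool.Agent.P.MP_ee618e_ag.X
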