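import Pool.Agent.P.MP_ee618e_ag.X.K3

/-! K3b: unramified cocycles on a product are cup products, conclusion. -/

namespace Pool.Agent.P.MP_ee618e_ag.X

open IsDedekindDomain Polynomial
open scoped Classical

variable {Ω : Type} [Field Ω] [IsAlgClosed Ω] {C : Fib Ω} {N : ℕ} {ζ : Ω} {S : Set Ω}
  {c : Au Ω → Au Ω → ZMod N}

namespace Fib

/-- `exists_kum` on the open subgroup `GG S ⊓ Fix {a, b}`, `exists_gamma` -/
theorem gamma (hζ : IsPrimitiveRoot ζ N) (hN : (N : Ω) ≠ 0) (hS : C.Base S) {a b : C.R} {ρ : Ω}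
    (ha : a ≠ 0) (hb : b ≠ 0) (hρ : ρ ^ N = a / b) : ∃ γ : Au Ω → ZMod N,
      Sm (C.GG S) Set.univ γ ∧ Kum ζ (Fix (C.R : Set Ω)) ρ γ ∧
      ∀ σ ∈ C.GG S, ∀ h ∈ Fix (C.R : Set Ω), γ (σ * h) = γ σ + γ h := by
  have N0 : N ≠ 0 := by
    rintro rfl
    exact hN Nat.cast_zero
  have hζk := C.zeta_mem hζ hN
  have a0 : (a : Ω) ≠ 0 := fun h => ha (Subtype.ext h)
  have b0 : (b : Ω) ≠ 0 := fun h => hb (Subtype.ext h)
  have ρ0 : ρ ≠ 0 := by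
    rintro rfl
    rw [zero_pow N0] at hρ
    exact div_ne_zero a0 b0 hρ.symm
  let T : Finset Ω := {(a : Ω), (b : Ω)}
  have hW : Fix (C.R : Set Ω) ≤ C.GG S ⊓ Fix (T : Set Ω) := by
    refine le_inf hS.le_GG (fix_anti ?_)
    intro x hx
    simp only [T, Finset.coe_insert, Finset.coe_singleton, Set.mem_insert_iff,
      Set.mem_singleton_iff] at hx
    rcases hx with rfl | rfl
    · exact a.2
    · exact b.2
  obtain ⟨χ, -, hχ⟩ := exists_kum (G := C.GG S ⊓ Fix (T : Set Ω)) hζ N0 ρ0 (fun σ hσ => by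
    rw [hρ, map_div₀, hσ.2 a (by simp [T]), hσ.2 b (by simp [T])])
  obtain ⟨γ, s1, g1, g2⟩ := exists_gamma hS.fo T (W := C.GG S ⊓ Fix (T : Set Ω)) inf_le_left le_rfl
    (Kum.hom (G := C.GG S ⊓ Fix (T : Set Ω)) hζ N0 (fun σ hσ => C.fix_R0_le hσ.1.1 ζ hζk) hχ)
    (hχ.sm hζ N0 (Set.mem_univ ρ))
  have e : ∀ h ∈ Fix (C.R : Set Ω), γ h = χ h := fun h hh => by
    have := g2 1 (one_mem _) h (hW hh)
    rwa [one_mul, g1, zero_add] at this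
  exact ⟨γ, s1, ⟨ρ0, fun h hh => by rw [e h hh, hχ.2 h (hW hh)]⟩,
    fun σ hσ h hh => by rw [e h hh, g2 σ hσ h (hW hh)]⟩

/-- `kap_inj`, `inf_cob` for `c - cup t` -/
theorem k1_cup (hζ : IsPrimitiveRoot ζ N) (hN : (N : Ω) ≠ 0) (hS : C.Base S)
    (hs : Sm2 (C.GG S) c) (hc : Coc (C.GG S) c)
    (h1 : ∀ σ ∈ C.GG S, ∀ h ∈ Fix (C.R : Set Ω), c σ h = 0)
    (h2 : ∀ τ ∈ C.GG S, ∃ s, N • s = 0 ∧ ∀ h ∈ Fix (C.R : Set Ω), c h τ = C.kap N ζ s h) :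
    ∃ t : Au Ω → Cl C.R, Hom (C.GG S) t ∧ Sm (C.GG S) Set.univ t ∧ (∀ τ ∈ C.GG S, N • t τ = 0) ∧
      (∀ h ∈ Fix (C.R : Set Ω), t h = 0) ∧ Cob (C.GG S) fun σ τ => c σ τ - C.cup N ζ t σ τ := by
  have hH := hS.le_GG
  have hG : C.GG S ≤ Fix (C.R0 : Set Ω) := inf_le_left
  obtain ⟨-, -, n3⟩ := norm_facts hS hc h1
  choose! t t0 ht using h2
  have hom : Hom (C.GG S) t := fun σ hσ τ hτ => by
    refine kap_inj hζ hN (t0 _ (mul_mem hσ hτ)) (by rw [nsmul_add, t0 σ hσ, t0 τ hτ, add_zero])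
      fun h hh => ?_
    rw [← ht _ (mul_mem hσ hτ) h hh, n3 σ hσ τ hτ h hh, kap_add hζ hN (t0 σ hσ) (t0 τ hτ),
      ht σ hσ h hh, ht τ hτ _ (C.Nm_conj (C.G0_le (hS.GG_le hσ)) hh),
      (kap_hom hζ hN (t0 τ hτ)).conj (hG (hH hh)) (hG hσ)]
  have sm : Sm (C.GG S) Set.univ t := by
    obtain ⟨T, hT⟩ := hs
    refine ⟨T, Set.subset_univ _, fun σ hσ τ hτ e =>
      kap_inj hζ hN (t0 σ hσ) (t0 τ hτ) fun h hh => ?_⟩
    rw [← ht σ hσ h hh, ← ht τ hτ h hh]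
    exact hT h (hH hh) h (hH hh) σ hσ τ hτ (fun _ _ => rfl) e
  have z : ∀ h ∈ Fix (C.R : Set Ω), t h = 0 := fun h hh =>
    kap_inj hζ hN (t0 h (hH hh)) (nsmul_zero _) fun h' hh' => by
      rw [← ht h (hH hh) h' hh', h1 h' (hH hh') h hh, kap_zero hζ hN]
  refine ⟨t, hom, sm, t0, z, inf_cob hS hN (hs.map₂ (cup_sm2 hζ hN hG sm t0) fun x y => x - y)
    (hc.sub (cup_coc hζ hN hG hom t0)) (fun σ hσ h hh => ?_) fun σ hσ h hh => ?_⟩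
  · rw [h1 σ hσ h hh, cup, z h hh, kap_zero hζ hN, sub_zero]
  · rw [ht σ hσ h hh, cup, sub_self]

/-- `tsen` on `Fix R`, `hs_normal`, `k1_data`, `gamma`, `k1_cup` -/
theorem k1 (hζ : IsPrimitiveRoot ζ N) (hN : (N : Ω) ≠ 0) (hS : C.Base S) (hd : C.Dvs N)
    (hs : Sm2 (C.GG S) c) (hc : Coc (C.GG S) c) (hl : Loc C.k (C.GG S) c) :
    ∃ t : Au Ω → Cl C.R, Hom (C.GG S) t ∧ Sm (C.GG S) Set.univ t ∧ (∀ τ ∈ C.GG S, N • t τ = 0) ∧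
      (∀ h ∈ Fix (C.R : Set Ω), t h = 0) ∧ Cob (C.GG S) fun σ τ => c σ τ - C.cup N ζ t σ τ := by
  have hH := hS.le_GG
  have hn : ∀ τ ∈ C.GG S, ∀ h ∈ Fix (C.R : Set Ω), τ⁻¹ * h * τ ∈ Fix (C.R : Set Ω) :=
    fun τ hτ h hh => C.Nm_conj (C.G0_le (hS.GG_le hτ)) hh
  have d2 : ∀ β : Au Ω → ZMod N, Sm (C.GG S) Set.univ β →
      Sm2 (C.GG S) fun σ τ => β σ + β τ - β (σ * τ) := fun β hβ =>
    (hβ.sm2 hβ fun x y => x + y).map₂ (hβ.sm2_mul hS.fo) fun x y => x - y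
  obtain ⟨β, sβ, eβ⟩ := hs_normal hS.fo hH hn hs hc
    (tsen C.A C.td1 C.fo_R (fix_anti fun x hx => C.A_le hx) hN (hs.mono hH) (hc.mono hH))
  have s1 := hs.map₂ (d2 β sβ) fun x y => x - y
  have c1 := hc.sub (coc_d β)
  have h1 : ∀ σ ∈ C.GG S, ∀ h ∈ Fix (C.R : Set Ω), c σ h - (β σ + β h - β (σ * h)) = 0 :=
    fun σ hσ h hh => by rw [eβ σ hσ h hh, sub_self]
  obtain ⟨a, b, ρ, a0, b0, hρ, hk⟩ := k1_data hζ hN hS hd s1 c1 (fun O hO hO' =>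
    (hl O hO hO').sub ⟨β, sβ.mono inf_le_left subset_rfl, fun _ _ _ _ => rfl⟩) h1
  obtain ⟨γ, sγ, kγ, eγ⟩ := gamma hζ hN hS a0 b0 hρ
  obtain ⟨t, t1, t2, t3, t4, t5⟩ := k1_cup hζ hN hS (s1.map₂ (d2 γ sγ) fun x y => x - y)
    (c1.sub (coc_d γ)) (fun σ hσ h hh => by
      rw [h1 σ hσ h hh, eγ σ hσ h hh, sub_self, sub_self]) (fun τ hτ => by
      obtain ⟨s, s0, es⟩ := hk γ kγ τ hτ
      refine ⟨s, s0, fun h hh => ?_⟩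
      have e := eγ τ hτ _ (hn τ hτ h hh)
      rw [show τ * (τ⁻¹ * h * τ) = h * τ by group] at e
      rw [← es h hh, e]
      ring)
  refine ⟨t, t1, t2, t3, t4, ((t5.add (⟨β, sβ, fun _ _ _ _ => rfl⟩ :
    Cob (C.GG S) fun σ τ => β σ + β τ - β (σ * τ))).add (⟨γ, sγ, fun _ _ _ _ => rfl⟩ :
    Cob (C.GG S) fun σ τ => γ σ + γ τ - γ (σ * τ))).congr fun σ _ τ _ => ?_⟩
  ring

end Fib

end Pool.Agent.P.MP_ee618e_ag.X
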