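import Pool.Agent.P.MP_ee618e_ag.X.K3b

/-! K4: the character is unramified; the kernel of the cup product. -/

namespace Pool.Agent.P.MP_ee618e_ag.X

open IsDedekindDomain Polynomial
open scoped Classical

variable {Ω : Type} [Field Ω] [IsAlgClosed Ω] {C : Fib Ω} {N : ℕ} {ζ : Ω} {S : Set Ω}
  {t : Au Ω → Cl C.R}

namespace Fib

/-- By `pc_res'` the residue of `r` is fixed by all automorphisms over the residues of
`closure R0`; `res_closure`, `mem_of_pow` in the residue field give `f = g ^ N`, `g ∈ closure R0`. -/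
theorem res_kap (hζ : IsPrimitiveRoot ζ N) (hN : (N : Ω) ≠ 0) {O : ValuationSubring Ω}
    (h0 : (Subfield.closure (C.R0 : Set Ω) : Set Ω) ⊆ O)
    (h1 : ∀ x ∈ Subfield.closure (C.R : Set Ω), x ∈ O →
      ∃ g ∈ Subfield.closure (C.R0 : Set Ω), x - g ∈ O.nonunits) {s : Cl C.R} (hs : N • s = 0)
    (h : ∀ σ ∈ Fix (C.R : Set Ω) ⊓ St (O : Set Ω), C.kap N ζ s σ = 0) : s = 0 := by
  have hN' : N ≠ 0 := by
    rintro rfl
    simp at hN
  obtain ⟨-, f, D, r, hf, -, -, hr, hr0, hk⟩ := kap_spec (C := C) hζ hN hs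
  have hR0 : Fix (C.R : Set Ω) ≤ Fix (C.R0 : Set Ω) := fix_anti fun x hx => C.R0_le hx
  have hfK : (f : Ω) ∈ Subfield.closure (C.R0 : Set Ω) := Subfield.subset_closure hf
  have hf0 : (f : Ω) ≠ 0 := by
    rw [← hr]
    exact pow_ne_zero _ hr0
  have hfO : (f : Ω) ∈ O := h0 hfK
  have hfu : (f : Ω) ∉ O.nonunits := not_nonunit h0 hfK hf0
  obtain ⟨hrO, -⟩ := unit_of_pow (O := O) (u := r) hN' (by rw [hr]; exact hfO)
    (by rw [hr]; exact hfu)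
  have := rf_algClosed O
  have hNr : (N : Rf O) ≠ 0 := by
    have e1 : res O (N : Ω) = (N : Rf O) := by
      unfold res
      rw [dif_pos (natCast_mem O N),
        show (⟨(N : Ω), natCast_mem O N⟩ : O) = (N : O) from Subtype.ext (by simp)]
      simp
    have e2 : res O (0 : Ω) = 0 := by
      unfold res
      rw [dif_pos O.zero_mem]
      exact map_zero (IsLocalRing.residue O)
    intro hz
    have e3 : res O (N : Ω) = res O 0 := by rw [e1, e2, hz]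
    rw [res_eq_iff (natCast_mem O N) O.zero_mem, sub_zero] at e3
    exact not_nonunit h0 (natCast_mem _ N) hN e3
  have hmem : res O r ∈ Subfield.closure
      (res O '' ((Subfield.closure (C.R : Set Ω) : Set Ω) ∩ O)) := by
    refine mem_of_pow hNr ?_ ?_
    · intro e he
      obtain ⟨τ, hτ, hτe⟩ := pc_res' C.alg O e he
      have e1 : τ r = r := by
        rw [hk τ (hR0 hτ.1), h τ hτ]
        simp
      rw [← hτe r hrO, e1]
    · rw [← res_pow hrO, hr]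
      exact Subfield.subset_closure ⟨f, ⟨Subfield.subset_closure f.2, hfO⟩, rfl⟩
  have hmem' : res O r ∈ res O '' ((Subfield.closure (C.R : Set Ω) : Set Ω) ∩ O) := by
    rw [← res_closure]
    exact hmem
  obtain ⟨x, ⟨hx, hxO⟩, hxr⟩ := hmem'
  obtain ⟨g, hg, hxg⟩ := h1 x hx hxO
  have hgO : g ∈ O := h0 hg
  have e1 : res O r = res O g := by
    rw [← hxr]
    exact (res_eq_iff hxO hgO).2 hxg
  have e2 : res O (f : Ω) = res O (g ^ N) := by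
    rw [← hr, res_pow hrO, res_pow hgO, e1]
  rw [res_eq_iff hfO (pow_mem hgO N)] at e2
  have e3 : (f : Ω) - g ^ N = 0 := by
    by_contra hne
    exact not_nonunit h0 (sub_mem hfK (pow_mem hg N)) hne e2
  have e4 : (f : Ω) = g ^ N := sub_eq_zero.1 e3
  have hg0 : g ≠ 0 := by
    rintro rfl
    rw [zero_pow hN'] at e4
    exact hf0 e4
  have e5 : (r / g) ^ N = 1 := by
    rw [div_pow, hr, e4, div_self (pow_ne_zero _ hg0)]
  have e6 : r / g ∈ C.k := root_mem C.k (Nat.pos_of_ne_zero hN') C.k.one_mem e5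
  have e7 : r ∈ Subfield.closure (C.R0 : Set Ω) := by
    have e8 := mul_mem (Subfield.subset_closure (C.k_le e6) :
      r / g ∈ Subfield.closure (C.R0 : Set Ω)) hg
    rwa [div_mul_cancel₀ _ hg0] at e8
  refine kap_inj hζ hN hs (nsmul_zero N) fun σ hσ => ?_
  rw [kap_zero hζ hN]
  have e8 : σ ∈ Fix (Subfield.closure (C.R0 : Set Ω) : Set Ω) := by
    rw [fix_closure]
    exact hR0 hσ
  have e9 := hk σ (hR0 hσ)
  rw [e8 r e7] at e9
  refine pow_val_inj hζ hN' ?_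
  rw [ZMod.val_zero, pow_zero]
  exact (mul_eq_right₀ hr0).1 e9.symm

/-- `kap (t τ) h = β h - β (τ⁻¹ h τ)`; the Kummer generator `ρ` of `β` on `Fix R ⊓ St O` can be
taken a unit; then `τ ρ / ρ ≡ 1` and `unit_root` applies -/
theorem vert (hζ : IsPrimitiveRoot ζ N) (hN : (N : Ω) ≠ 0) (hS : C.Base S)
    {O : ValuationSubring Ω} (h0 : (Subfield.closure (C.R0 : Set Ω) : Set Ω) ⊆ O)
    (h1 : ∀ x ∈ Subfield.closure (C.R : Set Ω), x ∈ O →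
      ∃ g ∈ Subfield.closure (C.R0 : Set Ω), x - g ∈ O.nonunits)
    (h2 : ∀ z : Ω, z ≠ 0 → ∃ a ∈ C.A, a ≠ 0 ∧ z / a ∈ O ∧ z / a ∉ O.nonunits)
    (hN0 : ∀ τ ∈ C.GG S, N • t τ = 0) (hH : ∀ h ∈ Fix (C.R : Set Ω), t h = 0)
    (hb : Cob (C.GG S ⊓ St (O : Set Ω)) (C.cup N ζ t)) {τ : Au Ω} (hτ : τ ∈ C.GG S)
    (hi : Ine O τ) : t τ = 0 := by
  have hN' : N ≠ 0 := by
    rintro rfl
    simp at hN
  obtain ⟨β, hβs, hβ⟩ := hb
  have hW : Fix (C.R : Set Ω) ⊓ St (O : Set Ω) ≤ C.GG S ⊓ St (O : Set Ω) :=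
    inf_le_inf_right _ hS.le_GG
  have hadd : ∀ σ ∈ C.GG S ⊓ St (O : Set Ω), ∀ h ∈ Fix (C.R : Set Ω) ⊓ St (O : Set Ω),
      β (σ * h) = β σ + β h := by
    intro σ hσ h hh
    have e := hβ σ hσ h (hW hh)
    unfold cup at e
    rw [hH h hh.1, kap_zero hζ hN] at e
    exact (sub_eq_zero.1 e.symm).symm
  have hτ' : τ ∈ C.GG S ⊓ St (O : Set Ω) := ⟨hτ, hi.st⟩
  have hζk : ζ ∈ C.k := C.zeta_mem hζ hN
  have hfz : ∀ σ ∈ C.GG S, σ ζ = ζ := fun σ hσ => C.fix_R0_le hσ.1 ζ hζk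
  have hkO : (C.k : Set Ω) ⊆ O := fun x hx => h0 (Subfield.subset_closure (C.k_le hx))
  obtain ⟨r, hr0, hr⟩ := kummer (G := Fix (C.R : Set Ω) ⊓ St (O : Set Ω)) hζ hN'
    (fun σ hσ => hfz σ (hW hσ).1) (A := Set.univ)
    (fun x _ => (C.fo_R.mono inf_le_left) x) (fun σ hσ h hh => hadd σ (hW hσ) h hh)
    (hβs.mono hW subset_rfl)
  obtain ⟨a, ha, ha0, hρO, hρu⟩ := h2 r hr0
  have hρ : ∀ h ∈ Fix (C.R : Set Ω) ⊓ St (O : Set Ω), h (r / a) = ζ ^ (β h).val * (r / a) := by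
    intro h hh
    rw [map_div₀, hr h hh, hh.1 a (C.A_le ha), mul_div_assoc]
  refine res_kap hζ hN h0 h1 (hN0 τ hτ) fun h hh => ?_
  have hh' : τ⁻¹ * h * τ ∈ Fix (C.R : Set Ω) ⊓ St (O : Set Ω) :=
    ⟨C.Nm_conj (C.G0_le (hS.GG_le hτ)) hh.1,
      (St (O : Set Ω)).mul_mem ((St (O : Set Ω)).mul_mem ((St (O : Set Ω)).inv_mem hi.st) hh.2)
        hi.st⟩
  have e0 : h * τ = τ * (τ⁻¹ * h * τ) := by group
  have e1 := hβ h (hW hh) τ hτ'
  unfold cup at e1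
  rw [e0, hadd τ hτ' _ hh'] at e1
  have e2 : β (τ⁻¹ * h * τ) = β h := by
    refine pow_val_inj hζ hN' ?_
    by_contra hne
    have hk' : ζ ^ (β (τ⁻¹ * h * τ)).val - ζ ^ (β h).val ∈ C.k :=
      sub_mem (pow_mem hζk _) (pow_mem hζk _)
    refine not_nonunit hkO hk' (sub_ne_zero.2 hne) ?_
    have a1 : τ (r / a) - r / a ∈ O.nonunits := hi _ hρO
    have a2 : h (τ (r / a) - r / a) ∈ O.nonunits := (nonunits_st hh.2 _).2 a1
    have a3 : h (τ (r / a)) = ζ ^ (β (τ⁻¹ * h * τ)).val * τ (r / a) := by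
      rw [← au_mul, e0, au_mul, hρ _ hh', map_mul, map_pow, hfz τ hτ]
    rw [map_sub, a3, hρ h hh] at a2
    rw [ValuationSubring.mem_nonunits_iff] at a1 a2 hρu ⊢
    have a4 : O.valuation (r / a) = 1 :=
      le_antisymm ((O.valuation_le_one_iff _).2 hρO) (not_lt.1 hρu)
    have a5 : O.valuation (ζ ^ (β (τ⁻¹ * h * τ)).val) ≤ 1 :=
      (O.valuation_le_one_iff _).2 (hkO (pow_mem hζk _))
    have a6 : O.valuation (ζ ^ (β (τ⁻¹ * h * τ)).val * (τ (r / a) - r / a)) < 1 := by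
      rw [map_mul]
      exact lt_of_le_of_lt (mul_le_of_le_one_left' a5) a1
    have a7 := O.valuation.map_sub_lt a2 a6
    rw [show ζ ^ (β (τ⁻¹ * h * τ)).val * τ (r / a) - ζ ^ (β h).val * (r / a) -
      ζ ^ (β (τ⁻¹ * h * τ)).val * (τ (r / a) - r / a) =
      (ζ ^ (β (τ⁻¹ * h * τ)).val - ζ ^ (β h).val) * (r / a) by ring, map_mul, a4, mul_one] at a7
    exact a7
  rw [e1, e2]
  ring

/-- `t' σ = t σ'` with `σ'` from `surj`; `smb`; if `A ⊆ O'` inertia acts trivially on `A`,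
otherwise `gauss`, `pc_ine`, `vert` -/
theorem extb (hζ : IsPrimitiveRoot ζ N) (hN : (N : Ω) ≠ 0) (hS : C.Base S)
    (ht : Hom (C.GG S) t) (hs : Sm (C.GG S) Set.univ t) (hN0 : ∀ τ ∈ C.GG S, N • t τ = 0)
    (hH : ∀ h ∈ Fix (C.R : Set Ω), t h = 0) (hl : Loc C.k (C.GG S) (C.cup N ζ t)) :
    ∃ t', Ch C.k S t' ∧ (∀ τ, N • t' τ = 0) ∧ ∀ τ ∈ C.GG S, t' τ = t τ := by
  have key : ∀ σ : Au Ω, σ ∈ Fix S → ∃ σ' ∈ C.GG S, ∀ a ∈ C.A, σ' a = σ a := by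
    intro σ hσ
    obtain ⟨σ', h1, h2⟩ := C.surj (hS.fix_le hσ) (fix_anti hS.kS hσ)
    exact ⟨σ', ⟨h1.1, fun x hx => (h2 x (hS.SA hx)).trans (hσ x hx)⟩, h2⟩
  choose l hl1 hl2 using key
  have same : ∀ σ ∈ C.GG S, ∀ τ ∈ C.GG S, (∀ a ∈ C.A, σ a = τ a) → t σ = t τ := by
    intro σ hσ τ hτ e
    have h1 : σ⁻¹ * τ ∈ C.GG S := mul_mem (inv_mem hσ) hτ
    have h2 : σ⁻¹ * τ ∈ Fix (C.R : Set Ω) := by
      rw [C.fix_R]
      refine ⟨h1.1, fun a ha => ?_⟩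
      rw [au_mul, ← e a ha, au_inv, RingEquiv.symm_apply_apply]
    have h3 := ht σ hσ _ h1
    rw [mul_inv_cancel_left, hH _ h2, add_zero] at h3
    exact h3.symm
  obtain ⟨t', ht'⟩ : ∃ t' : Au Ω → Cl C.R, t' = fun σ =>
    if h : σ ∈ Fix S then t (l σ h) else 0 := ⟨_, rfl⟩
  have spec : ∀ σ ∈ Fix S, ∀ σ' ∈ C.GG S, (∀ a ∈ C.A, σ' a = σ a) → t' σ = t σ' := by
    intro σ hσ σ' hσ' e
    rw [ht']
    simp only [dif_pos hσ]
    exact same _ (hl1 σ hσ) _ hσ' fun a ha => (hl2 σ hσ a ha).trans (e a ha).symm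
  have out : ∀ σ ∉ Fix S, t' σ = 0 := by
    intro σ hσ
    rw [ht']
    simp only [dif_neg hσ]
  refine ⟨t', ⟨?_, ?_, out, ?_⟩, ?_, fun τ hτ => spec τ hτ.2 τ hτ fun _ _ => rfl⟩
  · intro σ hσ τ hτ
    rw [spec σ hσ _ (hl1 σ hσ) (hl2 σ hσ), spec τ hτ _ (hl1 τ hτ) (hl2 τ hτ),
      ← ht _ (hl1 σ hσ) _ (hl1 τ hτ)]
    refine spec _ (mul_mem hσ hτ) _ (mul_mem (hl1 σ hσ) (hl1 τ hτ)) fun a ha => ?_
    rw [au_mul, au_mul, hl2 τ hτ a ha]
    exact hl2 σ hσ _ ((hS.fix_le hτ a).2 ha)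
  · obtain ⟨T, -, hT⟩ := hs
    obtain ⟨T0, hT0, hT1⟩ := smb (A := (C.A : Set Ω)) hS.acl_GG
      (by rw [← C.GG_eq]; exact fun σ hσ => (hS.GG_le hσ).2) T
    rw [← C.GG_eq] at hT1
    refine ⟨T0, by rw [hS.acl]; exact hT0, fun σ hσ τ hτ e => ?_⟩
    rw [spec σ hσ _ (hl1 σ hσ) (hl2 σ hσ), spec τ hτ _ (hl1 τ hτ) (hl2 τ hτ)]
    have h1 : (l τ hτ)⁻¹ * l σ hσ ∈ C.GG S := mul_mem (inv_mem (hl1 τ hτ)) (hl1 σ hσ)
    obtain ⟨h, hh, hAg⟩ := hT1 _ h1 fun x hx => by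
      rw [au_mul, hl2 σ hσ x (hT0 hx), e x hx, ← hl2 τ hτ x (hT0 hx), au_inv,
        RingEquiv.symm_apply_apply]
      rfl
    have h2 : h ∈ Fix (C.R : Set Ω) := by
      rw [C.fix_R]
      exact ⟨hh.1.1, hh.2⟩
    have h3 := ht _ (hl1 τ hτ) _ h1
    rw [mul_inv_cancel_left, hT _ h1 h hh.1 hAg, hH h h2, add_zero] at h3
    exact h3
  · intro O' hk σ hσ hi
    by_cases hA : (C.A : Set Ω) ⊆ O'
    · rw [spec σ hσ 1 (one_mem _) fun a ha => ?_]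
      · exact ht.one
      · by_contra hne
        refine not_nonunit hA (sub_mem ((hS.fix_le hσ a).2 ha) ha)
          (sub_ne_zero.2 fun e => hne e.symm) (hi a (hA ha))
    · obtain ⟨O, h0, hO, hg, h1, h2⟩ := C.gauss O' hk hA
      have hG := hS.GG_le (hl1 σ hσ)
      obtain ⟨τ, hτ, hi'⟩ := pc_ine C.alg O (st_closure (C.Nm_le (C.G0_le hG)))
        (hg _ hG fun a ha ha' => by
          rw [hl2 σ hσ a ha]
          exact hi a ha')
      have hkO : (C.k : Set Ω) ⊆ O := fun x hx => h0 (Subfield.subset_closure (C.k_le hx))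
      have h3 := vert hζ hN hS h0 h1 h2 hN0 hH (hl O hkO hO)
        (mul_mem (hl1 σ hσ) (hS.le_GG hτ)) hi'
      rw [ht _ (hl1 σ hσ) _ (hS.le_GG hτ), hH τ hτ, add_zero] at h3
      rw [spec σ hσ _ (hl1 σ hσ) (hl2 σ hσ), h3]
  · intro τ
    by_cases hτ : τ ∈ Fix S
    · rw [spec τ hτ _ (hl1 τ hτ) (hl2 τ hτ)]
      exact hN0 _ (hl1 τ hτ)
    · rw [out τ hτ, nsmul_zero]

theorem k1' (hζ : IsPrimitiveRoot ζ N) (hN : (N : Ω) ≠ 0) (hS : C.Base S) (hd : C.Dvs N)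
    {c : Au Ω → Au Ω → ZMod N} (hs : Sm2 (C.GG S) c) (hc : Coc (C.GG S) c)
    (hl : Loc C.k (C.GG S) c) : ∃ t : Au Ω → Cl C.R, Ch C.k S t ∧ (∀ τ, N • t τ = 0) ∧
      Cob (C.GG S) fun σ τ => c σ τ - C.cup N ζ t σ τ := by
  obtain ⟨t, ht, hs', hN0, hH, hb⟩ := k1 hζ hN hS hd hs hc hl
  have hl' : Loc C.k (C.GG S) (C.cup N ζ t) := fun O hk hO =>
    ((hl O hk hO).sub (hb.mono inf_le_left)).congr fun σ _ τ _ => sub_sub_cancel _ _
  obtain ⟨t', h1, h2, h3⟩ := extb hζ hN hS ht hs' hN0 hH hl'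
  refine ⟨t', h1, h2, hb.congr fun σ _ τ hτ => ?_⟩
  unfold cup
  rw [h3 τ hτ]

end Fib

end Pool.Agent.P.MP_ee618e_ag.X
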