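import Pool.Agent.P.MP_ee618e_ag.X.Defs

/-! LA1: operations which preserve `Gen`. -/

namespace Pool.Agent.P.MP_ee618e_ag.X

open IsDedekindDomain Polynomial
open scoped Classical

variable {I Λ : Type} [Field Λ] {φ : I → I} {q : Λ} {U : Fin 4 → Set (I → Λ)}
  {Coh : Ten (Fin 2) I Λ → Ten (Fin 2) I Λ → Prop}

variable (φ U) in
/-- eigenvectors in the union of the `U i` -/
def Ev (π : Λ) : Set (I → Λ) := {u | u ∈ ⋃ i, U i ∧ ∀ z, u (φ z) = π * u z}

/-- pure tensors -/
def pure {J : Type} [Fintype J] (u : J → I → Λ) : Ten J I Λ := fun z => ∏ j, u j (z j)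

variable (φ q U Coh) in
/-- all pure tensors of eigenvectors with eigenvalues `π j` are in `Gen` -/
def Good {J : Type} [Fintype J] (π : J → Λ) : Prop :=
  ∀ u : J → I → Λ, (∀ j, u j ∈ Ev φ U (π j)) → Gen φ q U Coh J (pure u)

theorem alg_span {J : Type} {s : Set (Ten J I Λ)} (h : ∀ t ∈ s, Gen φ q U Coh J t) {t : Ten J I Λ}
    (ht : t ∈ Submodule.span Λ s) : Gen φ q U Coh J t := by
  induction ht using Submodule.span_induction with
  | mem x hx => exact h x hx
  | zero => exact Gen.zero J
  | add x y _ _ hx hy => exact Gen.add hx hy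
  | smul c x _ hx => exact Gen.smul c hx

theorem Good.perm {J J' : Type} [Fintype J] [Fintype J'] {π : J → Λ} (h : Good φ q U Coh π)
    (e : J' ≃ J) : Good φ q U Coh (π ∘ e) := by
  intro u hu
  have h1 := Gen.perm e.symm (h (fun j => u (e.symm j)) fun j => by simpa using hu (e.symm j))
  convert h1 using 1
  funext z
  exact (Equiv.prod_comp e.symm fun j => u j (z j)).symm

theorem good_empty {J : Type} [Fintype J] [IsEmpty J] (π : J → Λ) : Good φ q U Coh π := by
  intro u _
  have h1 := Gen.perm (Equiv.equivOfIsEmpty Empty J) (Gen.one (φ := φ) (q := q) (U := U) (Coh := Coh))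
  convert h1 using 1
  funext z
  simp [pure]

theorem Good.mul {J J' : Type} [Fintype J] [Fintype J'] {π : J → Λ} {π' : J' → Λ}
    (h : Good φ q U Coh π) (h' : Good φ q U Coh π') : Good φ q U Coh (Sum.elim π π') := by
  intro u hu
  have h1 := Gen.mul (h (fun j => u (Sum.inl j)) fun j => hu (Sum.inl j))
    (h' (fun j => u (Sum.inr j)) fun j => hu (Sum.inr j))
  convert h1 using 1
  funext z
  simp [pure, tmul, Fintype.prod_sum_type]

theorem good_pair {a b : Λ} (h : a * b = q) : Good φ q U Coh ![a, b] := by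
  intro u hu
  refine Gen.div (Submodule.subset_span ⟨u, fun j => (hu j).1, rfl⟩) ⟨1, one_pos, ?_⟩
  funext z
  have h0 := (hu 0).2 (z 0)
  have h1 := (hu 1).2 (z 1)
  simp only [Matrix.cons_val_zero, Matrix.cons_val_one] at h0 h1
  simp only [frob, pure, Fin.prod_univ_two, Function.iterate_one, Function.comp_apply, h0, h1,
    Pi.smul_apply, smul_eq_mul, ← h]
  ring

/-- a linear form which agrees with `g` on one eigenspace and vanishes on the others
(`Module.End.eigenspaces_iSupIndep`, `LinearMap.exists_extend`) -/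
theorem exists_form (φ : I → I) (π : Λ) (g : (I → Λ) →ₗ[Λ] Λ) :
    ∃ f : (I → Λ) →ₗ[Λ] Λ, (∀ u : I → Λ, (∀ z, u (φ z) = π * u z) → f u = g u) ∧
      ∀ (π' : Λ) (u : I → Λ), (∀ z, u (φ z) = π' * u z) → π' ≠ π → f u = 0 := by
  let T : Module.End Λ (I → Λ) := LinearMap.funLeft Λ Λ φ
  have hm : ∀ (ρ : Λ) (u : I → Λ), (∀ z, u (φ z) = ρ * u z) → u ∈ T.eigenspace ρ := by
    intro ρ u hu
    rw [Module.End.mem_eigenspace_iff]
    funext z
    exact hu z
  obtain ⟨W, hW, hc⟩ := (T.eigenspaces_iSupIndep π).symm.exists_isCompl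
  refine ⟨g ∘ₗ (T.eigenspace π).projection W hc.symm, fun u hu => ?_, fun π' u hu hne => ?_⟩
  · rw [LinearMap.comp_apply, Submodule.projection_apply_of_mem_left _ (hm π u hu)]
  · have : u ∈ W := hW (Submodule.mem_iSup_of_mem π' (Submodule.mem_iSup_of_mem hne (hm π' u hu)))
    rw [LinearMap.comp_apply, Submodule.projection_apply_of_mem_right _ this, map_zero]

theorem exists_form_one {π : Λ} {v : I → Λ} (hv : ∀ z, v (φ z) = π * v z) (h0 : v ≠ 0) :
    ∃ f : (I → Λ) →ₗ[Λ] Λ, f v = 1 ∧
      ∀ (π' : Λ) (u : I → Λ), (∀ z, u (φ z) = π' * u z) → π' ≠ π → f u = 0 := by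
  obtain ⟨z, hz⟩ := Function.ne_iff.1 h0
  obtain ⟨f, f1, hf⟩ := exists_form φ π ((v z)⁻¹ • LinearMap.proj z)
  refine ⟨f, ?_, hf⟩
  rw [f1 v hv]
  exact inv_mul_cancel₀ hz

theorem form_mul (f f' : (I → Λ) →ₗ[Λ] Λ) (c : Λ) (u v : I → Λ) :
    (f fun x => f' fun y => c * (u x * v y)) = c * (f u * f' v) := by
  have e : (fun x => f' fun y => c * (u x * v y)) = (c * f' v) • u := by
    funext x
    have : (fun y => c * (u x * v y)) = (c * u x) • v := by
      funext y
      simp only [Pi.smul_apply, smul_eq_mul]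
      ring
    rw [this, map_smul]
    simp only [Pi.smul_apply, smul_eq_mul]
    ring
  rw [e, map_smul, smul_eq_mul]
  ring

/-- the contraction with `f ⊗ f'`, `L s = f (x ↦ f' (y ↦ s ![x, y]))` -/
theorem alg_contr (hU : ∀ u ∈ ⋃ i, U i, ∃ π, ∀ z, u (φ z) = π * u z) {a b : Λ} (hab : a * b = q)
    (f f' : (I → Λ) →ₗ[Λ] Λ)
    (hf : ∀ (π : Λ) (u : I → Λ), (∀ z, u (φ z) = π * u z) → π ≠ a → f u = 0)
    (hf' : ∀ (π : Λ) (u : I → Λ), (∀ z, u (φ z) = π * u z) → π ≠ b → f' u = 0) {J : Type}
    {t : Ten (Fin 2 ⊕ J) I Λ} (h : Gen φ q U Coh _ t) :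
    Gen φ q U Coh J fun z => f fun x => f' fun y => t (Sum.elim ![x, y] z) := by
  let L : Ten (Fin 2) I Λ →ₗ[Λ] Λ :=
    f ∘ₗ LinearMap.pi fun x => f' ∘ₗ LinearMap.funLeft Λ Λ fun y => ![x, y]
  have hL : ∀ s, L s = f fun x => f' fun y => s ![x, y] := fun s => rfl
  refine Gen.contr L 1 one_pos ?_ h
  intro s hs
  induction hs using Submodule.span_induction with
  | mem s hs =>
    obtain ⟨u, hu, rfl⟩ := hs
    obtain ⟨p0, h0⟩ := hU _ (hu 0)
    obtain ⟨p1, h1⟩ := hU _ (hu 1)
    have e1 : (L fun z => ∏ j, u j (z j)) = f (u 0) * f' (u 1) := by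
      rw [hL, ← one_mul (f (u 0) * f' (u 1)), ← form_mul f f' 1]
      simp [Fin.prod_univ_two]
    have e2 : L (frob φ^[1] fun z => ∏ j, u j (z j)) = p0 * p1 * (f (u 0) * f' (u 1)) := by
      rw [hL, ← form_mul f f' (p0 * p1)]
      congr 1
      funext x
      congr 1
      funext y
      simp only [frob, Fin.prod_univ_two, Function.iterate_one, Function.comp_apply,
        Matrix.cons_val_zero, Matrix.cons_val_one, h0, h1]
      ring
    rw [e1, e2]
    by_cases c0 : p0 = a
    · by_cases c1 : p1 = b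
      · rw [c0, c1, hab, pow_one]
      · simp [hf' p1 _ h1 c1]
    · simp [hf p0 _ h0 c0]
  | zero =>
    have : frob φ^[1] (0 : Ten (Fin 2) I Λ) = 0 := rfl
    rw [this, map_zero, mul_zero]
  | add x y _ _ hx hy =>
    have : frob φ^[1] (x + y) = frob φ^[1] x + frob φ^[1] y := rfl
    rw [this, map_add, map_add, hx, hy, mul_add]
  | smul c x _ hx =>
    have : frob φ^[1] (c • x) = c • frob φ^[1] x := rfl
    rw [this, map_smul, map_smul, hx, smul_eq_mul, smul_eq_mul]
    ring

/-- cancel a pair of dual eigenvalues -/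
theorem Good.cancel (hU : ∀ u ∈ ⋃ i, U i, ∃ π, ∀ z, u (φ z) = π * u z) {a b : Λ} (hab : a * b = q)
    (ha : ∃ u ∈ Ev φ U a, u ≠ 0) (hb : ∃ u ∈ Ev φ U b, u ≠ 0) {J : Type} [Fintype J] {π : J → Λ}
    (h : Good φ q U Coh (Sum.elim ![a, b] π)) : Good φ q U Coh π := by
  intro u hu
  obtain ⟨ua, hua, ha0⟩ := ha
  obtain ⟨ub, hub, hb0⟩ := hb
  obtain ⟨f, f1, hf⟩ := exists_form_one hua.2 ha0
  obtain ⟨f', f1', hf'⟩ := exists_form_one hub.2 hb0
  have h1 := h (Sum.elim ![ua, ub] u) (by
    rintro (j | j)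
    · fin_cases j
      · exact hua
      · exact hub
    · exact hu j)
  have h2 := alg_contr hU hab f f' hf hf' h1
  convert h2 using 1
  funext z
  have := form_mul f f' (pure u z) ua ub
  rw [f1, f1', mul_one, mul_one] at this
  rw [← this]
  congr 1
  funext x
  congr 1
  funext y
  simp only [pure, Fintype.prod_sum_type, Fin.prod_univ_two, Sum.elim_inl, Sum.elim_inr,
    Matrix.cons_val_zero, Matrix.cons_val_one]
  ring

/-- replace the factor number `j`: multiply by the divisor `u ⊗ u'` and contract `u'` with the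
`j`-th factor of `t` -/
theorem alg_slot (hU : ∀ u ∈ ⋃ i, U i, ∃ π, ∀ z, u (φ z) = π * u z) {a b : Λ} (hab : a * b = q)
    (hb : ∃ u ∈ Ev φ U b, u ≠ 0) {u : I → Λ} (hu : u ∈ Ev φ U a) (f : (I → Λ) →ₗ[Λ] Λ)
    (hf : ∀ (π : Λ) (u : I → Λ), (∀ z, u (φ z) = π * u z) → π ≠ a → f u = 0) {J : Type} (j : J)
    {t : Ten J I Λ} (h : Gen φ q U Coh J t) :
    Gen φ q U Coh J fun z => u (z j) * f fun x => t (Function.update z j x) := by
  obtain ⟨ub, hub, hb0⟩ := hb
  obtain ⟨f', f1', hf'⟩ := exists_form_one hub.2 hb0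
  have h1 := good_pair (φ := φ) (U := U) (Coh := Coh) hab ![u, ub] (by
    intro i
    fin_cases i
    · exact hu
    · exact hub)
  have h2 := Gen.perm (Equiv.swap (Sum.inl 0) (Sum.inr j)) (Gen.mul h1 h)
  have h3 := alg_contr hU hab f f' hf hf' h2
  convert h3 using 1
  funext z
  have := form_mul f f' (u (z j)) (fun x => t (Function.update z j x)) ub
  rw [f1', mul_one] at this
  rw [← this]
  congr 1
  funext x
  congr 1
  funext y
  have e1 : (Sum.elim ![x, y] z ∘ Equiv.swap (Sum.inl 0) (Sum.inr j)) ∘ Sum.inr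
      = Function.update z j x := by
    funext i
    by_cases hi : i = j
    · subst hi
      simp
    · simp [Equiv.swap_apply_of_ne_of_ne, hi]
  have e2 : (Equiv.swap (Sum.inl 0) (Sum.inr j) : Fin 2 ⊕ J ≃ Fin 2 ⊕ J) (Sum.inl 1)
      = Sum.inl 1 := Equiv.swap_apply_of_ne_of_ne (by simp) (by simp)
  simp only [tmul, e1, pure, Fin.prod_univ_two, Function.comp_apply, Equiv.swap_apply_left, e2,
    Sum.elim_inl, Sum.elim_inr, Matrix.cons_val_zero, Matrix.cons_val_one]
  ring

theorem alg_slot' (hU : ∀ u ∈ ⋃ i, U i, ∃ π, ∀ z, u (φ z) = π * u z) {a b : Λ} (hab : a * b = q)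
    (hb : ∃ u ∈ Ev φ U b, u ≠ 0) {u : I → Λ} (hu : u ∈ Ev φ U a) (f : (I → Λ) →ₗ[Λ] Λ)
    (hf : ∀ (π : Λ) (u : I → Λ), (∀ z, u (φ z) = π * u z) → π ≠ a → f u = 0) {J : Type}
    [inst : DecidableEq J] (j : J) {t : Ten J I Λ} (h : Gen φ q U Coh J t) :
    Gen φ q U Coh J fun z => u (z j) * f fun x => t (Function.update z j x) := by
  obtain rfl : inst = fun a b => Classical.propDecidable (a = b) := Subsingleton.elim _ _
  exact alg_slot hU hab hb hu f hf j h

/-- A nonzero element of `Gen` in the span of the pure tensors of type `π` gives all of them. Let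
`t z₀ ≠ 0`; apply `alg_slot` for one index after the other with `f` equal to the evaluation at
`z₀ j` on the eigenspace; the result is `t z₀ • pure u`. -/
theorem good_of_ne (hU : ∀ u ∈ ⋃ i, U i, ∃ π, ∀ z, u (φ z) = π * u z) {n : ℕ} {π π' : Fin n → Λ}
    (hπ : ∀ j, π j * π' j = q) (hex : ∀ j, ∃ u ∈ Ev φ U (π' j), u ≠ 0) {t : Ten (Fin n) I Λ}
    (ht : t ∈ tens fun j => Ev φ U (π j)) (h0 : t ≠ 0) (h : Gen φ q U Coh _ t) :
    Good φ q U Coh π := by
  intro u hu
  obtain ⟨z0, hz0⟩ := Function.ne_iff.1 h0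
  have he : ∀ (j : Fin n) (w : Fin n → I) (x : I),
      t (Function.update w j (φ x)) = π j * t (Function.update w j x) := by
    intro j w x
    clear h h0 hz0
    induction ht using Submodule.span_induction with
    | mem s hs =>
      obtain ⟨v, hv, rfl⟩ := hs
      have e : ∀ y, ∏ i, v i (Function.update w j y i)
          = v j y * ∏ i ∈ Finset.univ.erase j, v i (w i) := by
        intro y
        rw [← Finset.mul_prod_erase _ _ (Finset.mem_univ j), Function.update_self]
        congr 1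
        refine Finset.prod_congr rfl fun i hi => ?_
        rw [Function.update_of_ne (Finset.ne_of_mem_erase hi)]
      simp only [e, (hv j).2 x]
      ring
    | zero => simp
    | add s s' _ _ hs hs' => simp only [Pi.add_apply, hs, hs', mul_add]
    | smul c s _ hs =>
      simp only [Pi.smul_apply, hs, smul_eq_mul]
      ring
  have key : ∀ S : Finset (Fin n), Gen φ q U Coh (Fin n)
      fun z => (∏ j ∈ S, u j (z j)) * t fun j => if j ∈ S then z0 j else z j := by
    intro S
    induction S using Finset.induction_on with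
    | empty => simpa using h
    | insert j S hj ih =>
      obtain ⟨f, f1, hf⟩ := exists_form φ (π j) (LinearMap.proj (z0 j))
      have h1 := alg_slot' hU (hπ j) (hex j) (hu j) f hf j ih
      convert h1 using 1
      funext z
      have e : ∀ x, ((∏ i ∈ S, u i (Function.update z j x i))
          * t fun i => if i ∈ S then z0 i else Function.update z j x i)
          = (∏ i ∈ S, u i (z i))
            * t (Function.update (fun i => if i ∈ S then z0 i else z i) j x) := by
        intro x
        congr 1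
        · refine Finset.prod_congr rfl fun i hi => ?_
          rw [Function.update_of_ne (ne_of_mem_of_not_mem hi hj)]
        · congr 1
          funext i
          by_cases hi : i = j
          · subst hi
            simp [hj]
          · simp [hi]
      have e' : (fun i => if i ∈ insert j S then z0 i else z i)
          = Function.update (fun i => if i ∈ S then z0 i else z i) j (z0 j) := by
        funext i
        by_cases hi : i = j
        · subst hi
          simp
        · simp [hi]
      rw [funext e, f1 _ (fun x => by rw [he]; ring), Finset.prod_insert hj, e', LinearMap.proj_apply,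
        mul_assoc]
  have h1 := Gen.smul (t z0)⁻¹ (key Finset.univ)
  convert h1 using 1
  funext z
  have hz : t z0 ≠ 0 := hz0
  simp only [pure, Finset.mem_univ, if_true, Pi.smul_apply, smul_eq_mul]
  field_simp

end Pool.Agent.P.MP_ee618e_ag.X
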