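import Pool.Agent.P.MP_ee618e_ag.X.Ge3
import Pool.Agent.P.MP_ee618e_ag.X.K5

/-! M1: from the Kummer surface to the products `E × C₃` and `E × E`. -/

namespace Pool.Agent.P.MP_ee618e_ag.X

open IsDedekindDomain Polynomial
open scoped Classical

variable {Ω : Type} [Field Ω]

/-- `ψ' σ = ψ σ + ψ (g⁻¹ σ g) + ψ (g⁻¹ σ) + ψ (σ g)`; for `σ` outside the subgroup this is
`ψ (σ ^ 2)` -/
theorem transfer [CharP Ω 2] {Y : Type} [AddCommGroup Y] {k : Subfield Ω} {S : Set Ω} {y : Ω}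
    (hk : (k : Set Ω) ⊆ S) (hy : y ∈ Acl S) (hc : ∀ σ ∈ Fix S, σ y = y ∨ σ y = y + 1) {g : Au Ω}
    (hg : g ∈ Fix S) (hgy : g y = y + 1) {ψ : Au Ω → Y} (h : Ch k (S ∪ {y}) ψ) :
    ∃ ψ' : Au Ω → Y, Ch k S ψ' ∧ (∀ σ ∈ Fix (S ∪ {y}), ψ' σ = ψ σ + ψ (g⁻¹ * σ * g)) ∧
      ∀ n : ℕ, (∀ σ, n • ψ σ = 0) → ∀ σ, n • ψ' σ = 0 := by
  have hm : ∀ σ, σ ∈ Fix (S ∪ {y}) ↔ σ ∈ Fix S ∧ σ y = y := by
    intro σ
    rw [fix_union, Subgroup.mem_inf]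
    exact and_congr Iff.rfl ⟨fun h => h y rfl, fun h x hx => by rw [hx]; exact h⟩
  have h11 : y + 1 + 1 = y := by rw [add_assoc, CharTwo.add_self_eq_zero, add_zero]
  have hne : y + 1 ≠ y := fun e => one_ne_zero (add_eq_left.1 e)
  have hg' : g⁻¹ ∈ Fix S := inv_mem hg
  have hgy1 : g⁻¹ (y + 1) = y := by rw [← hgy]; exact g.symm_apply_apply y
  have hgy' : g⁻¹ y = y + 1 := by
    have := hgy1
    rw [map_add, map_one] at this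
    calc g⁻¹ y = g⁻¹ y + 1 + 1 := by rw [add_assoc, CharTwo.add_self_eq_zero, add_zero]
      _ = y + 1 := by rw [this]
  have out : ∀ σ, σ y = y + 1 → ψ σ = 0 := fun σ e =>
    h.out σ fun hσ => hne (e.symm.trans ((hm σ).1 hσ).2)
  -- elements of the subgroup
  have A1 : ∀ σ ∈ Fix S, σ y = y → σ ∈ Fix (S ∪ {y}) := fun σ hσ e => (hm σ).2 ⟨hσ, e⟩
  have A2 : ∀ σ ∈ Fix S, σ y = y → g⁻¹ * σ * g ∈ Fix (S ∪ {y}) := fun σ hσ e =>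
    (hm _).2 ⟨mul_mem (mul_mem hg' hσ) hg, by
      rw [au_mul, au_mul, hgy, map_add, map_one, e, hgy1]⟩
  have A3 : ∀ σ ∈ Fix S, σ y = y + 1 → g⁻¹ * σ ∈ Fix (S ∪ {y}) := fun σ hσ e =>
    (hm _).2 ⟨mul_mem hg' hσ, by rw [au_mul, e, hgy1]⟩
  have A4 : ∀ σ ∈ Fix S, σ y = y + 1 → σ * g ∈ Fix (S ∪ {y}) := fun σ hσ e =>
    (hm _).2 ⟨mul_mem hσ hg, by rw [au_mul, hgy, map_add, map_one, e, h11]⟩
  -- the two formulas
  have F1 : ∀ σ : Au Ω, σ y = y → ψ σ + ψ (g⁻¹ * σ * g) + ψ (g⁻¹ * σ) + ψ (σ * g) =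
      ψ σ + ψ (g⁻¹ * σ * g) := fun σ e => by
    rw [out (g⁻¹ * σ) (by rw [au_mul, e, hgy']),
      out (σ * g) (by rw [au_mul, hgy, map_add, map_one, e]), add_zero, add_zero]
  have F2 : ∀ σ : Au Ω, σ y = y + 1 → ψ σ + ψ (g⁻¹ * σ * g) + ψ (g⁻¹ * σ) + ψ (σ * g) =
      ψ (g⁻¹ * σ) + ψ (σ * g) := fun σ e => by
    rw [out σ e, out (g⁻¹ * σ * g)
      (by rw [au_mul, au_mul, hgy, map_add, map_one, e, h11, hgy']), zero_add, zero_add]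
  refine ⟨fun σ => ψ σ + ψ (g⁻¹ * σ * g) + ψ (g⁻¹ * σ) + ψ (σ * g), ⟨?_, ?_, ?_, ?_⟩, ?_, ?_⟩
  · intro σ hσ τ hτ
    show ψ (σ * τ) + ψ (g⁻¹ * (σ * τ) * g) + ψ (g⁻¹ * (σ * τ)) + ψ (σ * τ * g) =
      ψ σ + ψ (g⁻¹ * σ * g) + ψ (g⁻¹ * σ) + ψ (σ * g) +
        (ψ τ + ψ (g⁻¹ * τ * g) + ψ (g⁻¹ * τ) + ψ (τ * g))
    rcases hc σ hσ with e | e <;> rcases hc τ hτ with e' | e'
    · rw [F1 σ e, F1 τ e', F1 (σ * τ) (by rw [au_mul, e', e]),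
        show g⁻¹ * (σ * τ) * g = g⁻¹ * σ * g * (g⁻¹ * τ * g) by group,
        h.hom _ (A1 σ hσ e) _ (A1 τ hτ e'), h.hom _ (A2 σ hσ e) _ (A2 τ hτ e')]
      abel
    · rw [F1 σ e, F2 τ e', F2 (σ * τ) (by rw [au_mul, e', map_add, map_one, e]),
        show g⁻¹ * (σ * τ) = g⁻¹ * σ * g * (g⁻¹ * τ) by group, mul_assoc σ τ g,
        h.hom _ (A1 σ hσ e) _ (A4 τ hτ e'), h.hom _ (A2 σ hσ e) _ (A3 τ hτ e')]
      abel
    · rw [F2 σ e, F1 τ e', F2 (σ * τ) (by rw [au_mul, e', e]), ← mul_assoc g⁻¹ σ τ,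
        show σ * τ * g = σ * g * (g⁻¹ * τ * g) by group,
        h.hom _ (A3 σ hσ e) _ (A1 τ hτ e'), h.hom _ (A4 σ hσ e) _ (A2 τ hτ e')]
      abel
    · rw [F2 σ e, F2 τ e', F1 (σ * τ) (by rw [au_mul, e', map_add, map_one, e, h11]),
        show g⁻¹ * (σ * τ) * g = g⁻¹ * σ * (τ * g) by group,
        show σ * τ = σ * g * (g⁻¹ * τ) by group,
        h.hom _ (A4 σ hσ e) _ (A3 τ hτ e'), h.hom _ (A3 σ hσ e) _ (A4 τ hτ e')]
      abel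
  · obtain ⟨T, hT, hs⟩ := h.sm
    have hA : Acl (S ∪ {y}) ⊆ Acl S :=
      acl_subset (Set.union_subset (subset_acl S) (Set.singleton_subset_iff.2 hy))
    have hT' : (↑(insert y T) : Set Ω) ⊆ Acl S := by
      rw [Finset.coe_insert]
      exact Set.insert_subset hy (hT.trans hA)
    have hs' : ∀ σ ∈ Fix S, ∀ τ ∈ Fix S, Ag (insert y T) σ τ → ψ σ = ψ τ := by
      intro σ hσ τ hτ hag
      have ey := hag y (Finset.mem_insert_self y T)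
      rcases hc σ hσ with e | e
      · exact hs σ (A1 σ hσ e) τ (A1 τ hτ (ey.symm.trans e))
          fun t ht => hag t (Finset.mem_insert_of_mem ht)
      · rw [out σ e, out τ (ey.symm.trans e)]
    refine ⟨insert y T ∪ (insert y T).image g, ?_, fun σ hσ τ hτ hag => ?_⟩
    · rw [Finset.coe_union, Finset.coe_image]
      refine Set.union_subset hT' ?_
      rintro _ ⟨x, hx, rfl⟩
      exact (st_acl (fix_le_st S hg) x).2 (hT' hx)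
    · have a1 : ∀ t ∈ insert y T, σ t = τ t := fun t ht => hag t (Finset.mem_union_left _ ht)
      have a2 : ∀ t ∈ insert y T, σ (g t) = τ (g t) := fun t ht =>
        hag _ (Finset.mem_union_right _ (Finset.mem_image_of_mem _ ht))
      show ψ σ + ψ (g⁻¹ * σ * g) + ψ (g⁻¹ * σ) + ψ (σ * g) =
        ψ τ + ψ (g⁻¹ * τ * g) + ψ (g⁻¹ * τ) + ψ (τ * g)
      rw [hs' σ hσ τ hτ a1,
        hs' _ (mul_mem (mul_mem hg' hσ) hg) _ (mul_mem (mul_mem hg' hτ) hg)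
          fun t ht => by rw [au_mul, au_mul, au_mul, au_mul, a2 t ht],
        hs' _ (mul_mem hg' hσ) _ (mul_mem hg' hτ) fun t ht => by rw [au_mul, au_mul, a1 t ht],
        hs' _ (mul_mem hσ hg) _ (mul_mem hτ hg) fun t ht => by rw [au_mul, au_mul, a2 t ht]]
  · intro σ hσ
    have o : ∀ τ, τ ∉ Fix S → ψ τ = 0 := fun τ hτ => h.out τ fun h' => hτ ((hm τ).1 h').1
    show ψ σ + ψ (g⁻¹ * σ * g) + ψ (g⁻¹ * σ) + ψ (σ * g) = 0
    rw [o σ hσ, o (g⁻¹ * σ * g) fun h' => hσ ((mul_mem_cancel_left hg').1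
        ((mul_mem_cancel_right hg).1 h')),
      o (g⁻¹ * σ) fun h' => hσ ((mul_mem_cancel_left hg').1 h'),
      o (σ * g) fun h' => hσ ((mul_mem_cancel_right hg).1 h')]
    simp
  · intro O hO σ hσ hi
    show ψ σ + ψ (g⁻¹ * σ * g) + ψ (g⁻¹ * σ) + ψ (σ * g) = 0
    rcases hc σ hσ with e | e
    · obtain ⟨O', hO', hi'⟩ := hi.cj g
      rw [F1 σ e, h.unr O hO σ (A1 σ hσ e) hi, h.unr O' (fun x hx => (hO' x).2 (by
        rw [hg x (hk hx)]; exact hO hx)) _ (A2 σ hσ e) hi', add_zero]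
    · rw [F2 σ e, add_comm, ← h.hom _ (A4 σ hσ e) _ (A3 σ hσ e),
        show σ * g * (g⁻¹ * σ) = σ * σ by group]
      exact h.unr O hO _ (A1 _ (mul_mem hσ hσ) (by rw [au_mul, e, map_add, map_one, e, h11]))
        (hi.mul hi)
  · exact fun σ hσ => F1 σ ((hm σ).1 hσ).2
  · intro n hn σ
    show n • (ψ σ + ψ (g⁻¹ * σ * g) + ψ (g⁻¹ * σ) + ψ (σ * g)) = 0
    rw [nsmul_add, nsmul_add, nsmul_add, hn, hn, hn, hn]
    simp

variable [IsAlgClosed Ω] [CharP Ω 2] {r : ℕ} {D : Surf Ω (4 ^ r)} (G : Geo D)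

omit [IsAlgClosed Ω] in
theorem Geo.base (hr : 0 < r) (i : Fin 5) : (G.C i).Base (D.T (opp i)) := by
  refine ⟨?_, ?_, ?_⟩
  · rw [G.hk i]
    exact Set.subset_union_left
  · rw [G.hA i]
    exact subset_acl _
  · rw [G.hA i]

omit [IsAlgClosed Ω] in
theorem Geo.fix_R0 (i : Fin 5) : Fix ((G.C i).R0 : Set Ω) = Fix (D.T i) := by
  rw [← fix_closure, G.cl0 i, fix_closure]

omit [IsAlgClosed Ω] in
theorem Geo.baseΓ (hr : 0 < r) : (G.C 2).Base D.TΓ ∧ (G.C 2).GG D.TΓ = Fix D.TE := by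
  have hA : ((G.C 2).A : Set Ω) = Acl D.TΓ := by
    rw [G.hA 2, D.acl_TΓ hr]
    rfl
  refine ⟨⟨?_, ?_, ?_⟩, ?_⟩
  · rw [G.hk 2]
    exact Set.subset_union_left
  · rw [hA]
    exact subset_acl _
  · rw [hA]
  · rw [Fib.GG, G.fix_R0 2, ← fix_union]
    congr 1
    ext x
    show x ∈ (kk Ω : Set Ω) ∪ {D.u, D.v} ∪ ((kk Ω : Set Ω) ∪ {D.t, D.m, D.w}) ↔
      x ∈ (kk Ω : Set Ω) ∪ {D.u, D.v, D.t, D.m, D.w}
    simp only [Set.mem_union, Set.mem_insert_iff, Set.mem_singleton_iff]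
    tauto

/-- `z = s₂ s` where `s` is one of `s₃`, `s₄`, `s₃ s₄` (involutions from `inv`, `Y_cases`) and moves
both `m` and `w`; `s` is in `G0` of the curve `2`; `ac_tors` -/
theorem Geo.exists_z (hr : 0 < r) : ∃ z ∈ Fix D.TY, z ∈ (G.C 2).Nm ∧
    (∀ N : ℕ, Odd N → ∀ c, N • c = 0 → (G.C 2).ac z c = -c) ∧
    z D.u = D.u ∧ z D.v = D.v + 1 ∧ z D.t = D.t ∧ z D.m = D.m + 1 ∧ z D.w = D.w + 1 := by
  obtain ⟨s₂, f₂, x₂, y₂, r₂, a₂⟩ := G.inv 2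
  obtain ⟨s₃, f₃, x₃, y₃, -, -⟩ := G.inv 3
  obtain ⟨s₄, f₄, x₄, y₄, -, -⟩ := G.inv 4
  have e₃ : s₃ ∈ Fix (D.T 2) := fix_anti (G.base hr 3).SA f₃
  have e₄ : s₄ ∈ Fix (D.T 2) := fix_anti (G.base hr 4).SA f₄
  have e₂ : s₂ ∈ Fix D.TΓ := fix_anti (G.baseΓ hr).1.SA f₂
  have kT : ∀ σ ∈ Fix (D.T 2), σ ∈ Fix (kk Ω : Set Ω) := fun σ hσ =>
    fix_anti Set.subset_union_left hσ
  change s₂ D.u = D.u at x₂
  change s₂ D.v = D.v + 1 at y₂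
  change s₃ D.t = D.t at x₃
  change s₃ D.m = D.m + 1 at y₃
  change s₄ D.t = D.t at x₄
  change s₄ D.w = D.w + 1 at y₄
  obtain ⟨s, hs, st, sm, sw⟩ : ∃ s ∈ Fix (D.T 2), s D.t = D.t ∧ s D.m = D.m + 1 ∧
      s D.w = D.w + 1 := by
    rcases D.Y_cases hr (kT _ e₃) (i := 4) (j := 4) (Or.inl rfl) x₃ with w₃ | w₃
    · rcases D.Y_cases hr (kT _ e₄) (i := 3) (j := 3) (Or.inl rfl) x₄ with m₄ | m₄
      · change s₃ D.w = D.w at w₃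
        change s₄ D.m = D.m at m₄
        exact ⟨s₃ * s₄, mul_mem e₃ e₄, by rw [au_mul, x₄, x₃], by rw [au_mul, m₄, y₃],
          by rw [au_mul, y₄, map_add, map_one, w₃]⟩
      · exact ⟨s₄, e₄, x₄, m₄, y₄⟩
    · exact ⟨s₃, e₃, x₃, y₃, w₃⟩
  have su : s D.u = D.u := hs _ (Or.inr (Or.inl rfl))
  have sv : s D.v = D.v := hs _ (Or.inr (Or.inr rfl))
  have t₂ : s₂ D.t = D.t := e₂ _ (Or.inr (Or.inl rfl))
  have m₂ : s₂ D.m = D.m := e₂ _ (Or.inr (Or.inr (Or.inl rfl)))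
  have w₂ : s₂ D.w = D.w := e₂ _ (Or.inr (Or.inr (Or.inr rfl)))
  have sG : s ∈ (G.C 2).G0 := by
    refine Subgroup.mem_inf.2 ⟨?_, ?_⟩
    · rw [G.fix_R0 2]
      exact hs
    · rw [G.hA 2, D.acl_T hr]
      refine st_acl (fix_le_st _ ?_)
      rintro x (hx | hx)
      · exact kT s hs x hx
      · rw [hx]
        exact st
  have n₂ : s₂ ∈ (G.C 2).Nm := Subgroup.mem_inf.2 ⟨r₂, fix_le_st _ f₂⟩
  have zk : ∀ x ∈ kk Ω, (s₂ * s) x = x := fun x hx => by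
    rw [au_mul, kT s hs x hx, e₂ x (Or.inl hx)]
  have zu : (s₂ * s) D.u = D.u := by rw [au_mul, su, x₂]
  have zv : (s₂ * s) D.v = D.v + 1 := by rw [au_mul, sv, y₂]
  have zt : (s₂ * s) D.t = D.t := by rw [au_mul, st, t₂]
  have zm : (s₂ * s) D.m = D.m + 1 := by rw [au_mul, sm, map_add, map_one, m₂]
  have zw : (s₂ * s) D.w = D.w + 1 := by rw [au_mul, sw, map_add, map_one, w₂]
  refine ⟨s₂ * s, ?_, mul_mem n₂ ((G.C 2).G0_le sG), fun N hN c hc => ?_, zu, zv, zt, zm, zw⟩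
  · have p1 : D.x₁ * D.x₂ = (D.w - D.m) * (D.t ^ 4 + D.t + D.b) - D.d := by
      have := D.μ_ne hr
      rw [Surf.w, add_sub_cancel_left]
      show _ = (D.x₁ * D.x₂ + D.d) / D.μ * D.μ - D.d
      rw [div_mul_cancel₀ _ this, add_sub_cancel_right]
    have p2 : D.y₁ + D.y₂ = D.v + D.u * D.t + D.w := by
      rw [D.z₃, Surf.w, Surf.μ]
      ring
    rintro x (hx | rfl | rfl | rfl)
    · exact zk x hx
    · rw [D.z₁, map_add, map_pow, zu, zt]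
    · rw [p1]
      simp only [map_sub, map_mul, map_add, map_pow, zw, zm, zt, zk _ (D.b_mem hr),
        zk _ (D.d_mem hr)]
      ring
    · rw [p2]
      simp only [map_mul, map_add, zw, zu, zv, zt]
      linear_combination (CharTwo.add_self_eq_zero (1 : Ω))
  · rw [Fib.ac_mul n₂ ((G.C 2).G0_le sG), Fib.ac_tors (odd_ne_zero hN) hc sG, a₂]

omit [IsAlgClosed Ω] in
/-- If some `g ∈ Fix (T 3)` moves `w`, use `transfer` with `g` and `g z`; otherwise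
`Fix (T 3) = Fix TΓ`, take `t₃ = 2 t`, `t₄ = 0`. -/
theorem split (hr : 0 < r) {Y : Type} [AddCommGroup Y] {t : Au Ω → Y} (ht : Ch (kk Ω) D.TΓ t)
    {z : Au Ω} (hz : z ∈ Fix (kk Ω : Set Ω)) (zt : z D.t = D.t) (zm : z D.m = D.m + 1)
    (zw : z D.w = D.w + 1) (h : ∀ σ, t (z⁻¹ * σ * z) = -t σ) :
    ∃ t₃ t₄ : Au Ω → Y, Ch (kk Ω) (D.T 3) t₃ ∧ Ch (kk Ω) (D.T 4) t₄ ∧
      (∀ σ ∈ Fix D.TΓ, t₃ σ + t₄ σ = 2 • t σ) ∧
      ∀ n : ℕ, (∀ σ, n • t σ = 0) → ∀ σ, n • t₃ σ = 0 ∧ n • t₄ σ = 0 := by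
  have e₃ : D.TΓ = D.T 3 ∪ {D.w} := by
    ext x
    show x ∈ (kk Ω : Set Ω) ∪ {D.t, D.m, D.w} ↔ x ∈ (kk Ω : Set Ω) ∪ {D.t, D.m} ∪ {D.w}
    simp only [Set.mem_union, Set.mem_insert_iff, Set.mem_singleton_iff]
    tauto
  have e₄ : D.TΓ = D.T 4 ∪ {D.m} := by
    ext x
    show x ∈ (kk Ω : Set Ω) ∪ {D.t, D.m, D.w} ↔ x ∈ (kk Ω : Set Ω) ∪ {D.t, D.w} ∪ {D.m}
    simp only [Set.mem_union, Set.mem_insert_iff, Set.mem_singleton_iff]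
    tauto
  have c₃ : ∀ σ ∈ Fix (D.T 3), σ D.w = D.w ∨ σ D.w = D.w + 1 := fun σ hσ =>
    D.Y_cases hr (fix_anti Set.subset_union_left hσ) (i := 4) (j := 4) (Or.inl rfl)
      (hσ _ (Or.inr (Or.inl rfl)))
  have c₄ : ∀ σ ∈ Fix (D.T 4), σ D.m = D.m ∨ σ D.m = D.m + 1 := fun σ hσ =>
    D.Y_cases hr (fix_anti Set.subset_union_left hσ) (i := 3) (j := 3) (Or.inl rfl)
      (hσ _ (Or.inr (Or.inl rfl)))
  by_cases hg : ∃ g ∈ Fix (D.T 3), g D.w = D.w + 1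
  · obtain ⟨g, hg, gw⟩ := hg
    have gt : g D.t = D.t := hg _ (Or.inr (Or.inl rfl))
    have gm : g D.m = D.m := hg _ (Or.inr (Or.inr rfl))
    have hw : D.w ∈ Acl (D.T 3) := by
      rw [← D.acl_TΓ hr]
      exact subset_acl _ (Or.inr (Or.inr (Or.inr rfl)))
    have hm : D.m ∈ Acl (D.T 4) := by
      have : Acl (D.T 4) = Acl (D.T 3) := by
        rw [D.acl_T hr, D.acl_T hr]
        rfl
      rw [this]
      exact subset_acl _ (Or.inr (Or.inr rfl))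
    have hgz : g * z ∈ Fix (D.T 4) := by
      rintro x (hx | rfl | rfl)
      · rw [au_mul, hz x hx, hg x (Or.inl hx)]
      · show g (z D.t) = D.t
        rw [zt, gt]
      · show g (z D.w) = D.w
        rw [zw, map_add, map_one, gw, add_assoc, CharTwo.add_self_eq_zero, add_zero]
    obtain ⟨t₃, h₃, f₃, n₃⟩ := transfer Set.subset_union_left hw c₃ hg gw (e₃ ▸ ht)
    obtain ⟨t₄, h₄, f₄, n₄⟩ := transfer Set.subset_union_left hm c₄ hgz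
      (by rw [au_mul, zm, map_add, map_one, gm]) (e₄ ▸ ht)
    refine ⟨t₃, t₄, h₃, h₄, fun σ hσ => ?_, fun n hn σ => ⟨n₃ n hn σ, n₄ n hn σ⟩⟩
    rw [f₃ σ (e₃ ▸ hσ), f₄ σ (e₄ ▸ hσ),
      show (g * z)⁻¹ * σ * (g * z) = z⁻¹ * (g⁻¹ * σ * g) * z by group, h, two_nsmul]
    abel
  · have hF : Fix D.TΓ = Fix (D.T 3) := by
      refine le_antisymm (fix_anti (e₃ ▸ Set.subset_union_left)) fun σ hσ => ?_
      rw [e₃]
      rintro x (hx | rfl)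
      · exact hσ x hx
      · exact (c₃ σ hσ).resolve_right fun e => hg ⟨σ, hσ, e⟩
    have h₃ : Ch (kk Ω) (D.T 3) t :=
      ⟨hF ▸ ht.hom, hF ▸ D.acl_TΓ hr ▸ ht.sm, hF ▸ ht.out, hF ▸ ht.unr⟩
    refine ⟨fun σ => t σ + t σ, fun _ => 0, h₃.add h₃, ch_zero, fun σ _ => ?_, fun n hn σ =>
      ⟨?_, nsmul_zero n⟩⟩
    · show t σ + t σ + 0 = 2 • t σ
      rw [add_zero, two_nsmul]
    · show n • (t σ + t σ) = 0
      rw [nsmul_add, hn, add_zero]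

end Pool.Agent.P.MP_ee618e_ag.X
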