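import Pool.Agent.P.MP_ee618e_ag.X.M1

/-! M1b: averaging over the centre of the quaternion group. -/

namespace Pool.Agent.P.MP_ee618e_ag.X

open IsDedekindDomain Polynomial
open scoped Classical

theorem st_of_sq {Ω : Type} [Field Ω] {S : Set Ω} {z : Au Ω}
    (h1 : ∀ x ∈ S, z x ∈ Subfield.closure S) (h2 : z * z ∈ Fix S) (x : Ω) :
    z x ∈ Subfield.closure S ↔ x ∈ Subfield.closure S := by
  have ha : ∀ y ∈ Subfield.closure S, z y ∈ Subfield.closure S := fun y hy =>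
    (Subfield.closure_le (t := (Subfield.closure S).comap (z : Ω →+* Ω))).2 h1 hy
  refine ⟨fun h => ?_, ha x⟩
  rw [← fix_closure] at h2
  have h3 : z (z x) = x := z.injective (h2 _ h)
  exact h3 ▸ ha _ h

variable {Ω : Type} [Field Ω] [IsAlgClosed Ω] [CharP Ω 2] {r : ℕ} {D : Surf Ω (4 ^ r)} (G : Geo D)

/-- `k1'` on `Fix TE`, `coc_conj` for `z`, `kap_conj` with `q = 1`; `split` for `t - cj z t` -/
theorem Geo.average (hr : 0 < r) {N : ℕ} {ζ : Ω} (hζ : IsPrimitiveRoot ζ N) (hN : Odd N)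
    {c : Au Ω → Au Ω → ZMod N} (hs : Sm2 (Fix D.TY) c) (hc : Coc (Fix D.TY) c)
    (hl : Loc (kk Ω) (Fix D.TY) c) : ∃ t₃ t₄ : Au Ω → Cl (G.C 2).R,
      Ch (kk Ω) (D.T 3) t₃ ∧ Ch (kk Ω) (D.T 4) t₄ ∧ (∀ σ, N • t₃ σ = 0 ∧ N • t₄ σ = 0) ∧
      Cob (Fix D.TE) fun σ τ => 4 * c σ τ - (G.C 2).cup N ζ t₃ σ τ - (G.C 2).cup N ζ t₄ σ τ := by
  have hN' : (N : Ω) ≠ 0 := odd_ne_zero hN
  obtain ⟨hB, hE⟩ := G.baseΓ hr
  have hle : Fix D.TE ≤ Fix D.TY := D.TE_le hr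
  have hEΓ : Fix D.TE ≤ Fix D.TΓ := hE ▸ inf_le_right
  obtain ⟨t, ht, ht0, hcob⟩ := Fib.k1' (c := c) hζ hN' hB (G.dvs 2 N hN)
    (by rw [hE]; exact hs.mono hle) (by rw [hE]; exact hc.mono hle) (by
      rw [hE, G.hk]
      exact fun O h1 h2 => (hl O h1 h2).mono (inf_le_inf_right _ hle))
  rw [hE] at hcob
  rw [G.hk] at ht
  obtain ⟨z, hzY, hzN, hza, zu, zv, zt, zm, zw⟩ := G.exists_z hr
  have hzk : z ∈ Fix (kk Ω : Set Ω) := fun x hx => hzY x (Or.inl hx)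
  have two : ∀ x : Ω, x + 1 + 1 = x := fun x => by
    rw [add_assoc, CharTwo.add_self_eq_zero, add_zero]
  have hzzE : z * z ∈ Fix D.TE := by
    rintro x (hx | rfl | rfl | rfl | rfl | rfl)
    · rw [au_mul, hzk x hx, hzk x hx]
    · rw [au_mul, zu, zu]
    · rw [au_mul, zv, map_add, zv, map_one, two]
    · rw [au_mul, zt, zt]
    · rw [au_mul, zm, map_add, zm, map_one, two]
    · rw [au_mul, zw, map_add, zw, map_one, two]
  have hsE : ∀ x, z x ∈ Subfield.closure D.TE ↔ x ∈ Subfield.closure D.TE := by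
    refine st_of_sq (fun x hx => ?_) hzzE
    have hx' := Subfield.subset_closure hx
    rcases hx with hx | rfl | rfl | rfl | rfl | rfl
    · rwa [hzk x hx]
    · rwa [zu]
    · exact zv ▸ add_mem hx' (one_mem _)
    · rwa [zt]
    · exact zm ▸ add_mem hx' (one_mem _)
    · exact zw ▸ add_mem hx' (one_mem _)
  have hsΓ : ∀ x, z x ∈ Subfield.closure D.TΓ ↔ x ∈ Subfield.closure D.TΓ := by
    refine st_of_sq (fun x hx => ?_) (hEΓ hzzE)
    have hx' := Subfield.subset_closure hx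
    rcases hx with hx | rfl | rfl | rfl
    · rwa [hzk x hx]
    · rwa [zt]
    · exact zm ▸ add_mem hx' (one_mem _)
    · exact zw ▸ add_mem hx' (one_mem _)
  have hcE : ∀ σ ∈ Fix D.TE, z⁻¹ * σ * z ∈ Fix D.TE := fun σ hσ => (fix_conj hsE).2 hσ
  have ht' : Ch (kk Ω) D.TΓ fun σ => t σ - cj z t σ := ht.sub (ht.cj (fix_le_st _ hzk) hsΓ)
  obtain ⟨t₃, t₄, h3, h4, h34, hn⟩ := split hr ht' hzk zt zm zw (fun σ => by
    have e := congrFun (ht.cj_self (hEΓ hzzE)) σ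
    simp only [cj] at e ⊢
    rw [show z⁻¹ * (z⁻¹ * σ * z) * z = (z * z)⁻¹ * σ * (z * z) by group, e, neg_sub])
  have hn' := hn N (fun σ => by
    simp only [cj]
    rw [smul_sub, ht0, ht0, sub_zero])
  refine ⟨t₃, t₄, h3, h4, hn', ?_⟩
  have c1 := (coc_conj (fo_fix (D.acl_TY hr)) hs hc hzY).mono hle
  have c2 := hcob.cj hcE
  have c3 := (hcob.add c2).sub c1
  refine (c3.add c3).congr fun σ _ τ hτ => ?_
  have hζz : z ζ = ζ ^ 1 := by
    rw [pow_one]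
    exact hzk ζ (G.hk 2 ▸ (G.C 2).zeta_mem hζ hN')
  have e1 := Fib.kap_conj hζ hN' (ht0 (z⁻¹ * τ * z)) hzN hζz (z⁻¹ * σ * z)
  rw [show z * (z⁻¹ * σ * z) * z⁻¹ = σ by group, hza N hN _ (ht0 _), Nat.cast_one, one_mul] at e1
  have hneg : N • -t (z⁻¹ * τ * z) = 0 := by rw [smul_neg, ht0, neg_zero]
  have hsum : N • (t τ + -t (z⁻¹ * τ * z)) = 0 := by rw [smul_add, ht0, hneg, add_zero]
  have e2 := Fib.kap_add hζ hN' (ht0 τ) hneg σ
  have e3 := Fib.kap_add hζ hN' hsum hsum σ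
  have e4 := Fib.kap_add hζ hN' (hn' τ).1 (hn' τ).2 σ
  have e5 := h34 τ (hEΓ hτ)
  simp only [cj] at e5
  rw [two_nsmul, sub_eq_add_neg] at e5
  rw [e5, e3, e2, e1] at e4
  simp only [Fib.cup]
  linear_combination -e4

end Pool.Agent.P.MP_ee618e_ag.X
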