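import Pool.Agent.P.MP_ee618e_ag.X.M1b

/-! M2: corestriction from the product `C₁ × C₁` to the Kummer surface. -/

namespace Pool.Agent.P.MP_ee618e_ag.X

open IsDedekindDomain Polynomial
open scoped Classical

variable {Ω : Type} [Field Ω] [IsAlgClosed Ω] [CharP Ω 2] {r : ℕ} {D : Surf Ω (4 ^ r)} (G : Geo D)

include G in
/-- `ch_eigen` with `q = 1`, `n = -1` for the involution `s`; `g ∈ s Fix (T i)`, `Ch.cj_self` -/
theorem Geo.neg (i : Fin 5) {N : ℕ} (hN : Odd N) {χ : Au Ω → ZMod N} (h : Ch (kk Ω) (D.T i) χ)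
    {g : Au Ω} (hg : g ∈ Fix (kk Ω : Set Ω)) (hx : g (D.X i) = D.X i)
    (hy : g (D.Y i) = D.Y i + 1) (σ : Au Ω) : χ (g⁻¹ * σ * g) = -χ σ := by
  have hN' : (N : Ω) ≠ 0 := odd_ne_zero hN
  have : NeZero (N : Ω) := ⟨hN'⟩
  have : NeZero N := ⟨hN.pos.ne'⟩
  obtain ⟨ζ, hζ⟩ := HasEnoughRootsOfUnity.exists_primitiveRoot Ω N
  obtain ⟨s, hA, sx, sy, hR, hc⟩ := G.inv i
  have h' : Ch (G.C i).k ((G.C i).R0 : Set Ω) χ := by
    have h0 := h.of_closure (G.cl0 i).symm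
    rwa [← G.hk i] at h0
  have hk : ∀ x ∈ kk Ω, s x = x := fun x hx => hA x ((G.C i).kA (by rwa [G.hk i]))
  have h1 := Fib.ch_eigen hζ hN' (α := s) ⟨hR, fix_le_st _ hA⟩ (q := 1)
    (by rw [pow_one]; exact hA ζ ((G.C i).kA (Fib.zeta_mem _ hζ hN'))) (n := -1)
    (fun c _ => by rw [hc, neg_one_zsmul]) h' ((g * s)⁻¹ * σ * (g * s))
  have h2 : g * s ∈ Fix (D.T i) := by
    rintro x (hx' | rfl | rfl)
    · rw [au_mul, hk x hx', hg x hx']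
    · rw [au_mul, sx, hx]
    · rw [au_mul, sy, map_add, map_one, hy, add_assoc, CharTwo.add_self_eq_zero, add_zero]
  have h3 : χ ((g * s)⁻¹ * σ * (g * s)) = χ σ := congrFun (h.cj_self h2) σ
  have h4 : s * ((g * s)⁻¹ * σ * (g * s)) * s⁻¹ = g⁻¹ * σ * g := by group
  rw [h3, h4] at h1
  push_cast at h1
  linear_combination -h1

omit [IsAlgClosed Ω] in
theorem Geo.sw_cl : (∀ x, G.sw x ∈ Subfield.closure (D.T 1) ↔ x ∈ Subfield.closure (D.T 0)) ∧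
    ∀ x, G.sw x ∈ Subfield.closure (D.T 0) ↔ x ∈ Subfield.closure (D.T 1) := by
  have key : ∀ S S' : Set Ω, G.sw '' S = S' →
      ∀ x, G.sw x ∈ Subfield.closure S' ↔ x ∈ Subfield.closure S := by
    rintro S _ rfl x
    have h1 := RingHom.map_field_closure (G.sw : Ω →+* Ω) S
    rw [RingHom.coe_coe] at h1
    rw [← h1, Subfield.mem_map]
    exact ⟨fun ⟨y, hy, e⟩ => G.sw.injective e ▸ hy, fun hx => ⟨x, hx, rfl⟩⟩
  have hk : G.sw '' (kk Ω : Set Ω) = kk Ω := by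
    rw [Set.image_congr G.sw_k, Set.image_id']
  refine ⟨key _ _ ?_, key _ _ ?_⟩
  · change G.sw '' (_ ∪ {D.x₁, D.y₁}) = _ ∪ {D.x₂, D.y₂}
    rw [Set.image_union, hk, Set.image_pair, G.sw_x.1, G.sw_y.1]
  · change G.sw '' (_ ∪ {D.x₂, D.y₂}) = _ ∪ {D.x₁, D.y₁}
    rw [Set.image_union, hk, Set.image_pair, G.sw_x.2, G.sw_y.2]

omit [IsAlgClosed Ω] in
/-- `x₁`, `x₂` are the roots of `Z ^ 2 + s Z + n`; `Y_cases` -/
theorem Geo.TY_cases (hr : 0 < r) {g : Au Ω} (hg : g ∈ Fix D.TY) : ∃ g', (g = g' ∧ g D.x₁ = D.x₁ ∨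
    g = G.sw * g' ∧ g D.x₁ ≠ D.x₁) ∧ g' ∈ Fix (kk Ω : Set Ω) ∧ g' D.x₁ = D.x₁ ∧ g' D.x₂ = D.x₂ ∧
      (g' D.y₁ = D.y₁ ∧ g' D.y₂ = D.y₂ ∨ g' D.y₁ = D.y₁ + 1 ∧ g' D.y₂ = D.y₂ + 1) := by
  have key : ∀ g ∈ Fix D.TY, g D.x₁ = D.x₁ → g ∈ Fix (kk Ω : Set Ω) ∧ g D.x₁ = D.x₁ ∧
      g D.x₂ = D.x₂ ∧ (g D.y₁ = D.y₁ ∧ g D.y₂ = D.y₂ ∨
        g D.y₁ = D.y₁ + 1 ∧ g D.y₂ = D.y₂ + 1) := by
    intro g hg h1
    have hk : g ∈ Fix (kk Ω : Set Ω) := fun x hx => hg x (Or.inl hx)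
    have hs := hg (D.x₁ + D.x₂) (Or.inr (by simp))
    have hy := hg (D.y₁ + D.y₂) (Or.inr (by simp))
    rw [map_add] at hs hy
    refine ⟨hk, h1, by linear_combination hs - h1, ?_⟩
    rcases D.Y_cases hr hk (i := 0) (j := 0) (Or.inl rfl) h1 with h | h
    · change g D.y₁ = D.y₁ at h
      exact Or.inl ⟨h, by linear_combination hy - h⟩
    · change g D.y₁ = D.y₁ + 1 at h
      have h2 : (1 : Ω) + 1 = 0 := CharTwo.add_self_eq_zero 1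
      exact Or.inr ⟨h, by linear_combination hy - h - h2⟩
  by_cases h1 : g D.x₁ = D.x₁
  · exact ⟨g, Or.inl ⟨rfl, h1⟩, key g hg h1⟩
  have hs := hg (D.x₁ + D.x₂) (Or.inr (by simp))
  have hp := hg (D.x₁ * D.x₂) (Or.inr (by simp))
  rw [map_add] at hs
  rw [map_mul] at hp
  have h2 : g D.x₁ = D.x₂ := by
    have h3 : (g D.x₁ - D.x₁) * (g D.x₁ - D.x₂) = 0 := by
      linear_combination g D.x₁ * hs - hp
    exact sub_eq_zero.1 ((mul_eq_zero.1 h3).resolve_left (sub_ne_zero.2 h1))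
  have hsw : G.sw ∈ Fix D.TY := by
    rintro x (hx | rfl | rfl | rfl)
    · exact G.sw_k x hx
    · rw [map_add, G.sw_x.1, G.sw_x.2, add_comm]
    · rw [map_mul, G.sw_x.1, G.sw_x.2, mul_comm]
    · rw [map_add, G.sw_y.1, G.sw_y.2, add_comm]
  refine ⟨G.sw⁻¹ * g, Or.inr ⟨by group, h1⟩, key _ (mul_mem (inv_mem hsw) hg) ?_⟩
  rw [au_mul, h2, au_inv, RingEquiv.symm_apply_eq, G.sw_x.1]

/-- `cores` for `V = Fix TV` in `Fix TY`; on `V` the cocycle is a sum of terms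
`cj s χ σ * cj s χ' τ`, which is `Loc` by `loc_cup`; multiply by the factorial `M` of the index
(`res_fact` on decomposition groups); `neg`, `TY_cases`, `cob_anti` -/
theorem Geo.cores_loc (hr : 0 < r) : ∃ n₁ n₂ : ℕ, 0 < n₁ ∧ ∀ N : ℕ, Odd N →
    ∀ χ χ' : Au Ω → ZMod N, Ch (kk Ω) (D.T 0) χ → Ch (kk Ω) (D.T 1) χ' →
      ∃ c : Au Ω → Au Ω → ZMod N, Sm2 (Fix D.TY) c ∧ Coc (Fix D.TY) c ∧
        Loc (kk Ω) (Fix D.TY) c ∧ Cob (Fix D.TV) fun σ τ =>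
          c σ τ - (n₁ * (χ σ * χ' τ) - n₂ * (cj G.sw χ' σ * cj G.sw χ τ)) := by
  have := kk_algClosed (Ω := Ω)
  have hFO : FO (Fix D.TY) := fo_fix (D.acl_TY hr)
  have hT : Fix D.TY ⊓ Fix (↑({D.x₁, D.y₁, D.x₂, D.y₂} : Finset Ω) : Set Ω) ≤ Fix D.TV := by
    rintro σ ⟨h1, h2⟩ x (hx | hx)
    · exact h1 x (Or.inl hx)
    · exact h2 x (by simpa using hx)
  have h0 : Fix D.TV ≤ Fix (D.T 0) := fix_anti (Set.union_subset_union_right _ (by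
    rintro x (rfl | rfl)
    · exact Or.inl rfl
    · exact Or.inr (Or.inl rfl)))
  have h1 : Fix D.TV ≤ Fix (D.T 1) := fix_anti (Set.union_subset_union_right _ (by
    rintro x (rfl | rfl)
    · exact Or.inr (Or.inr (Or.inl rfl))
    · exact Or.inr (Or.inr (Or.inr rfl))))
  have hacl : Acl D.TV = Set.univ := Set.eq_univ_of_univ_subset <| by
    rw [← D.acl_X hr 0]
    refine acl_mono (Set.union_subset_union_right _ ?_)
    rintro x (rfl | rfl)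
    · exact Or.inl rfl
    · exact Or.inr (Or.inr (Or.inl rfl))
  have hn : ∀ τ ∈ Fix D.TY, ∀ v ∈ Fix D.TV, τ⁻¹ * v * τ ∈ Fix D.TV := by
    intro τ hτ v hv x hx
    rw [au_mul, au_mul, au_inv, RingEquiv.symm_apply_eq]
    have v1 := hv D.x₁ (Or.inr (by simp))
    have v2 := hv D.y₁ (Or.inr (by simp))
    have v3 := hv D.x₂ (Or.inr (by simp))
    have v4 := hv D.y₂ (Or.inr (by simp))
    obtain ⟨g, hg, gk, g1, g2, g3⟩ := G.TY_cases hr hτ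
    rcases hx with hx | hx
    · rw [hτ x (Or.inl hx), hv x (Or.inl hx)]
    · rcases hg with ⟨rfl, -⟩ | ⟨rfl, -⟩ <;> rcases g3 with ⟨g3, g4⟩ | ⟨g3, g4⟩ <;>
        rcases hx with rfl | rfl | rfl | rfl <;>
        simp only [au_mul, g1, g2, g3, g4, v1, v2, v3, v4, map_add, map_one, G.sw_x.1, G.sw_x.2,
          G.sw_y.1, G.sw_y.2]
  obtain ⟨n, s, a, h, hs, ⟨x₀, hx₀⟩, hV, hc⟩ := cores hFO _ D.TV_le hT hn
  set P := Finset.univ.filter fun x => s x D.x₁ = D.x₁ with hP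
  set Q := Finset.univ.filter fun x => ¬ s x D.x₁ = D.x₁ with hQ
  set M := ((Fix D.TV).relIndex (Fix D.TY)).factorial with hM
  refine ⟨M * P.card, M * Q.card, Nat.mul_pos (Nat.factorial_pos _) (Finset.card_pos.2
    ⟨x₀, by simpa [hP] using hx₀ D.x₁ (Or.inr (by simp))⟩), fun N hN χ χ' hχ hχ' => ?_⟩
  obtain ⟨c1, c2⟩ := hc _ χ χ' (hχ.hom.mono h0) (hχ'.hom.mono h1)
    (hχ.sm.mono h0 (Set.subset_univ _)) (hχ'.sm.mono h1 (Set.subset_univ _))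
  have hψ : Ch (kk Ω) (D.T 1) (cj G.sw χ) := hχ.cj (fix_le_st _ G.sw_k) G.sw_cl.1
  have hψ' : Ch (kk Ω) (D.T 0) (cj G.sw χ') := hχ'.cj (fix_le_st _ G.sw_k) G.sw_cl.2
  have hg : ∀ g ∈ Fix (kk Ω : Set Ω), g D.x₁ = D.x₁ → g D.x₂ = D.x₂ →
      (g D.y₁ = D.y₁ ∧ g D.y₂ = D.y₂ ∨ g D.y₁ = D.y₁ + 1 ∧ g D.y₂ = D.y₂ + 1) →
      ∀ σ τ, χ (g⁻¹ * σ * g) * χ' (g⁻¹ * τ * g) = χ σ * χ' τ := by
    rintro g gk g1 g2 (⟨g3, g4⟩ | ⟨g3, g4⟩) σ τ
    · have a0 : g ∈ Fix (D.T 0) := by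
        rintro x (hx | rfl | rfl)
        exacts [gk x hx, g1, g3]
      have a1 : g ∈ Fix (D.T 1) := by
        rintro x (hx | rfl | rfl)
        exacts [gk x hx, g2, g4]
      exact congrArg₂ (· * ·) (congrFun (hχ.cj_self a0) σ) (congrFun (hχ'.cj_self a1) τ)
    · rw [G.neg 0 hN hχ gk g1 g3, G.neg 1 hN hχ' gk g2 g4, neg_mul_neg]
  have hsum : ∀ σ ∈ Fix D.TV, ∀ τ ∈ Fix D.TV, ∑ x, χ (h σ x) * χ' (h τ (a σ x)) =
      P.card • (χ σ * χ' τ) + Q.card • (cj G.sw χ σ * cj G.sw χ' τ) := by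
    intro σ hσ τ hτ
    rw [← Finset.sum_filter_add_sum_filter_not Finset.univ fun x => s x D.x₁ = D.x₁,
      ← Finset.sum_const, ← Finset.sum_const]
    congr 1 <;> refine Finset.sum_congr rfl fun x hx => ?_ <;>
      rw [(hV σ hσ x).1, (hV σ hσ x).2, (hV τ hτ x).2] <;>
      obtain ⟨g, e, gk, g1, g2, g3⟩ := G.TY_cases hr (hs x)
    · rcases e with ⟨e, -⟩ | ⟨-, e⟩
      · rw [e]
        exact hg g gk g1 g2 g3 σ τ
      · exact absurd (Finset.mem_filter.1 hx).2 e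
    · rcases e with ⟨-, e⟩ | ⟨e, -⟩
      · exact absurd e (Finset.mem_filter.1 hx).2
      · have e' : ∀ ρ, (s x)⁻¹ * ρ * s x = g⁻¹ * (G.sw⁻¹ * ρ * G.sw) * g := fun ρ => by
          rw [e]
          group
        rw [e', e']
        exact hg g gk g1 g2 g3 _ _
  refine ⟨fun σ τ => M • ∑ x, χ (h σ x) * χ' (h τ (a σ x)), c2.map fun y => M • y,
    c1.map (nsmulAddMonoidHom M), fun O hO hO' => ?_, ?_⟩
  · refine res_fact hFO inf_le_left _ hT (c2.mono inf_le_left) (c1.mono inf_le_left) ?_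
    have l1 := loc_cup D.td hacl Set.subset_union_left (odd_ne_zero hN) h0 h1 hχ hχ' O hO hO'
    have l2 := loc_cup D.td hacl Set.subset_union_left (odd_ne_zero hN) h1 h0 hψ hψ' O hO hO'
    refine (((l1.map (nsmulAddMonoidHom P.card)).add (l2.map (nsmulAddMonoidHom Q.card))).mono
      (le_inf inf_le_right (inf_le_left.trans inf_le_right))).congr fun σ hσ τ hτ => ?_
    exact (hsum σ hσ.2 τ hτ.2).symm
  · refine ((cob_anti (hψ.hom.mono h1) (hψ'.hom.mono h0) (hψ.sm.mono h1 subset_rfl)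
      (hψ'.sm.mono h0 subset_rfl)).map (nsmulAddMonoidHom (M * Q.card))).congr
      fun σ hσ τ hτ => ?_
    simp only [hsum σ hσ τ hτ, nsmulAddMonoidHom_apply, nsmul_eq_mul]
    push_cast
    ring

end Pool.Agent.P.MP_ee618e_ag.X
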