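import Pool.Agent.P.MP_ee618e_ag.X.B

/-! O1: orders, divisors and classes on a Dedekind domain. -/

namespace Pool.Agent.P.MP_ee618e_ag.X

open IsDedekindDomain Polynomial
open scoped Classical

variable {R : Type} [CommRing R] [IsDedekindDomain R] {P Q : HeightOneSpectrum R} {f g : R}
  {D D' : Dv R}

theorem fin_mult (P : HeightOneSpectrum R) (hf : f ≠ 0) :
    FiniteMultiplicity P.asIdeal (Ideal.span {f}) :=
  FiniteMultiplicity.of_prime_left P.prime (by simpa using hf)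

theorem le_ord_iff (hf : f ≠ 0) {n : ℕ} : n ≤ ord P f ↔ f ∈ P.asIdeal ^ n := by
  rw [ord, ← (fin_mult P hf).pow_dvd_iff_le_multiplicity, Ideal.dvd_span_singleton]

theorem ord_eq_zero (hf : f ≠ 0) : ord P f = 0 ↔ f ∉ P.asIdeal := by
  rw [← pow_one P.asIdeal, ← le_ord_iff hf]
  omega

theorem ord_mul (hf : f ≠ 0) (hg : g ≠ 0) : ord P (f * g) = ord P f + ord P g := by
  have h := fin_mult P (mul_ne_zero hf hg)
  rw [← Ideal.span_singleton_mul_span_singleton] at h
  rw [ord, ← Ideal.span_singleton_mul_span_singleton]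
  exact multiplicity_mul P.prime h

theorem ord_pow (hf : f ≠ 0) (n : ℕ) : ord P (f ^ n) = n * ord P f := by
  induction n with
  | zero =>
    rw [pow_zero, zero_mul, ord_eq_zero one_ne_zero]
    exact P.isPrime.one_notMem
  | succ n ih => rw [pow_succ, ord_mul (pow_ne_zero n hf) hf, ih, Nat.succ_mul]

theorem exists_unif (P : HeightOneSpectrum R) : ∃ π : R, π ≠ 0 ∧ ord P π = 1 := by
  obtain ⟨x, h1, h2⟩ := Ideal.exists_mem_pow_notMem_pow_succ P.asIdeal P.ne_bot P.isPrime.ne_top 1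
  have h0 : x ≠ 0 := fun h => h2 (h ▸ zero_mem _)
  rw [← le_ord_iff h0] at h1 h2
  exact ⟨x, h0, by omega⟩

/-- `g ∈ P ^ ord g` generates this ideal locally -/
theorem ord_le_iff (hf : f ≠ 0) (hg : g ≠ 0) :
    ord P g ≤ ord P f ↔ ∃ s a : R, s ∉ P.asIdeal ∧ f * s = g * a := by
  constructor
  · intro h
    obtain ⟨J, hJ⟩ := Ideal.dvd_span_singleton.2 ((le_ord_iff (P := P) hg).1 le_rfl)
    have h1 : ¬ J ≤ P.asIdeal := fun h1 => by
      have h2 : g ∈ P.asIdeal ^ (ord P g + 1) := by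
        rw [← Ideal.span_singleton_le_iff_mem, hJ, pow_succ]
        exact Ideal.mul_mono_right h1
      rw [← le_ord_iff hg] at h2
      omega
    obtain ⟨s, hs, hs'⟩ := SetLike.not_le_iff_exists.1 h1
    have h3 := Ideal.mul_mem_mul ((le_ord_iff hf).1 h) hs
    rw [← hJ] at h3
    obtain ⟨a, ha⟩ := Ideal.mem_span_singleton.1 h3
    exact ⟨s, a, hs', ha⟩
  · rintro ⟨s, a, hs, e⟩
    have s0 : s ≠ 0 := fun h => hs (h ▸ zero_mem _)
    have a0 : a ≠ 0 := by
      rintro rfl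
      exact mul_ne_zero hf s0 (e.trans (mul_zero g))
    have e1 := congrArg (ord P) e
    rw [ord_mul hf s0, ord_mul hg a0, (ord_eq_zero s0).2 hs] at e1
    omega

theorem ord_eq_imp (hf : f ≠ 0) (hg : g ≠ 0) (h : ord P f = ord P g) :
    ∃ s s' : R, s ∉ P.asIdeal ∧ s' ∉ P.asIdeal ∧ f * s = g * s' := by
  obtain ⟨s, a, hs, e⟩ := (ord_le_iff hf hg).1 h.ge
  have s0 : s ≠ 0 := fun h => hs (h ▸ zero_mem _)
  have a0 : a ≠ 0 := by
    rintro rfl
    exact mul_ne_zero hf s0 (e.trans (mul_zero g))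
  have e1 := congrArg (ord P) e
  rw [ord_mul hf s0, ord_mul hg a0, (ord_eq_zero s0).2 hs] at e1
  exact ⟨s, a, hs, (ord_eq_zero a0).1 (by omega), e⟩

theorem dv_apply (hf : f ≠ 0) (P : HeightOneSpectrum R) : dv f P = ord P f := by
  rw [dv, dif_neg hf]
  exact congrFun Finsupp.ofSupportFinite_coe P

theorem dv_zero : dv (0 : R) = 0 := by
  rw [dv, dif_pos rfl]

theorem dv_nonneg (f : R) : 0 ≤ dv f := by
  rcases eq_or_ne f 0 with rfl | hf
  · rw [dv_zero]
  · intro P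
    rw [dv_apply hf]
    exact Int.natCast_nonneg _

theorem dv_mul (hf : f ≠ 0) (hg : g ≠ 0) : dv (f * g) = dv f + dv g := by
  ext P
  rw [Finsupp.add_apply, dv_apply hf, dv_apply hg, dv_apply (mul_ne_zero hf hg), ord_mul hf hg,
    Nat.cast_add]

theorem dv_pow (hf : f ≠ 0) (n : ℕ) : dv (f ^ n) = (n : ℤ) • dv f := by
  ext P
  rw [Finsupp.smul_apply, dv_apply hf, dv_apply (pow_ne_zero n hf), ord_pow hf, Nat.cast_mul,
    smul_eq_mul]

theorem dv_prod {ι : Type} (s : Finset ι) {a : ι → R} (h : ∀ i ∈ s, a i ≠ 0) :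
    dv (∏ i ∈ s, a i) = ∑ i ∈ s, dv (a i) := by
  induction s using Finset.induction_on with
  | empty => simpa using dv_pow (one_ne_zero (α := R)) 0
  | insert i s hi ih =>
    have h' : ∀ j ∈ s, a j ≠ 0 := fun j hj => h j (Finset.mem_insert_of_mem hj)
    rw [Finset.prod_insert hi, Finset.sum_insert hi,
      dv_mul (h i (Finset.mem_insert_self i s)) (Finset.prod_ne_zero_iff.2 h'), ih h']

theorem dv_le_iff (hf : f ≠ 0) (hg : g ≠ 0) : dv f ≤ dv g ↔ f ∣ g := by
  constructor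
  · intro h
    rw [← Ideal.mem_span_singleton, ← Ideal.dvd_span_singleton,
      UniqueFactorizationMonoid.dvd_iff_emultiplicity_le (by simpa using hf)]
    intro p hp
    let P : HeightOneSpectrum R := ⟨p, Ideal.isPrime_of_prime hp, hp.ne_zero⟩
    have h1 := h P
    rw [dv_apply hf, dv_apply hg, Nat.cast_le] at h1
    exact emultiplicity_le_emultiplicity_iff.2
      (((fin_mult P hf).multiplicity_le_multiplicity_iff (fin_mult P hg)).1 h1)
  · rintro ⟨a, rfl⟩
    rw [dv_mul hf (right_ne_zero_of_mul hg)]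
    exact le_add_of_nonneg_right (dv_nonneg a)

theorem dv_eq_iff (hf : f ≠ 0) (hg : g ≠ 0) : dv f = dv g ↔ Associated f g := by
  rw [le_antisymm_iff, dv_le_iff hf hg, dv_le_iff hg hf, dvd_dvd_iff_associated]

theorem dv_eq_zero (hf : f ≠ 0) : dv f = 0 ↔ IsUnit f := by
  have h : dv (1 : R) = 0 := by simpa using dv_pow (one_ne_zero (α := R)) 0
  rw [← h, dv_eq_iff hf one_ne_zero, associated_one_iff_isUnit]

/-- the ideal of an effective divisor -/
def Id (D : Dv R) : Ideal R := ⨅ P, P.asIdeal ^ (D P).toNat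

theorem mem_Id (hf : f ≠ 0) : f ∈ Id D ↔ ∀ P, D P ≤ ord P f := by
  simp only [Id, Ideal.mem_iInf, ← le_ord_iff hf, Int.toNat_le]

theorem mem_Id' (hf : f ≠ 0) : f ∈ Id D ↔ D ≤ dv f := by
  simp only [mem_Id hf, Finsupp.le_def, dv_apply hf]

theorem Id_dv (hf : f ≠ 0) : Id (dv f) = Ideal.span {f} := by
  ext x
  rcases eq_or_ne x 0 with rfl | hx
  · simp
  · rw [mem_Id' hx, dv_le_iff hf hx, Ideal.mem_span_singleton]

theorem exists_mem_Id (D : Dv R) (hD : 0 ≤ D) (P : HeightOneSpectrum R) :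
    ∃ a, a ≠ 0 ∧ D ≤ dv a ∧ dv a P = D P := by
  choose x h1 h2 using fun Q : HeightOneSpectrum R =>
    Ideal.exists_mem_pow_notMem_pow_succ Q.asIdeal Q.ne_bot Q.isPrime.ne_top (D Q).toNat
  obtain ⟨y, hy⟩ := IsDedekindDomain.exists_forall_sub_mem_ideal (s := insert P D.support)
    (fun Q => Q.asIdeal) (fun Q => (D Q).toNat + 1) (fun Q _ => Q.prime)
    (fun Q _ Q' _ hne e => hne (HeightOneSpectrum.ext e)) fun Q => x Q
  have k2 : ∀ Q ∈ insert P D.support, y ∉ Q.asIdeal ^ ((D Q).toNat + 1) := fun Q hQ h =>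
    h2 Q (by simpa using sub_mem h (hy Q hQ))
  have y0 : y ≠ 0 := fun h => k2 P (Finset.mem_insert_self _ _) (h ▸ zero_mem _)
  have k3 : ∀ Q ∈ insert P D.support, dv y Q = D Q := fun Q hQ => by
    have k1 : y ∈ Q.asIdeal ^ (D Q).toNat := by
      simpa using add_mem (Ideal.pow_le_pow_right (Nat.le_succ _) (hy Q hQ)) (h1 Q)
    have k4 := k2 Q hQ
    have k5 : (0 : ℤ) ≤ D Q := hD Q
    rw [← le_ord_iff y0] at k1 k4
    rw [dv_apply y0]
    omega
  refine ⟨y, y0, fun Q => ?_, k3 P (Finset.mem_insert_self _ _)⟩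
  by_cases hQ : Q ∈ D.support
  · exact (k3 Q (Finset.mem_insert_of_mem hQ)).ge
  · rw [Finsupp.notMem_support_iff.1 hQ]
    exact dv_nonneg y Q

end Pool.Agent.P.MP_ee618e_ag.X
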