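import Pool.Agent.P.MP_ee618e_ag.X.O1b

/-! O2: curves with one point at infinity, dimension counts. -/

namespace Pool.Agent.P.MP_ee618e_ag.X

open IsDedekindDomain Polynomial
open scoped Classical

variable {A R : Type} [Field A] [CommRing R] [IsDedekindDomain R] [Algebra A R] {dg : R → ℕ}
  {f g : R}

theorem OP.congr (h : OP A dg) {dg' : R → ℕ} (e : ∀ f, dg f = dg' f) : OP A dg' := by
  obtain rfl : dg = dg' := funext e
  exact h

theorem OP.zero (h : OP A dg) : dg 0 = 0 := by
  simpa using h.const 0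

theorem OP.one (h : OP A dg) : dg 1 = 0 := by
  simpa using h.const 1

theorem OP.smul (h : OP A dg) {c : A} (hc : c ≠ 0) (f : R) : dg (c • f) = dg f := by
  by_cases hf : f = 0
  · rw [hf, smul_zero]
  rw [Algebra.smul_def, h.mul _ _ ((_root_.map_ne_zero _).2 hc) hf, h.const, zero_add]

theorem OP.neg (h : OP A dg) (f : R) : dg (-f) = dg f := by
  rw [← neg_one_smul A f, h.smul (neg_ne_zero.2 one_ne_zero)]

theorem OP.pow (h : OP A dg) (hf : f ≠ 0) (n : ℕ) : dg (f ^ n) = n * dg f := by
  induction n with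
  | zero => rw [pow_zero, h.one, zero_mul]
  | succ n ih => rw [pow_succ, h.mul _ _ (pow_ne_zero _ hf) hf, ih, Nat.succ_mul]

theorem OP.mul_le (h : OP A dg) (f g : R) : dg (f * g) ≤ dg f + dg g := by
  by_cases hf : f = 0
  · rw [hf, zero_mul, h.zero]
    exact Nat.zero_le _
  by_cases hg : g = 0
  · rw [hg, mul_zero, h.zero]
    exact Nat.zero_le _
  exact (h.mul f g hf hg).le

theorem OP.add_eq (h : OP A dg) (hlt : dg g < dg f) : dg (f + g) = dg f := by
  have h1 := h.add f g
  have h2 := h.add (f + g) (-g)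
  rw [add_neg_cancel_right, h.neg] at h2
  omega

theorem OP.eq_const (h : OP A dg) (h0 : dg f = 0) : ∃ c : A, f = algebraMap A R c := by
  obtain ⟨c, hc | hc⟩ := h.lead f 1 one_ne_zero (h0.trans h.one.symm)
  · exact ⟨c, by rw [hc, Algebra.algebraMap_eq_smul_one]⟩
  · rw [h.one] at hc
    omega

theorem OP.unit (h : OP A dg) (hf : IsUnit f) : ∃ c : A, c ≠ 0 ∧ f = algebraMap A R c := by
  obtain ⟨g, hg⟩ := hf.exists_right_inv
  have h1 := h.mul f g hf.ne_zero (right_ne_zero_of_mul_eq_one hg)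
  rw [hg, h.one] at h1
  obtain ⟨c, hc⟩ := h.eq_const (f := f) (by omega)
  exact ⟨c, fun h0 => hf.ne_zero (by rw [hc, h0, map_zero]), hc⟩

theorem OP.of_dv_eq (h : OP A dg) (hf : f ≠ 0) (hg : g ≠ 0) (e : dv f = dv g) :
    ∃ c : A, c ≠ 0 ∧ f = c • g := by
  obtain ⟨u, hu⟩ := (dv_eq_iff hg hf).1 e.symm
  obtain ⟨c, hc, hc'⟩ := h.unit u.isUnit
  exact ⟨c, hc, by rw [← hu, hc', Algebra.smul_def, mul_comm]⟩

theorem dv_smul {c : A} (hc : c ≠ 0) (f : R) : dv (c • f) = dv f := by
  by_cases hf : f = 0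
  · rw [hf, smul_zero]
  rw [Algebra.smul_def, dv_mul ((_root_.map_ne_zero _).2 hc) hf,
    (dv_eq_zero ((_root_.map_ne_zero _).2 hc)).2 (hc.isUnit.map _), zero_add]

/-- functions with pole order `< n` -/
def OP.lt (h : OP A dg) (n : ℕ) : Submodule A R where
  carrier := {f | f = 0 ∨ dg f < n}
  add_mem' := by
    rintro a b (rfl | ha) (rfl | hb)
    · simp
    · simpa using Or.inr hb
    · simpa using Or.inr ha
    · exact Or.inr ((h.add a b).trans_lt (max_lt ha hb))
  zero_mem' := Or.inl rfl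
  smul_mem' := by
    rintro c a (rfl | ha)
    · simp
    · by_cases hc : c = 0
      · simp [hc]
      · exact Or.inr ((h.smul hc a).trans_lt ha)

/-- the values of `dg` on a set of functions -/
def vals (dg : R → ℕ) (I : Set R) : Set ℕ := {n | ∃ f ∈ I, f ≠ 0 ∧ dg f = n}

/-- induction on `n` with `lead` -/
theorem OP.finrank_lt (h : OP A dg) (I : Submodule A R) (n : ℕ) :
    FiniteDimensional A (I ⊓ h.lt n : Submodule A R) ∧
      Module.finrank A (I ⊓ h.lt n : Submodule A R) = (vals dg I ∩ Set.Iio n).ncard := by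
  have mem : ∀ n f, f ∈ h.lt n ↔ f = 0 ∨ dg f < n := fun _ _ => Iff.rfl
  induction n with
  | zero =>
    have : I ⊓ h.lt 0 = ⊥ := by
      rw [eq_bot_iff]
      rintro f ⟨-, hf | hf⟩
      · exact hf
      · omega
    rw [this]
    refine ⟨inferInstance, ?_⟩
    have h2 : vals dg I ∩ Set.Iio 0 = ∅ := by
      ext m
      simp
    rw [h2, finrank_bot, Set.ncard_empty]
  | succ n ih =>
    obtain ⟨fd, ih⟩ := ih
    by_cases hn : n ∈ vals dg I
    · obtain ⟨g, hgI, hg, hgn⟩ := id hn
      have e1 : I ⊓ h.lt (n + 1) = (I ⊓ h.lt n) ⊔ Submodule.span A {g} := by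
        apply le_antisymm
        · rintro f ⟨hfI, hf⟩
          rw [SetLike.mem_coe, mem] at hf
          by_cases hlt : f = 0 ∨ dg f < n
          · exact Submodule.mem_sup_left ⟨hfI, hlt⟩
          obtain ⟨c, hc⟩ := h.lead f g hg (by
            rcases hf with hf | hf
            · exact (hlt (Or.inl hf)).elim
            · have := fun h' => hlt (Or.inr h')
              omega)
          rw [← sub_add_cancel f (c • g)]
          refine Submodule.add_mem_sup ⟨I.sub_mem hfI (I.smul_mem c hgI), ?_⟩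
            (Submodule.smul_mem _ c (Submodule.mem_span_singleton_self g))
          rw [SetLike.mem_coe, mem, sub_eq_zero, ← hgn]
          exact hc
        · refine sup_le (fun f hf => ⟨hf.1, ?_⟩) ?_
          · exact hf.2.imp id Nat.lt_succ_of_lt
          · rw [Submodule.span_singleton_le_iff_mem]
            exact ⟨hgI, Or.inr (by omega)⟩
      have e2 : vals dg I ∩ Set.Iio (n + 1) = insert n (vals dg I ∩ Set.Iio n) := by
        ext m
        simp only [Set.mem_inter_iff, Set.mem_Iio, Set.mem_insert_iff]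
        constructor
        · rintro ⟨h1, h2⟩
          rcases Nat.lt_succ_iff_lt_or_eq.1 h2 with h3 | h3
          exacts [Or.inr ⟨h1, h3⟩, Or.inl h3]
        · rintro (rfl | ⟨h1, h2⟩)
          exacts [⟨hn, Nat.lt_succ_self _⟩, ⟨h1, Nat.lt_succ_of_lt h2⟩]
      have e3 : (I ⊓ h.lt n) ⊓ Submodule.span A {g} = ⊥ := by
        refine (Submodule.disjoint_span_singleton_of_notMem ?_).eq_bot
        rintro ⟨-, h1 | h1⟩
        · exact hg h1
        · omega
      have e4 := Submodule.finrank_sup_add_finrank_inf_eq (I ⊓ h.lt n) (Submodule.span A {g})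
      rw [e3, finrank_bot, finrank_span_singleton hg, add_zero] at e4
      rw [e1, e2, e4, ih, Set.ncard_insert_of_notMem (fun h' => lt_irrefl n h'.2)
        ((Set.finite_Iio n).inter_of_right _)]
      exact ⟨inferInstance, rfl⟩
    · have e1 : I ⊓ h.lt (n + 1) = I ⊓ h.lt n := by
        apply le_antisymm
        · rintro f ⟨hfI, hf⟩
          refine ⟨hfI, ?_⟩
          rw [SetLike.mem_coe, mem] at hf ⊢
          by_cases h0 : f = 0
          · exact Or.inl h0
          have h1 : dg f ≠ n := fun h1 => hn ⟨f, hfI, h0, h1⟩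
          have h2 := hf.resolve_left h0
          exact Or.inr (by omega)
        · exact fun f hf => ⟨hf.1, hf.2.imp id Nat.lt_succ_of_lt⟩
      have e2 : vals dg I ∩ Set.Iio (n + 1) = vals dg I ∩ Set.Iio n := by
        ext m
        simp only [Set.mem_inter_iff, Set.mem_Iio]
        refine and_congr_right fun hm => ?_
        have : m ≠ n := fun h' => hn (h' ▸ hm)
        omega
      rw [e1, e2]
      exact ⟨fd, ih⟩

theorem OP.fd_lt (h : OP A dg) (n : ℕ) : FiniteDimensional A (h.lt n) := by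
  have := (h.finrank_lt ⊤ n).1
  rwa [top_inf_eq] at this

/-- an element whose pole order is in `vals dg I` can be reduced modulo `I` -/
theorem OP.reduce (h : OP A dg) (I : Submodule A R) (b : ℕ → R)
    (hb : ∀ n ∈ vals dg Set.univ, b n ≠ 0 ∧ dg (b n) = n) (f : R) :
    ∃ s ∈ Submodule.span A (b '' {n | n ≤ dg f ∧ n ∈ vals dg Set.univ ∧ n ∉ vals dg I}),
      f - s ∈ I := by
  induction hn : dg f using Nat.strong_induction_on generalizing f with
  | _ n ih =>
    by_cases hf : f = 0
    · exact ⟨0, zero_mem _, by rw [hf, sub_zero]; exact zero_mem _⟩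
    have mono : ∀ m, m < n →
        Submodule.span A (b '' {k | k ≤ m ∧ k ∈ vals dg Set.univ ∧ k ∉ vals dg I}) ≤
        Submodule.span A (b '' {k | k ≤ n ∧ k ∈ vals dg Set.univ ∧ k ∉ vals dg I}) :=
      fun m hm => Submodule.span_mono (Set.image_mono fun k hk => ⟨hk.1.trans hm.le, hk.2⟩)
    by_cases hI : n ∈ vals dg I
    · obtain ⟨g, hgI, hg, hgn⟩ := hI
      obtain ⟨c, hc | hc⟩ := h.lead f g hg (hn.trans hgn.symm)
      · exact ⟨0, zero_mem _, by rw [hc, sub_zero]; exact I.smul_mem c hgI⟩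
      · rw [hgn] at hc
        obtain ⟨s, hs, hs'⟩ := ih _ hc _ rfl
        refine ⟨s, mono _ hc hs, ?_⟩
        have := I.add_mem hs' (I.smul_mem c hgI)
        rwa [sub_right_comm, sub_add_cancel] at this
    · have hv : n ∈ vals dg Set.univ := ⟨f, trivial, hf, hn⟩
      have hm : ∀ c : A, c • b n ∈
          Submodule.span A (b '' {k | k ≤ n ∧ k ∈ vals dg Set.univ ∧ k ∉ vals dg I}) :=
        fun c => Submodule.smul_mem _ c (Submodule.subset_span ⟨n, ⟨le_rfl, hv, hI⟩, rfl⟩)
      obtain ⟨c, hc | hc⟩ := h.lead f (b n) (hb n hv).1 (hn.trans (hb n hv).2.symm)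
      · exact ⟨c • b n, hm c, by rw [hc, sub_self]; exact zero_mem _⟩
      · rw [(hb n hv).2] at hc
        obtain ⟨s, hs, hs'⟩ := ih _ hc _ rfl
        exact ⟨c • b n + s, add_mem (hm c) (mono _ hc hs), by rwa [← sub_sub]⟩

theorem OP.dg_span (h : OP A dg) (b : ℕ → R) (M : Set ℕ) (hb : ∀ n ∈ M, b n ≠ 0 ∧ dg (b n) = n)
    {s : R} (hs : s ∈ Submodule.span A (b '' M)) (h0 : s ≠ 0) : dg s ∈ M := by
  have key : ∀ (c : ℕ → A) (T : Finset ℕ), ↑T ⊆ M →
      ∑ n ∈ T, c n • b n = 0 ∨ dg (∑ n ∈ T, c n • b n) ∈ T := by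
    intro c T
    induction T using Finset.induction_on_max with
    | empty => exact fun _ => Or.inl Finset.sum_empty
    | insert a T ha ih =>
      intro hT
      rw [Finset.coe_insert, Set.insert_subset_iff] at hT
      rw [Finset.sum_insert fun h' => lt_irrefl _ (ha a h')]
      by_cases hc : c a = 0
      · rw [hc, zero_smul, zero_add]
        exact (ih hT.2).imp id Finset.mem_insert_of_mem
      have h1 : dg (c a • b a) = a := (h.smul hc _).trans (hb a hT.1).2
      right
      rcases ih hT.2 with h2 | h2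
      · rw [h2, add_zero, h1]
        exact Finset.mem_insert_self _ _
      · rw [h.add_eq (by rw [h1]; exact ha _ h2), h1]
        exact Finset.mem_insert_self _ _
  obtain ⟨l, hl, rfl⟩ := (Finsupp.mem_span_image_iff_linearCombination A).1 hs
  have hl' : ↑l.support ⊆ M := hl
  exact hl' ((key l l.support hl').resolve_left h0)

/-- the `(M + 1) ^ 2` products `f ^ i g ^ j` lie in a space of dimension `O(M)` -/
theorem OP.dep (h : OP A dg) (x : Fin 2 → R) : ¬ AlgebraicIndependent A x := by
  intro hx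
  set d := dg (x 0) + dg (x 1) with hd
  let m : Fin (d + 2) × Fin (d + 2) → Fin 2 →₀ ℕ := fun p =>
    Finsupp.single 0 (p.1 : ℕ) + Finsupp.single 1 (p.2 : ℕ)
  have hm : Function.Injective m := by
    intro p q hpq
    have h0 := DFunLike.congr_fun hpq 0
    have h1 := DFunLike.congr_fun hpq 1
    simp [m] at h0 h1
    exact Prod.ext (Fin.ext h0) (Fin.ext h1)
  have li := ((MvPolynomial.basisMonomials (Fin 2) A).linearIndependent.comp m hm).map'
    (MvPolynomial.aeval x).toLinearMap (LinearMap.ker_eq_bot.2 hx)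
  have hv : ∀ p : Fin (d + 2) × Fin (d + 2),
      x 0 ^ (p.1 : ℕ) * x 1 ^ (p.2 : ℕ) ∈ h.lt ((d + 1) * d + 1) := by
    intro p
    refine Or.inr (Nat.lt_succ_of_le ((h.mul_le _ _).trans ?_))
    rw [h.pow (hx.ne_zero 0), h.pow (hx.ne_zero 1)]
    exact (add_le_add (Nat.mul_le_mul_right _ (Nat.le_of_lt_succ p.1.2))
      (Nat.mul_le_mul_right _ (Nat.le_of_lt_succ p.2.2))).trans_eq (mul_add _ _ _).symm
  have li' : LinearIndependent A fun p => (⟨_, hv p⟩ : h.lt ((d + 1) * d + 1)) := by
    refine LinearIndependent.of_comp (h.lt _).subtype ?_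
    refine (congrArg (fun v => LinearIndependent A v) (funext fun p => ?_)).mp li
    simp [m, MvPolynomial.aeval_monomial, Finsupp.prod_add_index', pow_add]
  have := h.fd_lt ((d + 1) * d + 1)
  have h1 := li'.fintype_card_le_finrank
  have h2 := (h.finrank_lt ⊤ ((d + 1) * d + 1)).2
  rw [top_inf_eq] at h2
  have h3 := Set.ncard_le_ncard (Set.inter_subset_right (s := vals dg ((⊤ : Submodule A R) : Set R))
    (t := Set.Iio ((d + 1) * d + 1))) (Set.finite_Iio _)
  rw [← h2, Set.ncard_Iio_nat] at h3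
  simp only [Fintype.card_prod, Fintype.card_fin] at h1
  nlinarith

end Pool.Agent.P.MP_ee618e_ag.X
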