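import Pool.Agent.P.MP_ee618e_ag.X.O2

/-! O2b: evaluation, product formula, Riemann's inequality. -/

namespace Pool.Agent.P.MP_ee618e_ag.X

open IsDedekindDomain Polynomial
open scoped Classical

variable {A R : Type} [Field A] [CommRing R] [IsDedekindDomain R] [Algebra A R] {dg : R → ℕ}
  {f g : R}

theorem o2b_step {V : Type} [AddCommGroup V] [Module A V] {I J : Submodule A V} (hJI : J ≤ I)
    {a : V} (ha : a ∈ I) (ha' : a ∉ J) (hs : ∀ x ∈ I, ∃ c : A, x - c • a ∈ J)
    [FiniteDimensional A (V ⧸ I)] :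
    FiniteDimensional A (V ⧸ J) ∧ Module.finrank A (V ⧸ J) = Module.finrank A (V ⧸ I) + 1 := by
  have hk : LinearMap.ker (Submodule.factor hJI) = Submodule.span A {J.mkQ a} := by
    apply le_antisymm
    · intro y hy
      obtain ⟨x, rfl⟩ := J.mkQ_surjective y
      have hx : x ∈ I := by
        rw [LinearMap.mem_ker, Submodule.factor_mk] at hy
        exact (Submodule.Quotient.mk_eq_zero I).1 hy
      obtain ⟨c, hc⟩ := hs x hx
      refine Submodule.mem_span_singleton.2 ⟨c, ?_⟩
      rw [← map_smul]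
      exact ((Submodule.Quotient.eq J).2 hc).symm
    · rw [Submodule.span_singleton_le_iff_mem, LinearMap.mem_ker, Submodule.factor_mk]
      exact (Submodule.Quotient.mk_eq_zero I).2 ha
  have hr : LinearMap.range (Submodule.factor hJI) = ⊤ :=
    LinearMap.range_eq_top.2 (Submodule.factor_surjective hJI)
  have hfd : FiniteDimensional A (V ⧸ J) := by
    refine ⟨Submodule.fg_of_fg_map_of_fg_inf_ker (Submodule.factor hJI) ?_ ?_⟩
    · exact IsNoetherian.noetherian _
    · rw [top_inf_eq, hk]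
      exact Submodule.fg_span_singleton _
  refine ⟨hfd, ?_⟩
  have h0 : J.mkQ a ≠ 0 := fun e => ha' ((Submodule.Quotient.mk_eq_zero J).1 e)
  rw [← LinearMap.finrank_range_add_finrank_ker (Submodule.factor hJI), hr, hk, finrank_top,
    finrank_span_singleton h0]

theorem o2b_count {V : Set ℕ} (hV : (Set.univ \ V).Finite) {d : ℕ} (hd : ∀ v ∈ V, d + v ∈ V) :
    (V \ (fun v => d + v) '' V).ncard = d := by
  have hinj : Function.Injective fun v : ℕ => d + v := fun a b e => Nat.add_left_cancel e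
  have e : Set.Iio d ∪ (fun v => d + v) '' (Set.univ \ V) =
      (Set.univ \ V) ∪ (V \ (fun v => d + v) '' V) := by
    ext n
    simp only [Set.mem_union, Set.mem_Iio, Set.mem_image, Set.mem_sdiff, Set.mem_univ, true_and]
    constructor
    · rintro (hn | ⟨v, hv, rfl⟩)
      · by_cases hnV : n ∈ V
        · refine Or.inr ⟨hnV, ?_⟩
          rintro ⟨v, -, rfl⟩
          omega
        · exact Or.inl hnV
      · by_cases hnV : d + v ∈ V
        · refine Or.inr ⟨hnV, ?_⟩
          rintro ⟨w, hw, e⟩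
          exact hv (Nat.add_left_cancel e ▸ hw)
        · exact Or.inl hnV
    · intro hn
      by_cases hnd : n < d
      · exact Or.inl hnd
      · obtain ⟨v, rfl⟩ := Nat.exists_eq_add_of_le (not_lt.1 hnd)
        refine Or.inr ⟨v, fun hv => ?_, rfl⟩
        rcases hn with hn | ⟨-, hn⟩
        · exact hn (hd v hv)
        · exact hn ⟨v, hv, rfl⟩
  have hf1 : (Set.Iio d ∪ (fun v => d + v) '' (Set.univ \ V)).Finite :=
    (Set.finite_Iio d).union (hV.image _)
  have hf2 : (V \ (fun v => d + v) '' V).Finite :=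
    hf1.subset (e ▸ Set.subset_union_right)
  have d1 : Disjoint (Set.Iio d) ((fun v => d + v) '' (Set.univ \ V)) := by
    rw [Set.disjoint_left]
    rintro n hn ⟨v, -, rfl⟩
    simp at hn
  have d2 : Disjoint (Set.univ \ V) (V \ (fun v => d + v) '' V) := by
    rw [Set.disjoint_left]
    exact fun n hn hn' => hn.2 hn'.1
  have c := congrArg Set.ncard e
  rw [Set.ncard_union_eq d1 (Set.finite_Iio d) (hV.image _), Set.ncard_union_eq d2 hV hf2,
    Set.ncard_image_of_injective _ hinj] at c
  have : (Set.Iio d).ncard = d := by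
    rw [← Finset.coe_range, Set.ncard_coe_finset, Finset.card_range]
  omega

theorem OP.gaps' (h : OP A dg) : (Set.univ \ vals dg Set.univ).Finite :=
  h.gaps.subset fun _ hn f hf e => hn.2 ⟨f, trivial, hf, e⟩

variable [IsAlgClosed A]

/-- evaluation at a point (`finite_of_finite_type_of_isJacobsonRing`) -/
theorem OP.exists_ev (h : OP A dg) (P : HeightOneSpectrum R) :
    ∃ ev : R →ₐ[A] A, ∀ f, ev f = 0 ↔ f ∈ P.asIdeal := by
  have := P.isMaximal
  have := h.ft
  let _ := Ideal.Quotient.field P.asIdeal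
  have : Module.Finite A (R ⧸ P.asIdeal) := finite_of_finite_type_of_isJacobsonRing _ _
  have hb : Function.Bijective (Algebra.ofId A (R ⧸ P.asIdeal)) :=
    IsAlgClosed.algebraMap_bijective_of_isIntegral
  refine ⟨(AlgEquiv.ofBijective _ hb).symm.toAlgHom.comp (Ideal.Quotient.mkₐ A P.asIdeal),
    fun f => ?_⟩
  rw [← Ideal.Quotient.eq_zero_iff_mem]
  exact (AlgEquiv.ofBijective _ hb).symm.map_eq_zero_iff

theorem OP.id_step (h : OP A dg) (D : Dv R) (hD : 0 ≤ D) (P : HeightOneSpectrum R)
    [FiniteDimensional A (R ⧸ (Id D).restrictScalars A)] :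
    FiniteDimensional A (R ⧸ (Id (Finsupp.single P 1 + D)).restrictScalars A) ∧
      Module.finrank A (R ⧸ (Id (Finsupp.single P 1 + D)).restrictScalars A) =
        Module.finrank A (R ⧸ (Id D).restrictScalars A) + 1 := by
  obtain ⟨a, ha, hDa, hP⟩ := exists_mem_Id D hD P
  obtain ⟨ev, hev⟩ := h.exists_ev P
  have haI : a ∈ Id D := (mem_Id' ha).2 hDa
  refine o2b_step (a := a) ?_ haI ?_ ?_
  · intro x hx
    by_cases h0 : x = 0
    · exact h0 ▸ Submodule.zero_mem _
    · refine (mem_Id' h0).2 (le_trans ?_ ((mem_Id' h0).1 hx))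
      exact le_add_of_nonneg_left (Finsupp.single_nonneg.2 zero_le_one)
  · intro hx
    have := (mem_Id' ha).1 hx P
    rw [hP, Finsupp.add_apply, Finsupp.single_eq_same] at this
    omega
  · intro x hx
    by_cases h0 : x = 0
    · exact ⟨0, by simp [h0]⟩
    have hx' : x ∈ Id D := hx
    rw [dv_apply ha] at hP
    have hle : ord P a ≤ ord P x := by
      have := (mem_Id h0).1 hx' P
      omega
    obtain ⟨s, t, hs, e⟩ := (ord_le_iff h0 ha).1 hle
    have hs0 : s ≠ 0 := fun e => hs (e ▸ Submodule.zero_mem _)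
    have hes : ev s ≠ 0 := fun e => hs ((hev s).1 e)
    refine ⟨ev t / ev s, ?_⟩
    by_cases hy : x - (ev t / ev s) • a = 0
    · exact hy ▸ Submodule.zero_mem _
    have hyI : x - (ev t / ev s) • a ∈ Id D :=
      ((Id D).restrictScalars A).sub_mem hx (((Id D).restrictScalars A).smul_mem _ haI)
    have e' : (x - (ev t / ev s) • a) * s = a * (t - (ev t / ev s) • s) := by
      rw [sub_mul, e, mul_sub, smul_mul_assoc, mul_smul_comm]
    have ht0 : t - (ev t / ev s) • s ≠ 0 := fun e0 => by
      rw [e0, mul_zero] at e'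
      exact mul_ne_zero hy hs0 e'
    have htP : t - (ev t / ev s) • s ∈ P.asIdeal := by
      rw [← hev, map_sub, map_smul, smul_eq_mul, div_mul_cancel₀ _ hes, sub_self]
    have ho := congrArg (ord P) e'
    rw [ord_mul hy hs0, ord_mul ha ht0, (ord_eq_zero hs0).2 hs] at ho
    have hne : ord P (t - (ev t / ev s) • s) ≠ 0 := fun e0 => (ord_eq_zero ht0).1 e0 htP
    refine (mem_Id hy).2 fun Q => ?_
    by_cases hQ : P = Q
    · subst hQ
      rw [Finsupp.add_apply, Finsupp.single_eq_same]
      omega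
    · rw [Finsupp.add_apply, Finsupp.single_apply, if_neg hQ, zero_add]
      exact (mem_Id hy).1 hyI Q

/-- for `a₀` with `ord P a₀ = D P`, the map `a ↦ ev (a / a₀)` on `Id D` has kernel
`Id (D + P)` -/
theorem OP.finrank_Id (h : OP A dg) (D : Dv R) (hD : 0 ≤ D) :
    FiniteDimensional A (R ⧸ (Id D).restrictScalars A) ∧
      (Module.finrank A (R ⧸ (Id D).restrictScalars A) : ℤ) = D.degree := by
  obtain ⟨n, p, hn, rfl⟩ := exists_points hD
  rw [← hn]
  clear hn hD
  induction n with
  | zero =>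
    have e : (Id (∑ i, Finsupp.single (p i) (1 : ℤ))).restrictScalars A = ⊤ := by
      rw [Finset.univ_eq_empty, Finset.sum_empty, eq_top_iff]
      intro x _
      by_cases h0 : x = 0
      · exact h0 ▸ Submodule.zero_mem _
      · exact (mem_Id' h0).2 (dv_nonneg x)
    have := Submodule.Quotient.subsingleton_iff.2 e
    exact ⟨inferInstance, by rw [Module.finrank_zero_of_subsingleton]⟩
  | succ n ih =>
    obtain ⟨h1, h2⟩ := ih fun i => p i.succ
    rw [Fin.sum_univ_succ]
    obtain ⟨h3, h4⟩ := h.id_step (∑ i : Fin n, Finsupp.single (p i.succ) (1 : ℤ))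
      (Finset.sum_nonneg fun i _ => Finsupp.single_nonneg.2 zero_le_one) (p 0)
    refine ⟨h3, ?_⟩
    rw [h4]
    push_cast
    rw [h2]

/-- the codimension of `I` is the number of values missed by `I` -/
theorem OP.codim (h : OP A dg) (I : Submodule A R) [FiniteDimensional A (R ⧸ I)] :
    (vals dg Set.univ \ vals dg I).Finite ∧
      Module.finrank A (R ⧸ I) = (vals dg Set.univ \ vals dg I).ncard := by
  have hb : ∀ n, ∃ b : R, n ∈ vals dg Set.univ → b ≠ 0 ∧ dg b = n := fun n => by
    by_cases hn : n ∈ vals dg Set.univ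
    · obtain ⟨b, -, hb⟩ := hn
      exact ⟨b, fun _ => hb⟩
    · exact ⟨0, fun h => absurd h hn⟩
  choose b hb using hb
  set M := vals dg Set.univ \ vals dg I with hM
  have hli : LinearIndepOn A (fun n => I.mkQ (b n)) M := by
    rw [linearIndepOn_iff_notMem_span]
    intro n hn hs
    rw [← Set.image_image I.mkQ b, ← Submodule.map_span] at hs
    obtain ⟨s, hs, e⟩ := hs
    have hI : s - b n ∈ I := (Submodule.Quotient.eq I).1 e
    have hS : s - b n ∈ Submodule.span A (b '' M) :=
      Submodule.sub_mem _ (Submodule.span_mono (Set.image_mono Set.sdiff_subset) hs)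
        (Submodule.subset_span ⟨n, hn, rfl⟩)
    by_cases h0 : s - b n = 0
    · rw [sub_eq_zero] at h0
      have := h.dg_span b (M \ {n}) (fun m hm => hb m hm.1.1) hs (h0 ▸ (hb n hn.1).1)
      rw [h0, (hb n hn.1).2] at this
      exact this.2 rfl
    · exact (h.dg_span b M (fun m hm => hb m hm.1) hS h0).2 ⟨_, hI, h0, rfl⟩
  have hsp : ⊤ ≤ Submodule.span A (Set.range fun n : M => I.mkQ (b n)) := by
    intro y _
    obtain ⟨x, rfl⟩ := I.mkQ_surjective y
    obtain ⟨s, hs, e⟩ := h.reduce I b hb x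
    have e' : I.mkQ x = I.mkQ s := (Submodule.Quotient.eq I).2 e
    have e2 : (Set.range fun n : M => I.mkQ (b n)) = I.mkQ '' (b '' M) := by
      rw [Set.image_image, Set.image_eq_range]
    rw [e', e2, ← Submodule.map_span]
    refine Submodule.mem_map_of_mem (Submodule.span_mono (Set.image_mono ?_) hs)
    exact fun n hn => hn.2
  let B := Module.Basis.mk hli hsp
  exact ⟨Module.Finite.finite_basis B, Module.finrank_eq_nat_card_basis B⟩

/-- product formula: `vals dg (f) = dg f + vals dg univ` -/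
theorem OP.degree_dv (h : OP A dg) (hf : f ≠ 0) : (dv f).degree = dg f := by
  obtain ⟨h1, h2⟩ := h.finrank_Id (dv f) (dv_nonneg f)
  have e : vals dg ((Id (dv f)).restrictScalars A : Submodule A R) =
      (fun v => dg f + v) '' vals dg Set.univ := by
    rw [Id_dv hf]
    ext n
    constructor
    · rintro ⟨x, hx, h0, rfl⟩
      obtain ⟨y, rfl⟩ := Ideal.mem_span_singleton.1 hx
      have hy : y ≠ 0 := right_ne_zero_of_mul h0
      exact ⟨dg y, ⟨y, trivial, hy, rfl⟩, (h.mul f y hf hy).symm⟩
    · rintro ⟨_, ⟨y, -, hy, rfl⟩, rfl⟩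
      exact ⟨f * y, Ideal.mem_span_singleton.2 (dvd_mul_right f y), mul_ne_zero hf hy,
        h.mul f y hf hy⟩
  rw [← h2, (h.codim _).2, e, o2b_count h.gaps']
  rintro _ ⟨y, -, hy, rfl⟩
  exact ⟨f * y, trivial, mul_ne_zero hf hy, h.mul f y hf hy⟩

/-- Riemann's inequality -/
theorem OP.riemann (h : OP A dg) (D : Dv R) (hD : 0 ≤ D) : ∃ a : R, a ≠ 0 ∧ D ≤ dv a ∧
    (dg a : ℤ) ≤ D.degree + (Set.univ \ vals dg Set.univ).ncard := by
  obtain ⟨h1, h2⟩ := h.finrank_Id D hD
  obtain ⟨h3, h4⟩ := h.codim ((Id D).restrictScalars A)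
  rw [← h2, h4]
  set M := vals dg Set.univ \ vals dg ((Id D).restrictScalars A : Submodule A R) with hM
  set G := Set.univ \ vals dg Set.univ with hG
  by_contra hc
  have hsub : ((Finset.range (M.ncard + G.ncard + 1) : Finset ℕ) : Set ℕ) ⊆ M ∪ G := by
    intro n hn
    by_cases hV : n ∈ vals dg Set.univ
    · refine Or.inl ⟨hV, ?_⟩
      rintro ⟨x, hx, h0, rfl⟩
      refine hc ⟨x, h0, (mem_Id' h0).1 hx, ?_⟩
      have := Finset.mem_range.1 (Finset.mem_coe.1 hn)
      omega
    · exact Or.inr ⟨trivial, hV⟩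
  have h5 := (Set.ncard_le_ncard hsub (h3.union h.gaps')).trans (Set.ncard_union_le M G)
  rw [Set.ncard_coe_finset, Finset.card_range] at h5
  omega

end Pool.Agent.P.MP_ee618e_ag.X
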