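import Pool.Agent.P.MP_ee618e_ag.X.O2b

/-! O3: minimal effective divisors; change of the base field. -/

namespace Pool.Agent.P.MP_ee618e_ag.X

open IsDedekindDomain Polynomial
open scoped Classical

section

variable {A R : Type} [Field A] [IsAlgClosed A] [CommRing R] [IsDedekindDomain R] [Algebra A R]
  {dg : R → ℕ} {D D' : Dv R}

theorem o3_le (h : OP A dg) (hD : Min D) {a b : R} (ha : a ≠ 0) (hb : b ≠ 0)
    (hab : dv b ≤ D + dv a) : dg b ≤ dg a := by
  have h1 := hD.2 (D + dv a - dv b) (sub_nonneg.2 hab) (by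
    rw [map_sub, map_add, cl_dv, cl_dv, add_zero, sub_zero])
  rw [map_sub, map_add, h.degree_dv ha, h.degree_dv hb] at h1
  omega

/-- `D + dv a - dv b` is effective of degree `≤ deg D`, so `dg a = dg b`; apply the same to
`a - c b` (`le_ord_iff`) -/
theorem Min.const (h : OP A dg) (hD : Min D) {a b : R} (ha : a ≠ 0) (hb : b ≠ 0)
    (hab : dv b ≤ D + dv a) (hd : dg a ≤ dg b) : ∃ c : A, a = c • b := by
  have h1 := o3_le h hD ha hb hab
  obtain ⟨c, hc | hc⟩ := h.lead a b hb (le_antisymm hd h1)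
  · exact ⟨c, hc⟩
  · by_cases h0 : a - c • b = 0
    · exact ⟨c, sub_eq_zero.1 h0⟩
    · exfalso
      have ha' : a ∈ Id (dv b - D) := (mem_Id' ha).2 (sub_le_iff_le_add'.2 hab)
      have hb' : b ∈ Id (dv b - D) := (mem_Id' hb).2 (sub_le_self _ hD.1)
      have h2 : a - c • b ∈ Id (dv b - D) := by
        rw [Algebra.smul_def]
        exact sub_mem ha' (Ideal.mul_mem_left _ _ hb')
      have h3 := o3_le h hD h0 hb (sub_le_iff_le_add'.1 ((mem_Id' h0).1 h2))
      omega

theorem Min.unique (h : OP A dg) (hD : Min D) (hD' : 0 ≤ D') (hc : cl D' = cl D)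
    (hd : D'.degree ≤ D.degree) : D' = D := by
  obtain ⟨a, b, ha, hb, e⟩ := cl_eq_iff.1 hc
  have h1 : dv b ≤ D + dv a := by
    rw [← e]
    exact le_add_of_nonneg_left hD'
  have h2 := congrArg Finsupp.degree e
  rw [map_add, map_add, h.degree_dv ha, h.degree_dv hb] at h2
  obtain ⟨c, hc⟩ := hD.const h ha hb h1 (by omega)
  have hc0 : c ≠ 0 := by
    rintro rfl
    exact ha (by simpa using hc)
  rw [hc, dv_smul hc0] at e
  exact add_right_cancel e

/-- `riemann` for an effective representative of the opposite class -/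
theorem Min.le_gaps (h : OP A dg) (hD : Min D) :
    D.degree ≤ (Set.univ \ vals dg Set.univ).ncard := by
  obtain ⟨E, hE, hcl⟩ := exists_eff (-cl D)
  obtain ⟨a, ha, h1, h2⟩ := h.riemann E hE
  have h3 := hD.2 (dv a - E) (sub_nonneg.2 h1) (by
    rw [map_sub, cl_dv, hcl, zero_sub, neg_neg])
  rw [map_sub, h.degree_dv ha] at h3
  omega

theorem o3_single {Q : HeightOneSpectrum R} {u : R} (h0 : u ≠ 0) (hu : u ∈ Q.asIdeal) :
    Finsupp.single Q 1 ≤ dv u := by
  intro P
  by_cases hP : Q = P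
  · subst hP
    have h1 : 1 ≤ ord Q u := (le_ord_iff h0).2 (by simpa using hu)
    rw [dv_apply h0, Finsupp.single_eq_same]
    omega
  · rw [Finsupp.single_eq_of_ne' hP]
    exact dv_nonneg u P

theorem o3_gen (h : OP A dg) (s : Finset R) (hs : Algebra.adjoin A (s : Set R) = ⊤)
    (Q : HeightOneSpectrum R) (J : Ideal R) (π : R) (h1 : π ∈ Q.asIdeal) (h2 : π ∉ J) :
    ∃ u : R, u ∈ Q.asIdeal ∧ u ∉ J ∧ dg u ≤ s.sup dg := by
  obtain ⟨ev, hev⟩ := h.exists_ev Q
  by_contra hne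
  have h3 : ∀ x ∈ s, x - algebraMap A R (ev x) ∈ J := by
    intro x hx
    by_contra hx'
    refine hne ⟨_, (hev _).1 (by simp), hx', ?_⟩
    rw [sub_eq_add_neg, ← map_neg]
    refine (h.add _ _).trans ?_
    rw [h.const]
    exact max_le (Finset.le_sup hx) (Nat.zero_le _)
  have h4 : ∀ f ∈ Algebra.adjoin A (s : Set R), f - algebraMap A R (ev f) ∈ J := by
    intro f hf
    induction hf using Algebra.adjoin_induction with
    | mem x hx => exact h3 x hx
    | algebraMap c => simp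
    | add x y _ _ hx hy =>
      have e : x + y - algebraMap A R (ev (x + y)) =
          (x - algebraMap A R (ev x)) + (y - algebraMap A R (ev y)) := by
        rw [map_add, map_add]; ring
      rw [e]
      exact add_mem hx hy
    | mul x y _ _ hx hy =>
      have e : x * y - algebraMap A R (ev (x * y)) =
          y * (x - algebraMap A R (ev x)) + algebraMap A R (ev x) * (y - algebraMap A R (ev y)) := by
        rw [map_mul, map_mul]; ring
      rw [e]
      exact add_mem (J.mul_mem_left _ hx) (J.mul_mem_left _ hy)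
  have h5 := h4 π (hs ▸ Algebra.mem_top)
  rw [(hev π).2 h1, map_zero, sub_zero] at h5
  exact h2 h5

/-- `a = ∏ (x (i Q) - ev Q (x (i Q))) ^ D Q` for generators `x i` of `R`; for `Q ≠ P` take a
generator with different values at `P` and `Q`, for `Q = P` one with `ord P (x i - c) = 1` -/
theorem OP.exists_gen (h : OP A dg) : ∃ n₀ : ℕ, ∀ D : Dv R, 0 ≤ D → ∀ P, ∃ a : R, a ≠ 0 ∧
    D ≤ dv a ∧ dv a P = D P ∧ (dg a : ℤ) ≤ n₀ * D.degree := by
  obtain ⟨s, hs⟩ := h.ft.out
  refine ⟨s.sup dg, fun D hD P => ?_⟩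
  have hu : ∀ Q : HeightOneSpectrum R, ∃ u : R, u ≠ 0 ∧ Finsupp.single Q 1 ≤ dv u ∧
      dv u P = (Finsupp.single Q 1 : Dv R) P ∧ dg u ≤ s.sup dg := by
    intro Q
    by_cases hQ : Q = P
    · subst hQ
      obtain ⟨π, hπ, hπ1⟩ := exists_unif Q
      obtain ⟨u, hu1, hu2, hu3⟩ := o3_gen h s hs Q (Q.asIdeal ^ 2) π
        (by simpa using (le_ord_iff hπ (n := 1)).1 hπ1.ge)
        (fun h2 => by have := (le_ord_iff hπ).2 h2; omega)
      have h0 : u ≠ 0 := fun h0 => hu2 (h0 ▸ zero_mem _)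
      have h1 : 1 ≤ ord Q u := (le_ord_iff h0).2 (by simpa using hu1)
      have h2 : ¬ 2 ≤ ord Q u := fun h2 => hu2 ((le_ord_iff h0).1 h2)
      refine ⟨u, h0, o3_single h0 hu1, ?_, hu3⟩
      rw [dv_apply h0, Finsupp.single_eq_same]
      omega
    · have h1 : ¬ Q.asIdeal ≤ P.asIdeal := fun hle =>
        hQ (HeightOneSpectrum.ext (Q.isMaximal.eq_of_le P.isPrime.ne_top hle))
      obtain ⟨π, hπ1, hπ2⟩ := SetLike.not_le_iff_exists.1 h1
      obtain ⟨u, hu1, hu2, hu3⟩ := o3_gen h s hs Q P.asIdeal π hπ1 hπ2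
      have h0 : u ≠ 0 := fun h0 => hu2 (h0 ▸ zero_mem _)
      refine ⟨u, h0, o3_single h0 hu1, ?_, hu3⟩
      rw [dv_apply h0, Finsupp.single_eq_of_ne' hQ, (ord_eq_zero h0).2 hu2]
      rfl
  choose u hu0 hu1 hu2 hu3 using hu
  obtain ⟨n, p, hn, rfl⟩ := exists_points hD
  have e := dv_prod Finset.univ (a := fun i => u (p i)) fun i _ => hu0 (p i)
  have h0 : ∏ i, u (p i) ≠ 0 := Finset.prod_ne_zero_iff.2 fun i _ => hu0 (p i)
  refine ⟨∏ i, u (p i), h0, ?_, ?_, ?_⟩
  · rw [e]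
    exact Finset.sum_le_sum fun i _ => hu1 (p i)
  · rw [e, Finsupp.finset_sum_apply, Finsupp.finset_sum_apply]
    exact Finset.sum_congr rfl fun i _ => hu2 (p i)
  · rw [← hn, ← h.degree_dv h0, e, map_sum]
    calc ∑ i, (dv (u (p i))).degree ≤ ∑ _i : Fin n, ((s.sup dg : ℕ) : ℤ) :=
          Finset.sum_le_sum fun i _ => by
            rw [h.degree_dv (hu0 _)]
            exact_mod_cast hu3 (p i)
      _ = _ := by simp [mul_comm]

theorem OP.large (h : OP A dg) (n : ℕ) : ∃ a b : R, a ≠ 0 ∧ b ≠ 0 ∧ dg a = dg b + n := by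
  obtain ⟨m, hm⟩ := h.gaps.bddAbove
  have key : ∀ j, m < j → ∃ f : R, f ≠ 0 ∧ dg f = j := by
    intro j hj
    by_contra hne
    have : j ≤ m := hm fun f hf e => hne ⟨f, hf, e⟩
    omega
  obtain ⟨a, ha, ea⟩ := key (m + 1 + n) (by omega)
  obtain ⟨b, hb, eb⟩ := key (m + 1) (by omega)
  exact ⟨a, b, ha, hb, by omega⟩

end

end Pool.Agent.P.MP_ee618e_ag.X
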