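import Pool.Agent.P.MP_ee618e_ag.X.B

/-! TS1: common zeros of polynomials; Tsen's theorem. -/

namespace Pool.Agent.P.MP_ee618e_ag.X

open IsDedekindDomain Polynomial
open scoped Classical

/-- If `0` were the only common zero, the ideal `(X_i)` would be a minimal prime of the ideal of
the `P i` (Nullstellensatz); `Ideal.height_le_card_of_mem_minimalPrimes_span_finset`. -/
theorem common_zero {K ι σ : Type} [Field K] [IsAlgClosed K] [Fintype ι] [Fintype σ]
    (P : ι → MvPolynomial σ K) (h0 : ∀ i, MvPolynomial.constantCoeff (P i) = 0)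
    (hc : Fintype.card ι < Fintype.card σ) :
    ∃ x : σ → K, x ≠ 0 ∧ ∀ i, MvPolynomial.eval x (P i) = 0 := by
  by_contra! h
  let φ : Finset σ → MvPolynomial σ K →+* MvPolynomial σ K := fun s =>
    (MvPolynomial.aeval fun i => if i ∈ s then 0 else MvPolynomial.X i :
      MvPolynomial σ K →ₐ[K] MvPolynomial σ K)
  have hp : ∀ s, (RingHom.ker (φ s)).IsPrime := fun s => RingHom.ker_isPrime _
  have hh : ∀ s : Finset σ, (s.card : ℕ∞) ≤ (RingHom.ker (φ s)).height := fun s => by
    induction s using Finset.induction_on with
    | empty => simp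
    | insert a s ha ih =>
      rw [Finset.card_insert_of_notMem ha, Nat.cast_add_one]
      have := hp s
      have := hp (insert a s)
      refine (add_le_add_left ih 1).trans (Ideal.height_add_one_le_of_lt_of_isPrime
        (lt_of_le_of_ne (fun f hf => ?_) fun e => ?_))
      · have e : φ (insert a s) = (φ (insert a s)).comp (φ s) :=
          MvPolynomial.ringHom_ext (fun r => by simp [φ]) fun i => by
            by_cases hi : i ∈ s <;> simp [φ, hi]
        rw [RingHom.mem_ker] at hf ⊢
        rw [e, RingHom.comp_apply, hf, map_zero]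
      · have : MvPolynomial.X a ∈ RingHom.ker (φ (insert a s)) := by simp [φ, RingHom.mem_ker]
        rw [← e] at this
        simp [φ, RingHom.mem_ker, ha] at this
  have e0 : ∀ f, φ Finset.univ f = MvPolynomial.C (MvPolynomial.aeval (0 : σ → K) f) := fun f => by
    induction f using MvPolynomial.induction_on with
    | C r => simp [φ]
    | add f g hf hg => simp only [map_add, hf, hg]
    | mul_X f i hf => simp [φ]
  have hm : RingHom.ker (φ Finset.univ) = MvPolynomial.vanishingIdeal K {(0 : σ → K)} := by
    ext f
    rw [RingHom.mem_ker, e0, MvPolynomial.mem_vanishingIdeal_singleton_iff, MvPolynomial.C_eq_zero]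
  have hz : MvPolynomial.zeroLocus K (Ideal.span (Finset.univ.image P : Set (MvPolynomial σ K))) =
      {(0 : σ → K)} := by
    rw [MvPolynomial.zeroLocus_span]
    ext x
    simp only [Finset.coe_image, Finset.coe_univ, Set.image_univ, Set.forall_mem_range,
      Set.mem_ofPred_eq, Set.mem_singleton_iff, MvPolynomial.aeval_eq_eval]
    refine ⟨fun hx => by_contra fun x0 => ?_, fun hx i => by rw [hx]; simpa using h0 i⟩
    obtain ⟨i, hi⟩ := h x x0
    exact hi (hx i)
  have hr := MvPolynomial.vanishingIdeal_zeroLocus_eq_radical (K := K)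
    (Ideal.span (Finset.univ.image P : Set (MvPolynomial σ K)))
  rw [hz, ← hm] at hr
  have := hp Finset.univ
  have h1 := Ideal.height_le_card_of_mem_minimalPrimes_span_finset
    (p := RingHom.ker (φ Finset.univ)) (s := Finset.univ.image P) (by
      rw [← Ideal.radical_minimalPrimes, ← hr, Ideal.minimalPrimes_eq_subsingleton_self]
      rfl)
  have h2 := (hh Finset.univ).trans h1
  exact hc.not_ge ((Nat.cast_le.1 h2).trans Finset.card_image_le)

end Pool.Agent.P.MP_ee618e_ag.X
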