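import Pool.Agent.P.MP_ee618e_ag.X.TS1

/-! TS2: Tsen's theorem, surjectivity of norms. -/

namespace Pool.Agent.P.MP_ee618e_ag.X

open IsDedekindDomain Polynomial
open scoped Classical

namespace TS2

lemma key {K E ι : Type} [Field K] [IsAlgClosed K] [Field E] [Algebra K E] [Fintype ι] {n d : ℕ}
    (P : MvPolynomial (Fin n) E) (hP : P.IsHomogeneous d) (hd : 0 < d) (b : ι → E)
    (hb : LinearIndependent K b) (Cf W : Submodule K E) [FiniteDimensional K W]
    (hC : ∀ μ, P.coeff μ ∈ Cf) (hW : Cf * Submodule.span K (Set.range b) ^ d ≤ W)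
    (hc : Module.finrank K W < n * Fintype.card ι) :
    ∃ x : Fin n → E, x ≠ 0 ∧ MvPolynomial.eval x P = 0 := by
  let lin : Fin n → MvPolynomial (Fin n × ι) E := fun i =>
    ∑ j, MvPolynomial.C (b j) * MvPolynomial.X (i, j)
  have hl : ∀ i, lin i ∈ MvPolynomial.coeffsIn (Fin n × ι) (Submodule.span K (Set.range b)) :=
    fun i => sum_mem fun j _ => by
      simpa using (Submodule.subset_span ⟨j, rfl⟩ : b j ∈ Submodule.span K (Set.range b))
  have hpr : ∀ (μ : Fin n →₀ ℕ) (s : Finset (Fin n)), ∏ i ∈ s, lin i ^ μ i ∈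
      MvPolynomial.coeffsIn (Fin n × ι) (Submodule.span K (Set.range b)) ^ (∑ i ∈ s, μ i) :=
    fun μ s => by
      induction s using Finset.induction_on with
      | empty =>
        rw [Finset.prod_empty, Finset.sum_empty, pow_zero]
        exact Submodule.one_le.1 le_rfl
      | insert a s ha ih =>
        rw [Finset.prod_insert ha, Finset.sum_insert ha, pow_add]
        exact Submodule.mul_mem_mul (Submodule.pow_mem_pow _ (hl a) _) ih
  let P' := MvPolynomial.aeval lin P
  have hP' : ∀ μ, P'.coeff μ ∈ W := by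
    have : P' ∈ MvPolynomial.coeffsIn (Fin n × ι) (Cf * Submodule.span K (Set.range b) ^ d) := by
      rw [MvPolynomial.coeffsIn_mul]
      simp only [P']
      rw [P.as_sum, map_sum]
      refine sum_mem fun μ hμ => ?_
      rw [MvPolynomial.aeval_monomial]
      refine Submodule.mul_mem_mul (MvPolynomial.C_mem_coeffsIn.2 (hC μ))
        (MvPolynomial.le_coeffsIn_pow ?_)
      rw [hP.degree_eq_sum_deg_support hμ]
      exact hpr μ _
    exact fun μ => hW (this μ)
  have ev : ∀ y : Fin n × ι → K, MvPolynomial.eval (fun i => ∑ j, y (i, j) • b j) P =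
      ∑ μ ∈ P'.support, (∏ s, y s ^ μ s) • P'.coeff μ := fun y => by
    have h1 : MvPolynomial.eval (fun i => ∑ j, y (i, j) • b j) P =
        MvPolynomial.aeval (fun s => algebraMap K E (y s)) P' := by
      simp only [P']
      rw [← AlgHom.comp_apply, MvPolynomial.comp_aeval, MvPolynomial.aeval_eq_eval]
      simp [lin, Algebra.smul_def, mul_comm]
    rw [h1, MvPolynomial.aeval_eq_eval, MvPolynomial.eval_eq']
    simp [Algebra.smul_def, mul_comm]
  let w := Module.finBasis K W
  let Pl : Fin (Module.finrank K W) → MvPolynomial (Fin n × ι) K := fun l =>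
    ∑ μ ∈ P'.support, MvPolynomial.monomial μ (w.repr ⟨_, hP' μ⟩ l)
  have ev2 : ∀ (y : Fin n × ι → K) l, MvPolynomial.eval y (Pl l) =
      w.repr (∑ μ ∈ P'.support, (∏ s, y s ^ μ s) • ⟨_, hP' μ⟩) l := fun y l => by
    rw [map_sum w.repr]
    simp only [map_smul]
    simp [Pl, MvPolynomial.eval_monomial, Finsupp.prod_fintype, mul_comm]
  have e0 : MvPolynomial.eval (0 : Fin n → E) P = 0 := by
    rw [MvPolynomial.eval_zero, MvPolynomial.constantCoeff_eq]
    exact hP.coeff_eq_zero (by simpa using hd.ne)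
  obtain ⟨y, hy, h⟩ := common_zero Pl (fun l => by
    rw [← MvPolynomial.eval_zero, ev2]
    have := ev 0
    simp only [Pi.zero_apply, zero_smul, Finset.sum_const_zero] at this
    rw [show (∑ μ ∈ P'.support, (∏ s, (0 : Fin n × ι → K) s ^ μ s) • (⟨_, hP' μ⟩ : W)) = 0 from
      Subtype.ext (by simpa using this.symm.trans e0)]
    simp) (by simpa using hc)
  refine ⟨fun i => ∑ j, y (i, j) • b j, fun h0 => hy (funext fun s => ?_), ?_⟩
  · exact Fintype.linearIndependent_iff.1 hb _ (congrFun h0 s.1) s.2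
  · have : (∑ μ ∈ P'.support, (∏ s, y s ^ μ s) • (⟨_, hP' μ⟩ : W)) = 0 :=
      w.repr.map_eq_zero_iff.1 (Finsupp.ext fun l => (ev2 y l).symm.trans (h l))
    rw [ev]
    simpa using congrArg Subtype.val this

variable {K E : Type} [Field K] [Field E] [Algebra K E] (t : E)

variable (K) in
/-- polynomials in `t` of degree at most `e` -/
def T (e : ℕ) : Submodule K E := Submodule.span K (Set.range fun s : Fin (e + 1) => t ^ (s : ℕ))

lemma pow_mem {s e : ℕ} (h : s ≤ e) : t ^ s ∈ T K t e :=
  Submodule.subset_span ⟨⟨s, by omega⟩, rfl⟩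

lemma T_mono {e e' : ℕ} (h : e ≤ e') : T K t e ≤ T K t e' :=
  Submodule.span_le.2 (by rintro _ ⟨s, rfl⟩; exact pow_mem t (by omega))

lemma T_mul (e e' : ℕ) : T K t e * T K t e' ≤ T K t (e + e') := by
  rw [T, T, Submodule.span_mul_span]
  refine Submodule.span_le.2 ?_
  rintro _ ⟨_, ⟨s, rfl⟩, _, ⟨s', rfl⟩, rfl⟩
  simp only [← pow_add]
  exact pow_mem t (by omega)

lemma T_pow (e d : ℕ) : T K t e ^ d ≤ T K t (e * d) := by
  induction d with
  | zero => rw [pow_zero, Submodule.one_le]; simpa using pow_mem (K := K) t (le_refl 0)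
  | succ d ih => rw [pow_succ, mul_add_one]; exact (mul_le_mul_left ih _).trans (T_mul t _ _)

lemma aeval_mem (p : K[X]) : aeval t p ∈ T K t p.natDegree := by
  rw [aeval_eq_sum_range]
  exact sum_mem fun s hs => Submodule.smul_mem _ _ (pow_mem t (by simpa [Nat.lt_succ_iff] using hs))

lemma TU_mul {U : Submodule K E} {e e' : ℕ} {x y : E} (hx : x ∈ T K t e) (hy : y ∈ T K t e' * U) :
    x * y ∈ T K t (e + e') * U := by
  refine mul_le_mul_left (T_mul t e e') U ?_
  rw [mul_assoc]
  exact Submodule.mul_mem_mul hx hy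

lemma com (U : Submodule K E) (s : Finset E)
    (h : ∀ z ∈ s, ∃ δ c, δ ≠ 0 ∧ δ ∈ T K t c ∧ δ * z ∈ T K t c * U) :
    ∃ δ c, δ ≠ 0 ∧ δ ∈ T K t c ∧ ∀ z ∈ Submodule.span K (s : Set E), δ * z ∈ T K t c * U := by
  have : ∃ δ c, δ ≠ 0 ∧ δ ∈ T K t c ∧ ∀ z ∈ s, δ * z ∈ T K t c * U := by
    induction s using Finset.induction_on with
    | empty => exact ⟨1, 0, one_ne_zero, by simpa using pow_mem (K := K) t (le_refl 0), by simp⟩
    | insert a s _ ih =>
      obtain ⟨δ, c, h1, h2, h3⟩ := ih fun z hz => h z (by simp [hz])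
      obtain ⟨δ', c', h4, h5, h6⟩ := h a (by simp)
      refine ⟨δ * δ', c + c', mul_ne_zero h1 h4, T_mul t _ _ (Submodule.mul_mem_mul h2 h5),
        fun z hz => ?_⟩
      rcases Finset.mem_insert.1 hz with rfl | hz
      · rw [mul_assoc]; exact TU_mul t h2 h6
      · rw [mul_comm δ, mul_assoc, add_comm]; exact TU_mul t h5 (h3 z hz)
  obtain ⟨δ, c, h1, h2, h3⟩ := this
  exact ⟨δ, c, h1, h2, Submodule.span_le (p := (T K t c * U).comap (LinearMap.mulLeft K δ)).2 h3⟩

lemma TU_eq {m : ℕ} (ω : Fin m → E) (e : ℕ) : T K t e * Submodule.span K (Set.range ω) =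
    Submodule.span K (Set.range fun p : Fin (e + 1) × Fin m => t ^ (p.1 : ℕ) * ω p.2) := by
  rw [T, Submodule.span_mul_span]
  congr 1
  ext x
  simp [Set.mem_mul]

end TS2

open TS2 in
/-- Let `ω` be a basis over `K(t)` of the field generated by the coefficients. Put
`x i = ∑ y (i, j, s) t ^ s ω j`, `s ≤ S`; the values of `P` lie in the `K`-span of the
`δ⁻¹ t ^ s ω j`, `s ≤ d S + c`; apply `K`-linear coordinates to the coefficients of the
substituted polynomial and `common_zero`. -/
theorem tsen_c1 {K E : Type} [Field K] [IsAlgClosed K] [Field E] [Algebra K E] (t : E)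
    (ht : Transcendental K t) (halg : ∀ z : E, IsAlgebraic (IntermediateField.adjoin K {t}) z)
    {n d : ℕ} (P : MvPolynomial (Fin n) E) (hP : P.IsHomogeneous d) (hd : 0 < d) (hn : d < n) :
    ∃ x : Fin n → E, x ≠ 0 ∧ MvPolynomial.eval x P = 0 := by
  let L := IntermediateField.adjoin K {t}
  let F := IntermediateField.adjoin L (P.coeffs : Set E)
  have : FiniteDimensional L F :=
    IntermediateField.finiteDimensional_adjoin fun x _ => (halg x).isIntegral
  have : Module.Free L F := Module.Free.of_divisionRing _ _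
  have ω0 := Module.finBasis L F
  have hm : 0 < Module.finrank L F := Module.finrank_pos
  generalize Module.finrank L F = m at ω0 hm
  let ω : Fin m → E := fun j => ω0 j
  let U := Submodule.span K (Set.range ω)
  let Cf := Submodule.span K (P.coeffs : Set E)
  have hF : Cf * U ^ d ≤ (F.restrictScalars K).toSubalgebra.toSubmodule := by
    have h1 : Cf ≤ (F.restrictScalars K).toSubalgebra.toSubmodule :=
      Submodule.span_le.2 (IntermediateField.subset_adjoin L _)
    have h2 : U ≤ (F.restrictScalars K).toSubalgebra.toSubmodule :=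
      Submodule.span_le.2 (by rintro _ ⟨j, rfl⟩; exact (ω0 j).2)
    have h3 : ∀ e, U ^ e ≤ (F.restrictScalars K).toSubalgebra.toSubmodule := fun e => by
      induction e with
      | zero => rw [pow_zero, Submodule.one_le]; exact F.one_mem
      | succ e ih => rw [pow_succ]; exact Submodule.mul_le.2 fun x hx y hy => F.mul_mem (ih hx) (h2 hy)
    exact Submodule.mul_le.2 fun x hx y hy => F.mul_mem (h1 hx) (h3 d hy)
  obtain ⟨s, hs⟩ : (Cf * U ^ d).FG := (Submodule.fg_span P.coeffs.finite_toSet).mul
    ((Submodule.fg_span (Set.finite_range ω)).pow d)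
  obtain ⟨δ, c, h1, -, h2⟩ := com t U s fun z hz => by
    have hz' : z ∈ F := hF (hs ▸ Submodule.subset_span hz)
    obtain ⟨δ, c, h1, h2, h3⟩ := com t U
      (Finset.univ.image fun j => (ω0.repr ⟨z, hz'⟩ j : E) * ω j) fun y hy => by
        obtain ⟨j, -, rfl⟩ := Finset.mem_image.1 hy
        obtain ⟨p, q, e⟩ := (IntermediateField.mem_adjoin_simple_iff K _).1 (ω0.repr ⟨z, hz'⟩ j).2
        by_cases hq : aeval t q = 0
        · refine ⟨1, 0, one_ne_zero, by simpa using pow_mem (K := K) t (le_refl 0), ?_⟩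
          rw [e, hq]; simp
        refine ⟨aeval t q, p.natDegree + q.natDegree, hq, T_mono t (by omega) (aeval_mem t q), ?_⟩
        rw [e, ← mul_assoc, mul_div_cancel₀ _ hq]
        exact Submodule.mul_mem_mul (T_mono t (by omega) (aeval_mem t p))
          (Submodule.subset_span ⟨j, rfl⟩)
    refine ⟨δ, c, h1, h2, h3 z ?_⟩
    have := congrArg Subtype.val (ω0.sum_repr ⟨z, hz'⟩)
    simp only [AddSubmonoidClass.coe_finsetSum] at this
    refine (show ∑ j, (ω0.repr ⟨z, hz'⟩ j : E) * ω j = z from this).subst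
      (motive := fun x => x ∈ _) ?_
    exact sum_mem fun j _ => Submodule.subset_span (Finset.mem_image_of_mem _ (Finset.mem_univ j))
  rw [hs] at h2
  have li : LinearIndependent K fun p : Fin (c + 1) × Fin m => t ^ (p.1 : ℕ) * ω p.2 := by
    have l1 : LinearIndependent K fun s : Fin (c + 1) =>
        (⟨t, IntermediateField.mem_adjoin_simple_self K t⟩ : L) ^ (s : ℕ) := by
      refine LinearIndependent.of_comp L.val.toLinearMap ?_
      have := ((basisMonomials K).linearIndependent.map' (aeval t).toLinearMap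
        (LinearMap.ker_eq_bot.2 (transcendental_iff_injective.1 ht))).comp
        (fun s : Fin (c + 1) => (s : ℕ)) Fin.val_injective
      refine Eq.subst (motive := fun f => LinearIndependent K f) (funext fun s => ?_) this
      simp
    exact linearIndependent_smul l1 (ω0.linearIndependent.map' F.val.toLinearMap
      (LinearMap.ker_eq_bot.2 Subtype.val_injective))
  have fd : FiniteDimensional K (T K t (c * d + c) * U : Submodule K E) := by
    rw [TU_eq]; exact FiniteDimensional.span_of_finite _ (Set.finite_range _)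
  refine key P hP hd _ li Cf ((T K t (c * d + c) * U).map (LinearMap.mulLeft K δ⁻¹))
    (fun μ => ?_) ?_ ?_
  · by_cases h : μ ∈ P.support
    · exact Submodule.subset_span (MvPolynomial.coeff_mem_coeffs μ (by simpa using h))
    · rw [MvPolynomial.notMem_support_iff.1 h]; exact zero_mem _
  · rw [← TU_eq, mul_pow, mul_left_comm]
    refine Submodule.mul_le.2 fun x hx y hy => ⟨x * (δ * y), TU_mul t (T_pow t c d hx) (h2 y hy), ?_⟩
    simp only [LinearMap.mulLeft_apply]
    field_simp
  · refine (Submodule.finrank_map_le _ _).trans_lt ?_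
    rw [TU_eq]
    refine (finrank_range_le_card _).trans_lt ?_
    simp only [Fintype.card_prod, Fintype.card_fin]
    rw [← mul_assoc]
    exact Nat.mul_lt_mul_of_pos_right (by nlinarith) hm

/-- the form `N(x) - a y ^ m` (`Algebra.norm_eq_matrix_det`); if `E` is algebraic over `K` it is
algebraically closed -/
theorem norm_surj {K E E' : Type} [Field K] [IsAlgClosed K] [Field E] [Field E'] [Algebra K E]
    [Algebra E E'] [FiniteDimensional E E'] (h : ∀ x : Fin 2 → E, ¬ AlgebraicIndependent K x) :
    Function.Surjective (Algebra.norm E : E' → E) := by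
  intro a
  have hm : 0 < Module.finrank E E' := Module.finrank_pos
  by_cases hE : ∀ z : E, IsAlgebraic K z
  · have : Algebra.IsAlgebraic K E := ⟨hE⟩
    obtain ⟨a, rfl⟩ := (IsAlgClosed.algebraMap_bijective_of_isIntegral (k := K) (K := E)).2 a
    obtain ⟨c, rfl⟩ := IsAlgClosed.exists_pow_nat_eq a hm
    exact ⟨algebraMap E E' (algebraMap K E c), by rw [Algebra.norm_algebraMap, map_pow]⟩
  push Not at hE
  obtain ⟨t, ht⟩ := hE
  have halg : ∀ z : E, IsAlgebraic (IntermediateField.adjoin K {t}) z := fun z => by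
    rw [IntermediateField.isAlgebraic_adjoin_iff]
    by_contra hz
    have h1 : AlgebraicIndependent K ![t] := algebraicIndependent_iff_transcendental.2 ht
    have h2 := (h1.option_iff_transcendental z).2 (by
      rwa [show Set.range ![t] = {t} by simp])
    exact h _ (h2.comp _ (finSuccEquiv 1).injective)
  have b := Module.finBasis E E'
  generalize hmm : Module.finrank E E' = m at b hm
  let N : MvPolynomial (Fin (m + 1)) E := (Matrix.of fun r c =>
    ∑ i, MvPolynomial.C (Algebra.leftMulMatrix b (b i) r c) * MvPolynomial.X i.succ).det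
  have hN : N.IsHomogeneous m := by
    simp only [N, Matrix.det_apply]
    refine MvPolynomial.IsHomogeneous.sum _ _ _ fun σ _ => ?_
    have := MvPolynomial.IsHomogeneous.prod Finset.univ (fun c => ∑ i,
      MvPolynomial.C (Algebra.leftMulMatrix b (b i) (σ c) c) * MvPolynomial.X i.succ) (fun _ => 1)
      fun c _ => MvPolynomial.IsHomogeneous.sum _ _ _ fun i _ =>
        MvPolynomial.isHomogeneous_C_mul_X _ _
    simp only [Finset.sum_const, Finset.card_univ, Fintype.card_fin, smul_eq_mul, mul_one] at this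
    rcases Int.units_eq_one_or (Equiv.Perm.sign σ) with e | e <;> rw [e]
    · simpa using this
    · simpa using this.neg
  obtain ⟨x, hx, h0⟩ := tsen_c1 t ht halg (N - MvPolynomial.C a * MvPolynomial.X 0 ^ m)
    (hN.sub (MvPolynomial.isHomogeneous_C_mul_X_pow _ _ _)) hm m.lt_succ_self
  have e : MvPolynomial.eval x N = Algebra.norm E (∑ i, x i.succ • b i) := by
    rw [Algebra.norm_eq_matrix_det b, RingHom.map_det]
    congr 1
    ext r c
    simp [Matrix.sum_apply, mul_comm]
  rw [map_sub, e, sub_eq_zero] at h0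
  simp only [map_mul, map_pow, MvPolynomial.eval_C, MvPolynomial.eval_X] at h0
  have x0 : x 0 ≠ 0 := fun e0 => hx (funext fun i => by
    rw [e0, zero_pow hm.ne', mul_zero, Algebra.norm_eq_zero_iff] at h0
    exact Fin.cases e0 (Fintype.linearIndependent_iff.1 b.linearIndependent _ h0) i)
  refine ⟨algebraMap E E' (x 0)⁻¹ * ∑ i, x i.succ • b i, ?_⟩
  rw [map_mul, h0, Algebra.norm_algebraMap, hmm, inv_pow]
  field_simp

end Pool.Agent.P.MP_ee618e_ag.X
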