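import Pool.Agent.P.MP_ee618e_ag.X.TS2

/-! TS3: the second cohomology of a finite group of automorphisms vanishes. -/

namespace Pool.Agent.P.MP_ee618e_ag.X

open IsDedekindDomain Polynomial
open scoped Classical

theorem cyc_norm_aux {K E : Type} [Field K] [IsAlgClosed K] [Field E] [Algebra K E]
    (h : ∀ x : Fin 2 → E, ¬ AlgebraicIndependent K x) (φ : E ≃ₐ[K] E) {m : ℕ} (hm : 0 < m)
    (hφ : orderOf φ = m) {a : E} (ha : φ a = a) :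
    ∃ b : E, ∏ i ∈ Finset.range m, (φ ^ i) b = a := by
  have hfin : IsOfFinOrder φ := orderOf_pos_iff.1 (hφ ▸ hm)
  haveI : Finite (Subgroup.zpowers φ) := hfin.finite_zpowers
  let H := Subgroup.zpowers φ
  let F : IntermediateField K E := IntermediateField.fixedField H
  haveI : FiniteDimensional F E :=
    inferInstanceAs (FiniteDimensional (FixedPoints.subfield H E) E)
  haveI : IsGalois F E := IsGalois.of_fixed_field E H
  have hF : ∀ x : Fin 2 → F, ¬ AlgebraicIndependent K x := fun x hx =>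
    h _ (hx.map' (f := F.val) Subtype.val_injective)
  have haF : a ∈ F := by
    rw [IntermediateField.mem_fixedField_iff]
    intro f hf
    have : Subgroup.zpowers φ ≤ MulAction.stabilizer (E ≃ₐ[K] E) a :=
      Subgroup.zpowers_le.2 ha
    exact this hf
  obtain ⟨b, hb⟩ := norm_surj (K := K) (E := F) (E' := E) hF ⟨a, haF⟩
  refine ⟨b, ?_⟩
  have h1 := Algebra.norm_eq_prod_automorphisms F b
  rw [hb] at h1
  have h2 : a = ∏ σ : E ≃ₐ[F] E, σ b := h1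
  rw [h2]
  let e : H ≃ (E ≃ₐ[F] E) := (FixedPoints.toAlgAutMulEquiv H E).toEquiv
  haveI : Fintype H := Fintype.ofFinite _
  rw [← Fintype.prod_equiv e (fun u => (u : E ≃ₐ[K] E) b) _ (fun u => rfl)]
  rw [← Fintype.prod_equiv (finEquivZPowers hfin) (fun i => (φ ^ (i : ℕ)) b) _ (fun i => by
    rw [finEquivZPowers_apply])]
  rw [← hφ, Finset.prod_range]

variable {K M Q : Type} [Field K] [IsAlgClosed K] [Field M] [Algebra K M] [Group Q] [Finite Q]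
  [MulSemiringAction Q M] [FaithfulSMul Q M] [SMulCommClass Q K M]

/-- `norm_surj` for the fixed fields of `Q₂` and of `⟨Q₂, g⟩` -/
theorem cyc_norm (h : ∀ x : Fin 2 → M, ¬ AlgebraicIndependent K x) (Q₂ : Subgroup Q) (g : Q)
    (hg : ∀ u ∈ Q₂, g⁻¹ * u * g ∈ Q₂) {m : ℕ} (hm : 0 < m) (hgm : ∀ i, g ^ i ∈ Q₂ ↔ m ∣ i)
    {a : M} (ha : ∀ u ∈ Q₂, u • a = a) (hga : g • a = a) :
    ∃ b : M, (∀ u ∈ Q₂, u • b = b) ∧ ∏ i ∈ Finset.range m, g ^ i • b = a := by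
  let E : IntermediateField K M := FixedPoints.intermediateField Q₂
  have hE : ∀ x : M, x ∈ E ↔ ∀ u ∈ Q₂, u • x = x := fun x =>
    ⟨fun hx u hu => hx ⟨u, hu⟩, fun hx u => hx u u.2⟩
  have hgE : ∀ x ∈ E, g • x ∈ E := fun x hx => (hE _).2 fun u hu => by
    have h1 := (hE x).1 hx _ (hg u hu)
    calc u • g • x = g • (g⁻¹ * u * g) • x := by
          rw [smul_smul, smul_smul, ← mul_assoc, ← mul_assoc, mul_inv_cancel, one_mul]
      _ = g • x := by rw [h1]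
  have hpE : ∀ i : ℕ, ∀ x ∈ E, g ^ i • x ∈ E := fun i => by
    induction i with
    | zero => intro x hx; simpa using hx
    | succ i ih => intro x hx; rw [pow_succ', mul_smul]; exact hgE _ (ih x hx)
  let ψ : E →ₐ[K] E :=
    ((MulSemiringAction.toAlgHom K M g).comp E.val).codRestrict E.toSubalgebra
      fun x => hgE x x.2
  have hψ : ∀ x : E, (ψ x : M) = g • (x : M) := fun x => rfl
  have hbij : Function.Bijective ψ := by
    refine ⟨ψ.toRingHom.injective, fun y => ⟨⟨g ^ (m - 1) • (y : M), hpE _ _ y.2⟩, ?_⟩⟩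
    apply Subtype.ext
    rw [hψ]
    show g • g ^ (m - 1) • (y : M) = y
    rw [smul_smul, ← pow_succ', Nat.sub_add_cancel hm]
    exact (hE _).1 y.2 _ ((hgm m).2 dvd_rfl)
  let φ : E ≃ₐ[K] E := AlgEquiv.ofBijective ψ hbij
  have hφ : ∀ (i : ℕ) (x : E), ((φ ^ i) x : M) = g ^ i • (x : M) := fun i => by
    induction i with
    | zero => intro x; simp
    | succ i ih =>
      intro x
      rw [pow_succ, pow_succ, AlgEquiv.mul_apply, ih, mul_smul]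
      rfl
  have hord : ∀ i : ℕ, φ ^ i = 1 ↔ m ∣ i := fun i => by
    rw [← hgm]
    constructor
    · intro h1
      have h2 : ∀ x ∈ E, g ^ i • x = x := fun x hx => by
        have := hφ i ⟨x, hx⟩
        rw [h1] at this
        exact this.symm
      let θ : M ≃ₐ[FixedPoints.subfield Q₂ M] M :=
        { MulSemiringAction.toRingEquiv Q M (g ^ i) with
          commutes' := fun x => h2 x x.2 }
      obtain ⟨u, hu⟩ := FixedPoints.toAlgAut_surjective Q₂ M θ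
      have h3 : (u : Q) = g ^ i := FaithfulSMul.eq_of_smul_eq_smul (α := M) fun x =>
        DFunLike.congr_fun hu x
      exact h3 ▸ u.2
    · intro h1
      ext x
      rw [hφ]
      exact (hE _).1 x.2 _ h1
  have ho : orderOf φ = m :=
    Nat.dvd_antisymm (orderOf_dvd_of_pow_eq_one ((hord m).2 dvd_rfl))
      ((hord _).1 (pow_orderOf_eq_one φ))
  have hE2 : ∀ x : Fin 2 → E, ¬ AlgebraicIndependent K x := fun x hx =>
    h _ (hx.map' (f := E.val) Subtype.val_injective)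
  obtain ⟨b, hb⟩ := cyc_norm_aux hE2 φ hm ho (a := ⟨a, (hE a).2 ha⟩) (Subtype.ext hga)
  refine ⟨b, (hE _).1 b.2, ?_⟩
  have h4 := congrArg E.val hb
  rw [map_prod] at h4
  exact (Finset.prod_congr rfl fun i _ => (hφ i b).symm).trans h4

omit [IsAlgClosed K] [Algebra K M] [SMulCommClass Q K M] in
/-- Hilbert 90 -/
theorem fin_h1 (P : Subgroup Q) (b : Q → M) (h0 : ∀ σ ∈ P, b σ ≠ 0)
    (hb : ∀ σ ∈ P, ∀ τ ∈ P, b (σ * τ) = b σ * σ • b τ) :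
    ∃ x : M, x ≠ 0 ∧ ∀ σ ∈ P, σ • x = b σ * x := by
  haveI : Fintype P := Fintype.ofFinite _
  let f : P → (M →* M) := fun u => (MulSemiringAction.toRingHom Q M u : M →* M)
  have hf : Function.Injective f := fun u v huv =>
    Subtype.ext (FaithfulSMul.eq_of_smul_eq_smul (α := M) fun x => DFunLike.congr_fun huv x)
  have hli := (linearIndependent_monoidHom M M).comp f hf
  have hex : ∃ z : M, ∑ u : P, b u * (u : Q) • z ≠ 0 := by
    by_contra hn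
    push Not at hn
    have := Fintype.linearIndependent_iff.1 hli (fun u => b u) (by
      funext z
      rw [Finset.sum_apply]
      exact hn z) 1
    exact h0 1 P.one_mem this
  obtain ⟨z, hz⟩ := hex
  refine ⟨(∑ u : P, b u * (u : Q) • z)⁻¹, inv_ne_zero hz, fun σ hσ => ?_⟩
  have h1 : b σ * σ • ∑ u : P, b u * (u : Q) • z = ∑ u : P, b u * (u : Q) • z := by
    rw [Finset.smul_sum, Finset.mul_sum]
    refine Fintype.sum_equiv (Equiv.mulLeft (⟨σ, hσ⟩ : P)) _ _ fun u => ?_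
    show _ = b (σ * u) * (σ * u) • z
    rw [hb σ hσ u u.2, smul_mul', mul_smul, mul_assoc]
  have h2 : σ • ∑ u : P, b u * (u : Q) • z ≠ 0 := by
    intro h3
    rw [h3, mul_zero] at h1
    exact hz h1.symm
  have h5 := h0 σ hσ
  rw [smul_inv'']
  conv_rhs => rw [← h1]
  field_simp

section Step

variable {Γ : Type} [Monoid Γ] (T : M → Q → Γ) (L : M → Γ) (c : Q → Q → M)

omit [IsAlgClosed K] [Algebra K M] [SMulCommClass Q K M] [Finite Q] [FaithfulSMul Q M] in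
/-- gluing a splitting on `Q₂` and a compatible lift of `g` -/
theorem step_glue (h0 : ∀ σ τ, c σ τ ≠ 0)
    (hmul : ∀ a σ b τ, T a σ * T b τ = T (a * σ • b * c σ τ) (σ * τ))
    (hinj : ∀ a b σ, T a σ = T b σ → a = b) (Q₁ Q₂ : Subgroup Q) (g : Q) {m : ℕ}
    (hpw : ∀ i : ℕ, ∀ u ∈ Q₂, (g ^ i)⁻¹ * u * g ^ i ∈ Q₂)
    (hgm : ∀ i, g ^ i ∈ Q₂ ↔ m ∣ i) (hgen : ∀ σ ∈ Q₁, ∃ i : ℕ, ∃ u ∈ Q₂, σ = g ^ i * u)
    (s : Q → Γ) (γ : Γ) (hs : ∀ u ∈ Q₂, ∀ v ∈ Q₂, s u * s v = s (u * v))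
    (hT : ∀ (i : ℕ) (u : Q), ∃ e, e ≠ 0 ∧ γ ^ i * s u = T e (g ^ i * u))
    (hn : ∀ i : ℕ, ∀ u ∈ Q₂, s u * γ ^ i = γ ^ i * s ((g ^ i)⁻¹ * u * g ^ i))
    (hγ : γ ^ m = s (g ^ m)) :
    ∃ b : Q → M, (∀ σ, b σ ≠ 0) ∧ ∀ σ ∈ Q₁, ∀ τ ∈ Q₁, c σ τ * b (σ * τ) = b σ * σ • b τ := by
  have hk : ∀ k : ℕ, ∀ v ∈ Q₂, γ ^ (m * k) * s v = s (g ^ (m * k) * v) := fun k => by
    induction k with
    | zero => intro v _; simp
    | succ k ih =>
      intro v hv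
      have h1 : g ^ m ∈ Q₂ := (hgm m).2 dvd_rfl
      rw [Nat.mul_succ, pow_add, pow_add, mul_assoc, hγ, hs _ h1 v hv,
        ih _ (Q₂.mul_mem h1 hv), mul_assoc]
  have hW0 : ∀ i j : ℕ, i ≤ j → ∀ u ∈ Q₂, ∀ v ∈ Q₂, g ^ i * u = g ^ j * v →
      γ ^ i * s u = γ ^ j * s v := fun i j hij u hu v hv huv => by
    obtain ⟨d, rfl⟩ := Nat.exists_eq_add_of_le hij
    rw [pow_add, mul_assoc, mul_right_inj] at huv
    have h1 : g ^ d ∈ Q₂ := by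
      have : g ^ d = u * v⁻¹ := by rw [huv, mul_inv_cancel_right]
      rw [this]
      exact Q₂.mul_mem hu (Q₂.inv_mem hv)
    obtain ⟨k, rfl⟩ := (hgm d).1 h1
    rw [pow_add, mul_assoc, hk k v hv, huv]
  have hW : ∀ i j : ℕ, ∀ u ∈ Q₂, ∀ v ∈ Q₂, g ^ i * u = g ^ j * v →
      γ ^ i * s u = γ ^ j * s v := fun i j u hu v hv huv =>
    (le_total i j).elim (fun hij => hW0 i j hij u hu v hv huv)
      fun hij => (hW0 j i hij v hv u hu huv.symm).symm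
  have hf : ∀ σ : Q, ∃ e : M, e ≠ 0 ∧ ∀ i : ℕ, ∀ u ∈ Q₂, σ = g ^ i * u →
      γ ^ i * s u = T e σ := fun σ => by
    by_cases hσ : ∃ i : ℕ, ∃ u ∈ Q₂, σ = g ^ i * u
    · obtain ⟨i, u, hu, rfl⟩ := hσ
      obtain ⟨e, he, he2⟩ := hT i u
      exact ⟨e, he, fun j v hv hj => (hW i j u hu v hv hj).symm.trans he2⟩
    · exact ⟨1, one_ne_zero, fun i u hu hi => absurd ⟨i, u, hu, hi⟩ hσ⟩
  choose f hf0 hf using hf
  refine ⟨fun σ => (f σ)⁻¹, fun σ => inv_ne_zero (hf0 σ), fun σ hσ τ hτ => ?_⟩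
  obtain ⟨i, u, hu, hi⟩ := hgen σ hσ
  obtain ⟨j, v, hv, hj⟩ := hgen τ hτ
  have h1 : T (f σ) σ * T (f τ) τ = T (f (σ * τ)) (σ * τ) := by
    rw [← hf σ i u hu hi, ← hf τ j v hv hj,
      ← hf (σ * τ) (i + j) _ (Q₂.mul_mem (hpw j u hu) hv) (by rw [hi, hj, pow_add]; group),
      ← hs _ (hpw j u hu) v hv, pow_add, mul_assoc, ← mul_assoc (s u), hn j u hu]
    simp only [mul_assoc]
  rw [hmul] at h1
  have h2 := hinj _ _ _ h1
  have h3 := hf0 σ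
  have h4 : σ • f τ ≠ 0 := (smul_ne_zero_iff_ne σ).2 (hf0 τ)
  have h5 := h0 σ τ
  show c σ τ * (f (σ * τ))⁻¹ = (f σ)⁻¹ * σ • (f τ)⁻¹
  rw [← h2, smul_inv'']
  field_simp

theorem step_aux (h : ∀ x : Fin 2 → M, ¬ AlgebraicIndependent K x) (h0 : ∀ σ τ, c σ τ ≠ 0)
    (hmul : ∀ a σ b τ, T a σ * T b τ = T (a * σ • b * c σ τ) (σ * τ))
    (hinj : ∀ a b σ, T a σ = T b σ → a = b) (hLT : ∀ a b σ, L a * T b σ = T (a * b) σ)
    (hTL : ∀ a b σ, T b σ * L a = T (σ • a * b) σ) (hLL : ∀ a b, L a * L b = L (a * b))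
    (hL1 : L 1 = 1) (hL : ∀ a, a ≠ 0 → ∃ e, e ≠ 0 ∧ L a = T e 1)
    (Q₁ Q₂ : Subgroup Q) (g : Q) (hg : ∀ u ∈ Q₂, g⁻¹ * u * g ∈ Q₂) {m : ℕ} (hm : 0 < m)
    (hgm : ∀ i, g ^ i ∈ Q₂ ↔ m ∣ i) (hgen : ∀ σ ∈ Q₁, ∃ i : ℕ, ∃ u ∈ Q₂, σ = g ^ i * u)
    (b : Q → M) (hb0 : ∀ σ, b σ ≠ 0)
    (hb : ∀ σ ∈ Q₂, ∀ τ ∈ Q₂, c σ τ * b (σ * τ) = b σ * σ • b τ) :
    ∃ b : Q → M, (∀ σ, b σ ≠ 0) ∧ ∀ σ ∈ Q₁, ∀ τ ∈ Q₁, c σ τ * b (σ * τ) = b σ * σ • b τ := by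
  have hsm : ∀ (σ : Q) (a : M), a ≠ 0 → σ • a ≠ 0 := fun σ a ha => (smul_ne_zero_iff_ne σ).2 ha
  let N : Q → Γ → Prop := fun σ x => ∃ e, e ≠ 0 ∧ x = T e σ
  have hNmul : ∀ {σ τ x y}, N σ x → N τ y → N (σ * τ) (x * y) := by
    rintro σ τ x y ⟨e, he, rfl⟩ ⟨e', he', rfl⟩
    exact ⟨_, mul_ne_zero (mul_ne_zero he (hsm _ _ he')) (h0 _ _), hmul _ _ _ _⟩
  have hNpow : ∀ {σ x}, N σ x → ∀ i : ℕ, N (σ ^ i) (x ^ i) := fun {σ x} hx i => by
    induction i with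
    | zero =>
      rw [pow_zero, pow_zero, ← hL1]
      exact hL 1 one_ne_zero
    | succ i ih => rw [pow_succ, pow_succ]; exact hNmul ih hx
  have hNc : ∀ {σ x}, N σ x → ∀ a, x * L a = L (σ • a) * x := by
    rintro σ x ⟨e, -, rfl⟩ a
    rw [hTL, hLT]
  have hNi : ∀ {σ x}, N σ x → ∀ a a', L a * x = L a' * x → a = a' := by
    rintro σ x ⟨e, he, rfl⟩ a a' h1
    rw [hLT, hLT] at h1
    exact mul_right_cancel₀ he (hinj _ _ _ h1)
  have hNe : ∀ {σ x y}, N σ x → N σ y → ∃ a, a ≠ 0 ∧ x = L a * y := by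
    rintro σ x y ⟨e, he, rfl⟩ ⟨e', he', rfl⟩
    exact ⟨e / e', div_ne_zero he he', by rw [hLT, div_mul_cancel₀ _ he']⟩
  let s : Q → Γ := fun u => T (b u)⁻¹ u
  have hNs : ∀ u, N u (s u) := fun u => ⟨_, inv_ne_zero (hb0 u), rfl⟩
  have hs : ∀ u ∈ Q₂, ∀ v ∈ Q₂, s u * s v = s (u * v) := fun u hu v hv => by
    show T _ _ * T _ _ = T _ _
    rw [hmul]
    congr 1
    have h1 := hb u hu v hv
    have h2 := hb0 u
    have h3 := hb0 (u * v)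
    have h4 := hsm u _ (hb0 v)
    rw [smul_inv'']
    field_simp
    linear_combination h1
  have hpw : ∀ i : ℕ, ∀ u ∈ Q₂, (g ^ i)⁻¹ * u * g ^ i ∈ Q₂ := fun i => by
    induction i with
    | zero => intro u hu; simpa using hu
    | succ i ih =>
      intro u hu
      have := hg _ (ih u hu)
      rwa [show g⁻¹ * ((g ^ i)⁻¹ * u * g ^ i) * g = (g ^ (i + 1))⁻¹ * u * g ^ (i + 1) by
        rw [pow_succ]; group] at this
  have hnp : ∀ γ : Γ, (∀ u ∈ Q₂, s u * γ = γ * s (g⁻¹ * u * g)) →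
      ∀ i : ℕ, ∀ u ∈ Q₂, s u * γ ^ i = γ ^ i * s ((g ^ i)⁻¹ * u * g ^ i) := fun γ hγ i => by
    induction i with
    | zero => intro u _; simp
    | succ i ih =>
      intro u hu
      rw [show (g ^ (i + 1))⁻¹ * u * g ^ (i + 1) = g⁻¹ * ((g ^ i)⁻¹ * u * g ^ i) * g by
        rw [pow_succ]; group, pow_succ, ← mul_assoc, ih u hu, mul_assoc, hγ _ (hpw i u hu),
        mul_assoc (γ ^ i)]
  -- step 1
  have hN0 : N g (T 1 g) := ⟨1, one_ne_zero, rfl⟩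
  have hd : ∀ u : Q, ∃ d, d ≠ 0 ∧ T 1 g * s (g⁻¹ * u * g) = L d * (s u * T 1 g) := fun u => by
    have h1 := hNmul hN0 (hNs (g⁻¹ * u * g))
    rw [show g * (g⁻¹ * u * g) = u * g by group] at h1
    exact hNe h1 (hNmul (hNs u) hN0)
  choose d hd0 hd using hd
  have hdc : ∀ u ∈ Q₂, ∀ v ∈ Q₂, d (u * v) = d u * u • d v := fun u hu v hv => by
    apply hNi (hNmul (hNs (u * v)) hN0)
    rw [← hd, show g⁻¹ * (u * v) * g = (g⁻¹ * u * g) * (g⁻¹ * v * g) by group,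
      ← hs _ (hg u hu) _ (hg v hv), ← mul_assoc, hd u, mul_assoc, mul_assoc, hd v,
      ← mul_assoc (s u), hNc (hNs u), ← hs u hu v hv, ← hLL]
    simp only [mul_assoc]
  obtain ⟨x, hx0, hx⟩ := fin_h1 Q₂ d (fun u _ => hd0 u) hdc
  have hNL : ∀ {σ y} (a : M), a ≠ 0 → N σ y → N σ (L a * y) := fun {σ y} a ha hy => by
    have := hNmul (hL a ha) hy
    rwa [one_mul] at this
  obtain ⟨γ, hNγ, hγ⟩ : ∃ γ : Γ, N g γ ∧ ∀ u ∈ Q₂, s u * γ = γ * s (g⁻¹ * u * g) := by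
    refine ⟨L x * T 1 g, hNL x hx0 hN0, fun u hu => ?_⟩
    rw [← mul_assoc, hNc (hNs u), hx u hu, mul_assoc (L x), hd u, ← mul_assoc (L x), hLL,
      mul_comm x, mul_assoc]
  -- step 2
  have hw : g ^ m ∈ Q₂ := (hgm m).2 dvd_rfl
  obtain ⟨a, ha0, ha⟩ := hNe (hNpow hNγ m) (hNs (g ^ m))
  have ha1 : ∀ u ∈ Q₂, u • a = a := fun u hu => by
    apply hNi (hNs (u * g ^ m))
    have h1 := hnp γ hγ m u hu
    rw [ha, ← mul_assoc, hNc (hNs u), mul_assoc, hs u hu _ hw, mul_assoc,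
      hs _ hw _ (hpw m u hu)] at h1
    rw [h1]
    congr 2
    group
  have ha2 : g • a = a := by
    apply hNi (hNmul hNγ (hNs (g ^ m)))
    have h1 : γ * γ ^ m = γ ^ m * γ := (pow_mul_comm' γ m).symm
    rw [ha, ← mul_assoc, hNc hNγ, mul_assoc, mul_assoc, hγ _ hw] at h1
    rw [h1]
    congr 3
    group
  -- step 3
  obtain ⟨y, hy1, hy⟩ := cyc_norm h Q₂ g hg hm hgm (a := a⁻¹)
    (fun u hu => by rw [smul_inv'', ha1 u hu]) (by rw [smul_inv'', ha2])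
  have hy0 : y ≠ 0 := by
    rintro rfl
    exact inv_ne_zero ha0
      (hy.symm.trans (Finset.prod_eq_zero (Finset.mem_range.2 hm) (smul_zero _)))
  have hp : ∀ i : ℕ, (L y * γ) ^ i = L (∏ j ∈ Finset.range i, g ^ j • y) * γ ^ i := fun i => by
    induction i with
    | zero => simp [hL1]
    | succ i ih =>
      rw [pow_succ, ih, Finset.prod_range_succ, ← hLL, mul_assoc, ← mul_assoc (γ ^ i),
        hNc (hNpow hNγ i), pow_succ]
      simp only [mul_assoc]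
  refine step_glue T c h0 hmul hinj Q₁ Q₂ g hpw hgm hgen s (L y * γ) hs
    (fun i u => hNmul (hNpow (hNL y hy0 hNγ) i) (hNs u)) (hnp _ fun u hu => ?_) ?_
  · rw [← mul_assoc, hNc (hNs u), hy1 u hu, mul_assoc, hγ u hu, mul_assoc (L y)]
  · rw [hp, hy, ha, ← mul_assoc, hLL, inv_mul_cancel₀ ha0, hL1, one_mul]

end Step

/-- One step: `Q₁ = ⟨Q₂, g⟩`, `Q₂` normal of index `m`. Normalise `c σ u = 1` for `u ∈ Q₂`, kill
`u ↦ c u (g ^ i)` by `fin_h1`; the cocycle is then inflated from the cyclic group, use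
`cyc_norm` for `a = ∏ c (g ^ i) g`. -/
theorem fin_step (h : ∀ x : Fin 2 → M, ¬ AlgebraicIndependent K x) (Q₁ Q₂ : Subgroup Q) (g : Q)
    (hg1 : g ∈ Q₁) (h21 : Q₂ ≤ Q₁) (hg : ∀ u ∈ Q₂, g⁻¹ * u * g ∈ Q₂) {m : ℕ} (hm : 0 < m)
    (hgm : ∀ i, g ^ i ∈ Q₂ ↔ m ∣ i) (hgen : ∀ σ ∈ Q₁, ∃ i : ℕ, ∃ u ∈ Q₂, σ = g ^ i * u)
    (c : Q → Q → M) (h0 : ∀ σ τ, c σ τ ≠ 0)
    (hc : ∀ σ τ ρ, σ • c τ ρ * c σ (τ * ρ) = c (σ * τ) ρ * c σ τ)
    (hb : ∃ b : Q → M, (∀ σ, b σ ≠ 0) ∧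
      ∀ σ ∈ Q₂, ∀ τ ∈ Q₂, c σ τ * b (σ * τ) = b σ * σ • b τ) :
    ∃ b : Q → M, (∀ σ, b σ ≠ 0) ∧ ∀ σ ∈ Q₁, ∀ τ ∈ Q₁, c σ τ * b (σ * τ) = b σ * σ • b τ := by
  obtain ⟨b, hb0, hb⟩ := hb
  have hc1 : ∀ τ, c 1 τ = c 1 1 := fun τ => by
    have := hc 1 1 τ
    rw [one_smul, one_mul, one_mul, mul_comm (c 1 τ) (c 1 1)] at this
    exact mul_right_cancel₀ (h0 1 τ) this
  have hc2 : ∀ σ : Q, σ • c 1 1 = c σ 1 := fun σ => by
    have := hc σ 1 1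
    rw [mul_one, mul_one] at this
    exact mul_right_cancel₀ (h0 σ 1) this
  let T : M → Q → Function.End (Q → M) := fun a σ f ρ => a * c σ (σ⁻¹ * ρ) * σ • f (σ⁻¹ * ρ)
  have hmul : ∀ a σ b τ, T a σ * T b τ = T (a * σ • b * c σ τ) (σ * τ) := fun a σ b τ => by
    funext f ρ
    show a * c σ (σ⁻¹ * ρ) * σ • (b * c τ (τ⁻¹ * (σ⁻¹ * ρ)) * τ • f (τ⁻¹ * (σ⁻¹ * ρ))) =
      a * σ • b * c σ τ * c (σ * τ) ((σ * τ)⁻¹ * ρ) * (σ * τ) • f ((σ * τ)⁻¹ * ρ)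
    have h1 := hc σ τ (τ⁻¹ * (σ⁻¹ * ρ))
    rw [mul_inv_cancel_left] at h1
    rw [mul_inv_rev, mul_assoc τ⁻¹, smul_mul', smul_mul', mul_smul]
    linear_combination (a * σ • b * σ • τ • f (τ⁻¹ * (σ⁻¹ * ρ))) * h1
  have h11 := h0 1 1
  refine step_aux T (fun a => T (a / c 1 1) 1) c h h0 hmul (fun a a' σ h1 => ?_)
    (fun a a' σ => ?_) (fun a a' σ => ?_) (fun a a' => ?_) ?_
    (fun a ha => ⟨_, div_ne_zero ha h11, rfl⟩) Q₁ Q₂ g hg hm hgm hgen b hb0 hb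
  · have h2 : a * c σ (σ⁻¹ * 1) * σ • (1 : M) = a' * c σ (σ⁻¹ * 1) * σ • (1 : M) :=
      congrFun (congrFun h1 fun _ => 1) 1
    rw [smul_one, mul_one, mul_one, mul_one] at h2
    exact mul_right_cancel₀ (h0 _ _) h2
  · show T _ _ * T _ _ = _
    rw [hmul, one_mul, one_smul, hc1 σ]
    congr 1
    field_simp
  · show T _ _ * T _ _ = _
    have h2 := h0 σ 1
    rw [hmul, mul_one, div_eq_mul_inv, smul_mul', smul_inv'', hc2]
    congr 1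
    field_simp
  · show T _ _ * T _ _ = T _ _
    rw [hmul, one_mul, one_smul]
    congr 1
    field_simp
  · funext f ρ
    show 1 / c 1 1 * c 1 (1⁻¹ * ρ) * (1 : Q) • f (1⁻¹ * ρ) = f ρ
    rw [one_smul, inv_one, one_mul, hc1 ρ]
    field_simp

end Pool.Agent.P.MP_ee618e_ag.X
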