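import Pool.Agent.P.MP_ee618e_ag.X.TS3

/-! TS4: from cyclic groups to all finite groups. -/

namespace Pool.Agent.P.MP_ee618e_ag.X

open IsDedekindDomain Polynomial
open scoped Classical

variable {K M Q : Type} [Field K] [IsAlgClosed K] [Field M] [Algebra K M] [Group Q] [Finite Q]
  [MulSemiringAction Q M] [FaithfulSMul Q M] [SMulCommClass Q K M]

omit [IsAlgClosed K] [Algebra K M] [SMulCommClass Q K M] [FaithfulSMul Q M] [Finite Q] in
theorem ts4_ne (σ : Q) {x : M} (hx : x ≠ 0) : σ • x ≠ 0 :=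
  (map_ne_zero (MulSemiringAction.toRingHom Q M σ)).2 hx

omit [IsAlgClosed K] [Algebra K M] [SMulCommClass Q K M] [FaithfulSMul Q M] [Finite Q] in
theorem ts4_div (σ : Q) (x y : M) : σ • (x / y) = σ • x / σ • y :=
  map_div₀ (MulSemiringAction.toRingHom Q M σ) x y

omit [IsAlgClosed K] [Algebra K M] [SMulCommClass Q K M] [FaithfulSMul Q M] in
/-- normalise `c σ u = 1` for `u ∈ P`, multiply the cocycle identity over `Q / P` -/
theorem fin_res (P : Subgroup Q) (c : Q → Q → M) (h0 : ∀ σ τ, c σ τ ≠ 0)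
    (hc : ∀ σ τ ρ, σ • c τ ρ * c σ (τ * ρ) = c (σ * τ) ρ * c σ τ)
    (hb : ∃ b : Q → M, (∀ σ, b σ ≠ 0) ∧ ∀ σ ∈ P, ∀ τ ∈ P, c σ τ * b (σ * τ) = b σ * σ • b τ) :
    ∃ b : Q → M, (∀ σ, b σ ≠ 0) ∧ ∀ σ τ, c σ τ ^ P.index * b (σ * τ) = b σ * σ • b τ := by
  obtain ⟨b, b0, hb⟩ := hb
  obtain ⟨F, F0, hF⟩ : ∃ F : Q → M, (∀ ρ, F ρ ≠ 0) ∧
      ∀ ρ, ∀ u ∈ P, c ρ u * F (ρ * u) = F ρ * ρ • b u := by
    refine ⟨fun ρ => (ρ : Q ⧸ P).out • b ((ρ : Q ⧸ P).out⁻¹ * ρ) /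
      c (ρ : Q ⧸ P).out ((ρ : Q ⧸ P).out⁻¹ * ρ), fun ρ => div_ne_zero (ts4_ne _ (b0 _)) (h0 _ _),
      fun ρ u hu => ?_⟩
    have e : ((ρ * u : Q) : Q ⧸ P) = (ρ : Q ⧸ P) := QuotientGroup.mk_mul_of_mem ρ hu
    have hm : (ρ : Q ⧸ P).out⁻¹ * ρ ∈ P := QuotientGroup.eq.1 (QuotientGroup.out_eq' _)
    simp only [e]
    generalize (ρ : Q ⧸ P).out = r at hm
    obtain ⟨v, rfl⟩ : ∃ v, ρ = r * v := ⟨r⁻¹ * ρ, by simp⟩
    rw [inv_mul_cancel_left] at hm
    rw [mul_assoc r, inv_mul_cancel_left, inv_mul_cancel_left]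
    have e1 := hc r v u
    have e2 := congrArg (r • ·) (hb v hm u hu)
    simp only [smul_mul', ← mul_smul] at e2
    have n1 := h0 r v
    have n2 := h0 r (v * u)
    field_simp
    linear_combination c r (v * u) * e2 - r • b (v * u) * e1
  let h : Q → Q → M := fun σ ρ => c σ ρ * F (σ * ρ) / σ • F ρ
  have hne : ∀ σ ρ, h σ ρ ≠ 0 := fun σ ρ =>
    div_ne_zero (mul_ne_zero (h0 _ _) (F0 _)) (ts4_ne _ (F0 _))
  have hinv : ∀ σ ρ, ∀ u ∈ P, h σ (ρ * u) = h σ ρ := by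
    intro σ ρ u hu
    have e1 := hc σ ρ u
    have e2 := hF (σ * ρ) u hu
    have e3 := congrArg (σ • ·) (hF ρ u hu)
    simp only [smul_mul', ← mul_smul] at e3
    simp only [h]
    rw [div_eq_div_iff (ts4_ne _ (F0 _)) (ts4_ne _ (F0 _)), ← mul_assoc σ]
    apply mul_left_cancel₀ (ts4_ne σ (h0 ρ u))
    linear_combination F (σ * ρ * u) * σ • F ρ * e1 + c σ ρ * σ • F ρ * e2 -
      c σ ρ * F (σ * ρ) * e3
  have hco : ∀ σ τ ρ, σ • h τ ρ * h σ (τ * ρ) = h (σ * τ) ρ * c σ τ := by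
    intro σ τ ρ
    have e1 := hc σ τ ρ
    have n1 := ts4_ne σ (F0 (τ * ρ))
    have n2 := ts4_ne (σ * τ) (F0 ρ)
    simp only [h, ts4_div, smul_mul', ← mul_smul, mul_assoc σ]
    field_simp
    linear_combination F (σ * (τ * ρ)) * e1
  have : Fintype (Q ⧸ P) := Fintype.ofFinite _
  refine ⟨fun σ => ∏ x : Q ⧸ P, h σ x.out, fun σ => Finset.prod_ne_zero_iff.2 fun x _ => hne _ _,
    fun σ τ => ?_⟩
  have e1 : ∏ x : Q ⧸ P, h σ x.out = ∏ x : Q ⧸ P, h σ (τ * x.out) := by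
    rw [← Equiv.prod_comp (MulAction.toPerm τ) fun x : Q ⧸ P => h σ x.out]
    refine Finset.prod_congr rfl fun x _ => ?_
    obtain ⟨u, hu⟩ := QuotientGroup.mk_out_eq_mul P (τ * x.out)
    have e : MulAction.toPerm τ x = ((τ * x.out : Q) : Q ⧸ P) := by
      rw [MulAction.toPerm_apply]
      conv_lhs => rw [← QuotientGroup.out_eq' x]
      rfl
    rw [e, hu, hinv _ _ _ u.2]
  have e2 : σ • ∏ x : Q ⧸ P, h τ x.out = ∏ x : Q ⧸ P, σ • h τ x.out :=
    map_prod (MulSemiringAction.toRingHom Q M σ) _ _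
  simp only
  rw [e1, e2, ← Finset.prod_mul_distrib, Subgroup.index_eq_card, Nat.card_eq_fintype_card,
    ← Finset.card_univ, ← Finset.prod_const, ← Finset.prod_mul_distrib]
  refine Finset.prod_congr rfl fun x _ => ?_
  rw [mul_comm, ← hco, mul_comm]

/-- the cocycle splits on some subgroup of order `p ^ n` -/
theorem ts4_chain (h : ∀ x : Fin 2 → M, ¬ AlgebraicIndependent K x) (c : Q → Q → M)
    (h0 : ∀ σ τ, c σ τ ≠ 0) (hc : ∀ σ τ ρ, σ • c τ ρ * c σ (τ * ρ) = c (σ * τ) ρ * c σ τ)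
    {p : ℕ} (hp : p.Prime) (n : ℕ) (hn : p ^ n ∣ Nat.card Q) :
    ∃ P : Subgroup Q, Nat.card P = p ^ n ∧ ∃ b : Q → M, (∀ σ, b σ ≠ 0) ∧
      ∀ σ ∈ P, ∀ τ ∈ P, c σ τ * b (σ * τ) = b σ * σ • b τ := by
  have := Fact.mk hp
  induction n with
  | zero =>
    refine ⟨⊥, by simp, fun _ => c 1 1, fun _ => h0 _ _, fun σ hσ τ hτ => ?_⟩
    rw [Subgroup.mem_bot.1 hσ, Subgroup.mem_bot.1 hτ, one_smul]
  | succ n ih =>
    obtain ⟨H, hH, hb⟩ := ih ((pow_dvd_pow p n.le_succ).trans hn)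
    obtain ⟨L, hL, hHL⟩ := Sylow.exists_subgroup_card_pow_succ hn hH
    have hcard : Nat.card (H.subgroupOf L) = p ^ n := by
      rw [← hH]
      exact Nat.card_congr (Subgroup.subgroupOfEquivOfLe hHL).toEquiv
    have hind : (H.subgroupOf L).index = p := by
      have := (H.subgroupOf L).card_mul_index
      rw [hcard, hL, pow_succ] at this
      exact Nat.eq_of_mul_eq_mul_left (pow_pos hp.pos n) this
    have : (H.subgroupOf L).Normal := Subgroup.normal_of_index_eq_minFac_card (by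
      rw [hind, hL, hp.pow_minFac n.succ_ne_zero])
    have hq : Nat.card (L ⧸ H.subgroupOf L) = p := hind
    have : Nontrivial (L ⧸ H.subgroupOf L) := by
      rw [← Finite.one_lt_card_iff_nontrivial, hq]
      exact hp.one_lt
    obtain ⟨x, hx⟩ := exists_ne (1 : L ⧸ H.subgroupOf L)
    obtain ⟨g, rfl⟩ := QuotientGroup.mk_surjective x
    have hord : orderOf (g : L ⧸ H.subgroupOf L) = p :=
      orderOf_eq_prime (by rw [← hq, pow_card_eq_one']) hx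
    refine ⟨L, hL, fin_step h L H g g.2 hHL (fun u hu => ?_) hp.pos (fun i => ?_)
      (fun σ hσ => ?_) c h0 hc hb⟩
    · have := Subgroup.Normal.conj_mem' ‹(H.subgroupOf L).Normal› ⟨u, hHL hu⟩ hu g
      exact this
    · rw [← hord, orderOf_dvd_iff_pow_eq_one, ← QuotientGroup.mk_pow, QuotientGroup.eq_one_iff,
        Subgroup.mem_subgroupOf, Subgroup.coe_pow]
    · obtain ⟨i, hi⟩ := mem_powers_of_prime_card hq (g' := ((⟨σ, hσ⟩ : L) : L ⧸ H.subgroupOf L)) hx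
      simp only at hi
      rw [← QuotientGroup.mk_pow, QuotientGroup.eq, Subgroup.mem_subgroupOf] at hi
      exact ⟨i, ((g : Q) ^ i)⁻¹ * σ, hi, by simp⟩

/-- `p`-subgroups by induction on the order (`Sylow.exists_subgroup_card_pow_succ`,
subgroups of index `p` are normal) and `fin_step`; the indices of the Sylow subgroups and of
the trivial group generate the unit ideal -/
theorem fin_h2 (h : ∀ x : Fin 2 → M, ¬ AlgebraicIndependent K x) (c : Q → Q → M)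
    (h0 : ∀ σ τ, c σ τ ≠ 0) (hc : ∀ σ τ ρ, σ • c τ ρ * c σ (τ * ρ) = c (σ * τ) ρ * c σ τ) :
    ∃ b : Q → M, (∀ σ, b σ ≠ 0) ∧ ∀ σ τ, c σ τ * b (σ * τ) = b σ * σ • b τ := by
  let S : AddSubgroup ℤ :=
    { carrier := {n | ∃ b : Q → M, (∀ σ, b σ ≠ 0) ∧
        ∀ σ τ, c σ τ ^ n * b (σ * τ) = b σ * σ • b τ}
      zero_mem' := ⟨fun _ => 1, fun _ => one_ne_zero, fun σ τ => by simp⟩
      add_mem' := by
        rintro m n ⟨a, a0, ha⟩ ⟨b, b0, hb⟩
        refine ⟨fun σ => a σ * b σ, fun σ => mul_ne_zero (a0 σ) (b0 σ), fun σ τ => ?_⟩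
        rw [zpow_add₀ (h0 σ τ), smul_mul', mul_mul_mul_comm, ha, hb, mul_mul_mul_comm]
      neg_mem' := by
        rintro n ⟨b, b0, hb⟩
        refine ⟨fun σ => (b σ)⁻¹, fun σ => inv_ne_zero (b0 σ), fun σ τ => ?_⟩
        rw [zpow_neg, smul_inv'', ← mul_inv, hb, mul_inv] }
  have key : ∀ p : ℕ, p.Prime → ∃ n : ℕ, ¬ p ∣ n ∧ (n : ℤ) ∈ S := by
    intro p hp
    obtain ⟨P, hP, hb⟩ := ts4_chain h c h0 hc hp ((Nat.card Q).factorization p)
      (Nat.ordProj_dvd _ _)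
    obtain ⟨b, b0, hb⟩ := fin_res P c h0 hc hb
    refine ⟨P.index, fun hd => ?_, b, b0, fun σ τ => by rw [zpow_natCast, hb]⟩
    refine Nat.pow_succ_factorization_not_dvd (Nat.card_pos (α := Q)).ne' hp ?_
    conv_rhs => rw [← P.card_mul_index, hP]
    rw [pow_succ]
    exact Nat.mul_dvd_mul_left _ hd
  obtain ⟨a, ha⟩ := Int.subgroup_cyclic S
  have ha1 : a.natAbs = 1 := by
    by_contra hne
    obtain ⟨p, hp, hpa⟩ := Nat.exists_prime_and_dvd hne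
    obtain ⟨n, hn, hS⟩ := key p hp
    rw [ha, AddSubgroup.mem_closure_singleton] at hS
    obtain ⟨k, hk⟩ := hS
    apply hn
    have := congrArg Int.natAbs hk
    rw [smul_eq_mul, Int.natAbs_mul, Int.natAbs_natCast] at this
    exact this ▸ hpa.mul_left _
  have haS : a ∈ S := ha ▸ AddSubgroup.subset_closure rfl
  have h1 : (1 : ℤ) ∈ S := by
    rcases Int.natAbs_eq_iff.1 ha1 with rfl | rfl
    · exact haS
    · simpa using S.neg_mem haS
  obtain ⟨b, b0, hb⟩ := h1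
  exact ⟨b, b0, fun σ τ => by simpa using hb σ τ⟩

end Pool.Agent.P.MP_ee618e_ag.X
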