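import Pool.Agent.P.MP_ee618e_ag.X.TS4
import Pool.Agent.P.MP_ee618e_ag.X.G4

/-! TS5: vanishing of smooth second cohomology in transcendence degree one. -/

namespace Pool.Agent.P.MP_ee618e_ag.X

open IsDedekindDomain Polynomial
open scoped Classical

variable {Ω : Type} [Field Ω]

/-- the fixed field of `G ⊓ Fix T` -/
def tsM (K : Subfield Ω) {G : Subgroup (Au Ω)} (hGK : G ≤ Fix K) (T : Finset Ω) :
    IntermediateField K Ω where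
  carrier := {x | ∀ u ∈ G, (∀ t ∈ T, u t = t) → u x = x}
  mul_mem' := fun {x y} hx hy u hu hT => by rw [map_mul, hx u hu hT, hy u hu hT]
  add_mem' := fun {x y} hx hy u hu hT => by rw [map_add, hx u hu hT, hy u hu hT]
  algebraMap_mem' := fun r u hu _ => hGK hu r r.2
  inv_mem' := fun x hx u hu hT => by rw [map_inv₀, hx u hu hT]

theorem tsM_stable (K : Subfield Ω) {G : Subgroup (Au Ω)} (hGK : G ≤ Fix K) (T : Finset Ω)
    (hT : ∀ σ ∈ G, ∀ t ∈ T, σ t ∈ T) {σ : Au Ω} (hσ : σ ∈ G) {x : Ω} (hx : x ∈ tsM K hGK T) :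
    σ x ∈ tsM K hGK T := by
  intro u hu huT
  have h1 : (σ⁻¹ * u * σ) x = x := by
    refine hx _ (G.mul_mem (G.mul_mem (G.inv_mem hσ) hu) hσ) fun t ht => ?_
    rw [au_mul, au_mul, huT _ (hT σ hσ t ht), au_inv, σ.symm_apply_apply]
  rw [au_mul, au_mul, au_inv] at h1
  exact σ.symm_apply_eq.1 h1

/-- restriction to the fixed field -/
def tsR (K : Subfield Ω) {G : Subgroup (Au Ω)} (hGK : G ≤ Fix K) (T : Finset Ω)
    (hT : ∀ σ ∈ G, ∀ t ∈ T, σ t ∈ T) : G →* (tsM K hGK T ≃ₐ[K] tsM K hGK T) where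
  toFun σ :=
    { toFun := fun x => ⟨σ.1 x, tsM_stable K hGK T hT σ.2 x.2⟩
      invFun := fun x => ⟨σ.1.symm x, tsM_stable K hGK T hT (G.inv_mem σ.2) x.2⟩
      left_inv := fun x => Subtype.ext (σ.1.symm_apply_apply x)
      right_inv := fun x => Subtype.ext (σ.1.apply_symm_apply x)
      map_mul' := fun x y => Subtype.ext (map_mul σ.1 _ _)
      map_add' := fun x y => Subtype.ext (map_add σ.1 _ _)
      commutes' := fun r => Subtype.ext (hGK σ.2 r r.2) }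
  map_one' := AlgEquiv.ext fun _ => rfl
  map_mul' _ _ := AlgEquiv.ext fun _ => rfl

theorem ts_model (K : Subfield Ω) {G : Subgroup (Au Ω)} (hGK : G ≤ Fix K) (T : Finset Ω)
    (hT : ∀ σ ∈ G, ∀ t ∈ T, σ t ∈ T) :
    ∃ (M : IntermediateField K Ω) (φ : G →* (M ≃ₐ[K] M)), (∀ σ x, (φ σ x : Ω) = σ.1 x) ∧
      ∀ σ τ : G, φ σ = φ τ ↔ Ag T σ τ := by
  refine ⟨tsM K hGK T, tsR K hGK T hT, fun _ _ => rfl, fun σ τ => ⟨fun h t ht => ?_, fun h => ?_⟩⟩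
  · have hm : t ∈ tsM K hGK T := fun u _ hu => hu t ht
    exact congrArg Subtype.val (AlgEquiv.congr_fun h ⟨t, hm⟩)
  · refine AlgEquiv.ext fun x => Subtype.ext ?_
    have h1 : (τ.1⁻¹ * σ.1) x = x := by
      refine x.2 _ (G.mul_mem (G.inv_mem τ.2) σ.2) fun t ht => ?_
      rw [au_mul, h t ht, au_inv, τ.1.symm_apply_apply]
    rw [au_mul, au_inv] at h1
    exact τ.1.symm_apply_eq.1 h1

/-- the multiplicative version -/
theorem ts_mul (K : Subfield Ω) [IsAlgClosed K] (hK : TD K Set.univ 1)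
    {G : Subgroup (Au Ω)} (hG : FO G) (hGK : G ≤ Fix K) (T : Finset Ω)
    (hT : ∀ σ ∈ G, ∀ t ∈ T, σ t ∈ T) (c : Au Ω → Au Ω → K) (h0 : ∀ σ τ, c σ τ ≠ 0)
    (hs : ∀ σ ∈ G, ∀ σ' ∈ G, ∀ τ ∈ G, ∀ τ' ∈ G, Ag T σ σ' → Ag T τ τ' → c σ τ = c σ' τ')
    (hc : ∀ σ ∈ G, ∀ τ ∈ G, ∀ ρ ∈ G, c τ ρ * c σ (τ * ρ) = c (σ * τ) ρ * c σ τ) :
    ∃ b : Au Ω → Ω, (∀ σ, b σ ≠ 0) ∧ (∀ σ ∈ G, ∀ τ ∈ G, Ag T σ τ → b σ = b τ) ∧
      ∀ σ ∈ G, ∀ τ ∈ G, c σ τ * b (σ * τ) = b σ * σ (b τ) := by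
  obtain ⟨M, φ, hφ, hag⟩ := ts_model K hGK T hT
  obtain ⟨s, hsG, hs'⟩ := exists_reps (G := G) T fun t _ => hG t
  have hfin : Finite φ.range := by
    have : (φ.range : Set (M ≃ₐ[K] M)).Finite := by
      refine (Set.finite_range fun τ : s => φ ⟨τ.1, hsG _ τ.2⟩).subset ?_
      rintro _ ⟨σ, rfl⟩
      obtain ⟨τ, hτ, h⟩ := hs' σ.1 σ.2
      exact ⟨⟨τ, hτ⟩, ((hag σ ⟨τ, hsG _ hτ⟩).2 h).symm⟩
    exact this
  have hM : ∀ x : Fin 2 → M, ¬ AlgebraicIndependent K x := fun x hx =>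
    hK (M.val ∘ x) (fun _ => trivial) (hx.map' (f := M.val) Subtype.val_injective)
  choose r hr using fun q : φ.range => q.2
  have hrefl : ∀ σ : Au Ω, Ag T σ σ := fun _ _ _ => rfl
  have hmul : ∀ p q : φ.range, Ag T (r (p * q)) (r p * r q) := fun p q => by
    have := (hag (r (p * q)) (r p * r q)).1 (by rw [map_mul, hr, hr, hr]; rfl)
    exact this
  obtain ⟨b, hb0, hb⟩ := fin_h2 (K := K) (Q := φ.range) hM
    (fun p q => algebraMap K M (c (r p) (r q))) (fun p q => by simpa using h0 _ _) (by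
      intro p q u
      have e1 : p • algebraMap K M (c (r q) (r u)) = algebraMap K M (c (r q) (r u)) :=
        p.1.commutes _
      rw [e1, ← map_mul, ← map_mul,
        hs _ (r p).2 _ (r p).2 _ (r (q * u)).2 _ (G.mul_mem (r q).2 (r u).2) (hrefl _) (hmul q u),
        hs _ (r (p * q)).2 _ (G.mul_mem (r p).2 (r q).2) _ (r u).2 _ (r u).2 (hmul p q) (hrefl _),
        hc _ (r p).2 _ (r q).2 _ (r u).2])
  refine ⟨fun σ => if h : σ ∈ G then (b (φ.rangeRestrict ⟨σ, h⟩) : Ω) else 1, fun σ => ?_,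
    fun σ hσ τ hτ h => ?_, fun σ hσ τ hτ => ?_⟩
  · dsimp only
    split_ifs with h
    · exact fun h' => hb0 _ (Subtype.ext h')
    · exact one_ne_zero
  · simp only [dif_pos hσ, dif_pos hτ]
    rw [show φ.rangeRestrict ⟨σ, hσ⟩ = φ.rangeRestrict ⟨τ, hτ⟩ from
      Subtype.ext ((hag ⟨σ, hσ⟩ ⟨τ, hτ⟩).2 h)]
  · simp only [dif_pos hσ, dif_pos hτ, dif_pos (G.mul_mem hσ hτ)]
    have h1 := congrArg Subtype.val (hb (φ.rangeRestrict ⟨σ, hσ⟩) (φ.rangeRestrict ⟨τ, hτ⟩))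
    have ha : ∀ (σ : Au Ω) (hσ : σ ∈ G), Ag T (r (φ.rangeRestrict ⟨σ, hσ⟩)) σ := fun σ hσ =>
      (hag _ ⟨σ, hσ⟩).1 (hr _)
    rw [hs _ (r _).2 _ hσ _ (r _).2 _ hτ (ha σ hσ) (ha τ hτ), ← map_mul] at h1
    rw [← hφ ⟨σ, hσ⟩]
    exact h1

/-- `T` stable, `M` the fixed field of `G ⊓ Fix T`, `Q` the image of `G` in `Au M`; `fin_h2` for
`ζ ^ c`; `b ^ N` is a cocycle, `h90`, take an `N`-th root -/
theorem tsen [IsAlgClosed Ω] (K : Subfield Ω) [IsAlgClosed K] (hK : TD K Set.univ 1)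
    {G : Subgroup (Au Ω)} (hG : FO G) (hGK : G ≤ Fix K) {N : ℕ} (hN : (N : Ω) ≠ 0)
    {c : Au Ω → Au Ω → ZMod N} (hs : Sm2 G c) (hc : Coc G c) : Cob G c := by
  have hN0 : N ≠ 0 := by
    rintro rfl
    exact hN Nat.cast_zero
  haveI : NeZero (N : Ω) := ⟨hN⟩
  haveI : NeZero N := ⟨hN0⟩
  obtain ⟨ζ, hζ⟩ := HasEnoughRootsOfUnity.exists_primitiveRoot Ω N
  have hζK : ζ ∈ K := root_mem K (Nat.pos_of_ne_zero hN0) K.one_mem hζ.pow_eq_one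
  have hζ0 : ζ ≠ 0 := hζ.ne_zero hN0
  obtain ⟨T0, hT0⟩ := hs
  obtain ⟨T, hT0T, -, hT⟩ := exists_stable (G := G) T0 fun t _ => hG t
  obtain ⟨b, hb0, hbs, hb⟩ := ts_mul K hK hG hGK T hT
    (fun σ τ => ⟨ζ ^ (c σ τ).val, K.pow_mem hζK _⟩)
    (fun σ τ h => pow_ne_zero _ hζ0 (congrArg Subtype.val h))
    (fun σ hσ σ' hσ' τ hτ τ' hτ' h h' => by
      simp only [hT0 σ hσ σ' hσ' τ hτ τ' hτ' (fun t ht => h t (hT0T ht))
        (fun t ht => h' t (hT0T ht))])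
    (fun σ hσ τ hτ ρ hρ => Subtype.ext (by
      show ζ ^ _ * ζ ^ _ = ζ ^ _ * ζ ^ _
      rw [← pow_val_add hζ hN0, ← pow_val_add hζ hN0, hc σ hσ τ hτ ρ hρ]))
  replace hb : ∀ σ ∈ G, ∀ τ ∈ G, ζ ^ (c σ τ).val * b (σ * τ) = b σ * σ (b τ) := hb
  have hpow : ∀ n : ℕ, (ζ ^ n) ^ N = 1 := fun n => by
    rw [← pow_mul, mul_comm, pow_mul, hζ.pow_eq_one, one_pow]
  obtain ⟨x, hx0, hx⟩ := h90 (G := G) T (fun t _ => hG t) (fun σ => b σ ^ N)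
    (fun σ _ => pow_ne_zero _ (hb0 σ))
    (fun σ hσ τ hτ => by
      rw [map_pow, ← mul_pow, ← hb σ hσ τ hτ, mul_pow, hpow, one_mul])
    (fun σ hσ τ hτ h => by simp only [hbs σ hσ τ hτ h])
  obtain ⟨y, rfl⟩ := IsAlgClosed.exists_pow_nat_eq x (Nat.pos_of_ne_zero hN0)
  have hy0 : y ≠ 0 := fun h => hx0 (by rw [h, zero_pow hN0])
  have hγ : ∀ σ : Au Ω, ∃ a : ZMod N, σ ∈ G → σ y = ζ ^ a.val * (b σ * y) := fun σ => by
    by_cases hσ : σ ∈ G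
    · have hne : b σ * y ≠ 0 := mul_ne_zero (hb0 σ) hy0
      obtain ⟨a, ha⟩ := exists_pow_val (η := σ y / (b σ * y)) hζ hN0 (by
        rw [div_pow, ← map_pow, hx σ hσ, mul_pow]
        exact div_self (mul_ne_zero (pow_ne_zero _ (hb0 σ)) hx0))
      exact ⟨a, fun _ => by rw [← ha, div_mul_cancel₀ _ hne]⟩
    · exact ⟨0, fun h => absurd h hσ⟩
  choose γ hγ using hγ
  refine ⟨fun σ => -γ σ, ⟨insert y T, Set.subset_univ _, fun σ hσ τ hτ h => ?_⟩,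
    fun σ hσ τ hτ => ?_⟩
  · have h1 := hγ σ hσ
    rw [h y (Finset.mem_insert_self _ _), hγ τ hτ,
      hbs σ hσ τ hτ fun t ht => h t (Finset.mem_insert_of_mem ht)] at h1
    have h2 := pow_val_inj hζ hN0 (mul_right_cancel₀ (mul_ne_zero (hb0 τ) hy0) h1)
    simp only [h2]
  · have h1 := hγ _ (G.mul_mem hσ hτ)
    have hf : σ ζ = ζ := hGK hσ ζ hζK
    rw [au_mul, hγ τ hτ, map_mul, map_mul, map_pow, hf, hγ σ hσ] at h1
    have h2 : ζ ^ (γ σ + γ τ + c σ τ).val * (b (σ * τ) * y) =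
        ζ ^ (γ (σ * τ)).val * (b (σ * τ) * y) := by
      rw [← h1, pow_val_add hζ hN0, pow_val_add hζ hN0]
      linear_combination (ζ ^ (γ σ).val * ζ ^ (γ τ).val * y) * hb σ hσ τ hτ
    have h3 := pow_val_inj hζ hN0 (mul_right_cancel₀ (mul_ne_zero (hb0 _) hy0) h2)
    simp only [← h3]
    ring

/-- cocycles inflated from a group of automorphisms of a field of transcendence degree one -/
theorem tsen_trans {Ω' : Type} [Field Ω'] [IsAlgClosed Ω'] (K : Subfield Ω') [IsAlgClosed K]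
    (hK : TD K Set.univ 1) {G : Subgroup (Au Ω)} (ρ : G →* Au Ω') (hρ : FO ρ.range)
    (hρK : ∀ σ, ρ σ ∈ Fix (K : Set Ω')) {N : ℕ} (hN : (N : Ω') ≠ 0)
    (pull : ∀ T' : Finset Ω', ∃ T : Finset Ω, ∀ σ τ : G, Ag T σ τ → Ag T' (ρ σ) (ρ τ))
    {c : Au Ω → Au Ω → ZMod N} (hc : Coc G c)
    (hs : ∃ T' : Finset Ω', ∀ σ σ' τ τ' : G, Ag T' (ρ σ) (ρ σ') → Ag T' (ρ τ) (ρ τ') →
      c σ τ = c σ' τ') : Cob G c := by
  obtain ⟨T', hT'⟩ := hs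
  have hr : ∀ q : Au Ω', ∃ σ : G, q ∈ ρ.range → ρ σ = q := fun q => by
    by_cases h : q ∈ ρ.range
    · obtain ⟨σ, hσ⟩ := h
      exact ⟨σ, fun _ => hσ⟩
    · exact ⟨1, fun h' => absurd h' h⟩
  choose r hr using hr
  have key : ∀ σ τ : G, c (r (ρ σ)) (r (ρ τ)) = c σ τ := fun σ τ =>
    hT' _ _ _ _ (by rw [hr _ ⟨σ, rfl⟩]; exact fun _ _ => rfl)
      (by rw [hr _ ⟨τ, rfl⟩]; exact fun _ _ => rfl)
  obtain ⟨β, ⟨S, -, hS⟩, hβ⟩ := tsen (G := ρ.range) (c := fun p q => c (r p) (r q)) K hK hρ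
    (by rintro _ ⟨σ, rfl⟩; exact hρK σ) hN
    ⟨T', fun p hp p' hp' q hq q' hq' h h' => hT' _ _ _ _ (by rwa [hr _ hp, hr _ hp'])
      (by rwa [hr _ hq, hr _ hq'])⟩
    (by
      rintro _ ⟨σ, rfl⟩ _ ⟨τ, rfl⟩ _ ⟨u, rfl⟩
      simp only [← map_mul, key]
      exact hc _ σ.2 _ τ.2 _ u.2)
  obtain ⟨T, hT⟩ := pull S
  refine ⟨fun σ => if h : σ ∈ G then β (ρ ⟨σ, h⟩) else 0,
    ⟨T, Set.subset_univ _, fun σ hσ τ hτ h => ?_⟩, fun σ hσ τ hτ => ?_⟩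
  · simp only [dif_pos hσ, dif_pos hτ]
    exact hS _ ⟨_, rfl⟩ _ ⟨_, rfl⟩ (hT ⟨σ, hσ⟩ ⟨τ, hτ⟩ h)
  · simp only [dif_pos hσ, dif_pos hτ, dif_pos (G.mul_mem hσ hτ)]
    have h1 := hβ _ ⟨⟨σ, hσ⟩, rfl⟩ _ ⟨⟨τ, hτ⟩, rfl⟩
    simp only [key, ← map_mul] at h1
    exact h1

end Pool.Agent.P.MP_ee618e_ag.X
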