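import Pool.Agent.P.MP_ee618e_ag.X.FT2

/-! V1: conjugacy of valuation rings, surjectivity onto residue automorphisms. -/

namespace Pool.Agent.P.MP_ee618e_ag.X

open IsDedekindDomain Polynomial
open scoped Classical

variable {Ω : Type} [Field Ω]

/-- Let `∑ a i x ^ i = 0` with `a i ∈ L ∩ O`, some `a i` a unit, `j` the largest such index and
`s = ∑_{i ≥ j} a i x ^ (i - j)`. Then `s` and `s x` lie in every valuation ring `O'` containing
`L ∩ O` (distinguish `x ∈ O'` and `x⁻¹ ∈ O'`). -/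
theorem val_loc (L : Subfield Ω) (O : ValuationSubring Ω) {x : Ω} (hx : x ∈ O)
    (ha : IsAlgebraic L x) : ∃ s ∈ O, s ∉ O.nonunits ∧ ∀ O' : ValuationSubring Ω,
      (∀ y ∈ L, y ∈ O → y ∈ O') → s ∈ O' ∧ s * x ∈ O' := by
  obtain ⟨p, hp, hpx⟩ := ha
  obtain ⟨i0, hi0, hmax⟩ := (Finset.range (p.natDegree + 1)).exists_max_image
    (fun i => O.valuation (p.coeff i : Ω)) ⟨0, by simp⟩
  have hlead : O.valuation (p.coeff p.natDegree : Ω) ≠ 0 := by
    simpa using Polynomial.leadingCoeff_ne_zero.2 hp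
  have hv0 : O.valuation (p.coeff i0 : Ω) ≠ 0 := fun e => hlead
    (le_antisymm (e ▸ hmax _ (by simp)) zero_le)
  have hc0 : (p.coeff i0 : Ω) ≠ 0 := by simpa using hv0
  let a : ℕ → Ω := fun i => (p.coeff i : Ω) / p.coeff i0
  have haL : ∀ i, a i ∈ L := fun i => L.div_mem (p.coeff i).2 (p.coeff i0).2
  have haO : ∀ i ≤ p.natDegree, a i ∈ O := fun i hi => by
    rw [← O.valuation_le_one_iff, map_div₀]
    exact div_le_one_of_le₀ (hmax i (by simpa [Nat.lt_succ_iff] using hi)) zero_le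
  have hsum : ∑ i ∈ Finset.range (p.natDegree + 1), a i * x ^ i = 0 := by
    rw [Polynomial.aeval_eq_sum_range] at hpx
    have : ∑ i ∈ Finset.range (p.natDegree + 1), a i * x ^ i =
        (∑ i ∈ Finset.range (p.natDegree + 1), p.coeff i • x ^ i) / p.coeff i0 := by
      rw [Finset.sum_div]
      exact Finset.sum_congr rfl fun i _ => by
        rw [Subfield.smul_def, smul_eq_mul, div_mul_eq_mul_div]
    rw [this, hpx, zero_div]
  have hi0' : i0 ≤ p.natDegree := by simpa [Nat.lt_succ_iff] using hi0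
  have h1 : a i0 ∉ O.nonunits := by
    simp only [a, div_self hc0, O.mem_nonunits_iff, map_one, lt_self_iff_false, not_false_eq_true]
  set j := Nat.findGreatest (fun i => a i ∉ O.nonunits) p.natDegree with hj
  have hj1 : a j ∉ O.nonunits := Nat.findGreatest_spec (P := fun i => a i ∉ O.nonunits) hi0' h1
  have hj2 : ∀ i, j < i → i ≤ p.natDegree → a i ∈ O.nonunits := fun i h h' =>
    not_not.1 (Nat.findGreatest_is_greatest h h')
  obtain ⟨m, hm⟩ := Nat.exists_eq_add_of_le (Nat.findGreatest_le (P := fun i => a i ∉ O.nonunits)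
    p.natDegree)
  rw [← hj] at hm
  have hmem : ∀ O' : ValuationSubring Ω, (∀ y ∈ L, y ∈ O → y ∈ O') → x ∈ O' →
      ∑ i ∈ Finset.range (m + 1), a (j + i) * x ^ i ∈ O' := fun O' hO' hx' =>
    sum_mem fun i hi => mul_mem (hO' _ (haL _) (haO _ (by
      have := Finset.mem_range.1 hi; omega))) (pow_mem hx' _)
  refine ⟨∑ i ∈ Finset.range (m + 1), a (j + i) * x ^ i, hmem O (fun _ _ h => h) hx, fun h => ?_,
    fun O' hO' => ?_⟩
  · rw [Finset.sum_range_succ', add_zero, pow_zero, mul_one] at h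
    have h2 : ∑ i ∈ Finset.range m, a (j + (i + 1)) * x ^ (i + 1) ∈ O.nonunits := by
      refine sum_mem fun i hi => ?_
      have h3 := hj2 (j + (i + 1)) (by omega) (by have := Finset.mem_range.1 hi; omega)
      rw [O.mem_nonunits_iff] at h3 ⊢
      rw [map_mul]
      exact mul_lt_one_of_lt_of_le h3 ((O.valuation_le_one_iff _).2 (pow_mem hx _))
    exact hj1 (by simpa using sub_mem h h2)
  · rcases O'.mem_or_inv_mem x with hx' | hx'
    · exact ⟨hmem O' hO' hx', mul_mem (hmem O' hO' hx') hx'⟩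
    by_cases hx0 : x = 0
    · exact ⟨hmem O' hO' (hx0 ▸ zero_mem _), by rw [hx0, mul_zero]; exact zero_mem _⟩
    rw [hm, add_assoc, Finset.sum_range_add] at hsum
    have e : (∑ i ∈ Finset.range (m + 1), a (j + i) * x ^ i) * x =
        -∑ i ∈ Finset.range j, a i * x⁻¹ ^ (j - (i + 1)) := by
      refine mul_right_cancel₀ (pow_ne_zero j hx0) ?_
      have e1 : (∑ i ∈ Finset.range (m + 1), a (j + i) * x ^ i) * x * x ^ j =
          (∑ i ∈ Finset.range (m + 1), a (j + i) * x ^ (j + i)) * x := by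
        rw [mul_right_comm, Finset.sum_mul]
        congr 1
        exact Finset.sum_congr rfl fun i _ => by ring
      rw [e1, eq_neg_of_add_eq_zero_right hsum, neg_mul, neg_mul, Finset.sum_mul, Finset.sum_mul]
      congr 1
      refine Finset.sum_congr rfl fun i hi => ?_
      obtain ⟨k, hk⟩ := Nat.exists_eq_add_of_le (Nat.succ_le_of_lt (Finset.mem_range.1 hi))
      rw [hk, Nat.succ_eq_add_one, Nat.add_sub_cancel_left, inv_pow]
      field_simp
      ring
    have h2 : (∑ i ∈ Finset.range (m + 1), a (j + i) * x ^ i) * x ∈ O' := by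
      rw [e]
      exact neg_mem (sum_mem fun i hi => mul_mem (hO' _ (haL _) (haO _ (by
        have := Finset.mem_range.1 hi; omega))) (pow_mem hx' _))
    exact ⟨by simpa [mul_assoc, hx0] using mul_mem h2 hx', h2⟩

/-- the elements of all valuation rings containing `L ∩ O` -/
def v1B (L : Subfield Ω) (O : ValuationSubring Ω) : Subring Ω where
  carrier := {x | ∀ O' : ValuationSubring Ω, (∀ y ∈ L, y ∈ O → y ∈ O') → x ∈ O'}
  mul_mem' := fun ha hb O' h => mul_mem (ha O' h) (hb O' h)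
  one_mem' := fun O' _ => one_mem O'
  add_mem' := fun ha hb O' h => add_mem (ha O' h) (hb O' h)
  zero_mem' := fun O' _ => zero_mem O'
  neg_mem' := fun ha O' h => neg_mem (ha O' h)

/-- `L ∩ O` -/
def v1A (L : Subfield Ω) (O : ValuationSubring Ω) : Subring Ω := L.toSubring ⊓ O.toSubring

section Aux

variable (L : Subfield Ω) (O : ValuationSubring Ω)

theorem v1_le : v1A L O ≤ v1B L O := fun _ hx O' h => h _ hx.1 hx.2

instance v1_inv : IsInvariantSubring (Ω ≃ₐ[L] Ω) (v1B L O) :=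
  ⟨fun g _ hx O' h => hx (O'.comap (g : Ω →+* Ω)) fun y hy hO => by
    have e : g y = y := g.commutes ⟨y, hy⟩
    show g y ∈ O'
    rw [e]; exact h y hy hO⟩

noncomputable instance v1_alg : Algebra (v1A L O) (v1B L O) :=
  (Subring.inclusion (v1_le L O)).toAlgebra

instance v1_comm : SMulCommClass (Ω ≃ₐ[L] Ω) (v1A L O) (v1B L O) :=
  ⟨fun g a b => Subtype.ext (by
    have e : g a = a := g.commutes ⟨a, a.2.1⟩
    show g ((a : Ω) * b) = a * g b
    rw [map_mul, e])⟩

instance v1_isInv [IsGalois L Ω] : Algebra.IsInvariant (v1A L O) (v1B L O) (Ω ≃ₐ[L] Ω) :=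
  ⟨fun b hb => by
    obtain ⟨y, hy⟩ := (InfiniteGalois.mem_range_algebraMap_iff_fixed (k := L) (b : Ω)).2
      fun g => congrArg Subtype.val (hb g)
    exact ⟨⟨b, hy ▸ y.2, b.2 O fun _ _ h => h⟩, rfl⟩⟩

theorem v1_cont [IsGalois L Ω] [TopologicalSpace (v1B L O)] [DiscreteTopology (v1B L O)] :
    ContinuousSMul (Ω ≃ₐ[L] Ω) (v1B L O) := by
  refine continuousSMul_iff_stabilizer_isOpen.2 fun b => ?_
  convert stabilizer_isOpen_of_isIntegral (K := L) (b : Ω) using 1
  ext g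
  exact Subtype.ext_iff

/-- the residue map on `v1B` -/
noncomputable def v1r (O' : ValuationSubring Ω) (h : ∀ y ∈ L, y ∈ O → y ∈ O') :
    v1B L O →+* IsLocalRing.ResidueField O' :=
  (IsLocalRing.residue O').comp ((v1B L O).subtype.codRestrict O' fun b => b.2 O' h)

variable {L O}

theorem v1r_ker {O' : ValuationSubring Ω} (h : ∀ y ∈ L, y ∈ O → y ∈ O') (b : v1B L O) :
    b ∈ RingHom.ker (v1r L O O' h) ↔ (b : Ω) ∈ O'.nonunits := by
  rw [RingHom.mem_ker, v1r, RingHom.comp_apply, IsLocalRing.residue_eq_zero_iff,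
    ← ValuationSubring.coe_mem_nonunits_iff]
  rfl

/-- a valuation ring is determined by its centre -/
theorem v1_sub [Algebra.IsAlgebraic L Ω] {O₁ O₂ : ValuationSubring Ω}
    (h₁ : ∀ y ∈ L, y ∈ O₁ → y ∈ O) (h₂ : ∀ y ∈ L, y ∈ O → y ∈ O₂)
    (h : ∀ b ∈ v1B L O, b ∈ O₂.nonunits → b ∈ O₁.nonunits) {x : Ω} (hx : x ∈ O₁) : x ∈ O₂ := by
  obtain ⟨s, -, hs, hs'⟩ := val_loc L O₁ hx (Algebra.IsAlgebraic.isAlgebraic x)
  have hB : s ∈ v1B L O := fun O' hO' => (hs' O' fun y hy hO => hO' y hy (h₁ y hy hO)).1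
  have h3 : s ∉ O₂.nonunits := fun e => hs (h s hB e)
  rw [O₂.mem_nonunits_iff_or, not_or, not_not] at h3
  simpa [h3.1] using mul_mem h3.2 (hs' O₂ fun y hy hO => h₂ y hy (h₁ y hy hO)).2

theorem v1_nonunits (O' : ValuationSubring Ω) (g : Ω ≃ₐ[L] Ω) (x : Ω) :
    x ∈ (O'.comap (g : Ω →+* Ω)).nonunits ↔ g x ∈ O'.nonunits := by
  simp [ValuationSubring.mem_nonunits_iff_or]

/-- an automorphism which matches the centres matches the valuation rings -/
theorem v1_match [Algebra.IsAlgebraic L Ω] {O' : ValuationSubring Ω}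
    (h : ∀ y ∈ L, y ∈ O ↔ y ∈ O') (g : Ω ≃ₐ[L] Ω)
    (hg : ∀ b ∈ v1B L O, g b ∈ O'.nonunits ↔ b ∈ O.nonunits) (x : Ω) : g x ∈ O' ↔ x ∈ O := by
  have h1 : ∀ y ∈ L, y ∈ O'.comap (g : Ω →+* Ω) ↔ y ∈ O := fun y hy => by
    have e : g y = y := g.commutes ⟨y, hy⟩
    show g y ∈ O' ↔ _
    rw [e, h y hy]
  exact ⟨fun hx => v1_sub (O := O) (O₁ := O'.comap (g : Ω →+* Ω)) (fun y hy => (h1 y hy).1)
      (fun _ _ h => h) (fun b hb e => (v1_nonunits O' g b).2 ((hg b hb).2 e)) hx,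
    fun hx => v1_sub (O := O) (O₂ := O'.comap (g : Ω →+* Ω)) (fun _ _ h => h)
      (fun y hy => (h1 y hy).2) (fun b hb e => (hg b hb).1 ((v1_nonunits O' g b).1 e)) hx⟩

end Aux

variable [IsAlgClosed Ω] {S : Set Ω}

/-- the fixed field of `Fix S` -/
theorem v1_field (hS : Acl S = Set.univ) : ∃ L : Subfield Ω, IsGalois L Ω ∧ S ⊆ L ∧
    ∀ x ∈ L, ∃ n : ℕ, x ^ ringExpChar Ω ^ n ∈ Subfield.closure S := by
  let L : Subfield Ω :=
    { carrier := {x | ∀ σ ∈ Fix S, σ x = x}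
      mul_mem' := fun ha hb σ h => by rw [map_mul, ha σ h, hb σ h]
      one_mem' := fun σ _ => map_one σ
      add_mem' := fun ha hb σ h => by rw [map_add, ha σ h, hb σ h]
      zero_mem' := fun σ _ => map_zero σ
      neg_mem' := fun ha σ h => by rw [map_neg, ha σ h]
      inv_mem' := fun _ ha σ h => by rw [map_inv₀, ha σ h] }
  have hSL : S ⊆ L := fun x hx σ h => h x hx
  have halg : Algebra.IsAlgebraic L Ω := ⟨fun x => by
    have := acl_mono hSL (hS ▸ Set.mem_univ x)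
    rwa [Acl, Subfield.closure_eq] at this⟩
  have : ExpChar L (ringExpChar Ω) := (algebraMap L Ω).expChar (algebraMap L Ω).injective _
  have : PerfectRing L (ringExpChar Ω) := PerfectRing.ofSurjective _ _ fun x => by
    obtain ⟨y, hy⟩ := IsAlgClosed.exists_pow_nat_eq (x : Ω) (expChar_pos Ω (ringExpChar Ω))
    refine ⟨⟨y, fun σ h => frobenius_inj Ω (ringExpChar Ω) ?_⟩, Subtype.ext hy⟩
    rw [frobenius_def, frobenius_def, ← map_pow, hy, x.2 σ h]
  have : PerfectField L := PerfectRing.toPerfectField L (ringExpChar Ω)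
  have : IsAlgClosure L Ω := ⟨inferInstance, halg⟩
  exact ⟨L, IsGalois.mk, hSL, fun x hx => fixed_pow' hx⟩

/-- Replace `closure S` by the fixed field `L` of `Fix S` (`fixed_pow'`); `V = O ∩ L`, `B` the
integral closure of `V` in `Ω` (`iInf_valuationSubring_superset`), on which `Ω ≃ₐ[L] Ω` acts;
`Algebra.IsInvariant.exists_smul_of_under_eq_of_profinite` for the centres of `O`, `O'` on `B`,
and `val_loc`. -/
theorem pc_conj (hS : Acl S = Set.univ) (O O' : ValuationSubring Ω)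
    (h : ∀ x ∈ Subfield.closure S, x ∈ O ↔ x ∈ O') : ∃ τ ∈ Fix S, ∀ x, τ x ∈ O' ↔ x ∈ O := by
  obtain ⟨L, hL, hSL, hp⟩ := v1_field hS
  have hpow : ∀ (V : ValuationSubring Ω) (x : Ω) (n : ℕ), x ^ ringExpChar Ω ^ n ∈ V ↔ x ∈ V :=
    fun V x n => by
      rw [← V.valuation_le_one_iff, ← V.valuation_le_one_iff, map_pow,
        pow_le_one_iff (pow_pos (expChar_pos Ω (ringExpChar Ω)) n).ne']
  have h' : ∀ y ∈ L, y ∈ O ↔ y ∈ O' := fun y hy => by
    obtain ⟨n, hn⟩ := hp y hy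
    rw [← hpow O y n, ← hpow O' y n, h _ hn]
  let _ : TopologicalSpace (v1B L O) := ⊥
  have : DiscreteTopology (v1B L O) := ⟨rfl⟩
  have := v1_cont L O
  have := RingHom.ker_isPrime (v1r L O O fun _ _ h => h)
  have := RingHom.ker_isPrime (v1r L O O' fun y hy => (h' y hy).1)
  obtain ⟨g, hg⟩ := Algebra.IsInvariant.exists_smul_of_under_eq_of_profinite (A := v1A L O)
    (G := Ω ≃ₐ[L] Ω) (RingHom.ker (v1r L O O fun _ _ h => h))
    (RingHom.ker (v1r L O O' fun y hy => (h' y hy).1)) (by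
      ext a
      rw [Ideal.mem_under, Ideal.mem_under, v1r_ker, v1r_ker]
      show (a : Ω) ∈ _ ↔ (a : Ω) ∈ _
      rw [O.mem_nonunits_iff_or, O'.mem_nonunits_iff_or, h' _ (L.inv_mem a.2.1)])
  refine ⟨(g : Ω ≃+* Ω), fun x hx => g.commutes ⟨x, hSL hx⟩, v1_match h' g fun b hb => ?_⟩
  have e := Ideal.smul_mem_pointwise_smul_iff (a := g)
    (S := RingHom.ker (v1r L O O fun _ _ h => h)) (x := ⟨b, hb⟩)
  rwa [← hg, v1r_ker, v1r_ker] at e

/-- `Ideal.Quotient.stabilizerHom_surjective_of_profinite`; `B / Q` is the residue field of `O`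
by `val_loc`. -/
theorem pc_res (hS : Acl S = Set.univ) (O : ValuationSubring Ω)
    (e : Au (IsLocalRing.ResidueField O))
    (he : ∀ x : O, (x : Ω) ∈ Subfield.closure S →
      e (IsLocalRing.residue O x) = IsLocalRing.residue O x) :
    ∃ τ ∈ Fix S ⊓ St (O : Set Ω), ∀ x y : O, (y : Ω) = τ x →
      IsLocalRing.residue O y = e (IsLocalRing.residue O x) := by
  obtain ⟨L, hL, hSL, hp⟩ := v1_field hS
  have he' : ∀ x : O, (x : Ω) ∈ L → e (IsLocalRing.residue O x) = IsLocalRing.residue O x := by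
    intro x hx
    obtain ⟨n, hn⟩ := hp x hx
    obtain ⟨y, hy⟩ := IsLocalRing.residue_surjective (e (IsLocalRing.residue O x))
    have e1 : (y - x) ^ ringExpChar Ω ^ n = y ^ ringExpChar Ω ^ n - x ^ ringExpChar Ω ^ n :=
      Subtype.ext (by push_cast; exact sub_pow_expChar_pow _ _ _)
    have e2 := congrArg (IsLocalRing.residue O) e1
    have e3 := he (x ^ ringExpChar Ω ^ n) (by simpa using hn)
    rw [map_pow, map_pow] at e3
    rw [map_sub, map_pow, map_pow, map_pow, hy, e3, sub_self,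
      pow_eq_zero_iff (pow_pos (expChar_pos Ω (ringExpChar Ω)) n).ne', map_sub, sub_eq_zero] at e2
    rw [← hy, e2]
  let _ : TopologicalSpace (v1B L O) := ⊥
  have : DiscreteTopology (v1B L O) := ⟨rfl⟩
  have := v1_cont L O
  set ρ := v1r L O O fun _ _ h => h with hρ
  have := RingHom.ker_isPrime ρ
  have hint := Algebra.IsInvariant.isIntegral_of_profinite (A := v1A L O) (B := v1B L O)
    (G := Ω ≃ₐ[L] Ω)
  have hmax : (RingHom.ker ρ).IsMaximal := by
    refine Ideal.isMaximal_of_isIntegral_of_isMaximal_comap (R := v1A L O) _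
      (Ideal.isMaximal_iff.2 ⟨by simp, fun J a _ ha hJ => ?_⟩)
    rw [Ideal.mem_comap, v1r_ker, O.mem_nonunits_iff_or, not_or, not_not] at ha
    have h0 : (a : Ω) ≠ 0 := ha.1
    have := J.mul_mem_left ⟨(a : Ω)⁻¹, L.inv_mem a.2.1, ha.2⟩ hJ
    rwa [show (⟨(a : Ω)⁻¹, L.inv_mem a.2.1, ha.2⟩ * a : v1A L O) = 1 from
      Subtype.ext (inv_mul_cancel₀ h0)] at this
  have hloc : ∀ x : O, ∃ s t : v1B L O, ρ s ≠ 0 ∧ (t : Ω) = s * x := by
    intro x
    obtain ⟨s, -, hs, hs'⟩ := val_loc L O x.2 (Algebra.IsAlgebraic.isAlgebraic (x : Ω))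
    exact ⟨⟨s, fun O' h => (hs' O' h).1⟩, ⟨s * x, fun O' h => (hs' O' h).2⟩,
      fun h0 => hs ((v1r_ker _ _).1 h0), rfl⟩
  have hmul : ∀ (x : O) (s t : v1B L O), (t : Ω) = s * x →
      ρ t = ρ s * IsLocalRing.residue O x := fun x s t h => by
    rw [hρ, v1r, RingHom.comp_apply, RingHom.comp_apply, ← map_mul]
    exact congrArg _ (Subtype.ext h)
  have hsurj : Function.Surjective ρ := by
    intro r
    obtain ⟨x, rfl⟩ := IsLocalRing.residue_surjective r
    obtain ⟨s, t, hs, ht⟩ := hloc x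
    obtain ⟨u, i, hi, hu⟩ := hmax.exists_inv (x := s) hs
    refine ⟨u * t, ?_⟩
    have := congrArg ρ hu
    rw [map_add, RingHom.mem_ker.1 hi, add_zero, map_mul, map_one] at this
    rw [map_mul, hmul x s t ht, ← mul_assoc, this, one_mul]
  let ι := RingHom.quotientKerEquivOfSurjective hsurj
  have hι : ∀ b, ι (Ideal.Quotient.mk _ b) = ρ b := fun _ => rfl
  obtain ⟨g, hg⟩ := Ideal.Quotient.stabilizerHom_surjective_of_profinite (G := Ω ≃ₐ[L] Ω)
    ((RingHom.ker ρ).under (v1A L O)) (RingHom.ker ρ)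
    { ι.trans (e.trans ι.symm) with
      commutes' := Quotient.ind fun a => ι.symm_apply_eq.2 (he' ⟨a, a.2.2⟩ a.2.1) }
  have hg' : ∀ b : v1B L O, ρ (g.1 • b) = e (ρ b) := fun b =>
    ι.eq_symm_apply.1 (DFunLike.congr_fun hg (Ideal.Quotient.mk _ b))
  refine ⟨(g.1 : Ω ≃+* Ω), ⟨fun x hx => g.1.commutes ⟨x, hSL hx⟩,
    v1_match (fun _ _ => Iff.rfl) g.1 fun b hb => ?_⟩, fun x y hy => ?_⟩
  · rw [← (v1r_ker (fun _ _ h => h) (⟨b, hb⟩ : v1B L O)),
      ← show _ ↔ g.1 b ∈ O.nonunits from v1r_ker (fun _ _ h => h) (g.1 • (⟨b, hb⟩ : v1B L O)),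
      RingHom.mem_ker, RingHom.mem_ker, ← hρ, hg', map_eq_zero]
  · obtain ⟨s, t, hs, ht⟩ := hloc x
    have h1 := hmul y (g.1 • s) (g.1 • t) (by
      show g.1 t = g.1 s * y
      rw [ht, map_mul, hy]; rfl)
    rw [hg', hg', hmul x s t ht, map_mul] at h1
    exact (mul_left_cancel₀ ((map_ne_zero e).2 hs) h1).symm

end Pool.Agent.P.MP_ee618e_ag.X
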