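import Pool.Agent.P.MP_ee618e_ag.X.V1
import Pool.Agent.P.MP_ee618e_ag.X.G4

/-! V2: inertia groups and residue fields. -/

namespace Pool.Agent.P.MP_ee618e_ag.X

open IsDedekindDomain Polynomial
open scoped Classical

variable {Ω : Type} [Field Ω] {O : ValuationSubring Ω} {σ τ : Au Ω}

/-- the residue field -/
abbrev Rf (O : ValuationSubring Ω) : Type := IsLocalRing.ResidueField O

/-- the residue of an element of `O` (zero outside `O`) -/
noncomputable def res (O : ValuationSubring Ω) (x : Ω) : Rf O :=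
  if h : x ∈ O then IsLocalRing.residue O ⟨x, h⟩ else 0

theorem res_of {x : Ω} (hx : x ∈ O) : res O x = IsLocalRing.residue O ⟨x, hx⟩ := dif_pos hx

theorem res_coe (x : O) : res O x = IsLocalRing.residue O x := dif_pos x.2

theorem res_add {x y : Ω} (hx : x ∈ O) (hy : y ∈ O) : res O (x + y) = res O x + res O y := by
  rw [res_of hx, res_of hy, res_of (add_mem hx hy), ← map_add]
  rfl

theorem res_mul {x y : Ω} (hx : x ∈ O) (hy : y ∈ O) : res O (x * y) = res O x * res O y := by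
  rw [res_of hx, res_of hy, res_of (mul_mem hx hy), ← map_mul]
  rfl

theorem res_pow {x : Ω} (hx : x ∈ O) (n : ℕ) : res O (x ^ n) = res O x ^ n := by
  rw [res_of hx, res_of (pow_mem hx n), ← map_pow]
  rfl

theorem res_eq_iff {x y : Ω} (hx : x ∈ O) (hy : y ∈ O) :
    res O x = res O y ↔ x - y ∈ O.nonunits := by
  rw [res_of hx, res_of hy, ← sub_eq_zero, ← map_sub, IsLocalRing.residue_eq_zero_iff,
    ← ValuationSubring.coe_mem_nonunits_iff]
  rfl

theorem res_surj (z : Rf O) : ∃ x ∈ O, res O x = z := by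
  obtain ⟨x, rfl⟩ := IsLocalRing.residue_surjective z
  exact ⟨x, x.2, res_coe x⟩

theorem nonunits_st (h : σ ∈ St (O : Set Ω)) (x : Ω) : σ x ∈ O.nonunits ↔ x ∈ O.nonunits := by
  rw [O.mem_nonunits_iff_or, O.mem_nonunits_iff_or, ← map_inv₀, map_eq_zero]
  exact or_congr_right (not_congr (h x⁻¹))

theorem Ine.st (h : Ine O σ) : σ ∈ St (O : Set Ω) := by
  intro x
  refine ⟨fun hx => ?_, fun hx => ?_⟩
  · by_contra hn
    have h1 : x⁻¹ ∈ O.nonunits := O.inv_mem_nonunits_iff.2 (.inr hn)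
    have h2 := add_mem (h _ (O.nonunits_subset h1)) h1
    rw [sub_add_cancel, map_inv₀, O.inv_mem_nonunits_iff, map_eq_zero] at h2
    rcases h2 with h2 | h2
    · exact hn (h2 ▸ zero_mem O)
    · exact h2 hx
  · have h2 := add_mem (O.nonunits_subset (h x hx)) hx
    rwa [sub_add_cancel] at h2

theorem ine_one : Ine O 1 := by
  intro x _
  rw [show (1 : Au Ω) x = x from rfl, sub_self]
  exact zero_mem _

theorem Ine.mul (h : Ine O σ) (h' : Ine O τ) : Ine O (σ * τ) := by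
  intro x hx
  have := add_mem (h _ ((h'.st x).2 hx)) (h' x hx)
  rwa [sub_add_sub_cancel] at this

theorem Ine.inv (h : Ine O σ) : Ine O σ⁻¹ := by
  intro x hx
  have := neg_mem (h _ (((St (O : Set Ω)).inv_mem h.st x).2 hx))
  rwa [au_inv, RingEquiv.apply_symm_apply, neg_sub] at this

theorem Ine.conj (h : Ine O σ) (hτ : τ ∈ St (O : Set Ω)) : Ine O (τ⁻¹ * σ * τ) := by
  intro x hx
  refine (nonunits_st hτ _).1 ?_
  rw [map_sub, au_mul, au_mul, au_inv, RingEquiv.apply_symm_apply]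
  exact h _ ((hτ x).2 hx)

/-- the valuation ring `s⁻¹ O` -/
theorem Ine.cj (h : Ine O σ) (s : Au Ω) :
    ∃ O' : ValuationSubring Ω, (∀ x, x ∈ O' ↔ s x ∈ O) ∧ Ine O' (s⁻¹ * σ * s) := by
  refine ⟨O.comap (s : Ω →+* Ω), fun _ => Iff.rfl, fun x hx => ?_⟩
  have h1 := h (s x) hx
  rw [ValuationSubring.mem_nonunits_iff_or] at h1 ⊢
  have e : s ((s⁻¹ * σ * s) x - x) = σ (s x) - s x := by
    rw [map_sub, au_mul, au_mul, au_inv, RingEquiv.apply_symm_apply]
  rw [← e, map_eq_zero, ← map_inv₀] at h1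
  exact h1

theorem Ch.cj {Y : Type} [AddCommGroup Y] {k : Subfield Ω} {S S' : Set Ω} {χ : Au Ω → Y}
    (h : Ch k S χ) {s : Au Ω} (hk : s ∈ St (k : Set Ω))
    (hs : ∀ x, s x ∈ Subfield.closure S' ↔ x ∈ Subfield.closure S) : Ch k S' (cj s χ) := by
  refine ⟨fun σ hσ τ hτ => ?_, h.sm.cj (fun σ hσ => (fix_conj hs).2 hσ)
    fun x hx => (acl_conj hs x).2 hx, fun σ hσ => h.out _ fun e => hσ ((fix_conj hs).1 e),
    fun O hO σ hσ hi => ?_⟩
  · rw [X.cj, X.cj, X.cj, ← h.hom _ ((fix_conj hs).2 hσ) _ ((fix_conj hs).2 hτ)]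
    congr 1
    group
  · obtain ⟨O', h1, h2⟩ := hi.cj s
    exact h.unr O' (fun x hx => (h1 x).2 (hO ((hk x).2 hx))) _ ((fix_conj hs).2 hσ) h2

theorem not_nonunit {K : Subfield Ω} (hK : (K : Set Ω) ⊆ O) {x : Ω} (hx : x ∈ K) (h0 : x ≠ 0) :
    x ∉ O.nonunits := by
  rw [O.mem_nonunits_iff_or, not_or, not_not]
  exact ⟨h0, hK (K.inv_mem hx)⟩

/-- `(η - 1) u` is a nonunit -/
theorem unit_root {k : Subfield Ω} (hk : (k : Set Ω) ⊆ O) {η u : Ω} (hη : η ∈ k) (hu : u ∈ O)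
    (hu' : u ∉ O.nonunits) (h : σ u - u ∈ O.nonunits) (e : σ u = η * u) : η = 1 := by
  by_contra hn
  have h1 := not_nonunit hk (k.sub_mem hη k.one_mem) (sub_ne_zero.2 hn)
  rw [e, show η * u - u = (η - 1) * u by ring] at h
  rw [O.mem_nonunits_iff, not_lt] at h1 hu'
  rw [O.mem_nonunits_iff, map_mul] at h
  exact absurd h (not_lt.2 (one_le_mul h1 hu'))

theorem unit_of_pow {u : Ω} {N : ℕ} (hN : N ≠ 0) (h : u ^ N ∈ O) (h' : u ^ N ∉ O.nonunits) :
    u ∈ O ∧ u ∉ O.nonunits := by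
  rw [← O.valuation_le_one_iff, O.mem_nonunits_iff, map_pow] at *
  exact ⟨(pow_le_one_iff hN).1 h, fun e => h' ((pow_lt_one_iff hN).2 e)⟩

/-- if `τ x / x` were a nonunit, so would be `τ ^ n x / x` -/
theorem unit_of_fo (hτ : τ ∈ St (O : Set Ω)) {x : Ω} (hx : x ≠ 0)
    (hf : ∃ m, 0 < m ∧ (τ ^ m) x = x) : τ x / x ∈ O ∧ τ x / x ∉ O.nonunits := by
  obtain ⟨m, hm, e⟩ := hf
  have key : ∀ (n : ℕ) {a b : Ω}, b ≠ 0 → O.valuation a < O.valuation b →
      O.valuation ((τ ^ n) a) < O.valuation ((τ ^ n) b) := fun n a b hb hab => by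
    have h0 : 0 < O.valuation b := zero_lt_iff.2 ((_root_.map_ne_zero _).2 hb)
    have h1 : 0 < O.valuation ((τ ^ n) b) :=
      zero_lt_iff.2 ((_root_.map_ne_zero _).2 ((_root_.map_ne_zero _).2 hb))
    have h2 : a / b ∈ O.nonunits := by
      rw [O.mem_nonunits_iff, map_div₀]
      exact (div_lt_one₀ h0).2 hab
    have h3 := (nonunits_st (pow_mem hτ n) _).2 h2
    rw [O.mem_nonunits_iff, map_div₀, map_div₀] at h3
    exact (div_lt_one₀ h1).1 h3
  have h0 : 0 < O.valuation x := zero_lt_iff.2 ((_root_.map_ne_zero _).2 hx)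
  have h1 : ¬ O.valuation (τ x) < O.valuation x := fun hlt => by
    have := strictAnti_nat_of_succ_lt (f := fun n => O.valuation ((τ ^ n) x))
      (fun n => by simpa only [pow_succ, au_mul] using key n hx hlt) hm
    simp only [e, pow_zero] at this
    exact lt_irrefl _ this
  have h2 : ¬ O.valuation x < O.valuation (τ x) := fun hlt => by
    have := strictMono_nat_of_lt_succ (f := fun n => O.valuation ((τ ^ n) x))
      (fun n => by simpa only [pow_succ, au_mul] using key n ((_root_.map_ne_zero τ).2 hx) hlt) hm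
    simp only [e, pow_zero] at this
    exact lt_irrefl _ this
  rw [← O.valuation_le_one_iff, O.mem_nonunits_iff, map_div₀, div_le_one₀ h0, div_lt_one₀ h0]
  exact ⟨not_lt.1 h2, h1⟩

theorem FO.pow {G : Subgroup (Au Ω)} (hG : FO G) (hτ : τ ∈ G) (x : Ω) :
    ∃ m, 0 < m ∧ (τ ^ m) x = x := by
  obtain ⟨i, j, hij, e⟩ := Set.Finite.exists_lt_map_eq_of_forall_mem (f := fun n : ℕ => (τ ^ n) x)
    (t := {y | ∃ σ ∈ G, σ x = y}) (fun n => ⟨τ ^ n, pow_mem hτ n, rfl⟩) (hG x)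
  obtain ⟨m, rfl⟩ := Nat.exists_eq_add_of_lt hij
  refine ⟨m + 1, m.succ_pos, (τ ^ i).injective ?_⟩
  rw [← au_mul, ← pow_add, ← add_assoc]
  exact e.symm

/-- restriction of the decomposition group to the valuation ring -/
def v2res (O : ValuationSubring Ω) : St (O : Set Ω) →* RingAut O where
  toFun σ :=
    { toFun := fun x => ⟨(σ : Au Ω) x, (σ.2 x).2 x.2⟩
      invFun := fun x => ⟨(σ⁻¹ : St (O : Set Ω)).1 x, ((σ⁻¹).2 x).2 x.2⟩
      left_inv := fun x => Subtype.ext (σ.1.symm_apply_apply x)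
      right_inv := fun x => Subtype.ext (σ.1.apply_symm_apply x)
      map_mul' := fun x y => Subtype.ext (map_mul σ.1 (x : Ω) y)
      map_add' := fun x y => Subtype.ext (map_add σ.1 (x : Ω) y) }
  map_one' := rfl
  map_mul' := fun _ _ => rfl

/-- the action of the decomposition group on the residue field -/
theorem exists_rho (O : ValuationSubring Ω) : ∃ ρ : St (O : Set Ω) →* Au (Rf O),
    (∀ σ, ∀ x ∈ O, ρ σ (res O x) = res O ((σ : Au Ω) x)) ∧ ∀ σ, ρ σ = 1 ↔ Ine O σ := by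
  have h1 : ∀ (σ : St (O : Set Ω)), ∀ x ∈ O,
      (IsLocalRing.ResidueField.mapAut.comp (v2res O)) σ (res O x) = res O ((σ : Au Ω) x) :=
    fun σ x hx => by
      rw [res_of hx, res_of ((σ.2 x).2 hx)]
      rfl
  refine ⟨IsLocalRing.ResidueField.mapAut.comp (v2res O), h1, fun σ => ⟨fun h x hx => ?_,
    fun h => RingEquiv.ext fun z => ?_⟩⟩
  · rw [← res_eq_iff ((σ.2 x).2 hx) hx, ← h1 σ x hx, h]
    rfl
  · obtain ⟨x, hx, rfl⟩ := res_surj z
    rw [h1 σ x hx]
    exact (res_eq_iff ((σ.2 x).2 hx) hx).2 (h x hx)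

theorem rf_algClosed [IsAlgClosed Ω] (O : ValuationSubring Ω) : IsAlgClosed (Rf O) := by
  refine IsAlgClosed.of_exists_root _ fun p hp hirr => ?_
  obtain ⟨q, hq, hd, hm⟩ := Polynomial.lifts_and_degree_eq_and_monic
    (Polynomial.mem_lifts_of_surjective (IsLocalRing.residue_surjective (R := O)) p) hp
  obtain ⟨x, hx⟩ := IsAlgClosed.exists_aeval_eq_zero Ω q
    (by rw [hd]; exact (Polynomial.degree_pos_of_irreducible hirr).ne')
  obtain ⟨y, rfl⟩ := IsIntegrallyClosed.algebraMap_eq_of_integral (R := O) (K := Ω) ⟨q, hm, hx⟩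
  refine ⟨IsLocalRing.residue O y, ?_⟩
  rw [Polynomial.aeval_algebraMap_apply, map_eq_zero_iff _ Subtype.val_injective,
    Polynomial.coe_aeval_eq_eval] at hx
  rw [← hq, Polynomial.eval_map, Polynomial.eval₂_at_apply, hx, map_zero]

/-- the image of a subfield of `O` -/
theorem exists_bar {K : Subfield Ω} (hK : (K : Set Ω) ⊆ O) :
    ∃ (K' : Subfield (Rf O)) (e : K ≃+* K'), ∀ x : K, (e x : Rf O) = res O x := by
  let f : K →+* Rf O := (IsLocalRing.residue O).comp (K.subtype.codRestrict O fun x => hK x.2)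
  exact ⟨f.fieldRange, f.rangeRestrictFieldEquiv, fun x => (res_of (hK x.2)).symm⟩

end Pool.Agent.P.MP_ee618e_ag.X
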