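import Pool.Agent.P.MP_ee618e_ag.X.V2b
import Pool.Agent.P.MP_ee618e_ag.X.TS5

/-! V3: tame inertia, descent to the residue field, unramified cup products. -/

namespace Pool.Agent.P.MP_ee618e_ag.X

open IsDedekindDomain Polynomial
open scoped Classical

variable {Ω : Type} [Field Ω] [IsAlgClosed Ω] {O : ValuationSubring Ω} {S : Set Ω}

/-- `pc_res` in terms of `res` -/
theorem pc_res' (hS : Acl S = Set.univ) (O : ValuationSubring Ω) (e : Au (Rf O))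
    (he : e ∈ Fix (res O '' ((Subfield.closure S : Set Ω) ∩ O))) :
    ∃ τ ∈ Fix S ⊓ St (O : Set Ω), ∀ x ∈ O, res O (τ x) = e (res O x) := by
  obtain ⟨τ, hτ, h⟩ := pc_res hS O e fun x hx => by
    have h1 : e (res O x) = res O x := he _ ⟨x, ⟨hx, x.2⟩, rfl⟩
    simpa only [res, dif_pos x.2] using h1
  refine ⟨τ, hτ, fun x hx => ?_⟩
  have hx' : τ x ∈ O := (hτ.2 x).2 hx
  have h1 := h ⟨x, hx⟩ ⟨τ x, hx'⟩ rfl
  simpa only [res, dif_pos hx, dif_pos hx'] using h1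

/-- `pc_conj` for `O` and `σ⁻¹ O`, then `pc_res'` -/
theorem pc_ine (hS : Acl S = Set.univ) (O : ValuationSubring Ω) {σ : Au Ω}
    (hσ : σ ∈ St (Subfield.closure S : Set Ω))
    (h : ∀ x ∈ Subfield.closure S, x ∈ O → σ x - x ∈ O.nonunits) :
    ∃ τ ∈ Fix S, Ine O (σ * τ) := by
  have h1 : ∀ x ∈ Subfield.closure S, x ∈ O ↔ x ∈ O.comap (σ : Ω →+* Ω) := by
    intro x hx
    change x ∈ O ↔ σ x ∈ O
    constructor
    · intro hxO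
      have h2 : σ x - x ∈ O := O.nonunits_le (h x hx hxO)
      simpa using O.add_mem _ _ h2 hxO
    · intro hxO
      by_contra hn
      have h0 : x ≠ 0 := fun e => hn (e ▸ O.zero_mem)
      have hi : x⁻¹ ∈ O.nonunits := (O.mem_nonunits_iff_or).2 (Or.inr (by simpa using hn))
      have h2 := h x⁻¹ (inv_mem hx) (O.nonunits_le hi)
      have h3 : σ x⁻¹ ∈ O.nonunits := by simpa using O.nonunits.add_mem h2 hi
      rw [map_inv₀, O.mem_nonunits_iff_or] at h3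
      rcases h3 with h3 | h3
      · exact h0 (by simpa using h3)
      · exact h3 (by simpa using hxO)
  obtain ⟨τ₁, hτ₁, h2⟩ := pc_conj hS O _ h1
  have hst : σ * τ₁ ∈ St (O : Set Ω) := fun x => h2 x
  obtain ⟨ρ, hρ, -⟩ := exists_rho O
  have he : ρ ⟨_, hst⟩ ∈ Fix (res O '' ((Subfield.closure S : Set Ω) ∩ O)) := by
    rintro _ ⟨x, ⟨hx, hxO⟩, rfl⟩
    rw [hρ _ x hxO]
    have h3 : τ₁ x = x := (fix_closure S ▸ hτ₁ : τ₁ ∈ Fix (Subfield.closure S : Set Ω)) x hx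
    change res O (σ (τ₁ x)) = res O x
    rw [h3]
    exact (res_eq_iff (show σ x ∈ O from (h1 x hx).1 hxO) hxO).2 (h x hx hxO)
  obtain ⟨τ₂, hτ₂, h3⟩ := pc_res' hS O _ (inv_mem he)
  refine ⟨τ₁ * τ₂, mul_mem hτ₁ hτ₂.1, fun x hx => ?_⟩
  have hx2 : τ₂ x ∈ O := (hτ₂.2 x).2 hx
  have h4 := hρ ⟨_, hst⟩ (τ₂ x) hx2
  rw [h3 x hx, au_inv, RingEquiv.apply_symm_apply] at h4
  exact (res_eq_iff ((hst _).2 hx2) hx).1 h4.symm

omit [IsAlgClosed Ω] in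
/-- `kummer` gives `r` for `β` on `W`; `h` multiplies the unit `τ r / r` (`unit_of_fo`) by a root
of unity; `unit_root` -/
theorem tame {k : Subfield Ω} (hk : (k : Set Ω) ⊆ O) {N : ℕ} {ζ : Ω} (hζ : IsPrimitiveRoot ζ N)
    (hN : N ≠ 0) (hζk : ζ ∈ k) {G W : Subgroup (Au Ω)} (hG : FO G) (hGk : G ≤ Fix k) (hW : W ≤ G)
    {β : Au Ω → ZMod N} (hβ : Hom W β) (hs : Sm W Set.univ β) {τ h : Au Ω} (hτ : τ ∈ G)
    (hτO : τ ∈ St (O : Set Ω)) (hh : h ∈ W) (hn : τ⁻¹ * h * τ ∈ W) (hi : Ine O h) :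
    β (τ⁻¹ * h * τ) = β h := by
  have hζG : ∀ σ ∈ G, σ ζ = ζ := fun σ hσ => hGk hσ ζ hζk
  obtain ⟨r, hr0, hr⟩ := kummer hζ hN (fun σ hσ => hζG σ (hW hσ))
    (fun t _ => hG.mono hW t) hβ hs
  have hζ0 : ζ ≠ 0 := hζ.ne_zero hN
  have e1 := hr _ hn
  have e2 := hr _ hh
  have e3 : h (τ r) = ζ ^ (β (τ⁻¹ * h * τ)).val * τ r := by
    have e4 := congrArg τ e1
    rw [map_mul, map_pow, hζG τ hτ, au_mul, au_mul, au_inv, RingEquiv.apply_symm_apply] at e4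
    exact e4
  obtain ⟨hu, hu'⟩ := unit_of_fo hτO hr0 (hG.pow hτ r)
  have e5 : h (τ r / r) = ζ ^ (β (τ⁻¹ * h * τ)).val / ζ ^ (β h).val * (τ r / r) := by
    rw [map_div₀, e3, e2]
    field_simp
  have e6 := unit_root hk (k.div_mem (k.pow_mem hζk _) (k.pow_mem hζk _)) hu hu' (hi _ hu) e5
  exact pow_val_inj hζ hN ((div_eq_one_iff_eq (pow_ne_zero _ hζ0)).1 e6)

/-- `W = Fix S ⊓ St O`, `W₀ = W ⊓ Fix T` has finite index; by `pc_res'` the image of `W₀` is the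
group `Fix S₀`, `S₀` the residues of `closure (S ∪ T) ∩ O`; each nontrivial coset moves an
element of `S₀` -/
theorem desc (hS : Acl S = Set.univ) (O : ValuationSubring Ω) (T : Finset Ω) :
    ∃ T' : Finset (Rf O), ∀ σ ∈ Fix S ⊓ St (O : Set Ω),
      (∀ x ∈ O, res O x ∈ T' → res O (σ x) = res O x) →
      ∃ w ∈ Fix S ⊓ St (O : Set Ω), Ag T w 1 ∧ Ine O (w⁻¹ * σ) := by
  have hS' : Acl (S ∪ ↑T) = Set.univ :=
    Set.eq_univ_of_univ_subset (hS ▸ acl_mono Set.subset_union_left)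
  obtain ⟨s, hsG, hs⟩ := exists_reps (G := Fix S ⊓ St (O : Set Ω)) T
    fun t _ => (fo_fix hS).mono inf_le_left t
  have hch : ∀ τ : Au Ω, ∃ y : Ω, (∀ x ∈ Subfield.closure (S ∪ ↑T), x ∈ O →
      res O (τ x) = res O x) ∨
      (y ∈ Subfield.closure (S ∪ ↑T) ∧ y ∈ O ∧ res O (τ y) ≠ res O y) := by
    intro τ
    by_cases hτ : ∀ x ∈ Subfield.closure (S ∪ ↑T), x ∈ O → res O (τ x) = res O x
    · exact ⟨0, Or.inl hτ⟩
    · push Not at hτ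
      obtain ⟨y, hy⟩ := hτ
      exact ⟨y, Or.inr hy⟩
  choose y hy using hch
  refine ⟨s.image fun τ => res O (y τ), fun σ hσ hfix => ?_⟩
  obtain ⟨τ, hτ, hag⟩ := hs σ hσ
  have hστ : ∀ x ∈ Subfield.closure (S ∪ ↑T), σ x = τ x := by
    have h1 : τ⁻¹ * σ ∈ Fix (S ∪ ↑T) := by
      rintro x (hx | hx)
      · exact ((Fix S).mul_mem ((Fix S).inv_mem (hsG τ hτ).1) hσ.1) x hx
      · rw [au_mul, au_inv, hag x hx, RingEquiv.symm_apply_apply]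
    intro x hx
    have h2 := (fix_closure (S ∪ ↑T) ▸ h1 :
      τ⁻¹ * σ ∈ Fix (Subfield.closure (S ∪ ↑T) : Set Ω)) x hx
    rw [au_mul, au_inv, RingEquiv.symm_apply_eq] at h2
    exact h2
  have hσ0 : ∀ x ∈ Subfield.closure (S ∪ ↑T), x ∈ O → res O (σ x) = res O x := by
    rcases hy τ with h1 | ⟨h1, h2, h3⟩
    · intro x hx hxO
      rw [hστ x hx]
      exact h1 x hx hxO
    · exact absurd (hστ _ h1 ▸ hfix _ h2 (Finset.mem_image_of_mem _ hτ)) h3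
  obtain ⟨ρ, hρ, -⟩ := exists_rho O
  obtain ⟨w, hw, hwρ⟩ := pc_res' hS' O (ρ ⟨σ, hσ.2⟩) (by
    rintro _ ⟨x, ⟨hx, hxO⟩, rfl⟩
    rw [hρ _ x hxO]
    exact hσ0 x hx hxO)
  refine ⟨w, ⟨fix_anti Set.subset_union_left hw.1, hw.2⟩,
    fun t ht => hw.1 t (Or.inr ht), fun x hx => ?_⟩
  have h1 : σ x - w x ∈ O.nonunits := by
    refine (res_eq_iff ((hσ.2 x).2 hx) ((hw.2 x).2 hx)).1 ?_
    rw [hwρ x hx, hρ _ x hx]
  refine (nonunits_st hw.2 _).1 ?_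
  rw [map_sub, au_mul, au_inv, RingEquiv.apply_symm_apply]
  exact h1

/-- `tsen_trans` for the action on the residue field -/
theorem loc_cup {k : Subfield Ω} [IsAlgClosed k] (htd : TD k Set.univ 2) (hS : Acl S = Set.univ)
    (hk : (k : Set Ω) ⊆ S) {N : ℕ} (hN : (N : Ω) ≠ 0) {χ ψ : Au Ω → ZMod N} {S₁ S₂ : Set Ω}
    (h₁ : Fix S ≤ Fix S₁) (h₂ : Fix S ≤ Fix S₂) (hχ : Ch k S₁ χ) (hψ : Ch k S₂ ψ) :
    Loc k (Fix S) fun σ τ => χ σ * ψ τ := by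
  intro O hkO hO
  have := rf_algClosed O
  obtain ⟨K', e, he⟩ := exists_bar hkO
  have : IsAlgClosed K' := IsAlgClosed.of_ringEquiv k K' e
  have hK' : TD K' Set.univ 1 := res_td hkO hO htd fun x hx => he ⟨x, hx⟩ ▸ (e ⟨x, hx⟩).2
  obtain ⟨ρ, hρ, -⟩ := exists_rho O
  set G := Fix S ⊓ St (O : Set Ω) with hG
  let ρ' : G →* Au (Rf O) := ρ.comp (Subgroup.inclusion inf_le_right)
  have hρ' : ∀ σ : G, ∀ x ∈ O, ρ' σ (res O x) = res O ((σ : Au Ω) x) := fun σ x hx => hρ _ x hx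
  have key : ∀ {S₀ : Set Ω} {φ : Au Ω → ZMod N}, Fix S ≤ Fix S₀ → Ch k S₀ φ →
      ∃ T' : Finset (Rf O), ∀ σ σ' : G, Ag T' (ρ' σ) (ρ' σ') → φ σ = φ σ' := by
    intro S₀ φ h₀ hφ
    obtain ⟨T, -, hT⟩ := hφ.sm
    obtain ⟨T', hT'⟩ := desc hS O T
    refine ⟨T', fun σ σ' hag => ?_⟩
    obtain ⟨w, hw, hw1, hw2⟩ := hT' _ (σ'⁻¹ * σ).2 fun x hx hx' => by
      rw [← hρ' _ x hx, map_mul, map_inv, au_mul, au_inv, hag _ hx', RingEquiv.symm_apply_apply]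
    have e1 : φ w = 0 := (hT w (h₀ hw.1) 1 (one_mem _) hw1).trans hφ.hom.one
    have hm : w⁻¹ * ((σ'⁻¹ * σ : G) : Au Ω) ∈ Fix S₀ := h₀ (mul_mem (inv_mem hw.1) (σ'⁻¹ * σ).2.1)
    have e2 := hφ.unr O hkO _ hm hw2
    have e3 : (σ : Au Ω) = σ' * (w * (w⁻¹ * ((σ'⁻¹ * σ : G) : Au Ω))) := by
      simp
    rw [e3, hφ.hom _ (h₀ σ'.2.1) _ (mul_mem (h₀ hw.1) hm), hφ.hom _ (h₀ hw.1) _ hm, e1, e2]
    simp
  refine tsen_trans K' hK' ρ' ?_ ?_ ?_ ?_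
    (coc_cup (hχ.hom.mono (inf_le_left.trans h₁)) (hψ.hom.mono (inf_le_left.trans h₂))) ?_
  · intro z
    obtain ⟨x, hx, rfl⟩ := res_surj z
    refine ((fo_fix hS x).image (res O)).subset ?_
    rintro _ ⟨_, ⟨σ, rfl⟩, rfl⟩
    exact ⟨_, ⟨σ, σ.2.1, rfl⟩, (hρ' σ x hx).symm⟩
  · intro σ y hy
    obtain ⟨x, hx⟩ := e.surjective ⟨y, hy⟩
    have h1 : y = res O x := by rw [← he x, hx]
    rw [h1, hρ' σ x (hkO x.2), σ.2.1 x (hk x.2)]
  · intro h0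
    have h1 : e (N : k) = 0 := Subtype.ext (by simpa using h0)
    have h2 : (N : k) = 0 := (map_eq_zero e).1 h1
    exact hN (by simpa using congrArg (fun x : k => (x : Ω)) h2)
  · intro T'
    choose f hf hf' using res_surj (O := O)
    refine ⟨T'.image f, fun σ τ hag z hz => ?_⟩
    rw [← hf' z, hρ' σ _ (hf z), hρ' τ _ (hf z), hag _ (Finset.mem_image_of_mem _ hz)]
  · obtain ⟨T₁, hT₁⟩ := key h₁ hχ
    obtain ⟨T₂, hT₂⟩ := key h₂ hψ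
    refine ⟨T₁ ∪ T₂, fun σ σ' τ τ' hσ hτ => ?_⟩
    rw [hT₁ σ σ' fun t ht => hσ t (Finset.mem_union_left _ ht),
      hT₂ τ τ' fun t ht => hτ t (Finset.mem_union_right _ ht)]

end Pool.Agent.P.MP_ee618e_ag.X
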